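import Pool.Agent.SRP.StC

set_option autoImplicit false

/-! # SRP, module ADJ (helper17): changing the radii by a homeomorphism of the plane -/

open Set Metric Filter Topology Pool.Agent.SRF

namespace Pool.Agent.SRP

theorem adj_dist (i j : ℝ) : dist (i : ℂ) (j : ℂ) = |i - j| := by
  rw [Complex.dist_eq, ← Complex.ofReal_sub, Complex.norm_real, Real.norm_eq_abs]

/-- making the radii smaller -/
theorem adj_main (hCFIN : St_CFIN) (hROOM : St_ROOM) (hPOL : St_POL) (hINFP : St_INFP) (C : Conf)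
    (hC : C.Ok) (r : ℝ → ℝ) (hr : ∀ i ∈ C.I, 0 < r i ∧ r i ≤ C.rad i) :
    ∃ Φ : ℂ ≃ₜ ℂ, (∀ z, z ∉ OD → Φ z = z) ∧ (∀ x ∈ C.F, Φ (x : ℂ) = x) ∧
      ∀ i ∈ C.I, ∀ z ∈ closedBall (i : ℂ) (C.rad i),
        Φ z = i + ((r i / C.rad i : ℝ) : ℂ) * (z - i) := by
  obtain ⟨R, hR, hRok⟩ := hROOM C hC
  have hpol : ∀ i : ℝ, ∃ Φ : ℂ ≃ₜ ℂ, i ∈ C.I → (∀ z, z ∉ ball (i : ℂ) (R i) → Φ z = z) ∧
      ∀ z ∈ closedBall (i : ℂ) (C.rad i), Φ z = i + ((r i / C.rad i : ℝ) : ℂ) * (z - i) := by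
    intro i
    by_cases hi : i ∈ C.I
    · obtain ⟨Φ, h1, h2⟩ := hPOL (i : ℂ) (C.rad i) (r i) (R i) 0 (hC.pos i hi) (hR i hi)
        (hr i hi).1 ((hr i hi).2.trans_lt (hR i hi))
      refine ⟨Φ, fun _ => ⟨h1, fun z hz => ?_⟩⟩
      rw [h2 z hz]
      simp [cexpi]
    · exact ⟨Homeomorph.refl ℂ, fun h => absurd h hi⟩
  choose Ψ hΨ using hpol
  obtain ⟨Φ, h1, h2⟩ := hINFP ((fun x : ℝ => (x : ℂ)) '' C.I) (fun c => R c.re) (fun c => Ψ c.re) (by
      rintro _ ⟨i, hi, rfl⟩ _ ⟨j, hj, rfl⟩ hij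
      simp only [Complex.ofReal_re]
      have hij' : i ≠ j := fun h => hij (by rw [h])
      have h3 : R i + R j < |i - j| := hRok.apart i hi j hj hij'
      refine ball_disjoint_ball ?_
      rw [adj_dist]
      exact h3.le) (by
      intro ε hε
      have h3 := (hCFIN _ hRok).2.2.1 ε hε
      refine (h3.image fun x : ℝ => (x : ℂ)).subset ?_
      rintro _ ⟨⟨i, hi, rfl⟩, h4⟩
      exact ⟨i, ⟨hi, by simpa using h4⟩, rfl⟩) (by
      rintro _ ⟨i, hi, rfl⟩ z hz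
      simp only [Complex.ofReal_re] at hz ⊢
      exact (hΨ i hi).1 z hz)
  refine ⟨Φ, ?_, ?_, ?_⟩
  · intro z hz
    refine h2 z ?_
    rintro _ ⟨i, hi, rfl⟩ hzi
    simp only [Complex.ofReal_re] at hzi
    apply hz
    have h3 : |i| + R i < 1 := hRok.inside i hi
    rw [mem_ball, dist_zero_right]
    rw [mem_ball, dist_eq_norm] at hzi
    have h4 : ‖z‖ ≤ ‖z - (i : ℂ)‖ + ‖(i : ℂ)‖ := by
      have := norm_add_le (z - (i : ℂ)) (i : ℂ)
      rwa [sub_add_cancel] at this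
    rw [Complex.norm_real, Real.norm_eq_abs] at h4
    linarith
  · intro x hx
    refine h2 _ ?_
    rintro _ ⟨i, hi, rfl⟩ hxi
    simp only [Complex.ofReal_re] at hxi
    have h3 : R i < |x - i| := hRok.away i hi x hx
    rw [mem_ball, adj_dist] at hxi
    linarith
  · intro i hi z hz
    have hz' : z ∈ ball (i : ℂ) (R (i : ℂ).re) := by
      rw [Complex.ofReal_re]
      rw [mem_closedBall] at hz
      rw [mem_ball]
      exact hz.trans_lt (hR i hi)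
    have h3 := h1 (i : ℂ) ⟨i, hi, rfl⟩ z hz'
    rw [h3, Complex.ofReal_re]
    exact (hΨ i hi).2 z hz

theorem thm_ADJ (hCFIN : St_CFIN) (hROOM : St_ROOM) (hPOL : St_POL) (hINFP : St_INFP) : St_ADJ := by
  intro C C' hC hC' hF hI
  obtain ⟨Φ₁, a1, a2, a3⟩ := adj_main hCFIN hROOM hPOL hINFP C hC
    (fun i => min (C.rad i) (C'.rad i)) (fun i hi => ⟨lt_min (hC.pos i hi)
      (hC'.pos i (by rw [hI]; exact hi)), min_le_left _ _⟩)
  obtain ⟨Φ₂, b1, b2, b3⟩ := adj_main hCFIN hROOM hPOL hINFP C' hC'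
    (fun i => min (C.rad i) (C'.rad i)) (fun i hi => ⟨lt_min (hC.pos i (by rw [← hI]; exact hi))
      (hC'.pos i hi), min_le_right _ _⟩)
  refine ⟨Φ₁.trans Φ₂.symm, ?_, ?_, ?_⟩
  · intro z hz
    rw [Homeomorph.trans_apply, a1 z hz, Homeomorph.symm_apply_eq, b1 z hz]
  · intro x hx
    rw [Homeomorph.trans_apply, a2 x hx, Homeomorph.symm_apply_eq, b2 x (by rw [hF]; exact hx)]
  · intro i hi z hz
    have hi' : i ∈ C'.I := by rw [hI]; exact hi
    have p1 := hC.pos i hi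
    have p2 := hC'.pos i hi'
    rw [Homeomorph.trans_apply, a3 i hi z hz, Homeomorph.symm_apply_eq]
    have hw : (i : ℂ) + ((C'.rad i / C.rad i : ℝ) : ℂ) * (z - i) ∈ closedBall (i : ℂ) (C'.rad i) := by
      rw [mem_closedBall, dist_eq_norm] at hz ⊢
      rw [add_sub_cancel_left, norm_mul, Complex.norm_real, Real.norm_eq_abs,
        abs_of_pos (div_pos p2 p1)]
      calc C'.rad i / C.rad i * ‖z - i‖ ≤ C'.rad i / C.rad i * C.rad i :=
            mul_le_mul_of_nonneg_left hz (div_pos p2 p1).le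
        _ = C'.rad i := div_mul_cancel₀ _ p1.ne'
    rw [b3 i hi' _ hw, add_sub_cancel_left, ← mul_assoc, ← Complex.ofReal_mul]
    congr 3
    field_simp

end Pool.Agent.SRP
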