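import Pool.Agent.SRP.StD
import Pool.Agent.SRF.CNT

set_option autoImplicit false

/-! # SRP ANG: moving one arc or two arcs on a circle. -/

open Set Metric Filter Topology Pool.Agent.SRF

namespace Pool.Agent.SRP

/-! ## Increasing functions -/

theorem ang_glue {a b c : ℝ} (hab : a ≤ b) (hbc : b ≤ c) {f₁ f₂ : ℝ → ℝ}
    (h1 : ContinuousOn f₁ (Icc a b)) (h2 : ContinuousOn f₂ (Icc b c))
    (m1 : StrictMonoOn f₁ (Icc a b)) (m2 : StrictMonoOn f₂ (Icc b c)) (h : f₁ b = f₂ b) :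
    ∃ f : ℝ → ℝ, ContinuousOn f (Icc a c) ∧ StrictMonoOn f (Icc a c) ∧ EqOn f f₁ (Icc a b) ∧
      EqOn f f₂ (Icc b c) := by
  set f : ℝ → ℝ := fun t => if t ≤ b then f₁ t else f₂ t with hf
  have e1 : EqOn f f₁ (Icc a b) := fun t ht => if_pos ht.2
  have e2 : EqOn f f₂ (Icc b c) := by
    intro t ht
    rcases ht.1.eq_or_lt with h3 | h3
    · show f t = f₂ t
      rw [← h3, e1 ⟨hab, le_rfl⟩, h]
    · exact if_neg (not_le.2 h3)
  have hu : Icc a c = Icc a b ∪ Icc b c := (Icc_union_Icc_eq_Icc hab hbc).symm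
  refine ⟨f, ?_, ?_, e1, e2⟩
  · rw [hu]
    exact (h1.congr e1).union_of_isClosed (h2.congr e2) isClosed_Icc isClosed_Icc
  · rw [hu]
    exact (m1.congr e1.symm).union (m2.congr e2.symm) (isGreatest_Icc hab) (isLeast_Icc hbc)

theorem ang_lin {a b c d : ℝ} (hab : a < b) (hcd : c < d) : ∃ f : ℝ → ℝ,
    ContinuousOn f (Icc a b) ∧ StrictMonoOn f (Icc a b) ∧ f a = c ∧ f b = d := by
  refine ⟨fun t => c + (t - a) / (b - a) * (d - c), Continuous.continuousOn (by fun_prop), ?_, ?_, ?_⟩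
  · intro s _ t _ hst
    have h1 : (s - a) / (b - a) < (t - a) / (b - a) :=
      div_lt_div_of_pos_right (by linarith) (by linarith)
    have h2 : 0 < d - c := by linarith
    have h3 := mul_lt_mul_of_pos_right h1 h2
    show c + (s - a) / (b - a) * (d - c) < c + (t - a) / (b - a) * (d - c)
    linarith
  · simp
  · have h1 : b - a ≠ 0 := by
      have : 0 < b - a := by linarith
      exact this.ne'
    simp only
    rw [div_self h1]
    ring

theorem ang_piece {θ α : ℝ → ℝ} (hθ : ContinuousOn θ (Icc (-1) 1))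
    (hα : ContinuousOn α (Icc (-1) 1)) (mθ : StrictMonoOn θ (Icc (-1) 1))
    (mα : StrictMonoOn α (Icc (-1) 1)) : ∃ f : ℝ → ℝ,
    ContinuousOn f (Icc (θ (-1)) (θ 1)) ∧ StrictMonoOn f (Icc (θ (-1)) (θ 1)) ∧
    ∀ x ∈ Icc (-1 : ℝ) 1, f (θ x) = α x := by
  have hm1 : (-1 : ℝ) ∈ Icc (-1 : ℝ) 1 := ⟨le_rfl, by norm_num⟩
  have h1 : (1 : ℝ) ∈ Icc (-1 : ℝ) 1 := ⟨by norm_num, le_rfl⟩
  have himg : θ '' Icc (-1) 1 = Icc (θ (-1)) (θ 1) := by
    apply Subset.antisymm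
    · rintro _ ⟨x, hx, rfl⟩
      exact ⟨mθ.monotoneOn hm1 hx hx.1, mθ.monotoneOn hx h1 hx.2⟩
    · exact intermediate_value_Icc (by norm_num) hθ
  set τ := Function.invFunOn θ (Icc (-1 : ℝ) 1) with hτ
  have hτc : ContinuousOn τ (Icc (θ (-1)) (θ 1)) := by
    rw [← himg]
    exact cnt_inv isCompact_Icc hθ mθ.injOn
  have hτe : ∀ x ∈ Icc (-1 : ℝ) 1, τ (θ x) = x := fun x hx => mθ.injOn.leftInvOn_invFunOn hx
  have hτm : ∀ y ∈ Icc (θ (-1)) (θ 1), τ y ∈ Icc (-1 : ℝ) 1 := by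
    intro y hy
    rw [← himg] at hy
    exact Function.invFunOn_mem hy
  refine ⟨fun y => α (τ y), hα.comp hτc hτm, ?_, fun x hx => congrArg α (hτe x hx)⟩
  intro y hy y' hy' hyy
  rw [← himg] at hy hy'
  obtain ⟨x, hx, rfl⟩ := hy
  obtain ⟨x', hx', rfl⟩ := hy'
  show α (τ (θ x)) < α (τ (θ x'))
  rw [hτe x hx, hτe x' hx']
  exact mα hx hx' ((mθ.lt_iff_lt hx hx').1 hyy)

theorem ang_shift {g : ℝ → ℝ} (hg : ∀ t, g (t + 2 * Real.pi) = g t + 2 * Real.pi) (n : ℤ) :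
    ∀ t, g (t + n * (2 * Real.pi)) = g t + n * (2 * Real.pi) := by
  induction n with
  | zero => intro t; simp
  | succ i ih =>
    intro t
    have h1 := hg (t + (i : ℤ) * (2 * Real.pi))
    rw [ih t] at h1
    push_cast at h1 ⊢
    rw [show t + ((i : ℝ) + 1) * (2 * Real.pi) = t + i * (2 * Real.pi) + 2 * Real.pi by ring, h1]
    ring
  | pred i ih =>
    intro t
    have h1 := hg (t + ((-(i : ℤ) - 1 : ℤ) : ℝ) * (2 * Real.pi))
    have h2 := ih t
    push_cast at h1 h2 ⊢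
    rw [show t + (-(i : ℝ) - 1) * (2 * Real.pi) + 2 * Real.pi = t + -(i : ℝ) * (2 * Real.pi) by ring,
      h2] at h1
    linarith

theorem ang_strict {g : ℝ → ℝ} {s : ℝ} (hg : ∀ t, g (t + 2 * Real.pi) = g t + 2 * Real.pi)
    (hm : StrictMonoOn g (Icc s (s + 2 * Real.pi))) : StrictMono g := by
  have hp := Real.two_pi_pos
  intro t t' htt
  obtain ⟨n, ⟨hn1, hn2⟩, -⟩ := existsUnique_sub_zsmul_mem_Ico hp t s
  obtain ⟨n', ⟨hn1', hn2'⟩, -⟩ := existsUnique_sub_zsmul_mem_Ico hp t' s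
  rw [zsmul_eq_mul] at hn1 hn2 hn1' hn2'
  have hs := ang_shift hg
  have e1 : g t = g (t - n * (2 * Real.pi)) + n * (2 * Real.pi) := by
    rw [← hs n]; congr 1; ring
  have e2 : g t' = g (t' - n' * (2 * Real.pi)) + n' * (2 * Real.pi) := by
    rw [← hs n']; congr 1; ring
  have hnn : n ≤ n' := by
    by_contra hcon
    push Not at hcon
    have h1 : (n' : ℝ) + 1 ≤ n := by exact_mod_cast hcon
    nlinarith
  rcases hnn.eq_or_lt with h1 | h1
  · subst h1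
    have h2 := hm ⟨hn1, hn2.le⟩ ⟨hn1', hn2'.le⟩ (by linarith)
    linarith
  · have h2 : (n : ℝ) + 1 ≤ n' := by exact_mod_cast h1
    have h3 := hm ⟨hn1, hn2.le⟩ (show s + 2 * Real.pi ∈ Icc s (s + 2 * Real.pi) from
      ⟨by linarith, le_rfl⟩) hn2
    have h4 := hm.monotoneOn (show s ∈ Icc s (s + 2 * Real.pi) from ⟨le_rfl, by linarith⟩)
      ⟨hn1', hn2'.le⟩ hn1'
    rw [hg s] at h3
    rw [e1, e2]
    nlinarith

theorem ang_g {θ₁ α₁ θ₂ α₂ : ℝ → ℝ} (c1 : ContinuousOn θ₁ (Icc (-1) 1))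
    (c2 : ContinuousOn α₁ (Icc (-1) 1)) (c3 : ContinuousOn θ₂ (Icc (-1) 1))
    (c4 : ContinuousOn α₂ (Icc (-1) 1)) (m1 : StrictMonoOn θ₁ (Icc (-1) 1))
    (m2 : StrictMonoOn α₁ (Icc (-1) 1)) (m3 : StrictMonoOn θ₂ (Icc (-1) 1))
    (m4 : StrictMonoOn α₂ (Icc (-1) 1)) (h1 : θ₁ 1 < θ₂ (-1)) (h2 : θ₂ 1 < θ₁ (-1) + 2 * Real.pi)
    (h3 : α₁ 1 < α₂ (-1)) (h4 : α₂ 1 < α₁ (-1) + 2 * Real.pi) :
    ∃ g : ℝ → ℝ, Continuous g ∧ StrictMono g ∧ (∀ t, g (t + 2 * Real.pi) = g t + 2 * Real.pi) ∧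
      (∀ x ∈ Icc (-1 : ℝ) 1, g (θ₁ x) = α₁ x) ∧ ∀ x ∈ Icc (-1 : ℝ) 1, g (θ₂ x) = α₂ x := by
  have I1 : (-1 : ℝ) ∈ Icc (-1 : ℝ) 1 := ⟨le_rfl, by norm_num⟩
  have I2 : (1 : ℝ) ∈ Icc (-1 : ℝ) 1 := ⟨by norm_num, le_rfl⟩
  have l1 : θ₁ (-1) < θ₁ 1 := m1 I1 I2 (by norm_num)
  have l3 : θ₂ (-1) < θ₂ 1 := m3 I1 I2 (by norm_num)
  obtain ⟨f1, f1c, f1m, f1e⟩ := ang_piece c1 c2 m1 m2
  obtain ⟨f3, f3c, f3m, f3e⟩ := ang_piece c3 c4 m3 m4
  obtain ⟨f2, f2c, f2m, f2a, f2b⟩ := ang_lin h1 h3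
  obtain ⟨f4, f4c, f4m, f4a, f4b⟩ := ang_lin h2 h4
  obtain ⟨p1, p1c, p1m, p1a, p1b⟩ := ang_glue l1.le h1.le f1c f2c f1m f2m
    (by rw [f1e 1 I2, f2a])
  obtain ⟨p2, p2c, p2m, p2a, p2b⟩ := ang_glue (l1.le.trans h1.le) l3.le p1c f3c p1m f3m
    (by rw [p1b ⟨h1.le, le_rfl⟩, f2b, f3e _ I1])
  obtain ⟨p3, p3c, p3m, p3a, p3b⟩ := ang_glue ((l1.le.trans h1.le).trans l3.le) h2.le p2c f4c p2m
    f4m (by rw [p2b ⟨l3.le, le_rfl⟩, f3e _ I2, f4a])
  -- values of p3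
  have v1 : ∀ x ∈ Icc (-1 : ℝ) 1, p3 (θ₁ x) = α₁ x := by
    intro x hx
    have b1 := m1.monotoneOn I1 hx hx.1
    have b2 := m1.monotoneOn hx I2 hx.2
    rw [p3a ⟨b1, by linarith⟩, p2a ⟨b1, by linarith⟩, p1a ⟨b1, b2⟩, f1e x hx]
  have v3 : ∀ x ∈ Icc (-1 : ℝ) 1, p3 (θ₂ x) = α₂ x := by
    intro x hx
    have b1 := m3.monotoneOn I1 hx hx.1
    have b2 := m3.monotoneOn hx I2 hx.2
    rw [p3a ⟨by linarith, b2⟩, p2b ⟨b1, b2⟩, f3e x hx]
  have v5 : p3 (θ₁ (-1) + 2 * Real.pi) = α₁ (-1) + 2 * Real.pi := by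
    rw [p3b ⟨h2.le, le_rfl⟩, f4b]
  have hp := Real.two_pi_pos
  have : Fact (0 < 2 * Real.pi) := ⟨hp⟩
  set s := θ₁ (-1) with hs
  set P : ℝ → ℝ := fun t => p3 t - t with hP
  have hPc : ContinuousOn P (Icc s (s + 2 * Real.pi)) := p3c.sub continuousOn_id
  have hPe : P s = P (s + 2 * Real.pi) := by
    simp only [hP]
    rw [v5, v1 _ I1]
    ring
  have hLc := AddCircle.liftIco_continuous hPe hPc
  set g : ℝ → ℝ := fun t => t + AddCircle.liftIco (2 * Real.pi) s P (t : AddCircle (2 * Real.pi))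
    with hg
  have hgc : Continuous g := continuous_id.add (hLc.comp (AddCircle.continuous_mk' _))
  have hgp : ∀ t, g (t + 2 * Real.pi) = g t + 2 * Real.pi := by
    intro t
    simp only [hg]
    rw [AddCircle.coe_add_period]
    ring
  have hge : EqOn g p3 (Icc s (s + 2 * Real.pi)) := by
    intro t ht
    rcases ht.2.eq_or_lt with h5 | h5
    · rw [h5, hgp s, v5]
      have : g s = p3 s := by
        simp only [hg]
        rw [AddCircle.liftIco_coe_apply ⟨le_rfl, by linarith⟩]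
        simp [hP]
      rw [this, v1 _ I1]
    · simp only [hg]
      rw [AddCircle.liftIco_coe_apply ⟨ht.1, h5⟩]
      simp [hP]
  refine ⟨g, hgc, ang_strict hgp (p3m.congr hge.symm), hgp, ?_, ?_⟩
  · intro x hx
    have b1 := m1.monotoneOn I1 hx hx.1
    have b2 := m1.monotoneOn hx I2 hx.2
    rw [hge ⟨b1, by linarith⟩, v1 x hx]
  · intro x hx
    have b1 := m3.monotoneOn I1 hx hx.1
    have b2 := m3.monotoneOn hx I2 hx.2
    rw [hge ⟨by linarith, by linarith⟩, v3 x hx]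

/-! ## The homeomorphism -/

theorem ang_int {s t : ℝ} (h : cexpi s = cexpi t) : ∃ n : ℤ, s = t + n * (2 * Real.pi) := by
  unfold cexpi at h
  rw [Complex.exp_eq_exp_iff_exists_int] at h
  obtain ⟨n, hn⟩ := h
  refine ⟨n, ?_⟩
  have h1 : (s : ℂ) = t + n * (2 * Real.pi) := by
    apply mul_right_cancel₀ Complex.I_ne_zero
    rw [hn]
    ring
  exact_mod_cast h1

theorem ang_add (s t : ℝ) : cexpi (s + t) = cexpi s * cexpi t := by
  unfold cexpi
  rw [← Complex.exp_add]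
  congr 1
  push_cast
  ring

theorem ang_cper (t : ℝ) (n : ℤ) : cexpi (t + n * (2 * Real.pi)) = cexpi t := by
  unfold cexpi
  rw [Complex.exp_eq_exp_iff_exists_int]
  refine ⟨n, ?_⟩
  push_cast
  ring

theorem ang_arg (u : ℂ) : u = (‖u‖ : ℂ) * cexpi (Complex.arg u) :=
  (Complex.norm_mul_exp_arg_mul_I u).symm

theorem ang_homeo {g : ℝ → ℝ} (hg : Continuous g) (hm : StrictMono g)
    (hp : ∀ t, g (t + 2 * Real.pi) = g t + 2 * Real.pi) (c : ℂ) {h k : ℝ} (hh : 0 < h)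
    (hk : h < k) : ∃ Φ : ℂ ≃ₜ ℂ, (∀ z, z ∉ ball c k → Φ z = z) ∧ (∀ z, ‖Φ z - c‖ = ‖z - c‖) ∧
      ∀ t : ℝ, Φ (c + h * cexpi t) = c + h * cexpi (g t) := by
  set P : ℝ → ℝ := fun t => g t - t with hP
  have hPc : Continuous P := hg.sub continuous_id
  have hPp : ∀ t (n : ℤ), P (t + n * (2 * Real.pi)) = P t := by
    intro t n
    simp only [hP]
    rw [ang_shift hp n t]
    ring
  have hPe : ∀ s t, cexpi s = cexpi t → P s = P t := by
    intro s t hst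
    obtain ⟨n, rfl⟩ := ang_int hst
    exact hPp t n
  set lam : ℝ → ℝ := fun r => max 0 (min 1 ((r - h) / (k - h))) with hlam
  have hlc : Continuous lam := by
    simp only [hlam]
    fun_prop
  have hkh : 0 < k - h := by linarith
  have hl0 : ∀ r, 0 ≤ lam r := fun r => le_max_left _ _
  have hl1 : ∀ r, lam r ≤ 1 := fun r => max_le zero_le_one (min_le_left _ _)
  have hlh : lam h = 0 := by
    simp only [hlam]
    rw [sub_self, zero_div, min_eq_right zero_le_one, max_self]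
  have hlk : ∀ r, k ≤ r → lam r = 1 := by
    intro r hr
    simp only [hlam]
    have h1 : 1 ≤ (r - h) / (k - h) := (one_le_div hkh).2 (by linarith)
    rw [min_eq_left h1, max_eq_right zero_le_one]
  set F : ℂ → ℂ := fun u => u * cexpi ((1 - lam ‖u‖) * P (Complex.arg u)) with hF
  have hFn : ∀ u, ‖F u‖ = ‖u‖ := by
    intro u
    simp only [hF]
    rw [norm_mul, cnt_norm, mul_one]
  -- continuity
  have hFc : Continuous F := by
    rw [continuous_iff_continuousAt]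
    intro u₀
    rcases eq_or_ne u₀ 0 with rfl | hu
    · have h0 : F 0 = 0 := by rw [← norm_eq_zero, hFn, norm_zero]
      unfold ContinuousAt
      rw [h0, tendsto_zero_iff_norm_tendsto_zero]
      have h1 : (fun z => ‖F z‖) = fun z => ‖z‖ := by
        funext z
        exact hFn z
      rw [h1]
      have h2 := continuous_norm (E := ℂ)
      have h3 := h2.tendsto 0
      rwa [norm_zero] at h3
    · have hA : ContinuousAt (fun u => P (Complex.arg u₀ + Complex.arg (u / u₀))) u₀ := by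
        refine hPc.continuousAt.comp ?_
        refine continuousAt_const.add ?_
        have h1 : ContinuousAt Complex.arg (u₀ / u₀) := by
          rw [div_self hu]
          exact Complex.continuousAt_arg Complex.one_mem_slitPlane
        exact h1.comp (f := fun u => u / u₀) (continuousAt_id.div_const u₀)
      have hE : (fun u => P (Complex.arg u)) =ᶠ[𝓝 u₀]
          (fun u => P (Complex.arg u₀ + Complex.arg (u / u₀))) := by
        filter_upwards [isOpen_ne.mem_nhds hu] with u hu'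
        apply hPe
        rw [ang_add]
        have n1 : (‖u‖ : ℂ) ≠ 0 := by simpa using hu'
        have n2 : (‖u₀‖ : ℂ) ≠ 0 := by simpa using hu
        have a1 := ang_arg u
        have a2 := ang_arg u₀
        have a3 := ang_arg (u / u₀)
        rw [norm_div, Complex.ofReal_div] at a3
        have a4 : (‖u‖ : ℂ) * cexpi (Complex.arg u) =
            (‖u‖ : ℂ) * (cexpi (Complex.arg u₀) * cexpi (Complex.arg (u / u₀))) := by
          rw [← a1]
          have a5 : u = u₀ * (u / u₀) := by field_simp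
          conv_lhs => rw [a5, a3]
          conv_lhs =>
            enter [1]
            rw [a2]
          field_simp
        exact mul_left_cancel₀ n1 a4
      have hB : ContinuousAt (fun u => P (Complex.arg u)) u₀ := hA.congr hE.symm
      refine continuousAt_id.mul ?_
      refine cnt_cont.continuousAt.comp ?_
      exact (continuousAt_const.sub (hlc.comp continuous_norm).continuousAt).mul hB
  -- the functions on the circles
  have hG : ∀ μ : ℝ, 0 ≤ μ → μ ≤ 1 → StrictMono (fun t => t + μ * P t) := by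
    intro μ h0 h1 s t hst
    simp only [hP]
    rcases h0.eq_or_lt with h2 | h2
    · rw [← h2]; linarith
    · have h3 := hm hst
      nlinarith
  have hpolar : ∀ (r : ℝ) (t : ℝ), 0 < r → F (r * cexpi t) =
      r * cexpi (t + (1 - lam r) * P t) := by
    intro r t hr
    have h1 : ‖(r : ℂ) * cexpi t‖ = r := by
      rw [norm_mul, cnt_norm, mul_one, Complex.norm_real, Real.norm_of_nonneg hr.le]
    have h2 : cexpi (Complex.arg ((r : ℂ) * cexpi t)) = cexpi t := by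
      have h3 := ang_arg ((r : ℂ) * cexpi t)
      rw [h1] at h3
      have h4 : (r : ℂ) ≠ 0 := by exact_mod_cast hr.ne'
      exact (mul_left_cancel₀ h4 h3).symm
    simp only [hF]
    rw [h1, hPe _ _ h2, ang_add, mul_assoc]
  have hpol : ∀ u : ℂ, u ≠ 0 → ∃ t : ℝ, u = ‖u‖ * cexpi t := fun u _ => ⟨_, ang_arg u⟩
  have hinj : Function.Injective F := by
    intro u v huv
    have h1 : ‖u‖ = ‖v‖ := by rw [← hFn u, ← hFn v, huv]
    rcases eq_or_ne u 0 with rfl | hu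
    · rw [norm_zero] at h1
      exact (norm_eq_zero.1 h1.symm).symm
    · have hr : 0 < ‖u‖ := norm_pos_iff.2 hu
      have hv : v ≠ 0 := by
        rintro rfl
        rw [norm_zero] at h1
        exact hu (norm_eq_zero.1 h1)
      obtain ⟨a, ha⟩ := hpol u hu
      obtain ⟨b, hb⟩ := hpol v hv
      rw [ha, hb, ← h1, hpolar _ _ hr, hpolar _ _ hr] at huv
      have hrc : (‖u‖ : ℂ) ≠ 0 := by exact_mod_cast hr.ne'
      obtain ⟨n, hn⟩ := ang_int (mul_left_cancel₀ hrc huv)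
      have h2 : a + (1 - lam ‖u‖) * P a =
          (b + n * (2 * Real.pi)) + (1 - lam ‖u‖) * P (b + n * (2 * Real.pi)) := by
        rw [hPp, hn]
        ring
      have h3 := (hG (1 - lam ‖u‖) (by linarith [hl1 ‖u‖]) (by linarith [hl0 ‖u‖])).injective h2
      rw [ha, hb, ← h1, h3, ang_cper]
  have hsurj : Function.Surjective F := by
    intro w
    rcases eq_or_ne w 0 with rfl | hw
    · exact ⟨0, by rw [← norm_eq_zero, hFn, norm_zero]⟩
    · have hr : 0 < ‖w‖ := norm_pos_iff.2 hw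
      obtain ⟨s, hs⟩ := hpol w hw
      set G : ℝ → ℝ := fun t => t + (1 - lam ‖w‖) * P t with hGd
      have hGc : Continuous G := by
        simp only [hGd]
        exact continuous_id.add (continuous_const.mul hPc)
      have hGs : ∀ t (n : ℤ), G (t + n * (2 * Real.pi)) = G t + n * (2 * Real.pi) := by
        intro t n
        simp only [hGd]
        rw [hPp]
        ring
      obtain ⟨n, hn⟩ := exists_nat_ge (|s - G 0| / (2 * Real.pi))
      rw [div_le_iff₀ Real.two_pi_pos, abs_le] at hn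
      have h1 : G (0 + ((-n : ℤ) : ℝ) * (2 * Real.pi)) ≤ s := by
        rw [hGs]; push_cast; linarith [hn.1]
      have h2 : s ≤ G (0 + ((n : ℤ) : ℝ) * (2 * Real.pi)) := by
        rw [hGs]; push_cast; linarith [hn.2]
      obtain ⟨t, ht⟩ := mem_range_of_exists_le_of_exists_ge hGc ⟨_, h1⟩ ⟨_, h2⟩
      refine ⟨‖w‖ * cexpi t, ?_⟩
      rw [hpolar _ _ hr]
      conv_rhs => rw [hs]
      rw [← ht]
  have hprop : IsProperMap F := by
    rw [isProperMap_iff_tendsto_cocompact]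
    refine ⟨hFc, ?_⟩
    rw [← Metric.cobounded_eq_cocompact, ← tendsto_norm_atTop_iff_cobounded]
    have h1 : (fun z => ‖F z‖) = fun z => ‖z‖ := by
      funext z
      exact hFn z
    rw [h1, tendsto_norm_atTop_iff_cobounded]
    exact tendsto_id
  have hhom : IsHomeomorph F :=
    isHomeomorph_iff_continuous_isClosedMap_bijective.2 ⟨hFc, hprop.isClosedMap, hinj, hsurj⟩
  refine ⟨(Homeomorph.subRight c).trans (hhom.homeomorph.trans (Homeomorph.addLeft c)), ?_, ?_, ?_⟩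
  · intro z hz
    show c + F (z - c) = z
    rw [mem_ball, dist_eq_norm, not_lt] at hz
    simp only [hF]
    rw [hlk _ hz, sub_self, zero_mul]
    have : cexpi 0 = 1 := by simp [cexpi]
    rw [this]
    ring
  · intro z
    show ‖c + F (z - c) - c‖ = ‖z - c‖
    rw [add_sub_cancel_left, hFn]
  · intro t
    show c + F (c + h * cexpi t - c) = c + h * cexpi (g t)
    rw [add_sub_cancel_left, hpolar h t hh, hlh]
    congr 3
    simp only [hP]
    ring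

/-! ## Reduction to the increasing case -/

theorem ang_len {θ : ℝ → ℝ} (hc : ContinuousOn θ (Icc (-1) 1)) (hm : StrictMonoOn θ (Icc (-1) 1))
    (hi : InjOn (fun x => cexpi (θ x)) (Icc (-1) 1)) : θ 1 < θ (-1) + 2 * Real.pi := by
  have I1 : (-1 : ℝ) ∈ Icc (-1 : ℝ) 1 := ⟨le_rfl, by norm_num⟩
  by_contra hcon
  push Not at hcon
  have hp := Real.two_pi_pos
  obtain ⟨x, hx, hxe⟩ := intermediate_value_Icc (by norm_num : (-1 : ℝ) ≤ 1) hc
    (show θ (-1) + 2 * Real.pi ∈ Icc (θ (-1)) (θ 1) from ⟨by linarith, hcon⟩)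
  have h1 : x = -1 := hi hx I1 (by
    show cexpi (θ x) = cexpi (θ (-1))
    rw [hxe, cnt_per])
  rw [h1] at hxe
  linarith

theorem ang_pos {θ₁ θ₂ : ℝ → ℝ} (c1 : ContinuousOn θ₁ (Icc (-1) 1))
    (c2 : ContinuousOn θ₂ (Icc (-1) 1)) (m1 : StrictMonoOn θ₁ (Icc (-1) 1))
    (m2 : StrictMonoOn θ₂ (Icc (-1) 1))
    (hd : ∀ x ∈ Icc (-1 : ℝ) 1, ∀ y ∈ Icc (-1 : ℝ) 1, cexpi (θ₁ x) ≠ cexpi (θ₂ y)) :
    ∃ n : ℤ, θ₁ 1 < θ₂ (-1) + n * (2 * Real.pi) ∧
      θ₂ 1 + n * (2 * Real.pi) < θ₁ (-1) + 2 * Real.pi := by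
  have I1 : (-1 : ℝ) ∈ Icc (-1 : ℝ) 1 := ⟨le_rfl, by norm_num⟩
  have I2 : (1 : ℝ) ∈ Icc (-1 : ℝ) 1 := ⟨by norm_num, le_rfl⟩
  have hle : (-1 : ℝ) ≤ 1 := by norm_num
  have hp := Real.two_pi_pos
  obtain ⟨n, ⟨hn1, hn2⟩, -⟩ := existsUnique_add_zsmul_mem_Ico hp (θ₂ (-1)) (θ₁ (-1))
  rw [zsmul_eq_mul] at hn1 hn2
  refine ⟨n, ?_, ?_⟩
  · by_contra hcon
    push Not at hcon
    obtain ⟨x, hx, hxe⟩ := intermediate_value_Icc hle c1
      (show θ₂ (-1) + n * (2 * Real.pi) ∈ Icc (θ₁ (-1)) (θ₁ 1) from ⟨hn1, hcon⟩)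
    apply hd x hx (-1) I1
    rw [hxe, ang_cper]
  · by_contra hcon
    push Not at hcon
    obtain ⟨x, hx, hxe⟩ := intermediate_value_Icc hle c2
      (show θ₁ (-1) + 2 * Real.pi - n * (2 * Real.pi) ∈ Icc (θ₂ (-1)) (θ₂ 1) from
        ⟨by linarith, by linarith⟩)
    apply hd (-1) I1 x hx
    rw [hxe]
    have : θ₁ (-1) + 2 * Real.pi - n * (2 * Real.pi) =
        θ₁ (-1) + ((1 - n : ℤ) : ℝ) * (2 * Real.pi) := by push_cast; ring
    rw [this, ang_cper]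

theorem ang_flip {θ α : ℝ → ℝ} (c1 : ContinuousOn θ (Icc (-1) 1))
    (c2 : ContinuousOn α (Icc (-1) 1))
    (h : (StrictMonoOn θ (Icc (-1) 1) ∧ StrictMonoOn α (Icc (-1) 1)) ∨
      (StrictAntiOn θ (Icc (-1) 1) ∧ StrictAntiOn α (Icc (-1) 1))) :
    ∃ σ : ℝ → ℝ, (∀ x ∈ Icc (-1 : ℝ) 1, σ x ∈ Icc (-1 : ℝ) 1 ∧ σ (σ x) = x) ∧
      ContinuousOn (fun x => θ (σ x)) (Icc (-1) 1) ∧ ContinuousOn (fun x => α (σ x)) (Icc (-1) 1) ∧
      StrictMonoOn (fun x => θ (σ x)) (Icc (-1) 1) ∧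
      StrictMonoOn (fun x => α (σ x)) (Icc (-1) 1) := by
  rcases h with ⟨h1, h2⟩ | ⟨h1, h2⟩
  · exact ⟨fun x => x, fun x hx => ⟨hx, rfl⟩, c1, c2, h1, h2⟩
  · have hm : ∀ x ∈ Icc (-1 : ℝ) 1, -x ∈ Icc (-1 : ℝ) 1 := fun x hx =>
      ⟨by linarith [hx.2], by linarith [hx.1]⟩
    refine ⟨fun x => -x, fun x hx => ⟨hm x hx, neg_neg x⟩, ?_, ?_, ?_, ?_⟩
    · exact c1.comp continuous_neg.continuousOn hm
    · exact c2.comp continuous_neg.continuousOn hm
    · intro x hx y hy hxy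
      exact h1 (hm y hy) (hm x hx) (neg_lt_neg hxy)
    · intro x hx y hy hxy
      exact h2 (hm y hy) (hm x hx) (neg_lt_neg hxy)

theorem ang_injflip {θ σ : ℝ → ℝ} (hσ : ∀ x ∈ Icc (-1 : ℝ) 1, σ x ∈ Icc (-1 : ℝ) 1 ∧ σ (σ x) = x)
    (hi : InjOn (fun x => cexpi (θ x)) (Icc (-1) 1)) :
    InjOn (fun x => cexpi (θ (σ x))) (Icc (-1) 1) := by
  intro x hx y hy hxy
  have h1 := hi (hσ x hx).1 (hσ y hy).1 hxy
  rw [← (hσ x hx).2, ← (hσ y hy).2, h1]

theorem thm_ANG : St_ANG := by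
  refine ⟨?_, ?_⟩
  · intro c h k hh hk θ₁ α₁ c1 c2 hmm i1 i2
    obtain ⟨σ, hσ, d1, d2, m1, m2⟩ := ang_flip c1 c2 hmm
    have l1 := ang_len d1 m1 (ang_injflip hσ i1)
    have l2 := ang_len d2 m2 (ang_injflip hσ i2)
    set θ := fun x => θ₁ (σ x) with hθ
    set α := fun x => α₁ (σ x) with hα
    have key : ∀ f : ℝ → ℝ, f 1 < f (-1) + 2 * Real.pi → ∃ f₂ : ℝ → ℝ,
        ContinuousOn f₂ (Icc (-1) 1) ∧ StrictMonoOn f₂ (Icc (-1) 1) ∧ f 1 < f₂ (-1) ∧
        f₂ 1 < f (-1) + 2 * Real.pi := by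
      intro f hf
      refine ⟨fun x => (f 1 + (f (-1) + 2 * Real.pi)) / 2 +
        x * ((f (-1) + 2 * Real.pi - f 1) / 4), Continuous.continuousOn (by fun_prop), ?_, ?_, ?_⟩
      · intro x _ y _ hxy
        simp only
        have : 0 < (f (-1) + 2 * Real.pi - f 1) / 4 := by linarith
        nlinarith
      · simp only
        linarith
      · simp only
        linarith
    obtain ⟨θ', t1, t2, t3, t4⟩ := key θ l1
    obtain ⟨α', s1, s2, s3, s4⟩ := key α l2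
    obtain ⟨g, hg, hgm, hgp, hg1, -⟩ := ang_g d1 d2 t1 s1 m1 m2 t2 s2 t3 t4 s3 s4
    obtain ⟨Φ, hΦ1, hΦ2, hΦ3⟩ := ang_homeo hg hgm hgp c hh hk
    refine ⟨Φ, hΦ1, hΦ2, ?_⟩
    intro x hx
    have h1 := hg1 (σ x) (hσ x hx).1
    simp only [hθ, hα] at h1
    rw [(hσ x hx).2] at h1
    rw [hΦ3, h1]
  · intro c h k hh hk θ₁ α₁ θ₂ α₂ c1 c2 c3 c4 hmm1 hmm2 i1 i2 i3 i4 e1 e2
    obtain ⟨σ, hσ, d1, d2, m1, m2⟩ := ang_flip c1 c2 hmm1
    obtain ⟨τ, hτ, d3, d4, m3, m4⟩ := ang_flip c3 c4 hmm2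
    obtain ⟨n, hn1, hn2⟩ := ang_pos d1 d3 m1 m3
      (fun x hx y hy => e1 _ (hσ x hx).1 _ (hτ y hy).1)
    obtain ⟨m, hm1, hm2⟩ := ang_pos d2 d4 m2 m4
      (fun x hx y hy => e2 _ (hσ x hx).1 _ (hτ y hy).1)
    obtain ⟨g, hg, hgm, hgp, hg1, hg2⟩ := ang_g (θ₂ := fun x => θ₂ (τ x) + n * (2 * Real.pi))
      (α₂ := fun x => α₂ (τ x) + m * (2 * Real.pi)) d1 d2 (d3.add continuousOn_const)
      (d4.add continuousOn_const) m1 m2 (fun x hx y hy hxy => add_lt_add_left (m3 hx hy hxy) _)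
      (fun x hx y hy hxy => add_lt_add_left (m4 hx hy hxy) _) hn1 hn2 hm1 hm2
    obtain ⟨Φ, hΦ1, hΦ2, hΦ3⟩ := ang_homeo hg hgm hgp c hh hk
    refine ⟨Φ, hΦ1, hΦ2, ?_, ?_⟩
    · intro x hx
      have h1 := hg1 (σ x) (hσ x hx).1
      rw [(hσ x hx).2] at h1
      rw [hΦ3, h1]
    · intro x hx
      have h1 := hg2 (τ x) (hτ x hx).1
      rw [(hτ x hx).2, ang_shift hgp n] at h1
      rw [hΦ3]
      have h2 : g (θ₂ x) = α₂ x + ((m - n : ℤ) : ℝ) * (2 * Real.pi) := by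
        push_cast
        linarith
      rw [h2, ang_cper]

end Pool.Agent.SRP
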