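import Pool.Agent.SRP.StD

set_option autoImplicit false

/-! # SRP, module BAND: parametrising a disc by a square -/

open Set Metric Filter Topology Pool.Agent.SRF

namespace Pool.Agent.SRP

/-- the boundary of the square, parametrised by `[a, e]` -/
noncomputable def band_W (a b c d e t : ℝ) : ℂ :=
  ⟨max (-1) (1 - 2 * ((t - a) / (b - a))) + min 2 (max 0 (2 * ((t - c) / (d - c)))),
    1 - min 2 (max 0 (2 * ((t - b) / (c - b)))) + max 0 (2 * ((t - d) / (e - d)))⟩

section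

variable {a b c d e : ℝ} (hab : a < b) (hbc : b < c) (hcd : c < d) (hde : d < e)

theorem band_W_cont : Continuous (band_W a b c d e) := by
  have h : band_W a b c d e = fun t =>
      ((max (-1) (1 - 2 * ((t - a) / (b - a))) + min 2 (max 0 (2 * ((t - c) / (d - c)))) : ℝ) : ℂ) +
      ((1 - min 2 (max 0 (2 * ((t - b) / (c - b)))) +
        max 0 (2 * ((t - d) / (e - d))) : ℝ) : ℂ) * Complex.I := by
    ext t
    unfold band_W
    exact (Complex.re_add_im _).symm
  rw [h]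
  fun_prop

include hab hbc hcd hde

theorem band_s1 {s : ℝ} (_ : 0 ≤ s) (h1 : s ≤ 1) :
    band_W a b c d e (a + s * (b - a)) = ⟨1 - 2 * s, 1⟩ := by
  have hle : a + s * (b - a) ≤ b := by nlinarith
  have e1 : (a + s * (b - a) - a) / (b - a) = s := by
    rw [add_sub_cancel_left, mul_div_assoc, div_self (by linarith), mul_one]
  have e2 : (a + s * (b - a) - c) / (d - c) ≤ 0 :=
    div_nonpos_of_nonpos_of_nonneg (by linarith) (by linarith)
  have e3 : (a + s * (b - a) - b) / (c - b) ≤ 0 :=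
    div_nonpos_of_nonpos_of_nonneg (by linarith) (by linarith)
  have e4 : (a + s * (b - a) - d) / (e - d) ≤ 0 :=
    div_nonpos_of_nonpos_of_nonneg (by linarith) (by linarith)
  unfold band_W
  rw [e1, max_eq_right (by linarith), max_eq_left (by linarith), max_eq_left (by linarith),
    max_eq_left (by linarith), min_eq_right (by norm_num), add_zero, sub_zero, add_zero]

theorem band_s2 {s : ℝ} (h0 : 0 ≤ s) (h1 : s ≤ 1) :
    band_W a b c d e (b + s * (c - b)) = ⟨-1, 1 - 2 * s⟩ := by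
  have hle : b + s * (c - b) ≤ c := by nlinarith
  have hge : b ≤ b + s * (c - b) := by nlinarith
  have e1 : 1 ≤ (b + s * (c - b) - a) / (b - a) := by
    rw [one_le_div (by linarith)]; linarith
  have e2 : (b + s * (c - b) - c) / (d - c) ≤ 0 :=
    div_nonpos_of_nonpos_of_nonneg (by linarith) (by linarith)
  have e3 : (b + s * (c - b) - b) / (c - b) = s := by
    rw [add_sub_cancel_left, mul_div_assoc, div_self (by linarith), mul_one]
  have e4 : (b + s * (c - b) - d) / (e - d) ≤ 0 :=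
    div_nonpos_of_nonpos_of_nonneg (by linarith) (by linarith)
  unfold band_W
  rw [e3, max_eq_left (by linarith), max_eq_left (by linarith), max_eq_right (by linarith),
    max_eq_left (by linarith), min_eq_right (by norm_num), min_eq_right (by linarith), add_zero,
    add_zero]

theorem band_s3 {s : ℝ} (h0 : 0 ≤ s) (h1 : s ≤ 1) :
    band_W a b c d e (c + s * (d - c)) = ⟨-1 + 2 * s, -1⟩ := by
  have hle : c + s * (d - c) ≤ d := by nlinarith
  have hge : c ≤ c + s * (d - c) := by nlinarith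
  have e1 : 1 ≤ (c + s * (d - c) - a) / (b - a) := by
    rw [one_le_div (by linarith)]; linarith
  have e2 : (c + s * (d - c) - c) / (d - c) = s := by
    rw [add_sub_cancel_left, mul_div_assoc, div_self (by linarith), mul_one]
  have e3 : 1 ≤ (c + s * (d - c) - b) / (c - b) := by
    rw [one_le_div (by linarith)]; linarith
  have e4 : (c + s * (d - c) - d) / (e - d) ≤ 0 :=
    div_nonpos_of_nonpos_of_nonneg (by linarith) (by linarith)
  unfold band_W
  rw [e2, max_eq_left (by linarith), max_eq_right (by linarith), max_eq_right (by linarith),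
    max_eq_left (by linarith), min_eq_right (by linarith), min_eq_left (by linarith)]
  norm_num

theorem band_s4 {s : ℝ} (h0 : 0 ≤ s) (_ : s ≤ 1) :
    band_W a b c d e (d + s * (e - d)) = ⟨1, -1 + 2 * s⟩ := by
  have hge : d ≤ d + s * (e - d) := by nlinarith
  have e1 : 1 ≤ (d + s * (e - d) - a) / (b - a) := by
    rw [one_le_div (by linarith)]; linarith
  have e2 : 1 ≤ (d + s * (e - d) - c) / (d - c) := by
    rw [one_le_div (by linarith)]; linarith
  have e3 : 1 ≤ (d + s * (e - d) - b) / (c - b) := by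
    rw [one_le_div (by linarith)]; linarith
  have e4 : (d + s * (e - d) - d) / (e - d) = s := by
    rw [add_sub_cancel_left, mul_div_assoc, div_self (by linarith), mul_one]
  unfold band_W
  rw [e4, max_eq_left (by linarith), max_eq_right (by linarith), max_eq_right (by linarith),
    max_eq_right (by linarith), min_eq_left (by linarith), min_eq_left (by linarith)]
  norm_num

omit hab hbc hcd hde in
theorem band_par {p q t : ℝ} (hpq : p < q) (h0 : p ≤ t) (h1 : t ≤ q) :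
    ∃ s : ℝ, 0 ≤ s ∧ s ≤ 1 ∧ t = p + s * (q - p) := by
  refine ⟨(t - p) / (q - p), div_nonneg (by linarith) (by linarith), ?_, ?_⟩
  · rw [div_le_one (by linarith)]; linarith
  · rw [div_mul_cancel₀ _ (by linarith : q - p ≠ 0)]; ring

/-- the four sides -/
theorem band_sides {t : ℝ} (h0 : a ≤ t) (h1 : t ≤ e) :
    ∃ s : ℝ, 0 ≤ s ∧ s ≤ 1 ∧
      ((t = a + s * (b - a) ∧ band_W a b c d e t = ⟨1 - 2 * s, 1⟩) ∨
        (t = b + s * (c - b) ∧ band_W a b c d e t = ⟨-1, 1 - 2 * s⟩) ∨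
        (t = c + s * (d - c) ∧ band_W a b c d e t = ⟨-1 + 2 * s, -1⟩) ∨
        (t = d + s * (e - d) ∧ band_W a b c d e t = ⟨1, -1 + 2 * s⟩)) := by
  rcases le_total t b with h | h
  · obtain ⟨s, s0, s1, rfl⟩ := band_par hab h0 h
    exact ⟨s, s0, s1, Or.inl ⟨rfl, band_s1 hab hbc hcd hde s0 s1⟩⟩
  rcases le_total t c with h' | h'
  · obtain ⟨s, s0, s1, rfl⟩ := band_par hbc h h'
    exact ⟨s, s0, s1, Or.inr (Or.inl ⟨rfl, band_s2 hab hbc hcd hde s0 s1⟩)⟩
  rcases le_total t d with h'' | h''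
  · obtain ⟨s, s0, s1, rfl⟩ := band_par hcd h' h''
    exact ⟨s, s0, s1, Or.inr (Or.inr (Or.inl ⟨rfl, band_s3 hab hbc hcd hde s0 s1⟩))⟩
  · obtain ⟨s, s0, s1, rfl⟩ := band_par hde h'' h1
    exact ⟨s, s0, s1, Or.inr (Or.inr (Or.inr ⟨rfl, band_s4 hab hbc hcd hde s0 s1⟩))⟩

/-- the maximum norm -/
noncomputable def band_M (z : ℂ) : ℝ := max |z.re| |z.im|

theorem band_M_W {t : ℝ} (h0 : a ≤ t) (h1 : t ≤ e) : band_M (band_W a b c d e t) = 1 := by
  obtain ⟨s, s0, s1, h | h | h | h⟩ := band_sides hab hbc hcd hde h0 h1 <;> rw [h.2] <;>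
    unfold band_M <;> simp only
  · rw [abs_one]
    exact max_eq_right (abs_le.mpr ⟨by linarith, by linarith⟩)
  · rw [abs_neg, abs_one]
    exact max_eq_left (abs_le.mpr ⟨by linarith, by linarith⟩)
  · rw [abs_neg, abs_one]
    exact max_eq_right (abs_le.mpr ⟨by linarith, by linarith⟩)
  · rw [abs_one]
    exact max_eq_left (abs_le.mpr ⟨by linarith, by linarith⟩)

theorem band_W_inj {t t' : ℝ} (h0 : a ≤ t) (h1 : t ≤ e) (h0' : a ≤ t') (h1' : t' ≤ e)
    (h : band_W a b c d e t = band_W a b c d e t') :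
    t = t' ∨ (t = a ∧ t' = e) ∨ (t = e ∧ t' = a) := by
  obtain ⟨s, s0, s1, k | k | k | k⟩ := band_sides hab hbc hcd hde h0 h1 <;>
  obtain ⟨s', s0', s1', k' | k' | k' | k'⟩ := band_sides hab hbc hcd hde h0' h1' <;>
  · rw [k.2, k'.2] at h
    have hr := congrArg Complex.re h
    have hi := congrArg Complex.im h
    simp only at hr hi
    first
      | (exfalso; linarith)
      | (have es : s = s' := by linarith
         left; rw [k.1, k'.1, es])
      | (have es : s = 0 := by linarith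
         have es' : s' = 1 := by linarith
         rw [es] at k
         rw [es'] at k'
         first
           | (left; linarith [k.1, k'.1])
           | (right; left; exact ⟨by linarith [k.1], by linarith [k'.1]⟩)
           | (right; right; exact ⟨by linarith [k.1], by linarith [k'.1]⟩))
      | (have es : s = 1 := by linarith
         have es' : s' = 0 := by linarith
         rw [es] at k
         rw [es'] at k'
         first
           | (left; linarith [k.1, k'.1])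
           | (right; left; exact ⟨by linarith [k.1], by linarith [k'.1]⟩)
           | (right; right; exact ⟨by linarith [k.1], by linarith [k'.1]⟩))

theorem band_W_surj {w : ℂ} (hw : band_M w = 1) : ∃ t ∈ Icc a e, band_W a b c d e t = w := by
  unfold band_M at hw
  have hx : |w.re| ≤ 1 := hw ▸ le_max_left _ _
  have hy : |w.im| ≤ 1 := hw ▸ le_max_right _ _
  have hx' := abs_le.mp hx
  have hy' := abs_le.mp hy
  rcases max_choice |w.re| |w.im| with h | h
  · rw [h] at hw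
    rcases eq_or_eq_neg_of_abs_eq hw with h1 | h1
    · refine ⟨d + (w.im + 1) / 2 * (e - d), ⟨?_, ?_⟩, ?_⟩
      · nlinarith
      · nlinarith
      · rw [band_s4 hab hbc hcd hde (by linarith) (by linarith)]
        apply Complex.ext <;> simp only <;> linarith
    · refine ⟨b + (1 - w.im) / 2 * (c - b), ⟨?_, ?_⟩, ?_⟩
      · nlinarith
      · nlinarith
      · rw [band_s2 hab hbc hcd hde (by linarith) (by linarith)]
        apply Complex.ext <;> simp only <;> linarith
  · rw [h] at hw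
    rcases eq_or_eq_neg_of_abs_eq hw with h1 | h1
    · refine ⟨a + (1 - w.re) / 2 * (b - a), ⟨?_, ?_⟩, ?_⟩
      · nlinarith
      · nlinarith
      · rw [band_s1 hab hbc hcd hde (by linarith) (by linarith)]
        apply Complex.ext <;> simp only <;> linarith
    · refine ⟨c + (w.re + 1) / 2 * (d - c), ⟨?_, ?_⟩, ?_⟩
      · nlinarith
      · nlinarith
      · rw [band_s3 hab hbc hcd hde (by linarith) (by linarith)]
        apply Complex.ext <;> simp only <;> linarith

omit hab hbc hcd hde in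
theorem band_M_mul {r : ℝ} (hr : 0 ≤ r) (w : ℂ) : band_M ((r : ℂ) * w) = r * band_M w := by
  unfold band_M
  rw [Complex.re_ofReal_mul, Complex.im_ofReal_mul, abs_mul, abs_mul, abs_of_nonneg hr,
    mul_max_of_nonneg _ _ hr]

omit hab hbc hcd hde in
theorem band_M_nonneg (z : ℂ) : 0 ≤ band_M z := (abs_nonneg _).trans (le_max_left _ _)

theorem band_Psurj (z : ℂ) : ∃ t ∈ Icc a e, (band_M z : ℂ) * band_W a b c d e t = z := by
  by_cases h : band_M z = 0
  · have h1 : |z.re| ≤ 0 := h ▸ le_max_left _ _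
    have h2 : |z.im| ≤ 0 := h ▸ le_max_right _ _
    have hz : z = 0 := Complex.ext (abs_nonpos_iff.mp h1) (abs_nonpos_iff.mp h2)
    refine ⟨a, ⟨le_rfl, by linarith⟩, ?_⟩
    rw [h, hz, Complex.ofReal_zero, zero_mul]
  · have h0 : (band_M z : ℂ) ≠ 0 := by exact_mod_cast h
    have h1 : band_M (((band_M z)⁻¹ : ℝ) * z) = 1 := by
      rw [band_M_mul (inv_nonneg.mpr (band_M_nonneg z)), inv_mul_cancel₀ h]
    obtain ⟨t, ht, hw⟩ := band_W_surj hab hbc hcd hde h1
    refine ⟨t, ht, ?_⟩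
    rw [hw, Complex.ofReal_inv, mul_inv_cancel_left₀ h0]

theorem band_Pfib {r r' t t' : ℝ} (hr : 0 ≤ r) (hr' : 0 ≤ r') (ht : t ∈ Icc a e)
    (ht' : t' ∈ Icc a e) (h : (r : ℂ) * band_W a b c d e t = r' * band_W a b c d e t') :
    r = r' ∧ (r = 0 ∨ t = t' ∨ (t = a ∧ t' = e) ∨ (t = e ∧ t' = a)) := by
  have h1 := congrArg band_M h
  rw [band_M_mul hr, band_M_mul hr', band_M_W hab hbc hcd hde ht.1 ht.2,
    band_M_W hab hbc hcd hde ht'.1 ht'.2, mul_one, mul_one] at h1
  refine ⟨h1, ?_⟩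
  by_cases h0 : r = 0
  · exact Or.inl h0
  · right
    rw [← h1] at h
    exact band_W_inj hab hbc hcd hde ht.1 ht.2 ht'.1 ht'.2
      (mul_left_cancel₀ (by exact_mod_cast h0) h)

theorem band_W_ends : band_W a b c d e a = band_W a b c d e e := by
  have h1 := band_s1 hab hbc hcd hde (le_refl (0 : ℝ)) zero_le_one
  have h2 := band_s4 hab hbc hcd hde (zero_le_one) (le_refl (1 : ℝ))
  rw [zero_mul, add_zero] at h1
  rw [one_mul, add_sub_cancel] at h2
  rw [h1, h2]
  apply Complex.ext <;> norm_num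

end

theorem band_cexpi_norm (t : ℝ) : ‖cexpi t‖ = 1 := Complex.norm_exp_ofReal_mul_I t

theorem band_cexpi_per (t : ℝ) : cexpi (t + 2 * Real.pi) = cexpi t := by
  unfold cexpi
  rw [Complex.ofReal_add, add_mul, Complex.exp_add]
  push_cast
  rw [Complex.exp_two_pi_mul_I, mul_one]

theorem band_cexpi_eq {a t t' : ℝ} (ht : t ∈ Icc a (a + 2 * Real.pi))
    (ht' : t' ∈ Icc a (a + 2 * Real.pi)) (h : cexpi t = cexpi t') :
    t = t' ∨ (t = a ∧ t' = a + 2 * Real.pi) ∨ (t = a + 2 * Real.pi ∧ t' = a) := by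
  obtain ⟨n, hn⟩ := Complex.exp_eq_exp_iff_exists_int.mp h
  have h1 : t = t' + n * (2 * Real.pi) := by
    have h2 := congrArg Complex.im hn
    simpa using h2
  have hpi := Real.pi_pos
  obtain ⟨h3, h4⟩ := ht
  obtain ⟨h5, h6⟩ := ht'
  have n1 : n ≤ 1 := by
    by_contra hc
    push Not at hc
    have : (2 : ℝ) ≤ n := by exact_mod_cast hc
    nlinarith
  have n2 : -1 ≤ n := by
    by_contra hc
    push Not at hc
    have : (n : ℝ) ≤ -2 := by exact_mod_cast (by omega : n ≤ -2)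
    nlinarith
  have n3 : n = -1 ∨ n = 0 ∨ n = 1 := by omega
  rcases n3 with rfl | rfl | rfl
  · right; left
    push_cast at h1
    exact ⟨by linarith, by linarith⟩
  · left
    push_cast at h1
    linarith
  · right; right
    push_cast at h1
    exact ⟨by linarith, by linarith⟩

theorem band_Qsurj (a : ℝ) (z : ℂ) : ∃ t ∈ Icc a (a + 2 * Real.pi), (‖z‖ : ℂ) * cexpi t = z := by
  have h := toIcoMod_mem_Ico Real.two_pi_pos a (Complex.arg z)
  refine ⟨toIcoMod Real.two_pi_pos a (Complex.arg z), ⟨h.1, h.2.le⟩, ?_⟩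
  have h1 : cexpi (toIcoMod Real.two_pi_pos a (Complex.arg z)) = cexpi (Complex.arg z) := by
    unfold cexpi
    rw [Complex.exp_eq_exp_iff_exists_int]
    refine ⟨-toIcoDiv Real.two_pi_pos a (Complex.arg z), ?_⟩
    rw [toIcoMod]
    push_cast
    simp
    ring
  rw [h1]
  exact Complex.norm_mul_exp_arg_mul_I z

theorem band_glue {K : Set (ℝ × ℝ)} (hK : IsCompact K) {P Q : ℝ × ℝ → ℂ} (hP : ContinuousOn P K)
    (hQ : ContinuousOn Q K) (h : ∀ p ∈ K, ∀ p' ∈ K, (P p = P p' ↔ Q p = Q p')) :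
    ∃ H : ℂ → ℂ, ContinuousOn H (P '' K) ∧ InjOn H (P '' K) ∧ ∀ p ∈ K, H (P p) = Q p := by
  classical
  let inv : ℂ → ℝ × ℝ := Function.invFunOn P K
  have hH : ∀ p ∈ K, Q (inv (P p)) = Q p := by
    intro p hp
    have h1 : ∃ q ∈ K, P q = P p := ⟨p, hp, rfl⟩
    exact (h _ (Function.invFunOn_mem h1) _ hp).mp (Function.invFunOn_eq h1)
  refine ⟨fun z => Q (inv z), ?_, ?_, hH⟩
  · rw [continuousOn_iff_isClosed]
    intro t ht
    refine ⟨P '' (K ∩ Q ⁻¹' t), ?_, ?_⟩
    · have h1 : IsCompact (K ∩ Q ⁻¹' t) := hK.of_isClosed_subset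
        (hQ.preimage_isClosed_of_isClosed hK.isClosed ht) inter_subset_left
      exact (h1.image_of_continuousOn (hP.mono inter_subset_left)).isClosed
    · ext z
      constructor
      · rintro ⟨hz, p, hp, rfl⟩
        refine ⟨⟨p, ⟨hp, ?_⟩, rfl⟩, p, hp, rfl⟩
        have h2 : Q (inv (P p)) ∈ t := hz
        rw [hH p hp] at h2
        exact h2
      · rintro ⟨⟨p, ⟨hp, hpt⟩, rfl⟩, _⟩
        refine ⟨?_, p, hp, rfl⟩
        change Q (inv (P p)) ∈ t
        rw [hH p hp]
        exact hpt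
  · rintro _ ⟨p, hp, rfl⟩ _ ⟨p', hp', rfl⟩ heq
    simp only [hH p hp, hH p' hp'] at heq
    exact (h p hp p' hp').mpr heq

theorem band_aff {p q ε : ℝ} (hpq : p < q) (hε : ε = 1 ∨ ε = -1) :
    (fun x : ℝ => (p + q) / 2 + ε * (x * (q - p) / 2)) '' Icc (-1) 1 = Icc p q ∧
    (fun x : ℝ => (p + q) / 2 + ε * (x * (q - p) / 2)) '' Ioo (-1) 1 = Ioo p q := by
  have h0 : q - p ≠ 0 := by linarith
  have key : ∀ t : ℝ, (p + q) / 2 + ε * (ε * ((2 * t - p - q) / (q - p)) * (q - p) / 2) = t := by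
    intro t
    have h1 : (2 * t - p - q) / (q - p) * (q - p) = 2 * t - p - q := div_mul_cancel₀ _ h0
    have h2 : ε * ε = 1 := by rcases hε with rfl | rfl <;> norm_num
    have h3 : ε * (ε * ((2 * t - p - q) / (q - p)) * (q - p) / 2) =
        (ε * ε) * ((2 * t - p - q) / (q - p) * (q - p)) / 2 := by ring
    rw [h3, h1, h2]
    ring
  have hd : 0 < q - p := by linarith
  constructor
  · ext t
    constructor
    · rintro ⟨x, ⟨hx0, hx1⟩, rfl⟩
      simp only
      rcases hε with rfl | rfl <;> constructor <;> nlinarith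
    · rintro ⟨ht0, ht1⟩
      refine ⟨ε * ((2 * t - p - q) / (q - p)), ?_, key t⟩
      have h1 : -1 ≤ (2 * t - p - q) / (q - p) := by rw [le_div_iff₀ hd]; linarith
      have h2 : (2 * t - p - q) / (q - p) ≤ 1 := by rw [div_le_iff₀ hd]; linarith
      rcases hε with rfl | rfl <;> constructor <;> linarith
  · ext t
    constructor
    · rintro ⟨x, ⟨hx0, hx1⟩, rfl⟩
      simp only
      rcases hε with rfl | rfl <;> constructor <;> nlinarith
    · rintro ⟨ht0, ht1⟩
      refine ⟨ε * ((2 * t - p - q) / (q - p)), ?_, key t⟩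
      have h1 : -1 < (2 * t - p - q) / (q - p) := by rw [lt_div_iff₀ hd]; linarith
      have h2 : (2 * t - p - q) / (q - p) < 1 := by rw [div_lt_iff₀ hd]; linarith
      rcases hε with rfl | rfl <;> constructor <;> linarith

theorem thm_BAND : St_BAND := by
  intro a b c d hab hbc hcd hde'
  obtain ⟨e, he⟩ : ∃ e, e = a + 2 * Real.pi := ⟨_, rfl⟩
  have hde : d < e := by rw [he]; exact hde'
  have hae : a ≤ e := by linarith
  let K : Set (ℝ × ℝ) := Icc 0 1 ×ˢ Icc a e
  let P : ℝ × ℝ → ℂ := fun p => (p.1 : ℂ) * band_W a b c d e p.2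
  let Q : ℝ × ℝ → ℂ := fun p => (p.1 : ℂ) * cexpi p.2
  have hKc : IsCompact K := isCompact_Icc.prod isCompact_Icc
  have hWc := band_W_cont (a := a) (b := b) (c := c) (d := d) (e := e)
  have hPc : Continuous P := by fun_prop
  have hQc : Continuous Q := by
    unfold Q cexpi
    fun_prop
  have hfib : ∀ p ∈ K, ∀ p' ∈ K, (P p = P p' ↔ Q p = Q p') := by
    rintro ⟨r, t⟩ ⟨hr, ht⟩ ⟨r', t'⟩ ⟨hr', ht'⟩
    simp only at hr ht hr' ht'
    constructor
    · intro h
      obtain ⟨h1, h2⟩ := band_Pfib hab hbc hcd hde hr.1 hr'.1 ht ht' h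
      simp only [Q]
      rcases h2 with h2 | h2 | ⟨h2, h3⟩ | ⟨h2, h3⟩
      · rw [← h1, h2, Complex.ofReal_zero, zero_mul, zero_mul]
      · rw [h1, h2]
      · rw [h1, h2, h3, he, band_cexpi_per]
      · rw [h1, h2, h3, he, band_cexpi_per]
    · intro h
      simp only [Q] at h
      have h1 := congrArg norm h
      rw [norm_mul, norm_mul, band_cexpi_norm, band_cexpi_norm, Complex.norm_real,
        Complex.norm_real, mul_one, mul_one, Real.norm_eq_abs, Real.norm_eq_abs,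
        abs_of_nonneg hr.1, abs_of_nonneg hr'.1] at h1
      simp only [P]
      by_cases h0 : r = 0
      · rw [← h1, h0, Complex.ofReal_zero, zero_mul, zero_mul]
      · rw [← h1] at h
        have h2 := mul_left_cancel₀ (by exact_mod_cast h0 : (r : ℂ) ≠ 0) h
        rw [he] at ht ht'
        have h4 := band_W_ends hab hbc hcd hde
        rcases band_cexpi_eq ht ht' h2 with h3 | ⟨h3, h3'⟩ | ⟨h3, h3'⟩
        · rw [h1, h3]
        · rw [h1, h3, h3', ← he, h4]
        · rw [h1, h3, h3', ← he, h4]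
  obtain ⟨H, Hc, Hi, HP⟩ := band_glue hKc hPc.continuousOn hQc.continuousOn hfib
  have hSq : ∀ z : ℂ, z ∈ Sq ↔ band_M z ≤ 1 := fun z => max_le_iff.symm
  have hSqI : ∀ z : ℂ, z ∈ SqI ↔ band_M z < 1 := fun z => max_lt_iff.symm
  have hPK : P '' K = Sq := by
    ext z
    rw [hSq]
    constructor
    · rintro ⟨⟨r, t⟩, ⟨hr, ht⟩, rfl⟩
      simp only [P]
      rw [band_M_mul hr.1, band_M_W hab hbc hcd hde ht.1 ht.2, mul_one]
      exact hr.2
    · intro hz
      obtain ⟨t, ht, hzt⟩ := band_Psurj hab hbc hcd hde z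
      exact ⟨(band_M z, t), ⟨⟨band_M_nonneg z, hz⟩, ht⟩, hzt⟩
  rw [hPK] at Hc Hi
  have hnorm : ∀ z ∈ Sq, ‖H z‖ = band_M z := by
    intro z hz
    obtain ⟨t, ht, hzt⟩ := band_Psurj hab hbc hcd hde z
    have h1 := HP (band_M z, t) ⟨⟨band_M_nonneg z, (hSq z).mp hz⟩, ht⟩
    simp only [P, Q] at h1
    rw [hzt] at h1
    rw [h1, norm_mul, band_cexpi_norm, Complex.norm_real, mul_one, Real.norm_eq_abs,
      abs_of_nonneg (band_M_nonneg z)]
  have hsurj : ∀ w : ℂ, ‖w‖ ≤ 1 → ∃ z ∈ Sq, band_M z = ‖w‖ ∧ H z = w := by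
    intro w hw
    obtain ⟨t, ht, hwt⟩ := band_Qsurj a w
    rw [← he] at ht
    have hp : ((‖w‖, t) : ℝ × ℝ) ∈ K := ⟨⟨norm_nonneg w, hw⟩, ht⟩
    have h1 := HP (‖w‖, t) hp
    simp only [Q] at h1
    rw [hwt] at h1
    have h2 : P (‖w‖, t) ∈ Sq := by rw [← hPK]; exact ⟨_, hp, rfl⟩
    refine ⟨P (‖w‖, t), h2, ?_, h1⟩
    rw [← hnorm _ h2, h1]
  have hOn : ∀ (S : Set ℂ) (R : Set ℝ), (∀ z, z ∈ S ↔ z ∈ Sq ∧ band_M z ∈ R) →
      ∀ T : Set ℂ, (∀ w, w ∈ T ↔ ‖w‖ ≤ 1 ∧ ‖w‖ ∈ R) → H '' S = T := by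
    intro S R hS T hT
    ext w
    rw [hT]
    constructor
    · rintro ⟨z, hz, rfl⟩
      obtain ⟨h1, h2⟩ := (hS z).mp hz
      rw [hnorm z h1]
      exact ⟨(hSq z).mp h1, h2⟩
    · rintro ⟨h1, h2⟩
      obtain ⟨z, hz, h3, h4⟩ := hsurj w h1
      exact ⟨z, (hS z).mpr ⟨hz, h3 ▸ h2⟩, h4⟩
  have HSq : H '' Sq = CD := hOn Sq univ (fun z => by simp) CD (fun w => by simp)
  have HSqI : H '' SqI = OD := by
    refine hOn SqI (Iio 1) (fun z => ?_) OD (fun w => ?_)
    · rw [hSqI, hSq]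
      exact ⟨fun h => ⟨h.le, h⟩, fun h => h.2⟩
    · rw [mem_ball_zero_iff]
      exact ⟨fun h => ⟨h.le, h⟩, fun h => h.2⟩
  have HB : H '' (Sq \ SqI) = UC := by
    refine hOn _ {1} (fun z => ?_) UC (fun w => ?_)
    · rw [Set.mem_sdiff, hSqI, hSq]
      simp only [mem_singleton_iff]
      constructor
      · rintro ⟨h1, h2⟩
        exact ⟨h1, le_antisymm h1 (not_lt.mp h2)⟩
      · rintro ⟨h1, h2⟩
        exact ⟨h1, fun h => absurd h2 h.ne⟩
    · rw [mem_sphere_zero_iff_norm]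
      simp only [mem_singleton_iff]
      exact ⟨fun h => ⟨h.le, h⟩, fun h => h.2⟩
  have htop : ∀ x ∈ Icc (-1 : ℝ) 1, H (x + Complex.I) =
      cexpi ((a + b) / 2 + (-1) * (x * (b - a) / 2)) := by
    rintro x ⟨hx0, hx1⟩
    have h1 := band_s1 hab hbc hcd hde (s := (1 - x) / 2) (by linarith) (by linarith)
    have h2 := HP (1, a + (1 - x) / 2 * (b - a)) ⟨⟨zero_le_one, le_rfl⟩, by
      constructor <;> nlinarith⟩
    simp only [P, Q] at h2
    rw [h1, Complex.ofReal_one, one_mul, one_mul] at h2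
    have h3 : (x + Complex.I : ℂ) = ⟨1 - 2 * ((1 - x) / 2), 1⟩ := by
      apply Complex.ext
      · simp; ring
      · simp
    rw [h3, h2]
    congr 1
    ring
  have hbot : ∀ x ∈ Icc (-1 : ℝ) 1, H (x - Complex.I) =
      cexpi ((c + d) / 2 + 1 * (x * (d - c) / 2)) := by
    rintro x ⟨hx0, hx1⟩
    have h1 := band_s3 hab hbc hcd hde (s := (x + 1) / 2) (by linarith) (by linarith)
    have h2 := HP (1, c + (x + 1) / 2 * (d - c)) ⟨⟨zero_le_one, le_rfl⟩, by
      constructor <;> nlinarith⟩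
    simp only [P, Q] at h2
    rw [h1, Complex.ofReal_one, one_mul, one_mul] at h2
    have h3 : (x - Complex.I : ℂ) = ⟨-1 + 2 * ((x + 1) / 2), -1⟩ := by
      apply Complex.ext
      · simp; ring
      · simp
    rw [h3, h2]
    congr 1
    ring
  have stop : ∀ S : Set ℝ, {z : ℂ | z.re ∈ S ∧ z.im = 1} =
      (fun x : ℝ => (x + Complex.I : ℂ)) '' S := by
    intro S
    ext z
    constructor
    · rintro ⟨h1, h2⟩
      exact ⟨z.re, h1, Complex.ext (by simp) (by simp [h2])⟩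
    · rintro ⟨x, hx, rfl⟩
      exact ⟨by simpa using hx, by simp⟩
  have sbot : ∀ S : Set ℝ, {z : ℂ | z.re ∈ S ∧ z.im = -1} =
      (fun x : ℝ => (x - Complex.I : ℂ)) '' S := by
    intro S
    ext z
    constructor
    · rintro ⟨h1, h2⟩
      exact ⟨z.re, h1, Complex.ext (by simp) (by simp [h2])⟩
    · rintro ⟨x, hx, rfl⟩
      exact ⟨by simpa using hx, by simp⟩
  have itop : ∀ S ⊆ Icc (-1 : ℝ) 1, H '' {z : ℂ | z.re ∈ S ∧ z.im = 1} =
      cexpi '' ((fun x : ℝ => (a + b) / 2 + (-1) * (x * (b - a) / 2)) '' S) := by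
    intro S hS
    rw [stop, image_image, image_image]
    exact image_congr fun x hx => htop x (hS hx)
  have ibot : ∀ S ⊆ Icc (-1 : ℝ) 1, H '' {z : ℂ | z.re ∈ S ∧ z.im = -1} =
      cexpi '' ((fun x : ℝ => (c + d) / 2 + 1 * (x * (d - c) / 2)) '' S) := by
    intro S hS
    rw [sbot, image_image, image_image]
    exact image_congr fun x hx => hbot x (hS hx)
  have ea := band_aff (ε := -1) hab (Or.inr rfl)
  have ec := band_aff (ε := 1) hcd (Or.inl rfl)
  have t1 : H '' {z | |z.re| ≤ 1 ∧ z.im = 1} = carc a b := by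
    have h1 : {z : ℂ | |z.re| ≤ 1 ∧ z.im = 1} = {z : ℂ | z.re ∈ Icc (-1 : ℝ) 1 ∧ z.im = 1} := by
      ext z
      simp only [mem_ofPred_eq, mem_Icc, abs_le]
    rw [h1, itop _ Subset.rfl, ea.1]
    rfl
  have t2 : H '' {z | |z.re| ≤ 1 ∧ z.im = -1} = carc c d := by
    have h1 : {z : ℂ | |z.re| ≤ 1 ∧ z.im = -1} = {z : ℂ | z.re ∈ Icc (-1 : ℝ) 1 ∧ z.im = -1} := by
      ext z
      simp only [mem_ofPred_eq, mem_Icc, abs_le]
    rw [h1, ibot _ Subset.rfl, ec.1]
    rfl
  have t3 : H '' {z | |z.re| < 1 ∧ z.im = 1} = oarc a b := by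
    have h1 : {z : ℂ | |z.re| < 1 ∧ z.im = 1} = {z : ℂ | z.re ∈ Ioo (-1 : ℝ) 1 ∧ z.im = 1} := by
      ext z
      simp only [mem_ofPred_eq, mem_Ioo, abs_lt]
    rw [h1, itop _ Ioo_subset_Icc_self, ea.2]
    rfl
  have t4 : H '' {z | |z.re| < 1 ∧ z.im = -1} = oarc c d := by
    have h1 : {z : ℂ | |z.re| < 1 ∧ z.im = -1} = {z : ℂ | z.re ∈ Ioo (-1 : ℝ) 1 ∧ z.im = -1} := by
      ext z
      simp only [mem_ofPred_eq, mem_Ioo, abs_lt]
    rw [h1, ibot _ Ioo_subset_Icc_self, ec.2]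
    rfl
  have hO : H '' SqO = oarc a b ∪ oarc c d := by
    have h1 : SqO = {z | |z.re| < 1 ∧ z.im = 1} ∪ {z | |z.re| < 1 ∧ z.im = -1} := by
      ext z
      simp only [SqO, mem_union, mem_ofPred_eq, abs_eq (zero_le_one (α := ℝ))]
      tauto
    rw [h1, image_union, t3, t4]
  refine ⟨H, Hc, Hi, HSq, HSqI, ?_, ?_, t1, t2, ?_, hO, ?_, HB⟩
  · intro x hx
    rw [htop x hx]
    congr 1
    ring
  · intro x hx
    rw [hbot x hx]
    congr 1
    ring
  · have h1 : SqA = {z | |z.re| ≤ 1 ∧ z.im = 1} ∪ {z | |z.re| ≤ 1 ∧ z.im = -1} := by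
      ext z
      simp only [SqA, mem_union, mem_ofPred_eq, abs_eq (zero_le_one (α := ℝ))]
      tauto
    rw [h1, image_union, t1, t2]
  · have h1 : SqF = (Sq \ SqI) \ SqO := by
      ext z
      simp only [SqF, Sq, SqI, SqO, Set.mem_sdiff, mem_ofPred_eq]
      constructor
      · rintro ⟨h1, h2⟩
        exact ⟨⟨⟨h1.le, h2⟩, fun h => absurd h1 h.1.ne⟩, fun h => absurd h1 h.1.ne⟩
      · rintro ⟨⟨⟨h1, h2⟩, h3⟩, h4⟩
        refine ⟨?_, h2⟩
        by_contra hne
        have h5 : |z.re| < 1 := lt_of_le_of_ne h1 hne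
        have h6 : ¬ |z.im| < 1 := fun h => h3 ⟨h5, h⟩
        exact h4 ⟨h5, le_antisymm h2 (not_lt.mp h6)⟩
    have h2 : SqO ⊆ Sq \ SqI := by
      rintro z ⟨h3, h4⟩
      exact ⟨⟨h3.le, h4.le⟩, fun h => absurd h4 h.2.ne⟩
    rw [h1, (Hi.mono sdiff_subset).image_sdiff_subset h2, HB, hO]

end Pool.Agent.SRP
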