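import Pool.Agent.SRP.StD

/-! # SRP/BCN (helper89): the circles of the free boundary -/

set_option autoImplicit false

open Set Metric Filter Topology Pool.Agent.SRF

namespace Pool.Agent.SRP

private theorem bcn_hole {C : Conf} {i : ℝ} {z : ℂ} (hr : 0 < C.rad i) (hz : z ∈ C.holes i) :
    ‖z - i‖ < C.rad i := by
  unfold Conf.holes at hz
  have key : ∀ d : ℝ, |d| ≤ C.rad i / 2 → ∀ z : ℂ, z ∈ ball ((i + d : ℝ) : ℂ) (C.rad i / 8) →
      ‖z - i‖ < C.rad i := by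
    intro d hd z hz
    rw [mem_ball, dist_eq_norm] at hz
    have h1 : z - i = (z - ((i + d : ℝ) : ℂ)) + (d : ℂ) := by push_cast; ring
    rw [h1]
    calc ‖z - ((i + d : ℝ) : ℂ) + (d : ℂ)‖ ≤ ‖z - ((i + d : ℝ) : ℂ)‖ + ‖(d : ℂ)‖ := norm_add_le _ _
      _ < C.rad i / 8 + C.rad i / 2 := by
        rw [Complex.norm_real, Real.norm_eq_abs]
        exact add_lt_add_of_lt_of_le hz hd
      _ ≤ C.rad i := by linarith
  have key2 : z ∈ ball ((i : ℝ) : ℂ) (C.rad i / 2) → ‖z - i‖ < C.rad i := by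
    intro h
    rw [mem_ball, dist_eq_norm] at h
    linarith
  split at hz
  · rcases hz with h | h
    · rw [sub_eq_add_neg i] at h
      exact key (-(C.rad i / 2)) (by rw [abs_neg, abs_of_pos (by linarith)]) z h
    · exact key (C.rad i / 2) (by rw [abs_of_pos (by linarith)]) z h
  · exact key2 hz
  · exact key2 hz

private theorem bcn_rel {C : Conf} (hC : C.Ok) {x y : ℂ} (h : C.Rel x y) : x = y ∨
    ∃ j ∈ C.I, C.lab j ≠ Lab.O ∧ ‖x - j‖ ≤ 5 / 8 * C.rad j := by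
  rcases h with h | ⟨i, hi, h⟩
  · exact Or.inl h
  refine Or.inr ⟨i, hi, ?_⟩
  have hr := hC.pos i hi
  have key : ∀ d : ℝ, |d| ≤ C.rad i / 2 → ∀ z : ℂ, z ∈ sphere ((i + d : ℝ) : ℂ) (C.rad i / 8) →
      ‖z - i‖ ≤ 5 / 8 * C.rad i := by
    intro d hd z hz
    rw [mem_sphere_iff_norm] at hz
    have h1 : z - i = (z - ((i + d : ℝ) : ℂ)) + (d : ℂ) := by push_cast; ring
    rw [h1]
    calc ‖z - ((i + d : ℝ) : ℂ) + (d : ℂ)‖ ≤ ‖z - ((i + d : ℝ) : ℂ)‖ + ‖(d : ℂ)‖ := norm_add_le _ _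
      _ ≤ C.rad i / 8 + C.rad i / 2 := by
        rw [Complex.norm_real, Real.norm_eq_abs, hz]
        exact add_le_add le_rfl hd
      _ = 5 / 8 * C.rad i := by ring
  rcases h with ⟨h1, h2, -⟩ | ⟨h1, h2, -⟩
  · refine ⟨by rw [h1]; simp, ?_⟩
    rcases h2 with h | h
    · rw [sub_eq_add_neg i] at h
      exact key (-(C.rad i / 2)) (by rw [abs_neg, abs_of_pos (by linarith)]) x h
    · exact key (C.rad i / 2) (by rw [abs_of_pos (by linarith)]) x h
  · refine ⟨by rw [h1]; simp, ?_⟩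
    rw [mem_sphere_iff_norm] at h2
    linarith

private theorem bcn_dist (i j : ℝ) (z : ℂ) : |i - j| ≤ ‖z - i‖ + ‖z - j‖ := by
  rw [← Real.norm_eq_abs, ← Complex.norm_real]
  have h6 : ((i - j : ℝ) : ℂ) = (z - j) - (z - i) := by push_cast; ring
  rw [h6, add_comm]
  exact norm_sub_le _ _

private theorem bcn_free {C : Conf} {x : ℂ} (hx : x ∈ C.FreeBd) :
    ∃ i ∈ C.I, C.lab i = Lab.O ∧ ‖x - i‖ = C.rad i / 2 := by
  unfold Conf.FreeBd at hx
  rw [mem_iUnion₂] at hx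
  obtain ⟨i, hi, hx⟩ := hx
  exact ⟨i, hi.1, hi.2, mem_sphere_iff_norm.1 hx⟩

private theorem bcn_dom {C : Conf} (hC : C.Ok) (hF : C.F = ∅) : C.FreeBd ⊆ C.Dom := by
  intro x hx
  obtain ⟨i, hi, hO, hxi⟩ := bcn_free hx
  have hp := hC.pos i hi
  refine ⟨?_, ?_⟩
  · rw [mem_closedBall_zero_iff]
    have h1 : ‖x‖ ≤ ‖x - i‖ + |i| := by
      calc ‖x‖ = ‖(x - i) + i‖ := by rw [sub_add_cancel]
        _ ≤ ‖x - i‖ + ‖(i : ℂ)‖ := norm_add_le _ _
        _ = ‖x - i‖ + |i| := by rw [Complex.norm_real, Real.norm_eq_abs]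
    linarith [hC.inside i hi]
  · rw [hF, image_empty, empty_union, mem_iUnion₂]
    rintro ⟨j, hj, hxj⟩
    by_cases hij : i = j
    · subst hij
      unfold Conf.holes at hxj
      rw [hO] at hxj
      change x ∈ ball ((i : ℝ) : ℂ) (C.rad i / 2) at hxj
      rw [mem_ball, dist_eq_norm] at hxj
      exact absurd hxi hxj.ne
    · have h1 := bcn_hole (hC.pos j hj) hxj
      have h2 := hC.apart i hi j hj hij
      linarith [bcn_dist i j x]

private theorem bcn_eq {C : Conf} (hC : C.Ok) {x y : ℂ} (hx : x ∈ C.FreeBd) (h : C.Rel x y) :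
    x = y := by
  obtain ⟨i, hi, hO, hxi⟩ := bcn_free hx
  rcases bcn_rel hC h with h | ⟨j, hj, hjO, hxj⟩
  · exact h
  · have hij : i ≠ j := by
      rintro rfl
      exact hjO hO
    have h2 := hC.apart i hi j hj hij
    linarith [bcn_dist i j x, hC.pos i hi, hC.pos j hj]

private theorem bcn_inj {X : Type} [TopologicalSpace X] {C : Conf} {L : Set X} {q : ℂ → X}
    (hC : C.Ok) (hF : C.F = ∅) (hq : Pres C L q) : InjOn q C.FreeBd := by
  intro x hx y hy h
  exact bcn_eq hC hx ((hq.rel x (bcn_dom hC hF hx) y (bcn_dom hC hF hy)).1 h)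

private theorem bcn_sph {C : Conf} {i : ℝ} (hi : i ∈ C.I) (hO : C.lab i = Lab.O) :
    sphere (i : ℂ) (C.rad i / 2) ⊆ C.FreeBd := by
  intro x hx
  unfold Conf.FreeBd
  rw [mem_iUnion₂]
  exact ⟨i, ⟨hi, hO⟩, hx⟩

private theorem bcn_disj {X : Type} [TopologicalSpace X] {C : Conf} {L : Set X} {q : ℂ → X}
    (hC : C.Ok) (hF : C.F = ∅) (hq : Pres C L q) {i j : ℝ} (hi : i ∈ C.I) (hj : j ∈ C.I)
    (hiO : C.lab i = Lab.O) (hjO : C.lab j = Lab.O) (hij : i ≠ j) :
    Disjoint (q '' sphere (i : ℂ) (C.rad i / 2)) (q '' sphere (j : ℂ) (C.rad j / 2)) := by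
  rw [disjoint_left]
  rintro _ ⟨x, hx, rfl⟩ ⟨y, hy, hxy⟩
  have h1 := bcn_inj hC hF hq (bcn_sph hj hjO hy) (bcn_sph hi hiO hx) hxy
  subst h1
  rw [mem_sphere_iff_norm] at hx hy
  linarith [hC.apart i hi j hj hij, bcn_dist i j y, hC.pos i hi, hC.pos j hj]

private theorem bcn_1 (hCFIN : St_CFIN) {X : Type} [TopologicalSpace X] [T2Space X] {C : Conf}
    {L : Set X} {q : ℂ → X} (hC : C.Ok) (hF : C.F = ∅) (hq : Pres C L q) :
    ∀ T ⊆ q '' C.FreeBd, T.Nonempty → IsPreconnected T →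
      ∃ i ∈ C.I, C.lab i = Lab.O ∧ T ⊆ q '' sphere (i : ℂ) (C.rad i / 2) := by
  intro T hT hne hpc
  obtain ⟨-, -, -, h4, -⟩ := hCFIN C hC
  obtain ⟨hI, -⟩ := h4 hF
  have hcl : ∀ i ∈ C.I, C.lab i = Lab.O → IsClosed (q '' sphere (i : ℂ) (C.rad i / 2)) := by
    intro i hi hO
    exact ((isCompact_sphere _ _).image_of_continuousOn
      (hq.cont.mono ((bcn_sph hi hO).trans (bcn_dom hC hF)))).isClosed
  obtain ⟨w, hw⟩ := hne
  obtain ⟨x, hx, hxw⟩ := hT hw
  obtain ⟨i, hi, hO, hxi⟩ := bcn_free hx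
  refine ⟨i, hi, hO, ?_⟩
  have hfin : ({j ∈ C.I | C.lab j = Lab.O} \ {i}).Finite := (hI.subset (fun j hj => hj.1)).diff
  have hcl2 : IsClosed (⋃ j ∈ {j ∈ C.I | C.lab j = Lab.O} \ {i},
      q '' sphere (j : ℂ) (C.rad j / 2)) :=
    hfin.isClosed_biUnion fun j hj => hcl j hj.1.1 hj.1.2
  have hdis : T ∩ (q '' sphere (i : ℂ) (C.rad i / 2) ∩
      ⋃ j ∈ {j ∈ C.I | C.lab j = Lab.O} \ {i}, q '' sphere (j : ℂ) (C.rad j / 2)) = ∅ := by
    rw [eq_empty_iff_forall_notMem]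
    rintro v ⟨-, hv1, hv2⟩
    rw [mem_iUnion₂] at hv2
    obtain ⟨j, hj, hv3⟩ := hv2
    exact (disjoint_left.1 (bcn_disj hC hF hq hi hj.1.1 hO hj.1.2 (Ne.symm hj.2))) hv1 hv3
  rcases (isPreconnected_iff_subset_of_disjoint_closed.1 hpc) _ _ (hcl i hi hO) hcl2 (by
    intro v hv
    obtain ⟨y, hy, rfl⟩ := hT hv
    obtain ⟨j, hj, hjO, hyj⟩ := bcn_free hy
    by_cases hij : j = i
    · subst hij
      exact Or.inl ⟨y, mem_sphere_iff_norm.2 hyj, rfl⟩
    · right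
      rw [mem_iUnion₂]
      exact ⟨j, ⟨⟨hj, hjO⟩, hij⟩, y, mem_sphere_iff_norm.2 hyj, rfl⟩) hdis with h | h
  · exact h
  · exfalso
    have h1 := h hw
    have h2 : w ∈ q '' sphere (i : ℂ) (C.rad i / 2) := ⟨x, mem_sphere_iff_norm.2 hxi, hxw⟩
    have h3 : w ∈ T ∩ (q '' sphere (i : ℂ) (C.rad i / 2) ∩
      ⋃ j ∈ {j ∈ C.I | C.lab j = Lab.O} \ {i}, q '' sphere (j : ℂ) (C.rad j / 2)) := ⟨hw, h2, h1⟩
    rw [hdis] at h3
    exact h3

/-! ## The standard annulus -/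

private theorem bcn_sOk : (single (1 / 2) Lab.O).Ok := by
  refine ⟨isClosed_empty, ?_, ?_, ?_, ?_, ?_, ?_, ?_⟩
  · change IsCompact (∅ ∪ {0})
    rw [empty_union]
    exact isCompact_singleton
  · exact isTotallyDisconnected_empty
  · intro x hx
    exact absurd hx (notMem_empty x)
  · intro i _
    change (0 : ℝ) < 1 / 2
    norm_num
  · intro i hi
    change |i| + 1 / 2 < 1
    rw [mem_singleton_iff.1 hi]
    norm_num
  · intro i _ x hx
    exact absurd hx (notMem_empty x)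
  · intro i hi j hj hij
    exact absurd ((mem_singleton_iff.1 hi).trans (mem_singleton_iff.1 hj).symm) hij

private theorem bcn_sDom : (single (1 / 2) Lab.O).Dom = Ann := by
  ext z
  unfold Conf.Dom
  rw [mem_diff, mem_closedBall_zero_iff]
  have h1 : z ∈ (fun x : ℝ => (x : ℂ)) '' (single (1 / 2) Lab.O).F ∪
      ⋃ i ∈ (single (1 / 2) Lab.O).I, (single (1 / 2) Lab.O).holes i ↔ ‖z‖ < 1 / 4 := by
    change z ∈ (fun x : ℝ => (x : ℂ)) '' ∅ ∪
      ⋃ i ∈ ({0} : Set ℝ), (single (1 / 2) Lab.O).holes i ↔ _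
    rw [image_empty, empty_union, biUnion_singleton]
    change z ∈ ball ((0 : ℝ) : ℂ) (1 / 2 / 2) ↔ _
    rw [Complex.ofReal_zero, mem_ball_zero_iff]
    norm_num
  rw [h1, not_lt]
  exact and_comm

private theorem bcn_sRel {x y : ℂ} : (single (1 / 2) Lab.O).Rel x y ↔ x = y := by
  constructor
  · rintro (h | ⟨i, -, ⟨h, -⟩ | ⟨h, -⟩⟩)
    · exact h
    · exact absurd h (by simp [single])
    · exact absurd h (by simp [single])
  · exact fun h => Or.inl h

private theorem bcn_sFree : (single (1 / 2) Lab.O).FreeBd = sphere 0 (1 / 4) := by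
  unfold Conf.FreeBd
  have h : {i ∈ (single (1 / 2) Lab.O).I | (single (1 / 2) Lab.O).lab i = Lab.O} = {0} := by
    ext i
    constructor
    · exact fun h => h.1
    · exact fun h => ⟨h, rfl⟩
  rw [h, biUnion_singleton]
  change sphere ((0 : ℝ) : ℂ) (1 / 2 / 2) = _
  rw [Complex.ofReal_zero]
  norm_num

private theorem bcn_sF : (single (1 / 2) Lab.O).F = ∅ := rfl

private theorem bcn_sT : (single (1 / 2) Lab.O).cnt Lab.T = 0 := by
  unfold Conf.cnt
  have h : {i ∈ (single (1 / 2) Lab.O).I | (single (1 / 2) Lab.O).lab i = Lab.T} = ∅ := by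
    rw [eq_empty_iff_forall_notMem]
    rintro i ⟨-, h⟩
    exact absurd h (by simp [single])
  rw [h, ncard_empty]

private theorem bcn_sP : (single (1 / 2) Lab.O).cnt Lab.P = 0 := by
  unfold Conf.cnt
  have h : {i ∈ (single (1 / 2) Lab.O).I | (single (1 / 2) Lab.O).lab i = Lab.P} = ∅ := by
    rw [eq_empty_iff_forall_notMem]
    rintro i ⟨-, h⟩
    exact absurd h (by simp [single])
  rw [h, ncard_empty]

private theorem bcn_sO : (single (1 / 2) Lab.O).cnt Lab.O = 1 := by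
  unfold Conf.cnt
  have h : {i ∈ (single (1 / 2) Lab.O).I | (single (1 / 2) Lab.O).lab i = Lab.O} = {0} := by
    ext i
    constructor
    · exact fun h => h.1
    · exact fun h => ⟨h, rfl⟩
  rw [h, ncard_singleton]

private theorem bcn_annc : IsCompact Ann := by
  have h : Ann = closedBall 0 1 ∩ {z : ℂ | 1 / 4 ≤ ‖z‖} := by
    ext z
    constructor
    · rintro ⟨h1, h2⟩
      exact ⟨mem_closedBall_zero_iff.2 h2, h1⟩
    · rintro ⟨h1, h2⟩
      exact ⟨h2, mem_closedBall_zero_iff.1 h1⟩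
  rw [h]
  exact (isCompact_closedBall 0 1).inter_right (isClosed_le continuous_const continuous_norm)

/-- **BCN.** -/
theorem thm_BCN (hCFIN : St_CFIN) (hFREE : St_FREE) : St_BCN := by
  refine ⟨?_, ?_, ?_, ?_, ?_, ?_⟩
  · intro X _ _ C L q hC hF hq
    exact ⟨bcn_inj hC hF hq, bcn_1 hCFIN hC hF hq⟩
  · rintro X _ _ t p L Bd u ⟨C, hC, hF, -, -, hO, q, hq, -, rfl⟩
    unfold Conf.cnt at hO
    rw [ncard_eq_one] at hO
    obtain ⟨i, hi⟩ := hO
    have hi' : i ∈ C.I ∧ C.lab i = Lab.O := by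
      have : i ∈ {i ∈ C.I | C.lab i = Lab.O} := by
        rw [hi]
        exact mem_singleton i
      exact this
    have h1 : C.FreeBd = sphere (i : ℂ) (C.rad i / 2) := by
      unfold Conf.FreeBd
      rw [hi, biUnion_singleton]
    have h2 : IsConnected (sphere (i : ℂ) (C.rad i / 2)) := by
      apply isConnected_sphere
      · rw [Complex.rank_real_complex]
        exact Cardinal.one_lt_two
      · linarith [hC.pos i hi'.1]
    rw [← h1] at h2
    exact h2.image q (hq.cont.mono (bcn_dom hC hF))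
  · rintro X _ _ t p o L Bd u ⟨C, hC, hF, -, -, hO, q, hq, -, rfl⟩ hpc
    unfold Conf.cnt at hO
    have h2 : 1 < {i ∈ C.I | C.lab i = Lab.O}.ncard := by omega
    have hsn : ∀ i : ℝ, i ∈ C.I → (sphere (i : ℂ) (C.rad i / 2)).Nonempty := by
      intro i hi
      rw [NormedSpace.sphere_nonempty]
      linarith [hC.pos i hi]
    have hne : (q '' C.FreeBd).Nonempty := by
      obtain ⟨i, hi, -⟩ := exists_ne_of_one_lt_ncard h2 0
      obtain ⟨z, hz⟩ := hsn i hi.1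
      exact ⟨q z, z, bcn_sph hi.1 hi.2 hz, rfl⟩
    obtain ⟨i, hi, hiO, hsub⟩ := bcn_1 hCFIN hC hF hq _ Subset.rfl hne hpc
    obtain ⟨j, hj, hji⟩ := exists_ne_of_one_lt_ncard h2 i
    obtain ⟨z, hz⟩ := hsn j hj.1
    exact (disjoint_left.1 (bcn_disj hC hF hq hi hj.1 hiO hj.2 hji.symm))
      (hsub ⟨z, bcn_sph hj.1 hj.2 hz, rfl⟩) ⟨z, hz, rfl⟩
  · rintro X _ t p L Bd u ⟨C, hC, hF, -, -, hO, q, hq, -, rfl⟩
    obtain ⟨-, -, -, h4, -⟩ := hCFIN C hC
    obtain ⟨hI, -⟩ := h4 hF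
    unfold Conf.cnt at hO
    rw [ncard_eq_zero (hI.subset (fun j hj => hj.1))] at hO
    unfold Conf.FreeBd
    rw [hO]
    simp
  · intro X _ _ W Bd u
    constructor
    · rintro ⟨q, hqc, hqi, hqW, hqB, hqu⟩
      refine ⟨single (1 / 2) Lab.O, bcn_sOk, rfl, bcn_sT, bcn_sP, bcn_sO, q, ?_, hqu, ?_⟩
      · refine ⟨?_, ?_, ?_, ?_⟩
        · rw [bcn_sDom]; exact hqc
        · rw [bcn_sDom]; exact hqW
        · rw [bcn_sDom]
          intro x hx y hy
          rw [bcn_sRel]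
          exact ⟨fun h => hqi hx hy h, fun h => by rw [h]⟩
        · intro A _ _
          rw [bcn_sDom]
          exact ⟨Ann, Subset.rfl, bcn_annc, fun x hx _ => hx⟩
      · rw [bcn_sFree]; exact hqB.symm
    · intro h
      obtain ⟨q, hq, hqu, hqB⟩ := hFREE.1 0 0 1 X W Bd u h (single (1 / 2) Lab.O) bcn_sOk rfl
        bcn_sT bcn_sP bcn_sO
      have hc := hq.cont
      have him := hq.image
      have hrel := hq.rel
      rw [bcn_sDom] at hc him hrel
      refine ⟨q, hc, ?_, him, ?_, hqu⟩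
      · intro x hx y hy hxy
        exact bcn_sRel.1 ((hrel x hx y hy).1 hxy)
      · rw [hqB, bcn_sFree]
  · intro X _ _ q hqc hqi
    set g : ℂ → ℂ := fun z => (((2 * ‖z‖ + 1) / (3 * ‖z‖) : ℝ) : ℂ) * z with hg
    have hgn : ∀ z : ℂ, z ≠ 0 → ‖g z‖ = (2 * ‖z‖ + 1) / 3 := by
      intro z hz
      have h1 : 0 < ‖z‖ := norm_pos_iff.2 hz
      rw [hg]
      simp only
      rw [norm_mul, Complex.norm_real, Real.norm_of_nonneg (by positivity)]
      field_simp
    have h0 : ∀ z : ℂ, z ∈ Ann → z ≠ 0 := by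
      rintro z hz rfl
      have := hz.1
      rw [norm_zero] at this
      norm_num at this
    have hgm : MapsTo g Ann {z | 1 / 2 ≤ ‖z‖ ∧ ‖z‖ ≤ 1} := by
      intro z hz
      change 1 / 2 ≤ ‖g z‖ ∧ ‖g z‖ ≤ 1
      rw [hgn z (h0 z hz)]
      constructor <;> linarith [hz.1, hz.2]
    have hgc : ContinuousOn g Ann := by
      refine ContinuousOn.mul ?_ continuousOn_id
      refine Complex.continuous_ofReal.comp_continuousOn ?_
      refine ContinuousOn.div (by fun_prop) (by fun_prop) ?_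
      intro z hz
      have h1 : 0 < ‖z‖ := norm_pos_iff.2 (h0 z hz)
      positivity
    have hgi : InjOn g Ann := by
      intro z hz w hw h
      have h1 : ‖z‖ = ‖w‖ := by
        have h2 : ‖g z‖ = ‖g w‖ := by rw [h]
        rw [hgn z (h0 z hz), hgn w (h0 w hw)] at h2
        linarith
      simp only [hg] at h
      rw [h1] at h
      have h3 : 0 < ‖w‖ := norm_pos_iff.2 (h0 w hw)
      have h4 : (((2 * ‖w‖ + 1) / (3 * ‖w‖) : ℝ) : ℂ) ≠ 0 := by
        have : (2 * ‖w‖ + 1) / (3 * ‖w‖) ≠ 0 := by positivity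
        exact_mod_cast this
      exact mul_left_cancel₀ h4 h
    -- the inverse
    have hinv : ∀ w : ℂ, 1 / 2 ≤ ‖w‖ → ∃ z : ℂ, ‖z‖ = (3 * ‖w‖ - 1) / 2 ∧ g z = w := by
      intro w hw
      have hw0 : 0 < ‖w‖ := by linarith
      have hp : 0 < 3 * ‖w‖ - 1 := by linarith
      have hn : ‖(((3 * ‖w‖ - 1) / (2 * ‖w‖) : ℝ) : ℂ) * w‖ = (3 * ‖w‖ - 1) / 2 := by
        rw [norm_mul, Complex.norm_real, Real.norm_of_nonneg (by positivity)]
        field_simp
      refine ⟨(((3 * ‖w‖ - 1) / (2 * ‖w‖) : ℝ) : ℂ) * w, hn, ?_⟩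
      rw [hg]
      simp only
      rw [hn, ← mul_assoc, ← Complex.ofReal_mul]
      have h1 : (2 * ((3 * ‖w‖ - 1) / 2) + 1) / (3 * ((3 * ‖w‖ - 1) / 2)) *
          ((3 * ‖w‖ - 1) / (2 * ‖w‖)) = 1 := by
        field_simp
        ring
      rw [h1, Complex.ofReal_one, one_mul]
    refine ⟨fun z => q (g z), hqc.comp hgc hgm, ?_, ?_, ?_, ?_⟩
    · intro z hz w hw h
      exact hgi hz hw (hqi (hgm hz) (hgm hw) h)
    · ext v
      constructor
      · rintro ⟨z, hz, rfl⟩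
        exact ⟨g z, hgm hz, rfl⟩
      · rintro ⟨w, ⟨hw1, hw2⟩, rfl⟩
        obtain ⟨z, hz1, hz2⟩ := hinv w hw1
        refine ⟨z, ⟨?_, ?_⟩, ?_⟩
        · rw [hz1]; linarith
        · rw [hz1]; linarith
        · change q (g z) = q w
          rw [hz2]
    · ext v
      constructor
      · rintro ⟨z, hz, rfl⟩
        rw [mem_sphere_zero_iff_norm] at hz
        refine ⟨g z, ?_, rfl⟩
        rw [mem_sphere_zero_iff_norm, hgn z (by rintro rfl; rw [norm_zero] at hz; norm_num at hz),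
          hz]
        norm_num
      · rintro ⟨w, hw, rfl⟩
        rw [mem_sphere_zero_iff_norm] at hw
        obtain ⟨z, hz1, hz2⟩ := hinv w hw.ge
        refine ⟨z, ?_, ?_⟩
        · rw [mem_sphere_zero_iff_norm, hz1, hw]
          norm_num
        · change q (g z) = q w
          rw [hz2]
    · intro z hz
      rw [mem_sphere_zero_iff_norm] at hz
      change q (g z) = q z
      rw [hg]
      simp only
      rw [hz]
      norm_num

end Pool.Agent.SRP
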