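import Pool.Agent.SRP.StD

/-!
# Module BDT of SRP: a disc attached along two arcs as a band
-/

set_option autoImplicit false

open Set Metric Filter Topology Pool.Agent.SRF

namespace Pool.Agent.SRP

private theorem bdt_inv {X : Type} [TopologicalSpace X] [T2Space X] {S : Set ℂ} (hS : IsCompact S)
    (q : ℂ → X) (hq : ContinuousOn q S) (hi : InjOn q S) (T : Set ℝ) (f : ℝ → X)
    (hf : ContinuousOn f T) (hm : ∀ t ∈ T, f t ∈ q '' S) :
    ∃ ζ : ℝ → ℂ, ContinuousOn ζ T ∧ ∀ t ∈ T, ζ t ∈ S ∧ q (ζ t) = f t := by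
  classical
  have hm' : ∀ t : ℝ, ∃ z : ℂ, t ∈ T → z ∈ S ∧ q z = f t := by
    intro t
    by_cases ht : t ∈ T
    · obtain ⟨z, hz, hzq⟩ := hm t ht
      exact ⟨z, fun _ => ⟨hz, hzq⟩⟩
    · exact ⟨0, fun h => absurd h ht⟩
  choose ζ hζ using hm'
  refine ⟨ζ, ?_, fun t ht => hζ t ht⟩
  have : CompactSpace S := isCompact_iff_compactSpace.1 hS
  have emb : IsClosedEmbedding (S.domRestrict q) :=
    (continuousOn_iff_continuous_domRestrict.1 hq).isClosedEmbedding (injOn_iff_injective.1 hi)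
  rw [continuousOn_iff_continuous_domRestrict]
  let g : T → S := fun t => ⟨ζ t, (hζ t t.2).1⟩
  have hg : Continuous g := by
    rw [emb.isInducing.continuous_iff]
    have h1 : (S.domRestrict q) ∘ g = T.domRestrict f := by
      funext t
      exact (hζ t t.2).2
    rw [h1]
    exact continuousOn_iff_continuous_domRestrict.1 hf
  exact continuous_subtype_val.comp hg

private theorem bdt_theta (hMONO : St_MONO) {X : Type} [TopologicalSpace X] [T2Space X]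
    (q : ℂ → X) (c : ℂ) (r : ℝ) (hr : 0 < r) (hq : ContinuousOn q (sphere c r))
    (hi : InjOn q (sphere c r)) (f : ℝ → X) (hf : ContinuousOn f (Icc (-1) 1))
    (hfi : InjOn f (Icc (-1) 1)) (hm : ∀ t ∈ Icc (-1 : ℝ) 1, f t ∈ q '' sphere c r) :
    ∃ θ : ℝ → ℝ, ContinuousOn θ (Icc (-1) 1) ∧
      (StrictMonoOn θ (Icc (-1) 1) ∨ StrictAntiOn θ (Icc (-1) 1)) ∧
      ∀ t ∈ Icc (-1 : ℝ) 1, f t = q (c + r * cexpi (θ t)) := by
  obtain ⟨ζ, hζ, hζq⟩ := bdt_inv (isCompact_sphere c r) q hq hi _ f hf hm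
  obtain ⟨θ, h1, h2, h3, -⟩ := hMONO.1 c r (-1) 1 ζ hr (by norm_num) hζ (by
    intro s hs t ht hst
    apply hfi hs ht
    rw [← (hζq s hs).2, ← (hζq t ht).2, hst]) (fun t ht => (hζq t ht).1)
  exact ⟨θ, h1, h2, fun t ht => by rw [← h3 t ht]; exact (hζq t ht).2.symm⟩

theorem thm_BDT (hMONO : St_MONO) (hBAND : St_BAND) : St_BDT := by
  intro X _ _ q e c₁ c₂ r₁ r₂ a b c d hab hbc hcd hda hr₁ hr₂ he hei hq₁ hi₁ hq₂ hi₂ hab' hcd'
  obtain ⟨H₀, hc, hinj, him, -, -, -, htop, hbot, hA, hO, hF, -⟩ := hBAND a b c d hab hbc hcd hda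
  have hmaps : MapsTo H₀ Sq CD := by
    intro z hz
    rw [← him]
    exact mem_image_of_mem _ hz
  have hHc : ContinuousOn (e ∘ H₀) Sq := he.comp hc hmaps
  have hHi : InjOn (e ∘ H₀) Sq := hei.comp hinj hmaps
  have ht1 : ∀ x ∈ Icc (-1 : ℝ) 1, ((x : ℂ) + Complex.I) ∈ {z : ℂ | |z.re| ≤ 1 ∧ z.im = 1} := by
    intro x hx
    refine ⟨?_, ?_⟩
    · simpa [abs_le] using hx
    · simp
  have ht2 : ∀ x ∈ Icc (-1 : ℝ) 1, ((x : ℂ) - Complex.I) ∈ {z : ℂ | |z.re| ≤ 1 ∧ z.im = -1} := by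
    intro x hx
    refine ⟨?_, ?_⟩
    · simpa [abs_le] using hx
    · simp
  have hs1 : {z : ℂ | |z.re| ≤ 1 ∧ z.im = 1} ⊆ Sq := by
    rintro z ⟨h1, h2⟩
    exact ⟨h1, by rw [h2]; simp⟩
  have hs2 : {z : ℂ | |z.re| ≤ 1 ∧ z.im = -1} ⊆ Sq := by
    rintro z ⟨h1, h2⟩
    exact ⟨h1, by rw [h2]; simp⟩
  obtain ⟨θ₁, hθ₁, hm₁, he₁⟩ := bdt_theta hMONO q c₁ r₁ hr₁ hq₁ hi₁
    (fun x => (e ∘ H₀) ((x : ℂ) + Complex.I))
    (hHc.comp (by fun_prop) (fun x hx => hs1 (ht1 x hx)))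
    (by
      intro x hx y hy hxy
      have h1 := hHi (hs1 (ht1 x hx)) (hs1 (ht1 y hy)) hxy
      exact_mod_cast add_right_cancel h1)
    (by
      intro x hx
      apply hab'
      rw [← htop]
      exact ⟨_, mem_image_of_mem _ (ht1 x hx), rfl⟩)
  obtain ⟨θ₂, hθ₂, hm₂, he₂⟩ := bdt_theta hMONO q c₂ r₂ hr₂ hq₂ hi₂
    (fun x => (e ∘ H₀) ((x : ℂ) - Complex.I))
    (hHc.comp (by fun_prop) (fun x hx => hs2 (ht2 x hx)))
    (by
      intro x hx y hy hxy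
      have h1 := hHi (hs2 (ht2 x hx)) (hs2 (ht2 y hy)) hxy
      exact_mod_cast sub_left_injective h1)
    (by
      intro x hx
      apply hcd'
      rw [← hbot]
      exact ⟨_, mem_image_of_mem _ (ht2 x hx), rfl⟩)
  refine ⟨e ∘ H₀, θ₁, θ₂, hHc, hHi, ?_, ?_, ?_, ?_, hθ₁, hθ₂, hm₁, hm₂, he₁, he₂⟩
  · rw [image_comp, him]
  · rw [image_comp, hA]
  · rw [image_comp, hO]
  · rw [image_comp, hF]

end Pool.Agent.SRP
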