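import Pool.Agent.SRP.StC

/-! # SRP/CCONG (helper89): the domain and the relation depend only on the values on `I` -/

set_option autoImplicit false

open Set Metric Filter Topology Pool.Agent.SRF

namespace Pool.Agent.SRP

/-- **CCONG.** -/
theorem thm_CCONG : St_CCONG := by
  intro C C' hF hI hv
  have hr : ∀ i ∈ C.I, C'.rad i = C.rad i := fun i hi => (hv i hi).1
  have hl : ∀ i ∈ C.I, C'.lab i = C.lab i := fun i hi => (hv i hi).2
  have hh : ∀ i ∈ C.I, C'.holes i = C.holes i := by
    intro i hi
    unfold Conf.holes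
    rw [hr i hi, hl i hi]
  have hset : ∀ l : Lab, {i ∈ C'.I | C'.lab i = l} = {i ∈ C.I | C.lab i = l} := by
    intro l
    ext i
    rw [hI]
    constructor
    · rintro ⟨h1, h2⟩
      exact ⟨h1, by rw [← hl i h1]; exact h2⟩
    · rintro ⟨h1, h2⟩
      exact ⟨h1, by rw [hl i h1]; exact h2⟩
  refine ⟨?_, ?_, ?_, ?_, ?_⟩
  · unfold Conf.Dom
    rw [hF, hI]
    congr 2
    exact iUnion₂_congr hh
  · funext x y
    unfold Conf.Rel
    rw [hI]
    refine propext (or_congr Iff.rfl (exists_congr fun i => and_congr_right fun hi => ?_))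
    rw [hr i hi, hl i hi]
  · unfold Conf.FreeBd
    rw [hset]
    refine iUnion₂_congr fun i hi => ?_
    rw [hr i hi.1]
  · intro h
    refine ⟨?_, ?_, ?_, ?_, ?_, ?_, ?_, ?_⟩
    · rw [hF]; exact h.closed
    · rw [hF, hI]; exact h.compact
    · rw [hF]; exact h.td
    · rw [hF]; exact h.small
    · rw [hI]
      intro i hi
      rw [hr i hi]
      exact h.pos i hi
    · rw [hI]
      intro i hi
      rw [hr i hi]
      exact h.inside i hi
    · rw [hI, hF]
      intro i hi x hx
      rw [hr i hi]
      exact h.away i hi x hx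
    · rw [hI]
      intro i hi j hj hij
      rw [hr i hi, hr j hj]
      exact h.apart i hi j hj hij
  · intro l
    unfold Conf.cnt
    rw [hset]

end Pool.Agent.SRP
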