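import Pool.Agent.SRP.StC

/-! # SRP/CFIN (helper89): elementary facts on configurations -/

set_option autoImplicit false

open Set Metric Filter Topology Pool.Agent.SRF

namespace Pool.Agent.SRP

private theorem cfin_hole {C : Conf} {i : ℝ} {z : ℂ} (hr : 0 < C.rad i) (hz : z ∈ C.holes i) :
    ‖z - i‖ < C.rad i := by
  unfold Conf.holes at hz
  have key : ∀ d : ℝ, |d| ≤ C.rad i / 2 → ∀ z : ℂ, z ∈ ball ((i + d : ℝ) : ℂ) (C.rad i / 8) →
      ‖z - i‖ < C.rad i := by
    intro d hd z hz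
    rw [mem_ball, dist_eq_norm] at hz
    have h1 : z - i = (z - ((i + d : ℝ) : ℂ)) + (d : ℂ) := by push_cast; ring
    rw [h1]
    calc ‖z - ((i + d : ℝ) : ℂ) + (d : ℂ)‖ ≤ ‖z - ((i + d : ℝ) : ℂ)‖ + ‖(d : ℂ)‖ := norm_add_le _ _
      _ < C.rad i / 8 + C.rad i / 2 := by
        rw [Complex.norm_real, Real.norm_eq_abs]
        exact add_lt_add_of_lt_of_le hz hd
      _ ≤ C.rad i := by linarith
  have key2 : z ∈ ball ((i : ℝ) : ℂ) (C.rad i / 2) → ‖z - i‖ < C.rad i := by
    intro h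
    rw [mem_ball, dist_eq_norm] at h
    linarith
  split at hz
  · rcases hz with h | h
    · rw [sub_eq_add_neg i] at h
      exact key (-(C.rad i / 2)) (by rw [abs_neg, abs_of_pos (by linarith)]) z h
    · exact key (C.rad i / 2) (by rw [abs_of_pos (by linarith)]) z h
  · exact key2 hz
  · exact key2 hz

private theorem cfin_open (C : Conf) (i : ℝ) : IsOpen (C.holes i) := by
  unfold Conf.holes
  split
  · exact isOpen_ball.union isOpen_ball
  · exact isOpen_ball
  · exact isOpen_ball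

private theorem cfin_conj (i d : ℝ) (x : ℂ) :
    ‖(2 * (i : ℂ) - (starRingEnd ℂ) x) - ((i + d : ℝ) : ℂ)‖ = ‖x - ((i - d : ℝ) : ℂ)‖ := by
  have h : (2 * (i : ℂ) - (starRingEnd ℂ) x) - ((i + d : ℝ) : ℂ) =
      -((starRingEnd ℂ) (x - ((i - d : ℝ) : ℂ))) := by
    rw [map_sub, Complex.conj_ofReal]
    push_cast
    ring
  rw [h, norm_neg, RCLike.norm_conj]

/-- one step of the relation -/
private def cfin_S (C : Conf) (i : ℝ) (x y : ℂ) : Prop :=
  (C.lab i = Lab.T ∧ (x ∈ sphere ((i - C.rad i / 2 : ℝ) : ℂ) (C.rad i / 8) ∨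
      x ∈ sphere ((i + C.rad i / 2 : ℝ) : ℂ) (C.rad i / 8)) ∧
      y = 2 * (i : ℂ) - (starRingEnd ℂ) x) ∨
    (C.lab i = Lab.P ∧ x ∈ sphere (i : ℂ) (C.rad i / 2) ∧ y = 2 * (i : ℂ) - x)

private theorem cfin_symm {C : Conf} {i : ℝ} {x y : ℂ} (h : cfin_S C i x y) : cfin_S C i y x := by
  rcases h with ⟨h1, h2, rfl⟩ | ⟨h1, h2, rfl⟩
  · left
    refine ⟨h1, ?_, ?_⟩
    · rcases h2 with h2 | h2
      · right
        rw [mem_sphere_iff_norm] at h2 ⊢
        rw [cfin_conj]
        exact h2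
      · left
        rw [mem_sphere_iff_norm] at h2 ⊢
        rw [sub_eq_add_neg i, cfin_conj, sub_neg_eq_add]
        exact h2
    · rw [map_sub, map_mul, Complex.conj_conj, Complex.conj_ofReal, map_ofNat]
      ring
  · right
    refine ⟨h1, ?_, by ring⟩
    rw [mem_sphere_iff_norm] at h2 ⊢
    rw [← h2, ← norm_neg]
    congr 1
    ring

private theorem cfin_ball {C : Conf} {i : ℝ} {x y : ℂ} (hr : 0 < C.rad i) (h : cfin_S C i x y) :
    x ∈ closedBall (i : ℂ) (5 / 8 * C.rad i) := by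
  have key : ∀ d : ℝ, |d| ≤ C.rad i / 2 → ∀ z : ℂ, z ∈ sphere ((i + d : ℝ) : ℂ) (C.rad i / 8) →
      z ∈ closedBall (i : ℂ) (5 / 8 * C.rad i) := by
    intro d hd z hz
    rw [mem_sphere_iff_norm] at hz
    rw [mem_closedBall, dist_eq_norm]
    have h1 : z - i = (z - ((i + d : ℝ) : ℂ)) + (d : ℂ) := by push_cast; ring
    rw [h1]
    calc ‖z - ((i + d : ℝ) : ℂ) + (d : ℂ)‖ ≤ ‖z - ((i + d : ℝ) : ℂ)‖ + ‖(d : ℂ)‖ := norm_add_le _ _
      _ ≤ C.rad i / 8 + C.rad i / 2 := by
        rw [Complex.norm_real, Real.norm_eq_abs, hz]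
        exact add_le_add le_rfl hd
      _ = 5 / 8 * C.rad i := by ring
  rcases h with ⟨-, h2, -⟩ | ⟨-, h2, -⟩
  · rcases h2 with h | h
    · rw [sub_eq_add_neg i] at h
      exact key (-(C.rad i / 2)) (by rw [abs_neg, abs_of_pos (by linarith)]) x h
    · exact key (C.rad i / 2) (by rw [abs_of_pos (by linarith)]) x h
  · rw [mem_sphere_iff_norm] at h2
    rw [mem_closedBall, dist_eq_norm]
    linarith

/-- **CFIN.** -/
theorem thm_CFIN : St_CFIN := by
  intro C hC
  have h1 : Disjoint C.F C.I := by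
    rw [disjoint_left]
    intro x hx hx'
    have := hC.away x hx' x hx
    rw [sub_self, abs_zero] at this
    linarith [hC.pos x hx']
  have h2 : ∀ K : Set ℝ, IsClosed K → Disjoint K C.F → (K ∩ C.I).Finite := by
    intro K hK hKF
    by_contra hinf
    obtain ⟨x, hx, hacc⟩ := Set.Infinite.exists_accPt_of_subset_isCompact hinf hC.compact
      (inter_subset_right.trans subset_union_right)
    have hxK : x ∈ K := by
      have h3 : x ∈ closure (K ∩ C.I) := mem_closure_iff_clusterPt.2 hacc.clusterPt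
      exact closure_minimal inter_subset_left hK h3
    have hxI : x ∈ C.I := hx.resolve_left (fun h => (disjoint_left.1 hKF) hxK h)
    rw [accPt_iff_nhds] at hacc
    obtain ⟨y, ⟨hy1, hy2⟩, hy3⟩ := hacc (ball x (C.rad x)) (ball_mem_nhds _ (hC.pos x hxI))
    have h4 := hC.apart x hxI y hy2.2 (Ne.symm hy3)
    rw [mem_ball, Real.dist_eq, abs_sub_comm] at hy1
    linarith [hC.pos y hy2.2]
  have h3 : ∀ ε : ℝ, 0 < ε → {i ∈ C.I | ε ≤ C.rad i}.Finite := by
    intro ε hε
    by_contra hinf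
    obtain ⟨x, hx, hacc⟩ := Set.Infinite.exists_accPt_of_subset_isCompact hinf hC.compact
      (fun i hi => Or.inr hi.1)
    rw [accPt_iff_nhds] at hacc
    obtain ⟨i, ⟨hi1, hi2⟩, hi3⟩ := hacc (ball x ε) (ball_mem_nhds _ hε)
    have h4 : 0 < |i - x| := abs_pos.2 (sub_ne_zero.2 hi3)
    obtain ⟨j, ⟨hj1, hj2⟩, hj3⟩ := hacc (ball x |i - x|) (ball_mem_nhds _ h4)
    rw [mem_ball, Real.dist_eq] at hi1 hj1
    have hij : i ≠ j := by
      rintro rfl
      exact lt_irrefl _ hj1
    have h5 := hC.apart i hi2.1 j hj2.1 hij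
    have h6 : |i - j| ≤ |i - x| + |j - x| := by
      rw [abs_sub_comm j x]
      exact abs_sub_le i x j
    linarith [hi2.2, hj2.2]
  refine ⟨h1, h2, h3, ?_, ?_, ?_, ?_, ?_⟩
  · intro hF
    have hI : C.I.Finite := by
      have := h2 univ isClosed_univ (by rw [hF]; exact disjoint_empty _)
      rwa [univ_inter] at this
    refine ⟨hI, ?_⟩
    unfold Conf.Dom
    rw [hF, image_empty, empty_union]
    exact (isCompact_closedBall 0 1).diff (isOpen_biUnion fun i _ => cfin_open C i)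
  · intro z hz
    rw [mem_sphere_zero_iff_norm] at hz
    refine ⟨mem_closedBall_zero_iff.2 hz.le, ?_⟩
    rintro (⟨x, hx, rfl⟩ | h)
    · rw [Complex.norm_real, Real.norm_eq_abs] at hz
      have := hC.small x hx
      linarith
    · rw [mem_iUnion₂] at h
      obtain ⟨i, hi, hzi⟩ := h
      have h4 := cfin_hole (hC.pos i hi) hzi
      have h5 := hC.inside i hi
      have h6 : ‖z‖ ≤ ‖z - i‖ + |i| := by
        calc ‖z‖ = ‖(z - i) + i‖ := by rw [sub_add_cancel]
          _ ≤ ‖z - i‖ + ‖(i : ℂ)‖ := norm_add_le _ _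
          _ = ‖z - i‖ + |i| := by rw [Complex.norm_real, Real.norm_eq_abs]
      linarith
  · have h4 : C.I ⊆ ⋃ n : ℕ, {i ∈ C.I | 1 / ((n : ℝ) + 1) ≤ C.rad i} := by
      intro i hi
      obtain ⟨n, hn⟩ := exists_nat_one_div_lt (hC.pos i hi)
      exact mem_iUnion.2 ⟨n, hi, hn.le⟩
    exact (countable_iUnion fun n => (h3 _ (by positivity)).countable).mono h4
  · rintro x y (h | ⟨i, hi, h⟩)
    · exact Or.inl h
    · exact Or.inr ⟨i, hi, cfin_ball (hC.pos i hi) h, cfin_ball (hC.pos i hi) (cfin_symm h)⟩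
  · refine ⟨fun x => Or.inl rfl, ?_, ?_⟩
    · rintro x y (h | ⟨i, hi, h⟩)
      · exact Or.inl h.symm
      · exact Or.inr ⟨i, hi, cfin_symm h⟩
    · rintro x y z (rfl | ⟨i, hi, h⟩) (rfl | ⟨j, hj, h'⟩)
      · exact Or.inl rfl
      · exact Or.inr ⟨j, hj, h'⟩
      · exact Or.inr ⟨i, hi, h⟩
      · have hb1 := cfin_ball (hC.pos i hi) (cfin_symm h)
        have hb2 := cfin_ball (hC.pos j hj) h'
        rw [mem_closedBall, dist_eq_norm] at hb1 hb2
        have hij : i = j := by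
          by_contra hne
          have h4 := hC.apart i hi j hj hne
          have h5 : |i - j| ≤ ‖y - i‖ + ‖y - j‖ := by
            rw [← Real.norm_eq_abs, ← Complex.norm_real]
            have h6 : ((i - j : ℝ) : ℂ) = (y - j) - (y - i) := by push_cast; ring
            rw [h6, add_comm]
            exact norm_sub_le _ _
          linarith [hC.pos i hi, hC.pos j hj]
        subst hij
        left
        rcases h with ⟨a1, -, rfl⟩ | ⟨a1, -, rfl⟩ <;> rcases h' with ⟨b1, -, rfl⟩ | ⟨b1, -, rfl⟩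
        · rw [map_sub, map_mul, Complex.conj_conj, Complex.conj_ofReal, map_ofNat]
          ring
        · rw [a1] at b1
          exact absurd b1 (by simp)
        · rw [a1] at b1
          exact absurd b1 (by simp)
        · ring

end Pool.Agent.SRP
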