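import Pool.Agent.SRP.StE

set_option autoImplicit false

/-! # SRP MAT: metric back and forth -/

open Set Metric Filter Topology Pool.Agent.SRF

namespace Pool.Agent.SRP

/-- distinct elements of countably many infinite sets -/
theorem mat_choose {α β : Type} [Countable α] (T : α → Set β) (hT : ∀ a, (T a).Infinite) :
    ∃ f : α → β, Function.Injective f ∧ ∀ a, f a ∈ T a := by
  classical
  rcases isEmpty_or_nonempty α with hα | ⟨⟨a₀⟩⟩
  · exact ⟨fun a => hα.elim a, fun a => hα.elim a, fun a => hα.elim a⟩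
  obtain ⟨code, hcode⟩ := exists_injective_nat α
  have key : ∀ (n : ℕ) (s : Finset β), ∃ y, y ∉ s ∧ ∀ a, code a = n → y ∈ T a := by
    intro n s
    by_cases h : ∃ a, code a = n
    · obtain ⟨a, rfl⟩ := h
      obtain ⟨y, hy, hys⟩ := (hT a).exists_notMem_finset s
      exact ⟨y, hys, fun b hb => hcode hb ▸ hy⟩
    · obtain ⟨y, _, hys⟩ := (hT a₀).exists_notMem_finset s
      exact ⟨y, hys, fun b hb => absurd ⟨b, hb⟩ h⟩
  choose step hs1 hs2 using key
  let st : ℕ → Finset β := fun n => Nat.rec ∅ (fun n s => insert (step n s) s) n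
  have hst : ∀ n, st (n + 1) = insert (step n (st n)) (st n) := fun n => rfl
  have hmono : ∀ m n, m ≤ n → st m ⊆ st n := by
    intro m n h
    induction n, h using Nat.le_induction with
    | base => exact Finset.Subset.refl _
    | succ n _ ih => exact ih.trans (by rw [hst]; exact Finset.subset_insert _ _)
  have hlt : ∀ m n, m < n → step m (st m) ≠ step n (st n) := by
    intro m n h heq
    have h1 : step m (st m) ∈ st n := by
      apply hmono (m + 1) n h
      rw [hst]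
      exact Finset.mem_insert_self _ _
    rw [heq] at h1
    exact hs1 n (st n) h1
  refine ⟨fun a => step (code a) (st (code a)), fun a b hab => ?_, fun a => hs2 _ _ a rfl⟩
  rcases lt_trichotomy (code a) (code b) with h | h | h
  · exact absurd hab (hlt _ _ h)
  · exact hcode h
  · exact absurd hab.symm (hlt _ _ h)

theorem mat_acc (F A S : Set ℝ) (hc : IsCompact (F ∪ A))
    (hiso : ∀ i ∈ A, ∃ ε > 0, ∀ x ∈ F ∪ A, |x - i| < ε → x = i) (hS : S ⊆ A) (hinf : S.Infinite) :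
    ∃ x ∈ F, AccPt x (𝓟 S) := by
  obtain ⟨x, hx, hacc⟩ := hinf.exists_accPt_of_subset_isCompact hc
    (hS.trans subset_union_right)
  rcases hx with hx | hx
  · exact ⟨x, hx, hacc⟩
  · exfalso
    obtain ⟨ε, hε, h⟩ := hiso x hx
    rw [accPt_iff_nhds] at hacc
    obtain ⟨y, ⟨hy1, hy2⟩, hy3⟩ := hacc (ball x ε) (ball_mem_nhds x hε)
    exact hy3 (h y (Or.inr (hS hy2)) (by rwa [mem_ball, Real.dist_eq] at hy1))

theorem mat_inf (A : Set ℝ) (x δ : ℝ) (h : AccPt x (𝓟 A)) (hδ : 0 < δ) :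
    {b : A | |(b : ℝ) - x| < δ}.Infinite := by
  have h1 := Set.Infinite.of_accPt (h.nhds_inter (ball_mem_nhds x hδ))
  intro hfin
  apply h1
  refine (hfin.image Subtype.val).subset ?_
  rintro b ⟨hb1, hb2⟩
  exact ⟨⟨b, hb2⟩, by rwa [mem_ball, Real.dist_eq] at hb1, rfl⟩

/-- nearest points -/
theorem mat_data (F A : Set ℝ) (hF : IsClosed F) (hc : IsCompact (F ∪ A)) (hd : Disjoint F A)
    (hiso : ∀ i ∈ A, ∃ ε > 0, ∀ x ∈ F ∪ A, |x - i| < ε → x = i) (hinf : A.Infinite) :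
    A.Countable ∧ ∃ π : ℝ → ℝ, (∀ a, π a ∈ F ∧ AccPt (π a) (𝓟 A)) ∧
      (∀ a, ∀ x ∈ F, AccPt x (𝓟 A) → |π a - a| ≤ |x - a|) ∧
      ∀ ε > 0, {b ∈ A | ε ≤ |π b - b|}.Finite := by
  let G : Set ℝ := {x ∈ F | AccPt x (𝓟 A)}
  have hGc : IsClosed G := hF.inter (isClosed_derivedSet A)
  have hGk : IsCompact G := hc.of_isClosed_subset hGc (fun x hx => Or.inl hx.1)
  obtain ⟨x₀, hx₀, hacc₀⟩ := mat_acc F A A hc hiso Subset.rfl hinf
  have hGn : G.Nonempty := ⟨x₀, hx₀, hacc₀⟩
  have hπ : ∀ a : ℝ, ∃ y ∈ G, infDist a G = dist a y := fun a => hGk.exists_infDist_eq_dist hGn a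
  choose π hπ1 hπ2 using hπ
  have hd' : ∀ a, |π a - a| = infDist a G := by
    intro a
    rw [hπ2, dist_comm, Real.dist_eq]
  have hfin : ∀ ε > 0, {b ∈ A | ε ≤ |π b - b|}.Finite := by
    intro ε hε
    by_contra hcon
    obtain ⟨x, hx, hacc⟩ := mat_acc F A _ hc hiso (fun b hb => hb.1) hcon
    have hxG : x ∈ G := ⟨hx, hacc.mono (principal_mono.2 fun b hb => hb.1)⟩
    rw [accPt_iff_nhds] at hacc
    obtain ⟨y, ⟨hy1, hy2, hy3⟩, hy4⟩ := hacc (ball x ε) (ball_mem_nhds x hε)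
    rw [hd'] at hy3
    have := infDist_le_dist_of_mem (x := y) hxG
    rw [mem_ball] at hy1
    linarith
  refine ⟨?_, π, hπ1, ?_, hfin⟩
  · have h1 : A ⊆ ⋃ n : ℕ, {b ∈ A | 1 / ((n : ℝ) + 1) ≤ |π b - b|} := by
      intro a ha
      have h2 : 0 < |π a - a| := by
        rw [abs_pos, sub_ne_zero]
        intro h
        exact disjoint_left.1 hd (h ▸ (hπ1 a).1) ha
      obtain ⟨n, hn⟩ := exists_nat_one_div_lt h2
      exact mem_iUnion.2 ⟨n, ha, hn.le⟩
    exact (countable_iUnion fun n => (hfin _ (by positivity)).countable).mono h1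
  · intro a x hx hacc
    rw [hd', abs_sub_comm, ← Real.dist_eq]
    exact infDist_le_dist_of_mem ⟨hx, hacc⟩

theorem thm_MAT : St_MAT := by
  intro F A F' A' ψ hF hF' hc hc' hd hd' hiso hiso' hinf hinf' hψc hψi hψF hψacc
  classical
  obtain ⟨hct, π, hπ1, hπ2, hπ3⟩ := mat_data F A hF hc hd hiso hinf
  obtain ⟨hct', π', hπ1', hπ2', hπ3'⟩ := mat_data F' A' hF' hc' hd' hiso' hinf'
  have := hct.to_subtype
  have := hct'.to_subtype
  obtain ⟨code, hcode⟩ := exists_injective_nat A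
  obtain ⟨code', hcode'⟩ := exists_injective_nat A'
  have hθ : ∀ y ∈ F', ∃ x ∈ F, ψ x = y := by
    intro y hy
    rw [← hψF] at hy
    exact hy
  have hθ' : ∀ b : ℝ, ∃ x ∈ F, ψ x = π' b := fun b => hθ _ (hπ1' b).1
  choose θ hθ1 hθ2 using hθ'
  have hθ3 : ∀ b, AccPt (θ b) (𝓟 A) := by
    intro b
    rw [hψacc _ (hθ1 b), hθ2]
    exact (hπ1' b).2
  obtain ⟨f, hf, hf'⟩ := mat_choose
    (fun a : A => {b : A' | |(b : ℝ) - ψ (π a)| < 1 / ((code a : ℝ) + 1)})
    (fun a => mat_inf A' _ _ ((hψacc _ (hπ1 a).1).1 (hπ1 a).2) (by positivity))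
  obtain ⟨g, hg, hg'⟩ := mat_choose
    (fun b : A' => {a : A | |(a : ℝ) - θ b| < 1 / ((code' b : ℝ) + 1)})
    (fun b => mat_inf A _ _ (hθ3 b) (by positivity))
  obtain ⟨h, hh, hR⟩ := Function.Embedding.schroeder_bernstein_of_rel hf hg
    (fun a b => |(b : ℝ) - ψ (π a)| < 1 / ((code a : ℝ) + 1) ∨
      |(a : ℝ) - θ b| < 1 / ((code' b : ℝ) + 1))
    (fun a => Or.inl (hf' a)) (fun b => Or.inr (hg' b))
  let φ : ℝ → ℝ := fun a => if ha : a ∈ A then (h ⟨a, ha⟩ : ℝ) else 0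
  have hφ : ∀ a : A, φ a = h a := fun a => dif_pos a.2
  refine ⟨φ, ⟨?_, ?_, ?_⟩, ?_⟩
  · intro a ha
    rw [hφ ⟨a, ha⟩]
    exact (h ⟨a, ha⟩).2
  · intro a ha b hb hab
    rw [hφ ⟨a, ha⟩, hφ ⟨b, hb⟩] at hab
    have := hh.1 (Subtype.ext hab)
    exact congrArg Subtype.val this
  · intro b hb
    obtain ⟨a, ha⟩ := hh.2 ⟨b, hb⟩
    exact ⟨a, a.2, by rw [hφ, ha]⟩
  · intro x hx
    rw [Metric.tendsto_nhds]
    intro ε hε
    -- continuity of ψ at x
    obtain ⟨δ, hδ, hψδ⟩ := Metric.continuousWithinAt_iff.1 (hψc x hx) (ε / 2) (by positivity)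
    -- finite exceptional sets are avoided
    have hxA : x ∉ A := fun h' => disjoint_left.1 hd hx h'
    have havoid : ∀ S : Set A, S.Finite → ∀ᶠ a in 𝓝[A] x, ∀ ha : a ∈ A, (⟨a, ha⟩ : A) ∉ S := by
      intro S hS
      have h1 : (Subtype.val '' S).Finite := hS.image _
      have h2 : x ∉ Subtype.val '' S := by
        rintro ⟨a, _, rfl⟩
        exact hxA a.2
      have h3 : ∀ᶠ a in 𝓝 x, a ∉ Subtype.val '' S :=
        h1.isClosed.isOpen_compl.mem_nhds h2
      refine (h3.filter_mono nhdsWithin_le_nhds).mono fun a ha ha' hmem => ?_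
      exact ha ⟨_, hmem, rfl⟩
    obtain ⟨N, hN⟩ := exists_nat_one_div_lt (show (0 : ℝ) < min (ε / 2) (δ / 2) by positivity)
    have e1 := havoid {a | code a ≤ N} ((Set.finite_Iic N).preimage hcode.injOn)
    have e2 := havoid {a | code' (h a) ≤ N}
      ((Set.finite_Iic N).preimage (hcode'.comp hh.1).injOn)
    have e3 := havoid {a | ε / 2 ≤ |π' (h a) - h a|}
      (((hπ3' (ε / 2) (by positivity)).preimage
        ((Subtype.val_injective.comp hh.1).injOn)).subset
        (fun a ha => ⟨(h a).2, ha⟩))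
    have e4 : ∀ᶠ a in 𝓝[A] x, |a - x| < δ / 2 := by
      have : ball x (δ / 2) ∈ 𝓝 x := ball_mem_nhds x (by positivity)
      exact Filter.Eventually.filter_mono nhdsWithin_le_nhds
        (mem_of_superset this fun a ha => by rwa [mem_ball, Real.dist_eq] at ha)
    have e5 : ∀ᶠ a in 𝓝[A] x, AccPt x (𝓟 A) := by
      by_cases hacc : AccPt x (𝓟 A)
      · exact Eventually.of_forall fun _ => hacc
      · have h1 : 𝓝[A] x = ⊥ := by
          rw [accPt_principal_iff_nhdsWithin, not_neBot, sdiff_singleton_eq_self hxA] at hacc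
          exact hacc
        rw [h1]
        exact eventually_bot
    filter_upwards [e1, e2, e3, e4, e5, self_mem_nhdsWithin] with a h1 h2 h3 h4 h5 ha
    have h1' := h1 ha
    have h2' := h2 ha
    have h3' := h3 ha
    simp only [not_le] at h1' h2' h3'
    rw [Real.dist_eq, hφ ⟨a, ha⟩]
    have hsmall : ∀ n : ℕ, N < n → 1 / ((n : ℝ) + 1) < min (ε / 2) (δ / 2) := by
      intro n hn
      refine lt_of_le_of_lt ?_ hN
      apply one_div_le_one_div_of_le (by positivity)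
      have : (N : ℝ) < n := by exact_mod_cast hn
      linarith
    rcases hR ⟨a, ha⟩ with h6 | h6
    · have h7 := h6.trans (hsmall _ h1')
      have h8 : |π a - a| ≤ |x - a| := hπ2 a x hx h5
      have h9 : dist (π a) x < δ := by
        rw [Real.dist_eq]
        have : π a - x = (π a - a) + (a - x) := by ring
        rw [this]
        refine (abs_add_le _ _).trans_lt ?_
        rw [abs_sub_comm x a] at h8
        linarith
      have h10 := hψδ (hπ1 a).1 h9
      rw [Real.dist_eq] at h10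
      have : (h ⟨a, ha⟩ : ℝ) - ψ x = ((h ⟨a, ha⟩ : ℝ) - ψ (π a)) + (ψ (π a) - ψ x) := by ring
      rw [this]
      refine (abs_add_le _ _).trans_lt ?_
      have := h7.trans_le (min_le_left _ _)
      linarith
    · have h7 := h6.trans (hsmall _ h2')
      have h9 : dist (θ (h ⟨a, ha⟩)) x < δ := by
        rw [Real.dist_eq]
        have : θ (h ⟨a, ha⟩) - x = -(a - θ (h ⟨a, ha⟩)) + (a - x) := by ring
        rw [this]
        refine (abs_add_le _ _).trans_lt ?_
        rw [abs_neg]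
        have := h7.trans_le (min_le_right _ _)
        linarith
      have h10 := hψδ (hθ1 _) h9
      rw [Real.dist_eq, hθ2] at h10
      have : (h ⟨a, ha⟩ : ℝ) - ψ x =
        -(π' (h ⟨a, ha⟩) - (h ⟨a, ha⟩ : ℝ)) + (π' (h ⟨a, ha⟩) - ψ x) := by ring
      rw [this]
      refine (abs_add_le _ _).trans_lt ?_
      rw [abs_neg]
      linarith

end Pool.Agent.SRP
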