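import Pool.Agent.SRP.StE
import Pool.Agent.SRP.MAT

set_option autoImplicit false

/-! # SRP CLS: matching normal configurations -/

open Set Metric Filter Topology Pool.Agent.SRF

namespace Pool.Agent.SRP

/-- a matching of two sets of centres compatible with the map of the ends -/
def cls_M (F A A' : Set ℝ) (ψ : ℝ → ℝ) : Prop :=
  ∃ φ : ℝ → ℝ, BijOn φ A A' ∧ ∀ x ∈ F, Tendsto φ (𝓝[A] x) (𝓝 (ψ x))

theorem cls_fin (F A A' : Set ℝ) (ψ : ℝ → ℝ) (hA : A.Finite) (hA' : A'.Finite)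
    (h : A.ncard = A'.ncard) (hd : Disjoint F A) : cls_M F A A' ψ := by
  have h1 : A.encard = A'.encard := by
    rw [← hA.cast_ncard_eq, ← hA'.cast_ncard_eq, h]
  obtain ⟨φ, hφ⟩ := hA.exists_bijOn_of_encard_eq h1
  refine ⟨φ, hφ, fun x hx => ?_⟩
  have hxA : x ∉ A := fun h' => disjoint_left.1 hd hx h'
  have h2 : 𝓝[A] x = ⊥ := by
    rw [← mem_closure_iff_nhdsWithin_neBot.not.trans (not_neBot), hA.isClosed.closure_eq]
    exact hxA
  rw [h2]
  exact tendsto_bot

theorem cls_iso (C : Conf) (h : C.Ok) : ∀ i ∈ C.I, ∃ ε > 0, ∀ x ∈ C.F ∪ C.I, |x - i| < ε → x = i := by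
  intro i hi
  refine ⟨C.rad i, h.pos i hi, ?_⟩
  rintro x (hx | hx) hxi
  · exact absurd hxi (not_lt.2 (h.away i hi x hx).le)
  · by_contra hne
    have h1 := h.apart x hx i hi hne
    have h2 := h.pos x hx
    linarith

theorem cls_sub (C : Conf) (h : C.Ok) (A : Set ℝ) (hA : A ⊆ C.I) :
    IsCompact (C.F ∪ A) ∧ Disjoint C.F A ∧
      ∀ i ∈ A, ∃ ε > 0, ∀ x ∈ C.F ∪ A, |x - i| < ε → x = i := by
  have hd : Disjoint C.F A := by
    rw [disjoint_left]
    intro x hx hxA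
    have h1 := h.away x (hA hxA) x hx
    have h2 := h.pos x (hA hxA)
    rw [sub_self, abs_zero] at h1
    linarith
  refine ⟨?_, hd, ?_⟩
  · refine h.compact.of_isClosed_subset ?_ (union_subset_union_right _ hA)
    rw [← closure_subset_iff_isClosed]
    intro x hx
    have h1 : x ∈ C.F ∪ C.I := by
      rw [← h.compact.isClosed.closure_eq]
      exact closure_mono (union_subset_union_right _ hA) hx
    rcases h1 with h1 | h1
    · exact Or.inl h1
    · obtain ⟨ε, hε, h2⟩ := cls_iso C h x h1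
      obtain ⟨y, hy, hy'⟩ := Metric.mem_closure_iff.1 hx ε hε
      have h3 := h2 y (union_subset_union_right _ hA hy) (by
        rwa [dist_comm, Real.dist_eq] at hy')
      rw [← h3]
      exact hy
  · intro i hi
    obtain ⟨ε, hε, h2⟩ := cls_iso C h i (hA hi)
    exact ⟨ε, hε, fun x hx => h2 x (union_subset_union_right _ hA hx)⟩

/-- combination -/
theorem cls_combine (C C' : Conf) (hC : C.Good) (hC' : C'.Good) (ψ : ℝ → ℝ)
    (hc : ContinuousOn ψ C.F) (hi : InjOn ψ C.F) (him : ψ '' C.F = C'.F)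
    (hT : cls_M C.F C.IT C'.IT ψ) (hP : cls_M C.F C.IP C'.IP ψ) :
    ∃ φ : ℝ → ℝ, ContinuousOn φ (C.F ∪ C.I) ∧ InjOn φ (C.F ∪ C.I) ∧ φ '' C.F = C'.F ∧
    φ '' C.I = C'.I ∧ ∀ i ∈ C.I, C'.lab (φ i) = C.lab i := by
  classical
  obtain ⟨α, hα, hα'⟩ := hT
  obtain ⟨β, hβ, hβ'⟩ := hP
  have hI : C.I = C.IT ∪ C.IP := by
    ext i
    constructor
    · intro h
      cases hl : C.lab i with
      | T => exact Or.inl ⟨h, hl⟩
      | P => exact Or.inr ⟨h, hl⟩
      | O => exact absurd hl (hC.noO i h)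
    · rintro (h | h) <;> exact h.1
  have hI' : C'.I = C'.IT ∪ C'.IP := by
    ext i
    constructor
    · intro h
      cases hl : C'.lab i with
      | T => exact Or.inl ⟨h, hl⟩
      | P => exact Or.inr ⟨h, hl⟩
      | O => exact absurd hl (hC'.noO i h)
    · rintro (h | h) <;> exact h.1
  have hdI := (cls_sub C hC.ok C.I Subset.rfl).2.1
  have hdI' := (cls_sub C' hC'.ok C'.I Subset.rfl).2.1
  have hTP : ∀ x, x ∈ C.IT → x ∉ C.IP := by
    intro x h h'
    have := h.2.symm.trans h'.2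
    cases this
  have hTP' : ∀ x, x ∈ C'.IT → x ∉ C'.IP := by
    intro x h h'
    have := h.2.symm.trans h'.2
    cases this
  let φ : ℝ → ℝ := fun x => if x ∈ C.F then ψ x else if x ∈ C.IT then α x else β x
  have hφF : ∀ x ∈ C.F, φ x = ψ x := fun x hx => if_pos hx
  have hφT : ∀ x ∈ C.IT, φ x = α x := by
    intro x hx
    have h1 : x ∉ C.F := fun h => disjoint_left.1 hdI h hx.1
    change (if x ∈ C.F then ψ x else if x ∈ C.IT then α x else β x) = _
    rw [if_neg h1, if_pos hx]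
  have hφP : ∀ x ∈ C.IP, φ x = β x := by
    intro x hx
    have h1 : x ∉ C.F := fun h => disjoint_left.1 hdI h hx.1
    change (if x ∈ C.F then ψ x else if x ∈ C.IT then α x else β x) = _
    rw [if_neg h1, if_neg (fun h => hTP x h hx)]
  have mF : ∀ x ∈ C.F, φ x ∈ C'.F := by
    intro x hx
    rw [hφF x hx, ← him]
    exact ⟨x, hx, rfl⟩
  have mT : ∀ x ∈ C.IT, φ x ∈ C'.IT := by
    intro x hx
    rw [hφT x hx]
    exact hα.mapsTo hx
  have mP : ∀ x ∈ C.IP, φ x ∈ C'.IP := by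
    intro x hx
    rw [hφP x hx]
    exact hβ.mapsTo hx
  refine ⟨φ, ?_, ?_, ?_, ?_, ?_⟩
  · rintro x (hx | hx)
    · rw [hI]
      refine ContinuousWithinAt.union ?_ (ContinuousWithinAt.union ?_ ?_)
      · exact (hc x hx).congr hφF (hφF x hx)
      · have h1 := hα' x hx
        rw [← hφF x hx] at h1
        exact h1.congr' (eventually_nhdsWithin_of_forall fun y hy => (hφT y hy).symm)
      · have h1 := hβ' x hx
        rw [← hφF x hx] at h1
        exact h1.congr' (eventually_nhdsWithin_of_forall fun y hy => (hφP y hy).symm)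
    · obtain ⟨ε, hε, h2⟩ := cls_iso C hC.ok x hx
      refine tendsto_nhds_of_eventually_eq ?_
      have h3 : ∀ᶠ y in 𝓝 x, |y - x| < ε :=
        mem_of_superset (ball_mem_nhds x hε) fun y hy => by rwa [mem_ball, Real.dist_eq] at hy
      filter_upwards [h3.filter_mono nhdsWithin_le_nhds, self_mem_nhdsWithin] with y hy hy'
      rw [h2 y hy' hy]
  · intro x hx y hy hxy
    have hne : ∀ u v, u ∈ C.F → v ∈ C.I → φ u = φ v → False := by
      intro u v hu hv h
      have h1 := mF u hu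
      have h2 : φ v ∈ C'.I := by
        rw [hI] at hv
        rcases hv with hv | hv
        · exact (mT v hv).1
        · exact (mP v hv).1
      rw [h] at h1
      exact disjoint_left.1 hdI' h1 h2
    rcases hx with hx | hx <;> rcases hy with hy | hy
    · rw [hφF x hx, hφF y hy] at hxy
      exact hi hx hy hxy
    · exact (hne x y hx hy hxy).elim
    · exact (hne y x hy hx hxy.symm).elim
    · rw [hI] at hx hy
      rcases hx with hx | hx <;> rcases hy with hy | hy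
      · rw [hφT x hx, hφT y hy] at hxy
        exact hα.injOn hx hy hxy
      · have h1 := mT x hx
        rw [hxy] at h1
        exact (hTP' _ h1 (mP y hy)).elim
      · have h1 := mT y hy
        rw [← hxy] at h1
        exact (hTP' _ h1 (mP x hx)).elim
      · rw [hφP x hx, hφP y hy] at hxy
        exact hβ.injOn hx hy hxy
  · rw [← him]
    exact image_congr hφF
  · rw [hI, image_union, hI', image_congr hφT, image_congr hφP, hα.image_eq, hβ.image_eq]
  · intro i hi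
    rw [hI] at hi
    rcases hi with hi | hi
    · rw [hi.2, (mT i hi).2]
    · rw [hi.2, (mP i hi).2]

/-- finite sets have no accumulation points -/
theorem cls_acc_union (A B : Set ℝ) (hB : B.Finite) (x : ℝ) :
    AccPt x (𝓟 (A ∪ B)) ↔ AccPt x (𝓟 A) := by
  rw [← sup_principal, accPt_sup]
  constructor
  · rintro (h | h)
    · exact h
    · exact absurd hB (Set.Infinite.of_accPt h)
  · exact Or.inl

theorem thm_CLS (_hC : St_CFIN) (hM : St_MAT) : St_CLS := by
  intro C C' hC hC' hN hN' hm hm'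
  classical
  obtain ⟨ψ₀, hψ₀⟩ := hm.ends
  let ψ : ℝ → ℝ := fun x => if hx : x ∈ C.F then (ψ₀ ⟨x, hx⟩ : ℝ) else 0
  have hψ : ∀ f : C.F, ψ f = ψ₀ f := fun f => dif_pos f.2
  have hψc : ContinuousOn ψ C.F := by
    rw [continuousOn_iff_continuous_domRestrict]
    have h1 : C.F.domRestrict ψ = fun f : C.F => (ψ₀ f : ℝ) := by
      funext f
      exact hψ f
    rw [h1]
    exact continuous_subtype_val.comp ψ₀.continuous
  have hψi : InjOn ψ C.F := by
    intro x hx y hy h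
    rw [hψ ⟨x, hx⟩, hψ ⟨y, hy⟩] at h
    exact congrArg Subtype.val (ψ₀.injective (Subtype.ext h))
  have hψF : ψ '' C.F = C'.F := by
    apply Subset.antisymm
    · rintro _ ⟨x, hx, rfl⟩
      rw [hψ ⟨x, hx⟩]
      exact (ψ₀ ⟨x, hx⟩).2
    · intro y hy
      refine ⟨ψ₀.symm ⟨y, hy⟩, (ψ₀.symm ⟨y, hy⟩).2, ?_⟩
      rw [hψ, Homeomorph.apply_symm_apply]
  have hI : C.I = C.IT ∪ C.IP := by
    ext i
    constructor
    · intro h
      cases hl : C.lab i with
      | T => exact Or.inl ⟨h, hl⟩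
      | P => exact Or.inr ⟨h, hl⟩
      | O => exact absurd hl (hC.noO i h)
    · rintro (h | h) <;> exact h.1
  have hI' : C'.I = C'.IT ∪ C'.IP := by
    ext i
    constructor
    · intro h
      cases hl : C'.lab i with
      | T => exact Or.inl ⟨h, hl⟩
      | P => exact Or.inr ⟨h, hl⟩
      | O => exact absurd hl (hC'.noO i h)
    · rintro (h | h) <;> exact h.1
  have sT : C.IT ⊆ C.I := fun i h => h.1
  have sP : C.IP ⊆ C.I := fun i h => h.1
  have sT' : C'.IT ⊆ C'.I := fun i h => h.1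
  have sP' : C'.IP ⊆ C'.I := fun i h => h.1
  have accI : ∀ x ∈ C.F, (AccPt x (𝓟 C.I) ↔ AccPt (ψ x) (𝓟 C'.I)) := by
    intro x hx
    rw [hψ ⟨x, hx⟩]
    exact (hψ₀ ⟨x, hx⟩).1
  have accP : ∀ x ∈ C.F, (AccPt x (𝓟 C.IP) ↔ AccPt (ψ x) (𝓟 C'.IP)) := by
    intro x hx
    rw [hψ ⟨x, hx⟩]
    exact (hψ₀ ⟨x, hx⟩).2
  have mat : ∀ A ⊆ C.I, ∀ A' ⊆ C'.I, A.Infinite → A'.Infinite →
      (∀ x ∈ C.F, (AccPt x (𝓟 A) ↔ AccPt (ψ x) (𝓟 A'))) → cls_M C.F A A' ψ := by
    intro A hA A' hA' hinf hinf' hacc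
    obtain ⟨c1, c2, c3⟩ := cls_sub C hC.ok A hA
    obtain ⟨c1', c2', c3'⟩ := cls_sub C' hC'.ok A' hA'
    exact hM C.F A C'.F A' ψ hC.ok.closed hC'.ok.closed c1 c1' c2 c2' c3 c3' hinf hinf' hψc hψi
      hψF hacc
  have fin : ∀ A ⊆ C.I, ∀ A' ⊆ C'.I, A.Finite → A'.Finite → A.ncard = A'.ncard →
      cls_M C.F A A' ψ := by
    intro A hA A' _ hf hf' hn
    exact cls_fin C.F A A' ψ hf hf' hn (cls_sub C hC.ok A hA).2.1
  suffices h : cls_M C.F C.IT C'.IT ψ ∧ cls_M C.F C.IP C'.IP ψ from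
    cls_combine C C' hC hC' ψ hψc hψi hψF h.1 h.2
  -- the four cases
  rcases hN with h1 | ⟨h1, h2, h3⟩ | ⟨h1, h2⟩ | ⟨h1, h2, h3⟩
  · -- no crosscaps
    have h1' : C'.IP = ∅ := hm.emp.1 h1
    have e1 : C.I = C.IT := by rw [hI, h1, union_empty]
    have e1' : C'.I = C'.IT := by rw [hI', h1', union_empty]
    refine ⟨?_, fin _ sP _ sP' (h1 ▸ finite_empty) (h1' ▸ finite_empty) (by rw [h1, h1'])⟩
    by_cases hf : C.I.Finite
    · obtain ⟨hf', hn⟩ := hm.fin hf
      rw [h1, h1', ncard_empty] at hn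
      exact fin _ sT _ sT' (hf.subset sT) (hf'.subset sT') (by omega)
    · have hf' : C'.I.Infinite := fun h => hf (hm'.fin h).1
      rw [e1] at hf
      rw [e1'] at hf'
      refine mat _ sT _ sT' hf hf' ?_
      intro x hx
      rw [← e1, ← e1']
      exact accI x hx
  · -- finitely many crosscaps, no handles
    have hIf : C.I.Finite := by
      rw [hI, h3, empty_union]
      exact h1
    obtain ⟨hIf', hn⟩ := hm.fin hIf
    have hne' : C'.IP ≠ ∅ := fun h => h2.ne_empty (hm.emp.2 h)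
    have h3' : C'.IT = ∅ := by
      rcases hN' with g1 | ⟨g1, g2, g3⟩ | ⟨g1, g2⟩ | ⟨g1, g2, g3⟩
      · exact absurd g1 hne'
      · exact g3
      · exact absurd (hIf'.subset sT') g1
      · exact absurd (hIf'.subset sP') g1
    rw [h3, h3', ncard_empty] at hn
    exact ⟨fin _ sT _ sT' (hIf.subset sT) (hIf'.subset sT') (by rw [h3, h3']),
      fin _ sP _ sP' h1 (hIf'.subset sP') (by omega)⟩
  · -- one or two crosscaps, infinitely many handles
    have hPf : C.IP.Finite := by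
      by_contra h
      have := Set.Infinite.ncard h
      omega
    have hPne : C.IP ≠ ∅ := by
      intro h
      rw [h, ncard_empty] at h2
      omega
    obtain ⟨hPf', hpar⟩ := hm.par hPf
    have hPne' : C'.IP ≠ ∅ := fun h => hPne (hm.emp.2 h)
    have hIinf : C.I.Infinite := h1.mono sT
    have hIinf' : C'.I.Infinite := fun h => hIinf (hm'.fin h).1
    have h12' : C'.IT.Infinite ∧ (C'.IP.ncard = 1 ∨ C'.IP.ncard = 2) := by
      rcases hN' with g1 | ⟨g1, g2, g3⟩ | ⟨g1, g2⟩ | ⟨g1, g2, g3⟩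
      · exact absurd g1 hPne'
      · exfalso
        apply hIinf'
        rw [hI', g3, empty_union]
        exact g1
      · exact ⟨g1, g2⟩
      · exact absurd hPf' g1
    refine ⟨mat _ sT _ sT' h1 h12'.1 ?_, fin _ sP _ sP' hPf hPf' (by omega)⟩
    intro x hx
    have := accI x hx
    rw [hI, hI', cls_acc_union _ _ hPf, cls_acc_union _ _ hPf'] at this
    exact this
  · -- infinitely many crosscaps
    have h1' : C'.IP.Infinite := fun h => h1 (hm'.par h).1
    have h23' : (C'.IT = ∅ ∨ C'.IT.Infinite) ∧ ∀ x ∈ C'.F, (AccPt x (𝓟 C'.IT) ↔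
        x ∈ closure {y ∈ C'.F | AccPt y (𝓟 C'.I) ∧ ¬ AccPt y (𝓟 C'.IP)}) := by
      rcases hN' with g1 | ⟨g1, g2, g3⟩ | ⟨g1, g2⟩ | ⟨g1, g2, g3⟩
      · exact absurd (g1 ▸ finite_empty) h1'
      · exact absurd g1 h1'
      · have := Set.Infinite.ncard h1'
        omega
      · exact ⟨g2, g3⟩
    obtain ⟨h2', h3'⟩ := h23'
    -- the closures correspond
    have hcl : ∀ x ∈ C.F, (x ∈ closure {y ∈ C.F | AccPt y (𝓟 C.I) ∧ ¬ AccPt y (𝓟 C.IP)} ↔
        ψ x ∈ closure {y ∈ C'.F | AccPt y (𝓟 C'.I) ∧ ¬ AccPt y (𝓟 C'.IP)}) := by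
      intro x hx
      let s : Set C.F := {f | AccPt (f : ℝ) (𝓟 C.I) ∧ ¬ AccPt (f : ℝ) (𝓟 C.IP)}
      let s' : Set C'.F := {f | AccPt (f : ℝ) (𝓟 C'.I) ∧ ¬ AccPt (f : ℝ) (𝓟 C'.IP)}
      have es : (fun f : C.F => (f : ℝ)) '' s =
          {y ∈ C.F | AccPt y (𝓟 C.I) ∧ ¬ AccPt y (𝓟 C.IP)} := by
        ext y
        constructor
        · rintro ⟨f, hf, rfl⟩
          exact ⟨f.2, hf⟩
        · rintro ⟨hy, hy'⟩
          exact ⟨⟨y, hy⟩, hy', rfl⟩
      have es' : (fun f : C'.F => (f : ℝ)) '' s' =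
          {y ∈ C'.F | AccPt y (𝓟 C'.I) ∧ ¬ AccPt y (𝓟 C'.IP)} := by
        ext y
        constructor
        · rintro ⟨f, hf, rfl⟩
          exact ⟨f.2, hf⟩
        · rintro ⟨hy, hy'⟩
          exact ⟨⟨y, hy⟩, hy', rfl⟩
      have hpre : ψ₀ ⁻¹' s' = s := by
        ext f
        change (AccPt (ψ₀ f : ℝ) (𝓟 C'.I) ∧ ¬ AccPt (ψ₀ f : ℝ) (𝓟 C'.IP)) ↔
          (AccPt (f : ℝ) (𝓟 C.I) ∧ ¬ AccPt (f : ℝ) (𝓟 C.IP))
        rw [(hψ₀ f).1, (hψ₀ f).2]
      rw [← es, ← es', hψ ⟨x, hx⟩]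
      have a1 := closure_subtype (x := (⟨x, hx⟩ : C.F)) (s := s)
      have a2 := closure_subtype (x := ψ₀ ⟨x, hx⟩) (s := s')
      rw [← a1, ← a2, ← hpre, ← ψ₀.preimage_closure]
      rfl
    have accT : ∀ x ∈ C.F, (AccPt x (𝓟 C.IT) ↔ AccPt (ψ x) (𝓟 C'.IT)) := by
      intro x hx
      have hx' : ψ x ∈ C'.F := by
        rw [← hψF]
        exact ⟨x, hx, rfl⟩
      rw [h3 x hx, h3' _ hx', hcl x hx]
    refine ⟨?_, mat _ sP _ sP' h1 h1' accP⟩
    have hTi : C.IT.Infinite ↔ C'.IT.Infinite := by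
      constructor
      · intro h
        obtain ⟨x, hx, hacc⟩ := mat_acc C.F C.I C.IT hC.ok.compact (cls_iso C hC.ok) sT h
        exact Set.Infinite.of_accPt ((accT x hx).1 hacc)
      · intro h
        obtain ⟨y, hy, hacc⟩ := mat_acc C'.F C'.I C'.IT hC'.ok.compact (cls_iso C' hC'.ok) sT' h
        rw [← hψF] at hy
        obtain ⟨x, hx, rfl⟩ := hy
        exact Set.Infinite.of_accPt ((accT x hx).2 hacc)
    rcases h2 with h2 | h2
    · have h4 : C'.IT = ∅ := by
        rcases h2' with h2' | h2'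
        · exact h2'
        · exact absurd (h2 ▸ finite_empty) (hTi.2 h2')
      exact fin _ sT _ sT' (h2 ▸ finite_empty) (h4 ▸ finite_empty) (by rw [h2, h4])
    · exact mat _ sT _ sT' h2 (hTi.1 h2) accT

end Pool.Agent.SRP
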