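import Pool.Agent.SRP.StC

set_option autoImplicit false

/-! # SRP (MP_3b9597_lc), FREE: the positions of a finite configuration do not matter -/

namespace Pool.Agent.SRP

open Set Metric Topology Pool.Agent.SRF

theorem free_match {S S' : Set ℝ} (hS : S.Finite) (hS' : S'.Finite) {lab lab' : ℝ → Lab}
    (hcnt : ∀ l, {x ∈ S' | lab' x = l}.ncard = {x ∈ S | lab x = l}.ncard) {n : ℕ}
    {i i' : Fin n → ℝ} (hi : Function.Injective i) (hi' : Function.Injective i')
    (hk : ∀ k, i k ∈ S ∧ i' k ∈ S' ∧ lab' (i' k) = lab (i k)) :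
    ∃ φ : ℝ → ℝ, InjOn φ S ∧ φ '' S = S' ∧ (∀ x ∈ S, lab' (φ x) = lab x) ∧
      ∀ k, φ (i k) = i' k := by
  classical
  have hg : ∀ l : Lab, ∃ g : ℝ → ℝ,
      BijOn g ({x ∈ S | lab x = l} \ range i) ({x ∈ S' | lab' x = l} \ range i') := by
    intro l
    have hA : ({x ∈ S | lab x = l}).Finite := hS.subset fun x hx => hx.1
    have hB : ({x ∈ S' | lab' x = l}).Finite := hS'.subset fun x hx => hx.1
    refine (hA.subset diff_subset).exists_bijOn_of_encard_eq ?_
    have h1 : {x ∈ S | lab x = l} ∩ range i = i '' {k | lab (i k) = l} := by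
      ext x
      constructor
      · rintro ⟨⟨_, h⟩, k, rfl⟩
        exact ⟨k, h, rfl⟩
      · rintro ⟨k, h, rfl⟩
        exact ⟨⟨(hk k).1, h⟩, k, rfl⟩
    have h2 : {x ∈ S' | lab' x = l} ∩ range i' = i' '' {k | lab (i k) = l} := by
      ext x
      constructor
      · rintro ⟨⟨_, h⟩, k, rfl⟩
        exact ⟨k, ((hk k).2.2).symm.trans h, rfl⟩
      · rintro ⟨k, h, rfl⟩
        exact ⟨⟨(hk k).2.1, (hk k).2.2.trans h⟩, k, rfl⟩
    have h3 := ncard_inter_add_ncard_diff_eq_ncard {x ∈ S | lab x = l} (range i) hA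
    have h4 := ncard_inter_add_ncard_diff_eq_ncard {x ∈ S' | lab' x = l} (range i') hB
    rw [h1, ncard_image_of_injective _ hi] at h3
    rw [h2, ncard_image_of_injective _ hi'] at h4
    have h5 := hcnt l
    have h6 : ({x ∈ S | lab x = l} \ range i).ncard = ({x ∈ S' | lab' x = l} \ range i').ncard := by
      omega
    rw [← (hA.subset diff_subset).cast_ncard_eq, ← (hB.subset diff_subset).cast_ncard_eq, h6]
  choose g hg using hg
  let φ : ℝ → ℝ := fun x => if h : ∃ k, i k = x then i' h.choose else g (lab x) x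
  have hφi : ∀ k, φ (i k) = i' k := by
    intro k
    have h : ∃ k', i k' = i k := ⟨k, rfl⟩
    show (if h : ∃ k', i k' = i k then i' h.choose else g (lab (i k)) (i k)) = i' k
    rw [dif_pos h]
    exact congrArg i' (hi h.choose_spec)
  have hφn : ∀ x, x ∉ range i → φ x = g (lab x) x := by
    intro x hx
    have hx' : ¬ ∃ k, i k = x := hx
    show (if h : ∃ k, i k = x then i' h.choose else g (lab x) x) = g (lab x) x
    rw [dif_neg hx']
  have hφm : ∀ x ∈ S, x ∉ range i → φ x ∈ {y ∈ S' | lab' y = lab x} \ range i' := by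
    intro x hx hxi
    rw [hφn x hxi]
    exact (hg (lab x)).mapsTo ⟨⟨hx, rfl⟩, hxi⟩
  refine ⟨φ, ?_, ?_, ?_, hφi⟩
  · intro x hx y hy hxy
    by_cases hxi : x ∈ range i
    · obtain ⟨k, rfl⟩ := hxi
      by_cases hyi : y ∈ range i
      · obtain ⟨k', rfl⟩ := hyi
        rw [hφi, hφi] at hxy
        rw [hi' hxy]
      · exfalso
        refine (hφm y hy hyi).2 ?_
        rw [← hxy, hφi]
        exact ⟨k, rfl⟩
    · by_cases hyi : y ∈ range i
      · exfalso
        obtain ⟨k', rfl⟩ := hyi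
        refine (hφm x hx hxi).2 ?_
        rw [hxy, hφi]
        exact ⟨k', rfl⟩
      · have h1 : lab x = lab y := by
          rw [← (hφm x hx hxi).1.2, ← (hφm y hy hyi).1.2, hxy]
        rw [hφn x hxi, hφn y hyi, h1] at hxy
        exact (hg (lab y)).injOn ⟨⟨hx, h1⟩, hxi⟩ ⟨⟨hy, rfl⟩, hyi⟩ hxy
  · apply Subset.antisymm
    · rintro _ ⟨x, hx, rfl⟩
      by_cases hxi : x ∈ range i
      · obtain ⟨k, rfl⟩ := hxi
        rw [hφi]
        exact (hk k).2.1
      · exact (hφm x hx hxi).1.1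
    · intro y hy
      by_cases hyi : y ∈ range i'
      · obtain ⟨k, rfl⟩ := hyi
        exact ⟨i k, (hk k).1, hφi k⟩
      · obtain ⟨x, ⟨⟨hx, hxl⟩, hxi⟩, hxy⟩ := (hg (lab' y)).surjOn ⟨⟨hy, rfl⟩, hyi⟩
        refine ⟨x, hx, ?_⟩
        rw [hφn x hxi, hxl, hxy]
  · intro x hx
    by_cases hxi : x ∈ range i
    · obtain ⟨k, rfl⟩ := hxi
      rw [hφi]
      exact (hk k).2.2
    · exact (hφm x hx hxi).1.2

theorem free_cont {S : Set ℝ} (hS : S.Finite) (φ : ℝ → ℝ) : ContinuousOn φ S := by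
  rw [continuousOn_iff_continuous_domRestrict]
  have : Finite S := hS
  exact continuous_of_discreteTopology

theorem free_two (hCFIN : St_CFIN) (hKPRES : St_KPRES) (C C' : Conf) (hC : C.Ok) (hC' : C'.Ok)
    (hF : C.F = ∅) (hF' : C'.F = ∅) (hcnt : ∀ l, C'.cnt l = C.cnt l) (n : ℕ) (i i' : Fin n → ℝ)
    (hi : Function.Injective i) (hi' : Function.Injective i')
    (hk : ∀ k, i k ∈ C.I ∧ i' k ∈ C'.I ∧ C'.lab (i' k) = C.lab (i k)) :
    ∃ Φ : ℂ ≃ₜ ℂ, (∀ z, z ∉ OD → Φ z = z) ∧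
      (∀ k, ∀ z ∈ closedBall (i k : ℂ) (C.rad (i k)),
        Φ z = (i' k : ℝ) + ((C'.rad (i' k) / C.rad (i k) : ℝ) : ℂ) * (z - i k)) ∧
      Φ '' C.Dom = C'.Dom ∧ Φ '' C.FreeBd = C'.FreeBd ∧
      ∀ (X : Type) [TopologicalSpace X] (L : Set X) (q : ℂ → X), Pres C L q →
        Pres C' L (fun z => q (Φ.symm z)) := by
  have hI : C.I.Finite := ((hCFIN C hC).2.2.2.1 hF).1
  have hI' : C'.I.Finite := ((hCFIN C' hC').2.2.2.1 hF').1
  obtain ⟨φ, h1, h2, h3, h4⟩ := free_match hI hI' hcnt hi hi' hk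
  have hU : C.F ∪ C.I = C.I := by rw [hF, empty_union]
  obtain ⟨Φ, p1, p2, p3, p4, p5⟩ := hKPRES C C' φ hC hC' (by rw [hU]; exact free_cont hI φ)
    (by rw [hU]; exact h1) (by rw [hF, hF', image_empty]) h2 h3
  refine ⟨Φ, p1, ?_, p3, p4, p5⟩
  intro k z hz
  rw [p2 (i k) (hk k).1 z hz, h4]

theorem thm_FREE (hCFIN : St_CFIN) (hKPRES : St_KPRES) : St_FREE := by
  refine ⟨?_, free_two hCFIN hKPRES⟩
  rintro t p o X _ L Bd u ⟨C, hC, hF, ht, hp, ho, q, hq, hqu, hBd⟩ C' hC' hF' ht' hp' ho'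
  have hcnt : ∀ l, C'.cnt l = C.cnt l := by
    intro l
    cases l with
    | T => rw [ht, ht']
    | P => rw [hp, hp']
    | O => rw [ho, ho']
  obtain ⟨Φ, p1, _, _, p4, p5⟩ := free_two hCFIN hKPRES C C' hC hC' hF hF' hcnt 0
    (fun k => k.elim0) (fun k => k.elim0) (fun k => k.elim0) (fun k => k.elim0)
    (fun k => k.elim0)
  refine ⟨fun z => q (Φ.symm z), p5 X L q hq, ?_, ?_⟩
  · intro z hz
    have hz1 : z ∉ OD := by
      rw [mem_sphere_zero_iff_norm] at hz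
      rw [mem_ball_zero_iff]
      linarith
    have h1 : Φ.symm z = z := by
      rw [Homeomorph.symm_apply_eq]
      exact (p1 z hz1).symm
    show q (Φ.symm z) = u z
    rw [h1]
    exact hqu z hz
  · rw [hBd, ← p4, image_image]
    simp only [Homeomorph.symm_apply_apply]

end Pool.Agent.SRP
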