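import Pool.Agent.SRP.StE
import Pool.Agent.SRP.FREE

set_option autoImplicit false

/-! # SRP (MP_3b9597_lc), CLU: simultaneous replacement of clusters -/

namespace Pool.Agent.SRP

open Set Metric Topology Filter Pool.Agent.SRF

theorem clu_compact {C : Conf} (hC : C.Ok) {S : Set ℝ} (hS : S ⊆ C.I) :
    IsCompact (C.F ∪ S) := by
  have h1 : C.F ∪ S = (C.F ∪ C.I) \ ⋃ i ∈ C.I \ S, ball i (C.rad i) := by
    ext x
    constructor
    · intro hx
      refine ⟨hx.imp id fun h => hS h, ?_⟩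
      intro h
      rw [mem_iUnion₂] at h
      obtain ⟨i, ⟨hi, hiS⟩, h⟩ := h
      rw [mem_ball, Real.dist_eq] at h
      rcases hx with hx | hx
      · exact absurd h (not_lt.2 (hC.away i hi x hx).le)
      · by_cases hxi : x = i
        · exact hiS (hxi ▸ hx)
        · have h2 := hC.apart x (hS hx) i hi hxi
          have h3 := hC.pos x (hS hx)
          linarith
    · rintro ⟨hx | hx, hn⟩
      · exact Or.inl hx
      · right
        by_contra hxS
        refine hn ?_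
        rw [mem_iUnion₂]
        exact ⟨x, ⟨hx, hxS⟩, mem_ball_self (hC.pos x hx)⟩
  rw [h1]
  exact hC.compact.diff (isOpen_biUnion fun i _ => isOpen_ball)

theorem clu_restrict {C : Conf} (hC : C.Ok) {S : Set ℝ} (hS : S ⊆ C.I) :
    Conf.Ok { C with I := S } :=
  ⟨hC.closed, clu_compact hC hS, hC.td, hC.small, fun i hi => hC.pos i (hS hi),
    fun i hi => hC.inside i (hS hi), fun i hi => hC.away i (hS hi),
    fun i hi j hj => hC.apart i (hS hi) j (hS hj)⟩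

theorem clu_eqv (hCC : St_CCONG) {A B D D' : Conf} (hA : D.F = A.F) (hA1 : D.I = A.I)
    (hA2 : ∀ i ∈ A.I, D.rad i = A.rad i ∧ D.lab i = A.lab i) (hB : D'.F = B.F)
    (hB1 : D'.I = B.I) (hB2 : ∀ i ∈ B.I, D'.rad i = B.rad i ∧ D'.lab i = B.lab i)
    (h : Eqv D D') : Eqv A B := by
  obtain ⟨a1, a2, _⟩ := hCC A D hA hA1 hA2
  obtain ⟨b1, b2, _⟩ := hCC B D' hB hB1 hB2
  intro X _ _ L q hq
  have hq' : Pres D L q := by
    unfold Pres
    rw [a1, a2]
    exact hq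
  obtain ⟨q', h1, h2⟩ := h X L q hq'
  refine ⟨q', ?_, h2⟩
  unfold Pres at h1
  rw [b1, b2] at h1
  exact h1

/-- The labels and the counts of the cluster replaced by `D j`. -/
theorem clu_match {G : Set ℝ} {lab lab' : ℝ → Lab} {D : Conf} {j s : ℝ} (hs : 0 < s)
    (hG : G.Finite) (hD : D.I.Finite) (hcnt : ∀ l, D.cnt l = {i ∈ G | lab i = l}.ncard)
    (hlab : ∀ x ∈ D.I, lab' (j + s * x) = D.lab x) :
    ∃ φ : ℝ → ℝ, InjOn φ G ∧ φ '' G = {i | ∃ x ∈ D.I, i = j + s * x} ∧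
      ∀ x ∈ G, lab' (φ x) = lab x := by
  have hinj : Function.Injective fun x : ℝ => j + s * x := by
    intro x y h
    have h1 : j + s * x = j + s * y := h
    exact mul_left_cancel₀ hs.ne' (add_left_cancel h1)
  have himg : {i | ∃ x ∈ D.I, i = j + s * x} = (fun x : ℝ => j + s * x) '' D.I := by
    ext i
    constructor
    · rintro ⟨x, hx, rfl⟩
      exact ⟨x, hx, rfl⟩
    · rintro ⟨x, hx, rfl⟩
      exact ⟨x, hx, rfl⟩
  have hfin : ({i | ∃ x ∈ D.I, i = j + s * x} : Set ℝ).Finite := by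
    rw [himg]
    exact hD.image _
  have hc : ∀ l, {x ∈ {i | ∃ x ∈ D.I, i = j + s * x} | lab' x = l}.ncard =
      {x ∈ G | lab x = l}.ncard := by
    intro l
    rw [← hcnt l]
    have h1 : {x ∈ {i | ∃ x ∈ D.I, i = j + s * x} | lab' x = l} =
        (fun x : ℝ => j + s * x) '' {x ∈ D.I | D.lab x = l} := by
      ext i
      constructor
      · rintro ⟨⟨x, hx, rfl⟩, h⟩
        exact ⟨x, ⟨hx, (hlab x hx).symm.trans h⟩, rfl⟩
      · rintro ⟨x, ⟨hx, h⟩, rfl⟩
        exact ⟨⟨x, hx, rfl⟩, (hlab x hx).trans h⟩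
    rw [h1, ncard_image_of_injective _ hinj]
    rfl
  obtain ⟨φ, h1, h2, h3, _⟩ := free_match (n := 0) (i := fun k => k.elim0)
    (i' := fun k => k.elim0) hG hfin hc (fun k => k.elim0) (fun k => k.elim0) (fun k => k.elim0)
  exact ⟨φ, h1, h2, h3⟩

theorem thm_CLU (hCFIN : St_CFIN) (hCCONG : St_CCONG) (hREF : St_REF) (hKPRES : St_KPRES)
    (hSUB : St_SUB) : St_CLU := by
  classical
  intro X _ hX C hC hM J G D D' h1 h2 h3 h4
  have hT2 := hX.t2
  obtain ⟨hFI, -, hradfin, -, -, -, -, -⟩ := hCFIN C hC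
  have hJI : ∀ j ∈ J, j ∈ C.I := fun j hj => (h1 j hj).2.1 (h1 j hj).1
  have hI0 : (C.I \ ⋃ j ∈ J, G j) ∪ J ⊆ C.I := union_subset sdiff_subset hJI
  have hC0 : Conf.Ok { C with I := (C.I \ ⋃ j ∈ J, G j) ∪ J } := clu_restrict hC hI0
  have hJG : J ⊆ ⋃ j ∈ J, G j := fun j hj => mem_iUnion₂.2 ⟨j, hj, (h1 j hj).1⟩
  have hdiff : ((C.I \ ⋃ j ∈ J, G j) ∪ J) \ J = C.I \ ⋃ j ∈ J, G j := by
    ext x
    constructor
    · rintro ⟨hx | hx, hxJ⟩
      · exact hx
      · exact absurd hx hxJ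
    · intro hx
      exact ⟨Or.inl hx, fun hxJ => hx.2 (hJG hxJ)⟩
  obtain ⟨hJc, -, C₁, a1, a2, a3, a4, a5, a6⟩ := hREF { C with I := (C.I \ ⋃ j ∈ J, G j) ∪ J } hC0
    J subset_union_right D fun j hj => ⟨(h4 j hj).1, (h4 j hj).2.1⟩
  obtain ⟨-, -, C₂, b1, b2, b3, b4, b5, b6⟩ := hREF { C with I := (C.I \ ⋃ j ∈ J, G j) ∪ J } hC0
    J subset_union_right D' fun j hj => ⟨(h4 j hj).2.2.1, (h4 j hj).2.2.2.1⟩
  have a4' : C₁.I = (C.I \ ⋃ j ∈ J, G j) ∪ {i | ∃ j ∈ J, ∃ x ∈ (D j).I, i = j + C.rad j * x} := by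
    rw [a4, hdiff]
  have b4' : C₂.I = (C.I \ ⋃ j ∈ J, G j) ∪
      {i | ∃ j ∈ J, ∃ x ∈ (D' j).I, i = j + C.rad j * x} := by
    rw [b4, hdiff]
  -- points outside the clusters are far from the balls
  have hfar : ∀ y ∈ C.F ∪ C.I, y ∉ (⋃ j ∈ J, G j) → ∀ j ∈ J, C.rad j < |y - j| := by
    rintro y (hy | hy) hyG j hj
    · exact hC.away j (hJI j hj) y hy
    · have hne : y ≠ j := fun h => hyG (hJG (h ▸ hj))
      have := hC.apart y hy j (hJI j hj) hne
      have := hC.pos y hy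
      linarith
  have hlab2 : ∀ i ∈ C.I \ ⋃ j ∈ J, G j, C₁.lab i = C.lab i ∧ C₂.lab i = C.lab i := by
    intro i hi
    have h5 := hfar i (Or.inr hi.1) hi.2
    exact ⟨((a5 i h5).2 (Or.inl hi)).2, ((b5 i h5).2 (Or.inl hi)).2⟩
  -- the bijections of the clusters
  have hφj : ∀ j, ∃ φ : ℝ → ℝ, j ∈ J → InjOn φ (G j) ∧
      φ '' G j = {i | ∃ x ∈ (D j).I, i = j + C.rad j * x} ∧
      ∀ x ∈ G j, C₁.lab (φ x) = C.lab x := by
    intro j
    by_cases hj : j ∈ J
    · have hDf : (D j).I.Finite := ((hCFIN (D j) (h4 j hj).1).2.2.2.1 (h4 j hj).2.1).1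
      obtain ⟨φ, h5⟩ := clu_match (lab' := C₁.lab) (j := j) (hC.pos j (hJI j hj)) (h1 j hj).2.2 hDf
        (h4 j hj).2.2.2.2.2 (fun x hx => ((a6 j hj).2 x hx).2)
      exact ⟨φ, fun _ => h5⟩
    · exact ⟨id, fun h => absurd h hj⟩
  choose ψ hψ using hφj
  let φ : ℝ → ℝ := fun i => if h : ∃ j ∈ J, i ∈ G j then ψ h.choose i else i
  have hφ1 : ∀ j ∈ J, ∀ i ∈ G j, φ i = ψ j i := by
    intro j hj i hi
    have h : ∃ j ∈ J, i ∈ G j := ⟨j, hj, hi⟩
    have h5 : h.choose = j := by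
      by_contra hne
      exact Set.disjoint_left.1 (h2 _ h.choose_spec.1 j hj hne) h.choose_spec.2 hi
    show (if h : ∃ j ∈ J, i ∈ G j then ψ h.choose i else i) = ψ j i
    rw [dif_pos h, h5]
  have hφ2 : ∀ i, i ∉ (⋃ j ∈ J, G j) → φ i = i := by
    intro i hi
    have h : ¬ ∃ j ∈ J, i ∈ G j := by
      rintro ⟨j, hj, h⟩
      exact hi (mem_iUnion₂.2 ⟨j, hj, h⟩)
    show (if h : ∃ j ∈ J, i ∈ G j then ψ h.choose i else i) = i
    rw [dif_neg h]
  have hGI : (⋃ j ∈ J, G j) ⊆ C.I := iUnion₂_subset fun j hj => (h1 j hj).2.1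
  have hFG : ∀ x ∈ C.F, x ∉ ⋃ j ∈ J, G j := fun x hx h =>
    Set.disjoint_left.1 hFI hx (hGI h)
  have hφball : ∀ j ∈ J, ∀ i ∈ G j, |φ i - j| < C.rad j := by
    intro j hj i hi
    have h5 : ψ j i ∈ ψ j '' G j := ⟨i, hi, rfl⟩
    rw [(hψ j hj).2.1] at h5
    obtain ⟨x, hx, h5⟩ := h5
    have h6 := (h4 j hj).1.inside x hx
    have h7 := (h4 j hj).1.pos x hx
    have h8 := hC.pos j (hJI j hj)
    rw [hφ1 j hj i hi, h5, add_sub_cancel_left, abs_mul, abs_of_pos h8]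
    exact mul_lt_of_lt_one_right h8 (by linarith)
  have hinj : InjOn φ (C.F ∪ C.I) := by
    have key : ∀ x, x ∈ C.F ∪ C.I → ∀ y, y ∈ C.F ∪ C.I → x ∈ (⋃ j ∈ J, G j) →
        y ∉ (⋃ j ∈ J, G j) → φ x ≠ φ y := by
      intro x _ y hy hxG hyG hxy
      obtain ⟨j, hj, hxj⟩ := mem_iUnion₂.1 hxG
      have h5 := hφball j hj x hxj
      rw [hxy, hφ2 y hyG] at h5
      exact absurd h5 (not_lt.2 (hfar y hy hyG j hj).le)
    intro x hx y hy hxy
    by_cases hxG : x ∈ ⋃ j ∈ J, G j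
    · by_cases hyG : y ∈ ⋃ j ∈ J, G j
      · obtain ⟨j, hj, hxj⟩ := mem_iUnion₂.1 hxG
        obtain ⟨k, hk, hyk⟩ := mem_iUnion₂.1 hyG
        have h5 := hφball j hj x hxj
        have h6 := hφball k hk y hyk
        by_cases hjk : j = k
        · subst hjk
          rw [hφ1 j hj x hxj, hφ1 j hj y hyk] at hxy
          exact (hψ j hj).1 hxj hyk hxy
        · exfalso
          have h7 := hC.apart j (hJI j hj) k (hJI k hk) hjk
          rw [hxy] at h5
          have h8 : |j - k| ≤ |φ y - j| + |φ y - k| := by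
            have h9 := abs_sub_le j (φ y) k
            rwa [abs_sub_comm j (φ y)] at h9
          linarith
      · exact absurd hxy (key x hx y hy hxG hyG)
    · by_cases hyG : y ∈ ⋃ j ∈ J, G j
      · exact absurd hxy.symm (key y hy x hx hyG hxG)
      · rwa [hφ2 x hxG, hφ2 y hyG] at hxy
  have himF : φ '' C.F = C₁.F := by
    rw [a2]
    ext x
    constructor
    · rintro ⟨y, hy, rfl⟩
      rw [hφ2 y (hFG y hy)]
      exact hy
    · intro hx
      exact ⟨x, hx, hφ2 x (hFG x hx)⟩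
  have himI : φ '' C.I = C₁.I := by
    rw [a4']
    ext x
    constructor
    · rintro ⟨y, hy, rfl⟩
      by_cases hyG : y ∈ ⋃ j ∈ J, G j
      · obtain ⟨j, hj, hyj⟩ := mem_iUnion₂.1 hyG
        right
        have h5 : ψ j y ∈ ψ j '' G j := ⟨y, hyj, rfl⟩
        rw [(hψ j hj).2.1] at h5
        rw [hφ1 j hj y hyj]
        exact ⟨j, hj, h5⟩
      · left
        rw [hφ2 y hyG]
        exact ⟨hy, hyG⟩
    · rintro (hx | ⟨j, hj, hx⟩)
      · exact ⟨x, hx.1, hφ2 x hx.2⟩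
      · have h5 : x ∈ ψ j '' G j := by
          rw [(hψ j hj).2.1]
          exact hx
        obtain ⟨y, hy, rfl⟩ := h5
        exact ⟨y, (h1 j hj).2.1 hy, hφ1 j hj y hy⟩
  have hlab : ∀ i ∈ C.I, C₁.lab (φ i) = C.lab i := by
    intro i hi
    by_cases hiG : i ∈ ⋃ j ∈ J, G j
    · obtain ⟨j, hj, hij⟩ := mem_iUnion₂.1 hiG
      rw [hφ1 j hj i hij]
      exact (hψ j hj).2.2 i hij
    · rw [hφ2 i hiG]
      exact (hlab2 i ⟨hi, hiG⟩).1
  have hcont : ContinuousOn φ (C.F ∪ C.I) := by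
    rintro x (hx | hx)
    · -- an end
      rw [Metric.continuousWithinAt_iff]
      intro ε hε
      have hE : ({j ∈ J | ¬ G j ⊆ ball j (ε / 4)} ∪ {i ∈ C.I | ε / 4 ≤ C.rad i}).Finite :=
        (h3 (ε / 4) (by linarith)).union (hradfin (ε / 4) (by linarith))
      have hE2 : (⋃ j ∈ {j ∈ J | ¬ G j ⊆ ball j (ε / 4)} ∪ {i ∈ C.I | ε / 4 ≤ C.rad i},
          (if j ∈ J then G j else ∅)).Finite := by
        refine hE.biUnion fun j _ => ?_
        by_cases hj : j ∈ J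
        · rw [if_pos hj]
          exact (h1 j hj).2.2
        · rw [if_neg hj]
          exact finite_empty
      have hxE : x ∉ ⋃ j ∈ {j ∈ J | ¬ G j ⊆ ball j (ε / 4)} ∪ {i ∈ C.I | ε / 4 ≤ C.rad i},
          (if j ∈ J then G j else ∅) := by
        intro h
        rw [mem_iUnion₂] at h
        obtain ⟨j, _, h⟩ := h
        by_cases hj : j ∈ J
        · rw [if_pos hj] at h
          exact hFG x hx (mem_iUnion₂.2 ⟨j, hj, h⟩)
        · rw [if_neg hj] at h
          exact h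
      obtain ⟨δ, hδ, hδE⟩ := Metric.mem_nhds_iff.1 (hE2.isClosed.isOpen_compl.mem_nhds hxE)
      refine ⟨min δ (ε / 2), lt_min hδ (by linarith), ?_⟩
      intro y hy hyx
      have h5 : dist y x < δ := lt_of_lt_of_le hyx (min_le_left _ _)
      have h6 : dist y x < ε / 2 := lt_of_lt_of_le hyx (min_le_right _ _)
      have h7 : y ∉ ⋃ j ∈ {j ∈ J | ¬ G j ⊆ ball j (ε / 4)} ∪ {i ∈ C.I | ε / 4 ≤ C.rad i},
          (if j ∈ J then G j else ∅) := hδE h5
      rw [hφ2 x (hFG x hx)]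
      by_cases hyG : y ∈ ⋃ j ∈ J, G j
      · obtain ⟨j, hj, hyj⟩ := mem_iUnion₂.1 hyG
        have h8 : j ∉ {j ∈ J | ¬ G j ⊆ ball j (ε / 4)} ∪ {i ∈ C.I | ε / 4 ≤ C.rad i} := by
          intro h8
          refine h7 (mem_iUnion₂.2 ⟨j, h8, ?_⟩)
          rwa [if_pos hj]
        have h9 : G j ⊆ ball j (ε / 4) := by
          by_contra h
          exact h8 (Or.inl ⟨hj, h⟩)
        have h10 : C.rad j < ε / 4 := by
          by_contra h
          exact h8 (Or.inr ⟨hJI j hj, not_lt.1 h⟩)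
        have h11 := hφball j hj y hyj
        have h12 : dist y j < ε / 4 := h9 hyj
        rw [← Real.dist_eq] at h11
        have h13 := dist_triangle4 (φ y) j y x
        rw [dist_comm j y] at h13
        linarith
      · rw [hφ2 y hyG]
        linarith
    · -- a centre is isolated
      have hiso : ∀ y ∈ C.F ∪ C.I, y ∈ ball x (C.rad x) → y = x := by
        intro y hy hyx
        rw [mem_ball, Real.dist_eq] at hyx
        by_contra hne
        rcases hy with hy | hy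
        · exact absurd hyx (not_lt.2 (hC.away x hx y hy).le)
        · have h5 := hC.apart y hy x hx hne
          have h6 := hC.pos y hy
          linarith
      have h5 : {x} ∈ 𝓝[C.F ∪ C.I] x := by
        rw [mem_nhdsWithin]
        exact ⟨ball x (C.rad x), isOpen_ball, mem_ball_self (hC.pos x hx),
          fun y hy => hiso y hy.2 hy.1⟩
      have h6 : 𝓝[C.F ∪ C.I] x ≤ pure x := by
        intro s hs
        exact mem_of_superset h5 (singleton_subset_iff.2 hs)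
      exact (tendsto_pure_nhds φ x).mono_left h6
  obtain ⟨Φ, p1, -, -, -, p5⟩ := hKPRES C C₁ φ hC a1 hcont hinj himF himI hlab
  obtain ⟨e, he, q, hq, hqe⟩ := hM
  have hq1 := p5 X _ q hq
  have hslot : ∀ j ∈ J, ∀ k ∈ J, j ≠ k → C.rad j + C.rad k < |j - k| := fun j hj k hk hjk =>
    hC.apart j (hJI j hj) k (hJI k hk) hjk
  have hF12 : C₂.F = C₁.F := b2.trans a2.symm
  obtain ⟨Q, hQ1, hQ2⟩ := hSUB X C₁ C₂ a1 b1 hF12 J C.rad (by rw [a2]; exact hJc)
    (fun j hj => ⟨a3 j hj, b3 j hj⟩) hslot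
    (fun i hi => by
      obtain ⟨c1, c2⟩ := a5 i hi
      obtain ⟨d1, d2⟩ := b5 i hi
      refine ⟨d1.trans c1.symm, fun h => ?_⟩
      have h5 := c1.1 h
      exact ⟨(d2 h5).1.trans (c2 h5).1.symm, (d2 h5).2.trans (c2 h5).2.symm⟩)
    (fun j hj => by
      obtain ⟨-, k2, -, k4, k5, -⟩ := h4 j hj
      obtain ⟨m1, m2⟩ := a6 j hj
      obtain ⟨n1, n2⟩ := b6 j hj
      refine clu_eqv hCCONG (D := D j) (D' := D' j) k2 m1.symm ?_ k4 n1.symm ?_ k5
      · intro i hi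
        have h5 : i ∈ (D j).I := by
          rw [← m1]
          exact hi
        exact ⟨(m2 i h5).1.symm, (m2 i h5).2.symm⟩
      · intro i hi
        have h5 : i ∈ (D' j).I := by
          rw [← n1]
          exact hi
        exact ⟨(n2 i h5).1.symm, (n2 i h5).2.symm⟩)
    (e '' OD)ᶜ (fun z => q (Φ.symm z)) (he.isOpenMap _ isOpen_ball).isClosed_compl hq1
  refine ⟨C₂, b1, b2, ⟨e, he, Q, hQ1, ?_⟩, b4', fun i hi => (hlab2 i hi).2, ?_⟩
  · intro z hz
    rw [hQ2 z hz]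
    have hz1 : z ∉ OD := by
      rw [mem_sphere_zero_iff_norm] at hz
      rw [mem_ball_zero_iff]
      linarith
    have h5 : Φ.symm z = z := by
      rw [Homeomorph.symm_apply_eq]
      exact (p1 z hz1).symm
    show q (Φ.symm z) = e z
    rw [h5]
    exact hqe z hz
  · intro j hj x hx
    exact ((b6 j hj).2 x hx).2

end Pool.Agent.SRP
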