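import Pool.Agent.SRP.StD
import Pool.Agent.SRF.StA

set_option autoImplicit false

/-! # SRP CONE: extending a parametrisation of the boundary of a convex disc -/

open Set Metric Filter Topology Pool.Agent.SRF

namespace Pool.Agent.SRP

theorem thm_CONE (_hI : St_INTD) (hR : St_RADH) (_hM : St_MONO) : St_CONE := by
  intro E β hE hconv hne hc hi hm
  obtain ⟨k, hk1, hk2, hk3⟩ := exists_homeomorph_image_eq hconv hne
    ((NormedSpace.isVonNBounded_iff ℝ).2 hE.isBounded) (convex_closedBall (0 : ℂ) 1)
    (by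
      rw [interior_closedBall _ one_ne_zero]
      exact ⟨0, by simp⟩)
    ((NormedSpace.isVonNBounded_iff ℝ).2 isBounded_closedBall)
  rw [hE.isClosed.closure_eq, isClosed_closedBall.closure_eq] at hk2
  rw [frontier_closedBall _ one_ne_zero] at hk3
  have hks : ∀ z ∈ UC, k.symm z ∈ frontier E := by
    intro z hz
    change z ∈ sphere (0 : ℂ) 1 at hz
    rw [← hk3] at hz
    obtain ⟨x, hx, rfl⟩ := hz
    rw [Homeomorph.symm_apply_apply]
    exact hx
  obtain ⟨c, hc1, hc2⟩ := hR (fun z => β (k.symm z)) (hc.comp k.symm.continuous.continuousOn hks)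
    (by
      intro z hz w hw h
      exact k.symm.injective (hi (hks z hz) (hks w hw) h))
    (fun z hz => hm (hks z hz))
  have hcs : ∀ z, ‖c.symm z‖ = ‖z‖ := by
    intro z
    rw [← hc2, Homeomorph.apply_symm_apply]
  refine ⟨k.trans c, ?_, ?_, ?_⟩
  · have h1 : (k.trans c) '' E = c '' (k '' E) := image_comp c k _
    rw [h1, hk2]
    apply Subset.antisymm
    · rintro _ ⟨z, hz, rfl⟩
      rw [mem_closedBall, dist_zero_right] at hz ⊢
      rwa [hc2]
    · intro z hz
      refine ⟨c.symm z, ?_, c.apply_symm_apply z⟩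
      rw [mem_closedBall, dist_zero_right] at hz ⊢
      rwa [hcs]
  · have h1 : (k.trans c) '' frontier E = c '' (k '' frontier E) := image_comp c k _
    rw [h1, hk3]
    apply Subset.antisymm
    · rintro _ ⟨z, hz, rfl⟩
      rw [mem_sphere, dist_zero_right] at hz ⊢
      rwa [hc2]
    · intro z hz
      refine ⟨c.symm z, ?_, c.apply_symm_apply z⟩
      rw [mem_sphere, dist_zero_right] at hz ⊢
      rwa [hcs]
  · intro x hx
    have h1 : k x ∈ UC := by
      change k x ∈ sphere (0 : ℂ) 1
      rw [← hk3]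
      exact ⟨x, hx, rfl⟩
    have h2 := hc1 h1
    change c (k x) = β x
    rw [h2]
    change β (k.symm (k x)) = β x
    rw [Homeomorph.symm_apply_apply]

end Pool.Agent.SRP
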