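import Pool.Agent.SRP.StE

set_option autoImplicit false

/-! # SRP, module CON: connected surfaces, conclusion -/

open Set Metric Filter Topology Pool.Agent.SRF

namespace Pool.Agent.SRP

theorem thm_CON (hEXI : St_EXI) (hNRM : St_NRM) (hPARTV : St_PARTV) (hCLS : St_CLS)
    (hKPRES : St_KPRES) (hUNM : St_UNM) : St_CON := by
  intro X Y _ _ hX hY cX cY hH
  obtain ⟨C, cOk, cO, cM⟩ := hEXI X hX cX
  obtain ⟨C1, g1, n1, m1⟩ := hNRM X hX C ⟨cOk, cO⟩ cM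
  obtain ⟨D, dOk, dO, dM⟩ := hEXI Y hY cY
  obtain ⟨C2, g2, n2, m2⟩ := hNRM Y hY D ⟨dOk, dO⟩ dM
  have M12 := hPARTV X Y hX hY C1 C2 g1 g2 m1 m2 hH
  have M21 := hPARTV Y X hY hX C2 C1 g2 g1 m2 m1 (hH.map Homeomorph.symm)
  obtain ⟨φ, hc, hi, hF, hI, hlab⟩ := hCLS C1 C2 g1 g2 n1 n2 M12 M21
  obtain ⟨Φ, hid, _, _, _, hpres⟩ := hKPRES C1 C2 φ g1.ok g2.ok hc hi hF hI hlab
  obtain ⟨e, he, q, hq, hqe⟩ := m1
  refine hUNM X Y hX hY C2 g2.ok ⟨e, he, fun z => q (Φ.symm z), hpres X _ q hq, ?_⟩ m2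
  intro z hz
  have h1 : z ∉ OD := by
    rw [mem_ball_zero_iff]
    rw [mem_sphere_zero_iff_norm] at hz
    linarith
  have h2 : Φ.symm z = z := by
    rw [Homeomorph.symm_apply_eq, hid z h1]
  simp only [h2]
  exact hqe z hz

end Pool.Agent.SRP
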