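import Pool.Agent.SRP.StC

set_option autoImplicit false

/-! # SRP CUT: the part of a presented space over a slot. -/

open Set Metric Filter Topology Pool.Agent.SRF

namespace Pool.Agent.SRP

theorem cut_norm (c s : ℝ) (hs : 0 < s) (z : ℂ) (a b : ℝ) (h : a = c + s * b) :
    ‖(c : ℂ) + s * z - (a : ℂ)‖ = s * ‖z - (b : ℂ)‖ := by
  have h1 : (c : ℂ) + s * z - (a : ℂ) = (s : ℂ) * (z - (b : ℂ)) := by
    rw [h]; push_cast; ring
  rw [h1, norm_mul, Complex.norm_real, Real.norm_eq_abs, abs_of_pos hs]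

theorem cut_mem_ball (c s : ℝ) (hs : 0 < s) (z : ℂ) (a b ρ ρ' : ℝ) (h : a = c + s * b)
    (hρ : ρ = s * ρ') : (c : ℂ) + s * z ∈ ball (a : ℂ) ρ ↔ z ∈ ball (b : ℂ) ρ' := by
  rw [mem_ball, mem_ball, dist_eq_norm, dist_eq_norm, cut_norm c s hs z a b h, hρ]
  exact ⟨fun h => lt_of_mul_lt_mul_left h hs.le, fun h => mul_lt_mul_of_pos_left h hs⟩

theorem cut_mem_sphere (c s : ℝ) (hs : 0 < s) (z : ℂ) (a b ρ ρ' : ℝ) (h : a = c + s * b)
    (hρ : ρ = s * ρ') : (c : ℂ) + s * z ∈ sphere (a : ℂ) ρ ↔ z ∈ sphere (b : ℂ) ρ' := by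
  rw [mem_sphere, mem_sphere, dist_eq_norm, dist_eq_norm, cut_norm c s hs z a b h, hρ]
  exact ⟨fun h => mul_left_cancel₀ hs.ne' h, fun h => by rw [h]⟩

theorem cut_mem_closedBall (c s : ℝ) (hs : 0 < s) (z : ℂ) (a b ρ ρ' : ℝ) (h : a = c + s * b)
    (hρ : ρ = s * ρ') : (c : ℂ) + s * z ∈ closedBall (a : ℂ) ρ ↔ z ∈ closedBall (b : ℂ) ρ' := by
  rw [mem_closedBall, mem_closedBall, dist_eq_norm, dist_eq_norm, cut_norm c s hs z a b h, hρ]
  exact ⟨fun h => le_of_mul_le_mul_left h hs, fun h => mul_le_mul_of_nonneg_left h hs.le⟩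

/-- The holes are open. -/
theorem cut_isOpen_holes (C : Conf) (i : ℝ) : IsOpen (C.holes i) := by
  unfold Conf.holes
  split
  · exact isOpen_ball.union isOpen_ball
  · exact isOpen_ball
  · exact isOpen_ball

theorem cut_norm_shift (z : ℂ) (i t r : ℝ) (h : ‖z - ((i + t : ℝ) : ℂ)‖ ≤ r) :
    ‖z - (i : ℂ)‖ ≤ |t| + r := by
  have h1 : z - (i : ℂ) = (t : ℂ) + (z - ((i + t : ℝ) : ℂ)) := by push_cast; ring
  rw [h1]
  refine (norm_add_le _ _).trans ?_
  rw [Complex.norm_real, Real.norm_eq_abs]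
  linarith

theorem cut_holes_sub (C : Conf) (i : ℝ) (hi : 0 < C.rad i) (z : ℂ) (hz : z ∈ C.holes i) :
    ‖z - (i : ℂ)‖ ≤ 5 / 8 * C.rad i := by
  unfold Conf.holes at hz
  split at hz
  · rcases hz with hz | hz
    · rw [mem_ball, dist_eq_norm] at hz
      have := cut_norm_shift z i (-(C.rad i / 2)) (C.rad i / 8) (by
        rw [← sub_eq_add_neg]; exact hz.le)
      rw [abs_neg, abs_of_pos (by linarith)] at this
      linarith
    · rw [mem_ball, dist_eq_norm] at hz
      have := cut_norm_shift z i (C.rad i / 2) (C.rad i / 8) hz.le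
      rw [abs_of_pos (by linarith)] at this
      linarith
  · rw [mem_ball, dist_eq_norm] at hz
    linarith
  · rw [mem_ball, dist_eq_norm] at hz
    linarith

/-- Holes of the slot. -/
theorem cut_slot_holes (C : Conf) (c s : ℝ) (hs : 0 < s) (x : ℝ) (z : ℂ) :
    (c : ℂ) + s * z ∈ C.holes (c + s * x) ↔ z ∈ (C.slot c s).holes x := by
  have e1 : (C.slot c s).lab x = C.lab (c + s * x) := rfl
  have e2 : (C.slot c s).rad x = C.rad (c + s * x) / s := rfl
  unfold Conf.holes
  rw [e1, e2]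
  split
  · rw [mem_union, mem_union]
    refine or_congr ?_ ?_
    · apply cut_mem_ball c s hs
      · field_simp; ring
      · field_simp
    · apply cut_mem_ball c s hs
      · field_simp; ring
      · field_simp
  · apply cut_mem_ball c s hs
    · rfl
    · field_simp
  · apply cut_mem_ball c s hs
    · rfl
    · field_simp

/-- If the point `w` of `closedBall c s` is close to the centre `i`, then `i` belongs to the slot. -/
theorem cut_in (C : Conf) (c s : ℝ) (hS : C.Slot c s) (i : ℝ) (hi : i ∈ C.I) (hp : 0 < C.rad i)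
    (w : ℂ) (hw : w ∈ closedBall (c : ℂ) s) (hw' : ‖w - (i : ℂ)‖ ≤ 5 / 8 * C.rad i) :
    |i - c| + C.rad i ≤ s := by
  rcases hS.ball i hi with h | h
  · exact h
  · exfalso
    rw [mem_closedBall, dist_eq_norm] at hw
    have h1 : ((i - c : ℝ) : ℂ) = (w - (c : ℂ)) - (w - (i : ℂ)) := by push_cast; ring
    have h2 : |i - c| ≤ ‖w - (c : ℂ)‖ + ‖w - (i : ℂ)‖ := by
      rw [← Real.norm_eq_abs, ← Complex.norm_real, h1]
      exact norm_sub_le _ _
    linarith

/-- ... and if `i` belongs to the slot, then the point is in the open ball. -/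
theorem cut_in' (C : Conf) (c s : ℝ) (i : ℝ) (hp : 0 < C.rad i) (w : ℂ)
    (hw' : ‖w - (i : ℂ)‖ ≤ 5 / 8 * C.rad i) (h : |i - c| + C.rad i ≤ s) :
    w ∈ ball (c : ℂ) s := by
  rw [mem_ball, dist_eq_norm]
  have h1 : w - (c : ℂ) = (w - (i : ℂ)) + ((i - c : ℝ) : ℂ) := by push_cast; ring
  rw [h1]
  refine (norm_add_le _ _).trans_lt ?_
  rw [Complex.norm_real, Real.norm_eq_abs]
  linarith

theorem cut_slot_unit (C : Conf) (c s : ℝ) (hS : C.Slot c s) (w : ℂ)
    (hw : w ∈ closedBall (c : ℂ) s) : w ∈ closedBall (0 : ℂ) 1 := by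
  rw [mem_closedBall, dist_eq_norm] at hw
  rw [mem_closedBall, dist_eq_norm, sub_zero]
  have h1 : w = (w - (c : ℂ)) + (c : ℂ) := by ring
  rw [h1]
  refine (norm_add_le _ _).trans ?_
  rw [Complex.norm_real, Real.norm_eq_abs]
  linarith [hS.inside]

theorem cut_slot_F (C : Conf) (c s : ℝ) (hS : C.Slot c s) (w : ℂ)
    (hw : w ∈ closedBall (c : ℂ) s) : w ∉ (fun x : ℝ => (x : ℂ)) '' C.F := by
  rintro ⟨x, hx, rfl⟩
  have h := hS.away x hx
  rw [mem_closedBall, dist_eq_norm] at hw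
  have h1 : (fun x : ℝ => (x : ℂ)) x - (c : ℂ) = ((x - c : ℝ) : ℂ) := by push_cast; ring
  rw [h1, Complex.norm_real, Real.norm_eq_abs] at hw
  linarith

/-- membership in the domain, over the slot -/
theorem cut_mem_Dom (C : Conf) (hp : ∀ i ∈ C.I, 0 < C.rad i) (c s : ℝ) (hS : C.Slot c s) (z : ℂ)
    (hz : z ∈ closedBall (0 : ℂ) 1) : z ∈ (C.slot c s).Dom ↔ (c : ℂ) + s * z ∈ C.Dom := by
  have hs := hS.pos
  have hw : (c : ℂ) + s * z ∈ closedBall (c : ℂ) s :=
    (cut_mem_closedBall c s hs z c 0 s 1 (by ring) (by ring)).2 (by simpa using hz)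
  constructor
  · rintro ⟨-, h2⟩
    refine ⟨cut_slot_unit C c s hS _ hw, ?_⟩
    rintro (h3 | h3)
    · exact cut_slot_F C c s hS _ hw h3
    · simp only [mem_iUnion] at h3
      obtain ⟨i, hi, h3⟩ := h3
      have h4 := cut_in C c s hS i hi (hp i hi) _ hw (cut_holes_sub C i (hp i hi) _ h3)
      apply h2
      refine Or.inr ?_
      simp only [mem_iUnion]
      have h5 : c + s * ((i - c) / s) = i := by field_simp; ring
      refine ⟨(i - c) / s, ⟨?_, ?_⟩, ?_⟩
      · rw [h5]; exact hi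
      · rw [abs_div, abs_of_pos hs, div_le_one hs]
        linarith [hp i hi]
      · rw [← cut_slot_holes C c s hs, h5]
        exact h3
  · rintro ⟨-, h2⟩
    refine ⟨hz, ?_⟩
    rintro (h3 | h3)
    · obtain ⟨x, hx, -⟩ := h3
      exact hx
    · simp only [mem_iUnion] at h3
      obtain ⟨x, ⟨hx, -⟩, h3⟩ := h3
      apply h2
      refine Or.inr ?_
      simp only [mem_iUnion]
      exact ⟨c + s * x, hx, (cut_slot_holes C c s hs x z).2 h3⟩

/-- points in the relation (other than equal ones) are close to the centre -/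
theorem cut_rel_close (C : Conf) (i : ℝ) (hp : 0 < C.rad i) (x y : ℂ)
    (h : (C.lab i = Lab.T ∧ (x ∈ sphere ((i - C.rad i / 2 : ℝ) : ℂ) (C.rad i / 8) ∨
      x ∈ sphere ((i + C.rad i / 2 : ℝ) : ℂ) (C.rad i / 8)) ∧
      y = 2 * (i : ℂ) - (starRingEnd ℂ) x) ∨
    (C.lab i = Lab.P ∧ x ∈ sphere (i : ℂ) (C.rad i / 2) ∧ y = 2 * (i : ℂ) - x)) :
    ‖x - (i : ℂ)‖ ≤ 5 / 8 * C.rad i ∧ ‖y - (i : ℂ)‖ ≤ 5 / 8 * C.rad i := by
  have hx : ‖x - (i : ℂ)‖ ≤ 5 / 8 * C.rad i := by
    rcases h with ⟨-, h | h, -⟩ | ⟨-, h, -⟩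
    · rw [mem_sphere, dist_eq_norm] at h
      have := cut_norm_shift x i (-(C.rad i / 2)) (C.rad i / 8) (by
        rw [← sub_eq_add_neg]; exact h.le)
      rw [abs_neg, abs_of_pos (by linarith)] at this
      linarith
    · rw [mem_sphere, dist_eq_norm] at h
      have := cut_norm_shift x i (C.rad i / 2) (C.rad i / 8) h.le
      rw [abs_of_pos (by linarith)] at this
      linarith
    · rw [mem_sphere, dist_eq_norm] at h
      linarith
  refine ⟨hx, ?_⟩
  rcases h with ⟨-, -, rfl⟩ | ⟨-, -, rfl⟩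
  · have h1 : 2 * (i : ℂ) - (starRingEnd ℂ) x - (i : ℂ) = -(starRingEnd ℂ) (x - (i : ℂ)) := by
      rw [map_sub, Complex.conj_ofReal]; ring
    rw [h1, norm_neg, Complex.norm_conj]
    exact hx
  · have h1 : 2 * (i : ℂ) - x - (i : ℂ) = -(x - (i : ℂ)) := by ring
    rw [h1, norm_neg]
    exact hx

/-- the relation over the slot -/
theorem cut_Rel (C : Conf) (hp : ∀ i ∈ C.I, 0 < C.rad i) (c s : ℝ) (hS : C.Slot c s) (z w : ℂ)
    (hz : z ∈ closedBall (0 : ℂ) 1) :
    (C.slot c s).Rel z w ↔ C.Rel ((c : ℂ) + s * z) ((c : ℂ) + s * w) := by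
  have hs := hS.pos
  have hsc : (s : ℂ) ≠ 0 := by exact_mod_cast hs.ne'
  have hw : (c : ℂ) + s * z ∈ closedBall (c : ℂ) s :=
    (cut_mem_closedBall c s hs z c 0 s 1 (by ring) (by ring)).2 (by simpa using hz)
  have key : ∀ x : ℝ,
      (((C.slot c s).lab x = Lab.T ∧
        (z ∈ sphere ((x - (C.slot c s).rad x / 2 : ℝ) : ℂ) ((C.slot c s).rad x / 8) ∨
        z ∈ sphere ((x + (C.slot c s).rad x / 2 : ℝ) : ℂ) ((C.slot c s).rad x / 8)) ∧
        w = 2 * (x : ℂ) - (starRingEnd ℂ) z) ∨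
      ((C.slot c s).lab x = Lab.P ∧ z ∈ sphere (x : ℂ) ((C.slot c s).rad x / 2) ∧
        w = 2 * (x : ℂ) - z)) ↔
      ((C.lab (c + s * x) = Lab.T ∧
        ((c : ℂ) + s * z ∈ sphere ((c + s * x - C.rad (c + s * x) / 2 : ℝ) : ℂ)
          (C.rad (c + s * x) / 8) ∨
        (c : ℂ) + s * z ∈ sphere ((c + s * x + C.rad (c + s * x) / 2 : ℝ) : ℂ)
          (C.rad (c + s * x) / 8)) ∧
        (c : ℂ) + s * w = 2 * ((c + s * x : ℝ) : ℂ) - (starRingEnd ℂ) ((c : ℂ) + s * z)) ∨
      (C.lab (c + s * x) = Lab.P ∧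
        (c : ℂ) + s * z ∈ sphere ((c + s * x : ℝ) : ℂ) (C.rad (c + s * x) / 2) ∧
        (c : ℂ) + s * w = 2 * ((c + s * x : ℝ) : ℂ) - ((c : ℂ) + s * z))) := by
    intro x
    have e1 : (C.slot c s).lab x = C.lab (c + s * x) := rfl
    have e2 : (C.slot c s).rad x = C.rad (c + s * x) / s := rfl
    rw [e1, e2]
    have f1 : (c : ℂ) + s * z ∈ sphere ((c + s * x - C.rad (c + s * x) / 2 : ℝ) : ℂ)
          (C.rad (c + s * x) / 8) ↔
        z ∈ sphere ((x - C.rad (c + s * x) / s / 2 : ℝ) : ℂ) (C.rad (c + s * x) / s / 8) := by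
      apply cut_mem_sphere c s hs
      · field_simp; ring
      · field_simp
    have f2 : (c : ℂ) + s * z ∈ sphere ((c + s * x + C.rad (c + s * x) / 2 : ℝ) : ℂ)
          (C.rad (c + s * x) / 8) ↔
        z ∈ sphere ((x + C.rad (c + s * x) / s / 2 : ℝ) : ℂ) (C.rad (c + s * x) / s / 8) := by
      apply cut_mem_sphere c s hs
      · field_simp; ring
      · field_simp
    have f3 : (c : ℂ) + s * z ∈ sphere ((c + s * x : ℝ) : ℂ) (C.rad (c + s * x) / 2) ↔
        z ∈ sphere (x : ℂ) (C.rad (c + s * x) / s / 2) := by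
      apply cut_mem_sphere c s hs
      · rfl
      · field_simp
    have f4 : (c : ℂ) + s * w = 2 * ((c + s * x : ℝ) : ℂ) - (starRingEnd ℂ) ((c : ℂ) + s * z) ↔
        w = 2 * (x : ℂ) - (starRingEnd ℂ) z := by
      rw [map_add, map_mul, Complex.conj_ofReal, Complex.conj_ofReal]
      push_cast
      constructor
      · intro h
        apply mul_left_cancel₀ hsc
        linear_combination h
      · intro h
        rw [h]; ring
    have f5 : (c : ℂ) + s * w = 2 * ((c + s * x : ℝ) : ℂ) - ((c : ℂ) + s * z) ↔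
        w = 2 * (x : ℂ) - z := by
      push_cast
      constructor
      · intro h
        apply mul_left_cancel₀ hsc
        linear_combination h
      · intro h
        rw [h]; ring
    rw [f1, f2, f3, f4, f5]
  constructor
  · rintro (h | ⟨x, ⟨hx, -⟩, h⟩)
    · exact Or.inl (by rw [h])
    · exact Or.inr ⟨c + s * x, hx, (key x).1 h⟩
  · rintro (h | ⟨i, hi, h⟩)
    · refine Or.inl ?_
      apply mul_left_cancel₀ hsc
      linear_combination h
    · have h4 := cut_in C c s hS i hi (hp i hi) _ hw (cut_rel_close C i (hp i hi) _ _ h).1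
      have h5 : c + s * ((i - c) / s) = i := by field_simp; ring
      refine Or.inr ⟨(i - c) / s, ⟨?_, ?_⟩, ?_⟩
      · rw [h5]; exact hi
      · rw [abs_div, abs_of_pos hs, div_le_one hs]
        linarith [hp i hi]
      · rw [key, h5]
        exact h

/-- The sphere of a slot is contained in the domain. -/
theorem cut_sphere_Dom (C : Conf) (hp : ∀ i ∈ C.I, 0 < C.rad i) (c s : ℝ) (hS : C.Slot c s)
    (w : ℂ) (hw : w ∈ sphere (c : ℂ) s) : w ∈ C.Dom := by
  have hw' : w ∈ closedBall (c : ℂ) s := sphere_subset_closedBall hw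
  refine ⟨cut_slot_unit C c s hS w hw', ?_⟩
  rintro (h3 | h3)
  · exact cut_slot_F C c s hS _ hw' h3
  · simp only [mem_iUnion] at h3
    obtain ⟨i, hi, h3⟩ := h3
    have h4 := cut_holes_sub C i (hp i hi) _ h3
    have h5 := cut_in C c s hS i hi (hp i hi) _ hw' h4
    have h6 := cut_in' C c s i (hp i hi) w h4 h5
    rw [mem_ball] at h6
    rw [mem_sphere] at hw
    linarith

/-- If `x` is in the closed disc of a slot and `y` is not in the open disc, then `x` and `y` are
related only if they are equal. -/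
theorem cut_rel_eq (C : Conf) (hp : ∀ i ∈ C.I, 0 < C.rad i) (c s : ℝ) (hS : C.Slot c s)
    (x y : ℂ) (hx : x ∈ closedBall (c : ℂ) s) (hy : y ∉ ball (c : ℂ) s) (h : C.Rel x y) :
    x = y := by
  rcases h with h | ⟨i, hi, h⟩
  · exact h
  · exfalso
    obtain ⟨h1, h2⟩ := cut_rel_close C i (hp i hi) _ _ h
    exact hy (cut_in' C c s i (hp i hi) y h2 (cut_in C c s hS i hi (hp i hi) x hx h1))

theorem cut_Dom_closed_part (C : Conf) (c s : ℝ) (hS : C.Slot c s) :
    IsCompact (C.Dom ∩ closedBall (c : ℂ) s) := by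
  have h1 : C.Dom ∩ closedBall (c : ℂ) s =
      closedBall (c : ℂ) s \ ⋃ i ∈ C.I, C.holes i := by
    ext w
    constructor
    · rintro ⟨⟨-, h2⟩, h3⟩
      exact ⟨h3, fun h4 => h2 (Or.inr h4)⟩
    · rintro ⟨h3, h2⟩
      exact ⟨⟨cut_slot_unit C c s hS w h3, fun h4 =>
        h4.elim (cut_slot_F C c s hS w h3) h2⟩, h3⟩
  rw [h1]
  exact (isCompact_closedBall _ _).diff
    (isOpen_biUnion fun i _ => cut_isOpen_holes C i)

theorem cut_slot_Dom_compact (C : Conf) (c s : ℝ) : IsCompact (C.slot c s).Dom := by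
  refine (isCompact_closedBall (0 : ℂ) 1).diff ?_
  have h1 : (C.slot c s).F = ∅ := rfl
  rw [h1, image_empty, empty_union]
  exact isOpen_biUnion fun i _ => cut_isOpen_holes _ i

theorem thm_CUT (hCFIN : St_CFIN) : St_CUT := by
  intro X _ C hC L q hP c s hS
  have hs := hS.pos
  have hp := hC.pos
  have hmem : ∀ z ∈ closedBall (0 : ℂ) 1, (c : ℂ) + s * z ∈ closedBall (c : ℂ) s := fun z hz =>
    (cut_mem_closedBall c s hs z c 0 s 1 (by ring) (by ring)).2 (by simpa using hz)
  have hsc : (s : ℂ) ≠ 0 := by exact_mod_cast hs.ne'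
  refine ⟨⟨?_, ?_, ?_, ?_⟩, ?_, ?_⟩
  · refine hP.cont.comp (Continuous.continuousOn (by fun_prop)) ?_
    intro z hz
    exact (cut_mem_Dom C hp c s hS z hz.1).1 hz
  · apply Subset.antisymm
    · rintro _ ⟨z, hz, rfl⟩
      exact ⟨_, ⟨(cut_mem_Dom C hp c s hS z hz.1).1 hz, hmem z hz.1⟩, rfl⟩
    · rintro _ ⟨w, ⟨hw, hw'⟩, rfl⟩
      have h1 : (c : ℂ) + s * ((w - c) / s) = w := by field_simp; ring
      have h2 : (w - c) / s ∈ closedBall (0 : ℂ) 1 := by
        have := (cut_mem_closedBall c s hs ((w - c) / s) c 0 s 1 (by ring) (by ring)).1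
          (by rw [h1]; exact hw')
        simpa using this
      refine ⟨(w - c) / s, (cut_mem_Dom C hp c s hS _ h2).2 (by rw [h1]; exact hw), ?_⟩
      simp only [h1]
  · intro x hx y hy
    rw [hP.rel _ ((cut_mem_Dom C hp c s hS x hx.1).1 hx) _ ((cut_mem_Dom C hp c s hS y hy.1).1 hy)]
    exact (cut_Rel C hp c s hS x y hx.1).symm
  · intro A _ _
    exact ⟨_, Subset.rfl, cut_slot_Dom_compact C c s, fun x hx _ => hx⟩
  · apply Subset.antisymm
    · rintro _ ⟨⟨x, ⟨hx, hx'⟩, rfl⟩, ⟨y, ⟨hy, hy'⟩, hxy⟩⟩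
      have h1 : C.Rel x y := (hP.rel x hx y hy).1 hxy.symm
      have h2 := cut_rel_eq C hp c s hS x y hx' hy' h1
      subst h2
      refine ⟨x, ?_, rfl⟩
      rw [mem_sphere]
      rw [mem_closedBall] at hx'
      rw [mem_ball, not_lt] at hy'
      exact le_antisymm hx' hy'
    · rintro _ ⟨w, hw, rfl⟩
      have h1 := cut_sphere_Dom C hp c s hS w hw
      refine ⟨⟨w, ⟨h1, sphere_subset_closedBall hw⟩, rfl⟩, ⟨w, ⟨h1, ?_⟩, rfl⟩⟩
      rw [mem_ball, not_lt, mem_sphere.1 hw]
  · intro hne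
    have hfin : (C.slot c s).I.Finite := by
      have h1 : ((closedBall c s : Set ℝ) ∩ C.I).Finite := by
        refine (hCFIN C hC).2.1 _ isClosed_closedBall ?_
        rw [Set.disjoint_left]
        intro x hx hx'
        have := hS.away x hx'
        rw [mem_closedBall, Real.dist_eq] at hx
        linarith
      have h2 : (C.slot c s).I ⊆ (fun x : ℝ => c + s * x) ⁻¹' ((closedBall c s : Set ℝ) ∩ C.I) := by
        rintro x ⟨hx, hx'⟩
        refine ⟨?_, hx⟩
        rw [mem_closedBall, Real.dist_eq]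
        have : c + s * x - c = s * x := by ring
        rw [this, abs_mul, abs_of_pos hs]
        nlinarith
      refine (h1.preimage ?_).subset h2
      intro x _ y _ hxy
      have : s * x = s * y := by simpa using hxy
      exact mul_left_cancel₀ hs.ne' this
    refine ⟨isClosed_empty, ?_, ?_, ?_, ?_, ?_, ?_, ?_⟩
    · have h1 : (C.slot c s).F = ∅ := rfl
      rw [h1, empty_union]
      exact hfin.isCompact
    · exact isTotallyDisconnected_empty
    · intro x hx
      exact absurd hx (notMem_empty x)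
    · rintro x ⟨hx, -⟩
      exact div_pos (hp _ hx) hs
    · rintro x ⟨hx, hx'⟩
      have h1 : |c + s * x - c| + C.rad (c + s * x) ≤ s := by
        rcases hS.ball _ hx with h | h
        · exact h
        · exfalso
          have h2 : c + s * x - c = s * x := by ring
          rw [h2, abs_mul, abs_of_pos hs] at h
          have := hp _ hx
          nlinarith
      have h3 := lt_of_le_of_ne h1 (hne _ hx)
      have h2 : c + s * x - c = s * x := by ring
      rw [h2, abs_mul, abs_of_pos hs] at h3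
      have e2 : (C.slot c s).rad x = C.rad (c + s * x) / s := rfl
      rw [e2]
      have h4 : |x| + C.rad (c + s * x) / s = (s * |x| + C.rad (c + s * x)) / s := by
        field_simp
      rw [h4, div_lt_one hs]
      exact h3
    · intro i _ x hx
      exact absurd hx (notMem_empty x)
    · rintro x ⟨hx, -⟩ y ⟨hy, -⟩ hxy
      have h1 := hC.apart _ hx _ hy (fun h => hxy (by
        have : s * x = s * y := by linarith
        exact mul_left_cancel₀ hs.ne' this))
      have e1 : (C.slot c s).rad x = C.rad (c + s * x) / s := rfl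
      have e2 : (C.slot c s).rad y = C.rad (c + s * y) / s := rfl
      rw [e1, e2, ← add_div, div_lt_iff₀ hs]
      have h2 : c + s * x - (c + s * y) = (x - y) * s := by ring
      rw [h2, abs_mul, abs_of_pos hs] at h1
      exact h1

end Pool.Agent.SRP
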