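import Pool.Agent.SRP.StC

/-!
# SRP RED: a free hole, or two of them, in a slot of its own

`red_ref`: the content of one ball is replaced by another configuration. `red_gen`: the slot of the
new content can be cut out and replaced.
-/

set_option autoImplicit false

open Set Metric Filter Topology Pool.Agent.SRF

namespace Pool.Agent.SRP

/-- the number of centres different from `j` with label `l` -/
noncomputable def red_c (C : Conf) (j : ℝ) (l : Lab) : ℕ := {i ∈ C.I | i ≠ j ∧ C.lab i = l}.ncard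

/-- the free circles different from the one of `j` -/
def red_R (C : Conf) (j : ℝ) : Set ℂ :=
  ⋃ i ∈ {i ∈ C.I | i ≠ j ∧ C.lab i = Lab.O}, sphere ((i : ℝ) : ℂ) (C.rad i / 2)

/-- the affine map of a slot -/
def red_a (j r : ℝ) (z : ℂ) : ℂ := (j : ℂ) + r * z

theorem red_a_sph {j r : ℝ} (hr : 0 < r) (c : ℂ) (ρ : ℝ) :
    red_a j r '' sphere c ρ = sphere ((j : ℂ) + r * c) (r * ρ) := by
  have hr' : (r : ℂ) ≠ 0 := by exact_mod_cast hr.ne'
  apply Subset.antisymm
  · rintro _ ⟨z, hz, rfl⟩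
    rw [mem_sphere_iff_norm] at hz ⊢
    have : red_a j r z - ((j : ℂ) + r * c) = r * (z - c) := by
      unfold red_a
      ring
    rw [this, norm_mul, hz, Complex.norm_real, Real.norm_of_nonneg hr.le]
  · intro w hw
    rw [mem_sphere_iff_norm] at hw
    refine ⟨(w - j) / r, ?_, ?_⟩
    · rw [mem_sphere_iff_norm]
      have h1 : (w - j) / r - c = (w - ((j : ℂ) + r * c)) / r := by
        field_simp
        ring
      rw [h1, norm_div, hw, Complex.norm_real, Real.norm_of_nonneg hr.le]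
      field_simp
    · unfold red_a
      field_simp
      ring

theorem red_norm_ge (z : ℂ) (i j : ℝ) : |i - j| - ‖z - i‖ ≤ ‖z - j‖ := by
  have h1 : ((i : ℂ) - j) = (z - j) - (z - i) := by ring
  have h2 : ‖(i : ℂ) - j‖ = |i - j| := by
    rw [← Complex.ofReal_sub, Complex.norm_real, Real.norm_eq_abs]
  have h3 := norm_sub_le (z - j) (z - (i : ℂ))
  rw [← h1, h2] at h3
  linarith

theorem red_norm_le (z : ℂ) (i j : ℝ) : ‖z - j‖ ≤ ‖z - i‖ + |i - j| := by
  have h1 : (z - j) = (z - i) + ((i : ℂ) - j) := by ring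
  have h2 : ‖(i : ℂ) - j‖ = |i - j| := by
    rw [← Complex.ofReal_sub, Complex.norm_real, Real.norm_eq_abs]
  rw [h1, ← h2]
  exact norm_add_le _ _

theorem red_holes {C : Conf} {i : ℝ} (hi : 0 < C.rad i) {z : ℂ} (hz : z ∈ C.holes i) :
    ‖z - i‖ ≤ 5 / 8 * C.rad i := by
  unfold Conf.holes at hz
  cases h : C.lab i with
  | T =>
    rw [h] at hz
    rcases hz with hz | hz
    · rw [mem_ball_iff_norm] at hz
      have := red_norm_le z (i - C.rad i / 2) i
      have h2 : |i - C.rad i / 2 - i| = C.rad i / 2 := by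
        rw [show i - C.rad i / 2 - i = -(C.rad i / 2) by ring, abs_neg, abs_of_pos (by linarith)]
      rw [h2] at this
      linarith
    · rw [mem_ball_iff_norm] at hz
      have := red_norm_le z (i + C.rad i / 2) i
      have h2 : |i + C.rad i / 2 - i| = C.rad i / 2 := by
        rw [show i + C.rad i / 2 - i = C.rad i / 2 by ring, abs_of_pos (by linarith)]
      rw [h2] at this
      linarith
  | P =>
    rw [h] at hz
    have hz' : ‖z - i‖ < C.rad i / 2 := mem_ball_iff_norm.1 hz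
    linarith
  | O =>
    rw [h] at hz
    have hz' : ‖z - i‖ < C.rad i / 2 := mem_ball_iff_norm.1 hz
    linarith

theorem red_free_norm {C : Conf} (hC : C.Ok) {z : ℂ} (hz : z ∈ C.FreeBd) :
    ∃ i ∈ C.I, C.lab i = Lab.O ∧ ‖z - i‖ = C.rad i / 2 ∧ ‖z‖ < 1 := by
  unfold Conf.FreeBd at hz
  simp only [mem_iUnion] at hz
  obtain ⟨i, ⟨hi, hl⟩, hz⟩ := hz
  have h1 : ‖z - i‖ = C.rad i / 2 := mem_sphere_iff_norm.1 hz
  refine ⟨i, hi, hl, h1, ?_⟩
  have h2 := red_norm_le z i 0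
  have h3 := hC.inside i hi
  have h4 := hC.pos i hi
  simp only [Complex.ofReal_zero, sub_zero] at h2
  linarith

theorem red_free_dom {C : Conf} (hC : C.Ok) (hF : C.F = ∅) : C.FreeBd ⊆ C.Dom := by
  intro z hz
  obtain ⟨i, hi, hl, h1, h2⟩ := red_free_norm hC hz
  refine ⟨mem_closedBall_zero_iff.2 h2.le, ?_⟩
  rw [hF, image_empty, empty_union]
  simp only [mem_iUnion, not_exists]
  intro k hk hzk
  by_cases hki : k = i
  · rw [hki] at hzk
    unfold Conf.holes at hzk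
    rw [hl] at hzk
    have : ‖z - i‖ < C.rad i / 2 := mem_ball_iff_norm.1 hzk
    linarith
  · have h3 := red_holes (hC.pos k hk) hzk
    have h4 := hC.apart i hi k hk (Ne.symm hki)
    have h5 := red_norm_ge z i k
    have h6 := hC.pos k hk
    have h7 := hC.pos i hi
    linarith

/-- points on the boundary of a slot are far from the holes -/
theorem red_slot {C : Conf} (hC : C.Ok) {j r : ℝ} (hS : C.Slot j r) {y : ℂ}
    (hy : ‖y - j‖ = r) {i : ℝ} (hi : i ∈ C.I) : ¬ ‖y - i‖ ≤ 5 / 8 * C.rad i := by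
  intro h
  have h0 := hC.pos i hi
  rcases hS.ball i hi with h1 | h1
  · have := red_norm_le y i j
    linarith
  · have := red_norm_ge y i j
    linarith

theorem red_slot_dom {C : Conf} (hC : C.Ok) (hF : C.F = ∅) {j r : ℝ} (hS : C.Slot j r) {y : ℂ}
    (hy : ‖y - j‖ = r) : y ∈ C.Dom := by
  have h1 := red_norm_le y j 0
  simp only [Complex.ofReal_zero, sub_zero] at h1
  have h2 := hS.inside
  refine ⟨mem_closedBall_zero_iff.2 (by linarith), ?_⟩
  rw [hF, image_empty, empty_union]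
  simp only [mem_iUnion, not_exists]
  intro k hk hzk
  exact red_slot hC hS hy hk (red_holes (hC.pos k hk) hzk)

theorem red_slot_rel (hCFIN : St_CFIN) {C : Conf} (hC : C.Ok) {j r : ℝ} (hS : C.Slot j r) {x y : ℂ}
    (hy : ‖y - j‖ = r) (h : C.Rel x y) : x = y := by
  rcases (hCFIN C hC).2.2.2.2.2.2.1 x y h with h1 | ⟨i, hi, -, h2⟩
  · exact h1
  · exact absurd (mem_closedBall_iff_norm.1 h2) (red_slot hC hS hy hi)

/-- replacing the content of one ball -/
theorem red_ref (hCFIN : St_CFIN) (hCCONG : St_CCONG) (hREF : St_REF) {C : Conf} (h0 : C.Ok)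
    (hF : C.F = ∅) {j : ℝ} (hj : j ∈ C.I) {D : Conf} (hD : D.Ok) (hDF : D.F = ∅) :
    ∃ C' : Conf, C'.Ok ∧ C'.F = ∅ ∧ C'.Slot j (C.rad j) ∧
      C'.I = (C.I \ {j}) ∪ {i | ∃ x ∈ D.I, i = j + C.rad j * x} ∧
      (∀ i, C.rad j < |i - j| → ((i ∈ C'.I ↔ i ∈ C.I) ∧
        (i ∈ C.I → C'.rad i = C.rad i ∧ C'.lab i = C.lab i))) ∧
      (∀ x ∈ D.I, C'.rad (j + C.rad j * x) = C.rad j * D.rad x ∧
        C'.lab (j + C.rad j * x) = D.lab x) ∧
      (C'.slot j (C.rad j)).Dom = D.Dom ∧ (C'.slot j (C.rad j)).Rel = D.Rel ∧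
      (∀ l, C'.cnt l = red_c C j l + D.cnt l) ∧
      C'.FreeBd = red_R C j ∪ red_a j (C.rad j) '' D.FreeBd := by
  obtain ⟨-, -, C', hC', hF', hS', hI', hag', hin'⟩ := hREF C h0 {j} (by simpa using hj)
    (fun _ => D) (fun _ _ => ⟨hD, hDF⟩)
  have hr : 0 < C.rad j := h0.pos j hj
  simp only [mem_singleton_iff, forall_eq, exists_eq_left] at hS' hI' hag' hin'
  have hrad : ∀ x ∈ D.I, C'.rad (j + C.rad j * x) = C.rad j * D.rad x ∧
      C'.lab (j + C.rad j * x) = D.lab x := by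
    intro x hx
    obtain ⟨h1, h2⟩ := hin'.2 x hx
    refine ⟨?_, h2⟩
    have h3 : C'.rad (j + C.rad j * x) / C.rad j = D.rad x := h1
    rw [← h3]
    field_simp
  have hcong := hCCONG D (C'.slot j (C.rad j)) (by rw [hDF]; rfl) hin'.1 hin'.2
  have hfar : ∀ i ∈ C.I, i ≠ j → C.rad j < |i - j| := by
    intro i hi hne
    have h1 := h0.apart i hi j hj hne
    have h2 := h0.pos i hi
    linarith
  have hnear : ∀ x ∈ D.I, |j + C.rad j * x - j| < C.rad j := by
    intro x hx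
    have h1 := hD.inside x hx
    have h2 := hD.pos x hx
    rw [add_sub_cancel_left, abs_mul, abs_of_pos hr]
    have : |x| < 1 := by linarith
    nlinarith
  have hinj : Function.Injective (fun x : ℝ => j + C.rad j * x) := by
    intro x y h
    have h1 : j + C.rad j * x = j + C.rad j * y := h
    exact mul_left_cancel₀ hr.ne' (add_left_cancel h1)
  have hset : ∀ l, {i ∈ C'.I | C'.lab i = l} = {i ∈ C.I | i ≠ j ∧ C.lab i = l} ∪
      (fun x : ℝ => j + C.rad j * x) '' {x ∈ D.I | D.lab x = l} := by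
    intro l
    ext i
    constructor
    · rintro ⟨hi, hl⟩
      rw [hI'] at hi
      rcases hi with ⟨hi, hne⟩ | ⟨x, hx, rfl⟩
      · left
        have hne' : i ≠ j := hne
        have h1 := (hag' i (hfar i hi hne')).2 hi
        exact ⟨hi, hne', by rw [← h1.2]; exact hl⟩
      · right
        exact ⟨x, ⟨hx, by rw [← (hrad x hx).2]; exact hl⟩, rfl⟩
    · rintro (⟨hi, hne, hl⟩ | ⟨x, ⟨hx, hl⟩, rfl⟩)
      · have h1 := hag' i (hfar i hi hne)
        exact ⟨h1.1.2 hi, by rw [(h1.2 hi).2]; exact hl⟩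
      · refine ⟨?_, by rw [← hl]; exact (hrad x hx).2⟩
        rw [hI']
        exact Or.inr ⟨x, hx, rfl⟩
  refine ⟨C', hC', by rw [hF', hF], hS', hI', hag', hrad, hcong.1, hcong.2.1, ?_, ?_⟩
  · intro l
    have hfin : {i ∈ C.I | i ≠ j ∧ C.lab i = l}.Finite :=
      ((hCFIN C h0).2.2.2.1 hF).1.subset fun i hi => hi.1
    have hfinD : {x ∈ D.I | D.lab x = l}.Finite :=
      ((hCFIN D hD).2.2.2.1 hDF).1.subset fun i hi => hi.1
    unfold Conf.cnt red_c
    rw [hset l, ncard_union_eq _ hfin (hfinD.image _), ncard_image_of_injective _ hinj]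
    rw [disjoint_left]
    rintro i ⟨hi, hne, -⟩ ⟨x, ⟨hx, -⟩, rfl⟩
    exact absurd (hfar _ hi hne) (not_lt.2 (hnear x hx).le)
  · unfold Conf.FreeBd
    rw [hset Lab.O]
    rw [biUnion_union]
    congr 1
    · unfold red_R
      refine iUnion₂_congr fun i hi => ?_
      rw [((hag' i (hfar i hi.1 hi.2.1)).2 hi.1).1]
    · rw [image_iUnion₂, biUnion_image]
      refine iUnion₂_congr fun x hx => ?_
      rw [red_a_sph hr, (hrad x hx.1).1]
      push_cast
      congr 1
      ring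

/-- the slot of the new content can be cut out and replaced -/
theorem red_gen (hCFIN : St_CFIN) (hCCONG : St_CCONG) (hREF : St_REF) (hCUT : St_CUT)
    (hPASTE : St_PASTE) {X : Type} [TopologicalSpace X] [T2Space X] {C : Conf} (h0 : C.Ok)
    (hF : C.F = ∅) {j : ℝ} (hj : j ∈ C.I) {D : Conf} (hD : D.Ok) (hDF : D.F = ∅)
    (hDO : ∀ x ∈ D.I, D.lab x = Lab.O) {C' : Conf} (hC' : C'.Ok) (hF' : C'.F = ∅)
    (hS' : C'.Slot j (C.rad j))
    (hag' : ∀ i, C.rad j < |i - j| → ((i ∈ C'.I ↔ i ∈ C.I) ∧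
      (i ∈ C.I → C'.rad i = C.rad i ∧ C'.lab i = C.lab i)))
    (hDom : (C'.slot j (C.rad j)).Dom = D.Dom) (hRel : (C'.slot j (C.rad j)).Rel = D.Rel)
    (hFree : C'.FreeBd = red_R C j ∪ red_a j (C.rad j) '' D.FreeBd)
    {L : Set X} {q u : ℂ → X} (hq : Pres C' L q) (hu : ∀ z ∈ UC, q z = u z)
    {q₁ : ℂ → X} (hq₁ : q₁ = fun z => q (red_a j (C.rad j) z))
    {L₀ B : Set X} (hL₀ : L₀ = q '' (C'.Dom \ ball (j : ℂ) (C.rad j)))
    (hB : B = q₁ '' D.FreeBd) :
    L = L₀ ∪ q₁ '' D.Dom ∧ L₀ ∩ q₁ '' D.Dom = q₁ '' UC ∧ IsCompact L₀ ∧ ContinuousOn q₁ D.Dom ∧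
      InjOn q₁ D.Dom ∧ Disjoint B L₀ ∧ (q '' C'.FreeBd) \ B ⊆ L₀ ∧
      Disjoint (q '' C'.FreeBd) (q₁ '' UC) ∧
      ∀ (t₁ p₁ o₁ : ℕ) (W' Bd' : Set X), FinPres t₁ p₁ o₁ W' Bd' q₁ → W' ∩ L₀ ⊆ q₁ '' UC →
        FinPres (red_c C j Lab.T + t₁) (red_c C j Lab.P + p₁) (red_c C j Lab.O + o₁) (L₀ ∪ W')
          (((q '' C'.FreeBd) \ B) ∪ Bd') u := by
  have hr : 0 < C.rad j := h0.pos j hj
  have hP' : PresOn C'.Dom C'.Rel L q := hq
  obtain ⟨hcut1, hcut2, -⟩ := hCUT X C' hC' L q hq j (C.rad j) hS'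
  have hcut1' : PresOn (C'.slot j (C.rad j)).Dom (C'.slot j (C.rad j)).Rel
    (q '' (C'.Dom ∩ closedBall (j : ℂ) (C.rad j))) (fun z => q (j + C.rad j * z)) := hcut1
  rw [hDom, hRel] at hcut1'
  have hqq : (fun z : ℂ => q (j + C.rad j * z)) = q₁ := by
    rw [hq₁]
    rfl
  rw [hqq] at hcut1'
  have hsph : red_a j (C.rad j) '' UC = sphere (j : ℂ) (C.rad j) := by
    have := red_a_sph (j := j) hr 0 1
    rw [mul_zero, add_zero, mul_one] at this
    exact this
  have hqU : q₁ '' UC = q '' sphere (j : ℂ) (C.rad j) := by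
    rw [← hsph, image_image, hq₁]
  have hW : q₁ '' D.Dom = q '' (C'.Dom ∩ closedBall (j : ℂ) (C.rad j)) := hcut1'.image
  have hinter : L₀ ∩ q₁ '' D.Dom = q₁ '' UC := by
    rw [hW, hqU, ← hcut2, hL₀, inter_comm]
  have hcomp : IsCompact C'.Dom := ((hCFIN C' hC').2.2.2.1 hF').2
  have hL : L = q '' C'.Dom := hP'.image.symm
  have hLc : IsCompact L := by
    rw [hL]
    exact hcomp.image_of_continuousOn hP'.cont
  have hL₀c : IsCompact L₀ := by
    rw [hL₀]
    exact (hcomp.diff isOpen_ball).image_of_continuousOn (hP'.cont.mono sdiff_subset)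
  have hUL : L = L₀ ∪ q₁ '' D.Dom := by
    rw [hW, hL₀, hL, ← image_union]
    congr 1
    ext z
    constructor
    · intro hz
      by_cases hb : z ∈ ball (j : ℂ) (C.rad j)
      · exact Or.inr ⟨hz, ball_subset_closedBall hb⟩
      · exact Or.inl ⟨hz, hb⟩
    · rintro (hz | hz)
      · exact hz.1
      · exact hz.1
  have hDinj : InjOn q₁ D.Dom := by
    intro x hx y hy hxy
    have h1 := (hcut1'.rel x hx y hy).1 hxy
    rcases h1 with h1 | ⟨i, hi, h1 | h1⟩
    · exact h1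
    · rw [hDO i hi] at h1
      exact absurd h1.1 (by simp)
    · rw [hDO i hi] at h1
      exact absurd h1.1 (by simp)
  have hUD : UC ⊆ D.Dom := (hCFIN D hD).2.2.2.2.1
  have hBL : Disjoint B L₀ := by
    rw [disjoint_left, hB]
    rintro _ ⟨z, hz, rfl⟩ h1
    have hzD := red_free_dom hD hDF hz
    have h2 : q₁ z ∈ q₁ '' UC := by
      rw [← hinter]
      exact ⟨h1, ⟨z, hzD, rfl⟩⟩
    obtain ⟨w, hw, hwz⟩ := h2
    have h3 := hDinj (hUD hw) hzD hwz
    obtain ⟨i, -, -, -, h4⟩ := red_free_norm hD hz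
    rw [← h3] at h4
    have h5 : ‖w‖ = 1 := by simpa using hw
    linarith
  have hqF : q '' C'.FreeBd = q '' red_R C j ∪ B := by
    rw [hFree, image_union, image_image, hB, hq₁]
  have hR1 : red_R C j ⊆ C'.Dom := by
    refine Subset.trans ?_ (red_free_dom hC' hF')
    rw [hFree]
    exact subset_union_left
  have hR2 : ∀ z ∈ red_R C j, z ∉ ball (j : ℂ) (C.rad j) := by
    intro z hz hb
    unfold red_R at hz
    simp only [mem_iUnion] at hz
    obtain ⟨i, ⟨hi, hne, -⟩, hz⟩ := hz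
    have h1 : ‖z - i‖ = C.rad i / 2 := mem_sphere_iff_norm.1 hz
    have h2 : ‖z - j‖ < C.rad j := mem_ball_iff_norm.1 hb
    have h3 := red_norm_ge z i j
    have h4 := h0.apart i hi j hj hne
    have h5 := h0.pos i hi
    linarith
  have hRL : q '' red_R C j ⊆ L₀ := by
    rw [hL₀]
    exact image_mono fun z hz => ⟨hR1 hz, hR2 z hz⟩
  have hdiff : (q '' C'.FreeBd) \ B = q '' red_R C j := by
    rw [hqF, union_sdiff_right]
    exact (hBL.symm.mono_left hRL).sdiff_eq_left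
  refine ⟨hUL, hinter, hL₀c, hcut1'.cont, hDinj, hBL, hdiff ▸ hRL, ?_, ?_⟩
  · rw [disjoint_left, hqU]
    rintro _ ⟨x, hx, rfl⟩ ⟨y, hy, hxy⟩
    have hy' : ‖y - j‖ = C.rad j := mem_sphere_iff_norm.1 hy
    have h1 := (hP'.rel x (red_free_dom hC' hF' hx) y (red_slot_dom hC' hF' hS' hy')).1 hxy.symm
    have h2 := red_slot_rel hCFIN hC' hS' hy' h1
    obtain ⟨i, hi, -, h3, -⟩ := red_free_norm hC' hx
    rw [h2] at h3
    refine red_slot hC' hS' hy' hi ?_
    have := hC'.pos i hi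
    rw [h3]
    linarith
  · rintro t₁ p₁ o₁ W' Bd' ⟨C₁, hC₁, hF₁, ht, hp, ho, qW, hqW, hqWu, hBd⟩ hWL
    obtain ⟨E, hE, hEF, hES, -, hEag, -, hEDom, hERel, hEcnt, hEFree⟩ :=
      red_ref hCFIN hCCONG hREF h0 hF hj hC₁ hF₁
    have hpres : Pres (E.slot j (C.rad j)) W' qW := by
      show PresOn (E.slot j (C.rad j)).Dom (E.slot j (C.rad j)).Rel W' qW
      rw [hEDom, hERel]
      exact hqW
    have hag : ∀ i, (∀ k ∈ ({j} : Set ℝ), C.rad j < |i - k|) → ((i ∈ E.I ↔ i ∈ C'.I) ∧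
        (i ∈ C'.I → E.rad i = C'.rad i ∧ E.lab i = C'.lab i)) := by
      intro i hi
      have h1 := hi j rfl
      have h2 := hag' i h1
      have h3 := hEag i h1
      refine ⟨h3.1.trans h2.1.symm, fun h4 => ?_⟩
      have h5 := h2.1.1 h4
      exact ⟨(h3.2 h5).1.trans (h2.2 h5).1.symm, (h3.2 h5).2.trans (h2.2 h5).2.symm⟩
    obtain ⟨Q, hQ1, hQ2, hQ3⟩ := hPASTE X C' E hC' hE (hEF.trans hF'.symm) {j} (fun _ => C.rad j)
      (by rw [hF', empty_union]; exact isCompact_singleton)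
      (by
        intro k hk
        rw [mem_singleton_iff.1 hk]
        exact ⟨hS', hES⟩)
      (by
        intro k hk l hl hkl
        exact absurd (hk.trans hl.symm) hkl)
      hag L q hLc.isClosed hq (fun _ => W') (fun _ => qW)
      (by
        intro k hk
        rw [mem_singleton_iff.1 hk]
        exact hpres)
      (by
        intro k hk z hz
        rw [mem_singleton_iff.1 hk, hqWu z hz, hq₁]
        rfl)
      (by
        intro k hk
        rw [biUnion_singleton, mem_singleton_iff.1 hk, ← hL₀, ← hqU]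
        exact hWL)
      (by
        intro k hk l hl hkl
        exact absurd (hk.trans hl.symm) hkl)
      (fun A _ => (finite_singleton j).subset fun k hk => hk.1)
    simp only [biUnion_singleton] at hQ1
    rw [← hL₀] at hQ1
    have hUC' : UC ⊆ C'.Dom := (hCFIN C' hC').2.2.2.2.1
    have hQq : ∀ z ∈ C'.Dom, z ∉ ball (j : ℂ) (C.rad j) → Q z = q z := by
      intro z hz hzb
      refine hQ2 z hz fun k hk => ?_
      rw [mem_singleton_iff.1 hk]
      exact hzb
    refine ⟨E, hE, hEF, by rw [hEcnt, ht], by rw [hEcnt, hp], by rw [hEcnt, ho], Q, hQ1, ?_, ?_⟩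
    · intro z hz
      rw [hQq z (hUC' hz), hu z hz]
      intro hb
      have h1 : ‖z‖ = 1 := by simpa using hz
      have h2 : ‖z - j‖ < C.rad j := mem_ball_iff_norm.1 hb
      have h3 := red_norm_le z j 0
      simp only [Complex.ofReal_zero, sub_zero] at h3
      have h4 := h0.inside j hj
      linarith
    · rw [hdiff, hEFree, image_union, image_image, hBd]
      congr 1
      · exact image_congr fun z hz => (hQq z (hR1 hz) (hR2 z hz)).symm
      · refine image_congr fun z hz => ?_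
        have h1 := red_free_dom hC₁ hF₁ hz
        have h2 := hQ3 j rfl z (by rw [hEDom]; exact h1)
        exact h2.symm

theorem red_c_T {C : Conf} {i : ℝ} (hl : C.lab i = Lab.O) {l : Lab} (hne : l ≠ Lab.O) :
    red_c C i l = C.cnt l := by
  unfold red_c Conf.cnt
  congr 1
  ext k
  constructor
  · rintro ⟨h1, -, h2⟩
    exact ⟨h1, h2⟩
  · rintro ⟨h1, h2⟩
    refine ⟨h1, ?_, h2⟩
    rintro rfl
    exact hne (h2.symm.trans hl)

theorem red_c_O {C : Conf} (hfin : C.I.Finite) {i : ℝ} (hi : i ∈ C.I) (hl : C.lab i = Lab.O) :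
    red_c C i Lab.O + 1 = C.cnt Lab.O := by
  unfold red_c Conf.cnt
  have h : {k ∈ C.I | k ≠ i ∧ C.lab k = Lab.O} = {k ∈ C.I | C.lab k = Lab.O} \ {i} := by
    ext k
    constructor
    · rintro ⟨h1, h2, h3⟩
      exact ⟨⟨h1, h3⟩, h2⟩
    · rintro ⟨⟨h1, h3⟩, h2⟩
      exact ⟨h1, h2, h3⟩
  rw [h]
  exact ncard_sdiff_singleton_add_one (show i ∈ {k ∈ C.I | C.lab k = Lab.O} from ⟨hi, hl⟩)
    (hfin.subset fun k hk => hk.1)

theorem red_single_ok : (single (1 / 2) Lab.O).Ok where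
  closed := isClosed_empty
  compact := by
    show IsCompact ((∅ : Set ℝ) ∪ {0})
    rw [empty_union]
    exact isCompact_singleton
  td := isTotallyDisconnected_empty
  small := fun x hx => absurd hx (notMem_empty x)
  pos := fun i _ => by
    show (0 : ℝ) < 1 / 2
    norm_num
  inside := fun i hi => by
    show |i| + 1 / 2 < 1
    rw [show i = 0 from hi, abs_zero]
    norm_num
  away := fun i _ x hx => absurd hx (notMem_empty x)
  apart := fun i hi k hk h => absurd ((show i = 0 from hi).trans (show k = 0 from hk).symm) h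

theorem red_pants_ok : pantsC.Ok where
  closed := isClosed_empty
  compact := by
    show IsCompact ((∅ : Set ℝ) ∪ {-(1 / 4), 1 / 4})
    rw [empty_union]
    exact (toFinite _).isCompact
  td := isTotallyDisconnected_empty
  small := fun x hx => absurd hx (notMem_empty x)
  pos := fun i _ => by
    show (0 : ℝ) < 1 / 8
    norm_num
  inside := fun i hi => by
    show |i| + 1 / 8 < 1
    rcases hi with hi | hi
    · rw [hi, abs_neg, abs_of_pos (by norm_num)]
      norm_num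
    · rw [mem_singleton_iff.1 hi, abs_of_pos (by norm_num)]
      norm_num
  away := fun i _ x hx => absurd hx (notMem_empty x)
  apart := fun i hi k hk h => by
    show (1 : ℝ) / 8 + 1 / 8 < |i - k|
    rcases hi with hi | hi <;> rcases hk with hk | hk
    · exact absurd (hi.trans hk.symm) h
    · rw [hi, mem_singleton_iff.1 hk]
      rw [abs_of_neg (by norm_num)]
      norm_num
    · rw [hk, mem_singleton_iff.1 hi]
      rw [abs_of_pos (by norm_num)]
      norm_num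
    · exact absurd (hi.trans hk.symm) h

theorem red_single_dom : (single (1 / 2) Lab.O).Dom = Ann := by
  ext z
  have h1 : (⋃ i ∈ (single (1 / 2) Lab.O).I, (single (1 / 2) Lab.O).holes i) =
      ball ((0 : ℝ) : ℂ) (1 / 2 / 2) := by
    show (⋃ i ∈ ({0} : Set ℝ), (single (1 / 2) Lab.O).holes i) = _
    rw [biUnion_singleton]
    rfl
  unfold Conf.Dom
  rw [h1]
  have h2 : (single (1 / 2) Lab.O).F = ∅ := rfl
  rw [h2, image_empty, empty_union, Set.mem_sdiff, mem_closedBall_zero_iff, Complex.ofReal_zero,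
    mem_ball_zero_iff, not_lt]
  show _ ↔ (1 / 4 ≤ ‖z‖ ∧ ‖z‖ ≤ 1)
  norm_num
  exact and_comm

theorem red_single_free : (single (1 / 2) Lab.O).FreeBd = sphere ((0 : ℝ) : ℂ) (1 / 2 / 2) := by
  have h : {i ∈ (single (1 / 2) Lab.O).I | (single (1 / 2) Lab.O).lab i = Lab.O} = {0} := by
    ext k
    constructor
    · rintro ⟨h1, -⟩
      exact h1
    · intro h1
      exact ⟨h1, rfl⟩
  unfold Conf.FreeBd
  rw [h, biUnion_singleton]
  rfl

theorem red_pants_free : pantsC.FreeBd = sphere ((-(1 / 4) : ℝ) : ℂ) (1 / 8 / 2) ∪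
    sphere ((1 / 4 : ℝ) : ℂ) (1 / 8 / 2) := by
  have h : {i ∈ pantsC.I | pantsC.lab i = Lab.O} = {-(1 / 4), 1 / 4} := by
    ext k
    constructor
    · rintro ⟨h1, -⟩
      exact h1
    · intro h1
      exact ⟨h1, rfl⟩
  unfold Conf.FreeBd
  rw [h, biUnion_insert, biUnion_singleton]
  rfl

theorem red_single_cnt : (single (1 / 2) Lab.O).cnt Lab.O = 1 ∧
    ∀ l, l ≠ Lab.O → (single (1 / 2) Lab.O).cnt l = 0 := by
  constructor
  · have h : {i ∈ (single (1 / 2) Lab.O).I | (single (1 / 2) Lab.O).lab i = Lab.O} = {0} := by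
      ext k
      constructor
      · rintro ⟨h1, -⟩
        exact h1
      · intro h1
        exact ⟨h1, rfl⟩
    unfold Conf.cnt
    rw [h, ncard_singleton]
  · intro l hl
    have h : {i ∈ (single (1 / 2) Lab.O).I | (single (1 / 2) Lab.O).lab i = l} = ∅ := by
      ext k
      constructor
      · rintro ⟨-, h1⟩
        exact absurd h1.symm hl
      · intro h1
        exact absurd h1 (notMem_empty k)
    unfold Conf.cnt
    rw [h, ncard_empty]

theorem red_pants_cnt : pantsC.cnt Lab.O = 2 ∧ ∀ l, l ≠ Lab.O → pantsC.cnt l = 0 := by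
  constructor
  · have h : {i ∈ pantsC.I | pantsC.lab i = Lab.O} = {-(1 / 4), 1 / 4} := by
      ext k
      constructor
      · rintro ⟨h1, -⟩
        exact h1
      · intro h1
        exact ⟨h1, rfl⟩
    unfold Conf.cnt
    rw [h, ncard_pair (by norm_num)]
  · intro l hl
    have h : {i ∈ pantsC.I | pantsC.lab i = l} = ∅ := by
      ext k
      constructor
      · rintro ⟨-, h1⟩
        exact absurd h1.symm hl
      · intro h1
        exact absurd h1 (notMem_empty k)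
    unfold Conf.cnt
    rw [h, ncard_empty]

/-- a circle is carried to a circle -/
theorem red_circ {X : Type} {C C' : Conf} {q : ℂ → X} {Φ : ℂ ≃ₜ ℂ} {i i' j r x ρ : ℝ}
    (hi : 0 < C.rad i)
    (hΦ : ∀ z ∈ closedBall (i : ℂ) (C.rad i),
      Φ z = (i' : ℝ) + ((C'.rad i' / C.rad i : ℝ) : ℂ) * (z - i))
    (hi' : i' = j + r * x) (hr : C'.rad i' = r * ρ) :
    ∀ z ∈ UC, q (Φ.symm (red_a j r (x + (ρ / 2 : ℝ) * z))) = q (i + (C.rad i / 2 : ℝ) * z) := by
  intro z hz
  have h1 : ‖z‖ = 1 := by simpa using hz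
  have h2 := hΦ ((i : ℂ) + (C.rad i / 2 : ℝ) * z) (by
    rw [mem_closedBall_iff_norm, add_sub_cancel_left, norm_mul, h1, Complex.norm_real,
      Real.norm_of_nonneg (by linarith)]
    linarith)
  have h3 : red_a j r (x + (ρ / 2 : ℝ) * z) = Φ ((i : ℂ) + (C.rad i / 2 : ℝ) * z) := by
    rw [h2, add_sub_cancel_left, hr, hi']
    unfold red_a
    have h4 : (C.rad i : ℂ) ≠ 0 := by exact_mod_cast hi.ne'
    push_cast
    field_simp
    ring
  rw [h3, Homeomorph.symm_apply_apply]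

theorem red_circ_image {X : Type} {q q₁ : ℂ → X} {i x ρ σ : ℝ} (hρ : 0 < ρ) (hσ : 0 < σ)
    (h : ∀ z ∈ UC, q₁ (x + (ρ : ℝ) * z) = q (i + (σ : ℝ) * z)) :
    q₁ '' sphere (x : ℂ) ρ = q '' sphere (i : ℂ) σ := by
  have e1 : red_a x ρ '' UC = sphere (x : ℂ) ρ := by
    have := red_a_sph (j := x) hρ 0 1
    rw [mul_zero, add_zero, mul_one] at this
    exact this
  have e2 : red_a i σ '' UC = sphere (i : ℂ) σ := by
    have := red_a_sph (j := i) hσ 0 1
    rw [mul_zero, add_zero, mul_one] at this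
    exact this
  rw [← e1, ← e2, image_image, image_image]
  exact image_congr fun z hz => h z hz

theorem red_one (hCFIN : St_CFIN) (hCCONG : St_CCONG) (hREF : St_REF)
    (hFREE : St_FREE) (hCUT : St_CUT) (hPASTE : St_PASTE) (X : Type) [TopologicalSpace X]
    [T2Space X] (C : Conf) (L : Set X) (q u : ℂ → X) (hC : C.Ok)
    (hF : C.F = ∅) (hq : Pres C L q) (hu : ∀ z ∈ UC, q z = u z) (i : ℝ) (hi : i ∈ C.I)
    (hl : C.lab i = Lab.O) :
    ∃ (L₀ W B₁ : Set X) (u₁ q₁ : ℂ → X), L = L₀ ∪ W ∧ L₀ ∩ W = u₁ '' UC ∧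
      IsCompact L₀ ∧ ContinuousOn q₁ Ann ∧ InjOn q₁ Ann ∧ q₁ '' Ann = W ∧
      (∀ z ∈ UC, q₁ z = u₁ z) ∧ (∀ z ∈ UC, q₁ (z / 4) = q (i + (C.rad i / 2 : ℝ) * z)) ∧
      B₁ = q '' sphere (i : ℂ) (C.rad i / 2) ∧ Disjoint B₁ L₀ ∧
      (q '' C.FreeBd) \ B₁ ⊆ L₀ ∧ Disjoint (q '' C.FreeBd) (u₁ '' UC) ∧
      ∀ (t₁ p₁ o₁ : ℕ) (W' Bd' : Set X), FinPres t₁ p₁ o₁ W' Bd' u₁ → W' ∩ L₀ ⊆ u₁ '' UC →
        FinPres (C.cnt Lab.T + t₁) (C.cnt Lab.P + p₁) (C.cnt Lab.O - 1 + o₁) (L₀ ∪ W')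
          (((q '' C.FreeBd) \ B₁) ∪ Bd') u := by
  have hfin : C.I.Finite := ((hCFIN C hC).2.2.2.1 hF).1
  have hri := hC.pos i hi
  obtain ⟨C', hC', hF', hS', hI', hag', hrad, hDom, hRel, hcnt, hFree⟩ :=
    red_ref hCFIN hCCONG hREF hC hF hi red_single_ok rfl
  have cT := red_c_T (C := C) hl (l := Lab.T) (by simp)
  have cP := red_c_T (C := C) hl (l := Lab.P) (by simp)
  have cO := red_c_O hfin hi hl
  have hcnt' : ∀ l, C'.cnt l = C.cnt l := by
    intro l
    rw [hcnt l]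
    cases l with
    | T => rw [red_single_cnt.2 _ (by simp), add_zero, cT]
    | P => rw [red_single_cnt.2 _ (by simp), add_zero, cP]
    | O => rw [red_single_cnt.1, cO]
  have h0I : (0 : ℝ) ∈ (single (1 / 2) Lab.O).I := rfl
  have hi'I : i + C.rad i * 0 ∈ C'.I := by
    rw [hI']
    exact Or.inr ⟨0, h0I, rfl⟩
  obtain ⟨Φ, Φ1, Φ2, -, Φ4, Φ5⟩ := hFREE.2 C C' hC hC' hF hF' hcnt' 1 (fun _ => i)
    (fun _ => i + C.rad i * 0) (fun a b _ => Subsingleton.elim a b)
    (fun a b _ => Subsingleton.elim a b) (fun _ => ⟨hi, hi'I, by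
      rw [(hrad 0 h0I).2, hl]
      rfl⟩)
  have hq' := Φ5 X L q hq
  have hΦs : ∀ z ∈ UC, Φ.symm z = z := by
    intro z hz
    rw [Homeomorph.symm_apply_eq]
    refine (Φ1 z ?_).symm
    intro h
    have h1 : ‖z‖ = 1 := by simpa using hz
    have h2 : ‖z‖ < 1 := by simpa using h
    linarith
  have hu' : ∀ z ∈ UC, (fun z => q (Φ.symm z)) z = u z := by
    intro z hz
    show q (Φ.symm z) = u z
    rw [hΦs z hz, hu z hz]
  have hFB : (fun z => q (Φ.symm z)) '' C'.FreeBd = q '' C.FreeBd := by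
    rw [← Φ4, image_image]
    exact image_congr fun z _ => by
      show q (Φ.symm (Φ z)) = q z
      rw [Homeomorph.symm_apply_apply]
  have hrho : (single (1 / 2) Lab.O).rad 0 = 1 / 2 := rfl
  have hcirc := red_circ (C := C) (C' := C') (q := q) (Φ := Φ) (i := i) (i' := i + C.rad i * 0)
    (j := i) (r := C.rad i) (x := 0) (ρ := 1 / 2) hri (Φ2 0) rfl (hrad 0 h0I).1
  have hB : (fun z => q (Φ.symm (red_a i (C.rad i) z))) '' (single (1 / 2) Lab.O).FreeBd =
      q '' sphere (i : ℂ) (C.rad i / 2) := by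
    rw [red_single_free]
    exact red_circ_image (by norm_num) (by linarith) hcirc
  obtain ⟨g1, g2, g3, g4, g5, g6, g7, g8, g9⟩ := red_gen hCFIN hCCONG hREF hCUT hPASTE hC hF hi
    red_single_ok rfl (fun _ _ => rfl) hC' hF' hS' hag' hDom hRel hFree hq' hu' rfl rfl hB.symm
  rw [red_single_dom] at g1 g2 g4 g5
  rw [hFB] at g7 g8 g9
  refine ⟨_, _, _, _, _, g1, g2, g3, g4, g5, rfl, fun _ _ => rfl, ?_, rfl, g6, g7, g8, ?_⟩
  · intro z hz
    have h1 := hcirc z hz
    show q (Φ.symm (red_a i (C.rad i) (z / 4))) = _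
    rw [← h1]
    congr 3
    push_cast
    ring
  · intro t₁ p₁ o₁ W' Bd' h1 h2
    have h3 := g9 t₁ p₁ o₁ W' Bd' h1 h2
    rw [cT, cP, show red_c C i Lab.O = C.cnt Lab.O - 1 by omega] at h3
    exact h3

theorem red_two (hCFIN : St_CFIN) (hCCONG : St_CCONG) (hREF : St_REF)
    (hFREE : St_FREE) (hCUT : St_CUT) (hPASTE : St_PASTE) (X : Type) [TopologicalSpace X]
    [T2Space X] (C : Conf) (L : Set X) (q u : ℂ → X) (hC : C.Ok)
    (hF : C.F = ∅) (hq : Pres C L q) (hu : ∀ z ∈ UC, q z = u z) (i : ℝ) (hi : i ∈ C.I) (j : ℝ)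
    (hj : j ∈ C.I) (hij : i ≠ j) (hl : C.lab i = Lab.O) (hlj : C.lab j = Lab.O) :
    ∃ (L₀ W B₁ B₂ : Set X) (u₁ q₁ : ℂ → X), L = L₀ ∪ W ∧ L₀ ∩ W = u₁ '' UC ∧
      IsCompact L₀ ∧ ContinuousOn q₁ pantsC.Dom ∧ InjOn q₁ pantsC.Dom ∧ q₁ '' pantsC.Dom = W ∧
      (∀ z ∈ UC, q₁ z = u₁ z) ∧
      (∀ z ∈ UC, q₁ (-(1 / 4) + z / 16) = q (i + (C.rad i / 2 : ℝ) * z)) ∧
      (∀ z ∈ UC, q₁ (1 / 4 + z / 16) = q (j + (C.rad j / 2 : ℝ) * z)) ∧
      B₁ = q '' sphere (i : ℂ) (C.rad i / 2) ∧ B₂ = q '' sphere (j : ℂ) (C.rad j / 2) ∧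
      Disjoint (B₁ ∪ B₂) L₀ ∧
      (q '' C.FreeBd) \ (B₁ ∪ B₂) ⊆ L₀ ∧ Disjoint (q '' C.FreeBd) (u₁ '' UC) ∧
      ∀ (t₁ p₁ o₁ : ℕ) (W' Bd' : Set X), FinPres t₁ p₁ o₁ W' Bd' u₁ → W' ∩ L₀ ⊆ u₁ '' UC →
        FinPres (C.cnt Lab.T + t₁) (C.cnt Lab.P + p₁) (C.cnt Lab.O - 2 + o₁) (L₀ ∪ W')
          (((q '' C.FreeBd) \ (B₁ ∪ B₂)) ∪ Bd') u := by
  have hfin : C.I.Finite := ((hCFIN C hC).2.2.2.1 hF).1
  have hri := hC.pos i hi
  have hrj := hC.pos j hj
  set E : Conf := { C with I := C.I \ {j} } with hEdef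
  have hEI : E.I = C.I \ {j} := rfl
  have hEsub : ∀ k ∈ E.I, k ∈ C.I := fun k hk => hk.1
  have hErad : E.rad = C.rad := rfl
  have hElab : E.lab = C.lab := rfl
  have hEF : E.F = ∅ := hF
  have hE : E.Ok :=
    { closed := hC.closed
      compact := by
        rw [hEF, empty_union, hEI]
        exact (hfin.subset sdiff_subset).isCompact
      td := hC.td
      small := hC.small
      pos := fun k hk => hC.pos k (hEsub k hk)
      inside := fun k hk => hC.inside k (hEsub k hk)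
      away := fun k hk => hC.away k (hEsub k hk)
      apart := fun k hk m hm => hC.apart k (hEsub k hk) m (hEsub m hm) }
  have hEi : i ∈ E.I := ⟨hi, hij⟩
  obtain ⟨C', hC', hF', hS', hI', hag', hrad, hDom, hRel, hcnt, hFree⟩ :=
    red_ref hCFIN hCCONG hREF hE hEF hEi red_pants_ok rfl
  rw [hErad] at hS' hI' hag' hrad hDom hRel hFree
  have hEcnt : ∀ l, E.cnt l = red_c C j l := by
    intro l
    unfold Conf.cnt red_c
    congr 1
    ext k
    constructor
    · rintro ⟨⟨h1, h2⟩, h3⟩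
      exact ⟨h1, h2, h3⟩
    · rintro ⟨h1, h2, h3⟩
      exact ⟨⟨h1, h2⟩, h3⟩
  have cT : red_c E i Lab.T = C.cnt Lab.T := by
    rw [red_c_T (C := E) hl (by simp), hEcnt, red_c_T hlj (by simp)]
  have cP : red_c E i Lab.P = C.cnt Lab.P := by
    rw [red_c_T (C := E) hl (by simp), hEcnt, red_c_T hlj (by simp)]
  have cO : red_c E i Lab.O + 2 = C.cnt Lab.O := by
    have h1 := red_c_O (C := E) (hfin.subset sdiff_subset) hEi hl
    have h2 := red_c_O hfin hj hlj
    rw [hEcnt] at h1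
    omega
  have hcnt' : ∀ l, C'.cnt l = C.cnt l := by
    intro l
    rw [hcnt l]
    cases l with
    | T => rw [red_pants_cnt.2 _ (by simp), add_zero, cT]
    | P => rw [red_pants_cnt.2 _ (by simp), add_zero, cP]
    | O => rw [red_pants_cnt.1, cO]
  have h0I : (-(1 / 4) : ℝ) ∈ pantsC.I := Or.inl rfl
  have h1I : (1 / 4 : ℝ) ∈ pantsC.I := Or.inr rfl
  have hi'I : i + C.rad i * (-(1 / 4)) ∈ C'.I := by
    rw [hI']
    exact Or.inr ⟨_, h0I, rfl⟩
  have hj'I : i + C.rad i * (1 / 4) ∈ C'.I := by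
    rw [hI']
    exact Or.inr ⟨_, h1I, rfl⟩
  obtain ⟨Φ, Φ1, Φ2, -, Φ4, Φ5⟩ := hFREE.2 C C' hC hC' hF hF' hcnt' 2 ![i, j]
    ![i + C.rad i * (-(1 / 4)), i + C.rad i * (1 / 4)] (by
      intro a b h
      fin_cases a <;> fin_cases b
      · rfl
      · exact absurd h hij
      · exact absurd h.symm hij
      · rfl) (by
      have hne : i + C.rad i * (-(1 / 4)) ≠ i + C.rad i * (1 / 4) := by
        intro h
        linarith
      intro a b h
      fin_cases a <;> fin_cases b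
      · rfl
      · exact absurd h hne
      · exact absurd h.symm hne
      · rfl) (by
      intro k
      fin_cases k
      · refine ⟨hi, hi'I, ?_⟩
        show C'.lab (i + C.rad i * (-(1 / 4))) = C.lab i
        rw [(hrad _ h0I).2, hl]
        rfl
      · refine ⟨hj, hj'I, ?_⟩
        show C'.lab (i + C.rad i * (1 / 4)) = C.lab j
        rw [(hrad _ h1I).2, hlj]
        rfl)
  have hq' := Φ5 X L q hq
  have hΦs : ∀ z ∈ UC, Φ.symm z = z := by
    intro z hz
    rw [Homeomorph.symm_apply_eq]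
    refine (Φ1 z ?_).symm
    intro h
    have h1 : ‖z‖ = 1 := by simpa using hz
    have h2 : ‖z‖ < 1 := by simpa using h
    linarith
  have hu' : ∀ z ∈ UC, (fun z => q (Φ.symm z)) z = u z := by
    intro z hz
    show q (Φ.symm z) = u z
    rw [hΦs z hz, hu z hz]
  have hFB : (fun z => q (Φ.symm z)) '' C'.FreeBd = q '' C.FreeBd := by
    rw [← Φ4, image_image]
    exact image_congr fun z _ => by
      show q (Φ.symm (Φ z)) = q z
      rw [Homeomorph.symm_apply_apply]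
  have hcirc0 := red_circ (C := C) (C' := C') (q := q) (Φ := Φ) (i := i)
    (i' := i + C.rad i * (-(1 / 4))) (j := i) (r := C.rad i) (x := -(1 / 4)) (ρ := 1 / 8) hri
    (Φ2 0) rfl (hrad _ h0I).1
  have hcirc1 := red_circ (C := C) (C' := C') (q := q) (Φ := Φ) (i := j)
    (i' := i + C.rad i * (1 / 4)) (j := i) (r := C.rad i) (x := 1 / 4) (ρ := 1 / 8) hrj
    (Φ2 1) rfl (hrad _ h1I).1
  have hB : (fun z => q (Φ.symm (red_a i (C.rad i) z))) '' pantsC.FreeBd =
      q '' sphere (i : ℂ) (C.rad i / 2) ∪ q '' sphere (j : ℂ) (C.rad j / 2) := by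
    rw [red_pants_free, image_union]
    congr 1
    · exact red_circ_image (by norm_num) (by linarith) hcirc0
    · exact red_circ_image (by norm_num) (by linarith) hcirc1
  obtain ⟨g1, g2, g3, g4, g5, g6, g7, g8, g9⟩ := red_gen hCFIN hCCONG hREF hCUT hPASTE hE hEF hEi
    red_pants_ok rfl (fun _ _ => rfl) hC' hF' hS' hag' hDom hRel hFree hq' hu' rfl rfl hB.symm
  rw [hFB] at g7 g8 g9
  refine ⟨_, _, _, _, _, _, g1, g2, g3, g4, g5, rfl, fun _ _ => rfl, ?_, ?_, rfl, rfl, g6, g7, g8,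
    ?_⟩
  · intro z hz
    have h1 := hcirc0 z hz
    show q (Φ.symm (red_a i (C.rad i) (-(1 / 4) + z / 16))) = _
    rw [← h1]
    congr 3
    push_cast
    ring
  · intro z hz
    have h1 := hcirc1 z hz
    show q (Φ.symm (red_a i (C.rad i) (1 / 4 + z / 16))) = _
    rw [← h1]
    congr 3
    push_cast
    ring
  · intro t₁ p₁ o₁ W' Bd' h1 h2
    have h3 := g9 t₁ p₁ o₁ W' Bd' h1 h2
    rw [cT, cP, show red_c E i Lab.O = C.cnt Lab.O - 2 by omega] at h3
    exact h3

/-- a free hole, or two of them, in a slot of its own -/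
theorem thm_RED (hCFIN : St_CFIN) (hCCONG : St_CCONG) (hREF : St_REF) (_hADJ : St_ADJ)
    (hFREE : St_FREE) (hCUT : St_CUT) (hPASTE : St_PASTE) : St_RED := by
  constructor
  · intro X _ _ C L q u hC hF hq hu i hi hl
    exact red_one hCFIN hCCONG hREF hFREE hCUT hPASTE X C L q u hC hF hq hu i hi hl
  · intro X _ _ C L q u hC hF hq hu i hi j hj hij hl hlj
    exact red_two hCFIN hCCONG hREF hFREE hCUT hPASTE X C L q u hC hF hq hu i hi j hj hij hl hlj

end Pool.Agent.SRP
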