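import Pool.Agent.SRP.StD
import Pool.Agent.SRP.RED

set_option autoImplicit false

/-! # SRP EQV: classification of finite configurations without free holes. -/

open Set Metric Filter Topology Pool.Agent.SRF

namespace Pool.Agent.SRP

/-- `N` equally spaced centres with prescribed labels. -/
noncomputable def eqv_gen (N : ℕ) (f : ℕ → Lab) : Conf where
  F := ∅
  I := {x | ∃ k : ℕ, k < N ∧ x = (k : ℝ) / (2 * N)}
  rad := fun _ => 1 / (8 * N)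
  lab := fun x => f ⌊2 * N * x⌋₊

theorem eqv_lab (N : ℕ) (f : ℕ → Lab) (hN : 0 < N) (k : ℕ) :
    (eqv_gen N f).lab ((k : ℝ) / (2 * N)) = f k := by
  change f ⌊2 * (N : ℝ) * ((k : ℝ) / (2 * N))⌋₊ = f k
  have h1 : (N : ℝ) ≠ 0 := by exact_mod_cast hN.ne'
  have h2 : 2 * (N : ℝ) * ((k : ℝ) / (2 * N)) = k := by field_simp
  rw [h2, Nat.floor_natCast]

theorem eqv_inj (N : ℕ) (hN : 0 < N) : Function.Injective (fun k : ℕ => (k : ℝ) / (2 * N)) := by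
  intro k l h
  have h1 : (N : ℝ) ≠ 0 := by exact_mod_cast hN.ne'
  have h2 : (k : ℝ) / (2 * N) = (l : ℝ) / (2 * N) := h
  field_simp at h2
  exact_mod_cast h2

theorem eqv_fin (N : ℕ) (f : ℕ → Lab) : (eqv_gen N f).I.Finite := by
  have h : (eqv_gen N f).I = (fun k : ℕ => (k : ℝ) / (2 * N)) '' {k | k < N} := by
    ext x
    constructor
    · rintro ⟨k, hk, rfl⟩
      exact ⟨k, hk, rfl⟩
    · rintro ⟨k, hk, rfl⟩
      exact ⟨k, hk, rfl⟩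
  rw [h]
  exact (Set.finite_lt_nat N).image _

theorem eqv_ok (N : ℕ) (f : ℕ → Lab) (hN : 0 < N) : (eqv_gen N f).Ok := by
  have h1 : (0 : ℝ) < N := by exact_mod_cast hN
  refine ⟨isClosed_empty, ?_, isTotallyDisconnected_empty, ?_, ?_, ?_, ?_, ?_⟩
  · have h2 : (eqv_gen N f).F = ∅ := rfl
    rw [h2, empty_union]
    exact (eqv_fin N f).isCompact
  · intro x hx
    exact absurd hx (notMem_empty x)
  · intro i _
    change 0 < 1 / (8 * (N : ℝ))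
    positivity
  · rintro i ⟨k, hk, rfl⟩
    change |(k : ℝ) / (2 * N)| + 1 / (8 * (N : ℝ)) < 1
    have h3 : (k : ℝ) < N := by exact_mod_cast hk
    have h4 : (k : ℝ) / (2 * N) < 1 / 2 := by
      rw [div_lt_div_iff₀ (by positivity) (by norm_num)]
      linarith
    have h5 : 1 / (8 * (N : ℝ)) ≤ 1 / 8 := by
      have : (1 : ℝ) ≤ N := by exact_mod_cast hN
      rw [div_le_div_iff₀ (by positivity) (by norm_num)]
      linarith
    rw [abs_of_nonneg (by positivity)]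
    linarith
  · intro i _ x hx
    exact absurd hx (notMem_empty x)
  · rintro i ⟨k, hk, rfl⟩ j ⟨l, hl, rfl⟩ hne
    change 1 / (8 * (N : ℝ)) + 1 / (8 * (N : ℝ)) < |(k : ℝ) / (2 * N) - (l : ℝ) / (2 * N)|
    have h3 : k ≠ l := fun h => hne (by rw [h])
    have h4 : (1 : ℝ) ≤ |(k : ℝ) - l| := by
      have h5 : (1 : ℤ) ≤ |(k : ℤ) - l| := Int.one_le_abs (by
        intro h6
        apply h3
        have : (k : ℤ) = l := by linarith
        exact_mod_cast this)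
      exact_mod_cast h5
    have h5 : (k : ℝ) / (2 * N) - (l : ℝ) / (2 * N) = ((k : ℝ) - l) / (2 * N) := by ring
    rw [h5, abs_div, abs_of_pos (show (0 : ℝ) < 2 * N by positivity), lt_div_iff₀ (by positivity)]
    have h6 : (1 / (8 * (N : ℝ)) + 1 / (8 * (N : ℝ))) * (2 * N) = 1 / 2 := by
      field_simp
      norm_num
    rw [h6]
    linarith

theorem eqv_cnt (N : ℕ) (f : ℕ → Lab) (hN : 0 < N) (l : Lab) :
    (eqv_gen N f).cnt l = {k | k < N ∧ f k = l}.ncard := by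
  unfold Conf.cnt
  have h : {i ∈ (eqv_gen N f).I | (eqv_gen N f).lab i = l} =
      (fun k : ℕ => (k : ℝ) / (2 * N)) '' {k | k < N ∧ f k = l} := by
    ext x
    constructor
    · rintro ⟨⟨k, hk, rfl⟩, hl⟩
      rw [eqv_lab N f hN] at hl
      exact ⟨k, ⟨hk, hl⟩, rfl⟩
    · rintro ⟨k, ⟨hk, hl⟩, rfl⟩
      exact ⟨⟨k, hk, rfl⟩, by rw [← hl]; exact eqv_lab N f hN k⟩
  rw [h, Set.ncard_image_of_injective _ (eqv_inj N hN)]

theorem eqv_c (N : ℕ) (f : ℕ → Lab) (hN : 0 < N) (l : Lab) :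
    red_c (eqv_gen N f) 0 l = {k | k < N ∧ k ≠ 0 ∧ f k = l}.ncard := by
  unfold red_c
  have h1 : (0 : ℝ) < N := by exact_mod_cast hN
  have h : {i ∈ (eqv_gen N f).I | i ≠ 0 ∧ (eqv_gen N f).lab i = l} =
      (fun k : ℕ => (k : ℝ) / (2 * N)) '' {k | k < N ∧ k ≠ 0 ∧ f k = l} := by
    ext x
    constructor
    · rintro ⟨⟨k, hk, rfl⟩, h0, hl⟩
      rw [eqv_lab N f hN] at hl
      refine ⟨k, ⟨hk, ?_, hl⟩, rfl⟩
      rintro rfl
      exact h0 (by simp)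
    · rintro ⟨k, ⟨hk, h0, hl⟩, rfl⟩
      refine ⟨⟨k, hk, rfl⟩, ?_, by rw [← hl]; exact eqv_lab N f hN k⟩
      have h2 : (0 : ℝ) < k := by exact_mod_cast Nat.pos_of_ne_zero h0
      have h3 : (0 : ℝ) < (k : ℝ) / (2 * N) := by positivity
      exact h3.ne'
  rw [h, Set.ncard_image_of_injective _ (eqv_inj N hN)]

theorem eqv_ncard (S : Set ℕ) (a b : ℕ) (h : ∀ k, k ∈ S ↔ a ≤ k ∧ k < b) : S.ncard = b - a := by
  have h1 : S = ↑(Finset.Ico a b) := by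
    ext k
    rw [h k, Finset.coe_Ico, mem_Ico]
  rw [h1, Set.ncard_coe_finset, Nat.card_Ico]

/-- a configuration with counts `(t, p, 0)` -/
theorem eqv_exists (t p : ℕ) (hp : 0 < p) : ∃ C : Conf, C.Ok ∧ C.F = ∅ ∧ C.cnt Lab.T = t ∧
    C.cnt Lab.P = p ∧ C.cnt Lab.O = 0 := by
  have hN : 0 < t + p := by omega
  let f : ℕ → Lab := fun k => if k < t then Lab.T else Lab.P
  refine ⟨eqv_gen (t + p) f, eqv_ok _ _ hN, rfl, ?_, ?_, ?_⟩
  · rw [eqv_cnt _ _ hN, eqv_ncard _ 0 t, Nat.sub_zero]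
    intro k
    simp only [f, mem_ofPred_eq]
    split
    · simp; omega
    · simp; omega
  · rw [eqv_cnt _ _ hN, eqv_ncard _ t (t + p), Nat.add_sub_cancel_left]
    intro k
    simp only [f, mem_ofPred_eq]
    split
    · simp; omega
    · simp; omega
  · rw [eqv_cnt _ _ hN, eqv_ncard _ 0 0]
    intro k
    simp only [f, mem_ofPred_eq]
    split
    · simp
    · simp

/-- the base configuration: one centre `0`, and `t` handles and `p` crosscaps -/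
theorem eqv_base (t p : ℕ) : ∃ C : Conf, C.Ok ∧ C.F = ∅ ∧ (0 : ℝ) ∈ C.I ∧ red_c C 0 Lab.T = t ∧
    red_c C 0 Lab.P = p ∧ red_c C 0 Lab.O = 0 := by
  have hN : 0 < t + p + 1 := by omega
  let f : ℕ → Lab := fun k => if k ≤ t then Lab.T else Lab.P
  refine ⟨eqv_gen (t + p + 1) f, eqv_ok _ _ hN, rfl, ⟨0, hN, by simp⟩, ?_, ?_, ?_⟩
  · rw [eqv_c _ _ hN, eqv_ncard _ 1 (t + 1), Nat.add_sub_cancel]
    intro k
    simp only [f, mem_ofPred_eq]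
    split
    · simp; omega
    · simp; omega
  · rw [eqv_c _ _ hN, eqv_ncard _ (t + 1) (t + p + 1)]
    · omega
    intro k
    simp only [f, mem_ofPred_eq]
    split
    · simp; omega
    · simp; omega
  · rw [eqv_c _ _ hN, eqv_ncard _ 0 0]
    intro k
    simp only [f, mem_ofPred_eq]
    split
    · simp
    · simp

theorem eqv_trans {C₁ C₂ C₃ : Conf} (h : Eqv C₁ C₂) (h' : Eqv C₂ C₃) : Eqv C₁ C₃ := by
  intro X _ _ L q hP
  obtain ⟨q₁, h1, h2⟩ := h X L q hP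
  obtain ⟨q₂, h3, h4⟩ := h' X L q₁ h1
  exact ⟨q₂, h3, fun z hz => (h4 z hz).trans (h2 z hz)⟩

/-- (1): equal counts -/
theorem eqv_same (hFREE : St_FREE) {C C' : Conf} (hC : C.Ok) (hC' : C'.Ok) (hF : C.F = ∅)
    (hF' : C'.F = ∅) (h : ∀ l, C'.cnt l = C.cnt l) : Eqv C C' := by
  intro X _ _ L q hP
  obtain ⟨q', h1, h2, -⟩ := hFREE.1 (C.cnt Lab.T) (C.cnt Lab.P) (C.cnt Lab.O) X L (q '' C.FreeBd) q
    ⟨C, hC, hF, rfl, rfl, rfl, q, hP, fun _ _ => rfl, rfl⟩ C' hC' hF' (h _) (h _) (h _)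
  exact ⟨q', h1, h2⟩

/-- (2): one handle and one crosscap -/
theorem eqv_dyck (hFREE : St_FREE) (hDYCK : St_DYCK) {C C' : Conf} (hC : C.Ok) (hC' : C'.Ok)
    (hF : C.F = ∅) (hF' : C'.F = ∅) (hT : C.cnt Lab.T = 1) (hP : C.cnt Lab.P = 1)
    (hO : C.cnt Lab.O = 0) (hT' : C'.cnt Lab.T = 0) (hP' : C'.cnt Lab.P = 3)
    (hO' : C'.cnt Lab.O = 0) : Eqv C C' := by
  intro X _ _ L q hq
  have h1 : FinPres 1 1 0 L (q '' C.FreeBd) q :=
    ⟨C, hC, hF, hT, hP, hO, q, hq, fun _ _ => rfl, rfl⟩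
  obtain ⟨q', h2, h3, -⟩ := hFREE.1 0 3 0 X L _ q (hDYCK X L _ q h1) C' hC' hF' hT' hP' hO'
  exact ⟨q', h2, h3⟩

theorem eqv_dyck' (hCFIN : St_CFIN) (hFREE : St_FREE) (hUNI : St_UNI) (hMEX : St_MEX)
    (hDYCK : St_DYCK) {C C' : Conf} (hC : C.Ok) (hC' : C'.Ok)
    (hF : C.F = ∅) (hF' : C'.F = ∅) (hT : C.cnt Lab.T = 1) (hP : C.cnt Lab.P = 1)
    (hO : C.cnt Lab.O = 0) (hT' : C'.cnt Lab.T = 0) (hP' : C'.cnt Lab.P = 3)
    (hO' : C'.cnt Lab.O = 0) : Eqv C' C := by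
  intro X _ _ L q hq
  obtain ⟨M, _, _, _, qM, hM⟩ := hMEX C hC hF
  obtain ⟨qM', h1, h2⟩ := eqv_dyck hFREE hDYCK hC hC' hF hF' hT hP hO hT' hP' hO' M univ qM hM
  have hcc : IsCompact C.Dom := ((hCFIN C hC).2.2.2.1 hF).2
  have hcc' : IsCompact C'.Dom := ((hCFIN C' hC').2.2.2.1 hF').2
  have hUC : UC ⊆ C'.Dom := (hCFIN C' hC').2.2.2.2.1
  obtain ⟨h, c1, c2, c3, c4⟩ := hUNI M X C'.Dom C'.Rel univ L qM' q hcc' h1.cont hq.cont h1.image
    hq.image h1.rel hq.rel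
  refine ⟨fun z => h (qM z), ⟨?_, ?_, ?_, ?_⟩, ?_⟩
  · exact c1.comp hM.cont (fun _ _ => mem_univ _)
  · have e : (fun z => h (qM z)) '' C.Dom = h '' (qM '' C.Dom) := (image_image h qM C.Dom).symm
    rw [e, hM.image, c3]
  · intro x hx y hy
    rw [← hM.rel x hx y hy]
    exact ⟨fun h3 => c2 (mem_univ _) (mem_univ _) h3, fun h3 => by rw [h3]⟩
  · intro A _ _
    exact ⟨_, Subset.rfl, hcc, fun x hx _ => hx⟩
  · intro z hz
    change h (qM z) = q z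
    rw [← h2 z hz]
    exact c4 z (hUC hz)

/-- substitution in the ball of the centre `0` -/
theorem eqv_sub (hCFIN : St_CFIN) (hCCONG : St_CCONG) (hREF : St_REF) (hSUB : St_SUB)
    {C₀ D D' : Conf} (h0 : C₀.Ok) (hF0 : C₀.F = ∅) (hI : (0 : ℝ) ∈ C₀.I) (hD : D.Ok)
    (hDF : D.F = ∅) (hD' : D'.Ok) (hDF' : D'.F = ∅) (hE : Eqv D D') :
    ∃ C₁ C₂ : Conf, C₁.Ok ∧ C₂.Ok ∧ C₁.F = ∅ ∧ C₂.F = ∅ ∧
      (∀ l, C₁.cnt l = red_c C₀ 0 l + D.cnt l) ∧ (∀ l, C₂.cnt l = red_c C₀ 0 l + D'.cnt l) ∧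
      Eqv C₁ C₂ := by
  obtain ⟨C₁, a1, a2, a3, -, a5, -, a7, a8, a9, -⟩ := red_ref hCFIN hCCONG hREF h0 hF0 hI hD hDF
  obtain ⟨C₂, b1, b2, b3, -, b5, -, b7, b8, b9, -⟩ := red_ref hCFIN hCCONG hREF h0 hF0 hI hD' hDF'
  refine ⟨C₁, C₂, a1, b1, a2, b2, a9, b9, ?_⟩
  intro X _ _ L q hq
  have hL : IsClosed L := by
    have hcc : IsCompact C₁.Dom := ((hCFIN C₁ a1).2.2.2.1 a2).2
    rw [← hq.image]
    exact (hcc.image_of_continuousOn hq.cont).isClosed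
  refine hSUB X C₁ C₂ a1 b1 (by rw [a2, b2]) {0} (fun _ => C₀.rad 0) ?_ ?_ ?_ ?_ ?_ L q hL hq
  · rw [a2, empty_union]
    exact isCompact_singleton
  · rintro j rfl
    exact ⟨a3, b3⟩
  · rintro j rfl k rfl hne
    exact absurd rfl hne
  · intro i hi
    have h1 : C₀.rad 0 < |i - 0| := hi 0 rfl
    obtain ⟨c1, c2⟩ := a5 i h1
    obtain ⟨d1, d2⟩ := b5 i h1
    refine ⟨d1.trans c1.symm, fun h2 => ?_⟩
    obtain ⟨e1, e2⟩ := c2 (c1.1 h2)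
    obtain ⟨f1, f2⟩ := d2 (c1.1 h2)
    exact ⟨f1.trans e1.symm, f2.trans e2.symm⟩
  · rintro j rfl
    intro Y _ _ L₁ q₁ hq₁
    have hq₂ : Pres D L₁ q₁ := by
      unfold Pres at hq₁ ⊢
      rw [a7, a8] at hq₁
      exact hq₁
    obtain ⟨q₃, g1, g2⟩ := hE Y L₁ q₁ hq₂
    refine ⟨q₃, ?_, g2⟩
    unfold Pres at g1 ⊢
    rw [b7, b8]
    exact g1

/-- one move -/
theorem eqv_move (hCFIN : St_CFIN) (hCCONG : St_CCONG) (hREF : St_REF) (hFREE : St_FREE)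
    (hUNI : St_UNI) (hMEX : St_MEX) (hDYCK : St_DYCK) (hSUB : St_SUB) (t p : ℕ) {C C' : Conf}
    (hC : C.Ok) (hC' : C'.Ok) (hF : C.F = ∅) (hF' : C'.F = ∅) (hT : C.cnt Lab.T = t + 1)
    (hP : C.cnt Lab.P = p + 1) (hO : C.cnt Lab.O = 0) (hT' : C'.cnt Lab.T = t)
    (hP' : C'.cnt Lab.P = p + 3) (hO' : C'.cnt Lab.O = 0) : Eqv C C' ∧ Eqv C' C := by
  obtain ⟨C₀, h0, hF0, hI, k1, k2, k3⟩ := eqv_base t p
  obtain ⟨D, d1, d2, d3, d4, d5⟩ := eqv_exists 1 1 one_pos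
  obtain ⟨D', e1, e2, e3, e4, e5⟩ := eqv_exists 0 3 (by norm_num)
  have hE := eqv_dyck hFREE hDYCK d1 e1 d2 e2 d3 d4 d5 e3 e4 e5
  have hE' := eqv_dyck' hCFIN hFREE hUNI hMEX hDYCK d1 e1 d2 e2 d3 d4 d5 e3 e4 e5
  constructor
  · obtain ⟨C₁, C₂, a1, a2, a3, a4, a5, a6, a7⟩ :=
      eqv_sub hCFIN hCCONG hREF hSUB h0 hF0 hI d1 d2 e1 e2 hE
    refine eqv_trans (eqv_same hFREE hC a1 hF a3 ?_) (eqv_trans a7
      (eqv_same hFREE a2 hC' a4 hF' ?_))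
    · intro l
      cases l
      · rw [a5, k1, d3, hT]
      · rw [a5, k2, d4, hP]
      · rw [a5, k3, d5, hO]
    · intro l
      cases l
      · rw [a6, k1, e3, hT', Nat.add_zero]
      · rw [a6, k2, e4, hP']
      · rw [a6, k3, e5, hO']
  · obtain ⟨C₁, C₂, a1, a2, a3, a4, a5, a6, a7⟩ :=
      eqv_sub hCFIN hCCONG hREF hSUB h0 hF0 hI e1 e2 d1 d2 hE'
    refine eqv_trans (eqv_same hFREE hC' a1 hF' a3 ?_) (eqv_trans a7
      (eqv_same hFREE a2 hC a4 hF ?_))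
    · intro l
      cases l
      · rw [a5, k1, e3, hT', Nat.add_zero]
      · rw [a5, k2, e4, hP']
      · rw [a5, k3, e5, hO']
    · intro l
      cases l
      · rw [a6, k1, d3, hT]
      · rw [a6, k2, d4, hP]
      · rw [a6, k3, d5, hO]

theorem eqv_chain (hCFIN : St_CFIN) (hCCONG : St_CCONG) (hREF : St_REF) (hFREE : St_FREE)
    (hUNI : St_UNI) (hMEX : St_MEX) (hDYCK : St_DYCK) (hSUB : St_SUB) (t : ℕ) :
    ∀ (p : ℕ) (C C' : Conf), C.Ok → C'.Ok → C.F = ∅ → C'.F = ∅ → C.cnt Lab.T = t →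
      C.cnt Lab.P = p + 1 → C.cnt Lab.O = 0 → C'.cnt Lab.T = 0 →
      C'.cnt Lab.P = p + 1 + 2 * t → C'.cnt Lab.O = 0 → Eqv C C' ∧ Eqv C' C := by
  induction t with
  | zero =>
    intro p C C' hC hC' hF hF' hT hP hO hT' hP' hO'
    constructor
    · refine eqv_same hFREE hC hC' hF hF' ?_
      intro l
      cases l
      · rw [hT, hT']
      · rw [hP, hP']
      · rw [hO, hO']
    · refine eqv_same hFREE hC' hC hF' hF ?_
      intro l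
      cases l
      · rw [hT, hT']
      · rw [hP, hP']
      · rw [hO, hO']
  | succ t ih =>
    intro p C C' hC hC' hF hF' hT hP hO hT' hP' hO'
    obtain ⟨D, d1, d2, d3, d4, d5⟩ := eqv_exists t (p + 3) (by omega)
    obtain ⟨h1, h2⟩ := eqv_move hCFIN hCCONG hREF hFREE hUNI hMEX hDYCK hSUB t p hC d1 hF d2 hT hP
      hO d3 d4 d5
    obtain ⟨h3, h4⟩ := ih (p + 2) D C' d1 hC' d2 hF' d3 (by rw [d4]) d5 hT'
      (by rw [hP']; ring) hO'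
    exact ⟨eqv_trans h1 h3, eqv_trans h4 h2⟩

theorem thm_EQV (hCFIN : St_CFIN) (hCCONG : St_CCONG) (hREF : St_REF) (hFREE : St_FREE)
    (hUNI : St_UNI) (hMEX : St_MEX) (hDYCK : St_DYCK) (hSUB : St_SUB) : St_EQV := by
  intro C C' hC hC' hF hF' hO hO' h
  rcases h with h | ⟨hP, hP', hsum⟩
  · exact eqv_same hFREE hC hC' hF hF' h
  · obtain ⟨p, hp⟩ : ∃ p, C.cnt Lab.P = p + 1 := ⟨C.cnt Lab.P - 1, by omega⟩
    obtain ⟨p', hp'⟩ : ∃ p', C'.cnt Lab.P = p' + 1 := ⟨C'.cnt Lab.P - 1, by omega⟩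
    obtain ⟨D, d1, d2, d3, d4, d5⟩ := eqv_exists 0 (p + 1 + 2 * C.cnt Lab.T) (by omega)
    have h1 := (eqv_chain hCFIN hCCONG hREF hFREE hUNI hMEX hDYCK hSUB (C.cnt Lab.T) p C D hC d1
      hF d2 rfl hp hO d3 d4 d5).1
    have h2 := (eqv_chain hCFIN hCCONG hREF hFREE hUNI hMEX hDYCK hSUB (C'.cnt Lab.T) p' C' D hC'
      d1 hF' d2 rfl hp' hO' d3 (by omega) d5).2
    exact eqv_trans h1 h2

end Pool.Agent.SRP
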