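import Pool.Agent.SRP.StC

set_option autoImplicit false

/-! # SRP (MP_3b9597_lc), HOLE: removing a disc from a presented space -/

namespace Pool.Agent.SRP

open Set Metric Topology Pool.Agent.SRF

section conf

variable {C : Conf} {c ρ : ℝ}

theorem hole_holes_ne {i : ℝ} (h : i ≠ c) (r : ℝ) (l : Lab) :
    (C.add c r l).holes i = C.holes i := by
  simp [Conf.holes, Conf.add, h]

theorem hole_holes_eq : (C.add c (2 * ρ) Lab.O).holes c = ball (c : ℂ) ρ := by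
  simp [Conf.holes, Conf.add]

theorem hole_dom (hc : c ∉ C.I) : (C.add c (2 * ρ) Lab.O).Dom = C.Dom \ ball (c : ℂ) ρ := by
  have h1 : (⋃ i ∈ (C.add c (2 * ρ) Lab.O).I, (C.add c (2 * ρ) Lab.O).holes i) =
      ball (c : ℂ) ρ ∪ ⋃ i ∈ C.I, C.holes i := by
    show (⋃ i ∈ insert c C.I, (C.add c (2 * ρ) Lab.O).holes i) = _
    rw [biUnion_insert, hole_holes_eq]
    congr 1
    refine iUnion₂_congr fun i hi => ?_
    have h0 : i ≠ c := fun h => hc (h ▸ hi)
    exact hole_holes_ne h0 _ _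
  have h2 : (C.add c (2 * ρ) Lab.O).F = C.F := rfl
  unfold Conf.Dom
  rw [h1, h2]
  ext z
  simp only [mem_diff, mem_union]
  tauto

theorem hole_rel (hc : c ∉ C.I) (x y : ℂ) : (C.add c (2 * ρ) Lab.O).Rel x y ↔ C.Rel x y := by
  have hne : ∀ i ∈ C.I, i ≠ c := fun i hi h => hc (h ▸ hi)
  constructor
  · rintro (h | ⟨i, hi, h⟩)
    · exact Or.inl h
    · rcases hi with rfl | hi
      · exfalso
        simp [Conf.add] at h
      · have h1 := hne i hi
        refine Or.inr ⟨i, hi, ?_⟩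
        simpa [Conf.add, h1] using h
  · rintro (h | ⟨i, hi, h⟩)
    · exact Or.inl h
    · have h1 := hne i hi
      refine Or.inr ⟨i, Or.inr hi, ?_⟩
      simpa [Conf.add, h1] using h

theorem hole_labO (hc : c ∉ C.I) : {i ∈ (C.add c (2 * ρ) Lab.O).I |
    (C.add c (2 * ρ) Lab.O).lab i = Lab.O} = insert c {i ∈ C.I | C.lab i = Lab.O} := by
  have hne : ∀ i ∈ C.I, i ≠ c := fun i hi h => hc (h ▸ hi)
  ext i
  constructor
  · rintro ⟨hi, h⟩
    rcases hi with rfl | hi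
    · exact Or.inl rfl
    · refine Or.inr ⟨hi, ?_⟩
      simpa [Conf.add, hne i hi] using h
  · rintro (rfl | ⟨hi, h⟩)
    · exact ⟨Or.inl rfl, by simp [Conf.add]⟩
    · exact ⟨Or.inr hi, by simpa [Conf.add, hne i hi] using h⟩

theorem hole_lab (hc : c ∉ C.I) {l : Lab} (hl : l ≠ Lab.O) :
    {i ∈ (C.add c (2 * ρ) Lab.O).I | (C.add c (2 * ρ) Lab.O).lab i = l} =
      {i ∈ C.I | C.lab i = l} := by
  have hne : ∀ i ∈ C.I, i ≠ c := fun i hi h => hc (h ▸ hi)
  ext i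
  constructor
  · rintro ⟨hi, h⟩
    rcases hi with rfl | hi
    · exfalso
      apply hl
      simpa [Conf.add] using h.symm
    · refine ⟨hi, ?_⟩
      simpa [Conf.add, hne i hi] using h
  · rintro ⟨hi, h⟩
    exact ⟨Or.inr hi, by simpa [Conf.add, hne i hi] using h⟩

theorem hole_free (hc : c ∉ C.I) :
    (C.add c (2 * ρ) Lab.O).FreeBd = sphere (c : ℂ) ρ ∪ C.FreeBd := by
  unfold Conf.FreeBd
  rw [hole_labO hc, biUnion_insert]
  have h1 : (C.add c (2 * ρ) Lab.O).rad c / 2 = ρ := by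
    simp [Conf.add]
  rw [h1]
  congr 1
  refine iUnion₂_congr fun i hi => ?_
  have h0 : i ≠ c := fun h => hc (h ▸ hi.1)
  have h2 : (C.add c (2 * ρ) Lab.O).rad i = C.rad i := by
    simp [Conf.add, h0]
  rw [h2]

theorem hole_ok (hC : C.Ok) (hF : C.F = ∅) (hfin : C.I.Finite) (hρ : 0 < ρ)
    (hin : |c| + 2 * ρ < 1) (hap : ∀ i ∈ C.I, C.rad i + 2 * ρ < |i - c|) (hc : c ∉ C.I) :
    (C.add c (2 * ρ) Lab.O).Ok := by
  have hne : ∀ i ∈ C.I, i ≠ c := fun i hi h => hc (h ▸ hi)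
  have hrc : (C.add c (2 * ρ) Lab.O).rad c = 2 * ρ := by simp [Conf.add]
  have hri : ∀ i ∈ C.I, (C.add c (2 * ρ) Lab.O).rad i = C.rad i := by
    intro i hi
    simp [Conf.add, hne i hi]
  refine ⟨hC.closed, ?_, hC.td, hC.small, ?_, ?_, ?_, ?_⟩
  · show IsCompact (C.F ∪ insert c C.I)
    rw [hF, empty_union]
    exact (hfin.insert c).isCompact
  · rintro i (rfl | hi)
    · rw [hrc]
      linarith
    · rw [hri i hi]
      exact hC.pos i hi
  · rintro i (rfl | hi)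
    · rw [hrc]
      exact hin
    · rw [hri i hi]
      exact hC.inside i hi
  · rintro i _ x hx
    have hx' : x ∈ C.F := hx
    rw [hF] at hx'
    exact hx'.elim
  · rintro i (rfl | hi) j (rfl | hj) hij
    · exact absurd rfl hij
    · rw [hrc, hri j hj, abs_sub_comm]
      have := hap j hj
      linarith
    · rw [hrc, hri i hi]
      have := hap i hi
      linarith
    · rw [hri i hi, hri j hj]
      exact hC.apart i hi j hj hij

theorem hole_far {i : ℝ} (h : C.rad i + 2 * ρ < |i - c|) {z : ℂ}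
    (hz : z ∈ closedBall (c : ℂ) ρ) (hρ : 0 < ρ) : z ∉ closedBall (i : ℂ) (C.rad i) := by
  intro hz'
  rw [mem_closedBall] at hz hz'
  have h1 := dist_triangle_left (i : ℂ) (c : ℂ) z
  have h2 : dist (i : ℂ) (c : ℂ) = |i - c| := by
    rw [Complex.dist_eq, ← Complex.ofReal_sub, Complex.norm_real, Real.norm_eq_abs]
  rw [h2] at h1
  linarith

theorem hole_sub {i : ℝ} (hi : 0 < C.rad i) : C.holes i ⊆ closedBall (i : ℂ) (C.rad i) := by
  intro z hz
  have key : ∀ t s : ℝ, |t| + s ≤ C.rad i → z ∈ ball ((i + t : ℝ) : ℂ) s →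
      z ∈ closedBall (i : ℂ) (C.rad i) := by
    intro t s hts h
    rw [mem_ball] at h
    rw [mem_closedBall]
    have h1 := dist_triangle z ((i + t : ℝ) : ℂ) (i : ℂ)
    have h2 : dist ((i + t : ℝ) : ℂ) (i : ℂ) = |t| := by
      rw [Complex.dist_eq, ← Complex.ofReal_sub, Complex.norm_real, Real.norm_eq_abs,
        add_sub_cancel_left]
    linarith
  unfold Conf.holes at hz
  split at hz
  · rcases hz with hz | hz
    · refine key (-(C.rad i / 2)) (C.rad i / 8) ?_ (by rwa [← sub_eq_add_neg])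
      rw [abs_neg, abs_of_pos (by linarith)]
      linarith
    · refine key (C.rad i / 2) (C.rad i / 8) ?_ hz
      rw [abs_of_pos (by linarith)]
      linarith
  · refine key 0 (C.rad i / 2) ?_ (by rwa [add_zero])
    rw [abs_zero]
    linarith
  · refine key 0 (C.rad i / 2) ?_ (by rwa [add_zero])
    rw [abs_zero]
    linarith

end conf

theorem hole_sq : IsCompact Sq := by
  have h1 : Sq = Icc (-1) 1 ×ℂ Icc (-1) 1 := by
    ext z
    show (|z.re| ≤ 1 ∧ |z.im| ≤ 1) ↔ _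
    rw [Complex.mem_reProdIm, abs_le, abs_le]
    rfl
  rw [h1]
  exact isCompact_Icc.reProdIm isCompact_Icc

theorem hole_sqI : SqI ⊆ Sq := fun _ hz => ⟨hz.1.le, hz.2.le⟩

section maps

variable {X : Type} [TopologicalSpace X] [T2Space X]

theorem hole_inv {Φ : ℂ → X} {S : Set ℂ} (hS : IsCompact S) (hc : ContinuousOn Φ S)
    (hi : InjOn Φ S) : ContinuousOn (Function.invFunOn Φ S) (Φ '' S) := by
  rw [continuousOn_iff_isClosed]
  intro A hA
  refine ⟨Φ '' (S ∩ A), ((hS.inter_right hA).image_of_continuousOn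
    (hc.mono inter_subset_left)).isClosed, ?_⟩
  ext x
  constructor
  · rintro ⟨hx, w, hw, rfl⟩
    have h1 : Function.invFunOn Φ S (Φ w) = w := hi.leftInvOn_invFunOn hw
    refine ⟨⟨w, ⟨hw, ?_⟩, rfl⟩, w, hw, rfl⟩
    have h2 : Function.invFunOn Φ S (Φ w) ∈ A := hx
    rwa [h1] at h2
  · rintro ⟨⟨w, ⟨hw, hwA⟩, rfl⟩, _⟩
    have h1 : Function.invFunOn Φ S (Φ w) = w := hi.leftInvOn_invFunOn hw
    refine ⟨?_, w, hw, rfl⟩
    show Function.invFunOn Φ S (Φ w) ∈ A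
    rwa [h1]

open Classical in
/-- transport of `Θ` by `Φ` -/
noncomputable def hole_G (Φ : ℂ → X) (Θ : ℂ → ℂ) (x : X) : X :=
  if x ∈ Φ '' Sq then Φ (Θ (Function.invFunOn Φ Sq x)) else x

theorem hole_G1 {Φ : ℂ → X} {Θ : ℂ → ℂ} (hi : InjOn Φ Sq) {w : ℂ} (hw : w ∈ Sq) :
    hole_G Φ Θ (Φ w) = Φ (Θ w) := by
  have h1 : Function.invFunOn Φ Sq (Φ w) = w := hi.leftInvOn_invFunOn hw
  unfold hole_G
  rw [if_pos ⟨w, hw, rfl⟩, h1]

theorem hole_G2 {Φ : ℂ → X} {Θ : ℂ → ℂ} (hi : InjOn Φ Sq) (hΘ : ∀ z, z ∉ SqI → Θ z = z)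
    {x : X} (hx : x ∉ Φ '' SqI) : hole_G Φ Θ x = x := by
  by_cases h : x ∈ Φ '' Sq
  · obtain ⟨w, hw, rfl⟩ := h
    rw [hole_G1 hi hw, hΘ w fun h => hx ⟨w, h, rfl⟩]
  · unfold hole_G
    rw [if_neg h]

theorem hole_map (Θ : ℂ ≃ₜ ℂ) (hΘ : ∀ z, z ∉ SqI → Θ z = z) {w : ℂ} (hw : w ∈ SqI) :
    Θ w ∈ SqI := by
  by_contra h
  have h1 := hΘ _ h
  exact h (by rw [Θ.injective h1]; exact hw)

theorem hole_map' (Θ : ℂ ≃ₜ ℂ) (hΘ : ∀ z, z ∉ SqI → Θ z = z) {w : ℂ} (hw : w ∈ Sq) :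
    Θ w ∈ Sq := by
  by_cases h : w ∈ SqI
  · exact hole_sqI (hole_map Θ hΘ h)
  · rwa [hΘ w h]

theorem hole_symm (Θ : ℂ ≃ₜ ℂ) (hΘ : ∀ z, z ∉ SqI → Θ z = z) :
    ∀ z, z ∉ SqI → Θ.symm z = z := by
  intro z hz
  rw [Homeomorph.symm_apply_eq, hΘ z hz]

theorem hole_GG {Φ : ℂ → X} (hi : InjOn Φ Sq) (Θ : ℂ ≃ₜ ℂ) (hΘ : ∀ z, z ∉ SqI → Θ z = z)
    (x : X) : hole_G Φ Θ.symm (hole_G Φ Θ x) = x := by
  by_cases h : x ∈ Φ '' Sq
  · obtain ⟨w, hw, rfl⟩ := h
    rw [hole_G1 hi hw, hole_G1 hi (hole_map' Θ hΘ hw), Homeomorph.symm_apply_apply]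
  · have h1 : x ∉ Φ '' SqI := fun h2 => h (image_mono hole_sqI h2)
    rw [hole_G2 hi hΘ h1, hole_G2 hi (hole_symm Θ hΘ) h1]

theorem hole_Gmem {Φ : ℂ → X} {L : Set X} (hi : InjOn Φ Sq) (hL : Φ '' Sq ⊆ L) (Θ : ℂ ≃ₜ ℂ)
    (hΘ : ∀ z, z ∉ SqI → Θ z = z) {x : X} (hx : x ∈ L) : hole_G Φ Θ x ∈ L := by
  by_cases h : x ∈ Φ '' Sq
  · obtain ⟨w, hw, rfl⟩ := h
    rw [hole_G1 hi hw]
    exact hL ⟨_, hole_map' Θ hΘ hw, rfl⟩
  · have h1 : x ∉ Φ '' SqI := fun h2 => h (image_mono hole_sqI h2)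
    rwa [hole_G2 hi hΘ h1]

theorem hole_Gcont {Φ : ℂ → X} {L U : Set X} (hc : ContinuousOn Φ Sq) (hi : InjOn Φ Sq)
    (hL : IsClosed L) (hU : IsOpen U) (hUL : U ∩ L = Φ '' SqI) (hΦL : Φ '' Sq ⊆ L) (Θ : ℂ ≃ₜ ℂ)
    (hΘ : ∀ z, z ∉ SqI → Θ z = z) : ContinuousOn (hole_G Φ Θ) L := by
  have h1 : L = Φ '' Sq ∪ L \ U := by
    apply Subset.antisymm
    · intro x hx
      by_cases h : x ∈ U
      · have h2 : x ∈ Φ '' SqI := by
          rw [← hUL]
          exact ⟨h, hx⟩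
        exact Or.inl (image_mono hole_sqI h2)
      · exact Or.inr ⟨hx, h⟩
    · exact union_subset hΦL diff_subset
  rw [h1]
  refine ContinuousOn.union_of_isClosed ?_ ?_ (hole_sq.image_of_continuousOn hc).isClosed
    (hL.sdiff hU)
  · have h2 : ContinuousOn (fun x => Φ (Θ (Function.invFunOn Φ Sq x))) (Φ '' Sq) := by
      refine hc.comp (Θ.continuous.comp_continuousOn (hole_inv hole_sq hc hi)) ?_
      rintro _ ⟨w, hw, rfl⟩
      have h3 : Function.invFunOn Φ Sq (Φ w) = w := hi.leftInvOn_invFunOn hw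
      show Θ (Function.invFunOn Φ Sq (Φ w)) ∈ Sq
      rw [h3]
      exact hole_map' Θ hΘ hw
    refine h2.congr ?_
    intro x hx
    unfold hole_G
    rw [if_pos hx]
  · refine continuousOn_id.congr ?_
    intro x hx
    refine hole_G2 hi hΘ fun h => hx.2 ?_
    rw [← hUL] at h
    exact h.1

end maps

theorem thm_HOLE (hCFIN : St_CFIN) (hCCONG : St_CCONG) (hINTD : St_INTD) (hPDS : St_PDS) :
    St_HOLE := by
  rintro X _ _ C L q Φ E c ρ hC hF hq hΦc hΦi hΦL ⟨U, hU, hUL⟩ hd1 hd2 hE hES hρ hin hap hqB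
  obtain ⟨-, -, -, hfin, hUC, -, hrel7, -⟩ := hCFIN C hC
  obtain ⟨hIfin, hDom⟩ := hfin hF
  have hc : c ∉ C.I := by
    intro h
    have h1 := hap c h
    rw [sub_self, abs_zero] at h1
    have := hC.pos c h
    linarith
  have hLc : IsCompact L := by
    rw [← hq.image]
    exact hDom.image_of_continuousOn hq.cont
  have hBD : closedBall (c : ℂ) ρ ⊆ C.Dom := by
    intro z hz
    refine ⟨?_, ?_⟩
    · rw [mem_closedBall] at hz
      rw [mem_closedBall]
      have h1 := dist_triangle z (c : ℂ) 0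
      have h2 : dist (c : ℂ) 0 = |c| := by
        rw [dist_zero_right, Complex.norm_real, Real.norm_eq_abs]
      linarith
    · rintro (⟨x, hx, _⟩ | h)
      · rw [hF] at hx
        exact hx
      · rw [mem_iUnion₂] at h
        obtain ⟨i, hi, h⟩ := h
        exact hole_far (hap i hi) hz hρ (hole_sub (hC.pos i hi) h)
  have hinj : ∀ x ∈ closedBall (c : ℂ) ρ, ∀ y ∈ C.Dom, q x = q y → x = y := by
    intro x hx y hy hxy
    rcases hrel7 x y ((hq.rel x (hBD hx) y hy).1 hxy) with h | ⟨i, hi, h, _⟩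
    · exact h
    · exfalso
      refine hole_far (hap i hi) hx hρ (closedBall_subset_closedBall ?_ h)
      have := hC.pos i hi
      linarith
  -- the disc
  let ψ : ℂ → ℂ := fun z => Function.invFunOn Φ Sq (q z)
  have hψ : ∀ z ∈ closedBall (c : ℂ) ρ, ψ z ∈ SqI ∧ Φ (ψ z) = q z := by
    intro z hz
    obtain ⟨w, hw, hwz⟩ := hqB ⟨z, hz, rfl⟩
    have h1 : Function.invFunOn Φ Sq (Φ w) = w := hΦi.leftInvOn_invFunOn (hole_sqI hw)
    have h2 : ψ z = w := by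
      show Function.invFunOn Φ Sq (q z) = w
      rw [← hwz, h1]
    rw [h2]
    exact ⟨hw, hwz⟩
  have hψc : ContinuousOn ψ (closedBall (c : ℂ) ρ) := by
    refine (hole_inv hole_sq hΦc hΦi).comp (hq.cont.mono hBD) ?_
    intro z hz
    exact image_mono hole_sqI (hqB ⟨z, hz, rfl⟩)
  have hψi : InjOn ψ (closedBall (c : ℂ) ρ) := by
    intro x hx y hy hxy
    refine hinj x hx y (hBD hy) ?_
    rw [← (hψ x hx).2, ← (hψ y hy).2, hxy]
  let g : ℂ → ℂ := fun w => c + ρ * w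
  have hρc : (ρ : ℂ) ≠ 0 := by exact_mod_cast hρ.ne'
  have hgn : ∀ w, ‖g w - c‖ = ρ * ‖w‖ := by
    intro w
    show ‖(c : ℂ) + ρ * w - c‖ = _
    rw [add_sub_cancel_left, norm_mul, Complex.norm_of_nonneg hρ.le]
  have hgi : Function.Injective g := by
    intro a b hab
    have h1 : (c : ℂ) + ρ * a = c + ρ * b := hab
    exact mul_left_cancel₀ hρc (add_left_cancel h1)
  have hgs : Function.Surjective g := by
    intro z
    refine ⟨(z - c) / ρ, ?_⟩
    show (c : ℂ) + ρ * ((z - c) / ρ) = z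
    rw [mul_div_cancel₀ _ hρc, add_sub_cancel]
  have hg1 : g '' CD = closedBall (c : ℂ) ρ := by
    apply Subset.antisymm
    · rintro _ ⟨w, hw, rfl⟩
      rw [mem_closedBall_zero_iff] at hw
      rw [mem_closedBall_iff_norm, hgn]
      exact mul_le_of_le_one_right hρ.le hw
    · intro z hz
      obtain ⟨w, rfl⟩ := hgs z
      refine ⟨w, ?_, rfl⟩
      rw [mem_closedBall_iff_norm, hgn] at hz
      rw [mem_closedBall_zero_iff]
      exact (mul_le_iff_le_one_right hρ).1 hz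
  have hg2 : g '' OD = ball (c : ℂ) ρ := by
    apply Subset.antisymm
    · rintro _ ⟨w, hw, rfl⟩
      rw [mem_ball_zero_iff] at hw
      rw [mem_ball_iff_norm, hgn]
      exact mul_lt_of_lt_one_right hρ hw
    · intro z hz
      obtain ⟨w, rfl⟩ := hgs z
      refine ⟨w, ?_, rfl⟩
      rw [mem_ball_iff_norm, hgn] at hz
      rw [mem_ball_zero_iff]
      exact (mul_lt_iff_lt_one_right hρ).1 hz
  have hg3 : g '' UC = sphere (c : ℂ) ρ := by
    apply Subset.antisymm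
    · rintro _ ⟨w, hw, rfl⟩
      rw [mem_sphere_zero_iff_norm] at hw
      rw [mem_sphere_iff_norm, hgn, hw, mul_one]
    · intro z hz
      obtain ⟨w, rfl⟩ := hgs z
      refine ⟨w, ?_, rfl⟩
      rw [mem_sphere_iff_norm, hgn] at hz
      rw [mem_sphere_zero_iff_norm]
      exact mul_left_cancel₀ hρ.ne' (hz.trans (mul_one ρ).symm)
  have hgm : MapsTo g CD (closedBall (c : ℂ) ρ) := by
    rw [← hg1]
    exact mapsTo_image g CD
  have hfc : ContinuousOn (ψ ∘ g) CD := by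
    refine hψc.comp (Continuous.continuousOn ?_) hgm
    show Continuous fun w : ℂ => (c : ℂ) + ρ * w
    fun_prop
  have hfi : InjOn (ψ ∘ g) CD := hψi.comp hgi.injOn hgm
  obtain ⟨hint, hfr⟩ := hINTD.1 (ψ ∘ g) hfc hfi
  rw [image_comp, image_comp, hg1, hg2] at hint
  rw [image_comp, image_comp, hg1, hg3] at hfr
  have hE0 : IsDisc (ψ '' closedBall (c : ℂ) ρ) := by
    refine ⟨ψ ∘ g, hfc, hfi, ?_⟩
    rw [image_comp, hg1]
  have hE0S : ψ '' closedBall (c : ℂ) ρ ⊆ SqI := by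
    rintro _ ⟨z, hz, rfl⟩
    exact (hψ z hz).1
  obtain ⟨Θ, hΘ, hΘE, hΘI⟩ := hPDS.1 _ E hE0 hE hE0S hES
  have hGq : ∀ z ∈ closedBall (c : ℂ) ρ, hole_G Φ Θ (q z) = Φ (Θ (ψ z)) := by
    intro z hz
    rw [← (hψ z hz).2, hole_G1 hΦi (hole_sqI (hψ z hz).1)]
  have hGinj : Function.Injective (hole_G Φ Θ) := by
    intro x y hxy
    rw [← hole_GG hΦi Θ hΘ x, hxy, hole_GG hΦi Θ hΘ y]
  have hqL : ∀ z ∈ C.Dom, q z ∈ L := by
    intro z hz
    rw [← hq.image]
    exact ⟨z, hz, rfl⟩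
  have hGball : hole_G Φ Θ '' (q '' ball (c : ℂ) ρ) = Φ '' interior E := by
    rw [← hΘI, ← hint, image_image, image_image, image_image]
    exact image_congr fun z hz => hGq z (ball_subset_closedBall hz)
  have hdom := hole_dom (C := C) (c := c) (ρ := ρ) hc
  have hDc : IsCompact (C.add c (2 * ρ) Lab.O).Dom := by
    rw [hdom]
    exact hDom.diff isOpen_ball
  refine ⟨hole_ok hC hF hIfin hρ hin hap hc, ?_, ?_, ?_, fun z => hole_G Φ Θ (q z),
    ⟨?_, ?_, ?_, ?_⟩, ?_, ?_⟩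
  · unfold Conf.cnt
    rw [hole_lab hc (fun h => by cases h)]
  · unfold Conf.cnt
    rw [hole_lab hc (fun h => by cases h)]
  · unfold Conf.cnt
    rw [hole_labO hc, ncard_insert_of_notMem (fun h => hc h.1) (hIfin.subset fun x hx => hx.1)]
  · refine (hole_Gcont hΦc hΦi hLc.isClosed hU hUL hΦL Θ hΘ).comp (hq.cont.mono ?_) ?_
    · rw [hdom]
      exact diff_subset
    · intro z hz
      rw [hdom] at hz
      exact hqL z hz.1
  · rw [hdom]
    apply Subset.antisymm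
    · rintro _ ⟨z, ⟨hz, hzb⟩, rfl⟩
      refine ⟨hole_Gmem hΦi hΦL Θ hΘ (hqL z hz), ?_⟩
      intro h
      rw [← hGball] at h
      obtain ⟨_, ⟨y, hy, rfl⟩, hyz⟩ := h
      have h1 := hinj y (ball_subset_closedBall hy) z hz (hGinj hyz)
      exact hzb (h1 ▸ hy)
    · rintro x ⟨hx, hxE⟩
      have h1 : hole_G Φ Θ.symm x ∈ L := hole_Gmem hΦi hΦL Θ.symm (hole_symm Θ hΘ) hx
      rw [← hq.image] at h1
      obtain ⟨z, hz, hzx⟩ := h1
      have h2 : hole_G Φ Θ (q z) = x := by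
        rw [hzx]
        have h3 := hole_GG hΦi Θ.symm (hole_symm Θ hΘ) x
        rwa [Homeomorph.symm_symm] at h3
      refine ⟨z, ⟨hz, fun hzb => hxE ?_⟩, h2⟩
      rw [← hGball, ← h2]
      exact ⟨q z, ⟨z, hzb, rfl⟩, rfl⟩
  · intro x hx y hy
    rw [hdom] at hx hy
    rw [hole_rel hc, ← hq.rel x hx.1 y hy.1]
    exact ⟨fun h => hGinj h, fun h => congrArg _ h⟩
  · intro A _ _
    exact ⟨_, Subset.rfl, hDc, fun x hx _ => hx⟩
  · intro z hz
    refine hole_G2 hΦi hΘ fun h => ?_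
    exact Set.disjoint_left.1 hd1 h ⟨z, hz, rfl⟩
  · rw [hole_free hc, image_union, union_comm]
    congr 1
    · refine image_congr fun z hz => hole_G2 hΦi hΘ fun h => ?_
      exact Set.disjoint_left.1 hd2 h ⟨z, hz, rfl⟩
    · rw [← hΘE, ← Homeomorph.image_frontier, ← hfr, image_image, image_image]
      exact image_congr fun z hz => hGq z (sphere_subset_closedBall hz)

end Pool.Agent.SRP
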