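import Pool.Agent.SRP.StC

set_option autoImplicit false

/-! # SRP, module INFP (helper17): infinite products of homeomorphisms with disjoint supports -/

open Set Metric Filter Topology Pool.Agent.SRF

namespace Pool.Agent.SRP

open Classical in
/-- the product of the maps -/
noncomputable def infp_map (J : Set ℂ) (R : ℂ → ℝ) (h : ℂ → ℂ → ℂ) (z : ℂ) : ℂ :=
  if hz : ∃ c, c ∈ J ∧ z ∈ ball c (R c) then h hz.choose z else z

section

variable {J : Set ℂ} {R : ℂ → ℝ} {h : ℂ → ℂ → ℂ}
  (hd : ∀ c ∈ J, ∀ d ∈ J, c ≠ d → Disjoint (ball c (R c)) (ball d (R d)))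

include hd in
theorem infp_in {c : ℂ} (hc : c ∈ J) {z : ℂ} (hz : z ∈ ball c (R c)) :
    infp_map J R h z = h c z := by
  have hex : ∃ c, c ∈ J ∧ z ∈ ball c (R c) := ⟨c, hc, hz⟩
  unfold infp_map
  rw [dif_pos hex]
  have h1 := hex.choose_spec
  have h2 : hex.choose = c := by
    by_contra hne
    exact Set.disjoint_left.1 (hd _ h1.1 c hc hne) h1.2 hz
  rw [h2]

theorem infp_out {z : ℂ} (hz : ∀ c ∈ J, z ∉ ball c (R c)) : infp_map J R h z = z := by
  unfold infp_map
  rw [dif_neg]
  rintro ⟨c, hc, hzc⟩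
  exact hz c hc hzc

include hd in
theorem infp_cont (hfin : ∀ ε : ℝ, 0 < ε → {c ∈ J | ε ≤ R c}.Finite)
    (hc : ∀ c ∈ J, Continuous (h c)) (hid : ∀ c ∈ J, ∀ z, z ∉ ball c (R c) → h c z = z)
    (hmap : ∀ c ∈ J, ∀ z ∈ ball c (R c), h c z ∈ ball c (R c)) :
    Continuous (infp_map J R h) := by
  rw [continuous_iff_continuousAt]
  intro z
  by_cases hz : ∃ c ∈ J, z ∈ ball c (R c)
  · obtain ⟨c, hcJ, hzc⟩ := hz
    refine ((hc c hcJ).continuousAt (x := z)).congr ?_
    filter_upwards [isOpen_ball.mem_nhds hzc] with w hw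
    exact (infp_in hd hcJ hw).symm
  · push Not at hz
    have hz' : infp_map J R h z = z := infp_out hz
    rw [ContinuousAt, hz', Metric.tendsto_nhds]
    intro ε hε
    have h1 : ∀ᶠ w in 𝓝 z, ∀ c ∈ {c ∈ J | ε / 4 ≤ R c}, dist (h c w) z < ε := by
      rw [Filter.eventually_all_finite (hfin (ε / 4) (by linarith))]
      intro c hcS
      have h2 := (hc c hcS.1).continuousAt (x := z)
      rw [ContinuousAt, hid c hcS.1 z (hz c hcS.1), Metric.tendsto_nhds] at h2
      exact h2 ε hε
    filter_upwards [h1, ball_mem_nhds z (show (0 : ℝ) < ε / 2 by linarith)] with w hw hwz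
    rw [mem_ball] at hwz
    by_cases hw' : ∃ c ∈ J, w ∈ ball c (R c)
    · obtain ⟨c, hcJ, hwc⟩ := hw'
      rw [infp_in hd hcJ hwc]
      by_cases hR : ε / 4 ≤ R c
      · exact hw c ⟨hcJ, hR⟩
      · push Not at hR
        have h3 := hmap c hcJ w hwc
        rw [mem_ball] at h3 hwc
        have h4 := dist_triangle4 (h c w) c w z
        rw [dist_comm c w] at h4
        linarith
    · push Not at hw'
      rw [infp_out hw']
      linarith

end

theorem thm_INFP : St_INFP := by
  intro J R h hd hfin hid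
  have hmap : ∀ c ∈ J, ∀ z ∈ ball c (R c), h c z ∈ ball c (R c) := by
    intro c hc z hz
    by_contra hn
    have h1 := hid c hc _ hn
    have h2 := (h c).injective h1
    rw [h2] at hn
    exact hn hz
  have hid' : ∀ c ∈ J, ∀ z, z ∉ ball c (R c) → (h c).symm z = z := by
    intro c hc z hz
    rw [Homeomorph.symm_apply_eq, hid c hc z hz]
  have hmap' : ∀ c ∈ J, ∀ z ∈ ball c (R c), (h c).symm z ∈ ball c (R c) := by
    intro c hc z hz
    by_contra hn
    have h1 := hid c hc _ hn
    rw [Homeomorph.apply_symm_apply] at h1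
    rw [← h1] at hn
    exact hn hz
  let f : ℂ → ℂ := infp_map J R fun c => h c
  let g : ℂ → ℂ := infp_map J R fun c => (h c).symm
  have hf : Continuous f := infp_cont hd hfin (fun c _ => (h c).continuous) hid hmap
  have hg : Continuous g := infp_cont hd hfin (fun c _ => (h c).symm.continuous) hid' hmap'
  have hgf : ∀ z, g (f z) = z := by
    intro z
    by_cases hz : ∃ c ∈ J, z ∈ ball c (R c)
    · obtain ⟨c, hc, hzc⟩ := hz
      have h1 : f z = h c z := infp_in hd hc hzc
      have h2 : g (h c z) = (h c).symm (h c z) := infp_in hd hc (hmap c hc z hzc)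
      rw [h1, h2, Homeomorph.symm_apply_apply]
    · push Not at hz
      have h1 : f z = z := infp_out hz
      have h2 : g z = z := infp_out hz
      rw [h1, h2]
  have hfg : ∀ z, f (g z) = z := by
    intro z
    by_cases hz : ∃ c ∈ J, z ∈ ball c (R c)
    · obtain ⟨c, hc, hzc⟩ := hz
      have h1 : g z = (h c).symm z := infp_in hd hc hzc
      have h2 : f ((h c).symm z) = h c ((h c).symm z) := infp_in hd hc (hmap' c hc z hzc)
      rw [h1, h2, Homeomorph.apply_symm_apply]
    · push Not at hz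
      have h1 : f z = z := infp_out hz
      have h2 : g z = z := infp_out hz
      rw [h2, h1]
  refine ⟨⟨⟨f, g, hgf, hfg⟩, hf, hg⟩, ?_, ?_⟩
  · intro c hc z hz
    have h1 : f z = h c z := infp_in hd hc hz
    exact h1
  · intro z hz
    have h1 : f z = z := infp_out hz
    exact h1

end Pool.Agent.SRP
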