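import Pool.Agent.SRP.StC
import Pool.Agent.CT.H1

/-!
# SRP, INTD (helper25): closed discs in the plane
-/

set_option autoImplicit false

open Set Metric Filter Topology Pool.Agent.SRF

namespace Pool.Agent.SRP

/-- invariance of domain -/
private theorem intd_open {f : ℂ → ℂ} {U : Set ℂ} (hU : IsOpen U) (hf : ContinuousOn f U)
    (hi : InjOn f U) : IsOpen (f '' U) := by
  rw [isOpen_iff_mem_nhds]
  rintro _ ⟨z, hz, rfl⟩
  obtain ⟨r, hr, hsub⟩ := nhds_basis_closedBall.mem_iff.1 (hU.mem_nhds hz)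
  have hr0 : (r : ℂ) ≠ 0 := by exact_mod_cast hr.ne'
  have hmap : MapsTo (fun w : ℂ => z + r * w) (closedBall 0 1) U := by
    intro w hw
    apply hsub
    rw [mem_closedBall_zero_iff] at hw
    rw [mem_closedBall, dist_eq_norm, add_sub_cancel_left, norm_mul, Complex.norm_real,
      Real.norm_eq_abs, abs_of_pos hr]
    nlinarith [norm_nonneg w]
  have h1 := Pool.Agent.CT.h1 (fun w => f (z + r * w))
    (hf.comp (Continuous.continuousOn (by fun_prop)) hmap)
    (fun u hu v hv h => mul_left_cancel₀ hr0 (add_left_cancel (hi (hmap hu) (hmap hv) h)))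
  rw [mem_interior_iff_mem_nhds] at h1
  simp only [mul_zero, add_zero] at h1
  refine mem_of_superset h1 ?_
  rintro _ ⟨w, hw, rfl⟩
  exact ⟨_, hmap hw, rfl⟩

/-- the inverse is continuous -/
private theorem intd_inv {f : ℂ → ℂ} (hf : ContinuousOn f CD) (hi : InjOn f CD) :
    ∃ g : ℂ → ℂ, ContinuousOn g (f '' CD) ∧ ∀ z ∈ CD, g (f z) = z := by
  have hg : ∀ z ∈ CD, Function.invFunOn f CD (f z) = z := fun z hz => hi.leftInvOn_invFunOn hz
  refine ⟨Function.invFunOn f CD, ?_, hg⟩
  rw [continuousOn_iff_isClosed]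
  intro t ht
  refine ⟨f '' (CD ∩ t), ?_, ?_⟩
  · exact (((isCompact_closedBall 0 1).inter_right ht).image_of_continuousOn
      (hf.mono inter_subset_left)).isClosed
  · ext w
    constructor
    · rintro ⟨hw, z, hz, rfl⟩
      rw [mem_preimage, hg z hz] at hw
      exact ⟨⟨z, ⟨hz, hw⟩, rfl⟩, ⟨z, hz, rfl⟩⟩
    · rintro ⟨⟨z, ⟨hz, hzt⟩, rfl⟩, hw⟩
      refine ⟨?_, hw⟩
      rw [mem_preimage, hg z hz]
      exact hzt

private theorem intd_interior {f : ℂ → ℂ} (hf : ContinuousOn f CD) (hi : InjOn f CD) :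
    f '' OD = interior (f '' CD) := by
  have hsub : OD ⊆ CD := ball_subset_closedBall
  refine Subset.antisymm ?_ ?_
  · exact interior_maximal (image_mono hsub) (intd_open isOpen_ball (hf.mono hsub)
      (hi.mono hsub))
  · intro w hw
    obtain ⟨z, hz, rfl⟩ := interior_subset hw
    obtain ⟨g, hgc, hg⟩ := intd_inv hf hi
    have hgi : InjOn g (f '' CD) := by
      rintro _ ⟨u, hu, rfl⟩ _ ⟨v, hv, rfl⟩ h
      rw [hg u hu, hg v hv] at h
      rw [h]
    have hop : IsOpen (g '' interior (f '' CD)) :=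
      intd_open isOpen_interior (hgc.mono interior_subset) (hgi.mono interior_subset)
    have hsub2 : g '' interior (f '' CD) ⊆ CD := by
      rintro _ ⟨v, hv, rfl⟩
      obtain ⟨u, hu, rfl⟩ := interior_subset hv
      rw [hg u hu]
      exact hu
    have hmem : z ∈ interior CD := by
      refine interior_maximal hsub2 hop ?_
      exact ⟨f z, hw, hg z hz⟩
    rw [interior_closedBall (0 : ℂ) one_ne_zero] at hmem
    exact ⟨z, hmem, rfl⟩

/-- **INTD.** -/
theorem thm_INTD : St_INTD := by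
  refine ⟨?_, ?_, ?_⟩
  · intro f hf hi
    have h1 := intd_interior hf hi
    refine ⟨h1, ?_⟩
    have hcl : IsClosed (f '' CD) :=
      ((isCompact_closedBall 0 1).image_of_continuousOn hf).isClosed
    rw [hcl.frontier_eq, ← h1]
    have hsub : OD ⊆ CD := ball_subset_closedBall
    have hsubU : UC ⊆ CD := sphere_subset_closedBall
    refine Subset.antisymm ?_ ?_
    · rintro _ ⟨z, hz, rfl⟩
      refine ⟨⟨z, hsubU hz, rfl⟩, ?_⟩
      rintro ⟨w, hw, h⟩
      have h2 := hi (hsub hw) (hsubU hz) h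
      rw [h2, mem_ball_zero_iff] at hw
      rw [mem_sphere_zero_iff_norm] at hz
      linarith
    · rintro _ ⟨⟨z, hz, rfl⟩, h⟩
      refine ⟨z, ?_, rfl⟩
      rw [mem_closedBall_zero_iff] at hz
      rcases hz.lt_or_eq with h2 | h2
      · exact absurd ⟨z, mem_ball_zero_iff.2 h2, rfl⟩ h
      · exact mem_sphere_zero_iff_norm.2 h2
  · intro E hE hconv hne
    obtain ⟨h, -, h2, -⟩ :=
      exists_homeomorph_image_interior_closure_frontier_eq_unitBall hconv hne hE.isBounded
    rw [hE.isClosed.closure_eq] at h2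
    refine ⟨h.symm, h.symm.continuous.continuousOn, h.symm.injective.injOn, ?_⟩
    change h.symm '' closedBall 0 1 = E
    rw [← h2, ← image_comp]
    simp
  · rintro E g ⟨f, hf, hi, rfl⟩ hg hgi
    refine ⟨g ∘ f, hg.comp hf (mapsTo_image f CD), ?_, image_comp g f CD⟩
    intro z hz w hw h
    exact hi hz hw (hgi ⟨z, hz, rfl⟩ ⟨w, hw, rfl⟩ h)

end Pool.Agent.SRP
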