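import Pool.Agent.SRP.StC

/-! # SRP/KLEE (helper89): moving configurations -/

set_option autoImplicit false

open Set Metric Filter Topology Pool.Agent.SRF

namespace Pool.Agent.SRP

private theorem klee_shrink {C : Conf} (hC : C.Ok) (r : ℝ → ℝ)
    (hr : ∀ i ∈ C.I, 0 < r i ∧ r i ≤ C.rad i) : Conf.Ok { C with rad := r } := by
  refine ⟨hC.closed, hC.compact, hC.td, hC.small, ?_, ?_, ?_, ?_⟩
  · intro i hi
    exact (hr i hi).1
  · intro i hi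
    change |i| + r i < 1
    have := hC.inside i hi
    linarith [(hr i hi).2]
  · intro i hi x hx
    change r i < |x - i|
    have := hC.away i hi x hx
    linarith [(hr i hi).2]
  · intro i hi j hj hij
    change r i + r j < |i - j|
    have := hC.apart i hi j hj hij
    linarith [(hr i hi).2, (hr j hj).2]

private theorem klee_lt {C : Conf} (hC : C.Ok) : ∀ x ∈ C.F ∪ C.I, |x| < 1 := by
  rintro x (hx | hx)
  · exact hC.small x hx
  · have := hC.inside x hx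
    linarith [hC.pos x hx]

private theorem klee_rho (hCFIN : St_CFIN) {C : Conf} (hC : C.Ok) :
    ∃ ρ : ℝ, ρ < 1 ∧ (∀ x ∈ C.F, |x| ≤ ρ) ∧ ∀ i ∈ C.I, |i| + C.rad i ≤ ρ := by
  obtain ⟨-, -, hfin, -⟩ := hCFIN C hC
  obtain ⟨ρ₁, hρ₁, h1⟩ : ∃ ρ₁ : ℝ, ρ₁ < 1 ∧ ∀ x ∈ C.F ∪ C.I, |x| ≤ ρ₁ := by
    rcases (C.F ∪ C.I).eq_empty_or_nonempty with h | h
    · exact ⟨0, one_pos, by rw [h]; simp⟩
    · obtain ⟨y, hy, hmax⟩ := hC.compact.exists_isMaxOn h continuous_abs.continuousOn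
      exact ⟨|y|, klee_lt hC y hy, fun x hx => hmax hx⟩
  have hf := hfin ((1 - ρ₁) / 2) (by linarith)
  obtain ⟨ρ₂, hρ₂, h2⟩ : ∃ ρ₂ : ℝ, ρ₂ < 1 ∧
      ∀ i ∈ {i ∈ C.I | (1 - ρ₁) / 2 ≤ C.rad i}, |i| + C.rad i ≤ ρ₂ := by
    rcases ({i ∈ C.I | (1 - ρ₁) / 2 ≤ C.rad i}).eq_empty_or_nonempty with h | h
    · exact ⟨0, one_pos, by rw [h]; simp⟩
    · obtain ⟨y, hy, hmax⟩ := hf.exists_maximalFor (fun i => |i| + C.rad i) _ h
      refine ⟨|y| + C.rad y, hC.inside y hy.1, fun i hi => ?_⟩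
      rcases le_total (|i| + C.rad i) (|y| + C.rad y) with h3 | h3
      · exact h3
      · exact hmax hi h3
  refine ⟨max ρ₂ ((1 + ρ₁) / 2), max_lt hρ₂ (by linarith), ?_, ?_⟩
  · intro x hx
    have := h1 x (Or.inl hx)
    refine le_trans ?_ (le_max_right _ _)
    linarith
  · intro i hi
    by_cases h : (1 - ρ₁) / 2 ≤ C.rad i
    · exact (h2 i ⟨hi, h⟩).trans (le_max_left _ _)
    · refine le_trans ?_ (le_max_right _ _)
      have := h1 i (Or.inr hi)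
      linarith

private theorem klee_iso {C : Conf} (hC : C.Ok) : ∀ i ∈ (fun x : ℝ => x / 8) '' C.I,
    ∃ ε > 0, ∀ x ∈ (fun x : ℝ => x / 8) '' C.F ∪ (fun x : ℝ => x / 8) '' C.I,
      |x - i| < ε → x = i := by
  rintro _ ⟨i, hi, rfl⟩
  refine ⟨C.rad i / 8, by linarith [hC.pos i hi], ?_⟩
  rintro x hx hxi
  have key : ∀ y : ℝ, |y / 8 - i / 8| < C.rad i / 8 → |y - i| < C.rad i := by
    intro y hy
    rw [← sub_div, abs_div, abs_of_pos (by norm_num : (0:ℝ) < 8)] at hy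
    linarith
  rcases hx with ⟨y, hy, rfl⟩ | ⟨y, hy, rfl⟩
  · exact absurd (key y hxi) (not_lt.2 (hC.away i hi y hy).le)
  · by_contra hne
    have hne' : i ≠ y := by
      rintro rfl
      exact hne rfl
    have h1 := hC.apart i hi y hy hne'
    have h2 := key y hxi
    rw [abs_sub_comm] at h2
    linarith [hC.pos y hy]

private theorem klee_compact {C : Conf} (hC : C.Ok) :
    IsCompact ((fun x : ℝ => x / 8) '' C.F ∪ (fun x : ℝ => x / 8) '' C.I) := by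
  rw [← image_union]
  exact hC.compact.image (by fun_prop)

private theorem klee_le {C : Conf} (hC : C.Ok) :
    ∀ x ∈ (fun x : ℝ => x / 8) '' C.F ∪ (fun x : ℝ => x / 8) '' C.I, |x| ≤ 1 / 8 := by
  rw [← image_union]
  rintro _ ⟨x, hx, rfl⟩
  have := klee_lt hC x hx
  simp only
  rw [abs_div, abs_of_pos (by norm_num : (0:ℝ) < 8)]
  linarith

private theorem klee_disj (hCFIN : St_CFIN) {C : Conf} (hC : C.Ok) :
    Disjoint ((fun x : ℝ => x / 8) '' C.F) ((fun x : ℝ => x / 8) '' C.I) := by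
  obtain ⟨h, -⟩ := hCFIN C hC
  refine (disjoint_image_iff ?_).2 h
  intro x y hxy
  simp only at hxy
  linarith

private theorem klee_norm {i r : ℝ} {z : ℂ} (h : ‖z - i‖ ≤ r) : ‖z‖ ≤ |i| + r := by
  calc ‖z‖ = ‖(i : ℂ) + (z - i)‖ := by rw [add_sub_cancel]
    _ ≤ ‖(i : ℂ)‖ + ‖z - i‖ := norm_add_le _ _
    _ ≤ |i| + r := by
      rw [Complex.norm_real, Real.norm_eq_abs]
      exact add_le_add le_rfl h

/-- **KLEE.** -/
theorem thm_KLEE (hCFIN : St_CFIN) (hPOL : St_POL) (hADJ : St_ADJ) (hSHR : St_SHR) : St_KLEE := by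
  intro C C' φ hC hC' hφc hφi hφF hφI
  obtain ⟨ρ₁, hρ₁, hF₁, hI₁⟩ := klee_rho hCFIN hC
  obtain ⟨ρ₂, hρ₂, hF₂, hI₂⟩ := klee_rho hCFIN hC'
  obtain ⟨ρ, hρ0, hρ1, hρa, hρb⟩ : ∃ ρ : ℝ, 0 < ρ ∧ ρ < 1 ∧ ρ₁ ≤ ρ ∧ ρ₂ ≤ ρ :=
    ⟨max (1 / 2) (max ρ₁ ρ₂), lt_max_of_lt_left (by norm_num),
      max_lt (by norm_num) (max_lt hρ₁ hρ₂), (le_max_left _ _).trans (le_max_right _ _),
      (le_max_right _ _).trans (le_max_right _ _)⟩
  obtain ⟨Z, hZ1, hZ2⟩ := hPOL 0 ρ (ρ / 8) 1 0 hρ0 hρ1 (by linarith) (by linarith)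
  have hZ : ∀ z : ℂ, ‖z‖ ≤ ρ → Z z = z / 8 := by
    intro z hz
    rw [hZ2 z (mem_closedBall_zero_iff.2 hz)]
    have h1 : ρ / 8 / ρ = 1 / 8 := by
      field_simp
    rw [h1]
    simp only [cexpi, Complex.ofReal_zero, zero_mul, Complex.exp_zero, sub_zero, mul_one, zero_add]
    push_cast
    ring
  -- the shear map
  have hφ8 : ∀ x : ℝ, φ (8 * (x / 8)) / 8 = φ x / 8 := by
    intro x
    rw [mul_div_cancel₀ x (by norm_num : (8:ℝ) ≠ 0)]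
  have him : ∀ A B : Set ℝ, φ '' A = B →
      (fun x : ℝ => φ (8 * x) / 8) '' ((fun x : ℝ => x / 8) '' A) = (fun x : ℝ => x / 8) '' B := by
    rintro A _ rfl
    rw [image_image, image_image]
    exact image_congr fun x _ => hφ8 x
  obtain ⟨Φ₀, hΦ₀1, hΦ₀2, hΦ₀3⟩ := hSHR ((fun x : ℝ => x / 8) '' C.F) ((fun x : ℝ => x / 8) '' C.I)
    ((fun x : ℝ => x / 8) '' C'.F) ((fun x : ℝ => x / 8) '' C'.I) (fun x => φ (8 * x) / 8)
    (klee_compact hC) (klee_compact hC') (klee_le hC) (klee_le hC') (klee_disj hCFIN hC)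
    (klee_disj hCFIN hC') (klee_iso hC) (klee_iso hC')
    (by
      rw [← image_union]
      refine (hφc.comp (Continuous.continuousOn (by fun_prop)) ?_).div_const 8
      rintro _ ⟨x, hx, rfl⟩
      simp only
      rw [mul_div_cancel₀ x (by norm_num : (8:ℝ) ≠ 0)]
      exact hx)
    (by
      rw [← image_union]
      rintro _ ⟨x, hx, rfl⟩ _ ⟨y, hy, rfl⟩ hxy
      simp only at hxy ⊢
      rw [hφ8, hφ8] at hxy
      rw [hφi hx hy (by linarith)])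
    (him _ _ hφF) (him _ _ hφI)
  have hΦ₀F : ∀ x ∈ C.F, Φ₀ ((x : ℂ) / 8) = (φ x : ℂ) / 8 := by
    intro x hx
    have h1 := hΦ₀2 (x / 8) (Or.inl ⟨x, hx, rfl⟩)
    rw [hφ8] at h1
    push_cast at h1
    exact h1
  have hex : ∀ i : ℝ, ∃ ε : ℝ, i ∈ C.I → 0 < ε ∧ ∀ z : ℂ, ‖z - (i : ℂ) / 8‖ ≤ ε →
      Φ₀ z = (φ i : ℂ) / 8 + (z - (i : ℂ) / 8) := by
    intro i
    by_cases hi : i ∈ C.I
    · obtain ⟨ε, hε, h1⟩ := hΦ₀3 (i / 8) ⟨i, hi, rfl⟩
      refine ⟨ε, fun _ => ⟨hε, fun z hz => ?_⟩⟩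
      rw [h1 z (by rw [mem_closedBall, dist_eq_norm]; push_cast; exact hz), hφ8]
      push_cast
      rfl
    · exact ⟨0, fun h => absurd h hi⟩
  choose ε hε using hex
  -- the radii
  set r : ℝ → ℝ := fun i => min (min (C.rad i) (C'.rad (φ i))) (8 * ε i) with hr
  have hφmem : ∀ i ∈ C.I, φ i ∈ C'.I := fun i hi => by
    rw [← hφI]
    exact ⟨i, hi, rfl⟩
  have hr1 : ∀ i ∈ C.I, 0 < r i ∧ r i ≤ C.rad i := fun i hi =>
    ⟨lt_min (lt_min (hC.pos i hi) (hC'.pos _ (hφmem i hi))) (by linarith [(hε i hi).1]),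
      (min_le_left _ _).trans (min_le_left _ _)⟩
  have hr2 : ∀ i ∈ C.I, r i ≤ C'.rad (φ i) := fun i _ =>
    (min_le_left _ _).trans (min_le_right _ _)
  have hr3 : ∀ i ∈ C.I, r i ≤ 8 * ε i := fun i _ => min_le_right _ _
  set ψ : ℝ → ℝ := Function.invFunOn φ C.I with hψ
  have hψφ : ∀ i ∈ C.I, ψ (φ i) = i := fun i hi =>
    (hφi.mono subset_union_right).leftInvOn_invFunOn hi
  obtain ⟨Φ₁, hΦ₁1, hΦ₁2, hΦ₁3⟩ := hADJ C { C with rad := r } hC (klee_shrink hC r hr1) rfl rfl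
  obtain ⟨Φ₂, hΦ₂1, hΦ₂2, hΦ₂3⟩ := hADJ C' { C' with rad := fun j => r (ψ j) } hC'
    (klee_shrink hC' _ (by
      intro j hj
      rw [← hφI] at hj
      obtain ⟨i, hi, rfl⟩ := hj
      rw [hψφ i hi]
      exact ⟨(hr1 i hi).1, hr2 i hi⟩)) rfl rfl
  refine ⟨Φ₁.trans (Z.trans (Φ₀.trans (Z.symm.trans Φ₂.symm))), ?_, ?_, ?_⟩
  · intro z hz
    change Φ₂.symm (Z.symm (Φ₀ (Z (Φ₁ z)))) = z
    rw [hΦ₁1 z hz, hZ1 z hz, hΦ₀1 z hz]
    rw [Homeomorph.symm_apply_eq, Homeomorph.symm_apply_eq, hΦ₂1 z hz, hZ1 z hz]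
  · intro x hx
    change Φ₂.symm (Z.symm (Φ₀ (Z (Φ₁ x)))) = _
    have h1 : φ x ∈ C'.F := by
      rw [← hφF]
      exact ⟨x, hx, rfl⟩
    rw [hΦ₁2 x hx, hZ x (by rw [Complex.norm_real, Real.norm_eq_abs]; linarith [hF₁ x hx]),
      hΦ₀F x hx, Homeomorph.symm_apply_eq, Homeomorph.symm_apply_eq, hΦ₂2 _ h1,
      hZ _ (by rw [Complex.norm_real, Real.norm_eq_abs]; linarith [hF₂ _ h1])]
  · intro i hi z hz
    change Φ₂.symm (Z.symm (Φ₀ (Z (Φ₁ z)))) = _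
    have hi' := hφmem i hi
    have hp := hC.pos i hi
    have hp' := hC'.pos _ hi'
    rw [hΦ₁3 i hi z hz]
    change Φ₂.symm (Z.symm (Φ₀ (Z (i + ((r i / C.rad i : ℝ) : ℂ) * (z - i))))) = _
    rw [mem_closedBall, dist_eq_norm] at hz
    set w : ℂ := i + ((r i / C.rad i : ℝ) : ℂ) * (z - i) with hw
    have hwi : ‖w - i‖ ≤ r i := by
      rw [hw, add_sub_cancel_left, norm_mul, Complex.norm_real,
        Real.norm_of_nonneg (div_nonneg (hr1 i hi).1.le hp.le)]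
      calc r i / C.rad i * ‖z - i‖ ≤ r i / C.rad i * C.rad i :=
            mul_le_mul_of_nonneg_left hz (div_nonneg (hr1 i hi).1.le hp.le)
        _ = r i := div_mul_cancel₀ _ hp.ne'
    have hwρ : ‖w‖ ≤ ρ := by
      have := klee_norm hwi
      linarith [hI₁ i hi, (hr1 i hi).2]
    have hw8 : ‖w / 8 - (i : ℂ) / 8‖ ≤ ε i := by
      rw [← sub_div, norm_div]
      have h8 : ‖(8 : ℂ)‖ = 8 := by simp
      rw [h8]
      linarith [hr3 i hi]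
    rw [hZ w hwρ, (hε i hi).2 _ hw8]
    set v : ℂ := (φ i : ℂ) + (w - i) with hv
    have hv8 : (φ i : ℂ) / 8 + (w / 8 - (i : ℂ) / 8) = v / 8 := by
      rw [hv]
      ring
    have hvi : ‖v - φ i‖ ≤ r i := by
      rw [hv, add_sub_cancel_left]
      exact hwi
    have hvρ : ‖v‖ ≤ ρ := by
      have := klee_norm hvi
      linarith [hI₂ _ hi', hr2 i hi]
    rw [hv8, Homeomorph.symm_apply_eq, Homeomorph.symm_apply_eq]
    have hu : (φ i : ℂ) + ((C'.rad (φ i) / C.rad i : ℝ) : ℂ) * (z - i) ∈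
        closedBall (φ i : ℂ) (C'.rad (φ i)) := by
      rw [mem_closedBall, dist_eq_norm, add_sub_cancel_left, norm_mul, Complex.norm_real,
        Real.norm_of_nonneg (div_nonneg hp'.le hp.le)]
      calc C'.rad (φ i) / C.rad i * ‖z - i‖ ≤ C'.rad (φ i) / C.rad i * C.rad i :=
            mul_le_mul_of_nonneg_left hz (div_nonneg hp'.le hp.le)
        _ = C'.rad (φ i) := div_mul_cancel₀ _ hp.ne'
    rw [hΦ₂3 _ hi' _ hu]
    change v / 8 = Z ((φ i : ℂ) + ((r (ψ (φ i)) / C'.rad (φ i) : ℝ) : ℂ) *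
      ((φ i : ℂ) + ((C'.rad (φ i) / C.rad i : ℝ) : ℂ) * (z - i) - (φ i : ℂ)))
    have hvv : (φ i : ℂ) + ((r (ψ (φ i)) / C'.rad (φ i) : ℝ) : ℂ) *
        ((φ i : ℂ) + ((C'.rad (φ i) / C.rad i : ℝ) : ℂ) * (z - i) - (φ i : ℂ)) = v := by
      rw [hψφ i hi, hv, hw]
      have h1 : ((C.rad i : ℝ) : ℂ) ≠ 0 := by exact_mod_cast hp.ne'
      have h2 : ((C'.rad (φ i) : ℝ) : ℂ) ≠ 0 := by exact_mod_cast hp'.ne'
      push_cast
      field_simp
      ring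
    rw [hvv, hZ v hvρ]

end Pool.Agent.SRP
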