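import Pool.Agent.SRP.StC

set_option autoImplicit false

/-! # SRP, module KPRES (helper17): moving presentations -/

open Set Metric Filter Topology Pool.Agent.SRF

namespace Pool.Agent.SRP

/-- distances from real points are multiplied by `r' / r` -/
theorem kpres_dist {i i' r r' : ℝ} (hr : 0 < r) (hr' : 0 < r') (a : ℝ) (z : ℂ) :
    dist ((i' : ℂ) + ((r' / r : ℝ) : ℂ) * (z - i)) ((i' + a * r' : ℝ) : ℂ) =
      r' / r * dist z ((i + a * r : ℝ) : ℂ) := by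
  have h1 : ((i' : ℂ) + ((r' / r : ℝ) : ℂ) * (z - i)) - ((i' + a * r' : ℝ) : ℂ) =
      ((r' / r : ℝ) : ℂ) * (z - ((i + a * r : ℝ) : ℂ)) := by
    have h2 : ((r' / r : ℝ) : ℂ) * (r : ℂ) = (r' : ℂ) := by
      rw [← Complex.ofReal_mul, div_mul_cancel₀ _ hr.ne']
    push_cast at h2 ⊢
    linear_combination (a : ℂ) * h2
  rw [dist_eq_norm, dist_eq_norm, h1, norm_mul, Complex.norm_real, Real.norm_eq_abs,
    abs_of_pos (div_pos hr' hr)]

/-- balls and spheres about real points correspond -/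
theorem kpres_iff {i i' r r' : ℝ} (hr : 0 < r) (hr' : 0 < r') (a b : ℝ) (z : ℂ) :
    (((i' : ℂ) + ((r' / r : ℝ) : ℂ) * (z - i)) ∈ ball ((i' + a * r' : ℝ) : ℂ) (b * r') ↔
      z ∈ ball ((i + a * r : ℝ) : ℂ) (b * r)) ∧
    (((i' : ℂ) + ((r' / r : ℝ) : ℂ) * (z - i)) ∈ sphere ((i' + a * r' : ℝ) : ℂ) (b * r') ↔
      z ∈ sphere ((i + a * r : ℝ) : ℂ) (b * r)) ∧
    (((i' : ℂ) + ((r' / r : ℝ) : ℂ) * (z - i)) ∈ closedBall ((i' + a * r' : ℝ) : ℂ) (b * r') ↔
      z ∈ closedBall ((i + a * r : ℝ) : ℂ) (b * r)) := by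
  rw [mem_ball, mem_ball, mem_sphere, mem_sphere, mem_closedBall, mem_closedBall,
    kpres_dist hr hr']
  have h1 : b * r' = r' / r * (b * r) := by
    field_simp
  rw [h1]
  have h2 : 0 < r' / r := div_pos hr' hr
  exact ⟨mul_lt_mul_iff_of_pos_left h2, mul_right_inj' h2.ne', mul_le_mul_iff_of_pos_left h2⟩

theorem thm_KPRES (_hCFIN : St_CFIN) (hKLEE : St_KLEE) : St_KPRES := by
  intro C C' φ hC hC' hφc hφi hF hI hlab
  obtain ⟨Φ, k1, k2, k3⟩ := hKLEE C C' φ hC hC' hφc hφi hF hI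
  have hI' : ∀ i ∈ C.I, φ i ∈ C'.I := by
    intro i hi
    rw [← hI]
    exact ⟨i, hi, rfl⟩
  have hp : ∀ i ∈ C.I, 0 < C.rad i := hC.pos
  have hp' : ∀ i ∈ C.I, 0 < C'.rad (φ i) := fun i hi => hC'.pos _ (hI' i hi)
  -- the balls correspond
  have hcb : ∀ i ∈ C.I, ∀ z, z ∈ closedBall (i : ℂ) (C.rad i) →
      Φ z ∈ closedBall ((φ i : ℝ) : ℂ) (C'.rad (φ i)) := by
    intro i hi z hz
    have h1 := (kpres_iff (i := i) (i' := φ i) (hp i hi) (hp' i hi) 0 1 z).2.2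
    simp only [zero_mul, add_zero, one_mul] at h1
    rw [k3 i hi z hz, h1]
    exact hz
  have hcb' : ∀ i ∈ C.I, ∀ z, Φ z ∈ closedBall ((φ i : ℝ) : ℂ) (C'.rad (φ i)) →
      z ∈ closedBall (i : ℂ) (C.rad i) := by
    intro i hi z hz
    obtain ⟨w, hw⟩ : ∃ w : ℂ, w = (i : ℂ) + ((C.rad i / C'.rad (φ i) : ℝ) : ℂ) * (Φ z - (φ i : ℝ)) :=
      ⟨_, rfl⟩
    have h1 := (kpres_iff (i := φ i) (i' := i) (hp' i hi) (hp i hi) 0 1 (Φ z)).2.2
    simp only [zero_mul, add_zero, one_mul] at h1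
    have h2 : w ∈ closedBall (i : ℂ) (C.rad i) := by
      rw [hw, h1]
      exact hz
    have h3 : Φ w = Φ z := by
      rw [k3 i hi w h2, hw, add_sub_cancel_left, ← mul_assoc, ← Complex.ofReal_mul]
      have h4 : C'.rad (φ i) / C.rad i * (C.rad i / C'.rad (φ i)) = 1 := by
        have := (hp i hi).ne'
        have := (hp' i hi).ne'
        field_simp
      rw [h4, Complex.ofReal_one, one_mul, add_sub_cancel]
    rw [← Φ.injective h3]
    exact h2
  have hball : ∀ i ∈ C.I, ∀ z ∈ closedBall (i : ℂ) (C.rad i), ∀ a b : ℝ,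
      Φ z ∈ ball ((φ i + a * C'.rad (φ i) : ℝ) : ℂ) (b * C'.rad (φ i)) ↔
        z ∈ ball ((i + a * C.rad i : ℝ) : ℂ) (b * C.rad i) := by
    intro i hi z hz a b
    rw [k3 i hi z hz]
    exact (kpres_iff (hp i hi) (hp' i hi) a b z).1
  have hsph : ∀ i ∈ C.I, ∀ z ∈ closedBall (i : ℂ) (C.rad i), ∀ a b : ℝ,
      Φ z ∈ sphere ((φ i + a * C'.rad (φ i) : ℝ) : ℂ) (b * C'.rad (φ i)) ↔
        z ∈ sphere ((i + a * C.rad i : ℝ) : ℂ) (b * C.rad i) := by
    intro i hi z hz a b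
    rw [k3 i hi z hz]
    exact (kpres_iff (hp i hi) (hp' i hi) a b z).2.1
  -- the sub-balls are in the balls
  have hsub : ∀ (i r : ℝ) (a b : ℝ) (z : ℂ), 0 < r → |a| + b ≤ 1 →
      z ∈ closedBall ((i + a * r : ℝ) : ℂ) (b * r) → z ∈ closedBall (i : ℂ) r := by
    intro i r a b z hr hab hz
    rw [mem_closedBall] at hz ⊢
    have h1 := dist_triangle z ((i + a * r : ℝ) : ℂ) (i : ℂ)
    have h2 : dist ((i + a * r : ℝ) : ℂ) (i : ℂ) = |a| * r := by
      rw [dist_eq_norm, ← Complex.ofReal_sub, add_sub_cancel_left, Complex.norm_real,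
        Real.norm_eq_abs, abs_mul, abs_of_pos hr]
    rw [h2] at h1
    nlinarith
  -- holes
  have hform : ∀ (D : Conf) (i : ℝ) (z : ℂ), z ∈ D.holes i ↔
      (D.lab i = Lab.T ∧ (z ∈ ball ((i + (-(1 / 2)) * D.rad i : ℝ) : ℂ) (1 / 8 * D.rad i) ∨
        z ∈ ball ((i + (1 / 2) * D.rad i : ℝ) : ℂ) (1 / 8 * D.rad i))) ∨
      (D.lab i ≠ Lab.T ∧ z ∈ ball ((i + 0 * D.rad i : ℝ) : ℂ) (1 / 2 * D.rad i)) := by
    intro D i z
    have e1 : i + (-(1 / 2)) * D.rad i = i - D.rad i / 2 := by ring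
    have e2 : i + (1 / 2) * D.rad i = i + D.rad i / 2 := by ring
    have e3 : i + 0 * D.rad i = i := by ring
    have e4 : 1 / 8 * D.rad i = D.rad i / 8 := by ring
    have e5 : 1 / 2 * D.rad i = D.rad i / 2 := by ring
    rw [e1, e2, e3, e4, e5]
    unfold Conf.holes
    cases h : D.lab i <;> simp
  have hholesub : ∀ D : Conf, ∀ i, 0 < D.rad i → ∀ z ∈ D.holes i, z ∈ closedBall (i : ℂ) (D.rad i) := by
    intro D i hi z hz
    rw [hform] at hz
    rcases hz with ⟨-, h | h⟩ | ⟨-, h⟩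
    · exact hsub i _ _ _ z hi (by rw [abs_neg, abs_of_pos] <;> norm_num) (ball_subset_closedBall h)
    · exact hsub i _ _ _ z hi (by rw [abs_of_pos] <;> norm_num) (ball_subset_closedBall h)
    · exact hsub i _ _ _ z hi (by rw [abs_zero]; norm_num) (ball_subset_closedBall h)
  have hhole : ∀ i ∈ C.I, ∀ z, z ∈ C.holes i ↔ Φ z ∈ C'.holes (φ i) := by
    intro i hi z
    have key : z ∈ closedBall (i : ℂ) (C.rad i) → (z ∈ C.holes i ↔ Φ z ∈ C'.holes (φ i)) := by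
      intro hz
      rw [hform, hform, hlab i hi, hball i hi z hz, hball i hi z hz, hball i hi z hz]
    constructor
    · intro h
      exact (key (hholesub C i (hp i hi) z h)).1 h
    · intro h
      exact (key (hcb' i hi z (hholesub C' (φ i) (hp' i hi) _ h))).2 h
  have hsubset : ∀ S : Set ℂ, ∀ S' : Set ℂ, (∀ z, z ∈ S ↔ Φ z ∈ S') → Φ '' S = S' := by
    intro S S' h
    ext w
    constructor
    · rintro ⟨z, hz, rfl⟩
      exact (h z).1 hz
    · intro hw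
      exact ⟨Φ.symm w, (h _).2 (by rwa [Φ.apply_symm_apply]), Φ.apply_symm_apply w⟩
  -- the unit disc
  have hOD : ∀ z, z ∈ OD ↔ Φ z ∈ OD := by
    intro z
    constructor
    · intro hz
      by_contra hn
      have h1 := k1 _ hn
      rw [Φ.injective h1] at hn
      exact hn hz
    · intro hz
      by_contra hn
      rw [k1 z hn] at hz
      exact hn hz
  have hCD : ∀ z, z ∈ CD ↔ Φ z ∈ CD := by
    intro z
    by_cases hz : z ∈ OD
    · exact ⟨fun _ => ball_subset_closedBall ((hOD z).1 hz), fun _ => ball_subset_closedBall hz⟩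
    · rw [k1 z hz]
  have hends : ∀ z : ℂ, z ∈ (fun x : ℝ => (x : ℂ)) '' C.F ↔ Φ z ∈ (fun x : ℝ => (x : ℂ)) '' C'.F := by
    intro z
    constructor
    · rintro ⟨x, hx, rfl⟩
      refine ⟨φ x, ?_, (k2 x hx).symm⟩
      rw [← hF]
      exact ⟨x, hx, rfl⟩
    · rintro ⟨x', hx', hx'z⟩
      rw [← hF] at hx'
      obtain ⟨x, hx, rfl⟩ := hx'
      refine ⟨x, hx, ?_⟩
      refine Φ.injective ?_
      simp only
      rw [k2 x hx]
      exact hx'z
  have hDom : ∀ z, z ∈ C.Dom ↔ Φ z ∈ C'.Dom := by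
    intro z
    unfold Conf.Dom
    rw [Set.mem_sdiff, Set.mem_sdiff, mem_union, mem_union, ← hends z, ← hCD z]
    have h1 : z ∈ (⋃ i ∈ C.I, C.holes i) ↔ Φ z ∈ ⋃ i ∈ C'.I, C'.holes i := by
      rw [mem_iUnion₂, mem_iUnion₂]
      constructor
      · rintro ⟨i, hi, h⟩
        exact ⟨φ i, hI' i hi, (hhole i hi z).1 h⟩
      · rintro ⟨i', hi', h⟩
        rw [← hI] at hi'
        obtain ⟨i, hi, rfl⟩ := hi'
        exact ⟨i, hi, (hhole i hi z).2 h⟩
    rw [h1]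
  have hFree : ∀ z, z ∈ C.FreeBd ↔ Φ z ∈ C'.FreeBd := by
    intro z
    unfold Conf.FreeBd
    rw [mem_iUnion₂, mem_iUnion₂]
    have e3 : ∀ i r : ℝ, i + 0 * r = i := fun i r => by ring
    have e5 : ∀ r : ℝ, 1 / 2 * r = r / 2 := fun r => by ring
    constructor
    · rintro ⟨i, hi, h⟩
      have h1 : z ∈ sphere ((i + 0 * C.rad i : ℝ) : ℂ) (1 / 2 * C.rad i) := by
        rw [e3, e5]
        exact h
      have h2 : z ∈ closedBall (i : ℂ) (C.rad i) :=
        hsub i _ _ _ z (hp i hi.1) (by rw [abs_zero]; norm_num) (sphere_subset_closedBall h1)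
      have h3 := (hsph i hi.1 z h2 0 (1 / 2)).2 h1
      rw [e3, e5] at h3
      exact ⟨φ i, ⟨hI' i hi.1, by rw [hlab i hi.1]; exact hi.2⟩, h3⟩
    · rintro ⟨i', ⟨hi', hl⟩, h⟩
      rw [← hI] at hi'
      obtain ⟨i, hi, rfl⟩ := hi'
      rw [hlab i hi] at hl
      have h1 : Φ z ∈ sphere ((φ i + 0 * C'.rad (φ i) : ℝ) : ℂ) (1 / 2 * C'.rad (φ i)) := by
        rw [e3, e5]
        exact h
      have h2 : z ∈ closedBall (i : ℂ) (C.rad i) :=
        hcb' i hi z (hsub (φ i) _ _ _ _ (hp' i hi) (by rw [abs_zero]; norm_num)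
          (sphere_subset_closedBall h1))
      have h3 := (hsph i hi z h2 0 (1 / 2)).1 h1
      rw [e3, e5] at h3
      exact ⟨i, ⟨hi, hl⟩, h3⟩
  -- the relations
  have hcbconj : ∀ (i r : ℝ) (z : ℂ), z ∈ closedBall (i : ℂ) r →
      2 * (i : ℂ) - (starRingEnd ℂ) z ∈ closedBall (i : ℂ) r := by
    intro i r z hz
    rw [mem_closedBall, dist_eq_norm] at hz ⊢
    have h1 : 2 * (i : ℂ) - (starRingEnd ℂ) z - i = -(starRingEnd ℂ) (z - i) := by
      rw [map_sub, Complex.conj_ofReal]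
      ring
    rw [h1, norm_neg, RCLike.norm_conj]
    exact hz
  have hcbneg : ∀ (i r : ℝ) (z : ℂ), z ∈ closedBall (i : ℂ) r → 2 * (i : ℂ) - z ∈ closedBall (i : ℂ) r := by
    intro i r z hz
    rw [mem_closedBall, dist_eq_norm] at hz ⊢
    have h1 : 2 * (i : ℂ) - z - i = -(z - i) := by ring
    rw [h1, norm_neg]
    exact hz
  have hΦconj : ∀ i ∈ C.I, ∀ z ∈ closedBall (i : ℂ) (C.rad i),
      Φ (2 * (i : ℂ) - (starRingEnd ℂ) z) = 2 * ((φ i : ℝ) : ℂ) - (starRingEnd ℂ) (Φ z) := by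
    intro i hi z hz
    rw [k3 i hi z hz, k3 i hi _ (hcbconj i _ z hz), map_add, map_mul, map_sub, Complex.conj_ofReal,
      Complex.conj_ofReal, Complex.conj_ofReal]
    ring
  have hΦneg : ∀ i ∈ C.I, ∀ z ∈ closedBall (i : ℂ) (C.rad i),
      Φ (2 * (i : ℂ) - z) = 2 * ((φ i : ℝ) : ℂ) - Φ z := by
    intro i hi z hz
    rw [k3 i hi z hz, k3 i hi _ (hcbneg i _ z hz)]
    ring
  have hRel : ∀ x y, C.Rel x y ↔ C'.Rel (Φ x) (Φ y) := by
    intro x y
    have e1 : ∀ i r : ℝ, i + (-(1 / 2)) * r = i - r / 2 := fun i r => by ring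
    have e2 : ∀ i r : ℝ, i + (1 / 2) * r = i + r / 2 := fun i r => by ring
    have e3 : ∀ i r : ℝ, i + 0 * r = i := fun i r => by ring
    have e4 : ∀ r : ℝ, 1 / 8 * r = r / 8 := fun r => by ring
    have e5 : ∀ r : ℝ, 1 / 2 * r = r / 2 := fun r => by ring
    -- the circles lie in the balls
    have s1 : ∀ (i r : ℝ) (z : ℂ), 0 < r → z ∈ sphere ((i - r / 2 : ℝ) : ℂ) (r / 8) →
        z ∈ closedBall (i : ℂ) r := by
      intro i r z hr h
      refine hsub i r (-(1 / 2)) (1 / 8) z hr (by rw [abs_neg, abs_of_pos] <;> norm_num) ?_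
      rw [e1, e4]
      exact sphere_subset_closedBall h
    have s2 : ∀ (i r : ℝ) (z : ℂ), 0 < r → z ∈ sphere ((i + r / 2 : ℝ) : ℂ) (r / 8) →
        z ∈ closedBall (i : ℂ) r := by
      intro i r z hr h
      refine hsub i r (1 / 2) (1 / 8) z hr (by rw [abs_of_pos] <;> norm_num) ?_
      rw [e2, e4]
      exact sphere_subset_closedBall h
    have s3 : ∀ (i r : ℝ) (z : ℂ), 0 < r → z ∈ sphere (i : ℂ) (r / 2) →
        z ∈ closedBall (i : ℂ) r := by
      intro i r z hr h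
      rw [mem_closedBall]
      rw [mem_sphere] at h
      linarith
    have t1 : ∀ i ∈ C.I, ∀ z ∈ closedBall (i : ℂ) (C.rad i),
        (Φ z ∈ sphere ((φ i - C'.rad (φ i) / 2 : ℝ) : ℂ) (C'.rad (φ i) / 8) ↔
          z ∈ sphere ((i - C.rad i / 2 : ℝ) : ℂ) (C.rad i / 8)) := by
      intro i hi z hz
      have := hsph i hi z hz (-(1 / 2)) (1 / 8)
      rwa [e1, e4, e1, e4] at this
    have t2 : ∀ i ∈ C.I, ∀ z ∈ closedBall (i : ℂ) (C.rad i),
        (Φ z ∈ sphere ((φ i + C'.rad (φ i) / 2 : ℝ) : ℂ) (C'.rad (φ i) / 8) ↔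
          z ∈ sphere ((i + C.rad i / 2 : ℝ) : ℂ) (C.rad i / 8)) := by
      intro i hi z hz
      have := hsph i hi z hz (1 / 2) (1 / 8)
      rwa [e2, e4, e2, e4] at this
    have t3 : ∀ i ∈ C.I, ∀ z ∈ closedBall (i : ℂ) (C.rad i),
        (Φ z ∈ sphere ((φ i : ℝ) : ℂ) (C'.rad (φ i) / 2) ↔
          z ∈ sphere (i : ℂ) (C.rad i / 2)) := by
      intro i hi z hz
      have := hsph i hi z hz 0 (1 / 2)
      rwa [e3, e5, e3, e5] at this
    constructor
    · rintro (h | ⟨i, hi, ⟨hl, hx, hy⟩ | ⟨hl, hx, hy⟩⟩)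
      · exact Or.inl (by rw [h])
      · have hxb : x ∈ closedBall (i : ℂ) (C.rad i) := by
          rcases hx with h | h
          · exact s1 i _ x (hp i hi) h
          · exact s2 i _ x (hp i hi) h
        refine Or.inr ⟨φ i, hI' i hi, Or.inl ⟨by rw [hlab i hi, hl], ?_, ?_⟩⟩
        · rw [t1 i hi x hxb, t2 i hi x hxb]
          exact hx
        · rw [hy, hΦconj i hi x hxb]
      · have hxb : x ∈ closedBall (i : ℂ) (C.rad i) := s3 i _ x (hp i hi) hx
        refine Or.inr ⟨φ i, hI' i hi, Or.inr ⟨by rw [hlab i hi, hl], ?_, ?_⟩⟩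
        · rw [t3 i hi x hxb]
          exact hx
        · rw [hy, hΦneg i hi x hxb]
    · rintro (h | ⟨i', hi', h⟩)
      · exact Or.inl (Φ.injective h)
      · rw [← hI] at hi'
        obtain ⟨i, hi, rfl⟩ := hi'
        rw [hlab i hi] at h
        rcases h with ⟨hl, hx, hy⟩ | ⟨hl, hx, hy⟩
        · have hxb : x ∈ closedBall (i : ℂ) (C.rad i) := by
            refine hcb' i hi x ?_
            rcases hx with h | h
            · exact s1 _ _ _ (hp' i hi) h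
            · exact s2 _ _ _ (hp' i hi) h
          rw [t1 i hi x hxb, t2 i hi x hxb] at hx
          rw [← hΦconj i hi x hxb] at hy
          exact Or.inr ⟨i, hi, Or.inl ⟨hl, hx, Φ.injective hy⟩⟩
        · have hxb : x ∈ closedBall (i : ℂ) (C.rad i) := hcb' i hi x (s3 _ _ _ (hp' i hi) hx)
          rw [t3 i hi x hxb] at hx
          rw [← hΦneg i hi x hxb] at hy
          exact Or.inr ⟨i, hi, Or.inr ⟨hl, hx, Φ.injective hy⟩⟩
  have hDomI : Φ '' C.Dom = C'.Dom := hsubset _ _ hDom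
  have hDomS : ∀ w ∈ C'.Dom, Φ.symm w ∈ C.Dom := by
    intro w hw
    rw [hDom, Φ.apply_symm_apply]
    exact hw
  refine ⟨Φ, k1, k3, hDomI, hsubset _ _ hFree, ?_⟩
  intro X _ L q hq
  refine ⟨hq.cont.comp Φ.symm.continuous.continuousOn hDomS, ?_, ?_, ?_⟩
  · rw [← hq.image, ← hDomI, image_image]
    exact image_congr fun z _ => by rw [Φ.symm_apply_apply]
  · intro x hx y hy
    rw [hq.rel _ (hDomS x hx) _ (hDomS y hy), hRel, Φ.apply_symm_apply, Φ.apply_symm_apply]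
  · intro A hA hAc
    obtain ⟨B, hB1, hB2, hB3⟩ := hq.proper A hA hAc
    refine ⟨Φ '' B, ?_, hB2.image Φ.continuous, ?_⟩
    · rw [← hDomI]
      exact image_mono hB1
    · intro x hx hxA
      exact ⟨Φ.symm x, hB3 _ (hDomS x hx) hxA, Φ.apply_symm_apply x⟩

end Pool.Agent.SRP
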