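import Pool.Agent.SRP.StD
import Pool.Agent.SRF.StA

/-!
# SRP, LA (helper25): a disc attached to an annulus along the whole circle
-/

set_option autoImplicit false

open Set Metric Filter Topology Pool.Agent.SRF

namespace Pool.Agent.SRP

/-- the configuration without centres -/
private def la_C : Conf where
  F := ∅
  I := ∅
  rad := fun _ => 1
  lab := fun _ => Lab.O

private theorem la_ok : la_C.Ok where
  closed := isClosed_empty
  compact := by
    change IsCompact (∅ ∪ ∅ : Set ℝ)
    rw [union_empty]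
    exact isCompact_empty
  td := isTotallyDisconnected_empty
  small := fun x hx => absurd hx (notMem_empty x)
  pos := fun x hx => absurd hx (notMem_empty x)
  inside := fun x hx => absurd hx (notMem_empty x)
  away := fun x hx => absurd hx (notMem_empty x)
  apart := fun x hx => absurd hx (notMem_empty x)

private theorem la_dom : la_C.Dom = CD := by
  unfold Conf.Dom la_C
  simp

private theorem la_rel (x y : ℂ) : la_C.Rel x y ↔ x = y := by
  unfold Conf.Rel la_C
  simp

private theorem la_free : la_C.FreeBd = ∅ := by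
  unfold Conf.FreeBd la_C
  simp

private theorem la_cnt (l : Lab) : la_C.cnt l = 0 := by
  unfold Conf.cnt la_C
  simp

private theorem la_ann : IsCompact Ann := by
  have h : Ann = closedBall (0 : ℂ) 1 ∩ {z : ℂ | 1 / 4 ≤ ‖z‖} := by
    ext z
    unfold Ann
    rw [mem_inter_iff, mem_closedBall_zero_iff]
    exact and_comm
  rw [h]
  exact (isCompact_closedBall 0 1).inter_right (isClosed_le continuous_const continuous_norm)

/-- the inverse of a continuous injective map on a compact set is continuous -/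
private theorem la_inv {X : Type} [TopologicalSpace X] [T2Space X] {K : Set ℂ} {f : ℂ → X}
    (hK : IsCompact K) (hf : ContinuousOn f K) (hi : InjOn f K) :
    ContinuousOn (Function.invFunOn f K) (f '' K) := by
  have hg : ∀ z ∈ K, Function.invFunOn f K (f z) = z := fun z hz => hi.leftInvOn_invFunOn hz
  rw [continuousOn_iff_isClosed]
  intro t ht
  refine ⟨f '' (K ∩ t), ?_, ?_⟩
  · exact ((hK.inter_right ht).image_of_continuousOn (hf.mono inter_subset_left)).isClosed
  · ext w
    constructor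
    · rintro ⟨hw, z, hz, rfl⟩
      rw [mem_preimage, hg z hz] at hw
      exact ⟨⟨z, ⟨hz, hw⟩, rfl⟩, ⟨z, hz, rfl⟩⟩
    · rintro ⟨⟨z, ⟨hz, hzt⟩, rfl⟩, hw⟩
      refine ⟨?_, hw⟩
      rw [mem_preimage, hg z hz]
      exact hzt

open Classical in
/-- **LA.** -/
theorem thm_LA (hM : St_MONO) (hR : Pool.Agent.SRF.St_RADH) : St_LA := by
  intro X _ _ W Bd u e hW he
  obtain ⟨q, hqc, hqi, hqW, hqB, hqu⟩ := hW
  have hsubU : UC ⊆ CD := sphere_subset_closedBall
  have hsph : sphere (0 : ℂ) (1 / 4) ⊆ Ann := by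
    intro z hz
    rw [mem_sphere_zero_iff_norm] at hz
    unfold Ann
    rw [mem_setOf_eq, hz]
    norm_num
  have hUA : UC ⊆ Ann := by
    intro z hz
    rw [mem_sphere_zero_iff_norm] at hz
    unfold Ann
    rw [mem_setOf_eq, hz]
    norm_num
  have hg : ∀ z ∈ Ann, Function.invFunOn q Ann (q z) = z := fun z hz => hqi.leftInvOn_invFunOn hz
  have hgc := la_inv la_ann hqc hqi
  -- the points of the circle
  have hw : ∀ z ∈ UC, ∃ w ∈ sphere (0 : ℂ) (1 / 4), q w = e z := by
    intro z hz
    have h1 : e z ∈ Bd := he.bd ⟨z, hz, rfl⟩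
    rw [← hqB] at h1
    obtain ⟨w, hw1, hw2⟩ := h1
    exact ⟨w, hw1, hw2⟩
  set b : ℂ → ℂ := fun z => 4 * Function.invFunOn q Ann (e z) with hb
  have hqb : ∀ z ∈ UC, ‖b z‖ = 1 ∧ q (b z / 4) = e z := by
    intro z hz
    obtain ⟨w, hw1, hw2⟩ := hw z hz
    have h1 : b z = 4 * w := by
      change 4 * Function.invFunOn q Ann (e z) = 4 * w
      rw [← hw2, hg w (hsph hw1)]
    rw [mem_sphere_zero_iff_norm] at hw1
    refine ⟨?_, ?_⟩
    · rw [h1, norm_mul, hw1]
      norm_num
    · rw [h1, mul_div_cancel_left₀ w (by norm_num : (4 : ℂ) ≠ 0), hw2]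
  have hbc : ContinuousOn b UC := by
    refine continuousOn_const.mul (hgc.comp (he.cont.mono hsubU) ?_)
    intro z hz
    obtain ⟨w, hw1, hw2⟩ := hw z hz
    exact ⟨w, hsph hw1, hw2⟩
  have hbi : InjOn b UC := by
    intro z hz w hw h
    apply he.inj (hsubU hz) (hsubU hw)
    rw [← (hqb z hz).2, ← (hqb w hw).2, h]
  have hbm : MapsTo b UC UC := fun z hz => mem_sphere_zero_iff_norm.2 (hqb z hz).1
  have hbs : b '' UC = UC := hM.2 0 1 b one_pos hbc hbi hbm
  have hBd : e '' UC = Bd := by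
    refine Subset.antisymm he.bd ?_
    rw [← hqB]
    rintro _ ⟨w, hw, rfl⟩
    have h1 : 4 * w ∈ UC := by
      rw [mem_sphere_zero_iff_norm] at hw ⊢
      rw [norm_mul, hw]
      norm_num
    rw [← hbs] at h1
    obtain ⟨z, hz, hzw⟩ := h1
    refine ⟨z, hz, ?_⟩
    rw [← (hqb z hz).2, hzw, mul_div_cancel_left₀ w (by norm_num : (4 : ℂ) ≠ 0)]
  refine ⟨hBd, ?_⟩
  obtain ⟨c, hcb, hcn⟩ := hR b hbc hbi hbm
  have hcs : ∀ z, ‖c.symm z‖ = ‖z‖ := by
    intro z
    have h1 := hcn (c.symm z)
    rw [c.apply_symm_apply] at h1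
    exact h1.symm
  set Q : ℂ → X := fun z => if ‖z‖ ≤ 1 / 4 then e (c.symm (4 * z)) else q z with hQ
  have hQ1 : ∀ z, ‖z‖ ≤ 1 / 4 → Q z = e (c.symm (4 * z)) := fun z hz => if_pos hz
  have hQ2 : ∀ z, 1 / 4 ≤ ‖z‖ → Q z = q z := by
    intro z hz
    rcases hz.lt_or_eq with h | h
    · exact if_neg (not_le.2 h)
    · rw [hQ1 z h.ge]
      have h1 : c.symm (4 * z) ∈ UC := by
        rw [mem_sphere_zero_iff_norm, hcs, norm_mul, ← h]
        norm_num
      have h2 := (hqb _ h1).2
      rw [← hcb h1, c.apply_symm_apply, mul_div_cancel_left₀ z (by norm_num : (4 : ℂ) ≠ 0)] at h2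
      exact h2.symm
  have hmem4 : ∀ z : ℂ, ‖z‖ ≤ 1 / 4 → c.symm (4 * z) ∈ CD := by
    intro z hz
    rw [mem_closedBall_zero_iff, hcs, norm_mul]
    norm_num
    linarith
  have hcov : (CD : Set ℂ) = closedBall 0 (1 / 4) ∪ Ann := by
    ext z
    unfold Ann
    rw [mem_union, mem_closedBall_zero_iff, mem_closedBall_zero_iff, mem_setOf_eq]
    constructor
    · intro h
      rcases le_total ‖z‖ (1 / 4) with h1 | h1
      · exact Or.inl h1
      · exact Or.inr ⟨h1, h⟩
    · rintro (h | h)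
      · exact h.trans (by norm_num)
      · exact h.2
  have hQc : ContinuousOn Q CD := by
    rw [hcov]
    refine ContinuousOn.union_of_isClosed ?_ ?_ isClosed_closedBall la_ann.isClosed
    · have h1 : ContinuousOn (fun z => e (c.symm (4 * z))) (closedBall (0 : ℂ) (1 / 4)) := by
        refine he.cont.comp (c.symm.continuous.comp (continuous_const.mul
          continuous_id)).continuousOn ?_
        intro z hz
        exact hmem4 z (mem_closedBall_zero_iff.1 hz)
      exact h1.congr fun z hz => hQ1 z (mem_closedBall_zero_iff.1 hz)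
    · exact hqc.congr fun z hz => hQ2 z hz.1
  have hmix : ∀ z w, ‖z‖ ≤ 1 / 4 → w ∈ Ann → Q z = Q w → z = w := by
    intro z w hz hw h
    rw [hQ1 z hz, hQ2 w hw.1] at h
    have h1 : e (c.symm (4 * z)) ∈ e '' UC := by
      rw [← he.meet]
      refine ⟨⟨_, hmem4 z hz, rfl⟩, ?_⟩
      rw [h, ← hqW]
      exact ⟨w, hw, rfl⟩
    obtain ⟨ζ, hζ, hζe⟩ := h1
    have h2 := he.inj (hsubU hζ) (hmem4 z hz) hζe
    rw [h2, mem_sphere_zero_iff_norm, hcs, norm_mul] at hζ
    have h3 : ‖z‖ = 1 / 4 := by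
      norm_num at hζ
      linarith
    have h4 : q z = q w := by
      rw [← h, ← hQ1 z hz, hQ2 z h3.ge]
    exact hqi (hsph (mem_sphere_zero_iff_norm.2 h3)) hw h4
  have hQi : InjOn Q CD := by
    intro z hz w hw h
    rw [hcov] at hz hw
    rcases hz with hz | hz
    · rw [mem_closedBall_zero_iff] at hz
      rcases hw with hw | hw
      · rw [mem_closedBall_zero_iff] at hw
        rw [hQ1 z hz, hQ1 w hw] at h
        have h1 := he.inj (hmem4 z hz) (hmem4 w hw) h
        exact mul_left_cancel₀ (by norm_num : (4 : ℂ) ≠ 0) (c.symm.injective h1)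
      · exact hmix z w hz hw h
    · rcases hw with hw | hw
      · rw [mem_closedBall_zero_iff] at hw
        exact (hmix w z hw hz h.symm).symm
      · rw [hQ2 z hz.1, hQ2 w hw.1] at h
        exact hqi hz hw h
  have hQim : Q '' CD = W ∪ e '' CD := by
    rw [hcov, image_union, union_comm]
    congr 1
    · rw [← hqW]
      exact image_congr fun z hz => hQ2 z hz.1
    · rw [← hcov]
      refine Subset.antisymm ?_ ?_
      · rintro _ ⟨z, hz, rfl⟩
        rw [mem_closedBall_zero_iff] at hz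
        rw [hQ1 z hz]
        exact ⟨_, hmem4 z hz, rfl⟩
      · rintro _ ⟨z, hz, rfl⟩
        rw [mem_closedBall_zero_iff] at hz
        have h1 : ‖c z / 4‖ ≤ 1 / 4 := by
          rw [norm_div, hcn]
          norm_num
          linarith
        refine ⟨c z / 4, mem_closedBall_zero_iff.2 h1, ?_⟩
        rw [hQ1 _ h1, mul_div_cancel₀ _ (by norm_num : (4 : ℂ) ≠ 0), c.symm_apply_apply]
  refine ⟨la_C, la_ok, rfl, la_cnt _, la_cnt _, la_cnt _, Q, ⟨?_, ?_, ?_, ?_⟩, ?_, ?_⟩
  · rw [la_dom]
    exact hQc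
  · rw [la_dom]
    exact hQim
  · intro x hx y hy
    rw [la_dom] at hx hy
    rw [la_rel]
    exact hQi.eq_iff hx hy
  · intro A _ _
    exact ⟨CD, by rw [la_dom], isCompact_closedBall 0 1, fun x hx _ => by rwa [la_dom] at hx⟩
  · intro z hz
    rw [hQ2 z (hUA hz).1]
    exact hqu z hz
  · rw [la_free, image_empty]

end Pool.Agent.SRP
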