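import Pool.Agent.SRP.StD

set_option autoImplicit false

/-! # SRP (MP_3b9597_lc), LD: a disc attached to an annulus along two arcs -/

namespace Pool.Agent.SRP

open Set Metric Topology Pool.Agent.SRF

theorem ld_fin {X : Type} [TopologicalSpace X] {t p o : ℕ} {L Bd : Set X} {q u : ℂ → X}
    (h : FinPres t p o L Bd q) (hqu : ∀ z ∈ UC, q z = u z) : FinPres t p o L Bd u := by
  obtain ⟨C, h1, h2, h3, h4, h5, q', h6, h7, h8⟩ := h
  exact ⟨C, h1, h2, h3, h4, h5, q', h6, fun z hz => (h7 z hz).trans (hqu z hz), h8⟩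

theorem ld_core (hLU : St_LU) (hLT : St_LT) {X : Type} [TopologicalSpace X] [T2Space X]
    (q H : ℂ → X) (θ₁ θ₂ : ℝ → ℝ) (h1 : ContinuousOn q Ann) (h2 : InjOn q Ann)
    (h3 : ContinuousOn H Sq) (h4 : InjOn H Sq) (h5 : H '' Sq ∩ q '' Ann = H '' SqA)
    (h6 : ContinuousOn θ₁ (Icc (-1) 1)) (h7 : ContinuousOn θ₂ (Icc (-1) 1))
    (h8 : StrictAntiOn θ₁ (Icc (-1) 1))
    (h9 : StrictMonoOn θ₂ (Icc (-1) 1) ∨ StrictAntiOn θ₂ (Icc (-1) 1))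
    (h10 : ∀ x ∈ Icc (-1 : ℝ) 1, H (x + Complex.I) = q (1 / 4 * cexpi (θ₁ x)))
    (h11 : ∀ x ∈ Icc (-1 : ℝ) 1, H (x - Complex.I) = q (1 / 4 * cexpi (θ₂ x))) :
    FinPres 0 0 2 (q '' Ann ∪ H '' Sq) ((q '' sphere 0 (1 / 4) \ H '' SqO) ∪ H '' SqF) q ∨
    FinPres 0 1 1 (q '' Ann ∪ H '' Sq) ((q '' sphere 0 (1 / 4) \ H '' SqO) ∪ H '' SqF) q := by
  rcases h9 with h9 | h9
  · exact Or.inl (hLU X q H θ₁ θ₂ h1 h2 h3 h4 h5 h6 h7 h8 h9 h10 h11)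
  · exact Or.inr (hLT X q H θ₁ θ₂ h1 h2 h3 h4 h5 h6 h7 h8 h9 h10 h11)

/-- the reflection in the imaginary axis -/
noncomputable def ld_s (z : ℂ) : ℂ := -(starRingEnd ℂ) z

theorem ld_s_re (z : ℂ) : (ld_s z).re = -z.re := by simp [ld_s]

theorem ld_s_im (z : ℂ) : (ld_s z).im = z.im := by simp [ld_s]

theorem ld_s_s (z : ℂ) : ld_s (ld_s z) = z := by
  apply Complex.ext
  · rw [ld_s_re, ld_s_re, neg_neg]
  · rw [ld_s_im, ld_s_im]

theorem ld_s_cont : Continuous ld_s := by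
  unfold ld_s
  exact Complex.continuous_conj.neg

theorem ld_image {S : Set ℂ} (h : ∀ z ∈ S, ld_s z ∈ S) : ld_s '' S = S := by
  apply Subset.antisymm
  · rintro _ ⟨z, hz, rfl⟩
    exact h z hz
  · intro z hz
    exact ⟨ld_s z, h z hz, ld_s_s z⟩

theorem ld_sq : ∀ z ∈ Sq, ld_s z ∈ Sq := by
  intro z hz
  show |(ld_s z).re| ≤ 1 ∧ |(ld_s z).im| ≤ 1
  rw [ld_s_re, ld_s_im, abs_neg]
  exact hz

theorem ld_sqA : ∀ z ∈ SqA, ld_s z ∈ SqA := by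
  intro z hz
  show |(ld_s z).re| ≤ 1 ∧ |(ld_s z).im| = 1
  rw [ld_s_re, ld_s_im, abs_neg]
  exact hz

theorem ld_sqO : ∀ z ∈ SqO, ld_s z ∈ SqO := by
  intro z hz
  show |(ld_s z).re| < 1 ∧ |(ld_s z).im| = 1
  rw [ld_s_re, ld_s_im, abs_neg]
  exact hz

theorem ld_sqF : ∀ z ∈ SqF, ld_s z ∈ SqF := by
  intro z hz
  show |(ld_s z).re| = 1 ∧ |(ld_s z).im| ≤ 1
  rw [ld_s_re, ld_s_im, abs_neg]
  exact hz

theorem ld_neg {x : ℝ} (hx : x ∈ Icc (-1 : ℝ) 1) : -x ∈ Icc (-1 : ℝ) 1 :=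
  ⟨by linarith [hx.2], by linarith [hx.1]⟩

theorem ld_anti {θ : ℝ → ℝ} (h : StrictMonoOn θ (Icc (-1) 1)) :
    StrictAntiOn (fun x => θ (-x)) (Icc (-1) 1) :=
  fun _ hx _ hy hxy => h (ld_neg hy) (ld_neg hx) (neg_lt_neg hxy)

theorem ld_mono {θ : ℝ → ℝ} (h : StrictAntiOn θ (Icc (-1) 1)) :
    StrictMonoOn (fun x => θ (-x)) (Icc (-1) 1) :=
  fun _ hx _ hy hxy => h (ld_neg hy) (ld_neg hx) (neg_lt_neg hxy)

theorem ld_cont {θ : ℝ → ℝ} (h : ContinuousOn θ (Icc (-1) 1)) :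
    ContinuousOn (fun x => θ (-x)) (Icc (-1) 1) :=
  h.comp continuous_neg.continuousOn fun _ hx => ld_neg hx

theorem ld_core2 (hLU : St_LU) (hLT : St_LT) {X : Type} [TopologicalSpace X] [T2Space X]
    (q H : ℂ → X) (θ₁ θ₂ : ℝ → ℝ) (h1 : ContinuousOn q Ann) (h2 : InjOn q Ann)
    (h3 : ContinuousOn H Sq) (h4 : InjOn H Sq) (h5 : H '' Sq ∩ q '' Ann = H '' SqA)
    (h6 : ContinuousOn θ₁ (Icc (-1) 1)) (h7 : ContinuousOn θ₂ (Icc (-1) 1))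
    (h8 : StrictMonoOn θ₁ (Icc (-1) 1) ∨ StrictAntiOn θ₁ (Icc (-1) 1))
    (h9 : StrictMonoOn θ₂ (Icc (-1) 1) ∨ StrictAntiOn θ₂ (Icc (-1) 1))
    (h10 : ∀ x ∈ Icc (-1 : ℝ) 1, H (x + Complex.I) = q (1 / 4 * cexpi (θ₁ x)))
    (h11 : ∀ x ∈ Icc (-1 : ℝ) 1, H (x - Complex.I) = q (1 / 4 * cexpi (θ₂ x))) :
    FinPres 0 0 2 (q '' Ann ∪ H '' Sq) ((q '' sphere 0 (1 / 4) \ H '' SqO) ∪ H '' SqF) q ∨
    FinPres 0 1 1 (q '' Ann ∪ H '' Sq) ((q '' sphere 0 (1 / 4) \ H '' SqO) ∪ H '' SqF) q := by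
  rcases h8 with h8 | h8
  · have e1 : ∀ {S : Set ℂ}, (∀ z ∈ S, ld_s z ∈ S) → (fun z => H (ld_s z)) '' S = H '' S := by
      intro S hS
      rw [← image_image H ld_s, ld_image hS]
    have h := ld_core hLU hLT q (fun z => H (ld_s z)) (fun x => θ₁ (-x)) (fun x => θ₂ (-x)) h1 h2
      (h3.comp ld_s_cont.continuousOn ld_sq)
      (fun x hx y hy hxy => by
        have h12 := h4 (ld_sq x hx) (ld_sq y hy) hxy
        rw [← ld_s_s x, h12, ld_s_s y])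
      (by rw [e1 ld_sq, e1 ld_sqA]; exact h5)
      (ld_cont h6) (ld_cont h7) (ld_anti h8)
      (h9.elim (fun h => Or.inr (ld_anti h)) (fun h => Or.inl (ld_mono h)))
      (fun x hx => by
        have h12 : ld_s (x + Complex.I) = ((-x : ℝ) : ℂ) + Complex.I := by
          apply Complex.ext
          · rw [ld_s_re]
            simp
          · rw [ld_s_im]
            simp
        show H (ld_s (x + Complex.I)) = _
        rw [h12]
        exact h10 (-x) (ld_neg hx))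
      (fun x hx => by
        have h12 : ld_s (x - Complex.I) = ((-x : ℝ) : ℂ) - Complex.I := by
          apply Complex.ext
          · rw [ld_s_re]
            simp
          · rw [ld_s_im]
            simp
        show H (ld_s (x - Complex.I)) = _
        rw [h12]
        exact h11 (-x) (ld_neg hx))
    rwa [e1 ld_sq, e1 ld_sqO, e1 ld_sqF] at h
  · exact ld_core hLU hLT q H θ₁ θ₂ h1 h2 h3 h4 h5 h6 h7 h8 h9 h10 h11

theorem ld_uc (t : ℝ) : cexpi t ∈ UC := by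
  rw [mem_sphere_zero_iff_norm]
  exact Complex.norm_exp_ofReal_mul_I t

theorem thm_LD (hBDT : St_BDT) (hLU : St_LU) (hLT : St_LT) : St_LD := by
  rintro X _ _ W Bd u e a b c d ⟨q, hqc, hqi, hqW, hqB, hqu⟩ hab hbc hcd hda hA
  have hsA : sphere (0 : ℂ) (1 / 4) ⊆ Ann := by
    intro z hz
    rw [mem_sphere_zero_iff_norm] at hz
    exact ⟨hz.ge, by rw [hz]; norm_num⟩
  have hbd := hA.bd
  rw [image_union, ← hqB] at hbd
  obtain ⟨H, θ₁, θ₂, g1, g2, g3, g4, g5, g6, g7, g8, g9, g10, g11, g12⟩ :=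
    hBDT X q e 0 0 (1 / 4) (1 / 4) a b c d hab hbc hcd hda (by norm_num) (by norm_num) hA.cont
      hA.inj (hqc.mono hsA) (hqi.mono hsA) (hqc.mono hsA) (hqi.mono hsA)
      (subset_union_left.trans hbd) (subset_union_right.trans hbd)
  have hq4 : ∀ w : ℂ, (0 : ℂ) + ((1 / 4 : ℝ) : ℂ) * w = 1 / 4 * w := by
    intro w
    push_cast
    ring
  have h := ld_core2 hLU hLT q H θ₁ θ₂ hqc hqi g1 g2
    (by rw [g3, g4, hqW]; exact hA.meet) g7 g8 g9 g10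
    (fun x hx => by rw [g11 x hx, hq4]) (fun x hx => by rw [g12 x hx, hq4])
  have hO : oarc a b ∪ oarc c d ⊆ UC := by
    rintro _ (⟨t, _, rfl⟩ | ⟨t, _, rfl⟩)
    · exact ld_uc t
    · exact ld_uc t
  have hUC : UC ⊆ CD := sphere_subset_closedBall
  have hset : (q '' sphere 0 (1 / 4) \ H '' SqO) ∪ H '' SqF =
      (Bd ∪ e '' UC) \ e '' (oarc a b ∪ oarc c d) := by
    rw [hqB, g5, g6, (hA.inj.mono hUC).image_diff_subset hO, union_diff_distrib]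
  rw [hqW, g3, hset] at h
  rcases h with h | h
  · exact Or.inl (ld_fin h hqu)
  · exact Or.inr (ld_fin h hqu)

end Pool.Agent.SRP
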