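import Pool.Agent.SRP.StE

set_option autoImplicit false

/-! # SRP, module LIM: the limit of the stages -/

open Set Metric Filter Topology Pool.Agent.SRF

namespace Pool.Agent.SRP

theorem lim_dc (a b : ℝ) : dist (a : ℂ) (b : ℂ) = |a - b| := by
  rw [Complex.dist_eq, ← Complex.ofReal_sub, Complex.norm_real, Real.norm_eq_abs]

theorem lim_ball {a b r s : ℝ} (h : |a - b| + r ≤ s) : ball (a : ℂ) r ⊆ ball (b : ℂ) s := by
  intro z hz
  rw [mem_ball] at hz ⊢
  have := dist_triangle z (a : ℂ) (b : ℂ)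
  rw [lim_dc] at this
  linarith

theorem lim_cball {a b r s : ℝ} (h : |a - b| + r ≤ s) :
    closedBall (a : ℂ) r ⊆ closedBall (b : ℂ) s := by
  intro z hz
  rw [mem_closedBall] at hz ⊢
  have := dist_triangle z (a : ℂ) (b : ℂ)
  rw [lim_dc] at this
  linarith

theorem lim_cball' {a b r s : ℝ} (h : |a - b| + r < s) :
    closedBall (a : ℂ) r ⊆ ball (b : ℂ) s := by
  intro z hz
  rw [mem_closedBall] at hz
  rw [mem_ball]
  have := dist_triangle z (a : ℂ) (b : ℂ)
  rw [lim_dc] at this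
  linarith

theorem lim_holes {C : Conf} {i : ℝ} (h : 0 < C.rad i) : C.holes i ⊆ ball (i : ℂ) (C.rad i) := by
  unfold Conf.holes
  cases C.lab i with
  | T =>
    apply union_subset
    · apply lim_ball
      rw [show i - C.rad i / 2 - i = -(C.rad i / 2) by ring, abs_neg, abs_of_pos (by linarith)]
      linarith
    · apply lim_ball
      rw [show i + C.rad i / 2 - i = C.rad i / 2 by ring, abs_of_pos (by linarith)]
      linarith
  | P =>
    apply lim_ball
    rw [sub_self, abs_zero]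
    linarith
  | O =>
    apply lim_ball
    rw [sub_self, abs_zero]
    linarith

theorem lim_holes_congr {C C' : Conf} {i : ℝ} (h1 : C'.rad i = C.rad i)
    (h2 : C'.lab i = C.lab i) : C'.holes i = C.holes i := by
  unfold Conf.holes
  rw [h1, h2]

/-- The relation contributed by one centre. -/
def lim_R (C : Conf) (i : ℝ) (x y : ℂ) : Prop :=
  (C.lab i = Lab.T ∧ (x ∈ sphere ((i - C.rad i / 2 : ℝ) : ℂ) (C.rad i / 8) ∨
      x ∈ sphere ((i + C.rad i / 2 : ℝ) : ℂ) (C.rad i / 8)) ∧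
      y = 2 * (i : ℂ) - (starRingEnd ℂ) x) ∨
    (C.lab i = Lab.P ∧ x ∈ sphere (i : ℂ) (C.rad i / 2) ∧ y = 2 * (i : ℂ) - x)

theorem lim_R_congr {C C' : Conf} {i : ℝ} (h1 : C'.rad i = C.rad i)
    (h2 : C'.lab i = C.lab i) (x y : ℂ) : lim_R C' i x y ↔ lim_R C i x y := by
  unfold lim_R
  rw [h1, h2]

theorem lim_R_ball {C : Conf} {i : ℝ} (h : 0 < C.rad i) {x y : ℂ} (hR : lim_R C i x y) :
    x ∈ closedBall (i : ℂ) (C.rad i) := by
  rcases hR with ⟨-, hx | hx, -⟩ | ⟨-, hx, -⟩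
  · refine lim_cball ?_ (sphere_subset_closedBall hx)
    rw [show i - C.rad i / 2 - i = -(C.rad i / 2) by ring, abs_neg, abs_of_pos (by linarith)]
    linarith
  · refine lim_cball ?_ (sphere_subset_closedBall hx)
    rw [show i + C.rad i / 2 - i = C.rad i / 2 by ring, abs_of_pos (by linarith)]
    linarith
  · refine lim_cball ?_ (sphere_subset_closedBall hx)
    rw [sub_self, abs_zero]
    linarith

theorem lim_R_lab {C : Conf} {i : ℝ} {x y : ℂ} (hR : lim_R C i x y) : C.lab i ≠ Lab.O := by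
  rcases hR with ⟨h, -⟩ | ⟨h, -⟩ <;> rw [h] <;> exact fun h => Lab.noConfusion h

theorem lim_rel_iff {C : Conf} {x y : ℂ} : C.Rel x y ↔ x = y ∨ ∃ i ∈ C.I, lim_R C i x y :=
  Iff.rfl

/-- The centres of the free holes. -/
def lim_O (C : Conf) : Set ℝ := {j ∈ C.I | C.lab j = Lab.O}

/-- The other centres. -/
def lim_N (C : Conf) : Set ℝ := {i ∈ C.I | C.lab i ≠ Lab.O}

/-- The open balls of the free holes. -/
def lim_U (C : Conf) : Set ℂ := ⋃ j ∈ lim_O C, ball (j : ℂ) (C.rad j)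

/-- The closed balls of the free holes. -/
def lim_B (C : Conf) : Set ℂ := ⋃ j ∈ lim_O C, closedBall (j : ℂ) (C.rad j)

theorem lim_UB (C : Conf) : lim_U C ⊆ lim_B C := by
  intro z hz
  simp only [lim_U, lim_B, mem_iUnion] at hz ⊢
  obtain ⟨j, hj, hz⟩ := hz
  exact ⟨j, hj, ball_subset_closedBall hz⟩

theorem lim_mem_U {C : Conf} {z : ℂ} {j : ℝ} (hj : j ∈ lim_O C) (hz : z ∈ ball (j : ℂ) (C.rad j)) :
    z ∈ lim_U C := mem_biUnion hj hz

theorem lim_mem_B {C : Conf} {z : ℂ} {j : ℝ} (hj : j ∈ lim_O C)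
    (hz : z ∈ closedBall (j : ℂ) (C.rad j)) : z ∈ lim_B C := mem_biUnion hj hz

theorem lim_U_open (C : Conf) : IsOpen (lim_U C) :=
  isOpen_biUnion fun _ _ => isOpen_ball

theorem lim_B_closed {C : Conf} (h : C.I.Finite) : IsClosed (lim_B C) :=
  (h.subset fun _ hj => hj.1).isClosed_biUnion fun _ _ => isClosed_closedBall

/-- The combinatorial part of the hypotheses. -/
structure LimC (C : ℕ → Conf) : Prop where
  ok : ∀ n, (C n).Ok
  fin : ∀ n, (C n).I.Finite
  noF : ∀ n, (C n).F = ∅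
  out : ∀ n i, (∀ j ∈ lim_O (C n), (C n).rad j < |i - j|) → ((i ∈ (C (n + 1)).I ↔ i ∈ (C n).I) ∧
    (i ∈ (C n).I → (C (n + 1)).rad i = (C n).rad i ∧ (C (n + 1)).lab i = (C n).lab i))
  slot : ∀ n, ∀ j ∈ lim_O (C n), (C (n + 1)).Slot j ((C n).rad j)
  new : ∀ n, ∀ i ∈ lim_O (C (n + 1)), ∃ j ∈ lim_O (C n),
    |i - j| + (C (n + 1)).rad i < (C n).rad j ∧ (C (n + 1)).rad i ≤ (C n).rad j / 2

/-- The limit configuration. -/
noncomputable def lim_C (C : ℕ → Conf) : Conf where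
  F := {x | ∀ n, ∃ j ∈ lim_O (C n), |x - j| ≤ (C n).rad j}
  I := {i | ∃ n, i ∈ lim_N (C n)}
  rad := fun i => open Classical in
    if h : ∃ n, i ∈ lim_N (C n) then (C h.choose).rad i else 1
  lab := fun i => open Classical in
    if h : ∃ n, i ∈ lim_N (C n) then (C h.choose).lab i else Lab.O

namespace LimC

variable {C : ℕ → Conf} (h : LimC C)

include h

theorem f1 (n : ℕ) {i : ℝ} (hi : i ∈ lim_N (C n)) : i ∈ lim_N (C (n + 1)) ∧
    (C (n + 1)).rad i = (C n).rad i ∧ (C (n + 1)).lab i = (C n).lab i := by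
  have h1 : ∀ j ∈ lim_O (C n), (C n).rad j < |i - j| := by
    intro j hj
    have hij : i ≠ j := fun e => hi.2 (e ▸ hj.2)
    have h2 := (h.ok n).apart i hi.1 j hj.1 hij
    have h3 := (h.ok n).pos i hi.1
    linarith
  obtain ⟨h2, h3⟩ := h.out n i h1
  have h4 := h3 hi.1
  exact ⟨⟨h2.2 hi.1, by rw [h4.2]; exact hi.2⟩, h4⟩

theorem f2 (n : ℕ) {i : ℝ} (hi : i ∈ (C (n + 1)).I) : i ∈ lim_N (C n) ∨
    ∃ j ∈ lim_O (C n), |i - j| + (C (n + 1)).rad i ≤ (C n).rad j := by
  by_cases hc : ∃ j ∈ lim_O (C n), |i - j| + (C (n + 1)).rad i ≤ (C n).rad j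
  · exact Or.inr hc
  · left
    have h1 : ∀ j ∈ lim_O (C n), (C n).rad j < |i - j| := by
      intro j hj
      have h3 := (h.ok (n + 1)).pos i hi
      rcases (h.slot n j hj).ball i hi with h2 | h2
      · exact absurd ⟨j, hj, h2⟩ hc
      · linarith
    have h2 := (h.out n i h1).1.1 hi
    refine ⟨h2, fun h3 => ?_⟩
    have h4 := h1 i ⟨h2, h3⟩
    have h5 := (h.ok n).pos i h2
    rw [sub_self, abs_zero] at h4
    linarith

theorem g1 {n m : ℕ} (hnm : n ≤ m) {i : ℝ} (hi : i ∈ lim_N (C n)) : i ∈ lim_N (C m) ∧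
    (C m).rad i = (C n).rad i ∧ (C m).lab i = (C n).lab i := by
  induction m, hnm using Nat.le_induction with
  | base => exact ⟨hi, rfl, rfl⟩
  | succ m hnm ih =>
    obtain ⟨h1, h2, h3⟩ := ih
    obtain ⟨h4, h5, h6⟩ := h.f1 m h1
    exact ⟨h4, h5.trans h2, h6.trans h3⟩

theorem g2 {n m : ℕ} (hnm : n ≤ m) {i : ℝ} (hi : i ∈ (C m).I) : i ∈ lim_N (C n) ∨
    ∃ j ∈ lim_O (C n), |i - j| + (C m).rad i ≤ (C n).rad j := by
  induction m, hnm using Nat.le_induction generalizing i with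
  | base =>
    by_cases hO : (C n).lab i = Lab.O
    · refine Or.inr ⟨i, ⟨hi, hO⟩, ?_⟩
      rw [sub_self, abs_zero, zero_add]
    · exact Or.inl ⟨hi, hO⟩
  | succ m hnm ih =>
    rcases h.f2 m hi with h1 | ⟨j, hj, h1⟩
    · rcases ih h1.1 with h2 | ⟨j, hj, h2⟩
      · exact Or.inl h2
      · refine Or.inr ⟨j, hj, ?_⟩
        rw [(h.f1 m h1).2.1]
        exact h2
    · rcases ih hj.1 with h2 | ⟨k, hk, h2⟩
      · exact absurd hj.2 (h.g1 hnm h2).1.2
      · refine Or.inr ⟨k, hk, ?_⟩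
        have := abs_sub_le i j k
        linarith

theorem g2O {n m : ℕ} (hnm : n ≤ m) {i : ℝ} (hi : i ∈ lim_O (C m)) :
    ∃ j ∈ lim_O (C n), |i - j| + (C m).rad i ≤ (C n).rad j := by
  rcases h.g2 hnm hi.1 with h1 | h1
  · exact absurd hi.2 (h.g1 hnm h1).1.2
  · exact h1

theorem BU (n : ℕ) : lim_B (C (n + 1)) ⊆ lim_U (C n) := by
  intro z hz
  simp only [lim_B, mem_iUnion] at hz
  obtain ⟨j, hj, hz⟩ := hz
  obtain ⟨k, hk, h1, -⟩ := h.new n j hj
  exact lim_mem_U hk (lim_cball' h1 hz)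

theorem U_anti : Antitone fun n => lim_U (C n) :=
  antitone_nat_of_succ_le fun n => (lim_UB _).trans (h.BU n)

theorem B_anti : Antitone fun n => lim_B (C n) :=
  antitone_nat_of_succ_le fun n => (h.BU n).trans (lim_UB _)

theorem small (n : ℕ) : ∀ j ∈ lim_O (C n), (C n).rad j ≤ (1 / 2) ^ n := by
  induction n with
  | zero =>
    intro j hj
    have h1 := (h.ok 0).inside j hj.1
    have h2 := abs_nonneg j
    rw [pow_zero]
    linarith
  | succ n ih =>
    intro j hj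
    obtain ⟨k, hk, -, h1⟩ := h.new n j hj
    have h2 := ih k hk
    rw [pow_succ]
    linarith

theorem rl {n : ℕ} {i : ℝ} (hi : i ∈ lim_N (C n)) : (lim_C C).rad i = (C n).rad i ∧
    (lim_C C).lab i = (C n).lab i := by
  have hex : ∃ n, i ∈ lim_N (C n) := ⟨n, hi⟩
  have h1 : (lim_C C).rad i = (C hex.choose).rad i ∧ (lim_C C).lab i = (C hex.choose).lab i := by
    simp only [lim_C, dif_pos hex]
    exact ⟨trivial, trivial⟩
  rw [h1.1, h1.2]
  rcases le_total n hex.choose with h2 | h2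
  · exact (h.g1 h2 hi).2
  · have h3 := (h.g1 h2 hex.choose_spec).2
    exact ⟨h3.1.symm, h3.2.symm⟩

theorem cases (n : ℕ) {i : ℝ} (hi : i ∈ (lim_C C).I) : i ∈ lim_N (C n) ∨
    ∃ j ∈ lim_O (C n), |i - j| + (lim_C C).rad i ≤ (C n).rad j := by
  obtain ⟨m, hm⟩ := hi
  rcases le_total m n with h1 | h1
  · exact Or.inl (h.g1 h1 hm).1
  · rw [(h.rl hm).1]
    exact h.g2 h1 hm.1

theorem pos {i : ℝ} (hi : i ∈ (lim_C C).I) : 0 < (lim_C C).rad i := by
  obtain ⟨m, hm⟩ := hi
  rw [(h.rl hm).1]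
  exact (h.ok m).pos i hm.1

theorem F_sub_U (n : ℕ) {x : ℝ} (hx : x ∈ (lim_C C).F) : (x : ℂ) ∈ lim_U (C n) := by
  obtain ⟨j, hj, h1⟩ := hx (n + 1)
  refine h.BU n (lim_mem_B hj ?_)
  rw [mem_closedBall, lim_dc]
  exact h1

theorem dom (n : ℕ) {z : ℂ} (hz : z ∉ lim_U (C n)) : z ∈ (lim_C C).Dom ↔ z ∈ (C n).Dom := by
  constructor
  · rintro ⟨h1, h2⟩
    refine ⟨h1, ?_⟩
    rintro (⟨x, hx, -⟩ | h3)
    · rw [h.noF n] at hx
      exact hx
    · simp only [mem_iUnion] at h3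
      obtain ⟨i, hi, h3⟩ := h3
      by_cases hO : (C n).lab i = Lab.O
      · exact hz (lim_mem_U ⟨hi, hO⟩ (lim_holes ((h.ok n).pos i hi) h3))
      · have hN : i ∈ lim_N (C n) := ⟨hi, hO⟩
        apply h2
        right
        simp only [mem_iUnion]
        refine ⟨i, ⟨n, hN⟩, ?_⟩
        rw [lim_holes_congr (h.rl hN).1 (h.rl hN).2]
        exact h3
  · rintro ⟨h1, h2⟩
    refine ⟨h1, ?_⟩
    rintro (⟨x, hx, rfl⟩ | h3)
    · exact hz (h.F_sub_U n hx)
    · simp only [mem_iUnion] at h3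
      obtain ⟨i, hi, h3⟩ := h3
      rcases h.cases n hi with hN | ⟨j, hj, h4⟩
      · apply h2
        right
        simp only [mem_iUnion]
        refine ⟨i, hN.1, ?_⟩
        rw [← lim_holes_congr (h.rl hN).1 (h.rl hN).2]
        exact h3
      · exact hz (lim_mem_U hj (lim_ball h4 (lim_holes (h.pos hi) h3)))

theorem rel (n : ℕ) {x y : ℂ} (hx : x ∉ lim_B (C n)) : (lim_C C).Rel x y ↔ (C n).Rel x y := by
  rw [lim_rel_iff, lim_rel_iff]
  constructor
  · rintro (h1 | ⟨i, hi, h1⟩)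
    · exact Or.inl h1
    · rcases h.cases n hi with hN | ⟨j, hj, h4⟩
      · exact Or.inr ⟨i, hN.1, (lim_R_congr (h.rl hN).1 (h.rl hN).2 x y).1 h1⟩
      · exact absurd (lim_mem_B hj (lim_cball h4 (lim_R_ball (h.pos hi) h1))) hx
  · rintro (h1 | ⟨i, hi, h1⟩)
    · exact Or.inl h1
    · have hN : i ∈ lim_N (C n) := ⟨hi, lim_R_lab h1⟩
      exact Or.inr ⟨i, ⟨n, hN⟩, (lim_R_congr (h.rl hN).1 (h.rl hN).2 x y).2 h1⟩

theorem leave {z : ℂ} (hz : z ∈ (lim_C C).Dom) : ∃ n, z ∉ lim_B (C n) := by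
  by_contra hcon
  push Not at hcon
  have h1 : ∀ n, ∃ j ∈ lim_O (C n), dist z (j : ℂ) ≤ (C n).rad j := by
    intro n
    have := hcon n
    simp only [lim_B, mem_iUnion] at this
    obtain ⟨j, hj, h2⟩ := this
    exact ⟨j, hj, h2⟩
  have him : z.im = 0 := by
    have h2 : ∀ n : ℕ, |z.im| ≤ (1 / 2) ^ n := by
      intro n
      obtain ⟨j, hj, h3⟩ := h1 n
      have h4 : |(z - (j : ℂ)).im| ≤ ‖z - (j : ℂ)‖ := Complex.abs_im_le_norm _
      rw [Complex.sub_im, Complex.ofReal_im, sub_zero, ← Complex.dist_eq] at h4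
      exact h4.trans (h3.trans (h.small n j hj))
    have h3 : |z.im| ≤ 0 :=
      ge_of_tendsto' (tendsto_pow_atTop_nhds_zero_of_lt_one (by norm_num) (by norm_num)) h2
    exact abs_nonpos_iff.1 h3
  have hzr : z = ((z.re : ℝ) : ℂ) := by
    apply Complex.ext
    · rw [Complex.ofReal_re]
    · rw [Complex.ofReal_im, him]
  apply hz.2
  left
  refine ⟨z.re, ?_, hzr.symm⟩
  intro n
  obtain ⟨j, hj, h3⟩ := h1 n
  refine ⟨j, hj, ?_⟩
  rw [← lim_dc, ← hzr]
  exact h3

theorem lok : (lim_C C).Ok where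
  closed := by
    have : (lim_C C).F = ⋂ n, ⋃ j ∈ lim_O (C n), {x : ℝ | |x - j| ≤ (C n).rad j} := by
      ext x
      simp only [lim_C, Set.mem_ofPred_eq, mem_iInter, mem_iUnion, exists_prop]
    rw [this]
    refine isClosed_iInter fun n => ?_
    refine ((h.fin n).subset fun _ hj => hj.1).isClosed_biUnion fun j _ => ?_
    exact isClosed_le (by fun_prop) continuous_const
  compact := by
    apply Metric.isCompact_of_isClosed_isBounded
    · rw [← isOpen_compl_iff, isOpen_iff_mem_nhds]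
      intro x hx
      have hxF : x ∉ (lim_C C).F := fun h => hx (Or.inl h)
      have hxI : x ∉ (lim_C C).I := fun h => hx (Or.inr h)
      have h1 : ∃ n, ∀ j ∈ lim_O (C n), (C n).rad j < |x - j| := by
        by_contra hcon
        push Not at hcon
        exact hxF hcon
      obtain ⟨n, hn⟩ := h1
      have hfinO : (lim_O (C n)).Finite := (h.fin n).subset fun _ hj => hj.1
      have hfinN : (lim_N (C n)).Finite := (h.fin n).subset fun _ hj => hj.1
      have h2 : ∀ᶠ y in 𝓝 x, ∀ j ∈ lim_O (C n), (C n).rad j < |y - j| := by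
        rw [hfinO.eventually_all]
        intro j hj
        exact (isOpen_lt continuous_const (by fun_prop)).mem_nhds (hn j hj)
      have h3 : ∀ᶠ y in 𝓝 x, y ∉ lim_N (C n) :=
        hfinN.isClosed.isOpen_compl.mem_nhds fun h => hxI ⟨n, h⟩
      filter_upwards [h2, h3] with y hy1 hy2
      rintro (hy | hy)
      · obtain ⟨j, hj, h4⟩ := hy n
        exact absurd (hy1 j hj) (not_lt.2 h4)
      · rcases h.cases n hy with h4 | ⟨j, hj, h4⟩
        · exact hy2 h4
        · have h5 := hy1 j hj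
          have h6 := h.pos hy
          linarith
    · refine (isBounded_closedBall (x := (0 : ℝ)) (r := 1)).subset ?_
      rintro x (hx | ⟨n, hn⟩)
      · obtain ⟨j, hj, h1⟩ := hx 0
        have h2 := (h.ok 0).inside j hj.1
        rw [mem_closedBall, Real.dist_eq, sub_zero]
        have h3 := abs_sub_abs_le_abs_sub x j
        linarith
      · have h2 := (h.ok n).inside x hn.1
        have h3 := (h.ok n).pos x hn.1
        rw [mem_closedBall, Real.dist_eq, sub_zero]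
        linarith
  td := by
    intro t ht hpre x hx y hy
    have key : ∀ n : ℕ, |x - y| ≤ 2 * (1 / 2) ^ n := by
      intro n
      obtain ⟨j, hj, h1⟩ := ht hx n
      have hfinO : (lim_O (C n)).Finite := (h.fin n).subset fun _ hj => hj.1
      have hA : IsClosed {w : ℝ | |w - j| ≤ (C n).rad j} := isClosed_le (by fun_prop)
        continuous_const
      have hA' : IsClosed (⋃ k ∈ lim_O (C n) \ {j}, {w : ℝ | |w - k| ≤ (C n).rad k}) :=
        (hfinO.subset sdiff_subset).isClosed_biUnion fun k _ => isClosed_le (by fun_prop)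
          continuous_const
      have hcov : t ⊆ {w : ℝ | |w - j| ≤ (C n).rad j} ∪
          ⋃ k ∈ lim_O (C n) \ {j}, {w : ℝ | |w - k| ≤ (C n).rad k} := by
        intro w hw
        obtain ⟨k, hk, h2⟩ := ht hw n
        by_cases hkj : k = j
        · left
          rw [← hkj]
          exact h2
        · right
          simp only [mem_iUnion]
          exact ⟨k, ⟨hk, hkj⟩, h2⟩
      have hdis : t ∩ ({w : ℝ | |w - j| ≤ (C n).rad j} ∩
          ⋃ k ∈ lim_O (C n) \ {j}, {w : ℝ | |w - k| ≤ (C n).rad k}) = ∅ := by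
        rw [eq_empty_iff_forall_notMem]
        rintro w ⟨-, hw1, hw2⟩
        simp only [mem_iUnion] at hw2
        obtain ⟨k, ⟨hk, hkj⟩, hw2⟩ := hw2
        have h2 := (h.ok n).apart k hk.1 j hj.1 hkj
        have h3 := abs_sub_le k w j
        rw [abs_sub_comm k w] at h3
        have hw1' : |w - j| ≤ (C n).rad j := hw1
        have hw2' : |w - k| ≤ (C n).rad k := hw2
        linarith
      have hsub := (isPreconnected_iff_subset_of_disjoint_closed.1 hpre) _ _ hA hA' hcov hdis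
      have hsub' : t ⊆ {w : ℝ | |w - j| ≤ (C n).rad j} := by
        rcases hsub with h2 | h2
        · exact h2
        · have h3 : x ∈ t ∩ ({w : ℝ | |w - j| ≤ (C n).rad j} ∩
              ⋃ k ∈ lim_O (C n) \ {j}, {w : ℝ | |w - k| ≤ (C n).rad k}) := ⟨hx, h1, h2 hx⟩
          rw [hdis] at h3
          exact absurd h3 (notMem_empty x)
      have h2 : |y - j| ≤ (C n).rad j := hsub' hy
      have h3 := abs_sub_le x j y
      rw [abs_sub_comm j y] at h3
      have h4 := h.small n j hj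
      linarith
    have hlim : Tendsto (fun n : ℕ => 2 * (1 / 2 : ℝ) ^ n) atTop (𝓝 (2 * 0)) :=
      (tendsto_pow_atTop_nhds_zero_of_lt_one (by norm_num) (by norm_num)).const_mul 2
    have h3 : |x - y| ≤ 2 * 0 := ge_of_tendsto' hlim key
    rw [mul_zero] at h3
    exact sub_eq_zero.1 (abs_nonpos_iff.1 h3)
  small := by
    intro x hx
    obtain ⟨j, hj, h1⟩ := hx 0
    have h2 := (h.ok 0).inside j hj.1
    have h3 := abs_sub_abs_le_abs_sub x j
    linarith
  pos := fun i hi => h.pos hi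
  inside := by
    rintro i ⟨n, hn⟩
    rw [(h.rl hn).1]
    exact (h.ok n).inside i hn.1
  away := by
    rintro i ⟨n, hn⟩ x hx
    rw [(h.rl hn).1]
    obtain ⟨j, hj, h1⟩ := hx n
    have hij : i ≠ j := fun e => hn.2 (e ▸ hj.2)
    have h2 := (h.ok n).apart i hn.1 j hj.1 hij
    have h3 := abs_sub_le i x j
    rw [abs_sub_comm i x] at h3
    linarith
  apart := by
    rintro i ⟨n, hn⟩ j ⟨m, hm⟩ hij
    have h1 := h.g1 (le_max_left n m) hn
    have h2 := h.g1 (le_max_right n m) hm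
    rw [(h.rl h1.1).1, (h.rl h2.1).1]
    exact (h.ok _).apart i h1.1.1 j h2.1.1 hij

end LimC

theorem thm_LIM (hCFIN : St_CFIN) (_hCCONG : St_CCONG) : St_LIM := by
  classical
  intro X _ _ E K C q u hmono hst hext hcomp
  have hcf : ∀ n, (C n).I.Finite ∧ IsCompact (C n).Dom := fun n =>
    (hCFIN (C n) (hst n).1).2.2.2.1 (hst n).2.1
  have h : LimC C := {
    ok := fun n => (hst n).1
    fin := fun n => (hcf n).1
    noF := fun n => (hst n).2.1
    out := fun n i hi => (hext n).out i fun j hj hO => hi j ⟨hj, hO⟩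
    slot := fun n j hj => (hext n).slot j hj.1 hj.2
    new := by
      intro n i hi
      obtain ⟨j, hj, hjO, h1, h2, -⟩ := (hext n).new i hi.1 hi.2
      exact ⟨j, ⟨hj, hjO⟩, h1, h2⟩ }
  have hstep : ∀ n, ∀ z ∈ (C n).Dom, z ∉ lim_U (C n) → q (n + 1) z = q n z := by
    intro n z hz hzU
    exact (hext n).map z hz fun j hj hO hzj => hzU (lim_mem_U ⟨hj, hO⟩ hzj)
  have hmap : ∀ n m, n ≤ m → ∀ z ∈ (C n).Dom, z ∉ lim_U (C n) → q m z = q n z := by
    intro n m hnm z hz hzU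
    induction m, hnm using Nat.le_induction with
    | base => rfl
    | succ m hnm ih =>
      have h1 : z ∉ lim_U (C m) := fun h2 => hzU (h.U_anti hnm h2)
      have h2 : z ∈ (C m).Dom := (h.dom m h1).1 ((h.dom n hzU).2 hz)
      rw [hstep m z h2 h1, ih]
  -- (A)
  have hA : ∀ n, ∀ i ∈ lim_O (C (n + 1)), ∀ m, n + 1 ≤ m → ∀ z ∈ (C m).Dom,
      z ∈ closedBall (i : ℂ) ((C (n + 1)).rad i) → q m z ∉ K n := by
    intro n i hi m hm
    induction m, hm using Nat.le_induction with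
    | base =>
      intro z hz hzi hzK
      obtain ⟨j, hj, hjO, -, -, h3⟩ := (hext n).new i hi.1 hi.2
      exact disjoint_left.1 h3 (mem_image_of_mem _ ⟨hz, hzi⟩) hzK
    | succ m hm ih =>
      intro z hz hzi hzK
      by_cases hzU : z ∈ lim_U (C m)
      · simp only [lim_U, mem_iUnion] at hzU
        obtain ⟨k, hk, hzk⟩ := hzU
        have hKm : K n ⊆ K m := hmono (by omega)
        obtain ⟨z', ⟨hz', hz'k⟩, hz'e⟩ := (hext m).old k hk.1 hk.2
          ⟨mem_image_of_mem _ ⟨hz, ball_subset_closedBall hzk⟩, hKm hzK⟩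
        obtain ⟨j, hj, h1⟩ := h.g2O hm hk
        have hji : j = i := by
          by_contra hji
          have h2 := (h.ok (n + 1)).apart j hj.1 i hi.1 hji
          have h3 : dist z (j : ℂ) ≤ (C (n + 1)).rad j :=
            lim_cball h1 (ball_subset_closedBall hzk)
          have h4 : dist z (i : ℂ) ≤ (C (n + 1)).rad i := hzi
          have h5 := dist_triangle (j : ℂ) z (i : ℂ)
          rw [lim_dc, dist_comm (j : ℂ) z] at h5
          linarith
        rw [hji] at h1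
        refine ih z' hz' (lim_cball h1 hz'k) ?_
        rw [hz'e]
        exact hzK
      · have h1 : z ∉ lim_U (C (m + 1)) := fun h2 => hzU (h.U_anti (Nat.le_succ m) h2)
        have h2 : z ∈ (C m).Dom := (h.dom m hzU).1 ((h.dom (m + 1) h1).2 hz)
        refine ih z h2 hzi ?_
        rw [← hstep m z h2 hzU]
        exact hzK
  -- the limit map
  let Q : ℂ → X := fun z => if hz : ∃ n, z ∉ lim_U (C n) then q hz.choose z else u z
  have hQ : ∀ n, ∀ z ∈ (lim_C C).Dom, z ∉ lim_U (C n) → Q z = q n z := by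
    intro n z hz hzU
    have hex : ∃ n, z ∉ lim_U (C n) := ⟨n, hzU⟩
    have h1 : Q z = q hex.choose z := by
      simp only [Q, dif_pos hex]
    rw [h1]
    rcases le_total n hex.choose with h2 | h2
    · exact hmap n _ h2 z ((h.dom n hzU).1 hz) hzU
    · exact (hmap _ n h2 z ((h.dom _ hex.choose_spec).1 hz) hex.choose_spec).symm
  have hleaveU : ∀ z, ∀ n, z ∉ lim_B (C n) → z ∉ lim_U (C n) := fun z n hz hz' =>
    hz (lim_UB _ hz')
  refine ⟨lim_C C, Q, h.lok, ?_, ⟨?_, ?_, ?_, ?_⟩, ?_⟩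
  · rintro i ⟨n, hn⟩
    rw [(h.rl hn).2]
    exact hn.2
  · -- continuity
    intro z hz
    obtain ⟨n, hn⟩ := h.leave hz
    have h1 : z ∈ (C n).Dom := (h.dom n (hleaveU z n hn)).1 hz
    have h2 : (lim_B (C n))ᶜ ∈ 𝓝 z := (lim_B_closed (hcf n).1).isOpen_compl.mem_nhds hn
    have h3 : ContinuousWithinAt (q n) ((C n).Dom) z := (hst n).2.2.1.cont z h1
    have h4 : ContinuousWithinAt (q n) ((lim_C C).Dom ∩ (lim_B (C n))ᶜ) z :=
      h3.mono fun w hw => (h.dom n (hleaveU w n hw.2)).1 hw.1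
    have h5 : ContinuousWithinAt Q ((lim_C C).Dom ∩ (lim_B (C n))ᶜ) z :=
      h4.congr (fun w hw => hQ n w hw.1 (hleaveU w n hw.2)) (hQ n z hz (hleaveU z n hn))
    exact (continuousWithinAt_inter h2).1 h5
  · -- image
    apply Subset.antisymm
    · rintro _ ⟨z, hz, rfl⟩
      obtain ⟨n, hn⟩ := h.leave hz
      have h1 : z ∈ (C n).Dom := (h.dom n (hleaveU z n hn)).1 hz
      rw [hQ n z hz (hleaveU z n hn)]
      have h2 : q n z ∈ K n \ E := by
        rw [← (hst n).2.2.1.image]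
        exact mem_image_of_mem _ h1
      exact mem_iUnion.2 ⟨n, h2⟩
    · intro x hx
      obtain ⟨n, hxn⟩ := mem_iUnion.1 hx
      have h1 : x ∈ K (n + 1) \ E := ⟨hmono (Nat.le_succ n) hxn.1, hxn.2⟩
      rw [← (hst (n + 1)).2.2.1.image] at h1
      obtain ⟨z, hz, rfl⟩ := h1
      have h2 : z ∉ lim_B (C (n + 1)) := by
        intro h3
        simp only [lim_B, mem_iUnion] at h3
        obtain ⟨i, hi, h3⟩ := h3
        exact hA n i hi (n + 1) le_rfl z hz h3 hxn.1
      have h3 : z ∈ (lim_C C).Dom := (h.dom _ (hleaveU z _ h2)).2 hz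
      exact ⟨z, h3, hQ _ z h3 (hleaveU z _ h2)⟩
  · -- relation
    intro x hx y hy
    obtain ⟨n, hn⟩ := h.leave hx
    obtain ⟨m, hm⟩ := h.leave hy
    have hn' : x ∉ lim_B (C (max n m)) := fun h1 => hn (h.B_anti (le_max_left n m) h1)
    have hm' : y ∉ lim_B (C (max n m)) := fun h1 => hm (h.B_anti (le_max_right n m) h1)
    rw [hQ _ x hx (hleaveU _ _ hn'), hQ _ y hy (hleaveU _ _ hm'), h.rel _ hn']
    exact (hst _).2.2.1.rel x ((h.dom _ (hleaveU _ _ hn')).1 hx) y
      ((h.dom _ (hleaveU _ _ hm')).1 hy)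
  · -- properness
    intro A hAs hAc
    obtain ⟨n, hn⟩ := hcomp A hAs hAc
    refine ⟨(C (n + 1)).Dom \ lim_U (C (n + 1)), fun z hz => (h.dom _ hz.2).2 hz.1,
      (hcf (n + 1)).2.diff (lim_U_open _), ?_⟩
    intro x hx hxA
    have h1 : x ∉ lim_B (C (n + 1)) := by
      intro h2
      simp only [lim_B, mem_iUnion] at h2
      obtain ⟨i, hi, h2⟩ := h2
      obtain ⟨m, hm⟩ := h.leave hx
      have hm' : x ∉ lim_U (C (max m (n + 1))) := fun h3 =>
        hm (h.B_anti (le_max_left m (n + 1)) (lim_UB _ h3))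
      refine hA n i hi (max m (n + 1)) (le_max_right _ _) x ((h.dom _ hm').1 hx) h2 ?_
      rw [← hQ _ x hx hm']
      exact hn hxA
    exact ⟨(h.dom _ (hleaveU _ _ h1)).1 hx, hleaveU _ _ h1⟩
  · intro z hz
    have h1 : z ∈ (lim_C C).Dom := (hCFIN _ h.lok).2.2.2.2.1 hz
    obtain ⟨n, hn⟩ := h.leave h1
    rw [hQ n z h1 (hleaveU _ _ hn)]
    exact (hst n).2.2.2 z hz

end Pool.Agent.SRP
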