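import Pool.Agent.SRP.StD

set_option autoImplicit false

/-! # SRP, module LP: a disc attached to two different circles of a pair of pants -/

open Set Metric Filter Topology Pool.Agent.SRF

namespace Pool.Agent.SRP

private theorem lp_cexpi (t : ℝ) : cexpi (t + 2 * Real.pi) = cexpi t := by
  unfold cexpi
  push_cast
  rw [add_mul, Complex.exp_add, Complex.exp_two_pi_mul_I, mul_one]

private theorem lp_img (f : ℝ → ℂ) (hf : ∀ t, f (t + 2 * Real.pi) = f t) (S T : Set ℝ)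
    (h : ∀ t, t + 2 * Real.pi ∈ T ↔ t ∈ S) : f '' T = f '' S := by
  ext z
  constructor
  · rintro ⟨t, ht, rfl⟩
    refine ⟨t - 2 * Real.pi, ?_, ?_⟩
    · rw [← h, sub_add_cancel]
      exact ht
    · rw [← hf, sub_add_cancel]
  · rintro ⟨t, ht, rfl⟩
    exact ⟨t + 2 * Real.pi, (h t).2 ht, hf t⟩

private theorem lp_carc (a b : ℝ) : carc (a + 2 * Real.pi) (b + 2 * Real.pi) = carc a b :=
  lp_img cexpi lp_cexpi _ _ fun t => by
    rw [mem_Icc, mem_Icc]
    constructor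
    · rintro ⟨h1, h2⟩
      constructor <;> linarith
    · rintro ⟨h1, h2⟩
      constructor <;> linarith

private theorem lp_oarc (a b : ℝ) : oarc (a + 2 * Real.pi) (b + 2 * Real.pi) = oarc a b :=
  lp_img cexpi lp_cexpi _ _ fun t => by
    rw [mem_Ioo, mem_Ioo]
    constructor
    · rintro ⟨h1, h2⟩
      constructor <;> linarith
    · rintro ⟨h1, h2⟩
      constructor <;> linarith

private theorem lp_norm (t : ℝ) : cexpi t ∈ UC := by
  rw [mem_sphere_zero_iff_norm]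
  unfold cexpi
  exact Complex.norm_exp_ofReal_mul_I t

private theorem lp_oarc_sub (a b : ℝ) : oarc a b ⊆ UC := by
  rintro z ⟨t, _, rfl⟩
  exact lp_norm t

/-- the domain of the pair of pants -/
private theorem lp_dom (z : ℂ) : z ∈ pantsC.Dom ↔
    ‖z‖ ≤ 1 ∧ 1 / 16 ≤ ‖z - 1 / 4‖ ∧ 1 / 16 ≤ ‖z + 1 / 4‖ := by
  unfold Conf.Dom
  have h : ∀ i : ℝ, pantsC.holes i = ball (i : ℂ) (1 / 16) := by
    intro i
    unfold Conf.holes pantsC
    simp only
    norm_num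
  simp only [Set.mem_sdiff, mem_union, mem_iUnion, mem_image, exists_prop, h, not_or, not_exists,
    not_and, mem_closedBall, mem_ball, dist_eq_norm, sub_zero]
  constructor
  · rintro ⟨h1, -, h2⟩
    refine ⟨h1, ?_, ?_⟩
    · have := h2 (1 / 4) (Or.inr rfl)
      push_cast at this
      exact not_lt.1 this
    · have := h2 (-(1 / 4)) (Or.inl rfl)
      push_cast at this
      rw [sub_neg_eq_add] at this
      exact not_lt.1 this
  · rintro ⟨h1, h2, h3⟩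
    refine ⟨h1, fun x hx => absurd hx (notMem_empty x), fun i hi => ?_⟩
    rcases hi with hi | hi
    · rw [hi]
      push_cast
      rw [sub_neg_eq_add]
      exact not_lt.2 h3
    · rw [mem_singleton_iff] at hi
      rw [hi]
      push_cast
      exact not_lt.2 h2

private theorem lp_sph1 : sphere (1 / 4 : ℂ) (1 / 16) ⊆ pantsC.Dom := by
  intro z hz
  rw [mem_sphere, dist_eq_norm] at hz
  rw [lp_dom]
  have h1 : ‖(1 / 4 : ℂ)‖ = 1 / 4 := by norm_num
  have h2 : ‖(1 / 2 : ℂ)‖ = 1 / 2 := by norm_num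
  refine ⟨?_, hz.ge, ?_⟩
  · calc ‖z‖ = ‖(z - 1 / 4) + 1 / 4‖ := by rw [sub_add_cancel]
      _ ≤ ‖z - 1 / 4‖ + ‖(1 / 4 : ℂ)‖ := norm_add_le _ _
      _ ≤ 1 := by rw [hz, h1]; norm_num
  · have h3 : ‖(1 / 2 : ℂ)‖ ≤ ‖z + 1 / 4‖ + ‖z - 1 / 4‖ := by
      have e : (1 / 2 : ℂ) = (z + 1 / 4) - (z - 1 / 4) := by ring
      rw [e]
      exact norm_sub_le _ _
    rw [h2, hz] at h3
    linarith

private theorem lp_sph2 : sphere (-(1 / 4) : ℂ) (1 / 16) ⊆ pantsC.Dom := by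
  intro z hz
  rw [mem_sphere, dist_eq_norm, sub_neg_eq_add] at hz
  rw [lp_dom]
  have h1 : ‖(1 / 4 : ℂ)‖ = 1 / 4 := by norm_num
  have h2 : ‖(1 / 2 : ℂ)‖ = 1 / 2 := by norm_num
  refine ⟨?_, ?_, hz.ge⟩
  · calc ‖z‖ = ‖(z + 1 / 4) - 1 / 4‖ := by rw [add_sub_cancel_right]
      _ ≤ ‖z + 1 / 4‖ + ‖(1 / 4 : ℂ)‖ := norm_sub_le _ _
      _ ≤ 1 := by rw [hz, h1]; norm_num
  · have h3 : ‖(1 / 2 : ℂ)‖ ≤ ‖z + 1 / 4‖ + ‖z - 1 / 4‖ := by
      have e : (1 / 2 : ℂ) = (z + 1 / 4) - (z - 1 / 4) := by ring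
      rw [e]
      exact norm_sub_le _ _
    rw [h2, hz] at h3
    linarith

/-- the reflection of the square in the vertical axis -/
private noncomputable def lp_refl (z : ℂ) : ℂ := -(starRingEnd ℂ) z

private theorem lp_refl_re (z : ℂ) : (lp_refl z).re = -z.re := by
  unfold lp_refl
  rw [Complex.neg_re, Complex.conj_re]

private theorem lp_refl_im (z : ℂ) : (lp_refl z).im = z.im := by
  unfold lp_refl
  rw [Complex.neg_im, Complex.conj_im, neg_neg]

private theorem lp_refl_refl (z : ℂ) : lp_refl (lp_refl z) = z := by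
  apply Complex.ext
  · rw [lp_refl_re, lp_refl_re, neg_neg]
  · rw [lp_refl_im, lp_refl_im]

private theorem lp_refl_inj : Function.Injective lp_refl :=
  Function.LeftInverse.injective lp_refl_refl

private theorem lp_refl_cont : Continuous lp_refl := by
  unfold lp_refl
  exact Complex.continuous_conj.neg

private theorem lp_image {X : Type} (H : ℂ → X) (S : Set ℂ) (hS : ∀ z ∈ S, lp_refl z ∈ S) :
    (fun z => H (lp_refl z)) '' S = H '' S := by
  ext y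
  constructor
  · rintro ⟨z, hz, rfl⟩
    exact ⟨lp_refl z, hS z hz, rfl⟩
  · rintro ⟨z, hz, rfl⟩
    refine ⟨lp_refl z, hS z hz, ?_⟩
    show H (lp_refl (lp_refl z)) = H z
    rw [lp_refl_refl]

private theorem lp_Sq : ∀ z ∈ Sq, lp_refl z ∈ Sq := by
  intro z hz
  unfold Sq at hz ⊢
  rw [mem_ofPred_eq] at hz ⊢
  rw [lp_refl_re, lp_refl_im, abs_neg]
  exact hz

private theorem lp_SqA : ∀ z ∈ SqA, lp_refl z ∈ SqA := by
  intro z hz
  unfold SqA at hz ⊢
  rw [mem_ofPred_eq] at hz ⊢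
  rw [lp_refl_re, lp_refl_im, abs_neg]
  exact hz

private theorem lp_SqO : ∀ z ∈ SqO, lp_refl z ∈ SqO := by
  intro z hz
  unfold SqO at hz ⊢
  rw [mem_ofPred_eq] at hz ⊢
  rw [lp_refl_re, lp_refl_im, abs_neg]
  exact hz

private theorem lp_SqF : ∀ z ∈ SqF, lp_refl z ∈ SqF := by
  intro z hz
  unfold SqF at hz ⊢
  rw [mem_ofPred_eq] at hz ⊢
  rw [lp_refl_re, lp_refl_im, abs_neg]
  exact hz

private theorem lp_neg {x : ℝ} (hx : x ∈ Icc (-1 : ℝ) 1) : -x ∈ Icc (-1 : ℝ) 1 := by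
  rw [mem_Icc] at hx ⊢
  constructor <;> linarith [hx.1, hx.2]

/-- The band with the two monotonicity types of `θ₁`. -/
private theorem lp_band (hLH : St_LH) (hLK : St_LK) (X : Type) [TopologicalSpace X] [T2Space X]
    (q H : ℂ → X) (θ₁ θ₂ : ℝ → ℝ)
    (hq : ContinuousOn q pantsC.Dom) (hqi : InjOn q pantsC.Dom) (hH : ContinuousOn H Sq)
    (hHi : InjOn H Sq) (hm : H '' Sq ∩ q '' pantsC.Dom = H '' SqA)
    (h1 : ContinuousOn θ₁ (Icc (-1) 1)) (h2 : ContinuousOn θ₂ (Icc (-1) 1))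
    (m1 : StrictMonoOn θ₁ (Icc (-1) 1) ∨ StrictAntiOn θ₁ (Icc (-1) 1))
    (m2 : StrictMonoOn θ₂ (Icc (-1) 1) ∨ StrictAntiOn θ₂ (Icc (-1) 1))
    (e1 : ∀ x ∈ Icc (-1 : ℝ) 1, H (x + Complex.I) = q (1 / 4 + 1 / 16 * cexpi (θ₁ x)))
    (e2 : ∀ x ∈ Icc (-1 : ℝ) 1, H (x - Complex.I) = q (-(1 / 4) + 1 / 16 * cexpi (θ₂ x))) :
    FinPres 1 0 1 (q '' pantsC.Dom ∪ H '' Sq) ((q '' pantsC.FreeBd \ H '' SqO) ∪ H '' SqF) q ∨
    FinPres 0 2 1 (q '' pantsC.Dom ∪ H '' Sq) ((q '' pantsC.FreeBd \ H '' SqO) ∪ H '' SqF) q := by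
  rcases m1 with m1 | m1
  · rcases m2 with m2 | m2
    · exact Or.inr (hLK X q H θ₁ θ₂ hq hqi hH hHi hm h1 h2 m1 m2 e1 e2)
    · exact Or.inl (hLH X q H θ₁ θ₂ hq hqi hH hHi hm h1 h2 m1 m2 e1 e2)
  · have hH' : ContinuousOn (fun z => H (lp_refl z)) Sq :=
      hH.comp lp_refl_cont.continuousOn lp_Sq
    have hHi' : InjOn (fun z => H (lp_refl z)) Sq := fun z hz w hw hzw =>
      lp_refl_inj (hHi (lp_Sq z hz) (lp_Sq w hw) hzw)
    have hm' : (fun z => H (lp_refl z)) '' Sq ∩ q '' pantsC.Dom =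
        (fun z => H (lp_refl z)) '' SqA := by
      rw [lp_image H Sq lp_Sq, lp_image H SqA lp_SqA, hm]
    have h1' : ContinuousOn (fun x => θ₁ (-x)) (Icc (-1) 1) :=
      h1.comp continuous_neg.continuousOn fun x hx => lp_neg hx
    have h2' : ContinuousOn (fun x => θ₂ (-x)) (Icc (-1) 1) :=
      h2.comp continuous_neg.continuousOn fun x hx => lp_neg hx
    have m1' : StrictMonoOn (fun x => θ₁ (-x)) (Icc (-1) 1) := fun x hx y hy hxy =>
      m1 (lp_neg hy) (lp_neg hx) (neg_lt_neg hxy)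
    have hr1 : ∀ x : ℝ, lp_refl ((x : ℂ) + Complex.I) = ((-x : ℝ) : ℂ) + Complex.I := by
      intro x
      apply Complex.ext
      · rw [lp_refl_re]
        simp
      · rw [lp_refl_im]
        simp
    have hr2 : ∀ x : ℝ, lp_refl ((x : ℂ) - Complex.I) = ((-x : ℝ) : ℂ) - Complex.I := by
      intro x
      apply Complex.ext
      · rw [lp_refl_re]
        simp
      · rw [lp_refl_im]
        simp
    have e1' : ∀ x ∈ Icc (-1 : ℝ) 1, (fun z => H (lp_refl z)) (x + Complex.I) =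
        q (1 / 4 + 1 / 16 * cexpi ((fun x => θ₁ (-x)) x)) := by
      intro x hx
      show H (lp_refl (x + Complex.I)) = q (1 / 4 + 1 / 16 * cexpi (θ₁ (-x)))
      rw [hr1]
      exact e1 (-x) (lp_neg hx)
    have e2' : ∀ x ∈ Icc (-1 : ℝ) 1, (fun z => H (lp_refl z)) (x - Complex.I) =
        q (-(1 / 4) + 1 / 16 * cexpi ((fun x => θ₂ (-x)) x)) := by
      intro x hx
      show H (lp_refl (x - Complex.I)) = q (-(1 / 4) + 1 / 16 * cexpi (θ₂ (-x)))
      rw [hr2]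
      exact e2 (-x) (lp_neg hx)
    rcases m2 with m2 | m2
    · have m2' : StrictAntiOn (fun x => θ₂ (-x)) (Icc (-1) 1) := fun x hx y hy hxy =>
        m2 (lp_neg hy) (lp_neg hx) (neg_lt_neg hxy)
      have := hLH X q (fun z => H (lp_refl z)) (fun x => θ₁ (-x)) (fun x => θ₂ (-x)) hq hqi hH'
        hHi' hm' h1' h2' m1' m2' e1' e2'
      rw [lp_image H Sq lp_Sq, lp_image H SqO lp_SqO, lp_image H SqF lp_SqF] at this
      exact Or.inl this
    · have m2' : StrictMonoOn (fun x => θ₂ (-x)) (Icc (-1) 1) := fun x hx y hy hxy =>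
        m2 (lp_neg hy) (lp_neg hx) (neg_lt_neg hxy)
      have := hLK X q (fun z => H (lp_refl z)) (fun x => θ₁ (-x)) (fun x => θ₂ (-x)) hq hqi hH'
        hHi' hm' h1' h2' m1' m2' e1' e2'
      rw [lp_image H Sq lp_Sq, lp_image H SqO lp_SqO, lp_image H SqF lp_SqF] at this
      exact Or.inr this

private theorem lp_core (hBDT : St_BDT) (hLH : St_LH) (hLK : St_LK) (X : Type)
    [TopologicalSpace X] [T2Space X] (q e : ℂ → X) (a b c d : ℝ)
    (hq : ContinuousOn q pantsC.Dom) (hqi : InjOn q pantsC.Dom)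
    (hab : a < b) (hbc : b < c) (hcd : c < d) (hda : d < a + 2 * Real.pi)
    (hA : AttTo (q '' pantsC.Dom) (q '' pantsC.FreeBd) e (carc a b ∪ carc c d))
    (h1 : e '' carc a b ⊆ q '' sphere (1 / 4) (1 / 16))
    (h2 : e '' carc c d ⊆ q '' sphere (-(1 / 4)) (1 / 16)) :
    FinPres 1 0 1 (q '' pantsC.Dom ∪ e '' CD)
      ((q '' pantsC.FreeBd ∪ e '' UC) \ e '' (oarc a b ∪ oarc c d)) q ∨
    FinPres 0 2 1 (q '' pantsC.Dom ∪ e '' CD)
      ((q '' pantsC.FreeBd ∪ e '' UC) \ e '' (oarc a b ∪ oarc c d)) q := by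
  obtain ⟨H, θ₁, θ₂, hH, hHi, hSq, hSqA, hSqO, hSqF, t1, t2, m1, m2, e1, e2⟩ :=
    hBDT X q e (1 / 4) (-(1 / 4)) (1 / 16) (1 / 16) a b c d hab hbc hcd hda (by norm_num)
      (by norm_num) hA.cont hA.inj (hq.mono lp_sph1) (hqi.mono lp_sph1) (hq.mono lp_sph2)
      (hqi.mono lp_sph2) h1 h2
  have hm : H '' Sq ∩ q '' pantsC.Dom = H '' SqA := by
    rw [hSq, hSqA]
    exact hA.meet
  have hc : ((1 / 16 : ℝ) : ℂ) = 1 / 16 := by push_cast; rfl
  have e1' : ∀ x ∈ Icc (-1 : ℝ) 1, H (x + Complex.I) = q (1 / 4 + 1 / 16 * cexpi (θ₁ x)) := by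
    intro x hx
    rw [e1 x hx, hc]
  have e2' : ∀ x ∈ Icc (-1 : ℝ) 1,
      H (x - Complex.I) = q (-(1 / 4) + 1 / 16 * cexpi (θ₂ x)) := by
    intro x hx
    rw [e2 x hx, hc]
  have key := lp_band hLH hLK X q H θ₁ θ₂ hq hqi hH hHi hm t1 t2 m1 m2 e1' e2'
  have hO : oarc a b ∪ oarc c d ⊆ UC := union_subset (lp_oarc_sub a b) (lp_oarc_sub c d)
  have hset : (q '' pantsC.FreeBd \ H '' SqO) ∪ H '' SqF =
      (q '' pantsC.FreeBd ∪ e '' UC) \ e '' (oarc a b ∪ oarc c d) := by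
    rw [hSqO, hSqF, union_sdiff_distrib]
    congr 1
    have hinj : InjOn e UC := hA.inj.mono sphere_subset_closedBall
    rw [hinj.image_sdiff_subset hO]
  rw [hSq, hset] at key
  exact key

theorem thm_LP (hBDT : St_BDT) (hLH : St_LH) (hLK : St_LK) : St_LP := by
  intro X _ _ q e a b c d hq hqi hab hbc hcd hda hA h
  rcases h with ⟨h1, h2⟩ | ⟨h1, h2⟩
  · exact lp_core hBDT hLH hLK X q e a b c d hq hqi hab hbc hcd hda hA h1 h2
  · have hA' : AttTo (q '' pantsC.Dom) (q '' pantsC.FreeBd) e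
        (carc c d ∪ carc (a + 2 * Real.pi) (b + 2 * Real.pi)) := by
      rw [lp_carc, union_comm]
      exact hA
    have := lp_core hBDT hLH hLK X q e c d (a + 2 * Real.pi) (b + 2 * Real.pi) hq hqi hcd hda
      (by linarith) (by linarith) hA' h2 (by rw [lp_carc]; exact h1)
    rw [lp_oarc, union_comm (oarc c d)] at this
    exact this

end Pool.Agent.SRP
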