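import Pool.Agent.SRP.StD

set_option autoImplicit false

/-! # SRF, Part III: LU, an untwisted band attached to one circle -/

open Set Metric Filter Topology Pool.Agent.SRF

namespace Pool.Agent.SRP

/-- Half of the width of the band in the model. -/
private noncomputable def lu_k : ℝ := Real.sqrt 2 / 8

private theorem lu_k_pos : 0 < lu_k := by
  unfold lu_k
  positivity

private theorem lu_k_sq : lu_k ^ 2 = 1 / 32 := by
  unfold lu_k
  rw [div_pow, Real.sq_sqrt (by norm_num)]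
  norm_num

private theorem lu_k_lt : lu_k < 1 / 5 := by
  have h1 := lu_k_sq
  have h2 := lu_k_pos
  nlinarith

private theorem lu_k_gt : 17 / 100 < lu_k := by
  have h1 := lu_k_sq
  have h2 := lu_k_pos
  nlinarith

private theorem lu_k_sin : Real.sin (Real.pi / 4) = 4 * lu_k := by
  unfold lu_k
  rw [Real.sin_pi_div_four]
  ring

/-- The model of the band. -/
private def lu_R : Set ℂ := closedBall 0 (1 / 4) ∩ {z : ℂ | |z.re| ≤ lu_k}

/-- From the square to the model. -/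
private noncomputable def lu_s (w : ℂ) : ℂ :=
  ⟨Real.sin (Real.pi * w.re / 4) / 4, w.im * Real.cos (Real.pi * w.re / 4) / 4⟩

/-- From the model to the square. -/
private noncomputable def lu_p (z : ℂ) : ℂ :=
  ((4 / Real.pi * Real.arcsin (4 * z.re) : ℝ) : ℂ) +
    ((4 * z.im / Real.sqrt (1 - (4 * z.re) ^ 2) : ℝ) : ℂ) * Complex.I

private theorem lu_p_re (z : ℂ) : (lu_p z).re = 4 / Real.pi * Real.arcsin (4 * z.re) := by
  simp [lu_p]

private theorem lu_p_im (z : ℂ) : (lu_p z).im = 4 * z.im / Real.sqrt (1 - (4 * z.re) ^ 2) := by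
  simp [lu_p]

private theorem lu_nsq (z : ℂ) : ‖z‖ ^ 2 = z.re ^ 2 + z.im ^ 2 := by
  rw [Complex.sq_norm, Complex.normSq_apply]
  ring

private theorem lu_le (z : ℂ) : ‖z‖ ≤ 1 / 4 ↔ z.re ^ 2 + z.im ^ 2 ≤ 1 / 16 := by
  rw [← lu_nsq]
  constructor
  · intro h
    nlinarith [norm_nonneg z]
  · intro h
    nlinarith [norm_nonneg z]

private theorem lu_ge (z : ℂ) : 1 / 4 ≤ ‖z‖ ↔ 1 / 16 ≤ z.re ^ 2 + z.im ^ 2 := by
  rw [← lu_nsq]
  constructor
  · intro h
    nlinarith [norm_nonneg z]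
  · intro h
    nlinarith [norm_nonneg z]

private theorem lu_ang (x : ℝ) (h : |x| ≤ 1) : |Real.pi * x / 4| ≤ Real.pi / 4 := by
  rw [abs_div, abs_mul, abs_of_pos Real.pi_pos, abs_of_pos (by norm_num : (0 : ℝ) < 4)]
  have := Real.pi_pos
  have := abs_nonneg x
  rw [div_le_div_iff_of_pos_right (by norm_num)]
  nlinarith

private theorem lu_cos_pos (x : ℝ) (h : |x| ≤ 1) : 0 < Real.cos (Real.pi * x / 4) := by
  have h1 := abs_le.1 (lu_ang x h)
  have := Real.pi_pos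
  exact Real.cos_pos_of_mem_Ioo ⟨by linarith, by linarith⟩

private theorem lu_abs_sin (x : ℝ) (h : |x| ≤ 1) :
    |Real.sin (Real.pi * x / 4)| = Real.sin (Real.pi * |x| / 4) := by
  have hp := Real.pi_pos
  rcases le_total 0 x with hx | hx
  · rw [abs_of_nonneg hx] at h ⊢
    refine abs_of_nonneg (Real.sin_nonneg_of_nonneg_of_le_pi (by positivity) ?_)
    nlinarith
  · rw [abs_of_nonpos hx] at h ⊢
    have h1 : Real.pi * x / 4 = -(Real.pi * -x / 4) := by ring
    rw [h1, Real.sin_neg, abs_neg]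
    refine abs_of_nonneg (Real.sin_nonneg_of_nonneg_of_le_pi ?_ ?_)
    · have : 0 ≤ -x := by linarith
      positivity
    · nlinarith

private theorem lu_sin_le (x : ℝ) (h : |x| ≤ 1) : |Real.sin (Real.pi * x / 4)| ≤ 4 * lu_k := by
  have hp := Real.pi_pos
  rw [lu_abs_sin x h, ← lu_k_sin]
  have h0 := abs_nonneg x
  refine Real.sin_le_sin_of_le_of_le_pi_div_two ?_ (by linarith) ?_
  · have : 0 ≤ Real.pi * |x| := by positivity
    linarith
  · nlinarith

private theorem lu_sin_eq (x : ℝ) (h : |x| ≤ 1) :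
    |Real.sin (Real.pi * x / 4)| = 4 * lu_k ↔ |x| = 1 := by
  have hp := Real.pi_pos
  constructor
  · intro h1
    by_contra hne
    have hlt : |x| < 1 := lt_of_le_of_ne h hne
    rw [lu_abs_sin x h, ← lu_k_sin] at h1
    have h0 := abs_nonneg x
    have h2 : Real.sin (Real.pi * |x| / 4) < Real.sin (Real.pi / 4) := by
      refine Real.sin_lt_sin_of_lt_of_le_pi_div_two ?_ (by linarith) ?_
      · have : 0 ≤ Real.pi * |x| := by positivity
        linarith
      · nlinarith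
    linarith
  · intro h1
    rw [lu_abs_sin x h, h1, mul_one, lu_k_sin]

private theorem lu_s_mem (w : ℂ) (hw : w ∈ Sq) : lu_s w ∈ lu_R := by
  obtain ⟨h1, h2⟩ := hw
  refine ⟨?_, ?_⟩
  · rw [mem_closedBall_zero_iff, lu_le]
    show (Real.sin (Real.pi * w.re / 4) / 4) ^ 2 + (w.im * Real.cos (Real.pi * w.re / 4) / 4) ^ 2 ≤
      1 / 16
    have h3 := Real.sin_sq_add_cos_sq (Real.pi * w.re / 4)
    have h4 : w.im ^ 2 ≤ 1 := by
      rw [← sq_abs]
      nlinarith [abs_nonneg w.im]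
    have h5 : w.im ^ 2 * Real.cos (Real.pi * w.re / 4) ^ 2 ≤ Real.cos (Real.pi * w.re / 4) ^ 2 :=
      mul_le_of_le_one_left (sq_nonneg _) h4
    nlinarith
  · show |Real.sin (Real.pi * w.re / 4) / 4| ≤ lu_k
    rw [abs_div, abs_of_pos (by norm_num : (0 : ℝ) < 4), div_le_iff₀ (by norm_num)]
    have := lu_sin_le w.re h1
    linarith

private theorem lu_den (z : ℂ) (hz : |z.re| ≤ lu_k) : 1 / 2 ≤ 1 - (4 * z.re) ^ 2 := by
  have h1 : z.re ^ 2 ≤ lu_k ^ 2 := by
    rw [← sq_abs]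
    exact pow_le_pow_left₀ (abs_nonneg _) hz 2
  rw [lu_k_sq] at h1
  nlinarith

private theorem lu_p_mem (z : ℂ) (hz : z ∈ lu_R) : lu_p z ∈ Sq := by
  obtain ⟨h1, h2⟩ := hz
  have h2' : |z.re| ≤ lu_k := h2
  have hp := Real.pi_pos
  have hd := lu_den z h2'
  refine ⟨?_, ?_⟩
  · rw [lu_p_re]
    have h3 := abs_le.1 h2'
    have h4 : Real.arcsin (4 * z.re) ≤ Real.pi / 4 := by
      have h5 : Real.arcsin (4 * z.re) ≤ Real.arcsin (Real.sin (Real.pi / 4)) := by
        refine Real.monotone_arcsin ?_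
        rw [lu_k_sin]
        linarith [h3.2]
      rwa [Real.arcsin_sin (by linarith) (by linarith)] at h5
    have h6 : -(Real.pi / 4) ≤ Real.arcsin (4 * z.re) := by
      have h5 : Real.arcsin (Real.sin (-(Real.pi / 4))) ≤ Real.arcsin (4 * z.re) := by
        refine Real.monotone_arcsin ?_
        rw [Real.sin_neg, lu_k_sin]
        linarith [h3.1]
      rwa [Real.arcsin_sin (by linarith) (by linarith)] at h5
    rw [abs_mul, abs_of_pos (by positivity : (0 : ℝ) < 4 / Real.pi)]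
    have h7 : |Real.arcsin (4 * z.re)| ≤ Real.pi / 4 := abs_le.2 ⟨h6, h4⟩
    calc 4 / Real.pi * |Real.arcsin (4 * z.re)| ≤ 4 / Real.pi * (Real.pi / 4) :=
          mul_le_mul_of_nonneg_left h7 (by positivity)
      _ = 1 := by field_simp
  · rw [lu_p_im]
    have h3 : 0 < Real.sqrt (1 - (4 * z.re) ^ 2) := Real.sqrt_pos.2 (by linarith)
    rw [abs_div, abs_of_pos h3, div_le_one h3]
    refine Real.le_sqrt_of_sq_le ?_
    rw [sq_abs]
    rw [mem_closedBall_zero_iff, lu_le] at h1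
    nlinarith

private theorem lu_ps (w : ℂ) (hw : w ∈ Sq) : lu_p (lu_s w) = w := by
  obtain ⟨h1, h2⟩ := hw
  have hp := Real.pi_pos
  have h3 := abs_le.1 (lu_ang w.re h1)
  have h4 := lu_cos_pos w.re h1
  have h5 : 4 * (lu_s w).re = Real.sin (Real.pi * w.re / 4) := by
    show 4 * (Real.sin (Real.pi * w.re / 4) / 4) = _
    ring
  have h6 : Real.arcsin (4 * (lu_s w).re) = Real.pi * w.re / 4 := by
    rw [h5, Real.arcsin_sin (by linarith) (by linarith)]
  have h7 : Real.sqrt (1 - (4 * (lu_s w).re) ^ 2) = Real.cos (Real.pi * w.re / 4) := by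
    rw [← Real.cos_arcsin, h6]
  apply Complex.ext
  · rw [lu_p_re, h6]
    field_simp
  · rw [lu_p_im, h7]
    show 4 * (w.im * Real.cos (Real.pi * w.re / 4) / 4) / Real.cos (Real.pi * w.re / 4) = w.im
    field_simp

private theorem lu_sp (z : ℂ) (hz : z ∈ lu_R) : lu_s (lu_p z) = z := by
  obtain ⟨h1, h2⟩ := hz
  have h2' : |z.re| ≤ lu_k := h2
  have hp := Real.pi_pos
  have hd := lu_den z h2'
  have hk := lu_k_lt
  have h3 := abs_le.1 h2'
  have h4 : Real.pi * (lu_p z).re / 4 = Real.arcsin (4 * z.re) := by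
    rw [lu_p_re]
    field_simp
  have h5 : 0 < Real.sqrt (1 - (4 * z.re) ^ 2) := Real.sqrt_pos.2 (by linarith)
  apply Complex.ext
  · show Real.sin (Real.pi * (lu_p z).re / 4) / 4 = z.re
    rw [h4, Real.sin_arcsin (by linarith) (by linarith)]
    ring
  · show (lu_p z).im * Real.cos (Real.pi * (lu_p z).re / 4) / 4 = z.im
    rw [h4, Real.cos_arcsin, lu_p_im]
    generalize Real.sqrt (1 - (4 * z.re) ^ 2) = t at *
    field_simp

private theorem lu_p_cont : ContinuousOn lu_p lu_R := by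
  unfold lu_p
  have h1 : ContinuousOn (fun z : ℂ => 4 / Real.pi * Real.arcsin (4 * z.re)) lu_R :=
    (continuous_const.mul (Real.continuous_arcsin.comp
      (continuous_const.mul Complex.continuous_re))).continuousOn
  have h2 : ContinuousOn (fun z : ℂ => 4 * z.im / Real.sqrt (1 - (4 * z.re) ^ 2)) lu_R := by
    refine ContinuousOn.div (continuous_const.mul Complex.continuous_im).continuousOn ?_ ?_
    · exact (Real.continuous_sqrt.comp (continuous_const.sub
        ((continuous_const.mul Complex.continuous_re).pow 2))).continuousOn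
    · intro z hz
      have := lu_den z hz.2
      exact (Real.sqrt_pos.2 (by linarith)).ne'
  exact (Complex.continuous_ofReal.comp_continuousOn h1).add
    ((Complex.continuous_ofReal.comp_continuousOn h2).mul continuousOn_const)

private theorem lu_s_norm (w : ℂ) (hw : w ∈ Sq) : 1 / 4 ≤ ‖lu_s w‖ ↔ |w.im| = 1 := by
  obtain ⟨h1, h2⟩ := hw
  have h3 := Real.sin_sq_add_cos_sq (Real.pi * w.re / 4)
  have h4 := lu_cos_pos w.re h1
  rw [lu_ge]
  show 1 / 16 ≤ (Real.sin (Real.pi * w.re / 4) / 4) ^ 2 +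
    (w.im * Real.cos (Real.pi * w.re / 4) / 4) ^ 2 ↔ _
  constructor
  · intro h
    have h5 : Real.cos (Real.pi * w.re / 4) ^ 2 * (1 - w.im ^ 2) ≤ 0 := by nlinarith
    have h6 : 1 - w.im ^ 2 ≤ 0 := by
      by_contra hcon
      push Not at hcon
      have : 0 < Real.cos (Real.pi * w.re / 4) ^ 2 * (1 - w.im ^ 2) := by positivity
      linarith
    rw [← sq_abs] at h6
    nlinarith [abs_nonneg w.im]
  · intro h
    have h5 : w.im ^ 2 = 1 := by rw [← sq_abs, h, one_pow]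
    have h6 : (w.im * Real.cos (Real.pi * w.re / 4) / 4) ^ 2 =
        w.im ^ 2 * Real.cos (Real.pi * w.re / 4) ^ 2 / 16 := by ring
    rw [h6, h5]
    nlinarith

private theorem lu_s_re (w : ℂ) (hw : w ∈ Sq) : |(lu_s w).re| = lu_k ↔ |w.re| = 1 := by
  rw [← lu_sin_eq w.re hw.1]
  show |Real.sin (Real.pi * w.re / 4) / 4| = lu_k ↔ _
  rw [abs_div, abs_of_pos (by norm_num : (0 : ℝ) < 4), div_eq_iff (by norm_num)]
  constructor <;> intro h <;> linarith

private theorem lu_s_top (x : ℝ) : lu_s (x + Complex.I) =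
    1 / 4 * cexpi (Real.pi / 2 - Real.pi * x / 4) := by
  apply Complex.ext
  · have h : (lu_s (x + Complex.I)).re = Real.sin (Real.pi * x / 4) / 4 := by simp [lu_s]
    rw [h, cexpi]
    rw [show (1 / 4 : ℂ) = ((1 / 4 : ℝ) : ℂ) by push_cast; rfl, Complex.re_ofReal_mul,
      Complex.exp_ofReal_mul_I_re, Real.cos_pi_div_two_sub]
    ring
  · have h : (lu_s (x + Complex.I)).im = Real.cos (Real.pi * x / 4) / 4 := by simp [lu_s]
    rw [h, cexpi]
    rw [show (1 / 4 : ℂ) = ((1 / 4 : ℝ) : ℂ) by push_cast; rfl, Complex.im_ofReal_mul,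
      Complex.exp_ofReal_mul_I_im, Real.sin_pi_div_two_sub]
    ring

private theorem lu_s_bot (x : ℝ) : lu_s (x - Complex.I) =
    1 / 4 * cexpi (-(Real.pi / 2) + Real.pi * x / 4) := by
  have h0 : -(Real.pi / 2) + Real.pi * x / 4 = -(Real.pi / 2 - Real.pi * x / 4) := by ring
  rw [h0]
  apply Complex.ext
  · have h : (lu_s (x - Complex.I)).re = Real.sin (Real.pi * x / 4) / 4 := by simp [lu_s]
    rw [h, cexpi]
    rw [show (1 / 4 : ℂ) = ((1 / 4 : ℝ) : ℂ) by push_cast; rfl, Complex.re_ofReal_mul,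
      Complex.exp_ofReal_mul_I_re, Real.cos_neg, Real.cos_pi_div_two_sub]
    ring
  · have h : (lu_s (x - Complex.I)).im = -(Real.cos (Real.pi * x / 4) / 4) := by
      simp [lu_s]
      ring
    rw [h, cexpi]
    rw [show (1 / 4 : ℂ) = ((1 / 4 : ℝ) : ℂ) by push_cast; rfl, Complex.im_ofReal_mul,
      Complex.exp_ofReal_mul_I_im, Real.sin_neg, Real.sin_pi_div_two_sub]
    ring

private theorem lu_R_closed : IsClosed lu_R :=
  isClosed_closedBall.inter (isClosed_le (continuous_abs.comp Complex.continuous_re)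
    continuous_const)

private theorem lu_Ann_closed : IsClosed Ann :=
  (isClosed_le continuous_const continuous_norm).inter
    (isClosed_le continuous_norm continuous_const)

/-- The map on the union of the annulus and the band, normalised case. -/
private theorem lu_glue {X : Type} [TopologicalSpace X] (q H : ℂ → X)
    (hq : ContinuousOn q Ann) (hqi : InjOn q Ann) (hH : ContinuousOn H Sq) (hHi : InjOn H Sq)
    (hint : H '' Sq ∩ q '' Ann = H '' SqA)
    (ht : ∀ x ∈ Icc (-1 : ℝ) 1, H (x + Complex.I) =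
      q (1 / 4 * cexpi (Real.pi / 2 - Real.pi * x / 4)))
    (hb : ∀ x ∈ Icc (-1 : ℝ) 1, H (x - Complex.I) =
      q (1 / 4 * cexpi (-(Real.pi / 2) + Real.pi * x / 4))) :
    ∃ Q : ℂ → X, ContinuousOn Q (Ann ∪ lu_R) ∧ InjOn Q (Ann ∪ lu_R) ∧
      (∀ z ∈ Ann, Q z = q z) ∧ (∀ w ∈ Sq, Q (lu_s w) = H w) := by
  classical
  have hedge : ∀ w ∈ Sq, 1 / 4 ≤ ‖lu_s w‖ → q (lu_s w) = H w := by
    intro w hw h
    have h1 := (lu_s_norm w hw).1 h
    have hx : w.re ∈ Icc (-1 : ℝ) 1 := abs_le.1 hw.1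
    rcases eq_or_eq_neg_of_abs_eq h1 with h2 | h2
    · have h3 : w = (w.re : ℂ) + Complex.I := by
        apply Complex.ext <;> simp [h2]
      rw [h3, lu_s_top, ht _ hx]
    · have h3 : w = (w.re : ℂ) - Complex.I := by
        apply Complex.ext <;> simp [h2]
      rw [h3, lu_s_bot, hb _ hx]
  let Q : ℂ → X := fun z => if z ∈ Ann then q z else H (lu_p z)
  have hQ1 : ∀ z ∈ Ann, Q z = q z := fun z hz => if_pos hz
  have hQ2 : ∀ z ∈ lu_R, Q z = H (lu_p z) := by
    intro z hz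
    by_cases h : z ∈ Ann
    · rw [hQ1 z h]
      have h1 := hedge (lu_p z) (lu_p_mem z hz) (by rw [lu_sp z hz]; exact h.1)
      rw [lu_sp z hz] at h1
      exact h1
    · exact if_neg h
  have hQ3 : ∀ w ∈ Sq, Q (lu_s w) = H w := by
    intro w hw
    rw [hQ2 _ (lu_s_mem w hw), lu_ps w hw]
  have hcross : ∀ z ∈ Ann, ∀ w ∈ lu_R, Q z = Q w → w ∈ Ann := by
    intro z hz w hw h
    rw [hQ1 z hz, hQ2 w hw] at h
    have h1 : H (lu_p w) ∈ H '' SqA := by
      rw [← hint]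
      exact ⟨⟨_, lu_p_mem w hw, rfl⟩, ⟨z, hz, h⟩⟩
    obtain ⟨v, hv, hvw⟩ := h1
    have hvS : v ∈ Sq := ⟨hv.1, hv.2.le⟩
    have h2 : v = lu_p w := hHi hvS (lu_p_mem w hw) hvw
    have h3 : |(lu_p w).im| = 1 := h2 ▸ hv.2
    have h4 := (lu_s_norm _ (lu_p_mem w hw)).2 h3
    rw [lu_sp w hw] at h4
    refine ⟨h4, ?_⟩
    have := mem_closedBall_zero_iff.1 hw.1
    linarith
  refine ⟨Q, ?_, ?_, hQ1, hQ3⟩
  · refine ContinuousOn.union_of_isClosed ?_ ?_ lu_Ann_closed lu_R_closed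
    · exact hq.congr hQ1
    · exact (hH.comp lu_p_cont lu_p_mem).congr hQ2
  · have hAnn : ∀ z ∈ Ann, ∀ w ∈ Ann, Q z = Q w → z = w := by
      intro z hz w hw h
      rw [hQ1 z hz, hQ1 w hw] at h
      exact hqi hz hw h
    rintro z (hz | hz) w (hw | hw) h
    · exact hAnn z hz w hw h
    · exact hAnn z hz w (hcross z hz w hw h) h
    · exact hAnn z (hcross w hw z hz h.symm) w hw h
    · rw [hQ2 z hz, hQ2 w hw] at h
      have h1 := hHi (lu_p_mem z hz) (lu_p_mem w hw) h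
      rw [← lu_sp z hz, h1, lu_sp w hw]

/-- The right cap. -/
private def lu_Ep : Set ℂ := closedBall 0 (1 / 4) ∩ {z : ℂ | lu_k ≤ z.re}

/-- The left cap. -/
private def lu_Em : Set ℂ := closedBall 0 (1 / 4) ∩ {z : ℂ | z.re ≤ -lu_k}

private theorem lu_Ep_int : interior lu_Ep = ball 0 (1 / 4) ∩ {z : ℂ | lu_k < z.re} := by
  unfold lu_Ep
  rw [interior_inter, interior_closedBall _ (by norm_num), Complex.interior_setOfPred_le_re]

private theorem lu_Em_int : interior lu_Em = ball 0 (1 / 4) ∩ {z : ℂ | z.re < -lu_k} := by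
  unfold lu_Em
  rw [interior_inter, interior_closedBall _ (by norm_num), Complex.interior_setOfPred_re_le]

private theorem lu_Ep_disc (hI : St_INTD) : IsDisc lu_Ep := by
  refine hI.2.1 _ ?_ ?_ ?_
  · exact (isCompact_closedBall 0 (1 / 4)).inter_right
      (isClosed_le continuous_const Complex.continuous_re)
  · exact (convex_closedBall 0 (1 / 4)).inter (convex_halfSpace_re_ge _)
  · rw [lu_Ep_int]
    refine ⟨((1 / 5 : ℝ) : ℂ), ?_, ?_⟩
    · rw [mem_ball_zero_iff, Complex.norm_real, Real.norm_of_nonneg (by norm_num)]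
      norm_num
    · show lu_k < ((1 / 5 : ℝ) : ℂ).re
      rw [Complex.ofReal_re]
      exact lu_k_lt

private theorem lu_Em_disc (hI : St_INTD) : IsDisc lu_Em := by
  refine hI.2.1 _ ?_ ?_ ?_
  · exact (isCompact_closedBall 0 (1 / 4)).inter_right
      (isClosed_le Complex.continuous_re continuous_const)
  · exact (convex_closedBall 0 (1 / 4)).inter (convex_halfSpace_re_le _)
  · rw [lu_Em_int]
    refine ⟨((-(1 / 5) : ℝ) : ℂ), ?_, ?_⟩
    · rw [mem_ball_zero_iff, Complex.norm_real, Real.norm_eq_abs, abs_neg,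
        abs_of_nonneg (by norm_num)]
      norm_num
    · show ((-(1 / 5) : ℝ) : ℂ).re < -lu_k
      rw [Complex.ofReal_re]
      linarith [lu_k_lt]

private theorem lu_cb_disc (hI : St_INTD) (c : ℂ) : IsDisc (closedBall c (1 / 8)) := by
  refine hI.2.1 _ (isCompact_closedBall _ _) (convex_closedBall _ _) ?_
  rw [interior_closedBall _ (by norm_num)]
  exact ⟨c, mem_ball_self (by norm_num)⟩

private theorem lu_Ep_sub : lu_Ep ⊆ ball (1 / 2) (49 / 100) := by
  intro z hz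
  have h1 := (lu_le z).1 (mem_closedBall_zero_iff.1 hz.1)
  have h2 : lu_k ≤ z.re := hz.2
  have h3 := lu_k_gt
  rw [mem_ball, dist_eq_norm]
  have h4 := lu_nsq (z - 1 / 2)
  have h5 : (z - 1 / 2).re = z.re - 1 / 2 := by
    rw [Complex.sub_re]
    norm_num
  have h6 : (z - 1 / 2).im = z.im := by
    rw [Complex.sub_im]
    norm_num
  rw [h5, h6] at h4
  nlinarith [norm_nonneg (z - 1 / 2)]

private theorem lu_Em_sub : lu_Em ⊆ ball (-(1 / 2)) (49 / 100) := by
  intro z hz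
  have h1 := (lu_le z).1 (mem_closedBall_zero_iff.1 hz.1)
  have h2 : z.re ≤ -lu_k := hz.2
  have h3 := lu_k_gt
  rw [mem_ball, dist_eq_norm]
  have h4 := lu_nsq (z - -(1 / 2))
  have h5 : (z - -(1 / 2)).re = z.re + 1 / 2 := by
    rw [Complex.sub_re, Complex.neg_re]
    norm_num
  have h6 : (z - -(1 / 2)).im = z.im := by
    rw [Complex.sub_im, Complex.neg_im]
    norm_num
  rw [h5, h6] at h4
  nlinarith [norm_nonneg (z - -(1 / 2))]

private theorem lu_stay (Θ : ℂ ≃ₜ ℂ) (B : Set ℂ) (h : ∀ z, z ∉ B → Θ z = z) (z : ℂ) :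
    Θ z ∈ B ↔ z ∈ B := by
  constructor
  · intro h1
    by_contra h2
    rw [h z h2] at h1
    exact h2 h1
  · intro h1
    by_contra h2
    have h3 := Θ.injective (h _ h2)
    rw [h3] at h2
    exact h2 h1

private theorem lu_fix (Θ : ℂ ≃ₜ ℂ) (B A : Set ℂ) (h : ∀ z, z ∉ B → Θ z = z)
    (hAB : Disjoint A B) (z : ℂ) : Θ z ∈ A ↔ z ∈ A := by
  constructor
  · intro h1
    have h2 : Θ z ∉ B := disjoint_left.1 hAB h1
    rw [lu_stay Θ B h] at h2
    rwa [h z h2] at h1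
  · intro h1
    rwa [h z (disjoint_left.1 hAB h1)]

private theorem lu_img (Θ : ℂ ≃ₜ ℂ) (A A' : Set ℂ) (h : Θ '' A = A') (z : ℂ) :
    Θ z ∈ A' ↔ z ∈ A := by
  rw [← h]
  exact Θ.injective.mem_set_image

private theorem lu_balls : Disjoint (ball (1 / 2 : ℂ) (49 / 100)) (ball (-(1 / 2) : ℂ) (49 / 100)) := by
  apply ball_disjoint_ball
  have h : dist (1 / 2 : ℂ) (-(1 / 2)) = 1 := by
    rw [dist_eq_norm]
    norm_num
  rw [h]
  norm_num

/-- The homeomorphism which maps the two round holes to the caps. -/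
private theorem lu_theta (hI : St_INTD) (hP : St_PDS) : ∃ Θ : ℂ ≃ₜ ℂ,
    (∀ z, z ∉ OD → Θ z = z) ∧
    (∀ z, Θ z ∈ lu_Ep ↔ z ∈ closedBall (1 / 2 : ℂ) (1 / 8)) ∧
    (∀ z, Θ z ∈ interior lu_Ep ↔ z ∈ ball (1 / 2 : ℂ) (1 / 8)) ∧
    (∀ z, Θ z ∈ lu_Em ↔ z ∈ closedBall (-(1 / 2) : ℂ) (1 / 8)) ∧
    (∀ z, Θ z ∈ interior lu_Em ↔ z ∈ ball (-(1 / 2) : ℂ) (1 / 8)) := by
  have hsub : ∀ c : ℂ, closedBall c (1 / 8) ⊆ ball c (49 / 100) := fun c =>
    closedBall_subset_ball (by norm_num)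
  obtain ⟨Θ₁, h1, h2, h3⟩ := hP.2 (1 / 2) (49 / 100) (by norm_num) _ _
    (lu_cb_disc hI (1 / 2)) (lu_Ep_disc hI) (hsub _) lu_Ep_sub
  obtain ⟨Θ₂, g1, g2, g3⟩ := hP.2 (-(1 / 2)) (49 / 100) (by norm_num) _ _
    (lu_cb_disc hI (-(1 / 2))) (lu_Em_disc hI) (hsub _) lu_Em_sub
  rw [interior_closedBall _ (by norm_num)] at h3 g3
  have hd1 : Disjoint (closedBall (1 / 2 : ℂ) (1 / 8)) (ball (-(1 / 2) : ℂ) (49 / 100)) :=
    lu_balls.mono_left (hsub _)
  have hd2 : Disjoint (ball (1 / 2 : ℂ) (1 / 8)) (ball (-(1 / 2) : ℂ) (49 / 100)) :=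
    hd1.mono_left ball_subset_closedBall
  have hd3 : Disjoint lu_Em (ball (1 / 2 : ℂ) (49 / 100)) :=
    (lu_balls.mono_right lu_Em_sub).symm
  have hd4 : Disjoint (interior lu_Em) (ball (1 / 2 : ℂ) (49 / 100)) :=
    hd3.mono_left interior_subset
  refine ⟨Θ₂.trans Θ₁, ?_, ?_, ?_, ?_, ?_⟩
  · intro z hz
    have hb : ∀ c : ℂ, ‖c‖ ≤ 1 / 2 → ball c (49 / 100) ⊆ OD := by
      intro c hc
      apply ball_subset_ball'
      rw [dist_zero_right]
      linarith
    have e1 : z ∉ ball (-(1 / 2) : ℂ) (49 / 100) := fun h => hz (hb _ (by norm_num) h)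
    have e2 : z ∉ ball (1 / 2 : ℂ) (49 / 100) := fun h => hz (hb _ (by norm_num) h)
    show Θ₁ (Θ₂ z) = z
    rw [g1 z e1, h1 z e2]
  · intro z
    show Θ₁ (Θ₂ z) ∈ lu_Ep ↔ _
    rw [lu_img Θ₁ _ _ h2, lu_fix Θ₂ _ _ g1 hd1]
  · intro z
    show Θ₁ (Θ₂ z) ∈ interior lu_Ep ↔ _
    rw [lu_img Θ₁ _ _ h3, lu_fix Θ₂ _ _ g1 hd2]
  · intro z
    show Θ₁ (Θ₂ z) ∈ lu_Em ↔ _
    rw [lu_fix Θ₁ _ _ h1 hd3, lu_img Θ₂ _ _ g2]
  · intro z
    show Θ₁ (Θ₂ z) ∈ interior lu_Em ↔ _
    rw [lu_fix Θ₁ _ _ h1 hd4, lu_img Θ₂ _ _ g3]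

/-- The configuration with two free holes. -/
private noncomputable def lu_C : Conf where
  F := ∅
  I := {-(1 / 2), 1 / 2}
  rad := fun _ => 1 / 4
  lab := fun _ => Lab.O

private theorem lu_C_ok : lu_C.Ok where
  closed := isClosed_empty
  compact := by
    have : (lu_C.F ∪ lu_C.I).Finite := by
      show ((∅ : Set ℝ) ∪ {-(1 / 2), 1 / 2}).Finite
      exact Set.finite_empty.union (Set.toFinite _)
    exact this.isCompact
  td := isTotallyDisconnected_empty
  small := fun x hx => absurd hx (Set.notMem_empty x)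
  pos := fun i _ => by
    show (0 : ℝ) < 1 / 4
    norm_num
  inside := fun i hi => by
    show |i| + 1 / 4 < 1
    rcases hi with rfl | rfl
    · rw [abs_neg, abs_of_pos (by norm_num)]
      norm_num
    · rw [abs_of_pos (by norm_num)]
      norm_num
  away := fun i _ x hx => absurd hx (Set.notMem_empty x)
  apart := fun i hi j hj hij => by
    show (1 / 4 : ℝ) + 1 / 4 < |i - j|
    rcases hi with rfl | rfl <;> rcases hj with rfl | rfl
    · exact absurd rfl hij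
    · norm_num [abs_of_neg]
    · norm_num [abs_of_pos]
    · exact absurd rfl hij

private theorem lu_C_hole (i : ℝ) : lu_C.holes i = ball ((i : ℝ) : ℂ) (1 / 8) := by
  show ball ((i : ℝ) : ℂ) ((1 / 4 : ℝ) / 2) = _
  norm_num

private theorem lu_C_dom (z : ℂ) : z ∈ lu_C.Dom ↔
    z ∈ CD ∧ z ∉ ball (1 / 2 : ℂ) (1 / 8) ∧ z ∉ ball (-(1 / 2) : ℂ) (1 / 8) := by
  have h : (⋃ i ∈ lu_C.I, lu_C.holes i) =
      ball (-(1 / 2) : ℂ) (1 / 8) ∪ ball (1 / 2 : ℂ) (1 / 8) := by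
    show (⋃ i ∈ ({-(1 / 2), 1 / 2} : Set ℝ), lu_C.holes i) = _
    rw [biUnion_pair, lu_C_hole, lu_C_hole]
    push_cast
    rfl
  rw [Conf.Dom, h]
  have hF : lu_C.F = ∅ := rfl
  rw [hF, image_empty, empty_union]
  constructor
  · rintro ⟨h1, h2⟩
    exact ⟨h1, fun h3 => h2 (Or.inr h3), fun h3 => h2 (Or.inl h3)⟩
  · rintro ⟨h1, h2, h3⟩
    refine ⟨h1, ?_⟩
    rintro (h4 | h4)
    · exact h3 h4
    · exact h2 h4

private theorem lu_C_fb (z : ℂ) : z ∈ lu_C.FreeBd ↔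
    z ∈ sphere (1 / 2 : ℂ) (1 / 8) ∨ z ∈ sphere (-(1 / 2) : ℂ) (1 / 8) := by
  have h : {i ∈ lu_C.I | lu_C.lab i = Lab.O} = ({-(1 / 2), 1 / 2} : Set ℝ) := by
    ext i
    exact ⟨fun h => h.1, fun h => ⟨h, rfl⟩⟩
  have hr : ∀ i, lu_C.rad i / 2 = 1 / 8 := fun i => by
    show (1 / 4 : ℝ) / 2 = 1 / 8
    norm_num
  rw [Conf.FreeBd, h, biUnion_pair, hr, hr]
  push_cast
  exact or_comm

private theorem lu_C_T (l : Lab) (hl : l ≠ Lab.O) : lu_C.cnt l = 0 := by
  have h : {i ∈ lu_C.I | lu_C.lab i = l} = ∅ := by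
    ext i
    constructor
    · rintro ⟨-, h⟩
      exact absurd h.symm hl
    · intro h
      exact absurd h (Set.notMem_empty i)
  rw [Conf.cnt, h, ncard_empty]

private theorem lu_C_O : lu_C.cnt Lab.O = 2 := by
  have h : {i ∈ lu_C.I | lu_C.lab i = Lab.O} = ({-(1 / 2), 1 / 2} : Set ℝ) := by
    ext i
    exact ⟨fun h => h.1, fun h => ⟨h, rfl⟩⟩
  rw [Conf.cnt, h, ncard_pair (by norm_num)]

private theorem lu_C_rel (x y : ℂ) : lu_C.Rel x y ↔ x = y := by
  constructor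
  · rintro (h | ⟨i, -, ⟨h, -⟩ | ⟨h, -⟩⟩)
    · exact h
    · exact absurd h (by show Lab.O ≠ Lab.T; exact fun h => by cases h)
    · exact absurd h (by show Lab.O ≠ Lab.P; exact fun h => by cases h)
  · exact Or.inl

/-- The normalised case. -/
private theorem lu_norm (hI : St_INTD) (hP : St_PDS) {X : Type} [TopologicalSpace X]
    (q H : ℂ → X)
    (hq : ContinuousOn q Ann) (hqi : InjOn q Ann) (hH : ContinuousOn H Sq) (hHi : InjOn H Sq)
    (hint : H '' Sq ∩ q '' Ann = H '' SqA)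
    (ht : ∀ x ∈ Icc (-1 : ℝ) 1, H (x + Complex.I) =
      q (1 / 4 * cexpi (Real.pi / 2 - Real.pi * x / 4)))
    (hb : ∀ x ∈ Icc (-1 : ℝ) 1, H (x - Complex.I) =
      q (1 / 4 * cexpi (-(Real.pi / 2) + Real.pi * x / 4))) :
    FinPres 0 0 2 (q '' Ann ∪ H '' Sq) ((q '' sphere 0 (1 / 4) \ H '' SqO) ∪ H '' SqF) q := by
  obtain ⟨Q, hQc, hQi, hQ1, hQ2⟩ := lu_glue q H hq hqi hH hHi hint ht hb
  obtain ⟨Θ, hΘ0, hΘ1, hΘ2, hΘ3, hΘ4⟩ := lu_theta hI hP
  have hk := lu_k_pos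
  have hk5 := lu_k_lt
  have hCD : ∀ z, Θ z ∈ CD ↔ z ∈ CD := by
    have h1 := lu_stay Θ OD hΘ0
    intro z
    by_cases hz : z ∈ OD
    · exact ⟨fun _ => ball_subset_closedBall hz, fun _ => ball_subset_closedBall ((h1 z).2 hz)⟩
    · rw [hΘ0 z hz]
  have hcover : ∀ w : ℂ, w ∈ Ann ∪ lu_R ↔
      w ∈ CD ∧ w ∉ interior lu_Ep ∧ w ∉ interior lu_Em := by
    intro w
    rw [lu_Ep_int, lu_Em_int]
    constructor
    · rintro (h | h)
      · refine ⟨mem_closedBall_zero_iff.2 h.2, ?_, ?_⟩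
        · rintro ⟨h1, -⟩
          rw [mem_ball_zero_iff] at h1
          exact absurd h.1 (not_le.2 h1)
        · rintro ⟨h1, -⟩
          rw [mem_ball_zero_iff] at h1
          exact absurd h.1 (not_le.2 h1)
      · have h2 := abs_le.1 (show |w.re| ≤ lu_k from h.2)
        refine ⟨?_, ?_, ?_⟩
        · have h1 := mem_closedBall_zero_iff.1 h.1
          rw [mem_closedBall_zero_iff]
          linarith
        · rintro ⟨-, h1⟩
          have h1' : lu_k < w.re := h1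
          linarith [h2.2]
        · rintro ⟨-, h1⟩
          have h1' : w.re < -lu_k := h1
          linarith [h2.1]
    · rintro ⟨h1, h2, h3⟩
      by_cases h4 : 1 / 4 ≤ ‖w‖
      · exact Or.inl ⟨h4, mem_closedBall_zero_iff.1 h1⟩
      · rw [not_le] at h4
        right
        refine ⟨mem_closedBall_zero_iff.2 h4.le, ?_⟩
        show |w.re| ≤ lu_k
        have h5 : w ∈ ball (0 : ℂ) (1 / 4) := mem_ball_zero_iff.2 h4
        rw [abs_le]
        constructor
        · by_contra hc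
          rw [not_le] at hc
          exact h3 ⟨h5, hc⟩
        · by_contra hc
          rw [not_le] at hc
          exact h2 ⟨h5, hc⟩
  have hDom : ∀ z, z ∈ lu_C.Dom ↔ Θ z ∈ Ann ∪ lu_R := by
    intro z
    rw [lu_C_dom, hcover, hCD, hΘ2, hΘ4]
  have hFb : ∀ z, z ∈ lu_C.FreeBd ↔
      (Θ z ∈ lu_Ep ∧ Θ z ∉ interior lu_Ep) ∨ (Θ z ∈ lu_Em ∧ Θ z ∉ interior lu_Em) := by
    intro z
    rw [lu_C_fb, hΘ1, hΘ2, hΘ3, hΘ4, ← closedBall_sdiff_ball, ← closedBall_sdiff_ball]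
    rfl
  have himg : ∀ (A B : Set ℂ), (∀ z, z ∈ A ↔ Θ z ∈ B) → (Q ∘ Θ) '' A = Q '' B := by
    intro A B hAB
    ext x
    constructor
    · rintro ⟨z, hz, rfl⟩
      exact ⟨Θ z, (hAB z).1 hz, rfl⟩
    · rintro ⟨w, hw, rfl⟩
      refine ⟨Θ.symm w, (hAB _).2 ?_, ?_⟩
      · rw [Θ.apply_symm_apply]
        exact hw
      · show Q (Θ (Θ.symm w)) = Q w
        rw [Θ.apply_symm_apply]
  have hQR : Q '' lu_R = H '' Sq := by
    ext x
    constructor
    · rintro ⟨z, hz, rfl⟩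
      refine ⟨lu_p z, lu_p_mem z hz, ?_⟩
      rw [← hQ2 _ (lu_p_mem z hz), lu_sp z hz]
    · rintro ⟨w, hw, rfl⟩
      exact ⟨lu_s w, lu_s_mem w hw, hQ2 w hw⟩
  have hQA : Q '' Ann = q '' Ann := image_congr hQ1
  refine ⟨lu_C, lu_C_ok, rfl, lu_C_T _ (fun h => by cases h), lu_C_T _ (fun h => by cases h),
    lu_C_O, Q ∘ Θ, ⟨?_, ?_, ?_, ?_⟩, ?_, ?_⟩
  · exact hQc.comp Θ.continuous.continuousOn fun z hz => (hDom z).1 hz
  · rw [himg _ _ hDom, image_union, hQA, hQR]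
  · intro x hx y hy
    rw [lu_C_rel]
    constructor
    · intro h
      exact Θ.injective (hQi ((hDom x).1 hx) ((hDom y).1 hy) h)
    · rintro rfl
      rfl
  · intro A _ _
    refine ⟨lu_C.Dom, Subset.rfl, ?_, fun x hx _ => hx⟩
    have hop : IsOpen ((fun x : ℝ => (x : ℂ)) '' lu_C.F ∪ ⋃ i ∈ lu_C.I, lu_C.holes i) := by
      have hF : lu_C.F = ∅ := rfl
      rw [hF, image_empty, empty_union]
      refine isOpen_biUnion fun i _ => ?_
      rw [lu_C_hole]
      exact isOpen_ball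
    exact (isCompact_closedBall (0 : ℂ) 1).diff hop
  · intro z hz
    have h1 : z ∉ OD := by
      rw [mem_ball_zero_iff, mem_sphere_zero_iff_norm.1 hz]
      exact lt_irrefl _
    show Q (Θ z) = q z
    rw [hΘ0 z h1, hQ1 z ⟨by rw [mem_sphere_zero_iff_norm.1 hz]; norm_num,
      (mem_sphere_zero_iff_norm.1 hz).le⟩]
  · have h0 := himg _ {w | (w ∈ lu_Ep ∧ w ∉ interior lu_Ep) ∨
      (w ∈ lu_Em ∧ w ∉ interior lu_Em)} hFb
    rw [h0]
    have hT : {w | (w ∈ lu_Ep ∧ w ∉ interior lu_Ep) ∨ (w ∈ lu_Em ∧ w ∉ interior lu_Em)} =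
        {w : ℂ | ‖w‖ = 1 / 4 ∧ lu_k ≤ |w.re|} ∪ lu_s '' SqF := by
      ext w
      rw [lu_Ep_int, lu_Em_int]
      constructor
      · intro h
        have h1 : ‖w‖ ≤ 1 / 4 := by
          rcases h with h | h
          · exact mem_closedBall_zero_iff.1 h.1.1
          · exact mem_closedBall_zero_iff.1 h.1.1
        have h2 : lu_k ≤ |w.re| := by
          rcases h with h | h
          · exact le_trans h.1.2 (le_abs_self _)
          · have h3 : w.re ≤ -lu_k := h.1.2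
            exact le_trans (by linarith) (neg_le_abs _)
        rcases eq_or_lt_of_le h1 with h3 | h3
        · exact Or.inl ⟨h3, h2⟩
        · right
          have h4 : w ∈ ball (0 : ℂ) (1 / 4) := mem_ball_zero_iff.2 h3
          have h5 : |w.re| = lu_k := by
            rcases h with h | h
            · have h6 : lu_k ≤ w.re := h.1.2
              have h7 : ¬ lu_k < w.re := fun hc => h.2 ⟨h4, hc⟩
              rw [abs_of_pos (by linarith)]
              linarith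
            · have h6 : w.re ≤ -lu_k := h.1.2
              have h7 : ¬ w.re < -lu_k := fun hc => h.2 ⟨h4, hc⟩
              rw [abs_of_neg (by linarith)]
              linarith
          have h6 : w ∈ lu_R := ⟨mem_closedBall_zero_iff.2 h1, h5.le⟩
          refine ⟨lu_p w, ⟨?_, (lu_p_mem w h6).2⟩, lu_sp w h6⟩
          rw [← lu_s_re _ (lu_p_mem w h6), lu_sp w h6]
          exact h5
      · rintro (⟨h1, h2⟩ | ⟨v, hv, rfl⟩)
        · have h3 : w ∉ ball (0 : ℂ) (1 / 4) := by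
            rw [mem_ball_zero_iff, h1]
            exact lt_irrefl _
          rcases le_abs.1 h2 with h4 | h4
          · exact Or.inl ⟨⟨mem_closedBall_zero_iff.2 h1.le, h4⟩, fun h => h3 h.1⟩
          · refine Or.inr ⟨⟨mem_closedBall_zero_iff.2 h1.le, ?_⟩, fun h => h3 h.1⟩
            show w.re ≤ -lu_k
            linarith
        · have hvS : v ∈ Sq := ⟨hv.1.le, hv.2⟩
          have h1 := (lu_s_re v hvS).2 hv.1
          have h2 := (lu_s_mem v hvS).1
          rcases eq_or_eq_neg_of_abs_eq h1 with h4 | h4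
          · refine Or.inl ⟨⟨h2, h4.ge⟩, ?_⟩
            rintro ⟨-, h5⟩
            have h5' : lu_k < (lu_s v).re := h5
            linarith
          · refine Or.inr ⟨⟨h2, h4.le⟩, ?_⟩
            rintro ⟨-, h5⟩
            have h5' : (lu_s v).re < -lu_k := h5
            linarith
    rw [hT, image_union]
    have hF : Q '' (lu_s '' SqF) = H '' SqF := by
      rw [image_image]
      exact image_congr fun w hw => hQ2 w ⟨hw.1.le, hw.2⟩
    rw [hF]
    congr 1
    ext x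
    constructor
    · rintro ⟨⟨z, hz, rfl⟩, hx⟩
      have hz1 : ‖z‖ = 1 / 4 := mem_sphere_zero_iff_norm.1 hz
      have hzA : z ∈ Ann := ⟨hz1.ge, by rw [hz1]; norm_num⟩
      refine ⟨z, ⟨hz1, ?_⟩, hQ1 z hzA⟩
      by_contra hc
      rw [not_le] at hc
      have hzR : z ∈ lu_R := ⟨mem_closedBall_zero_iff.2 hz1.le, hc.le⟩
      apply hx
      refine ⟨lu_p z, ⟨?_, ?_⟩, ?_⟩
      · have h1 := (lu_p_mem z hzR).1
        refine lt_of_le_of_ne h1 fun h2 => ?_
        have h3 := (lu_s_re _ (lu_p_mem z hzR)).2 h2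
        rw [lu_sp z hzR] at h3
        linarith
      · rw [← lu_s_norm _ (lu_p_mem z hzR), lu_sp z hzR]
        exact hz1.ge
      · rw [← hQ2 _ (lu_p_mem z hzR), lu_sp z hzR, hQ1 z hzA]
    · rintro ⟨z, ⟨hz1, hz2⟩, rfl⟩
      have hzA : z ∈ Ann := ⟨hz1.ge, by rw [hz1]; norm_num⟩
      rw [hQ1 z hzA]
      refine ⟨⟨z, mem_sphere_zero_iff_norm.2 hz1, rfl⟩, ?_⟩
      rintro ⟨v, hv, hvz⟩
      have hvS : v ∈ Sq := ⟨hv.1.le, hv.2.le⟩
      rw [← hQ1 z hzA, ← hQ2 v hvS] at hvz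
      have h1 := hQi (Or.inr (lu_s_mem v hvS)) (Or.inl hzA) hvz
      have h2 : |(lu_s v).re| ≤ lu_k := (lu_s_mem v hvS).2
      rw [← h1] at hz2
      have h3 := (lu_s_re v hvS).1 (le_antisymm h2 hz2)
      exact absurd h3 hv.1.ne

theorem thm_LU (hA : St_ANG) (hI : St_INTD) (hP : St_PDS) : St_LU := by
  intro X _ _ q H θ₁ θ₂ hq hqi hH hHi hint hθ₁ hθ₂ hm₁ hm₂ ht hb
  have hpi := Real.pi_pos
  have hmemT : ∀ x ∈ Icc (-1 : ℝ) 1, (x : ℂ) + Complex.I ∈ Sq := by
    intro x hx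
    refine ⟨?_, ?_⟩
    · simpa using abs_le.2 hx
    · simp
  have hmemB : ∀ x ∈ Icc (-1 : ℝ) 1, (x : ℂ) - Complex.I ∈ Sq := by
    intro x hx
    refine ⟨?_, ?_⟩
    · simpa using abs_le.2 hx
    · simp
  have hi1 : InjOn (fun x => cexpi (θ₁ x)) (Icc (-1) 1) := by
    intro x hx y hy h
    have h1 : cexpi (θ₁ x) = cexpi (θ₁ y) := h
    have h2 : H (x + Complex.I) = H (y + Complex.I) := by rw [ht x hx, ht y hy, h1]
    have h3 := congrArg Complex.re (hHi (hmemT x hx) (hmemT y hy) h2)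
    simpa using h3
  have hi2 : InjOn (fun x => cexpi (θ₂ x)) (Icc (-1) 1) := by
    intro x hx y hy h
    have h1 : cexpi (θ₂ x) = cexpi (θ₂ y) := h
    have h2 : H (x - Complex.I) = H (y - Complex.I) := by rw [hb x hx, hb y hy, h1]
    have h3 := congrArg Complex.re (hHi (hmemB x hx) (hmemB y hy) h2)
    simpa using h3
  have hre : ∀ x : ℝ, (cexpi (Real.pi / 2 - Real.pi * x / 4)).re = Real.sin (Real.pi * x / 4) := by
    intro x
    rw [cexpi, Complex.exp_ofReal_mul_I_re, Real.cos_pi_div_two_sub]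
  have him : ∀ x : ℝ, (cexpi (Real.pi / 2 - Real.pi * x / 4)).im = Real.cos (Real.pi * x / 4) := by
    intro x
    rw [cexpi, Complex.exp_ofReal_mul_I_im, Real.sin_pi_div_two_sub]
  have hneg : ∀ x : ℝ, -(Real.pi / 2) + Real.pi * x / 4 = -(Real.pi / 2 - Real.pi * x / 4) := by
    intro x
    ring
  have hre2 : ∀ x : ℝ, (cexpi (-(Real.pi / 2) + Real.pi * x / 4)).re =
      Real.sin (Real.pi * x / 4) := by
    intro x
    rw [hneg, cexpi, Complex.exp_ofReal_mul_I_re, Real.cos_neg, Real.cos_pi_div_two_sub]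
  have him2 : ∀ x : ℝ, (cexpi (-(Real.pi / 2) + Real.pi * x / 4)).im =
      -Real.cos (Real.pi * x / 4) := by
    intro x
    rw [hneg, cexpi, Complex.exp_ofReal_mul_I_im, Real.sin_neg, Real.sin_pi_div_two_sub]
  have hsinj : ∀ x ∈ Icc (-1 : ℝ) 1, ∀ y ∈ Icc (-1 : ℝ) 1,
      Real.sin (Real.pi * x / 4) = Real.sin (Real.pi * y / 4) → x = y := by
    intro x hx y hy h
    have hmx : Real.pi * x / 4 ∈ Icc (-(Real.pi / 2)) (Real.pi / 2) := by
      constructor <;> nlinarith [hx.1, hx.2]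
    have hmy : Real.pi * y / 4 ∈ Icc (-(Real.pi / 2)) (Real.pi / 2) := by
      constructor <;> nlinarith [hy.1, hy.2]
    have h1 := Real.injOn_sin hmx hmy h
    have h2 : Real.pi * (x - y) = 0 := by linarith
    rcases mul_eq_zero.1 h2 with h3 | h3
    · exact absurd h3 hpi.ne'
    · linarith
  obtain ⟨Φ, hΦ0, hΦ1, hΦ2, hΦ3⟩ := hA.2 0 (1 / 4) 1 (by norm_num) (by norm_num) θ₁
    (fun x => Real.pi / 2 - Real.pi * x / 4) θ₂ (fun x => -(Real.pi / 2) + Real.pi * x / 4)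
    hθ₁ (by fun_prop) hθ₂ (by fun_prop)
    (Or.inr ⟨hm₁, fun x _ y _ hxy => by
      show Real.pi / 2 - Real.pi * y / 4 < Real.pi / 2 - Real.pi * x / 4
      nlinarith⟩)
    (Or.inl ⟨hm₂, fun x _ y _ hxy => by
      show -(Real.pi / 2) + Real.pi * x / 4 < -(Real.pi / 2) + Real.pi * y / 4
      nlinarith⟩)
    hi1
    (by
      intro x hx y hy h
      have h1 := congrArg Complex.re h
      simp only [hre] at h1
      exact hsinj x hx y hy h1)
    hi2
    (by
      intro x hx y hy h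
      have h1 := congrArg Complex.re h
      simp only [hre2] at h1
      exact hsinj x hx y hy h1)
    (by
      intro x hx y hy h
      have h2 : H (x + Complex.I) = H (y - Complex.I) := by rw [ht x hx, hb y hy, h]
      have h3 := congrArg Complex.im (hHi (hmemT x hx) (hmemB y hy) h2)
      simp at h3
      linarith)
    (by
      intro x hx y hy h
      have h1 := congrArg Complex.im h
      simp only [him, him2] at h1
      have h2 := lu_cos_pos x (abs_le.2 hx)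
      have h3 := lu_cos_pos y (abs_le.2 hy)
      linarith)
  simp only [sub_zero] at hΦ1
  have hΦs : ∀ z, ‖Φ.symm z‖ = ‖z‖ := by
    intro z
    have h := hΦ1 (Φ.symm z)
    rw [Φ.apply_symm_apply] at h
    exact h.symm
  have hΦ01 : ∀ z ∈ UC, Φ.symm z = z := by
    intro z hz
    have h1 : z ∉ ball (0 : ℂ) 1 := by
      rw [mem_ball_zero_iff, mem_sphere_zero_iff_norm.1 hz]
      exact lt_irrefl _
    rw [← hΦ0 z h1, Φ.symm_apply_apply, hΦ0 z h1]
  have hmaps : MapsTo Φ.symm Ann Ann := by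
    intro z hz
    exact ⟨by rw [hΦs]; exact hz.1, by rw [hΦs]; exact hz.2⟩
  have himg : ∀ A : Set ℂ, (∀ z, Φ z ∈ A ↔ z ∈ A) → (q ∘ Φ.symm) '' A = q '' A := by
    intro A hA'
    ext x
    constructor
    · rintro ⟨z, hz, rfl⟩
      refine ⟨Φ.symm z, ?_, rfl⟩
      rw [← hA', Φ.apply_symm_apply]
      exact hz
    · rintro ⟨w, hw, rfl⟩
      refine ⟨Φ w, (hA' w).2 hw, ?_⟩
      show q (Φ.symm (Φ w)) = q w
      rw [Φ.symm_apply_apply]
  have hAnn : (q ∘ Φ.symm) '' Ann = q '' Ann := himg _ fun z => by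
    show (1 / 4 ≤ ‖Φ z‖ ∧ ‖Φ z‖ ≤ 1) ↔ (1 / 4 ≤ ‖z‖ ∧ ‖z‖ ≤ 1)
    rw [hΦ1]
  have hSph : (q ∘ Φ.symm) '' sphere 0 (1 / 4) = q '' sphere 0 (1 / 4) := himg _ fun z => by
    rw [mem_sphere_zero_iff_norm, mem_sphere_zero_iff_norm, hΦ1]
  have hmain := lu_norm hI hP (q ∘ Φ.symm) H
    (hq.comp Φ.symm.continuous.continuousOn hmaps)
    (hqi.comp Φ.symm.injective.injOn hmaps) hH hHi (by rw [hAnn]; exact hint)
    (by
      intro x hx
      have h1 := hΦ2 x hx
      simp only [zero_add] at h1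
      push_cast at h1
      rw [ht x hx]
      show _ = q (Φ.symm _)
      rw [← h1, Φ.symm_apply_apply])
    (by
      intro x hx
      have h1 := hΦ3 x hx
      simp only [zero_add] at h1
      push_cast at h1
      rw [hb x hx]
      show _ = q (Φ.symm _)
      rw [← h1, Φ.symm_apply_apply])
  rw [hAnn, hSph] at hmain
  obtain ⟨C, hC1, hC2, hC3, hC4, hC5, q', hq1, hq2, hq3⟩ := hmain
  refine ⟨C, hC1, hC2, hC3, hC4, hC5, q', hq1, fun z hz => ?_, hq3⟩
  rw [hq2 z hz]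
  show q (Φ.symm z) = q z
  rw [hΦ01 z hz]

end Pool.Agent.SRP
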