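import Pool.Agent.SRP.StD
import Pool.Agent.SRF.RADH
import Pool.Agent.SRF.ARC0

set_option autoImplicit false

/-! # SRP MONO: injective paths on a circle -/

open Set Metric Filter Topology Pool.Agent.SRF

namespace Pool.Agent.SRP

theorem mono_one (hL : St_LOGB) (c : ℂ) (r a b : ℝ) (ζ : ℝ → ℂ) (hr : 0 < r) (hab : a < b)
    (hc : ContinuousOn ζ (Icc a b)) (hi : InjOn ζ (Icc a b)) (hs : ∀ t ∈ Icc a b, ζ t ∈ sphere c r) :
    ∃ θ : ℝ → ℝ, ContinuousOn θ (Icc a b) ∧
      (StrictMonoOn θ (Icc a b) ∨ StrictAntiOn θ (Icc a b)) ∧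
      (∀ t ∈ Icc a b, ζ t = c + r * cexpi (θ t)) ∧ |θ b - θ a| < 2 * Real.pi := by
  have hr0 : (r : ℂ) ≠ 0 := by exact_mod_cast hr.ne'
  let F : ℝ → ℂ := fun t => ζ (projIcc a b hab.le t)
  have hF : Continuous F :=
    (continuousOn_iff_continuous_domRestrict.1 hc).comp continuous_projIcc
  have hFt : ∀ t ∈ Icc a b, F t = ζ t := by
    intro t ht
    simp only [F]
    rw [projIcc_of_mem hab.le ht]
  have hFs : ∀ t, ‖F t - c‖ = r := by
    intro t
    have := hs _ (projIcc a b hab.le t).2
    rwa [mem_sphere, dist_eq_norm] at this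
  obtain ⟨h, hhc, hh⟩ := hL.2.1 (fun z => (F z.re - c) / r)
    (((hF.comp Complex.continuous_re).sub continuous_const).div_const _)
    (fun z => div_ne_zero (by
      intro h0
      have := hFs z.re
      rw [h0, norm_zero] at this
      exact hr.ne this) hr0)
  have hre : ∀ z, (h z).re = 0 := by
    intro z
    have h1 := congrArg norm (hh z)
    rw [Complex.norm_exp, norm_div, hFs, Complex.norm_real, Real.norm_of_nonneg hr.le,
      div_self hr.ne'] at h1
    exact Real.exp_eq_one_iff _ |>.1 h1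
  let θ : ℝ → ℝ := fun t => (h t).im
  have hθc : Continuous θ := Complex.continuous_im.comp (hhc.comp Complex.continuous_ofReal)
  have hθ : ∀ t ∈ Icc a b, ζ t = c + r * cexpi (θ t) := by
    intro t ht
    have h1 := hh t
    have h2 : h t = (θ t : ℂ) * Complex.I := by
      apply Complex.ext
      · simp [hre]
      · simp [θ]
    rw [h2, Complex.ofReal_re, hFt t ht] at h1
    unfold cexpi
    rw [h1]
    field_simp
    ring
  have hθi : InjOn θ (Icc a b) := by
    intro s hs' t ht hst
    apply hi hs' ht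
    rw [hθ s hs', hθ t ht, hst]
  refine ⟨θ, hθc.continuousOn, hθc.continuousOn.strictMonoOn_of_injOn_Icc' hab.le hθi, hθ, ?_⟩
  by_contra hcon
  push Not at hcon
  have ha : a ∈ Icc a b := ⟨le_rfl, hab.le⟩
  have hpi := Real.two_pi_pos
  have key : ∀ t ∈ Icc a b, cexpi (θ t) = cexpi (θ a) → θ t ≠ θ a → False := by
    intro t ht h1 h2
    apply h2
    have : ζ t = ζ a := by rw [hθ t ht, hθ a ha, h1]
    rw [hi ht ha this]
  rcases le_abs.1 hcon with h1 | h1
  · obtain ⟨t, ht, ht'⟩ := intermediate_value_Icc hab.le hθc.continuousOn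
      (⟨by linarith, by linarith⟩ : θ a + 2 * Real.pi ∈ Icc (θ a) (θ b))
    refine key t ht ?_ ?_
    · rw [ht', arc0_add_two_pi]
    · rw [ht']
      linarith
  · obtain ⟨t, ht, ht'⟩ := intermediate_value_Icc' hab.le hθc.continuousOn
      (⟨by linarith, by linarith⟩ : θ a - 2 * Real.pi ∈ Icc (θ b) (θ a))
    refine key t ht ?_ ?_
    · rw [ht', ← arc0_add_two_pi, sub_add_cancel]
    · rw [ht']
      linarith

theorem mono_two (c : ℂ) (r : ℝ) (f : ℂ → ℂ) (hr : 0 < r) (hc : ContinuousOn f UC)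
    (hi : InjOn f UC) (hm : MapsTo f UC (sphere c r)) : f '' UC = sphere c r := by
  have hr0 : (r : ℂ) ≠ 0 := by exact_mod_cast hr.ne'
  have hmn : ∀ z ∈ UC, ‖f z - c‖ = r := by
    intro z hz
    have := hm hz
    rwa [mem_sphere, dist_eq_norm] at this
  obtain ⟨g, hg, hgn⟩ := thm_RADH (fun z => (f z - c) / r)
    ((hc.sub continuousOn_const).div_const _)
    (by
      intro z hz w hw h
      have h1 : (f z - c) / (r : ℂ) = (f w - c) / r := h
      rw [div_left_inj' hr0, sub_left_inj] at h1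
      exact hi hz hw h1)
    (by
      intro z hz
      rw [mem_sphere, dist_zero_right, norm_div, hmn z hz, Complex.norm_real,
        Real.norm_of_nonneg hr.le, div_self hr.ne'])
  apply Subset.antisymm hm.image_subset
  intro w hw
  rw [mem_sphere, dist_eq_norm] at hw
  have h1 : ‖(w - c) / r‖ = 1 := by
    rw [norm_div, hw, Complex.norm_real, Real.norm_of_nonneg hr.le, div_self hr.ne']
  have h2 : g.symm ((w - c) / r) ∈ UC := by
    rw [mem_sphere, dist_zero_right, ← hgn, Homeomorph.apply_symm_apply]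
    exact h1
  refine ⟨_, h2, ?_⟩
  have h3 := hg h2
  rw [Homeomorph.apply_symm_apply] at h3
  have h4 : (w - c) / r = (f (g.symm ((w - c) / r)) - c) / r := h3
  rw [div_left_inj' hr0, sub_left_inj] at h4
  exact h4.symm

theorem thm_MONO (hL : St_LOGB) : St_MONO := ⟨mono_one hL, mono_two⟩

end Pool.Agent.SRP
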