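import Pool.Agent.SRP.StE

set_option autoImplicit false

/-! # PAR: partners -/

open Set Metric Filter Topology Pool.Agent.SRF

namespace Pool.Agent.SRP

/-- Injective choice from infinite sets indexed by a countable type. -/
theorem par_choice {ι : Type} (ν : ι → ℕ) (hν : Function.Injective ν) (S : ι → Set ℝ)
    (hS : ∀ i, (S i).Infinite) : ∃ f : ι → ℝ, Function.Injective f ∧ ∀ i, f i ∈ S i := by
  classical
  choose T hT hc using fun i => (hS i).exists_subset_card_eq (ν i + 1)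
  have hall : ∀ s : Finset ι, s.card ≤ (s.biUnion T).card := by
    intro s
    rcases s.eq_empty_or_nonempty with rfl | hs
    · simp
    · obtain ⟨m, hm, hmax⟩ := s.exists_max_image ν hs
      calc s.card = (s.image ν).card := (Finset.card_image_of_injective s hν).symm
        _ ≤ (Finset.range (ν m + 1)).card := by
            apply Finset.card_le_card
            intro x hx
            obtain ⟨y, hy, rfl⟩ := Finset.mem_image.1 hx
            exact Finset.mem_range.2 (Nat.lt_succ_of_le (hmax y hy))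
        _ = (T m).card := by rw [Finset.card_range, hc]
        _ ≤ (s.biUnion T).card := Finset.card_le_card (Finset.subset_biUnion_of_mem T hm)
  obtain ⟨f, hf, hfT⟩ := (Finset.all_card_le_biUnion_card_iff_exists_injective T).1 hall
  exact ⟨f, hf, fun i => hT i (hfT i)⟩

/-- An isolated point is not an accumulation point. -/
theorem par_iso {F J : Set ℝ} {i : ℝ} (h : ∃ ε > 0, ∀ x ∈ F ∪ J, |x - i| < ε → x = i) :
    ¬ AccPt i (𝓟 J) := by
  obtain ⟨ε, hε, h⟩ := h
  intro hacc
  rw [accPt_iff_nhds] at hacc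
  obtain ⟨y, ⟨hy1, hy2⟩, hne⟩ := hacc (ball i ε) (ball_mem_nhds i hε)
  exact hne (h y (Or.inr hy2) (by simpa [Real.dist_eq] using hy1))

theorem par_countable {F J : Set ℝ} (h : ∀ i ∈ J, ∃ ε > 0, ∀ x ∈ F ∪ J, |x - i| < ε → x = i) :
    Countable J := by
  have hd : DiscreteTopology J := by
    rw [discreteTopology_iff_isOpen_singleton]
    rintro ⟨i, hi⟩
    obtain ⟨ε, hε, hx⟩ := h i hi
    rw [Metric.isOpen_iff]
    rintro ⟨y, hy⟩ hyi
    have hyi' : y = i := congrArg Subtype.val (mem_singleton_iff.1 hyi)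
    subst hyi'
    refine ⟨ε, hε, ?_⟩
    rintro ⟨z, hz⟩ hzb
    have h1 : |z - y| < ε := by
      have := mem_ball.1 hzb
      rwa [Subtype.dist_eq, Real.dist_eq] at this
    exact Subtype.ext (hx z (Or.inr hz) h1)
  exact countable_of_Lindelof_of_discrete

/-- PAR. -/
theorem thm_PAR : St_PAR := by
  intro F J P hFJ hFP hF _ _ hJi hPi hPinf hacc
  classical
  -- `J` is countable
  have hJc : Countable J := par_countable hJi
  obtain ⟨ν, hν⟩ := exists_injective_nat J
  -- the set `G`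
  let G : Set ℝ := F ∩ derivedSet P
  have hGc : IsClosed G := hF.inter (isClosed_derivedSet P)
  have hFc : IsCompact F := hFJ.of_isClosed_subset hF subset_union_left
  have hGk : IsCompact G := hFc.of_isClosed_subset hGc inter_subset_left
  have hGne : G.Nonempty := by
    obtain ⟨x, hx, hxa⟩ := hPinf.exists_accPt_of_subset_isCompact hFP subset_union_right
    rcases hx with hx | hx
    · exact ⟨x, hx, hxa⟩
    · exact absurd hxa (par_iso (hPi x hx))
  -- only finitely many points of `J` are far from `G`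
  have hfar : ∀ ε : ℝ, 0 < ε → {j ∈ J | ε ≤ infDist j G}.Finite := by
    intro ε hε
    by_contra hinf
    have hsub : {j ∈ J | ε ≤ infDist j G} ⊆ F ∪ J := fun j hj => Or.inr hj.1
    obtain ⟨x, hx, hxa⟩ :=
      Set.Infinite.exists_accPt_of_subset_isCompact hinf hFJ hsub
    have hxJ : AccPt x (𝓟 J) := hxa.mono (principal_mono.2 fun j hj => hj.1)
    have hxF : x ∈ F := by
      rcases hx with hx | hx
      · exact hx
      · exact absurd hxJ (par_iso (hJi x hx))
    have hxG : x ∈ G := ⟨hxF, hacc x hxF hxJ⟩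
    have hcl : x ∈ closure {j ∈ J | ε ≤ infDist j G} :=
      mem_closure_iff_clusterPt.2 hxa.clusterPt
    have hsub2 : closure {j ∈ J | ε ≤ infDist j G} ⊆ {j | ε ≤ infDist j G} :=
      closure_minimal (fun j hj => hj.2)
        (isClosed_le continuous_const (continuous_infDist_pt G))
    have h1 : ε ≤ infDist x G := hsub2 hcl
    rw [infDist_zero_of_mem hxG] at h1
    linarith
  -- nearest points
  choose e he hed using fun j : J => hGk.exists_infDist_eq_dist hGne (j : ℝ)
  have hS : ∀ j : J, (ball (e j) (1 / ((ν j : ℝ) + 1)) ∩ P).Infinite := by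
    intro j
    have hpos : (0 : ℝ) < 1 / ((ν j : ℝ) + 1) := by positivity
    have hacc' : AccPt (e j) (𝓟 P) := (he j).2
    by_contra hfin
    rw [not_infinite] at hfin
    have h2 : IsOpen (ball (e j) (1 / ((ν j : ℝ) + 1)) \
        ((ball (e j) (1 / ((ν j : ℝ) + 1)) ∩ P) \ {e j})) :=
      isOpen_ball.sdiff (hfin.subset sdiff_subset).isClosed
    rw [accPt_iff_nhds] at hacc'
    obtain ⟨y, ⟨hy1, hy2⟩, hne⟩ := hacc' _
      (h2.mem_nhds ⟨mem_ball_self hpos, fun h => h.2 rfl⟩)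
    exact hy1.2 ⟨⟨hy1.1, hy2⟩, hne⟩
  obtain ⟨f, hf, hfS⟩ := par_choice ν hν _ hS
  refine ⟨fun x => if hx : x ∈ J then f ⟨x, hx⟩ else 0, ?_, ?_, ?_⟩
  · intro x hx y hy hxy
    simp only [dif_pos hx, dif_pos hy] at hxy
    exact congrArg Subtype.val (hf hxy)
  · intro x hx
    simp only [dif_pos hx]
    exact (hfS ⟨x, hx⟩).2
  · intro ε hε
    have hfin2 : {j ∈ J | ∃ hj : j ∈ J, ε / 2 ≤ 1 / ((ν ⟨j, hj⟩ : ℝ) + 1)}.Finite := by
      obtain ⟨M, hM⟩ := exists_nat_gt (2 / ε)
      have h3 : {j ∈ J | ∃ hj : j ∈ J, ε / 2 ≤ 1 / ((ν ⟨j, hj⟩ : ℝ) + 1)} ⊆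
          Subtype.val '' (ν ⁻¹' (Set.Iio M)) := by
        rintro j ⟨_, hj, hle⟩
        refine ⟨⟨j, hj⟩, ?_, rfl⟩
        have hp : (0 : ℝ) < (ν ⟨j, hj⟩ : ℝ) + 1 := by positivity
        rw [le_div_iff₀ hp] at hle
        have h4 : ((ν ⟨j, hj⟩ : ℝ) + 1) ≤ 2 / ε := by
          rw [le_div_iff₀ hε]
          linarith
        have h5 : ((ν ⟨j, hj⟩ : ℕ) : ℝ) < (M : ℝ) := by linarith
        exact_mod_cast h5
      exact (((Set.finite_Iio M).preimage hν.injOn).image _).subset h3
    refine ((hfar (ε / 2) (by linarith)).union hfin2).subset ?_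
    rintro j ⟨hj, hle⟩
    simp only [dif_pos hj] at hle
    by_contra hcon
    rw [mem_union, not_or] at hcon
    have h6 : infDist j G < ε / 2 := by
      by_contra h
      exact hcon.1 ⟨hj, not_lt.1 h⟩
    have h7 : 1 / ((ν ⟨j, hj⟩ : ℝ) + 1) < ε / 2 := by
      by_contra h
      exact hcon.2 ⟨hj, hj, not_lt.1 h⟩
    have h8 : |f ⟨j, hj⟩ - e ⟨j, hj⟩| < 1 / ((ν ⟨j, hj⟩ : ℝ) + 1) := by
      have := mem_ball.1 (hfS ⟨j, hj⟩).1
      rwa [Real.dist_eq] at this
    have h9 : infDist j G = |j - e ⟨j, hj⟩| := by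
      have := hed ⟨j, hj⟩
      rwa [Real.dist_eq] at this
    have h10 : |f ⟨j, hj⟩ - j| ≤ |f ⟨j, hj⟩ - e ⟨j, hj⟩| + |j - e ⟨j, hj⟩| := by
      rw [abs_sub_comm j]
      have := abs_add_le (f ⟨j, hj⟩ - e ⟨j, hj⟩) (e ⟨j, hj⟩ - j)
      rwa [sub_add_sub_cancel] at this
    linarith

end Pool.Agent.SRP
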