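import Pool.Agent.SRP.StC
import Pool.Agent.SRP.CUT

set_option autoImplicit false

/-! # SRP PASTE: replacing the part of a presented space over a family of slots. -/

open Set Metric Filter Topology Pool.Agent.SRF

namespace Pool.Agent.SRP

theorem paste_near (C : Conf) (hp : ∀ i ∈ C.I, 0 < C.rad i) (J : Set ℝ) (s : ℝ → ℝ)
    (hS : ∀ j ∈ J, C.Slot j (s j)) (w : ℂ) (hw : ∀ j ∈ J, w ∉ ball (j : ℂ) (s j)) (i : ℝ)
    (hi : i ∈ C.I) (h : ‖w - (i : ℂ)‖ ≤ 5 / 8 * C.rad i) : ∀ j ∈ J, s j < |i - j| := by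
  intro j hj
  rcases (hS j hj).ball i hi with h1 | h1
  · exact absurd (cut_in' C j (s j) i (hp i hi) w h h1) (hw j hj)
  · linarith [hp i hi]

theorem paste_Dom_aux (C C' : Conf) (hp : ∀ i ∈ C.I, 0 < C.rad i) (hF : C.F ⊆ C'.F)
    (J : Set ℝ) (s : ℝ → ℝ) (hS : ∀ j ∈ J, C.Slot j (s j))
    (H : ∀ i ∈ C.I, (∀ j ∈ J, s j < |i - j|) → i ∈ C'.I ∧ C'.rad i = C.rad i ∧
      C'.lab i = C.lab i)
    (w : ℂ) (hw : ∀ j ∈ J, w ∉ ball (j : ℂ) (s j)) (h : w ∈ C'.Dom) : w ∈ C.Dom := by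
  refine ⟨h.1, ?_⟩
  rintro (⟨x, hx, rfl⟩ | h3)
  · exact h.2 (Or.inl ⟨x, hF hx, rfl⟩)
  · simp only [mem_iUnion] at h3
    obtain ⟨i, hi, h3⟩ := h3
    obtain ⟨h4, h5, h6⟩ := H i hi
      (paste_near C hp J s hS w hw i hi (cut_holes_sub C i (hp i hi) w h3))
    apply h.2
    refine Or.inr ?_
    simp only [mem_iUnion]
    refine ⟨i, h4, ?_⟩
    have h7 : C'.holes i = C.holes i := by
      unfold Conf.holes
      rw [h5, h6]
    rw [h7]
    exact h3

theorem paste_Rel_aux (C C' : Conf) (hp : ∀ i ∈ C.I, 0 < C.rad i)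
    (J : Set ℝ) (s : ℝ → ℝ) (hS : ∀ j ∈ J, C.Slot j (s j))
    (H : ∀ i ∈ C.I, (∀ j ∈ J, s j < |i - j|) → i ∈ C'.I ∧ C'.rad i = C.rad i ∧
      C'.lab i = C.lab i)
    (w y : ℂ) (hw : ∀ j ∈ J, w ∉ ball (j : ℂ) (s j)) (h : C.Rel w y) : C'.Rel w y := by
  rcases h with h | ⟨i, hi, h⟩
  · exact Or.inl h
  · obtain ⟨h4, h5, h6⟩ := H i hi
      (paste_near C hp J s hS w hw i hi (cut_rel_close C i (hp i hi) w y h).1)
    refine Or.inr ⟨i, h4, ?_⟩
    rw [h5, h6]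
    exact h

theorem paste_locfin (hCFIN : St_CFIN) (F J : Set ℝ) (s : ℝ → ℝ)
    (hJok : Conf.Ok ⟨F, J, s, fun _ => Lab.O⟩) (x : ℂ)
    (hx : x ∉ (fun t : ℝ => (t : ℂ)) '' F) :
    ∃ ε > 0, {j ∈ J | (closedBall (j : ℂ) (s j) ∩ ball x ε).Nonempty}.Finite := by
  have hF : IsClosed ((fun t : ℝ => (t : ℂ)) '' F) := by
    have h1 : IsCompact F := IsCompact.of_isClosed_subset hJok.compact hJok.closed
      subset_union_left
    exact (h1.image Complex.continuous_ofReal).isClosed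
  obtain ⟨δ, hδ, h1⟩ := Metric.isOpen_iff.1 hF.isOpen_compl x hx
  refine ⟨δ / 3, by positivity, ?_⟩
  obtain ⟨-, c2, c3, -⟩ := hCFIN _ hJok
  have h2 : ({t : ℝ | ‖(t : ℂ) - x‖ ≤ 2 * (δ / 3)} ∩ J).Finite := by
    refine c2 _ (isClosed_le (by fun_prop) continuous_const) ?_
    rw [Set.disjoint_left]
    intro t ht ht'
    have h3 : (t : ℂ) ∈ ball x δ := by
      rw [mem_ball, dist_eq_norm]
      have : ‖(t : ℂ) - x‖ ≤ 2 * (δ / 3) := ht
      linarith
    exact h1 h3 ⟨t, ht', rfl⟩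
  have h3 : {j ∈ J | δ / 3 ≤ s j}.Finite := c3 (δ / 3) (by positivity)
  refine (h2.union h3).subset ?_
  rintro j ⟨hj, w, hw1, hw2⟩
  rw [mem_closedBall, dist_eq_norm] at hw1
  rw [mem_ball, dist_eq_norm] at hw2
  by_cases h4 : δ / 3 ≤ s j
  · exact Or.inr ⟨hj, h4⟩
  · refine Or.inl ⟨?_, hj⟩
    push Not at h4
    have h5 : (j : ℂ) - x = -(w - (j : ℂ)) + (w - x) := by ring
    change ‖(j : ℂ) - x‖ ≤ 2 * (δ / 3)
    rw [h5]
    refine (norm_add_le _ _).trans ?_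
    rw [norm_neg]
    linarith

theorem paste_glue (hCFIN : St_CFIN) {X : Type} [TopologicalSpace X] (F J : Set ℝ) (s : ℝ → ℝ)
    (hJok : Conf.Ok ⟨F, J, s, fun _ => Lab.O⟩) (D : Set ℂ) (Q : ℂ → X)
    (hD : ∀ x ∈ D, x ∉ (fun t : ℝ => (t : ℂ)) '' F)
    (h1 : ContinuousOn Q (D \ ⋃ j ∈ J, ball (j : ℂ) (s j)))
    (h2 : ∀ j ∈ J, ContinuousOn Q (D ∩ closedBall (j : ℂ) (s j))) : ContinuousOn Q D := by
  intro x hx
  obtain ⟨ε, hε, hfin⟩ := paste_locfin hCFIN F J s hJok x (hD x hx)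
  rw [← continuousWithinAt_inter (ball_mem_nhds x hε)]
  have hsub : D ∩ ball x ε ⊆ (D \ ⋃ j ∈ J, ball (j : ℂ) (s j)) ∪
      ⋃ j ∈ {j ∈ J | (closedBall (j : ℂ) (s j) ∩ ball x ε).Nonempty},
        (D ∩ closedBall (j : ℂ) (s j)) := by
    rintro w ⟨hw, hw'⟩
    by_cases h3 : w ∈ ⋃ j ∈ J, ball (j : ℂ) (s j)
    · refine Or.inr ?_
      simp only [mem_iUnion] at h3 ⊢
      obtain ⟨j, hj, h3⟩ := h3
      exact ⟨j, ⟨hj, w, ball_subset_closedBall h3, hw'⟩, hw, ball_subset_closedBall h3⟩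
    · exact Or.inl ⟨hw, h3⟩
  refine ContinuousWithinAt.mono ?_ hsub
  rw [continuousWithinAt_union]
  constructor
  · by_cases h3 : x ∈ ⋃ j ∈ J, ball (j : ℂ) (s j)
    · refine continuousWithinAt_of_notMem_closure ?_
      intro h4
      have h5 : IsOpen (⋃ j ∈ J, ball (j : ℂ) (s j)) := isOpen_biUnion fun _ _ => isOpen_ball
      obtain ⟨w, hw, hw'⟩ := mem_closure_iff.1 h4 _ h5 h3
      exact hw'.2 hw
    · exact h1 x ⟨hx, h3⟩
  · unfold ContinuousWithinAt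
    rw [nhdsWithin_biUnion hfin, tendsto_iSup]
    intro j
    rw [tendsto_iSup]
    rintro ⟨hj, -⟩
    by_cases h3 : x ∈ closedBall (j : ℂ) (s j)
    · exact h2 j hj x ⟨hx, h3⟩
    · refine continuousWithinAt_of_notMem_closure ?_
      intro h4
      exact h3 (isClosed_closedBall.closure_subset_iff.2 inter_subset_right h4)

theorem thm_PASTE (hCFIN : St_CFIN) : St_PASTE := by
  intro X _ _ C C' hC hC' hF J s hJ hS hap hag L q hL hP L' q' hP' hq' hL' hdis hfinA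
  have hs : ∀ j ∈ J, 0 < s j := fun j hj => (hS j hj).1.pos
  have hsc : ∀ j ∈ J, (s j : ℂ) ≠ 0 := fun j hj => by exact_mod_cast (hs j hj).ne'
  have hp := hC.pos
  have hp' := hC'.pos
  -- the configuration of the slots
  have hJok : Conf.Ok ⟨C.F, J, s, fun _ => Lab.O⟩ := by
    refine ⟨hC.closed, hJ, hC.td, hC.small, hs, fun j hj => (hS j hj).1.inside, ?_, hap⟩
    intro j hj x hx
    exact (hS j hj).1.away x hx
  -- uniqueness of the slot
  have huniq : ∀ j ∈ J, ∀ k ∈ J, ∀ w : ℂ, w ∈ closedBall (j : ℂ) (s j) →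
      w ∈ closedBall (k : ℂ) (s k) → j = k := by
    intro j hj k hk w h1 h2
    by_contra h3
    have h4 := hap j hj k hk h3
    rw [mem_closedBall, dist_eq_norm] at h1 h2
    have h5 : ((j - k : ℝ) : ℂ) = (w - (k : ℂ)) - (w - (j : ℂ)) := by push_cast; ring
    have h6 : |j - k| ≤ ‖w - (k : ℂ)‖ + ‖w - (j : ℂ)‖ := by
      rw [← Real.norm_eq_abs, ← Complex.norm_real, h5]
      exact norm_sub_le _ _
    linarith
  -- agreement outside of the slots
  have H1 : ∀ i ∈ C.I, (∀ j ∈ J, s j < |i - j|) → i ∈ C'.I ∧ C'.rad i = C.rad i ∧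
      C'.lab i = C.lab i := fun i hi h => ⟨(hag i h).1.2 hi, (hag i h).2 hi⟩
  have H2 : ∀ i ∈ C'.I, (∀ j ∈ J, s j < |i - j|) → i ∈ C.I ∧ C.rad i = C'.rad i ∧
      C.lab i = C'.lab i := fun i hi h =>
    ⟨(hag i h).1.1 hi, ((hag i h).2 ((hag i h).1.1 hi)).1.symm,
      ((hag i h).2 ((hag i h).1.1 hi)).2.symm⟩
  have hDom : ∀ w : ℂ, (∀ j ∈ J, w ∉ ball (j : ℂ) (s j)) → (w ∈ C'.Dom ↔ w ∈ C.Dom) :=
    fun w hw => ⟨paste_Dom_aux C C' hp hF.ge J s (fun j hj => (hS j hj).1) H1 w hw,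
      paste_Dom_aux C' C hp' hF.le J s (fun j hj => (hS j hj).2) H2 w hw⟩
  have hRel : ∀ w y : ℂ, (∀ j ∈ J, w ∉ ball (j : ℂ) (s j)) → (C'.Rel w y ↔ C.Rel w y) :=
    fun w y hw => ⟨paste_Rel_aux C' C hp' J s (fun j hj => (hS j hj).2) H2 w y hw,
      paste_Rel_aux C C' hp J s (fun j hj => (hS j hj).1) H1 w y hw⟩
  -- coordinates of a slot
  have hco : ∀ j ∈ J, ∀ w : ℂ, (j : ℂ) + s j * ((w - j) / s j) = w := by
    intro j hj w
    have := hsc j hj
    field_simp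
    ring
  have hco' : ∀ j ∈ J, ∀ z : ℂ, (((j : ℂ) + s j * z) - j) / s j = z := by
    intro j hj z
    have := hsc j hj
    field_simp
    ring
  have hcb : ∀ j ∈ J, ∀ w ∈ closedBall (j : ℂ) (s j),
      (w - j) / s j ∈ closedBall (0 : ℂ) 1 := by
    intro j hj w hw
    have := (cut_mem_closedBall j (s j) (hs j hj) ((w - j) / s j) j 0 (s j) 1 (by ring)
      (by ring)).1 (by rw [hco j hj]; exact hw)
    simpa using this
  have hcb' : ∀ j ∈ J, ∀ z ∈ closedBall (0 : ℂ) 1, (j : ℂ) + s j * z ∈ closedBall (j : ℂ) (s j) := by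
    intro j hj z hz
    exact (cut_mem_closedBall j (s j) (hs j hj) z j 0 (s j) 1 (by ring)
      (by ring)).2 (by simpa using hz)
  have hsD : ∀ j ∈ J, ∀ w ∈ closedBall (j : ℂ) (s j),
      ((w - j) / s j ∈ (C'.slot j (s j)).Dom ↔ w ∈ C'.Dom) := by
    intro j hj w hw
    rw [cut_mem_Dom C' hp' j (s j) (hS j hj).2 _ (hcb j hj w hw), hco j hj]
  -- the map
  classical
  let Q : ℂ → X := fun w => if h : ∃ j ∈ J, w ∈ closedBall (j : ℂ) (s j) then
    q' h.choose ((w - h.choose) / s h.choose) else q w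
  have hQ1 : ∀ j ∈ J, ∀ w ∈ closedBall (j : ℂ) (s j), Q w = q' j ((w - j) / s j) := by
    intro j hj w hw
    have h : ∃ j ∈ J, w ∈ closedBall (j : ℂ) (s j) := ⟨j, hj, hw⟩
    have h1 : h.choose = j := huniq _ h.choose_spec.1 j hj w h.choose_spec.2 hw
    simp only [Q]
    rw [dif_pos h, h1]
  have hQ2 : ∀ w, (∀ j ∈ J, w ∉ closedBall (j : ℂ) (s j)) → Q w = q w := by
    intro w hw
    simp only [Q]
    rw [dif_neg]
    rintro ⟨j, hj, h⟩
    exact hw j hj h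
  have hQ3 : ∀ w, (∀ j ∈ J, w ∉ ball (j : ℂ) (s j)) → Q w = q w := by
    intro w hw
    by_cases h : ∃ j ∈ J, w ∈ closedBall (j : ℂ) (s j)
    · obtain ⟨j, hj, h⟩ := h
      rw [hQ1 j hj w h, hq' j hj, hco j hj]
      have h1 : w ∈ sphere (j : ℂ) (s j) := by
        rw [mem_sphere]
        exact le_antisymm h (not_lt.1 (hw j hj))
      have h2 := (cut_mem_sphere j (s j) (hs j hj) ((w - j) / s j) j 0 (s j) 1 (by ring)
        (by ring)).1 (by rw [hco j hj]; exact h1)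
      simpa using h2
    · refine hQ2 w fun j hj h1 => h ⟨j, hj, h1⟩
  have hout : ∀ w, w ∉ ⋃ j ∈ J, ball (j : ℂ) (s j) ↔ ∀ j ∈ J, w ∉ ball (j : ℂ) (s j) := by
    intro w
    simp only [mem_iUnion, not_exists]
  refine ⟨Q, ⟨?_, ?_, ?_, ?_⟩, ?_, ?_⟩
  · -- continuity
    refine paste_glue hCFIN C.F J s hJok C'.Dom Q ?_ ?_ ?_
    · intro x hx hx'
      exact hx.2 (Or.inl (by rw [hF]; exact hx'))
    · have h1 : C'.Dom \ ⋃ j ∈ J, ball (j : ℂ) (s j) ⊆ C.Dom := by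
        rintro w ⟨hw, hw'⟩
        exact (hDom w ((hout w).1 hw')).1 hw
      refine (hP.cont.mono h1).congr ?_
      rintro w ⟨hw, hw'⟩
      exact hQ3 w ((hout w).1 hw')
    · intro j hj
      have h1 : ContinuousOn (fun w : ℂ => q' j ((w - j) / s j))
          (C'.Dom ∩ closedBall (j : ℂ) (s j)) := by
        refine (hP' j hj).cont.comp (Continuous.continuousOn (by fun_prop)) ?_
        rintro w ⟨hw, hw'⟩
        exact (hsD j hj w hw').2 hw
      refine h1.congr ?_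
      rintro w ⟨hw, hw'⟩
      exact hQ1 j hj w hw'
  · -- image
    apply Subset.antisymm
    · rintro _ ⟨w, hw, rfl⟩
      by_cases h : ∃ j ∈ J, w ∈ closedBall (j : ℂ) (s j)
      · obtain ⟨j, hj, h⟩ := h
        refine Or.inr ?_
        simp only [mem_iUnion]
        refine ⟨j, hj, ?_⟩
        rw [hQ1 j hj w h, ← (hP' j hj).image]
        exact ⟨_, (hsD j hj w h).2 hw, rfl⟩
      · have h1 : ∀ j ∈ J, w ∉ ball (j : ℂ) (s j) := fun j hj h2 =>
          h ⟨j, hj, ball_subset_closedBall h2⟩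
        refine Or.inl ⟨w, ⟨(hDom w h1).1 hw, (hout w).2 h1⟩, (hQ3 w h1).symm⟩
    · rintro y (⟨w, ⟨hw, hw'⟩, rfl⟩ | hy)
      · have h1 := (hout w).1 hw'
        exact ⟨w, (hDom w h1).2 hw, hQ3 w h1⟩
      · simp only [mem_iUnion] at hy
        obtain ⟨j, hj, hy⟩ := hy
        rw [← (hP' j hj).image] at hy
        obtain ⟨z, hz, rfl⟩ := hy
        have h1 := hcb' j hj z hz.1
        refine ⟨(j : ℂ) + s j * z, ?_, ?_⟩
        · rw [← hsD j hj _ h1, hco' j hj]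
          exact hz
        · rw [hQ1 j hj _ h1, hco' j hj]
  · -- relation
    -- mixed case
    have hmix : ∀ j ∈ J, ∀ x ∈ closedBall (j : ℂ) (s j), ∀ y ∈ C'.Dom, x ∈ C'.Dom →
        (∀ k ∈ J, y ∉ closedBall (k : ℂ) (s k)) → Q x ≠ Q y ∧ ¬ C'.Rel x y := by
      intro j hj x hx y hy hxD hyk
      have hyk' : ∀ k ∈ J, y ∉ ball (k : ℂ) (s k) := fun k hk h =>
        hyk k hk (ball_subset_closedBall h)
      constructor
      · intro hxy
        have h1 : q y ∈ L' j := by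
          rw [← hQ3 y hyk', ← hxy, hQ1 j hj x hx, ← (hP' j hj).image]
          exact ⟨_, (hsD j hj x hx).2 hxD, rfl⟩
        have h2 : q y ∈ q '' (C.Dom \ ⋃ k ∈ J, ball (k : ℂ) (s k)) :=
          ⟨y, ⟨(hDom y hyk').1 hy, (hout y).2 hyk'⟩, rfl⟩
        obtain ⟨x', hx', h3⟩ := hL' j hj ⟨h1, h2⟩
        have h4 := cut_sphere_Dom C hp j (s j) (hS j hj).1 x' hx'
        have h5 : C.Rel x' y := (hP.rel x' h4 y ((hDom y hyk').1 hy)).1 h3
        have h6 := cut_rel_eq C hp j (s j) (hS j hj).1 x' y (sphere_subset_closedBall hx')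
          (hyk' j hj) h5
        exact hyk j hj (h6 ▸ sphere_subset_closedBall hx')
      · intro h
        have h6 := cut_rel_eq C' hp' j (s j) (hS j hj).2 x y hx (hyk' j hj) h
        exact hyk j hj (h6 ▸ hx)
    intro x hx y hy
    by_cases hjx : ∃ j ∈ J, x ∈ closedBall (j : ℂ) (s j)
    · obtain ⟨j, hj, hxj⟩ := hjx
      by_cases hjy : ∃ k ∈ J, y ∈ closedBall (k : ℂ) (s k)
      · obtain ⟨k, hk, hyk⟩ := hjy
        by_cases hjk : j = k
        · subst hjk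
          rw [hQ1 j hj x hxj, hQ1 j hj y hyk, (hP' j hj).rel _ ((hsD j hj x hxj).2 hx) _
            ((hsD j hj y hyk).2 hy), cut_Rel C' hp' j (s j) (hS j hj).2 _ _ (hcb j hj x hxj),
            hco j hj, hco j hj]
        · have h1 : Q x ≠ Q y := by
            intro h
            have h2 : Q x ∈ L' j := by
              rw [hQ1 j hj x hxj, ← (hP' j hj).image]
              exact ⟨_, (hsD j hj x hxj).2 hx, rfl⟩
            have h3 : Q y ∈ L' k := by
              rw [hQ1 k hk y hyk, ← (hP' k hk).image]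
              exact ⟨_, (hsD k hk y hyk).2 hy, rfl⟩
            exact Set.disjoint_left.1 (hdis j hj k hk hjk) h2 (h ▸ h3)
          have h2 : ¬ C'.Rel x y := by
            intro h
            have h3 : y ∉ ball (j : ℂ) (s j) := fun h4 =>
              hjk (huniq j hj k hk y (ball_subset_closedBall h4) hyk)
            have h6 := cut_rel_eq C' hp' j (s j) (hS j hj).2 x y hxj h3 h
            exact hjk (huniq j hj k hk x hxj (h6 ▸ hyk))
          exact ⟨fun h => absurd h h1, fun h => absurd h h2⟩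
      · push Not at hjy
        obtain ⟨h1, h2⟩ := hmix j hj x hxj y hy hx hjy
        exact ⟨fun h => absurd h h1, fun h => absurd h h2⟩
    · by_cases hjy : ∃ k ∈ J, y ∈ closedBall (k : ℂ) (s k)
      · obtain ⟨k, hk, hyk⟩ := hjy
        push Not at hjx
        obtain ⟨h1, h2⟩ := hmix k hk y hyk x hx hy hjx
        have hE := (hCFIN C' hC').2.2.2.2.2.2.2
        exact ⟨fun h => absurd h.symm h1, fun h => absurd (hE.symm h) h2⟩
      · push Not at hjx hjy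
        have h1 : ∀ k ∈ J, x ∉ ball (k : ℂ) (s k) := fun k hk h =>
          hjx k hk (ball_subset_closedBall h)
        have h2 : ∀ k ∈ J, y ∉ ball (k : ℂ) (s k) := fun k hk h =>
          hjy k hk (ball_subset_closedBall h)
        rw [hQ3 x h1, hQ3 y h2, hRel x y h1]
        exact hP.rel x ((hDom x h1).1 hx) y ((hDom y h2).1 hy)
  · -- properness
    intro A hA hAc
    obtain ⟨B, hB, hBc, hBA⟩ := hP.proper (A ∩ L) inter_subset_right (hAc.inter_right hL)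
    have hfin := hfinA A hAc
    refine ⟨(B \ ⋃ j ∈ J, ball (j : ℂ) (s j)) ∪
      ⋃ j ∈ {j ∈ J | (L' j ∩ A).Nonempty}, (C'.Dom ∩ closedBall (j : ℂ) (s j)), ?_, ?_, ?_⟩
    · refine union_subset ?_ ?_
      · rintro w ⟨hw, hw'⟩
        exact (hDom w ((hout w).1 hw')).2 (hB hw)
      · exact iUnion₂_subset fun j _ => inter_subset_left
    · refine (hBc.diff (isOpen_biUnion fun _ _ => isOpen_ball)).union ?_
      exact hfin.isCompact_biUnion fun j hj =>
        cut_Dom_closed_part C' j (s j) (hS j hj.1).2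
    · intro x hx hxA
      by_cases h : ∃ j ∈ J, x ∈ closedBall (j : ℂ) (s j)
      · obtain ⟨j, hj, h⟩ := h
        refine Or.inr ?_
        simp only [mem_iUnion]
        refine ⟨j, ⟨hj, Q x, ?_, hxA⟩, hx, h⟩
        rw [hQ1 j hj x h, ← (hP' j hj).image]
        exact ⟨_, (hsD j hj x h).2 hx, rfl⟩
      · have h1 : ∀ j ∈ J, x ∉ ball (j : ℂ) (s j) := fun j hj h2 =>
          h ⟨j, hj, ball_subset_closedBall h2⟩
        refine Or.inl ⟨?_, (hout x).2 h1⟩
        have h2 := (hDom x h1).1 hx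
        refine hBA x h2 ⟨?_, ?_⟩
        · rw [← hQ3 x h1]; exact hxA
        · rw [← hP.image]; exact ⟨x, h2, rfl⟩
  · intro z _ hz'
    exact hQ3 z hz'
  · intro j hj z hz
    rw [hQ1 j hj _ (hcb' j hj z hz.1), hco' j hj]

end Pool.Agent.SRP
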