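import Pool.Agent.SRP.StC

set_option autoImplicit false

/-! # SRP, PDS: moving closed discs in a square and in a disc (helper58) -/

open Set Metric Filter Topology Pool.Agent.SRF

namespace Pool.Agent.SRP

theorem pds_gen (hI : St_INTD) (hP : St_PDT) (k : ℂ ≃ₜ ℂ) (U : Set ℂ) (hk : k '' U = OD)
    (E E' : Set ℂ) (hE : IsDisc E) (hE' : IsDisc E') (hs : E ⊆ U) (hs' : E' ⊆ U) :
    ∃ Θ : ℂ ≃ₜ ℂ, (∀ z, z ∉ U → Θ z = z) ∧ Θ '' E = E' ∧ Θ '' interior E = interior E' := by
  have h1 : IsDisc (k '' E) := hI.2.2 E k hE k.continuous.continuousOn k.injective.injOn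
  have h2 : IsDisc (k '' E') := hI.2.2 E' k hE' k.continuous.continuousOn k.injective.injOn
  obtain ⟨Θ, h3, h4⟩ := hP _ _ h1 h2 (hk ▸ image_mono hs) (hk ▸ image_mono hs')
  have h5 : (k.trans (Θ.trans k.symm)) '' E = E' := by
    have h6 : (k.trans (Θ.trans k.symm)) '' E = k.symm '' (Θ '' (k '' E)) := by
      simp only [← image_comp]
      rfl
    rw [h6, h4, ← image_comp]
    simp
  refine ⟨k.trans (Θ.trans k.symm), fun z hz => ?_, h5, ?_⟩
  · show k.symm (Θ (k z)) = z
    rw [h3, k.symm_apply_apply]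
    rw [← hk]
    rintro ⟨w, hw, h⟩
    exact hz (k.injective h ▸ hw)
  · rw [Homeomorph.image_interior, h5]

theorem pds_conv (hI : St_INTD) (hP : St_PDT) (S : Set ℂ) (hc : Convex ℝ S)
    (hb : Bornology.IsBounded S) (hne : (interior S).Nonempty)
    (E E' : Set ℂ) (hE : IsDisc E) (hE' : IsDisc E') (hs : E ⊆ interior S)
    (hs' : E' ⊆ interior S) :
    ∃ Θ : ℂ ≃ₜ ℂ, (∀ z, z ∉ interior S → Θ z = z) ∧ Θ '' E = E' ∧
      Θ '' interior E = interior E' := by
  obtain ⟨k, hk, -, -⟩ := exists_homeomorph_image_interior_closure_frontier_eq_unitBall hc hne hb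
  exact pds_gen hI hP k _ hk E E' hE hE' hs hs'

theorem pds_Sq : Sq = Icc (-1 : ℝ) 1 ×ℂ Icc (-1 : ℝ) 1 := by
  ext z
  simp only [Sq, Complex.mem_reProdIm, abs_le, mem_Icc, mem_ofPred_eq]

theorem pds_SqI : interior Sq = SqI := by
  rw [pds_Sq, Complex.interior_reProdIm, interior_Icc]
  ext z
  simp only [SqI, Complex.mem_reProdIm, abs_lt, mem_Ioo, mem_ofPred_eq]

theorem thm_PDS (hI : St_INTD) (hP : St_PDT) : St_PDS := by
  constructor
  · intro E E' hE hE' hs hs'
    have hc : Convex ℝ Sq := by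
      have h1 : Sq = Complex.reLm ⁻¹' Icc (-1 : ℝ) 1 ∩ Complex.imLm ⁻¹' Icc (-1 : ℝ) 1 := by
        rw [pds_Sq]; rfl
      rw [h1]
      exact ((convex_Icc (-1 : ℝ) 1).linear_preimage Complex.reLm).inter
        ((convex_Icc (-1 : ℝ) 1).linear_preimage Complex.imLm)
    have hb : Bornology.IsBounded Sq := by
      rw [pds_Sq]
      exact (isBounded_Icc (-1 : ℝ) 1).reProdIm (isBounded_Icc (-1 : ℝ) 1)
    have hne : (interior Sq).Nonempty := by
      rw [pds_SqI]
      exact ⟨0, by simp [SqI]⟩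
    have h := pds_conv hI hP Sq hc hb hne E E' hE hE' (by rw [pds_SqI]; exact hs)
      (by rw [pds_SqI]; exact hs')
    rwa [pds_SqI] at h
  · intro c R hR E E' hE hE' hs hs'
    have hint : interior (closedBall c R) = ball c R := interior_closedBall c hR.ne'
    have h := pds_conv hI hP (closedBall c R) (convex_closedBall c R) isBounded_closedBall
      (by rw [hint]; exact ⟨c, mem_ball_self hR⟩) E E' hE hE' (by rw [hint]; exact hs)
      (by rw [hint]; exact hs')
    rwa [hint] at h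

end Pool.Agent.SRP
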