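import Pool.Agent.SRP.StC
import Pool.Agent.SRF.PDT

set_option autoImplicit false

/-! # SRP, PDT: closed discs in the open unit disc can be moved to each other (helper58) -/

open Set Metric Filter Topology Pool.Agent.SRF

namespace Pool.Agent.SRP

/-- a closed disc is the image of the standard one under a homeomorphism of the plane -/
theorem pdt_ext (hSCH : Pool.Agent.SRF.St_SCH) (hI : St_INTD) {E : Set ℂ} (hE : IsDisc E) :
    ∃ g : ℂ ≃ₜ ℂ, g '' CD = E := by
  obtain ⟨f, hf, hfi, rfl⟩ := hE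
  obtain ⟨hint, hfr⟩ := hI.1 f hf hfi
  obtain ⟨g, hg⟩ := hSCH f ⟨hf.mono sphere_subset_closedBall, hfi.mono sphere_subset_closedBall⟩
  have hc : IsCompact (f '' CD) := (isCompact_closedBall 0 1).image_of_continuousOn hf
  have hin := th_in hc.isClosed hc.isBounded g.symm (by
    intro z hz
    rw [← hfr] at hz
    obtain ⟨ζ, hζ, rfl⟩ := hz
    rw [← hg ζ hζ, g.symm_apply_apply]
    exact sphere_subset_closedBall hζ)
  have h1 : g '' OD ⊆ f '' CD := by
    have hP : IsPreconnected (g '' OD) :=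
      (convex_ball (0 : ℂ) 1).isPreconnected.image _ g.continuous.continuousOn
    have hd : Disjoint (g '' OD) (frontier (f '' CD)) := by
      rw [Set.disjoint_left]
      rintro _ ⟨z, hz, rfl⟩ h2
      rw [← hfr] at h2
      obtain ⟨ζ, hζ, h3⟩ := h2
      rw [← hg ζ hζ] at h3
      have h4 := g.injective h3
      rw [h4] at hζ
      rw [mem_ball_zero_iff] at hz
      rw [mem_sphere_zero_iff_norm] at hζ
      linarith
    rcases th_split hP hc.isClosed hd with h2 | h2
    · exact h2.trans interior_subset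
    · exfalso
      have h3 : f 0 ∈ interior (f '' CD) := by
        rw [← hint]
        exact ⟨0, by simp, rfl⟩
      have h4 := hin.2 _ h3
      have h5 : f 0 ∈ g '' OD := ⟨_, h4, g.apply_symm_apply _⟩
      exact h2 h5 (interior_subset h3)
  refine ⟨g, subset_antisymm ?_ ?_⟩
  · rintro _ ⟨z, hz, rfl⟩
    rcases (mem_closedBall_zero_iff.1 hz).lt_or_eq with h2 | h2
    · exact h1 ⟨z, mem_ball_zero_iff.2 h2, rfl⟩
    · exact ⟨z, hz, (hg z (mem_sphere_zero_iff_norm.2 h2)).symm⟩
  · intro w hw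
    exact ⟨g.symm w, hin.1 w hw, g.apply_symm_apply w⟩

theorem thm_PDT (hSCH : Pool.Agent.SRF.St_SCH) (hTH : Pool.Agent.SRF.St_TH) (hI : St_INTD) :
    St_PDT := by
  intro E E' hE hE' hs hs'
  obtain ⟨g, rfl⟩ := pdt_ext hSCH hI hE
  obtain ⟨g', rfl⟩ := pdt_ext hSCH hI hE'
  exact Pool.Agent.SRF.pdt_core hTH g g' hs hs'

end Pool.Agent.SRP
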