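import Pool.Agent.SRP.StC

set_option autoImplicit false

/-! # SRP (MP_3b9597_lc), POL: scaling and rotating a disc inside a larger one -/

namespace Pool.Agent.SRP

open Set Metric Topology Pool.Agent.SRF

/-- the radial function beyond `a` -/
noncomputable def pol_rho (a b R t : ℝ) : ℝ :=
  b + (R - b) / (R - a) * (min t R - a) + (max t R - R)

/-- the multiplier -/
noncomputable def pol_k (a b R r : ℝ) : ℝ := pol_rho a b R (max r a) / max r a

theorem pol_k_cont {a b R : ℝ} (ha : 0 < a) : Continuous (pol_k a b R) := by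
  have h1 : ∀ r : ℝ, max r a ≠ 0 := fun r => (lt_of_lt_of_le ha (le_max_right r a)).ne'
  unfold pol_k pol_rho
  exact Continuous.div (by fun_prop) (by fun_prop) h1

theorem pol_k1 {a b R r : ℝ} (ha : 0 < a) (haR : a < R) (hr : r ≤ a) :
    pol_k a b R r = b / a := by
  unfold pol_k pol_rho
  rw [max_eq_right hr, min_eq_left haR.le, max_eq_right haR.le, sub_self, sub_self, mul_zero,
    add_zero, add_zero]

theorem pol_k2 {a b R r : ℝ} (hr : a ≤ r) (hrR : r ≤ R) :
    pol_k a b R r = (b + (R - b) / (R - a) * (r - a)) / r := by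
  unfold pol_k pol_rho
  rw [max_eq_left hr, min_eq_left hrR, max_eq_right hrR, sub_self, add_zero]

theorem pol_k3 {a b R r : ℝ} (ha : 0 < a) (haR : a < R) (hrR : R ≤ r) : pol_k a b R r = 1 := by
  unfold pol_k pol_rho
  have h1 : R - a ≠ 0 := by linarith
  rw [max_eq_left (haR.le.trans hrR), min_eq_right hrR, max_eq_left hrR, div_mul_cancel₀ _ h1]
  have h2 : b + (R - b) + (r - R) = r := by ring
  rw [h2]
  exact div_self (by linarith)

theorem pol_inv {a b R r : ℝ} (ha : 0 < a) (haR : a < R) (hb : 0 < b) (hbR : b < R) (hr : 0 ≤ r) :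
    0 < pol_k a b R r ∧ pol_k b a R (pol_k a b R r * r) * pol_k a b R r = 1 := by
  rcases le_total r a with h | h
  · rw [pol_k1 ha haR h]
    have h1 : b / a * r ≤ b := by
      rw [div_mul_eq_mul_div, div_le_iff₀ ha]
      exact mul_le_mul_of_nonneg_left h hb.le
    rw [pol_k1 hb hbR h1]
    refine ⟨by positivity, ?_⟩
    field_simp
  · have hr0 : 0 < r := lt_of_lt_of_le ha h
    rcases le_total r R with h2 | h2
    · rw [pol_k2 h h2]
      have h3 : 0 < R - a := by linarith
      have h4 : 0 < R - b := by linarith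
      have h5 : 0 ≤ (R - b) / (R - a) * (r - a) := mul_nonneg (by positivity) (by linarith)
      have h6 : 0 < b + (R - b) / (R - a) * (r - a) := by linarith
      have h7 : (R - b) / (R - a) * (r - a) ≤ R - b := by
        rw [div_mul_eq_mul_div, div_le_iff₀ h3]
        exact mul_le_mul_of_nonneg_left (by linarith) h4.le
      rw [div_mul_cancel₀ _ hr0.ne', pol_k2 (by linarith) (by linarith)]
      have h8 : a + (R - a) / (R - b) * (b + (R - b) / (R - a) * (r - a) - b) = r := by
        field_simp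
        ring
      rw [h8]
      refine ⟨div_pos h6 hr0, ?_⟩
      rw [div_mul_div_comm, mul_comm, div_self (mul_pos h6 hr0).ne']
    · rw [pol_k3 ha haR h2, one_mul, mul_one]
      exact ⟨one_pos, pol_k3 hb hbR h2⟩

/-- the radial homeomorphism -/
noncomputable def pol_S (c : ℂ) {a b R : ℝ} (ha : 0 < a) (haR : a < R) (hb : 0 < b)
    (hbR : b < R) : ℂ ≃ₜ ℂ where
  toFun z := c + (pol_k a b R ‖z - c‖ : ℂ) * (z - c)
  invFun z := c + (pol_k b a R ‖z - c‖ : ℂ) * (z - c)
  left_inv := by
    intro z
    obtain ⟨h1, h2⟩ := pol_inv ha haR hb hbR (norm_nonneg (z - c))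
    show c + (pol_k b a R ‖c + (pol_k a b R ‖z - c‖ : ℂ) * (z - c) - c‖ : ℂ) *
      (c + (pol_k a b R ‖z - c‖ : ℂ) * (z - c) - c) = z
    rw [add_sub_cancel_left, norm_mul, Complex.norm_of_nonneg h1.le, ← mul_assoc,
      ← Complex.ofReal_mul, h2]
    simp
  right_inv := by
    intro z
    obtain ⟨h1, h2⟩ := pol_inv hb hbR ha haR (norm_nonneg (z - c))
    show c + (pol_k a b R ‖c + (pol_k b a R ‖z - c‖ : ℂ) * (z - c) - c‖ : ℂ) *
      (c + (pol_k b a R ‖z - c‖ : ℂ) * (z - c) - c) = z
    rw [add_sub_cancel_left, norm_mul, Complex.norm_of_nonneg h1.le, ← mul_assoc,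
      ← Complex.ofReal_mul, h2]
    simp
  continuous_toFun := by
    have h1 : Continuous fun z : ℂ => pol_k a b R ‖z - c‖ :=
      (pol_k_cont ha).comp (by fun_prop)
    exact continuous_const.add ((Complex.continuous_ofReal.comp h1).mul (by fun_prop))
  continuous_invFun := by
    have h1 : Continuous fun z : ℂ => pol_k b a R ‖z - c‖ :=
      (pol_k_cont hb).comp (by fun_prop)
    exact continuous_const.add ((Complex.continuous_ofReal.comp h1).mul (by fun_prop))

theorem pol_norm (t : ℝ) : ‖cexpi t‖ = 1 := Complex.norm_exp_ofReal_mul_I t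

theorem pol_mul (t : ℝ) : cexpi (-t) * cexpi t = 1 := by
  unfold cexpi
  rw [← Complex.exp_add]
  push_cast
  rw [← add_mul, neg_add_cancel, zero_mul, Complex.exp_zero]

theorem pol_cexpi_cont : Continuous cexpi := by
  unfold cexpi
  fun_prop

/-- a rotation which depends on the distance to the centre -/
noncomputable def pol_T (c : ℂ) (α : ℝ → ℝ) (hα : Continuous α) : ℂ ≃ₜ ℂ where
  toFun z := c + cexpi (α ‖z - c‖) * (z - c)
  invFun z := c + cexpi (-(α ‖z - c‖)) * (z - c)
  left_inv := by
    intro z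
    show c + cexpi (-(α ‖c + cexpi (α ‖z - c‖) * (z - c) - c‖)) *
      (c + cexpi (α ‖z - c‖) * (z - c) - c) = z
    rw [add_sub_cancel_left, norm_mul, pol_norm, one_mul, ← mul_assoc, pol_mul, one_mul,
      add_sub_cancel]
  right_inv := by
    intro z
    show c + cexpi (α ‖c + cexpi (-(α ‖z - c‖)) * (z - c) - c‖) *
      (c + cexpi (-(α ‖z - c‖)) * (z - c) - c) = z
    rw [add_sub_cancel_left, norm_mul, pol_norm, one_mul, ← mul_assoc, mul_comm (cexpi _) (cexpi _),
      pol_mul, one_mul, add_sub_cancel]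
  continuous_toFun := by
    have h1 : Continuous fun z : ℂ => α ‖z - c‖ := hα.comp (by fun_prop)
    exact continuous_const.add ((pol_cexpi_cont.comp h1).mul (by fun_prop))
  continuous_invFun := by
    have h1 : Continuous fun z : ℂ => -(α ‖z - c‖) := (hα.comp (by fun_prop)).neg
    exact continuous_const.add ((pol_cexpi_cont.comp h1).mul (by fun_prop))

theorem thm_POL : St_POL := by
  intro c a b R θ ha haR hb hbR
  let α : ℝ → ℝ := fun r => θ * ((R - max (min r R) b) / (R - b))
  have hα : Continuous α := by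
    show Continuous fun r : ℝ => θ * ((R - max (min r R) b) / (R - b))
    exact continuous_const.mul ((continuous_const.sub (by fun_prop)).div_const _)
  refine ⟨(pol_S c ha haR hb hbR).trans (pol_T c α hα), ?_, ?_⟩
  · intro z hz
    rw [mem_ball_iff_norm, not_lt] at hz
    have h1 : pol_S c ha haR hb hbR z = z := by
      show c + (pol_k a b R ‖z - c‖ : ℂ) * (z - c) = z
      rw [pol_k3 ha haR hz, Complex.ofReal_one, one_mul, add_sub_cancel]
    have h2 : α ‖z - c‖ = 0 := by
      show θ * ((R - max (min ‖z - c‖ R) b) / (R - b)) = 0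
      rw [min_eq_right hz, max_eq_left hbR.le, sub_self, zero_div, mul_zero]
    rw [Homeomorph.trans_apply, h1]
    show c + cexpi (α ‖z - c‖) * (z - c) = z
    rw [h2]
    unfold cexpi
    rw [Complex.ofReal_zero, zero_mul, Complex.exp_zero, one_mul, add_sub_cancel]
  · intro z hz
    rw [mem_closedBall_iff_norm] at hz
    have h1 : pol_S c ha haR hb hbR z = c + ((b / a : ℝ) : ℂ) * (z - c) := by
      show c + (pol_k a b R ‖z - c‖ : ℂ) * (z - c) = _
      rw [pol_k1 ha haR hz]
    have h3 : ‖((b / a : ℝ) : ℂ) * (z - c)‖ ≤ b := by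
      rw [norm_mul, Complex.norm_of_nonneg (by positivity), div_mul_eq_mul_div, div_le_iff₀ ha]
      exact mul_le_mul_of_nonneg_left hz hb.le
    have h2 : α ‖((b / a : ℝ) : ℂ) * (z - c)‖ = θ := by
      show θ * ((R - max (min ‖((b / a : ℝ) : ℂ) * (z - c)‖ R) b) / (R - b)) = θ
      have h4 : R - b ≠ 0 := by linarith
      rw [min_eq_left (h3.trans hbR.le), max_eq_right h3, div_self h4, mul_one]
    rw [Homeomorph.trans_apply, h1]
    show c + cexpi (α ‖c + ((b / a : ℝ) : ℂ) * (z - c) - c‖) *
      (c + ((b / a : ℝ) : ℂ) * (z - c) - c) = _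
    rw [add_sub_cancel_left, h2]
    ring

end Pool.Agent.SRP
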