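import Pool.Agent.SRP.StC

set_option autoImplicit false

/-! # SRP, module REF (helper17): replacing the content of balls by other configurations -/

open Set Metric Filter Topology Pool.Agent.SRF

namespace Pool.Agent.SRP

theorem ref_closed (F S : Set ℝ) (hF : IsClosed F)
    (h : ∀ x, x ∉ F → ∃ ε : ℝ, 0 < ε ∧ (ball x ε ∩ S).Finite) : IsClosed (F ∪ S) := by
  rw [← isOpen_compl_iff, isOpen_iff_mem_nhds]
  intro x hx
  rw [mem_compl_iff, mem_union, not_or] at hx
  obtain ⟨ε, hε, hfin⟩ := h x hx.1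
  have h1 : (ball x ε ∩ S)ᶜ ∈ 𝓝 x := hfin.isClosed.isOpen_compl.mem_nhds fun h => hx.2 h.2
  filter_upwards [h1, hF.isOpen_compl.mem_nhds hx.1, ball_mem_nhds x hε] with y h2 h3 h4
  rintro (h5 | h5)
  · exact h3 h5
  · exact h2 ⟨h4, h5⟩

open Classical in
/-- the new radii -/
noncomputable def ref_rad (C : Conf) (J : Set ℝ) (D : ℝ → Conf) (i : ℝ) : ℝ :=
  if h : ∃ j, j ∈ J ∧ |i - j| ≤ C.rad j then
    C.rad h.choose * (D h.choose).rad ((i - h.choose) / C.rad h.choose) else C.rad i

open Classical in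
/-- the new labels -/
noncomputable def ref_lab (C : Conf) (J : Set ℝ) (D : ℝ → Conf) (i : ℝ) : Lab :=
  if h : ∃ j, j ∈ J ∧ |i - j| ≤ C.rad j then
    (D h.choose).lab ((i - h.choose) / C.rad h.choose) else C.lab i

section

variable {C : Conf} (hC : C.Ok) {J : Set ℝ} (hJ : J ⊆ C.I) {D : ℝ → Conf}

include hC hJ in
theorem ref_uniq {i j j' : ℝ} (hj : j ∈ J) (hj' : j' ∈ J) (h : |i - j| ≤ C.rad j)
    (h' : |i - j'| ≤ C.rad j') : j = j' := by
  by_contra hne
  have h1 := hC.apart j (hJ hj) j' (hJ hj') hne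
  have h2 := abs_sub_le j i j'
  rw [abs_sub_comm j i] at h2
  linarith

include hC hJ in
theorem ref_rad_in {i j : ℝ} (hj : j ∈ J) (h : |i - j| ≤ C.rad j) :
    ref_rad C J D i = C.rad j * (D j).rad ((i - j) / C.rad j) := by
  have hex : ∃ j, j ∈ J ∧ |i - j| ≤ C.rad j := ⟨j, hj, h⟩
  unfold ref_rad
  rw [dif_pos hex]
  rw [ref_uniq hC hJ hex.choose_spec.1 hj hex.choose_spec.2 h]

include hC hJ in
theorem ref_lab_in {i j : ℝ} (hj : j ∈ J) (h : |i - j| ≤ C.rad j) :
    ref_lab C J D i = (D j).lab ((i - j) / C.rad j) := by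
  have hex : ∃ j, j ∈ J ∧ |i - j| ≤ C.rad j := ⟨j, hj, h⟩
  unfold ref_lab
  rw [dif_pos hex]
  rw [ref_uniq hC hJ hex.choose_spec.1 hj hex.choose_spec.2 h]

theorem ref_rad_out {i : ℝ} (h : ∀ j ∈ J, C.rad j < |i - j|) : ref_rad C J D i = C.rad i := by
  unfold ref_rad
  rw [dif_neg]
  rintro ⟨j, hj, hij⟩
  exact absurd hij (not_le.2 (h j hj))

theorem ref_lab_out {i : ℝ} (h : ∀ j ∈ J, C.rad j < |i - j|) : ref_lab C J D i = C.lab i := by
  unfold ref_lab
  rw [dif_neg]
  rintro ⟨j, hj, hij⟩
  exact absurd hij (not_le.2 (h j hj))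

end

theorem thm_REF (hCFIN : St_CFIN) (_hCCONG : St_CCONG) : St_REF := by
  intro C hC J hJ D hD
  obtain ⟨-, c2, c3, -, -, -, -, -⟩ := hCFIN C hC
  -- finiteness of the centres near a point which is not an end
  have hfinI : ∀ x, x ∉ C.F → ∃ ε : ℝ, 0 < ε ∧ (closedBall x ε ∩ C.I).Finite := by
    intro x hx
    obtain ⟨ε, hε, hεF⟩ := Metric.nhds_basis_closedBall.mem_iff.1
      (hC.closed.isOpen_compl.mem_nhds hx)
    refine ⟨ε, hε, c2 _ isClosed_closedBall ?_⟩
    rw [Set.disjoint_left]
    exact fun y hy hyF => hεF hy hyF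
  have hslot : ∀ j ∈ J, C.Slot j (C.rad j) := by
    intro j hj
    refine ⟨hC.pos j (hJ hj), hC.inside j (hJ hj), fun x hx => hC.away j (hJ hj) x hx, ?_⟩
    intro i hi
    by_cases hij : i = j
    · subst hij
      left
      rw [sub_self, abs_zero, zero_add]
    · right
      have := hC.apart i hi j (hJ hj) hij
      linarith
  have hnew : ∀ j ∈ J, ∀ x ∈ (D j).I, |C.rad j * x| + C.rad j * (D j).rad x < C.rad j ∧
      |C.rad j * x| < C.rad j ∧ 0 < C.rad j * (D j).rad x := by
    intro j hj x hx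
    have p := hC.pos j (hJ hj)
    have h1 := (hD j hj).1.inside x hx
    have h2 := (hD j hj).1.pos x hx
    rw [abs_mul, abs_of_pos p]
    refine ⟨?_, ?_, mul_pos p h2⟩
    · nlinarith
    · nlinarith
  have hold : ∀ i ∈ C.I, i ∉ J → ∀ j ∈ J, C.rad j < |i - j| := by
    intro i hi hiJ j hj
    have h1 := hC.apart i hi j (hJ hj) (fun h => hiJ (h ▸ hj))
    have h2 := hC.pos i hi
    linarith
  have hnewrad : ∀ j ∈ J, ∀ x ∈ (D j).I, ref_rad C J D (j + C.rad j * x) =
      C.rad j * (D j).rad x ∧ ref_lab C J D (j + C.rad j * x) = (D j).lab x := by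
    intro j hj x hx
    have p := hC.pos j (hJ hj)
    have h1 : |j + C.rad j * x - j| ≤ C.rad j := by
      rw [add_sub_cancel_left]
      exact (hnew j hj x hx).2.1.le
    rw [ref_rad_in hC hJ hj h1, ref_lab_in hC hJ hj h1, add_sub_cancel_left,
      mul_div_cancel_left₀ _ p.ne']
    exact ⟨rfl, rfl⟩
  set I' : Set ℝ := (C.I \ J) ∪ {i | ∃ j ∈ J, ∃ x ∈ (D j).I, i = j + C.rad j * x} with hI'
  -- the parent of a new centre
  have hpar : ∀ i ∈ I', ∃ p ∈ C.I, |i - p| + ref_rad C J D i ≤ C.rad p ∧ 0 < ref_rad C J D i ∧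
      ((p ∉ J ∧ i = p) ∨ (p ∈ J ∧ ∃ x ∈ (D p).I, i = p + C.rad p * x ∧
        ref_rad C J D i = C.rad p * (D p).rad x)) := by
    rintro i (⟨hi, hiJ⟩ | ⟨j, hj, x, hx, rfl⟩)
    · refine ⟨i, hi, ?_, ?_, Or.inl ⟨hiJ, rfl⟩⟩
      · rw [ref_rad_out (hold i hi hiJ), sub_self, abs_zero, zero_add]
      · rw [ref_rad_out (hold i hi hiJ)]
        exact hC.pos i hi
    · refine ⟨j, hJ hj, ?_, ?_, Or.inr ⟨hj, x, hx, rfl, (hnewrad j hj x hx).1⟩⟩
      · rw [(hnewrad j hj x hx).1, add_sub_cancel_left]
        exact (hnew j hj x hx).1.le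
      · rw [(hnewrad j hj x hx).1]
        exact (hnew j hj x hx).2.2
  -- two centres with different parents
  have hdif : ∀ i p q : ℝ, p ∈ C.I → q ∈ C.I → p ≠ q → |i - p| + ref_rad C J D i ≤ C.rad p →
      C.rad q + ref_rad C J D i < |i - q| := by
    intro i p q hp hq hpq h
    have h1 := hC.apart p hp q hq hpq
    have h2 := abs_sub_le p i q
    rw [abs_sub_comm p i] at h2
    linarith
  refine ⟨?_, hslot, ⟨C.F, I', ref_rad C J D, ref_lab C J D⟩, ?_, rfl, ?_, rfl, ?_, ?_⟩
  · refine hC.compact.of_isClosed_subset ?_ (union_subset_union_right _ hJ)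
    refine ref_closed _ _ hC.closed fun x hx => ?_
    obtain ⟨ε, hε, h⟩ := hfinI x hx
    exact ⟨ε, hε, h.subset (inter_subset_inter ball_subset_closedBall hJ)⟩
  · refine ⟨hC.closed, ?_, hC.td, hC.small, ?_, ?_, ?_, ?_⟩
    · change IsCompact (C.F ∪ I')
      refine (isCompact_closedBall (0 : ℝ) 1).of_isClosed_subset ?_ ?_
      · refine ref_closed _ _ hC.closed fun x hx => ?_
        obtain ⟨ε, hε, h⟩ := hfinI x hx
        refine ⟨ε / 2, by linarith, ?_⟩
        -- finitely many parents
        set P : Set ℝ := (closedBall x ε ∩ C.I) ∪ {i ∈ C.I | ε / 2 ≤ C.rad i} with hP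
        have hPf : P.Finite := h.union (c3 (ε / 2) (by linarith))
        have hfin2 : (⋃ p ∈ P ∩ J, (fun y : ℝ => p + C.rad p * y) '' (D p).I).Finite := by
          refine (hPf.inter_of_left J).biUnion fun p hp => ?_
          have h1 := (hD p hp.2).1
          exact (((hCFIN _ h1).2.2.2.1 (hD p hp.2).2).1).image _
        refine (h.union hfin2).subset ?_
        rintro i ⟨hix, hi⟩
        rw [mem_ball, Real.dist_eq] at hix
        rcases hi with ⟨hi, hiJ⟩ | ⟨j, hj, y, hy, rfl⟩
        · left
          refine ⟨?_, hi⟩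
          rw [mem_closedBall, Real.dist_eq]
          linarith
        · right
          refine mem_iUnion₂.2 ⟨j, ⟨?_, hj⟩, y, hy, rfl⟩
          by_cases hr : ε / 2 ≤ C.rad j
          · exact Or.inr ⟨hJ hj, hr⟩
          · push Not at hr
            left
            refine ⟨?_, hJ hj⟩
            rw [mem_closedBall, Real.dist_eq]
            have h3 := (hnew j hj y hy).2.1
            have h4 := abs_sub_le j (j + C.rad j * y) x
            have h5 : |j - (j + C.rad j * y)| = |C.rad j * y| := by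
              rw [sub_add_cancel_left, abs_neg]
            rw [h5] at h4
            linarith
      · rintro x (hx | hx)
        · rw [mem_closedBall_zero_iff, Real.norm_eq_abs]
          exact (hC.small x hx).le
        · obtain ⟨p, hp, h1, h2, -⟩ := hpar x hx
          rw [mem_closedBall_zero_iff, Real.norm_eq_abs]
          have h3 := hC.inside p hp
          have h4 : |x| ≤ |x - p| + |p| := by
            have := abs_add_le (x - p) p
            rwa [sub_add_cancel] at this
          linarith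
    · intro i hi
      obtain ⟨p, hp, h1, h2, -⟩ := hpar i hi
      exact h2
    · intro i hi
      obtain ⟨p, hp, h1, h2, -⟩ := hpar i hi
      change |i| + ref_rad C J D i < 1
      have h3 := hC.inside p hp
      have h4 : |i| ≤ |i - p| + |p| := by
        have := abs_add_le (i - p) p
        rwa [sub_add_cancel] at this
      linarith
    · intro i hi x hx
      obtain ⟨p, hp, h1, h2, -⟩ := hpar i hi
      change ref_rad C J D i < |x - i|
      have h3 := hC.away p hp x hx
      have h4 := abs_sub_le x i p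
      linarith
    · intro i hi i' hi' hne
      change ref_rad C J D i + ref_rad C J D i' < |i - i'|
      obtain ⟨p, hp, h1, h2, h3⟩ := hpar i hi
      obtain ⟨p', hp', h1', h2', h3'⟩ := hpar i' hi'
      by_cases hpp : p = p'
      · subst hpp
        rcases h3 with ⟨h4, h5⟩ | ⟨h4, x, hx, h5, h6⟩
        · rcases h3' with ⟨h4', h5'⟩ | ⟨h4', x', hx', h5', h6'⟩
          · exact absurd (h5.trans h5'.symm) hne
          · exact absurd h4' h4
        · rcases h3' with ⟨h4', h5'⟩ | ⟨h4', x', hx', h5', h6'⟩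
          · exact absurd h4 h4'
          · have hxx : x ≠ x' := by
              rintro rfl
              exact hne (h5.trans h5'.symm)
            have h7 := (hD p h4).1.apart x hx x' hx' hxx
            have p0 := hC.pos p hp
            have h8 : i - i' = C.rad p * (x - x') := by rw [h5, h5']; ring
            rw [h6, h6', h8, abs_mul, abs_of_pos p0]
            nlinarith
      · have h7 := hdif i p p' hp hp' hpp h1
        have h8 := abs_sub_le i i' p'
        linarith
  · intro j hj
    refine ⟨(hslot j hj).pos, (hslot j hj).inside, (hslot j hj).away, ?_⟩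
    intro i hi
    obtain ⟨p, hp, h1, h2, h3⟩ := hpar i hi
    change |i - j| + ref_rad C J D i ≤ C.rad j ∨ C.rad j + ref_rad C J D i < |i - j|
    by_cases hpj : p = j
    · subst hpj
      exact Or.inl h1
    · exact Or.inr (hdif i p j hp (hJ hj) hpj h1)
  · intro i hi
    have hiJ : i ∈ C.I → i ∉ J := by
      intro h1 h2
      have h3 := hi i h2
      rw [sub_self, abs_zero] at h3
      exact absurd h3 (not_lt.2 (hC.pos i h1).le)
    refine ⟨⟨?_, ?_⟩, ?_⟩
    · rintro (⟨h, -⟩ | ⟨j, hj, x, hx, rfl⟩)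
      · exact h
      · exfalso
        have h1 := hi j hj
        rw [add_sub_cancel_left] at h1
        have h2 := (hnew j hj x hx).2.1
        linarith
    · intro h
      exact Or.inl ⟨h, hiJ h⟩
    · intro h
      exact ⟨ref_rad_out hi, ref_lab_out hi⟩
  · intro j hj
    have p := hC.pos j (hJ hj)
    refine ⟨?_, ?_⟩
    · ext x
      constructor
      · rintro ⟨h1, h2⟩
        have h3 : |j + C.rad j * x - j| ≤ C.rad j := by
          rw [add_sub_cancel_left, abs_mul, abs_of_pos p]
          nlinarith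
        rcases h1 with ⟨h1, h4⟩ | ⟨j', hj', x', hx', h5⟩
        · exfalso
          have h6 := hold _ h1 h4 j hj
          linarith
        · have h6 : |j + C.rad j * x - j'| ≤ C.rad j' := by
            rw [h5, add_sub_cancel_left]
            exact (hnew j' hj' x' hx').2.1.le
          have h7 := ref_uniq hC hJ hj hj' h3 h6
          subst h7
          have h8 : C.rad j * x = C.rad j * x' := by linarith
          rwa [mul_left_cancel₀ p.ne' h8]
      · intro hx
        refine ⟨Or.inr ⟨j, hj, x, hx, rfl⟩, ?_⟩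
        have h1 := (hD j hj).1.inside x hx
        have h2 := (hD j hj).1.pos x hx
        linarith
    · intro x hx
      obtain ⟨h1, h2⟩ := hnewrad j hj x hx
      refine ⟨?_, h2⟩
      change ref_rad C J D (j + C.rad j * x) / C.rad j = _
      rw [h1, mul_div_cancel_left₀ _ p.ne']

end Pool.Agent.SRP
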