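import Pool.Agent.SRP.StC

set_option autoImplicit false

/-! # SRP, module ROOM: the radii of a configuration can be enlarged a little -/

open Set Metric Filter Topology Pool.Agent.SRF

namespace Pool.Agent.SRP

theorem room_fin {S : Set ℝ} (hS : S.Finite) {f : ℝ → ℝ} (hf : ∀ j ∈ S, 0 < f j) :
    ∃ d : ℝ, 0 < d ∧ ∀ j ∈ S, d ≤ f j := by
  rcases S.eq_empty_or_nonempty with rfl | hne
  · exact ⟨1, one_pos, by simp⟩
  · obtain ⟨j, hj, hmin⟩ := Set.exists_min_image S f hS hne
    exact ⟨f j, hf j hj, hmin⟩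

theorem room_F {C : Conf} (hC : C.Ok) {i : ℝ} (hi : i ∈ C.I) :
    ∃ d : ℝ, 0 < d ∧ ∀ x ∈ C.F, d ≤ |x - i| - C.rad i := by
  have hK : IsCompact C.F := hC.compact.of_isClosed_subset hC.closed subset_union_left
  rcases C.F.eq_empty_or_nonempty with he | hne
  · refine ⟨1, one_pos, ?_⟩
    rw [he]
    simp
  · obtain ⟨x, hx, hmin⟩ := hK.exists_isMinOn hne
      (f := fun x : ℝ => |x - i| - C.rad i) (by fun_prop)
    refine ⟨|x - i| - C.rad i, sub_pos.mpr (hC.away i hi x hx), fun y hy => ?_⟩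
    exact hmin hy

theorem room_d (hF : St_CFIN) {C : Conf} (hC : C.Ok) {i : ℝ} (hi : i ∈ C.I) :
    ∃ d : ℝ, 0 < d ∧ d ≤ 1 - |i| - C.rad i ∧ (∀ x ∈ C.F, d ≤ |x - i| - C.rad i) ∧
      ∀ j ∈ C.I, i ≠ j → d ≤ |i - j| - C.rad i - C.rad j := by
  obtain ⟨_, f2, f3, _⟩ := hF C hC
  obtain ⟨a, ha, hax⟩ := room_F hC hi
  have g1 : ({x : ℝ | |x - i| ≤ C.rad i + a / 2} ∩ C.I).Finite := by
    refine f2 _ (isClosed_le (by fun_prop) continuous_const) ?_
    rw [Set.disjoint_left]
    intro x hx hxF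
    have h1 := hax x hxF
    have h2 : |x - i| ≤ C.rad i + a / 2 := hx
    linarith
  have g2 := f3 (a / 4) (by linarith)
  obtain ⟨b, hb, hbj⟩ := room_fin ((g1.union g2).subset (sdiff_subset (t := {i})))
    (f := fun j => |i - j| - C.rad i - C.rad j) (by
      rintro j ⟨hj, hji⟩
      have hjI : j ∈ C.I := by
        rcases hj with hj | hj
        · exact hj.2
        · exact hj.1
      have := hC.apart i hi j hjI (fun h => hji h.symm)
      linarith)
  have h0 := hC.inside i hi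
  refine ⟨min (min (1 - |i| - C.rad i) (a / 4)) b, ?_, ?_, ?_, ?_⟩
  · exact lt_min (lt_min (by linarith) (by linarith)) hb
  · exact (min_le_left _ _).trans (min_le_left _ _)
  · intro x hx
    have h1 := hax x hx
    have h2 : min (min (1 - |i| - C.rad i) (a / 4)) b ≤ a / 4 :=
      (min_le_left _ _).trans (min_le_right _ _)
    linarith
  · intro j hj hij
    by_cases hjS : j ∈ ({x : ℝ | |x - i| ≤ C.rad i + a / 2} ∩ C.I) ∪ {i ∈ C.I | a / 4 ≤ C.rad i}
    · exact (min_le_right _ _).trans (hbj j ⟨hjS, fun h => hij h.symm⟩)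
    · have h1 : ¬ |j - i| ≤ C.rad i + a / 2 := fun h => hjS (Or.inl ⟨h, hj⟩)
      have h2 : ¬ a / 4 ≤ C.rad j := fun h => hjS (Or.inr ⟨hj, h⟩)
      push Not at h1 h2
      rw [abs_sub_comm] at h1
      have h3 : min (min (1 - |i| - C.rad i) (a / 4)) b ≤ a / 4 :=
        (min_le_left _ _).trans (min_le_right _ _)
      linarith

theorem thm_ROOM (hF : St_CFIN) : St_ROOM := by
  intro C hC
  have h : ∀ i, i ∈ C.I → ∃ d : ℝ, 0 < d ∧ d ≤ 1 - |i| - C.rad i ∧
      (∀ x ∈ C.F, d ≤ |x - i| - C.rad i) ∧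
      ∀ j ∈ C.I, i ≠ j → d ≤ |i - j| - C.rad i - C.rad j := fun i hi => room_d hF hC hi
  choose! d d0 d1 d2 d3 using h
  refine ⟨fun i => C.rad i + d i / 3, fun i hi => ?_, ?_⟩
  · have := d0 i hi
    linarith
  · refine ⟨hC.closed, hC.compact, hC.td, hC.small, fun i hi => ?_, fun i hi => ?_,
      fun i hi x hx => ?_, fun i hi j hj hij => ?_⟩
    · have h1 := d0 i hi
      have h2 := hC.pos i hi
      simp only
      linarith
    · have h1 := d0 i hi
      have h2 := d1 i hi
      simp only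
      linarith
    · have h1 := d0 i hi
      have h2 := d2 i hi x hx
      simp only
      linarith
    · have h1 := d0 i hi
      have h2 := d0 j hj
      have h3 := d3 i hi j hj hij
      have h4 := d3 j hj i hi (Ne.symm hij)
      rw [abs_sub_comm] at h4
      simp only
      linarith

end Pool.Agent.SRP
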