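import Pool.Agent.SRP.StC

/-!
# SRP SHR: Klee's trick

`shr_ext`: a continuous function on a compact set of real numbers extends to a continuous function
which is locally constant near the given isolated points. `shr_shear`: the shears. `shr_core`: the
composition of two shears and a rotation.
-/

set_option autoImplicit false

open Set Metric Filter Topology Pool.Agent.SRF

namespace Pool.Agent.SRP

/-- radius of isolation -/
noncomputable def shr_e (K : Set ℝ) (k : ℝ) : ℝ := infDist k ((insert 1 K) \ {k})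

theorem shr_e_nonneg (K : Set ℝ) (k : ℝ) : 0 ≤ shr_e K k := infDist_nonneg

theorem shr_e_le {K : Set ℝ} {k k' : ℝ} (hk' : k' ∈ K) (h : k' ≠ k) : shr_e K k ≤ |k - k'| := by
  rw [← Real.dist_eq]
  exact infDist_le_dist_of_mem ⟨Or.inr hk', h⟩

/-- continuous extension with local constancy near the points of `I` -/
theorem shr_ext {K I : Set ℝ} (hK : IsCompact K) (hI : I ⊆ K) (hK8 : ∀ x ∈ K, |x| ≤ 1 / 8)
    (iso : ∀ i ∈ I, ∃ ε > 0, ∀ x ∈ K, |x - i| < ε → x = i) {φ : ℝ → ℝ} (hφ : ContinuousOn φ K)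
    (h8 : ∀ x ∈ K, |φ x| ≤ 1 / 8) :
    ∃ f : ℝ → ℝ, Continuous f ∧ (∀ x, |f x| ≤ 1 / 8) ∧ (∀ x ∈ K, f x = φ x) ∧
      ∀ i ∈ I, ∃ ε > 0, ∀ x, |x - i| ≤ ε → f x = φ i := by
  classical
  -- the retraction near `K`
  set S : Set ℝ := {x | ∃ k, k ∈ K ∧ 3 * |x - k| ≤ shr_e K k} with hS
  have hρ : ∀ x ∈ S, ∃ k, k ∈ K ∧ 3 * |x - k| ≤ shr_e K k := fun x hx => hx
  choose! ρ hρ1 hρ2 using hρ
  have hL : ∀ x k x' k', k ∈ K → 3 * |x - k| ≤ shr_e K k → k' ∈ K → 3 * |x' - k'| ≤ shr_e K k' →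
      |k - k'| ≤ 3 * |x - x'| := by
    intro x k x' k' h1 h2 h3 h4
    by_cases h : k = k'
    · rw [h, sub_self, abs_zero]
      positivity
    · have e1 : shr_e K k ≤ |k - k'| := shr_e_le h3 (Ne.symm h)
      have e2 : shr_e K k' ≤ |k' - k| := shr_e_le h1 h
      rw [abs_sub_comm k' k] at e2
      have e3 : |k - k'| ≤ |x - k| + |x - x'| + |x' - k'| := by
        have : k - k' = -(x - k) + (x - x') + (x' - k') := by ring
        rw [this]
        refine (abs_add_le _ _).trans (add_le_add_left ((abs_add_le _ _).trans ?_) _)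
        rw [abs_neg]
      linarith
  have hlip : LipschitzOnWith 3 ρ S := by
    refine LipschitzOnWith.of_dist_le_mul fun x hx y hy => ?_
    rw [Real.dist_eq, Real.dist_eq]
    exact hL x _ y _ (hρ1 x hx) (hρ2 x hx) (hρ1 y hy) (hρ2 y hy)
  obtain ⟨r, hr, hrS⟩ := hlip.extend_real
  have huniq : ∀ x k, k ∈ K → 3 * |x - k| ≤ shr_e K k → r x = k := by
    intro x k h1 h2
    have hx : x ∈ S := ⟨k, h1, h2⟩
    rw [← hrS hx]
    have := hL x _ x k (hρ1 x hx) (hρ2 x hx) h1 h2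
    rw [sub_self, abs_zero, mul_zero] at this
    exact sub_eq_zero.1 (abs_eq_zero.1 (le_antisymm this (abs_nonneg _)))
  -- the continuous extension
  obtain ⟨g, hg⟩ := ContinuousMap.exists_restrict_eq hK.isClosed
    (⟨K.domRestrict φ, hφ.domRestrict⟩ : C(K, ℝ))
  have hgK : ∀ x ∈ K, g x = φ x := fun x hx => by
    have := congrArg (fun u : C(K, ℝ) => u ⟨x, hx⟩) hg
    exact this
  have hf : ∀ x k, k ∈ K → r x = k → max (-(1 / 8)) (min (1 / 8) (g (r x))) = φ k := by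
    intro x k hk h
    rw [h, hgK k hk]
    have := abs_le.1 (h8 k hk)
    rw [min_eq_right this.2, max_eq_right this.1]
  refine ⟨fun x => max (-(1 / 8)) (min (1 / 8) (g (r x))), ?_, ?_, ?_, ?_⟩
  · exact continuous_const.max (continuous_const.min (g.continuous.comp hr.continuous))
  · intro x
    rw [abs_le]
    exact ⟨le_max_left _ _, max_le (by norm_num) (min_le_left _ _)⟩
  · intro x hx
    refine hf x x hx (huniq x x hx ?_)
    rw [sub_self, abs_zero, mul_zero]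
    exact shr_e_nonneg K x
  · intro i hi
    obtain ⟨ε, hε, h⟩ := iso i hi
    have hpos : min ε (1 / 2) ≤ shr_e K i := by
      have hne1 : ((insert 1 K) \ {i}).Nonempty := by
        refine ⟨1, Or.inl rfl, ?_⟩
        intro h1
        have h2 := hK8 i (hI hi)
        rw [← mem_singleton_iff.1 h1] at h2
        norm_num at h2
      refine (le_infDist hne1).2 ?_
      rintro y ⟨hy | hy, hne⟩
      · refine (min_le_right _ _).trans ?_
        rw [hy, Real.dist_eq]
        have h2 := abs_le.1 (hK8 i (hI hi))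
        rw [abs_sub_comm]
        refine le_trans ?_ (le_abs_self _)
        linarith [h2.2]
      · refine (min_le_left _ _).trans ?_
        by_contra hc
        refine hne (h y hy ?_)
        rw [Real.dist_eq, abs_sub_comm] at hc
        exact not_le.1 hc
    refine ⟨min ε (1 / 2) / 3, div_pos (lt_min hε (by norm_num)) (by norm_num), fun x hx => ?_⟩
    exact hf x i (hI hi) (huniq x i (hI hi) (by linarith))

/-- the cutoff -/
noncomputable def shr_b (y : ℝ) : ℝ := max 0 (min 1 (8 / 5 - 16 / 5 * |y|))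

theorem shr_b_cont : Continuous shr_b := by
  unfold shr_b
  fun_prop

theorem shr_b_nonneg (y : ℝ) : 0 ≤ shr_b y := le_max_left _ _

theorem shr_b_le (y : ℝ) : shr_b y ≤ 1 := max_le zero_le_one (min_le_left _ _)

theorem shr_b_abs (y : ℝ) : |shr_b y| ≤ 1 := by
  rw [abs_of_nonneg (shr_b_nonneg y)]
  exact shr_b_le y

theorem shr_b_one {y : ℝ} (h : |y| ≤ 3 / 16) : shr_b y = 1 := by
  unfold shr_b
  rw [min_eq_left (by linarith), max_eq_right zero_le_one]

theorem shr_b_zero {y : ℝ} (h : 1 / 2 ≤ |y|) : shr_b y = 0 := by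
  unfold shr_b
  exact max_eq_left ((min_le_right _ _).trans (by linarith))

theorem shr_b_lip (y y' : ℝ) : |shr_b y - shr_b y'| ≤ 16 / 5 * |y - y'| := by
  unfold shr_b
  have h1 := abs_max_sub_max_le_abs (min 1 (8 / 5 - 16 / 5 * |y|)) (min 1 (8 / 5 - 16 / 5 * |y'|)) 0
  rw [max_comm 0, max_comm 0]
  refine h1.trans ((abs_min_sub_min_le_max _ _ _ _).trans (max_le ?_ ?_))
  · rw [sub_self, abs_zero]
    positivity
  · have : 8 / 5 - 16 / 5 * |y| - (8 / 5 - 16 / 5 * |y'|) = 16 / 5 * (|y'| - |y|) := by ring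
    rw [this, abs_mul, abs_of_pos (by norm_num : (0 : ℝ) < 16 / 5)]
    refine mul_le_mul_of_nonneg_left ?_ (by norm_num)
    rw [abs_sub_comm y y']
    exact abs_abs_sub_abs_le_abs_sub _ _

theorem shr_est {c c' y y' : ℝ} (hc : |c| ≤ 1 / 8) :
    3 / 5 * |y - y'| ≤ |(y + c * shr_b y) - (y' + c' * shr_b y')| + |c - c'| := by
  have h1 : y - y' = ((y + c * shr_b y) - (y' + c' * shr_b y')) - c * (shr_b y - shr_b y') -
      (c - c') * shr_b y' := by ring
  have h2 : |y - y'| ≤ |(y + c * shr_b y) - (y' + c' * shr_b y')| + |c * (shr_b y - shr_b y')| +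
      |(c - c') * shr_b y'| := by
    conv_lhs => rw [h1]
    exact (abs_sub _ _).trans (add_le_add_left (abs_sub _ _) _)
  have h3 : |c * (shr_b y - shr_b y')| ≤ 2 / 5 * |y - y'| := by
    rw [abs_mul]
    calc |c| * |shr_b y - shr_b y'| ≤ 1 / 8 * (16 / 5 * |y - y'|) :=
          mul_le_mul hc (shr_b_lip y y') (abs_nonneg _) (by norm_num)
      _ = 2 / 5 * |y - y'| := by ring
  have h4 : |(c - c') * shr_b y'| ≤ |c - c'| := by
    rw [abs_mul]
    exact mul_le_of_le_one_right (abs_nonneg _) (shr_b_abs y')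
  linarith

theorem shr_surj (c : ℝ) (hc : |c| ≤ 1 / 8) (w : ℝ) : ∃ y, y + c * shr_b y = w := by
  have hcont : ContinuousOn (fun y => y + c * shr_b y) (Icc (w - 1) (w + 1)) :=
    (continuous_id.add (continuous_const.mul shr_b_cont)).continuousOn
  have hb : ∀ y, |c * shr_b y| ≤ 1 / 8 := by
    intro y
    rw [abs_mul]
    exact (mul_le_of_le_one_right (abs_nonneg _) (shr_b_abs y)).trans hc
  have hiv := intermediate_value_Icc (by linarith : w - 1 ≤ w + 1) hcont
  have h1 := abs_le.1 (hb (w - 1))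
  have h2 := abs_le.1 (hb (w + 1))
  obtain ⟨y, -, hy⟩ := hiv (show w ∈ Icc (w - 1 + c * shr_b (w - 1)) (w + 1 + c * shr_b (w + 1)) by
    constructor <;> linarith)
  exact ⟨y, hy⟩

/-- vertical shears -/
theorem shr_shear {c : ℝ → ℝ} (hc : Continuous c) (h8 : ∀ x, |c x| ≤ 1 / 8) :
    ∃ A : (ℝ × ℝ) ≃ₜ (ℝ × ℝ), ∀ p, A p = (p.1, p.2 + c p.1 * shr_b p.2) := by
  choose s hs using fun x => shr_surj (c x) (h8 x)
  have hinj : ∀ x y y', y + c x * shr_b y = y' + c x * shr_b y' → y = y' := by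
    intro x y y' h
    have h1 := shr_est (c := c x) (c' := c x) (y := y) (y' := y') (h8 x)
    rw [h, sub_self, sub_self, abs_zero, add_zero] at h1
    have h2 : |y - y'| ≤ 0 := by linarith
    exact sub_eq_zero.1 (abs_eq_zero.1 (le_antisymm h2 (abs_nonneg _)))
  have hcs : Continuous (fun p : ℝ × ℝ => s p.1 p.2) := by
    rw [continuous_iff_continuousAt]
    intro p0
    rw [ContinuousAt, tendsto_iff_dist_tendsto_zero]
    have h0 : Tendsto (fun p : ℝ × ℝ => 5 / 3 * (|p.2 - p0.2| + |c p.1 - c p0.1|)) (𝓝 p0) (𝓝 0) := by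
      have : Continuous (fun p : ℝ × ℝ => 5 / 3 * (|p.2 - p0.2| + |c p.1 - c p0.1|)) := by
        fun_prop
      have h1 := this.tendsto p0
      simpa using h1
    refine squeeze_zero (fun _ => dist_nonneg) (fun p => ?_) h0
    rw [Real.dist_eq]
    have h1 := shr_est (c := c p.1) (c' := c p0.1) (y := s p.1 p.2) (y' := s p0.1 p0.2) (h8 p.1)
    rw [hs, hs] at h1
    linarith
  refine ⟨{ toFun := fun p => (p.1, p.2 + c p.1 * shr_b p.2)
            invFun := fun p => (p.1, s p.1 p.2)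
            left_inv := ?_
            right_inv := ?_
            continuous_toFun := ?_
            continuous_invFun := ?_ }, fun p => rfl⟩
  · rintro ⟨x, y⟩
    show (x, s x (y + c x * shr_b y)) = (x, y)
    rw [hinj x _ _ (hs x (y + c x * shr_b y))]
  · rintro ⟨x, y⟩
    show (x, s x y + c x * shr_b (s x y)) = (x, y)
    rw [hs]
  · have hb := shr_b_cont
    fun_prop
  · exact continuous_fst.prodMk hcs

/-- vertical shears of the complex plane -/
theorem shr_shearC {c : ℝ → ℝ} (hc : Continuous c) (h8 : ∀ x, |c x| ≤ 1 / 8) :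
    ∃ A : ℂ ≃ₜ ℂ, ∀ x y : ℝ, A ⟨x, y⟩ = ⟨x, y + c x * shr_b y⟩ := by
  obtain ⟨A, hA⟩ := shr_shear hc h8
  refine ⟨(Complex.equivRealProdCLM.toHomeomorph.trans A).trans
    Complex.equivRealProdCLM.toHomeomorph.symm, fun x y => ?_⟩
  show Complex.equivRealProdCLM.symm (A (x, y)) = _
  rw [hA]
  rfl

/-- horizontal shears of the complex plane -/
theorem shr_shearH {c : ℝ → ℝ} (hc : Continuous c) (h8 : ∀ x, |c x| ≤ 1 / 8) :
    ∃ A : ℂ ≃ₜ ℂ, ∀ x y : ℝ, A ⟨x, y⟩ = ⟨x + c y * shr_b x, y⟩ := by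
  obtain ⟨A, hA⟩ := shr_shear hc h8
  refine ⟨((Complex.equivRealProdCLM.toHomeomorph.trans (Homeomorph.prodComm ℝ ℝ)).trans A).trans
    ((Homeomorph.prodComm ℝ ℝ).trans Complex.equivRealProdCLM.toHomeomorph.symm), fun x y => ?_⟩
  show Complex.equivRealProdCLM.symm (Prod.swap (A (y, x))) = _
  rw [hA]
  rfl

/-- the inverse of a continuous injective map on a compact set -/
theorem shr_inv {K : Set ℝ} (hK : IsCompact K) {φ : ℝ → ℝ} (hφ : ContinuousOn φ K)
    (hi : InjOn φ K) : ∃ ψ : ℝ → ℝ, ContinuousOn ψ (φ '' K) ∧ ∀ x ∈ K, ψ (φ x) = x := by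
  classical
  have h1 : ∀ x ∈ K, Function.invFunOn φ K (φ x) = x := fun x hx => hi.leftInvOn_invFunOn hx
  refine ⟨Function.invFunOn φ K, ?_, h1⟩
  rw [continuousOn_iff_isClosed]
  intro t ht
  have h2 : IsCompact (φ '' (K ∩ t)) :=
    (hK.inter_right ht).image_of_continuousOn (hφ.mono inter_subset_left)
  refine ⟨φ '' (K ∩ t), h2.isClosed, ?_⟩
  apply Subset.antisymm
  · rintro _ ⟨h3, ⟨x, hx, rfl⟩⟩
    have h4 : Function.invFunOn φ K (φ x) ∈ t := h3
    rw [h1 x hx] at h4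
    exact ⟨⟨x, ⟨hx, h4⟩, rfl⟩, ⟨x, hx, rfl⟩⟩
  · rintro _ ⟨⟨x, ⟨hx, hxt⟩, rfl⟩, -⟩
    refine ⟨?_, ⟨x, hx, rfl⟩⟩
    show Function.invFunOn φ K (φ x) ∈ t
    rw [h1 x hx]
    exact hxt

theorem shr_cexpi : cexpi (-(Real.pi / 2)) = -Complex.I := by
  unfold cexpi
  have h : (((-(Real.pi / 2) : ℝ)) : ℂ) * Complex.I = -((Real.pi : ℂ) / 2 * Complex.I) := by
    push_cast
    ring
  rw [h, Complex.exp_neg, Complex.exp_pi_div_two_mul_I, Complex.inv_I]

/-- two shears and a rotation -/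
theorem shr_core (hPOL : St_POL) {K I K' I' : Set ℝ} (hK : IsCompact K) (hI : I ⊆ K)
    (hK' : IsCompact K') (hI' : I' ⊆ K')
    (hK8 : ∀ x ∈ K, |x| ≤ 1 / 8) (hK8' : ∀ x ∈ K', |x| ≤ 1 / 8)
    (iso : ∀ i ∈ I, ∃ ε > 0, ∀ x ∈ K, |x - i| < ε → x = i)
    (iso' : ∀ i ∈ I', ∃ ε > 0, ∀ x ∈ K', |x - i| < ε → x = i)
    {φ : ℝ → ℝ} (hφ : ContinuousOn φ K) (hinj : InjOn φ K) (hφK : φ '' K = K')
    (hφI : ∀ i ∈ I, φ i ∈ I') :
    ∃ Φ : ℂ ≃ₜ ℂ, (∀ z, z ∉ OD → Φ z = z) ∧ (∀ x ∈ K, Φ (x : ℂ) = (φ x : ℝ)) ∧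
      ∀ i ∈ I, ∃ ε > 0, ∀ z ∈ closedBall (i : ℂ) ε, Φ z = (φ i : ℝ) - Complex.I * (z - i) := by
  have hφ' : ∀ x ∈ K, φ x ∈ K' := fun x hx => by
    rw [← hφK]
    exact ⟨x, hx, rfl⟩
  obtain ⟨f, fc, f8, fK, fI⟩ := shr_ext hK hI hK8 iso hφ (fun x hx => hK8' _ (hφ' x hx))
  obtain ⟨ψ, ψc, ψφ⟩ := shr_inv hK hφ hinj
  rw [hφK] at ψc
  have hψ8 : ∀ y ∈ K', |ψ y| ≤ 1 / 8 := by
    intro y hy
    rw [← hφK] at hy
    obtain ⟨x, hx, rfl⟩ := hy
    rw [ψφ x hx]
    exact hK8 x hx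
  obtain ⟨g, gc, g8, gK, gI⟩ := shr_ext hK' hI' hK8' iso' ψc hψ8
  have hfb : ∀ x, |f x * shr_b x| ≤ 1 / 8 := by
    intro x
    rw [abs_mul]
    exact (mul_le_of_le_one_right (abs_nonneg _) (shr_b_abs x)).trans (f8 x)
  have hgb : ∀ x, |-(g x * shr_b x)| ≤ 1 / 8 := by
    intro x
    rw [abs_neg, abs_mul]
    exact (mul_le_of_le_one_right (abs_nonneg _) (shr_b_abs x)).trans (g8 x)
  obtain ⟨A, hA⟩ := shr_shearC (c := fun x => f x * shr_b x) (fc.mul shr_b_cont) hfb
  obtain ⟨B, hB⟩ := shr_shearH (c := fun x => -(g x * shr_b x)) (gc.mul shr_b_cont).neg hgb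
  obtain ⟨R, hR1, hR2⟩ := hPOL 0 (3 / 4) (3 / 4) 1 (-(Real.pi / 2)) (by norm_num) (by norm_num)
    (by norm_num) (by norm_num)
  have hR : ∀ z ∈ closedBall (0 : ℂ) (3 / 4), R z = -Complex.I * z := by
    intro z hz
    rw [hR2 z hz, shr_cexpi]
    simp
  -- the computation near a point
  have key : ∀ x y : ℝ, ∀ u v : ℝ, |x| ≤ 1 / 8 → |y| ≤ 1 / 8 → |u| ≤ 1 / 16 → |v| ≤ 1 / 16 →
      f (x + u) = y → g (y + v) = x → R (B (A ⟨x + u, v⟩)) = ⟨y + v, -u⟩ := by
    intro x y u v hx hy hu hv h1 h2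
    have b1 : shr_b (x + u) = 1 := shr_b_one ((abs_add_le _ _).trans (by linarith))
    have b2 : shr_b v = 1 := shr_b_one (by linarith)
    have b3 : shr_b (y + v) = 1 := shr_b_one ((abs_add_le _ _).trans (by linarith))
    have e1 : A ⟨x + u, v⟩ = ⟨x + u, y + v⟩ := by
      rw [hA, b1, b2, h1]
      refine Complex.ext rfl ?_
      show v + y * 1 * 1 = y + v
      ring
    have e2 : B ⟨x + u, y + v⟩ = ⟨u, y + v⟩ := by
      rw [hB, b1, b3, h2]
      refine Complex.ext ?_ rfl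
      show x + u + -(x * 1) * 1 = u
      ring
    rw [e1, e2, hR]
    · refine Complex.ext ?_ ?_
      · simp
      · simp
    · rw [mem_closedBall_zero_iff]
      refine (Complex.norm_le_abs_re_add_abs_im _).trans ?_
      show |u| + |y + v| ≤ 3 / 4
      have := abs_add_le y v
      linarith
  refine ⟨(A.trans B).trans R, ?_, ?_, ?_⟩
  · intro z hz
    show R (B (A z)) = z
    obtain ⟨x, y⟩ := z
    have hxy : 1 / 2 ≤ |x| ∨ 1 / 2 ≤ |y| := by
      by_contra hc
      push Not at hc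
      apply hz
      rw [mem_ball_zero_iff]
      refine (Complex.norm_le_abs_re_add_abs_im _).trans_lt ?_
      show |x| + |y| < 1
      linarith [hc.1, hc.2]
    have e1 : A ⟨x, y⟩ = ⟨x, y⟩ := by
      rw [hA]
      refine Complex.ext rfl ?_
      show y + f x * shr_b x * shr_b y = y
      rcases hxy with h | h
      · rw [shr_b_zero h]
        ring
      · rw [shr_b_zero h]
        ring
    have e2 : B ⟨x, y⟩ = ⟨x, y⟩ := by
      rw [hB]
      refine Complex.ext ?_ rfl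
      show x + -(g y * shr_b y) * shr_b x = x
      rcases hxy with h | h
      · rw [shr_b_zero h]
        ring
      · rw [shr_b_zero h]
        ring
    rw [e1, e2]
    exact hR1 _ hz
  · intro x hx
    have h1 := key x (φ x) 0 0 (hK8 x hx) (hK8' _ (hφ' x hx)) (by norm_num) (by norm_num)
      (by rw [add_zero]; exact fK x hx) (by rw [add_zero, gK _ (hφ' x hx)]; exact ψφ x hx)
    rw [add_zero, add_zero, neg_zero] at h1
    exact h1
  · intro i hi
    have hiK := hI hi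
    obtain ⟨ε1, hε1, h1⟩ := fI i hi
    obtain ⟨ε2, hε2, h2⟩ := gI (φ i) (hφI i hi)
    refine ⟨min (1 / 16) (min ε1 ε2), lt_min (by norm_num) (lt_min hε1 hε2), fun z hz => ?_⟩
    rw [mem_closedBall, dist_eq_norm] at hz
    have hre : |z.re - i| ≤ min (1 / 16) (min ε1 ε2) := by
      refine le_trans ?_ hz
      have := Complex.abs_re_le_norm (z - i)
      simpa using this
    have him : |z.im| ≤ min (1 / 16) (min ε1 ε2) := by
      refine le_trans ?_ hz
      have := Complex.abs_im_le_norm (z - i)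
      simpa using this
    have m1 : min (1 / 16) (min ε1 ε2) ≤ 1 / 16 := min_le_left _ _
    have m2 : min (1 / 16) (min ε1 ε2) ≤ ε1 := (min_le_right _ _).trans (min_le_left _ _)
    have m3 : min (1 / 16) (min ε1 ε2) ≤ ε2 := (min_le_right _ _).trans (min_le_right _ _)
    have h3 := key i (φ i) (z.re - i) z.im (hK8 i hiK) (hK8' _ (hφ' i hiK)) (hre.trans m1)
      (him.trans m1) (by
        refine h1 _ ?_
        rw [add_sub_cancel]
        exact hre.trans m2) (by
        rw [h2 _ (by rw [add_sub_cancel_left]; exact him.trans m3)]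
        exact ψφ i hiK)
    rw [add_sub_cancel] at h3
    show R (B (A z)) = _
    have h4 : R (B (A z)) = ⟨φ i + z.im, -(z.re - i)⟩ := h3
    rw [h4]
    refine Complex.ext ?_ ?_
    · simp
    · simp

/-- a homeomorphism between compact subsets of the line extends to the plane -/
theorem thm_SHR (hPOL : St_POL) : St_SHR := by
  intro F I F' I' φ hK hK' h8 h8' hFI hFI' iso iso' hφ hinj hF hI
  have hφK : φ '' (F ∪ I) = F' ∪ I' := by rw [image_union, hF, hI]
  have hφI : ∀ i ∈ I, φ i ∈ I' := fun i hi => by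
    rw [← hI]
    exact ⟨i, hi, rfl⟩
  obtain ⟨Φ, p1, p2, p3⟩ := shr_core hPOL hK subset_union_right hK' subset_union_right h8 h8' iso
    iso' hφ hinj hφK hφI
  obtain ⟨Ψ, q1, q2, q3⟩ := shr_core hPOL hK' subset_union_right hK' subset_union_right h8' h8' iso'
    iso' (φ := id) continuousOn_id (injOn_id _) (image_id _) (fun i hi => hi)
  refine ⟨((Φ.trans Ψ).trans Ψ).trans Ψ, ?_, ?_, ?_⟩
  · intro z hz
    show Ψ (Ψ (Ψ (Φ z))) = z
    rw [p1 z hz, q1 z hz, q1 z hz, q1 z hz]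
  · intro x hx
    show Ψ (Ψ (Ψ (Φ (x : ℂ)))) = _
    have h1 : φ x ∈ F' ∪ I' := by
      rw [← hφK]
      exact ⟨x, hx, rfl⟩
    have h2 : Ψ ((φ x : ℝ) : ℂ) = ((φ x : ℝ) : ℂ) := q2 _ h1
    rw [p2 x hx, h2, h2, h2]
  · intro i hi
    obtain ⟨ε1, hε1, h1⟩ := p3 i hi
    obtain ⟨ε2, hε2, h2⟩ := q3 (φ i) (hφI i hi)
    refine ⟨min ε1 ε2, lt_min hε1 hε2, fun z hz => ?_⟩
    rw [mem_closedBall, dist_eq_norm] at hz
    have hz1 : z ∈ closedBall (i : ℂ) ε1 := by
      rw [mem_closedBall, dist_eq_norm]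
      exact hz.trans (min_le_left _ _)
    have step : ∀ w : ℂ, ‖w‖ ≤ ε2 → Ψ (((φ i : ℝ) : ℂ) + w) = ((φ i : ℝ) : ℂ) - Complex.I * w := by
      intro w hw
      have h3 := h2 (((φ i : ℝ) : ℂ) + w) (by
        rw [mem_closedBall, dist_eq_norm, add_sub_cancel_left]
        exact hw)
      rw [h3, add_sub_cancel_left]
      rfl
    have hn : ‖z - i‖ ≤ ε2 := hz.trans (min_le_right _ _)
    show Ψ (Ψ (Ψ (Φ z))) = _
    have n1 : ‖-(Complex.I * (z - i))‖ ≤ ε2 := by
      rw [norm_neg, norm_mul, Complex.norm_I, one_mul]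
      exact hn
    have n2 : ‖-(Complex.I * -(Complex.I * (z - i)))‖ ≤ ε2 := by
      rw [norm_neg, norm_mul, Complex.norm_I, one_mul]
      exact n1
    have n3 : ‖-(Complex.I * -(Complex.I * -(Complex.I * (z - i))))‖ ≤ ε2 := by
      rw [norm_neg, norm_mul, Complex.norm_I, one_mul]
      exact n2
    rw [h1 z hz1, sub_eq_add_neg, step _ n1, sub_eq_add_neg, step _ n2, sub_eq_add_neg, step _ n3]
    have hI2 : Complex.I * Complex.I = -1 := Complex.I_mul_I
    linear_combination (((Complex.I * Complex.I) - 1) * (z - i)) * hI2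

end Pool.Agent.SRP
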