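import Pool.Agent.SRP.StD

set_option autoImplicit false
set_option linter.unusedVariables false

/-! # SRP, SONE: two arcs and only one free circle -/

namespace Pool.Agent.SRP

open Set Metric Filter Topology Pool.Agent.SRF

theorem thm_SONE (hCFIN : St_CFIN) (hBCN : St_BCN) (hRED : St_RED) (hLD : St_LD) : St_SONE := by
  intro X _ _ t p L Bd u e a b c d hFP hab hbc hcd hda hAtt
  obtain ⟨C, hOk, hF, hT, hP, hO, q, hPres, hqu, hBd⟩ := hFP
  -- the only free centre
  obtain ⟨i, hi⟩ := Set.ncard_eq_one.1 hO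
  have hiI : i ∈ {j ∈ C.I | C.lab j = Lab.O} := by
    rw [hi]
    exact Set.mem_singleton i
  have hFree : C.FreeBd = sphere ((i : ℝ) : ℂ) (C.rad i / 2) := by
    unfold Conf.FreeBd
    rw [hi, Set.biUnion_singleton]
  obtain ⟨L₀, W, B₁, u₁, q₁, hL, hLW, hL₀, hc1, hi1, hW, hq1u, hq1q, hB₁, hdis, hBL, hBu, hrep⟩ :=
    hRED.1 X C L q u hOk hF hPres hqu i hiI.1 hiI.2
  have hBdB : Bd = B₁ := by
    rw [hBd, hB₁, hFree]
  have hrad : 0 < C.rad i := hOk.pos i hiI.1
  have hsph : q₁ '' sphere 0 (1 / 4) = B₁ := by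
    rw [hB₁]
    ext x
    constructor
    · rintro ⟨w, hw, rfl⟩
      have hw' : ‖w‖ = 1 / 4 := by simpa using hw
      have hz : (4 * w : ℂ) ∈ UC := by
        show (4 * w : ℂ) ∈ sphere (0 : ℂ) 1
        rw [mem_sphere_zero_iff_norm, norm_mul, hw']
        norm_num
      refine ⟨(i : ℂ) + (C.rad i / 2 : ℝ) * (4 * w), ?_, ?_⟩
      · rw [mem_sphere_iff_norm, add_sub_cancel_left, norm_mul, norm_mul, hw', Complex.norm_real,
          Real.norm_of_nonneg (by linarith)]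
        norm_num
      · rw [← hq1q _ hz]
        congr 1
        ring
    · rintro ⟨y, hy, rfl⟩
      have hy' : ‖y - (i : ℂ)‖ = C.rad i / 2 := by
        rwa [mem_sphere_iff_norm] at hy
      have hne : ((C.rad i / 2 : ℝ) : ℂ) ≠ 0 := by
        rw [Complex.ofReal_ne_zero]
        linarith
      have hz : (y - (i : ℂ)) / ((C.rad i / 2 : ℝ) : ℂ) ∈ UC := by
        show (y - (i : ℂ)) / ((C.rad i / 2 : ℝ) : ℂ) ∈ sphere (0 : ℂ) 1
        rw [mem_sphere_zero_iff_norm, norm_div, hy', Complex.norm_real,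
          Real.norm_of_nonneg (by linarith)]
        exact div_self (by linarith)
      refine ⟨(y - (i : ℂ)) / ((C.rad i / 2 : ℝ) : ℂ) / 4, ?_, ?_⟩
      · rw [mem_sphere_zero_iff_norm, norm_div]
        have h1 : ‖(y - (i : ℂ)) / ((C.rad i / 2 : ℝ) : ℂ)‖ = 1 := by
          have h2 : (y - (i : ℂ)) / ((C.rad i / 2 : ℝ) : ℂ) ∈ sphere (0 : ℂ) 1 := hz
          rwa [mem_sphere_zero_iff_norm] at h2
        rw [h1]
        norm_num
      · rw [hq1q _ hz]
        congr 1
        field_simp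
        ring
  have hAnn : IsAnn W B₁ u₁ := ⟨q₁, hc1, hi1, hW, hsph, hq1u⟩
  have hB₁W : B₁ ⊆ W := by
    rw [← hsph, ← hW]
    apply Set.image_mono
    intro z hz
    have hz' : ‖z‖ = 1 / 4 := by simpa using hz
    show 1 / 4 ≤ ‖z‖ ∧ ‖z‖ ≤ 1
    rw [hz']
    norm_num
  have hWL : W ⊆ L := by
    rw [hL]
    exact Set.subset_union_right
  have hmeet := hAtt.meet
  have hAtt' : AttTo W B₁ e (carc a b ∪ carc c d) := by
    refine ⟨hAtt.cont, hAtt.inj, ?_, ?_⟩
    · apply Set.Subset.antisymm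
      · rw [← hmeet]
        exact Set.inter_subset_inter_right _ hWL
      · intro x hx
        have h1 : x ∈ e '' CD ∩ L := by rw [hmeet]; exact hx
        have h2 : x ∈ Bd := hAtt.bd hx
        rw [hBdB] at h2
        exact ⟨h1.1, hB₁W h2⟩
    · rw [← hBdB]
      exact hAtt.bd
  have hW' : (W ∪ e '' CD) ∩ L₀ ⊆ u₁ '' UC := by
    rintro x ⟨hx | hx, hxL⟩
    · rw [← hLW]
      exact ⟨hxL, hx⟩
    · exfalso
      have h1 : x ∈ e '' CD ∩ L := ⟨hx, by rw [hL]; exact Or.inl hxL⟩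
      rw [hmeet] at h1
      have h2 : x ∈ Bd := hAtt.bd h1
      rw [hBdB] at h2
      exact Set.disjoint_left.1 hdis h2 hxL
  have hLL : L₀ ∪ (W ∪ e '' CD) = L ∪ e '' CD := by
    rw [hL, Set.union_assoc]
  have hBB : (q '' C.FreeBd) \ B₁ = ∅ := by
    rw [← hBd, hBdB, Set.sdiff_self]
  have hres := hLD X W B₁ u₁ e a b c d hAnn hab hbc hcd hda hAtt'
  rw [← hBdB] at hres
  rcases hres with h | h
  · left
    have h1 := hrep 0 0 2 _ _ h hW'
    rw [hBB, Set.empty_union, hLL, hT, hP, hO] at h1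
    exact h1
  · right
    have h1 := hrep 0 1 1 _ _ h hW'
    rw [hBB, Set.empty_union, hLL, hT, hP, hO] at h1
    exact h1

end Pool.Agent.SRP
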