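import Pool.Agent.SRP.StE

/-! # SRP/STDC (helper21): standard finite configurations -/

set_option autoImplicit false

open Set Metric Filter Topology Pool.Agent.SRF

namespace Pool.Agent.SRP

/-- the centres -/
noncomputable def stdc_c (n k : ℕ) : ℝ := -1 + 2 * ((k : ℝ) + 1) / ((n : ℝ) + 1)

open Classical in
/-- the standard configurations -/
noncomputable def stdc_S (t p : ℕ) : Conf where
  F := ∅
  I := stdc_c (t + p) '' {k | k < t + p}
  rad := fun _ => 1 / (2 * (((t + p : ℕ) : ℝ) + 1))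
  lab := fun x => if x < stdc_c (t + p) t then Lab.T else Lab.P

theorem stdc_diff (n k l : ℕ) :
    stdc_c n k - stdc_c n l = 2 * ((k : ℝ) - l) / ((n : ℝ) + 1) := by
  unfold stdc_c
  ring

theorem stdc_lt (n k l : ℕ) : stdc_c n k < stdc_c n l ↔ k < l := by
  have hn : (0 : ℝ) < (n : ℝ) + 1 := by positivity
  unfold stdc_c
  rw [add_lt_add_iff_left, div_lt_div_iff_of_pos_right hn]
  constructor
  · intro h
    have : (k : ℝ) < l := by linarith
    exact_mod_cast this
  · intro h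
    have : (k : ℝ) < l := by exact_mod_cast h
    linarith

theorem stdc_inj (n : ℕ) : Function.Injective (stdc_c n) := by
  intro k l h
  rcases lt_trichotomy k l with h1 | h1 | h1
  · exact absurd h ((stdc_lt n k l).2 h1).ne
  · exact h1
  · exact absurd h.symm ((stdc_lt n l k).2 h1).ne

theorem stdc_ok (t p : ℕ) : (stdc_S t p).Ok := by
  have hn : (0 : ℝ) < ((t + p : ℕ) : ℝ) + 1 := by positivity
  have hfin : (stdc_S t p).I.Finite := (Set.finite_lt_nat (t + p)).image _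
  have hr : (0 : ℝ) < 1 / (2 * (((t + p : ℕ) : ℝ) + 1)) := by positivity
  refine ⟨isClosed_empty, ?_, ?_, ?_, ?_, ?_, ?_, ?_⟩
  · show IsCompact (∅ ∪ (stdc_S t p).I)
    rw [empty_union]
    exact hfin.isCompact
  · exact isTotallyDisconnected_empty
  · intro x hx
    exact absurd hx (notMem_empty x)
  · intro i _
    exact hr
  · rintro _ ⟨k, hk, rfl⟩
    have hk' : ((k : ℝ)) + 1 ≤ ((t + p : ℕ) : ℝ) := by
      have : k + 1 ≤ t + p := hk
      exact_mod_cast this
    have hk0 : (0 : ℝ) ≤ k := Nat.cast_nonneg k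
    show |stdc_c (t + p) k| + 1 / (2 * (((t + p : ℕ) : ℝ) + 1)) < 1
    have e1 : 1 / (2 * (((t + p : ℕ) : ℝ) + 1)) = (1 / 2) / (((t + p : ℕ) : ℝ) + 1) := by
      field_simp
    have e2 : 2 * ((k : ℝ) + 1) / (((t + p : ℕ) : ℝ) + 1) ≥ 2 / (((t + p : ℕ) : ℝ) + 1) :=
      div_le_div_of_nonneg_right (by linarith) hn.le
    have e3 : 2 * ((k : ℝ) + 1) / (((t + p : ℕ) : ℝ) + 1) ≤ 2 - 2 / (((t + p : ℕ) : ℝ) + 1) := by
      rw [div_le_iff₀ hn, sub_mul, div_mul_cancel₀ _ hn.ne']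
      linarith
    have e4 : 0 < 1 / (((t + p : ℕ) : ℝ) + 1) := by positivity
    have e5 : (2 : ℝ) / (((t + p : ℕ) : ℝ) + 1) = 2 * (1 / (((t + p : ℕ) : ℝ) + 1)) := by ring
    have e6 : (1 / 2 : ℝ) / (((t + p : ℕ) : ℝ) + 1) = 1 / 2 * (1 / (((t + p : ℕ) : ℝ) + 1)) := by
      ring
    have e7 : |stdc_c (t + p) k| ≤ 1 - 2 / (((t + p : ℕ) : ℝ) + 1) := by
      unfold stdc_c
      rw [abs_le]
      constructor <;> linarith
    rw [e1, e6]
    rw [e5] at e7
    linarith
  · intro i _ x hx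
    exact absurd hx (notMem_empty x)
  · rintro _ ⟨k, hk, rfl⟩ _ ⟨l, hl, rfl⟩ hkl
    have hne : k ≠ l := fun h => hkl (by rw [h])
    show 1 / (2 * (((t + p : ℕ) : ℝ) + 1)) + 1 / (2 * (((t + p : ℕ) : ℝ) + 1)) <
      |stdc_c (t + p) k - stdc_c (t + p) l|
    rw [stdc_diff, abs_div, abs_of_pos hn, abs_mul, abs_two]
    have h1 : (1 : ℝ) ≤ |(k : ℝ) - l| := by
      have h2 : (1 : ℤ) ≤ |(k : ℤ) - l| := Int.one_le_abs (by omega)
      exact_mod_cast h2
    have e1 : 1 / (2 * (((t + p : ℕ) : ℝ) + 1)) + 1 / (2 * (((t + p : ℕ) : ℝ) + 1)) =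
        1 / (((t + p : ℕ) : ℝ) + 1) := by
      field_simp
      ring
    rw [e1]
    exact div_lt_div_of_pos_right (by linarith) hn

theorem stdc_T (t p : ℕ) : (stdc_S t p).cnt Lab.T = t := by
  have h : {i ∈ (stdc_S t p).I | (stdc_S t p).lab i = Lab.T} = stdc_c (t + p) '' {k | k < t} := by
    ext x
    constructor
    · rintro ⟨⟨k, hk, rfl⟩, h⟩
      refine ⟨k, ?_, rfl⟩
      by_contra hkt
      have h1 : (stdc_S t p).lab (stdc_c (t + p) k) = Lab.P := by
        show (if stdc_c (t + p) k < stdc_c (t + p) t then Lab.T else Lab.P) = Lab.P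
        rw [if_neg]
        rw [stdc_lt]
        exact hkt
      rw [h1] at h
      cases h
    · rintro ⟨k, hk, rfl⟩
      have hk' : k < t := hk
      refine ⟨⟨k, show k < t + p by omega, rfl⟩, ?_⟩
      show (if stdc_c (t + p) k < stdc_c (t + p) t then Lab.T else Lab.P) = Lab.T
      rw [if_pos]
      rw [stdc_lt]
      exact hk'
  unfold Conf.cnt
  rw [h, Set.ncard_image_of_injective _ (stdc_inj _)]
  have h2 : {k : ℕ | k < t} = ((Finset.range t : Finset ℕ) : Set ℕ) := by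
    ext k
    simp
  rw [h2, Set.ncard_coe_finset, Finset.card_range]

theorem stdc_P (t p : ℕ) : (stdc_S t p).cnt Lab.P = p := by
  have h : {i ∈ (stdc_S t p).I | (stdc_S t p).lab i = Lab.P} =
      stdc_c (t + p) '' {k | t ≤ k ∧ k < t + p} := by
    ext x
    constructor
    · rintro ⟨⟨k, hk, rfl⟩, h⟩
      refine ⟨k, ⟨?_, hk⟩, rfl⟩
      by_contra hkt
      have h1 : (stdc_S t p).lab (stdc_c (t + p) k) = Lab.T := by
        show (if stdc_c (t + p) k < stdc_c (t + p) t then Lab.T else Lab.P) = Lab.T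
        rw [if_pos]
        rw [stdc_lt]
        omega
      rw [h1] at h
      cases h
    · rintro ⟨k, ⟨hk1, hk2⟩, rfl⟩
      refine ⟨⟨k, hk2, rfl⟩, ?_⟩
      show (if stdc_c (t + p) k < stdc_c (t + p) t then Lab.T else Lab.P) = Lab.P
      rw [if_neg]
      rw [stdc_lt]
      omega
  unfold Conf.cnt
  rw [h, Set.ncard_image_of_injective _ (stdc_inj _)]
  have h2 : {k : ℕ | t ≤ k ∧ k < t + p} = ((Finset.Ico t (t + p) : Finset ℕ) : Set ℕ) := by
    ext k
    simp
  rw [h2, Set.ncard_coe_finset, Nat.card_Ico]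
  omega

theorem stdc_O (t p : ℕ) : (stdc_S t p).cnt Lab.O = 0 := by
  have h : {i ∈ (stdc_S t p).I | (stdc_S t p).lab i = Lab.O} = ∅ := by
    ext x
    constructor
    · rintro ⟨_, h⟩
      have h1 : (if x < stdc_c (t + p) t then Lab.T else Lab.P) = Lab.O := h
      split_ifs at h1
    · intro h
      exact absurd h (notMem_empty x)
  unfold Conf.cnt
  rw [h, Set.ncard_empty]

theorem thm_STDC (_hC : St_CFIN) (hE : St_EQV) : St_STDC := by
  refine ⟨stdc_S, fun t p => ⟨stdc_ok t p, rfl, stdc_T t p, stdc_P t p, stdc_O t p⟩, ?_⟩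
  intro t p t' p' hp hp' h
  refine hE _ _ (stdc_ok t p) (stdc_ok t' p') rfl rfl (stdc_O t p) (stdc_O t' p') (Or.inr ?_)
  rw [stdc_P, stdc_P, stdc_T, stdc_T]
  exact ⟨hp, hp', h⟩

end Pool.Agent.SRP
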