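import Pool.Agent.SRP.StD

set_option autoImplicit false

/-! # SRP STEP: attaching a disc to a compact piece. -/

open Set Metric Filter Topology Pool.Agent.SRF

namespace Pool.Agent.SRP


theorem step_norm_cexpi (t : ℝ) : ‖cexpi t‖ = 1 := by
  unfold cexpi
  exact Complex.norm_exp_ofReal_mul_I t

theorem step_cexpi_UC (t : ℝ) : cexpi t ∈ UC := by
  rw [mem_sphere_zero_iff_norm]
  exact step_norm_cexpi t

theorem step_carc_sub (a b : ℝ) : carc a b ⊆ CD := by
  rintro _ ⟨t, -, rfl⟩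
  exact sphere_subset_closedBall (step_cexpi_UC t)

theorem step_oarc_carc (a b : ℝ) : oarc a b ⊆ carc a b := image_mono Ioo_subset_Icc_self

theorem step_cexpi_cont : Continuous cexpi := by
  unfold cexpi
  fun_prop

theorem step_precon {X : Type} [TopologicalSpace X] (e : ℂ → X) (he : ContinuousOn e CD)
    (a b : ℝ) : IsPreconnected (e '' carc a b) := by
  refine IsPreconnected.image ?_ e (he.mono (step_carc_sub a b))
  exact isPreconnected_Icc.image _ step_cexpi_cont.continuousOn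

theorem step_UC_carc : UC = carc 0 (2 * Real.pi) := by
  apply Subset.antisymm
  · intro z hz
    rw [mem_sphere_zero_iff_norm] at hz
    have h1 : z = cexpi z.arg := by
      have := Complex.norm_mul_exp_arg_mul_I z
      rw [hz] at this
      simpa [cexpi] using this.symm
    by_cases h2 : 0 ≤ z.arg
    · exact ⟨z.arg, ⟨h2, by linarith [Complex.arg_le_pi z, Real.pi_pos]⟩, h1.symm⟩
    · refine ⟨z.arg + 2 * Real.pi, ⟨by linarith [Complex.neg_pi_lt_arg z, Real.pi_pos],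
        by linarith⟩, ?_⟩
      have h3 : cexpi (z.arg + 2 * Real.pi) = cexpi z.arg := by
        unfold cexpi
        push_cast
        rw [add_mul, Complex.exp_add, Complex.exp_two_pi_mul_I, mul_one]
      rw [h3]
      exact h1.symm
  · rintro _ ⟨t, -, rfl⟩
    exact step_cexpi_UC t

/-- A circle as an image of the unit circle. -/
theorem step_circle (c : ℂ) (r : ℝ) (hr : 0 < r) : sphere c r = (fun z : ℂ => c + r * z) '' UC := by
  ext w
  constructor
  · intro hw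
    rw [mem_sphere, dist_eq_norm] at hw
    have hrc : (r : ℂ) ≠ 0 := by exact_mod_cast hr.ne'
    refine ⟨(w - c) / r, ?_, ?_⟩
    · rw [mem_sphere_zero_iff_norm, norm_div, hw, Complex.norm_real, Real.norm_eq_abs,
        abs_of_pos hr, div_self hr.ne']
    · change c + r * ((w - c) / r) = w
      field_simp
      ring
  · rintro ⟨z, hz, rfl⟩
    rw [mem_sphere_zero_iff_norm] at hz
    rw [mem_sphere, dist_eq_norm]
    change ‖c + r * z - c‖ = r
    have h1 : c + r * z - c = r * z := by ring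
    rw [h1, norm_mul, hz, mul_one, Complex.norm_real, Real.norm_eq_abs, abs_of_pos hr]

theorem step_image_circle {X : Type} (q₁ q : ℂ → X) (c₁ c : ℂ) (r₁ r : ℝ) (h₁ : 0 < r₁)
    (h : 0 < r) (hq : ∀ z ∈ UC, q₁ (c₁ + r₁ * z) = q (c + r * z)) :
    q₁ '' sphere c₁ r₁ = q '' sphere c r := by
  rw [step_circle c₁ r₁ h₁, step_circle c r h, image_image, image_image]
  exact image_congr hq

theorem step_sub {S O : Set ℂ} (h : AttSet S O) : O ⊆ S ∧ S ⊆ CD := by
  cases h with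
  | one a b _ _ => exact ⟨step_oarc_carc a b, step_carc_sub a b⟩
  | two a b c d _ _ _ _ =>
    exact ⟨union_subset_union (step_oarc_carc a b) (step_oarc_carc c d),
      union_subset (step_carc_sub a b) (step_carc_sub c d)⟩
  | full => exact ⟨Subset.rfl, sphere_subset_closedBall⟩

/-- The case of one circle. -/
theorem step_one (hRED : St_RED) (X : Type) [TopologicalSpace X] [T2Space X] (C : Conf)
    (L : Set X) (q u e : ℂ → X) (S O : Set ℂ) (hC : C.Ok) (hF : C.F = ∅) (hP : Pres C L q)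
    (hu : ∀ z ∈ UC, q z = u z) (i : ℝ) (hi : i ∈ C.I) (hl : C.lab i = Lab.O)
    (hS : O ⊆ S) (ha : AttTo L (q '' C.FreeBd) e S)
    (hB : e '' S ⊆ q '' sphere (i : ℂ) (C.rad i / 2))
    (H : ∀ (W B : Set X) (u₁ : ℂ → X), IsAnn W B u₁ → AttTo W B e S →
      ∃ t₁ p₁ o₁ : ℕ, FinPres t₁ p₁ o₁ (W ∪ e '' CD) ((B ∪ e '' UC) \ e '' O) u₁) :
    ∃ t' p' o' : ℕ, FinPres t' p' o' (L ∪ e '' CD) ((q '' C.FreeBd ∪ e '' UC) \ e '' O) u := by
  obtain ⟨L₀, W, B₁, u₁, q₁, h1, h2, -, h4, h5, h6, h7, h8, h9, h10, -, -, h13⟩ :=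
    hRED.1 X C L q u hC hF hP hu i hi hl
  have hr := hC.pos i hi
  have hB1 : q₁ '' sphere 0 (1 / 4) = B₁ := by
    rw [h9]
    refine step_image_circle q₁ q 0 i (1 / 4) (C.rad i / 2) (by norm_num) (by linarith) ?_
    intro z hz
    rw [← h8 z hz]
    congr 1
    push_cast
    ring
  have hBW : B₁ ⊆ W := by
    rw [← hB1, ← h6]
    refine image_mono ?_
    intro z hz
    rw [mem_sphere_zero_iff_norm] at hz
    exact ⟨hz.ge, by rw [hz]; norm_num⟩
  have hBF : B₁ ⊆ q '' C.FreeBd := by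
    rw [h9]
    refine image_mono ?_
    intro z hz
    unfold Conf.FreeBd
    simp only [mem_iUnion]
    exact ⟨i, ⟨hi, hl⟩, hz⟩
  have hSB : e '' S ⊆ B₁ := by rw [h9]; exact hB
  have hWL : W ⊆ L := by rw [h1]; exact subset_union_right
  have hmeet : e '' CD ∩ W = e '' S := by
    apply Subset.antisymm
    · rw [← ha.meet]
      exact inter_subset_inter_right _ hWL
    · refine subset_inter ?_ (hSB.trans hBW)
      rw [← ha.meet]
      exact inter_subset_left
  obtain ⟨t₁, p₁, o₁, hfin⟩ := H W B₁ u₁ ⟨q₁, h4, h5, h6, hB1, h7⟩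
    ⟨ha.cont, ha.inj, hmeet, hSB⟩
  have h14 := h13 t₁ p₁ o₁ _ _ hfin (by
    rintro x ⟨hx | hx, hx'⟩
    · rw [← h2]; exact ⟨hx', hx⟩
    · exfalso
      have h15 : x ∈ e '' CD ∩ L := ⟨hx, by rw [h1]; exact Or.inl hx'⟩
      rw [ha.meet] at h15
      exact Set.disjoint_left.1 h10 (hSB h15) hx')
  have e1 : L₀ ∪ (W ∪ e '' CD) = L ∪ e '' CD := by rw [h1, union_assoc]
  have e2 : ((q '' C.FreeBd) \ B₁) ∪ ((B₁ ∪ e '' UC) \ e '' O) =
      (q '' C.FreeBd ∪ e '' UC) \ e '' O := by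
    have hOB : e '' O ⊆ B₁ := (image_mono hS).trans hSB
    ext x
    constructor
    · rintro (⟨hx, hx'⟩ | ⟨hx | hx, hx'⟩)
      · exact ⟨Or.inl hx, fun h => hx' (hOB h)⟩
      · exact ⟨Or.inl (hBF hx), hx'⟩
      · exact ⟨Or.inr hx, hx'⟩
    · rintro ⟨hx | hx, hx'⟩
      · by_cases h : x ∈ B₁
        · exact Or.inr ⟨Or.inl h, hx'⟩
        · exact Or.inl ⟨hx, h⟩
      · exact Or.inr ⟨Or.inr hx, hx'⟩
  rw [e1, e2] at h14
  exact ⟨_, _, _, h14⟩

theorem step_pants_free : pantsC.FreeBd = sphere (-(1 / 4)) (1 / 16) ∪ sphere (1 / 4) (1 / 16) := by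
  unfold Conf.FreeBd pantsC
  ext z
  simp only [mem_iUnion]
  constructor
  · rintro ⟨i, ⟨hi, -⟩, hz⟩
    rcases hi with rfl | hi
    · left
      have e1 : ((-(1 / 4) : ℝ) : ℂ) = -(1 / 4) := by push_cast; ring
      have e2 : (1 / 8 : ℝ) / 2 = 1 / 16 := by norm_num
      rw [e1, e2] at hz
      exact hz
    · right
      rw [mem_singleton_iff] at hi
      subst hi
      have e1 : ((1 / 4 : ℝ) : ℂ) = 1 / 4 := by push_cast; ring
      have e2 : (1 / 8 : ℝ) / 2 = 1 / 16 := by norm_num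
      rw [e1, e2] at hz
      exact hz
  · rintro (hz | hz)
    · refine ⟨-(1 / 4), ⟨Or.inl rfl, trivial⟩, ?_⟩
      have e1 : ((-(1 / 4) : ℝ) : ℂ) = -(1 / 4) := by push_cast; ring
      have e2 : (1 / 8 : ℝ) / 2 = 1 / 16 := by norm_num
      rw [e1, e2]
      exact hz
    · refine ⟨1 / 4, ⟨Or.inr rfl, trivial⟩, ?_⟩
      have e1 : ((1 / 4 : ℝ) : ℂ) = 1 / 4 := by push_cast; ring
      have e2 : (1 / 8 : ℝ) / 2 = 1 / 16 := by norm_num
      rw [e1, e2]
      exact hz

/-- The case of two circles. -/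
theorem step_two (hRED : St_RED) (hLP : St_LP) (X : Type) [TopologicalSpace X] [T2Space X]
    (C : Conf) (L : Set X) (q u e : ℂ → X) (a b c d : ℝ) (hC : C.Ok) (hF : C.F = ∅)
    (hP : Pres C L q) (hu : ∀ z ∈ UC, q z = u z) (i j : ℝ) (hi : i ∈ C.I) (hj : j ∈ C.I)
    (hij : i ≠ j) (hli : C.lab i = Lab.O) (hlj : C.lab j = Lab.O)
    (hab : a < b) (hbc : b < c) (hcd : c < d) (hda : d < a + 2 * Real.pi)
    (ha : AttTo L (q '' C.FreeBd) e (carc a b ∪ carc c d))
    (hBi : e '' carc a b ⊆ q '' sphere (i : ℂ) (C.rad i / 2))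
    (hBj : e '' carc c d ⊆ q '' sphere (j : ℂ) (C.rad j / 2)) :
    ∃ t' p' o' : ℕ, FinPres t' p' o' (L ∪ e '' CD)
      ((q '' C.FreeBd ∪ e '' UC) \ e '' (oarc a b ∪ oarc c d)) u := by
  obtain ⟨L₀, W, B₁, B₂, u₁, q₁, h1, h2, -, h4, h5, h6, h7, h8, h8', h9, h9', h10, -, -, h13⟩ :=
    hRED.2 X C L q u hC hF hP hu i hi j hj hij hli hlj
  have hri := hC.pos i hi
  have hrj := hC.pos j hj
  have hB1 : q₁ '' sphere (-(1 / 4)) (1 / 16) = B₁ := by
    rw [h9]
    refine step_image_circle q₁ q (-(1 / 4)) i (1 / 16) (C.rad i / 2) (by norm_num)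
      (by linarith) ?_
    intro z hz
    rw [← h8 z hz]
    congr 1
    push_cast
    ring
  have hB2 : q₁ '' sphere (1 / 4) (1 / 16) = B₂ := by
    rw [h9']
    refine step_image_circle q₁ q (1 / 4) j (1 / 16) (C.rad j / 2) (by norm_num)
      (by linarith) ?_
    intro z hz
    rw [← h8' z hz]
    congr 1
    push_cast
    ring
  have hBB : q₁ '' pantsC.FreeBd = B₁ ∪ B₂ := by
    rw [step_pants_free, image_union, hB1, hB2]
  have hFD : pantsC.FreeBd ⊆ pantsC.Dom := by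
    intro z hz
    rw [step_pants_free] at hz
    have key : ∀ t : ℝ, z ∈ sphere (t : ℂ) (1 / 16) → |t| = 1 / 4 → z ∈ closedBall (0 : ℂ) 1 := by
      intro t ht h
      rw [mem_sphere, dist_eq_norm] at ht
      rw [mem_closedBall, dist_eq_norm, sub_zero]
      have h3 : z = (z - (t : ℂ)) + (t : ℂ) := by ring
      rw [h3]
      refine (norm_add_le _ _).trans ?_
      rw [ht, Complex.norm_real, Real.norm_eq_abs, h]
      norm_num
    have e1 : ((-(1 / 4) : ℝ) : ℂ) = -(1 / 4) := by push_cast; ring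
    have e2 : ((1 / 4 : ℝ) : ℂ) = 1 / 4 := by push_cast; ring
    refine ⟨?_, ?_⟩
    · rcases hz with hz | hz
      · exact key (-(1 / 4)) (by rw [e1]; exact hz) (by norm_num)
      · exact key (1 / 4) (by rw [e2]; exact hz) (by norm_num)
    · rintro (h | h)
      · obtain ⟨x, hx, -⟩ := h
        exact hx
      · simp only [mem_iUnion] at h
        obtain ⟨k, hk, h⟩ := h
        have h3 : z ∈ ball (k : ℂ) (1 / 16) := by
          have h4 : pantsC.holes k = ball (k : ℂ) (1 / 8 / 2) := rfl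
          rw [h4] at h
          have e3 : (1 / 8 : ℝ) / 2 = 1 / 16 := by norm_num
          rw [e3] at h
          exact h
        have hk' : k = -(1 / 4) ∨ k = 1 / 4 := hk
        have far : ∀ s t : ℝ, |s - t| = 1 / 2 → z ∈ sphere (s : ℂ) (1 / 16) →
            z ∈ ball (t : ℂ) (1 / 16) → False := by
          intro s t hst hs ht
          rw [mem_sphere, dist_eq_norm] at hs
          rw [mem_ball, dist_eq_norm] at ht
          have h5 : ((s - t : ℝ) : ℂ) = (z - (t : ℂ)) - (z - (s : ℂ)) := by push_cast; ring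
          have h6 : |s - t| ≤ ‖z - (t : ℂ)‖ + ‖z - (s : ℂ)‖ := by
            rw [← Real.norm_eq_abs, ← Complex.norm_real, h5]
            exact norm_sub_le _ _
          linarith
        rw [← e1, ← e2] at hz
        rcases hz with hz | hz <;> rcases hk' with rfl | rfl
        · rw [mem_sphere] at hz; rw [mem_ball] at h3; linarith
        · exact far (-(1 / 4)) (1 / 4) (by norm_num) hz h3
        · exact far (1 / 4) (-(1 / 4)) (by norm_num) hz h3
        · rw [mem_sphere] at hz; rw [mem_ball] at h3; linarith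
  have hBW : B₁ ∪ B₂ ⊆ W := by
    rw [← hBB, ← h6]
    exact image_mono hFD
  have hBF : B₁ ∪ B₂ ⊆ q '' C.FreeBd := by
    rw [h9, h9', ← image_union]
    refine image_mono ?_
    rintro z (hz | hz)
    · unfold Conf.FreeBd
      simp only [mem_iUnion]
      exact ⟨i, ⟨hi, hli⟩, hz⟩
    · unfold Conf.FreeBd
      simp only [mem_iUnion]
      exact ⟨j, ⟨hj, hlj⟩, hz⟩
  have hSB : e '' (carc a b ∪ carc c d) ⊆ B₁ ∪ B₂ := by
    rw [h9, h9', image_union]
    exact union_subset_union hBi hBj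
  have hWL : W ⊆ L := by rw [h1]; exact subset_union_right
  have hmeet : e '' CD ∩ W = e '' (carc a b ∪ carc c d) := by
    apply Subset.antisymm
    · rw [← ha.meet]
      exact inter_subset_inter_right _ hWL
    · refine subset_inter ?_ (hSB.trans hBW)
      rw [← ha.meet]
      exact inter_subset_left
  have hatt : AttTo (q₁ '' pantsC.Dom) (q₁ '' pantsC.FreeBd) e (carc a b ∪ carc c d) :=
    ⟨ha.cont, ha.inj, by rw [h6]; exact hmeet, by rw [hBB]; exact hSB⟩
  have hor := hLP X q₁ e a b c d h4 h5 hab hbc hcd hda hatt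
    (Or.inr ⟨by rw [hB1, h9]; exact hBi, by rw [hB2, h9']; exact hBj⟩)
  have hex : ∃ t₁ p₁ o₁ : ℕ, FinPres t₁ p₁ o₁ (W ∪ e '' CD)
      (((B₁ ∪ B₂) ∪ e '' UC) \ e '' (oarc a b ∪ oarc c d)) u₁ := by
    rw [h6, hBB] at hor
    have chg : ∀ (t₁ p₁ o₁ : ℕ) (V B : Set X), FinPres t₁ p₁ o₁ V B q₁ →
        FinPres t₁ p₁ o₁ V B u₁ := by
      rintro t₁ p₁ o₁ V B ⟨D, d1, d2, d3, d4, d5, q₂, d6, d7, d8⟩
      exact ⟨D, d1, d2, d3, d4, d5, q₂, d6, fun z hz => (d7 z hz).trans (h7 z hz), d8⟩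
    rcases hor with hor | hor
    · exact ⟨_, _, _, chg _ _ _ _ _ hor⟩
    · exact ⟨_, _, _, chg _ _ _ _ _ hor⟩
  obtain ⟨t₁, p₁, o₁, hfin⟩ := hex
  have h14 := h13 t₁ p₁ o₁ _ _ hfin (by
    rintro x ⟨hx | hx, hx'⟩
    · rw [← h2]; exact ⟨hx', hx⟩
    · exfalso
      have h15 : x ∈ e '' CD ∩ L := ⟨hx, by rw [h1]; exact Or.inl hx'⟩
      rw [ha.meet] at h15
      exact Set.disjoint_left.1 h10 (hSB h15) hx')
  have e1 : L₀ ∪ (W ∪ e '' CD) = L ∪ e '' CD := by rw [h1, union_assoc]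
  have e2 : ((q '' C.FreeBd) \ (B₁ ∪ B₂)) ∪
      (((B₁ ∪ B₂) ∪ e '' UC) \ e '' (oarc a b ∪ oarc c d)) =
      (q '' C.FreeBd ∪ e '' UC) \ e '' (oarc a b ∪ oarc c d) := by
    have hOB : e '' (oarc a b ∪ oarc c d) ⊆ B₁ ∪ B₂ :=
      (image_mono (union_subset_union (step_oarc_carc a b) (step_oarc_carc c d))).trans hSB
    ext x
    constructor
    · rintro (⟨hx, hx'⟩ | ⟨hx | hx, hx'⟩)
      · exact ⟨Or.inl hx, fun h => hx' (hOB h)⟩
      · exact ⟨Or.inl (hBF hx), hx'⟩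
      · exact ⟨Or.inr hx, hx'⟩
    · rintro ⟨hx | hx, hx'⟩
      · by_cases h : x ∈ B₁ ∪ B₂
        · exact Or.inr ⟨Or.inl h, hx'⟩
        · exact Or.inl ⟨hx, h⟩
      · exact Or.inr ⟨Or.inr hx, hx'⟩
  rw [e1, e2] at h14
  exact ⟨_, _, _, h14⟩

theorem thm_STEP (_hCFIN : St_CFIN) (hBCN : St_BCN) (hRED : St_RED) (hLA : St_LA) (hLB : St_LB)
    (hLD : St_LD) (hLP : St_LP) : St_STEP := by
  rintro X _ _ t p o L Bd u e S O ⟨C, hC, hF, -, -, -, q, hP, hu, rfl⟩ hSO hne ha
  have hb := (hBCN.1 X C L q hC hF hP).2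
  have hSsub := step_sub hSO
  cases hSO with
  | one a b hab hba =>
    obtain ⟨i, hi, hl, hB⟩ := hb _ ha.bd (hne.image e) (step_precon e ha.cont a b)
    refine step_one hRED X C L q u e _ _ hC hF hP hu i hi hl hSsub.1 ha hB ?_
    intro W B u₁ hW hWa
    exact ⟨0, 0, 1, (hBCN.2.2.2.2.1 X _ _ _).1 (hLB X W B u₁ e a b hW hab hba hWa)⟩
  | full =>
    obtain ⟨i, hi, hl, hB⟩ := hb _ ha.bd (hne.image e) (by
      rw [step_UC_carc]; exact step_precon e ha.cont _ _)
    refine step_one hRED X C L q u e _ _ hC hF hP hu i hi hl hSsub.1 ha hB ?_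
    intro W B u₁ hW hWa
    obtain ⟨h1, h2⟩ := hLA X W B u₁ e hW hWa
    refine ⟨0, 0, 0, ?_⟩
    have h3 : (B ∪ e '' UC) \ e '' UC = ∅ := by
      rw [h1, union_self, sdiff_self]
    rw [h3]
    exact h2
  | two a b c d hab hbc hcd hda =>
    have hne1 : (carc a b).Nonempty := ⟨cexpi a, a, ⟨le_refl _, hab.le⟩, rfl⟩
    have hne2 : (carc c d).Nonempty := ⟨cexpi c, c, ⟨le_refl _, hcd.le⟩, rfl⟩
    obtain ⟨i, hi, hli, hBi⟩ := hb (e '' carc a b)
      ((image_mono subset_union_left).trans ha.bd) (hne1.image e) (step_precon e ha.cont a b)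
    obtain ⟨j, hj, hlj, hBj⟩ := hb (e '' carc c d)
      ((image_mono subset_union_right).trans ha.bd) (hne2.image e) (step_precon e ha.cont c d)
    by_cases hij : i = j
    · subst hij
      have hB : e '' (carc a b ∪ carc c d) ⊆ q '' sphere (i : ℂ) (C.rad i / 2) := by
        rw [image_union]; exact union_subset hBi hBj
      refine step_one hRED X C L q u e _ _ hC hF hP hu i hi hli hSsub.1 ha hB ?_
      intro W B u₁ hW hWa
      rcases hLD X W B u₁ e a b c d hW hab hbc hcd hda hWa with h | h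
      · exact ⟨_, _, _, h⟩
      · exact ⟨_, _, _, h⟩
    · exact step_two hRED hLP X C L q u e a b c d hC hF hP hu i j hi hj hij hli hlj hab hbc
        hcd hda ha hBi hBj

end Pool.Agent.SRP
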