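import Pool.Agent.SRP.StD
import Pool.Agent.SRF.StC
import Pool.Agent.SRF.St6

set_option autoImplicit false

/-! # SRF, Part IV: models of connected surfaces, normal forms, classification
(statements; the proof of each is in its comment)

Every `St_X` is proved in `Pool/Agent/SRP/X.lean` as `theorem thm_X (hypotheses) : St_X`, with the
statements named in the comment (Needs) as hypotheses. Statements of Part II are written with their
full names `Pool.Agent.SRF.St_ATB`, ... (files `Pool/Agent/SRF/StB.lean`, `StC.lean`). -/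

open Set Metric Filter Topology Pool.Agent.SRF

namespace Pool.Agent.SRP

/-! ## Existence of models -/

section

variable {X : Type} [TopologicalSpace X]

/-- Stage of the construction: `K` minus the open disc `e '' OD` is presented by `C`, `q`. -/
structure Stage (e : ℂ → X) (K : Set X) (C : Conf) (q : ℂ → X) : Prop where
  ok : C.Ok
  fin : C.F = ∅
  pres : Pres C (K \ e '' OD) q
  circle : ∀ z ∈ UC, q z = e z
  bd : q '' C.FreeBd = frontier K

/-- `(C', q')` is obtained from `(C, q)` by changing the interior of the balls of the free holes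
only; the new free holes are at most half as large, and their collars are mapped outside `K`. -/
structure ExtS (K : Set X) (C : Conf) (q : ℂ → X) (C' : Conf) (q' : ℂ → X) : Prop where
  out : ∀ i, (∀ j ∈ C.I, C.lab j = Lab.O → C.rad j < |i - j|) → ((i ∈ C'.I ↔ i ∈ C.I) ∧
    (i ∈ C.I → C'.rad i = C.rad i ∧ C'.lab i = C.lab i))
  slot : ∀ j ∈ C.I, C.lab j = Lab.O → C'.Slot j (C.rad j)
  map : ∀ z ∈ C.Dom, (∀ j ∈ C.I, C.lab j = Lab.O → z ∉ ball (j : ℂ) (C.rad j)) → q' z = q z
  old : ∀ j ∈ C.I, C.lab j = Lab.O → q' '' (C'.Dom ∩ closedBall (j : ℂ) (C.rad j)) ∩ K ⊆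
    q '' (C.Dom ∩ closedBall (j : ℂ) (C.rad j))
  new : ∀ i ∈ C'.I, C'.lab i = Lab.O → ∃ j ∈ C.I, C.lab j = Lab.O ∧ |i - j| + C'.rad i < C.rad j ∧
    C'.rad i ≤ C.rad j / 2 ∧ Disjoint (q' '' (C'.Dom ∩ closedBall (i : ℂ) (C'.rad i))) K

end

/-- COL. Small collars. Needs: CFIN, POL.

Start with `C₀, q₀` from `FinPres`. For a centre `i` with label `O` the compact set
`{z ∈ C₀.Dom ∩ closedBall i (rad i) | q₀ z ∈ A}` does not meet `sphere i (rad i / 2)`, so there is
`ε > 0`, `ε < rad i / 2`, such that it does not meet `{|z - i| ≤ rad i / 2 + ε}`. Let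
`r = min η (rad i / 2)`, `s = rad i / 2 + ε`. POL twice: `Φ₁` (`c = i`, `a = r`, `b = s`, `R = rad i`), and
`Φ₂` (`a = s / 2`, `b = rad i / 2`, `R = s`; note `s / 2 < rad i / 2 < s`): `Φ₂ ∘ Φ₁` is the identity off
`ball i (rad i)`, maps `closedBall i r` onto `closedBall i s` and `closedBall i (r / 2)` onto
`closedBall i (rad i / 2)`. Let `Θ` be the composition of these homeomorphisms for all `i` with label
`O` (finitely many, disjoint supports); `C` has the same centres and labels as `C₀`, the new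
radii `r` for the label `O`, and `q = q₀ ∘ Θ`. -/
def St_COL : Prop := ∀ (X : Type) [TopologicalSpace X] [T2Space X] (t p o : ℕ) (L Bd A : Set X)
  (u : ℂ → X) (η : ℝ), FinPres t p o L Bd u → IsClosed A → Disjoint A Bd → 0 < η →
  ∃ (C : Conf) (q : ℂ → X), C.Ok ∧ C.F = ∅ ∧ C.cnt Lab.T = t ∧ C.cnt Lab.P = p ∧
    C.cnt Lab.O = o ∧ Pres C L q ∧ (∀ z ∈ UC, q z = u z) ∧ q '' C.FreeBd = Bd ∧
    ∀ i ∈ C.I, C.lab i = Lab.O → C.rad i ≤ η ∧
      Disjoint (q '' (C.Dom ∩ closedBall (i : ℂ) (C.rad i))) A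

/-- PIECE. The part of a built set in one component of the complement. Needs: STEP,
`Pool.Agent.SRF.St_BFR`, `Pool.Agent.SRF.St_ATB`, `Pool.Agent.SRF.St_ARC0`,
`Pool.Agent.SRF.St_BB`, `Pool.Agent.SRF.St_ADJ`, BCN.

Let `U = connectedComponentIn Kᶜ x`, open, `frontier U ⊆ frontier K` (ADJ). Induction on
`BuiltFrom K L`: the claim for `L` is `∃ t p o, FinPres t p o (W ∪ (L ∩ closure U))
(frontier L ∩ closure U) u`. For `L = K`: `K ∩ closure U = frontier U ⊆ W` and
`frontier K ∩ closure U = frontier U`; BCN (5). Step: `L → L ∪ e '' CD`, `Att L e S O`. `e '' (CD \ S)` is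
connected (`OD ⊆ CD \ S ⊆ closure OD`) and misses `L ⊇ K`.
Case 1: it meets `U`; then it lies in `U` and `e '' CD ⊆ closure U`. `W ⊆ K ⊆ L`, so
`e '' CD ∩ (W ∪ (L ∩ closure U)) = e '' CD ∩ L = e '' S`, and `e '' S ⊆ frontier L` (BFR (5), `L` is
bordered by BB). So `AttTo (W ∪ (L ∩ closure U)) (frontier L ∩ closure U) e S`; STEP; and
`frontier (L ∪ e '' CD) ∩ closure U = ((frontier L ∩ closure U) ∪ e '' UC) \ e '' O` by ATB.
Case 2: it does not meet `U`. Then `e '' CD ∩ closure U = ∅` and nothing changes: let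
`p = e ζ ∈ closure U`. `p ∉ U`, because `e '' OD` comes close to `p`. So `p ∈ frontier U ⊆ frontier K`; let `φ`
be a half plane chart of `K` at `p`: `φ '' {im < 0} ⊆ U` by ADJ, and `e '' OD` meets `range φ` in points
outside `K`, i.e. in `φ '' {im < 0} ⊆ U`: contradiction. (`frontier (L ∪ e '' CD) ∩ closure U =
frontier L ∩ closure U` by ATB, since `e '' CD` misses `closure U`.) -/
def St_PIECE : Prop := ∀ (X : Type) [TopologicalSpace X], IsSurf X → ∀ (K K' W : Set X) (x : X)
  (u : ℂ → X), Bord K → x ∉ K → BuiltFrom K K' → W ⊆ K →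
  IsAnn W (frontier (connectedComponentIn Kᶜ x)) u →
  ∃ t p o : ℕ, FinPres t p o (W ∪ (K' ∩ closure (connectedComponentIn Kᶜ x)))
    (frontier K' ∩ closure (connectedComponentIn Kᶜ x)) u

/-- STG. From one stage to the next. Needs: CFIN, CCONG, REF, CUT, PASTE, BCN, COL, PIECE,
`Pool.Agent.SRF.St_BFR`, `Pool.Agent.SRF.St_ADJ`.

Let `J` be the (finite) set of the centres of `C` with label `O`, and for `j ∈ J` let
`W_j = q '' (C.Dom ∩ closedBall j (rad j))`, `c_j = q '' sphere j (rad j / 2)`,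
`u_j z = q (j + rad j z)`. By CUT (slot `(j, rad j)`) the map `z ↦ q (j + rad j z)` is injective and
continuous on `{1/2 ≤ ‖z‖ ≤ 1}`, so `IsAnn W_j c_j u_j` by BCN (6). `frontier K` is the disjoint union of
the connected sets `c_j`. Let `p ∈ c_j`, `φ` a half plane chart of `K` at `p`, `x_j = φ (-i)`,
`U_j = connectedComponentIn Kᶜ x_j`; `φ '' {im < 0} ⊆ U_j`, so `p ∈ closure U_j` and
`c_j ⊆ frontier U_j` by ADJ. `frontier U_j ⊆ frontier K` is connected, so it lies in one circle
(BCN (1)): `frontier U_j = c_j`. Every component `U` of `Kᶜ` is one of the `U_j`: its frontier is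
nonempty and in `frontier K`, take `p ∈ frontier U ∩ c_j` and a half plane chart at `p`: ADJ says that
`φ '' {im < 0}` is contained in `U` and in `U_j`. For `j ≠ k`, `closure U_j` and `closure U_k` are
disjoint (`U_j ∩ closure U_k = ∅` because `U_j` is open and disjoint from `U_k`, and `c_j ∩ c_k = ∅`).
`K' = K ∪ ⋃ (K' ∩ U_j)`.
PIECE: `FinPres _ _ _ (L' j) (Bd j) u_j`, `L' j = W_j ∪ (K' ∩ closure U_j)`,
`Bd j = frontier K' ∩ closure U_j`. It is disjoint from `K ⊆ interior K'`. COL with `A = K`, `η = 1/2`: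
`D j`, `q_j`. REF for `C`, `J`, `D` gives `C'`, and PASTE (`L = K \ e '' OD` is compact, `J` finite) gives
`q' = Q`. The conditions of PASTE: with `L₀ = q '' (C.Dom \ ⋃ ball k (rad k)) ⊆ K`: `W_j ∩ L₀ = u_j '' UC`
(CUT), `closure U_j ∩ K = c_j`, which misses `L₀`; `L' j` and `L' k` are disjoint. The union is
`L₀ ∪ ⋃ L' j = (K \ e '' OD) ∪ ⋃ (K' ∩ U_j) = K' \ e '' OD`. Free boundary:
`⋃ Bd j = frontier K'`, because `frontier K' ⊆ Kᶜ = ⋃ U_j`.
`ExtS`: `out`, `slot` from REF, `map` from PASTE, `old`: `q' '' (C'.Dom ∩ closedBall j (rad j)) = L' j`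
and `L' j ∩ K = W_j ∪ c_j = W_j`. `new`: the new centres with label `O` are `j + rad j * x`,
`x ∈ (D j).I`, with radius `rad j * (D j).rad x ≤ rad j / 2` and `|x| + (D j).rad x < 1`, and
`q' '' (closedBall ..) = q_j '' (closedBall x ((D j).rad x) ∩ Dom)` is disjoint from `K`. -/
def St_STG : Prop := ∀ (X : Type) [TopologicalSpace X], IsSurf X → ConnectedSpace X →
  ∀ (e : ℂ → X) (K K' : Set X) (C : Conf) (q : ℂ → X), IsOpenEmbedding e →
  e '' CD ⊆ interior K → Bord K → Stage e K C q →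
  (∀ x, x ∉ K → IsConnected (frontier (connectedComponentIn Kᶜ x))) →
  BuiltFrom K K' → K ⊆ interior K' → Bord K' →
  ∃ (C' : Conf) (q' : ℂ → X), Stage e K' C' q' ∧ ExtS K C q C' q'

/-- LIM. The limit of the stages. Needs: CFIN, CCONG.

Write `O n` for the set of centres of `C n` with label `O`, and
`B n = ⋃_{j ∈ O n} closedBall j (rad j)` (finite union). By `new` every ball of `B (n+1)` lies in an
open ball `ball j (rad j)`, `j ∈ O n`, and has at most half its radius; so the balls of `B n` have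
radius `≤ 2^{-n}`, and for `m ≥ n` every ball of `B m` lies in exactly one ball of `B n`. Limit
configuration: `F = {x : ℝ | ∀ n, x ∈ B n}`, `I = ⋃ n, {i ∈ (C n).I | label ≠ O}`. A centre of `C n` with
label `≠ O` has its ball outside `B n` (`apart`), so by `out` it is a centre of all later `C m`, with
the same radius and label: this defines `rad`, `lab` on `I`. The centres of `C m`, `m ≥ n`, which are
not centres `≠ O` of `C n` have their balls in `B n` (`out`, `slot`), and their holes and `F` lie in the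
open balls `ball j (rad j)`, `j ∈ O n`.
`Ok`: `F` is closed; a limit point of `F ∪ I` is in `F ∪ I`: a point outside `B n` has a neighbourhood
which misses `B n` and so contains only finitely many points of `F ∪ I`. `F` is totally
disconnected: for each `n` it is contained in a finite union of disjoint closed intervals of length
`≤ 2 * 2^{-n}`. The other conditions hold in a common stage (`away`: if `x ∈ F`, `i ∈ (C n).I`, label
`≠ O`, then `x ∈ closedBall j (rad j)` for some `j ∈ O n`, and `rad i + rad j < |i - j|`).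
A point `z` of the limit domain lies outside `B n` for some `n`: otherwise the centres of the balls of
`B n` which contain `z` converge to `z`, so `z` is real and in `F`. A point outside `B n` is in the
limit domain iff it is in `(C n).Dom`, iff it is in `(C m).Dom` for some (all) `m ≥ n`. Put
`q z = q_n z` for `z ∉ B n`; by `map` this does not depend on `n`. Continuity: `B n` is closed. Relation:
for `x`, `y` in the domain take a common `n`; `Rel` and `(C n).Rel` agree for points outside `B n`.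
(A) For `i ∈ O (n+1)` and `m ≥ n + 1` the set `q_m '' ((C m).Dom ∩ closedBall i (rad i))` is disjoint
from `K n`. For `m = n + 1` this is `new`. Step: let `z ∈ (C (m+1)).Dom ∩ closedBall i (rad i)` with
`q_{m+1} z ∈ K n`. If `z` is outside the open balls of `O m`, then `z ∈ (C m).Dom` and
`q_{m+1} z = q_m z`. If `z ∈ closedBall k (rad k)`, `k ∈ O m`, this ball lies in
`closedBall i (rad i)`, and by `old` (`K n ⊆ K m`)
`q_{m+1} z ∈ q_m '' ((C m).Dom ∩ closedBall k (rad k))`. Both contradict the induction hypothesis.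
Image: clearly `q` maps the domain into `⋃ K n \ E`. Let `x ∈ K n \ E ⊆ K (n+1) \ E`, so
`x = q_{n+1} z`, `z ∈ (C (n+1)).Dom`; by (A) `z ∉ B (n+1)`, so `z` is in the limit domain and `q z = x`.
Properness: let `A ⊆ ⋃ K n \ E` be compact, `A ⊆ K n`. If `x` is in the domain and `q x ∈ A`, then
`x ∉ B (n+1)` by (A) (take `m ≥ n + 1` with `x ∉ B m`, `q x = q_m x`). So `x` is in the compact set
`(C (n+1)).Dom \ ⋃_{j ∈ O (n+1)} ball j (rad j)`, which is contained in the limit domain (the ends and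
the holes of the later centres lie in the open balls). -/
def St_LIM : Prop := ∀ (X : Type) [TopologicalSpace X] [T2Space X] (E : Set X) (K : ℕ → Set X)
  (C : ℕ → Conf) (q : ℕ → ℂ → X) (u : ℂ → X), Monotone K →
  (∀ n, (C n).Ok ∧ (C n).F = ∅ ∧ Pres (C n) (K n \ E) (q n) ∧ ∀ z ∈ UC, q n z = u z) →
  (∀ n, ExtS (K n) (C n) (q n) (C (n + 1)) (q (n + 1))) →
  (∀ A ⊆ ⋃ n, K n \ E, IsCompact A → ∃ n, A ⊆ K n) →
  ∃ (C' : Conf) (q' : ℂ → X), C'.Ok ∧ (∀ i ∈ C'.I, C'.lab i ≠ Lab.O) ∧
    Pres C' (⋃ n, K n \ E) q' ∧ ∀ z ∈ UC, q' z = u z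

/-- EXI. Every connected surface has a model. Needs: `Pool.Agent.SRF.St_BFR`,
`Pool.Agent.SRF.St_BB`, `Pool.Agent.SRF.St_ADJ`, `Pool.Agent.SRF.St_GEX`, STG, LIM.

Let `φ : ℂ → X` be an open embedding (`X` is nonempty), `e z = φ (z / 2)`, `K 0 = φ '' CD` (a tile, so
bordered, connected, with frontier `φ '' UC` by BB), `C 0 = single (1/2) O` (domain `Ann`),
`q 0 z = φ (((7 - 4 ‖z‖) / (6 ‖z‖)) z)`: it maps `Ann` injectively onto
`φ '' {1/2 ≤ ‖w‖ ≤ 1} = K 0 \ e '' OD`, the unit circle by `z ↦ φ (z / 2)`, the inner circle onto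
`φ '' UC`: `Stage e (K 0) (C 0) (q 0)`. For `x ∉ K 0` the frontier of the component `U` of `(K 0)ᶜ` is
nonempty (`X` is connected), contained in the connected set `frontier (K 0)`, so by ADJ it is equal
to it. Let `A n` be a compact exhaustion of `X` (`CompactExhaustion`; `X` is locally compact and second
countable). Recursively: `K (n+1)` from GEX for `K n`, `A n` (the frontiers of the components of its
complement are Jordan curves, hence connected), `C (n+1)`, `q (n+1)` from STG. LIM with `E = e '' OD`,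
`u = e`: every compact set is contained in some `A n ⊆ K (n+1)`; `⋃ K n = univ`. -/
def St_EXI : Prop := ∀ (X : Type) [TopologicalSpace X], IsSurf X → ConnectedSpace X →
  ∃ C : Conf, C.Ok ∧ (∀ i ∈ C.I, C.lab i ≠ Lab.O) ∧ IsModel X C

/-! ## Normal forms -/

/-- The centres of the handles and of the crosscaps. -/
def Conf.IT (C : Conf) : Set ℝ := {i ∈ C.I | C.lab i = Lab.T}
def Conf.IP (C : Conf) : Set ℝ := {i ∈ C.I | C.lab i = Lab.P}

/-- Configurations without free holes. -/
structure Conf.Good (C : Conf) : Prop where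
  ok : C.Ok
  noO : ∀ i ∈ C.I, C.lab i ≠ Lab.O

/-- Normal configurations. -/
def Conf.Normal (C : Conf) : Prop :=
  C.IP = ∅ ∨ (C.IP.Finite ∧ C.IP.Nonempty ∧ C.IT = ∅) ∨
  (C.IT.Infinite ∧ (C.IP.ncard = 1 ∨ C.IP.ncard = 2)) ∨
  (C.IP.Infinite ∧ (C.IT = ∅ ∨ C.IT.Infinite) ∧ ∀ x ∈ C.F, (AccPt x (𝓟 C.IT) ↔
    x ∈ closure {y ∈ C.F | AccPt y (𝓟 C.I) ∧ ¬ AccPt y (𝓟 C.IP)}))

/-- What the homeomorphism of the products gives (Part V). -/
structure Match1 (C C' : Conf) : Prop where
  ends : ∃ ψ : C.F ≃ₜ C'.F, ∀ f : C.F,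
    (AccPt (f : ℝ) (𝓟 C.I) ↔ AccPt (ψ f : ℝ) (𝓟 C'.I)) ∧
    (AccPt (f : ℝ) (𝓟 C.IP) ↔ AccPt (ψ f : ℝ) (𝓟 C'.IP))
  fin : C.I.Finite → C'.I.Finite ∧
    2 * C.IT.ncard + C.IP.ncard = 2 * C'.IT.ncard + C'.IP.ncard
  par : C.IP.Finite → C'.IP.Finite ∧ C.IP.ncard % 2 = C'.IP.ncard % 2
  emp : C.IP = ∅ ↔ C'.IP = ∅

/-- PARTV (helper49). -/
def St_PARTV : Prop := ∀ (X X' : Type) [TopologicalSpace X] [TopologicalSpace X'], IsSurf X →
  IsSurf X' → ∀ C C' : Conf, C.Good → C'.Good → IsModel X C → IsModel X' C' →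
  Nonempty ((X × Circle) ≃ₜ (X' × Circle)) → Match1 C C'

/-- PAR. Partners. Needs: nothing.

If `J` is finite, this is an injection of a finite set into an infinite set. Let `J` be infinite. It
is countable (a subset of `ℝ` with all its limit points in the closed set `F` and disjoint from `F`:
`J ∩ {x | infDist x F ≥ 1/n}` is closed, bounded and discrete, hence finite). Let `j_0, j_1, ...` be an
enumeration without repetition. For each `n` choose a point `e_n` of the compact nonempty set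
`G = {x ∈ F | AccPt x (𝓟 P)}` (closed; nonempty, because `P` is infinite) at minimal distance from
`j_n`. `|e_n - j_n| → 0`: otherwise a subsequence of the `j_n` converges to a point `x ∈ F` with
`infDist x G > 0`, but `AccPt x (𝓟 J)` implies `x ∈ G`. Choose recursively `p j_n ∈ P` with
`|p j_n - e_n| < 1/(n+1)`, different from `p j_0, ..., p j_{n-1}` (`e_n` is an accumulation point of
`P`). -/
def St_PAR : Prop := ∀ F J P : Set ℝ, IsCompact (F ∪ J) → IsCompact (F ∪ P) → IsClosed F →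
  Disjoint F J → Disjoint F P → (∀ i ∈ J, ∃ ε > 0, ∀ x ∈ F ∪ J, |x - i| < ε → x = i) →
  (∀ i ∈ P, ∃ ε > 0, ∀ x ∈ F ∪ P, |x - i| < ε → x = i) → P.Infinite →
  (∀ x ∈ F, AccPt x (𝓟 J) → AccPt x (𝓟 P)) →
  ∃ p : ℝ → ℝ, InjOn p J ∧ MapsTo p J P ∧ ∀ ε : ℝ, 0 < ε → {j ∈ J | ε ≤ |p j - j|}.Finite

/-- MAT. Metric back and forth. Needs: nothing.

`A` and `A'` are countable (as in PAR). Let `G = {x ∈ F | AccPt x (𝓟 A)}`, `G' = ψ '' G` (compact,
nonempty because `A`, `A'` are infinite and `F ∪ A` is compact with limit points only in `F`). For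
`a ∈ A` let `π a ∈ G` be a nearest point, for `a' ∈ A'` let `π' a' ∈ G'` be a nearest point; for
`a → x ∈ F` (`a ∈ A`) one has `x ∈ G`, so `|π a - a| ≤ |x - a| → 0` and `π a → x`. Enumerate
`A = {a_n}`, `A' = {a'_n}`. Construct a bijection as the union of finite matchings: in step `2 n`, if
`a_n` is not yet matched, match it with an unmatched `a' ∈ A'` with `|a' - ψ (π a_n)| < 1/(n+1)`
(`ψ (π a_n) ∈ G'` is an accumulation point of `A'`); in step `2 n + 1`, if `a'_n` is not yet matched,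
match it with an unmatched `a ∈ A` with `|a - ψ⁻¹ (π' a'_n)| < 1/(n+1)`. Let `a → x ∈ F`, `x ∈ G`. All but
finitely many matched pairs come from steps with large `n`. For pairs of the first kind,
`|φ a - ψ (π a)| → 0` and `ψ (π a) → ψ x`. For pairs of the second kind: `|a - ψ⁻¹ (π' (φ a))| → 0`, so
`ψ⁻¹ (π' (φ a)) → x`, `π' (φ a) → ψ x`, and `|φ a - π' (φ a)| → 0` for all but finitely many (only finitely
many points of `A'` have distance `≥ ε` from `G'`). -/
def St_MAT : Prop := ∀ (F A F' A' : Set ℝ) (ψ : ℝ → ℝ), IsClosed F → IsClosed F' →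
  IsCompact (F ∪ A) → IsCompact (F' ∪ A') → Disjoint F A → Disjoint F' A' →
  (∀ i ∈ A, ∃ ε > 0, ∀ x ∈ F ∪ A, |x - i| < ε → x = i) →
  (∀ i ∈ A', ∃ ε > 0, ∀ x ∈ F' ∪ A', |x - i| < ε → x = i) → A.Infinite → A'.Infinite →
  ContinuousOn ψ F → InjOn ψ F → ψ '' F = F' →
  (∀ x ∈ F, (AccPt x (𝓟 A) ↔ AccPt (ψ x) (𝓟 A'))) →
  ∃ φ : ℝ → ℝ, BijOn φ A A' ∧ ∀ x ∈ F, Tendsto φ (𝓝[A] x) (𝓝 (ψ x))

/-- CLU. Simultaneous replacement of clusters. Needs: CFIN, CCONG, REF, KPRES, SUB.

`C₀`: the configuration with `F`, the centres `I₀ = (C.I \ ⋃_{j ∈ J} G j) ∪ J` and the same `rad`, `lab`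
(`Ok`: a subset of the old centres; `F ∪ I₀` is compact because limit points are in `F`). REF for `C₀`,
`J`, `D` gives `C₁`, REF for `C₀`, `J`, `D'` gives `C₂`. Let `φ : C.F ∪ C.I → C₁.F ∪ C₁.I` be the identity on
`F` and on `C.I \ ⋃ G j`, and a label preserving bijection of `G j` onto the centres
`j + rad j * x`, `x ∈ (D j).I`, for `j ∈ J`. It is continuous: near a point of `F`, `|φ i - i|` is at most
`rad j` plus the diameter of `G j`, both tend to `0`. KPRES: `IsModel X C → IsModel X C₁` (same `e`). `C₁`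
and `C₂` agree outside the slots `(j, C.rad j)`, and their contents are `D j`, `D' j`; so SUB
(with CCONG: `Eqv` depends only on the data on the centres) gives `IsModel X C₂`
(`L = (e '' OD)ᶜ` is closed). -/
def St_CLU : Prop := ∀ (X : Type) [TopologicalSpace X], IsSurf X → ∀ C : Conf, C.Ok →
  IsModel X C → ∀ (J : Set ℝ) (G : ℝ → Set ℝ) (D D' : ℝ → Conf),
  (∀ j ∈ J, j ∈ G j ∧ G j ⊆ C.I ∧ (G j).Finite) →
  (∀ j ∈ J, ∀ k ∈ J, j ≠ k → Disjoint (G j) (G k)) →
  (∀ ε : ℝ, 0 < ε → {j ∈ J | ¬ G j ⊆ ball j ε}.Finite) →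
  (∀ j ∈ J, (D j).Ok ∧ (D j).F = ∅ ∧ (D' j).Ok ∧ (D' j).F = ∅ ∧ Eqv (D j) (D' j) ∧
    ∀ l, (D j).cnt l = {i ∈ G j | C.lab i = l}.ncard) →
  ∃ C' : Conf, C'.Ok ∧ C'.F = C.F ∧ IsModel X C' ∧
    C'.I = (C.I \ ⋃ j ∈ J, G j) ∪ {i | ∃ j ∈ J, ∃ x ∈ (D' j).I, i = j + C.rad j * x} ∧
    (∀ i ∈ C.I \ ⋃ j ∈ J, G j, C'.lab i = C.lab i) ∧
    ∀ j ∈ J, ∀ x ∈ (D' j).I, C'.lab (j + C.rad j * x) = (D' j).lab x

/-- STDC. Standard finite configurations, and `Eqv` for them. Needs: CFIN, EQV.

For `t, p` let `n = t + p` and take the centres `-1 + 2 (k + 1) / (n + 1)`, `k < n`, with radii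
`1 / (2 (n + 1))`, the first `t` with label `T`, the others with label `P`. -/
def St_STDC : Prop := ∃ S : ℕ → ℕ → Conf, (∀ t p, (S t p).Ok ∧ (S t p).F = ∅ ∧
    (S t p).cnt Lab.T = t ∧ (S t p).cnt Lab.P = p ∧ (S t p).cnt Lab.O = 0) ∧
  ∀ t p t' p', 0 < p → 0 < p' → 2 * t + p = 2 * t' + p' → Eqv (S t p) (S t' p')

/-- NRM. Normal forms. Needs: CFIN, STDC, PAR, CLU.

(a) `IP = ∅`: nothing to do. Let `IP ≠ ∅`.
(b) `IP` and `IT` finite. If `IT = ∅`, nothing to do. Otherwise CLU with `J = {j₀}`, `j₀ ∈ C.I` arbitrary,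
`G j₀ = C.I`, `D = S t p`, `D' = S 0 (2 t + p)` (`t = #IT`, `p = #IP`). All labels are now `P`.
(c) `IP` finite, `IT` infinite. Let `p = #IP`. If `p ≤ 2`, nothing to do. Otherwise let `p = 2 k + p'`,
`p' ∈ {1, 2}`; CLU with `J = {j₀}`, `j₀ ∈ IP`, `G j₀ = IP`, `D = S 0 p`, `D' = S k p'`.
(d) `IP` infinite. Let `E₂ = {y ∈ F | AccPt y (𝓟 IP)}` (compact, nonempty, since `F ∪ I` is compact and
limit points of `I` are in `F`), `A = {y ∈ F | AccPt y (𝓟 I) ∧ y ∉ E₂}`, and
`J = {i ∈ IT | A = ∅ ∨ infDist i E₂ ≤ infDist i A}`. If `x ∈ F` and `AccPt x (𝓟 J)`, then `x ∈ E₂`: otherwise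
`AccPt x (𝓟 I)`, so `x ∈ A`, `A ≠ ∅`, and points `i ∈ J` close to `x` have
`infDist i E₂ ≤ infDist i A ≤ |i - x|`, so `x ∈ closure E₂ = E₂`. PAR for `J` and `IP` gives `p`; CLU with
`G i = {i, p i}` for `i ∈ J`, `D = S 1 1`, `D' = S 0 3`. In the new configuration `C'`: `IT' = IT \ J`,
`IP' = (IP \ p '' J) ∪ N` where `N` consists of three points in `ball i (rad i)` for each `i ∈ J`.
Accumulation points in `F`: those of `N` are those of `J` and of `p '' J` (`rad i → 0`,
`|p i - i| → 0`), so `acc IP' = acc IP = E₂` and `acc I' = acc I`; `IP'` is infinite. So the set `A` is the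
same for `C'`. `acc IT' = closure A`: let `x ∈ F`, `AccPt x (𝓟 (IT \ J))` (then `A ≠ ∅`): `AccPt x (𝓟 I)`; if
`x ∉ E₂`, then `x ∈ A`; if `x ∈ E₂`, points `i ∈ IT \ J` close to `x` have
`infDist i A < infDist i E₂ ≤ |i - x|`, so `x ∈ closure A`. Conversely let `x ∈ A`: `AccPt x (𝓟 I)` and not
`AccPt x (𝓟 IP)`, so `AccPt x (𝓟 IT)`, and for `i` close to `x` one has
`infDist i A ≤ |i - x| < infDist i E₂`, so `i ∉ J`; the set of accumulation points is closed. If `A = ∅`
then `IT' = ∅`, otherwise `IT'` is infinite. -/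
def St_NRM : Prop := ∀ (X : Type) [TopologicalSpace X], IsSurf X → ∀ C : Conf, C.Good →
  IsModel X C → ∃ C' : Conf, C'.Good ∧ C'.Normal ∧ IsModel X C'

/-- CLS. Matching normal configurations. Needs: CFIN, MAT.

Let `ψ` be the homeomorphism of `Match1 C C'`, extended to a function on `ℝ` with `ψ '' F = F'`. It is
enough to find label preserving bijections `IT → IT'`, `IP → IP'` such that the union `φ` with `ψ` is
continuous at the points of `F` (at the points of `I`, which are isolated in `F ∪ I`, there is nothing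
to prove): for each of `IT`, `IP` either it is finite (no condition), or MAT. By `fin`, `par` for
`(C, C')` and `(C', C)`: `I` is finite iff `I'` is, `IP` is finite iff `IP'` is.
`IP = ∅`: `IP' = ∅`, `I = IT`, `I' = IT'`: both finite with the same number of elements (`fin`) or both
infinite, and `acc IT` corresponds to `acc IT'`.
`IP` finite, nonempty, `IT = ∅`: `I` is finite, so `I'` is finite and `IP' ≠ ∅`; since `C'` is normal,
`IT' = ∅` (in the third case `IT'` would be infinite), and `#IP = #IP'` by `fin`.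
`IT` infinite, `#IP ∈ {1, 2}`: `IP'` is finite and nonempty and `I'` is infinite, so `C'` is in the third
case, `#IP = #IP'` by `par`; `acc IT = acc I` because `IP` is finite, and the same for `C'`: MAT for `IT`.
`IP` infinite: `IP'` is infinite, so `C'` is in the fourth case; MAT for `IP`. `ψ` maps the set
`closure {y ∈ F | AccPt y (𝓟 I) ∧ ¬ AccPt y (𝓟 IP)}` onto the corresponding set (it is a homeomorphism
of compact sets), so `acc IT` corresponds to `acc IT'`. `IT` is empty iff `acc IT` is empty (an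
infinite `IT` has an accumulation point in `F`), so `IT` and `IT'` are both empty or both infinite;
MAT for `IT`. -/
def St_CLS : Prop := ∀ C C' : Conf, C.Good → C'.Good → C.Normal → C'.Normal → Match1 C C' →
  Match1 C' C → ∃ φ : ℝ → ℝ, ContinuousOn φ (C.F ∪ C.I) ∧ InjOn φ (C.F ∪ C.I) ∧ φ '' C.F = C'.F ∧
    φ '' C.I = C'.I ∧ ∀ i ∈ C.I, C'.lab (φ i) = C.lab i

/-- CONN. Connected surfaces. Needs: EXI, NRM, PARTV, CLS, KPRES, UNM.

EXI and NRM give normal good models `C` of `X`, `C'` of `Y`. PARTV for `(X, Y)` and for `(Y, X)` gives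
`Match1 C C'` and `Match1 C' C`; CLS gives `φ`; KPRES moves the model `C` of `X` to a model `C'` of `X`
(`q ∘ Φ⁻¹` is equal to `q` on `UC`); UNM. -/
def St_CON : Prop := Pool.Agent.SRF.St_CONN

end Pool.Agent.SRP
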