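import Pool.Agent.SRP.StC

set_option autoImplicit false

/-! # SRP, module UNI (helper17): uniqueness of the presented space (compact case) -/

open Set Metric Filter Topology Pool.Agent.SRF

namespace Pool.Agent.SRP

theorem thm_UNI : St_UNI := by
  classical
  intro X X' _ _ _ _ Ω R L L' q q' hΩ hq hq' hL hL' hR hR'
  let h : X → X' := fun x => if hx : ∃ z, z ∈ Ω ∧ q z = x then q' hx.choose else q' 0
  have hh : ∀ z ∈ Ω, h (q z) = q' z := by
    intro z hz
    have hex : ∃ w, w ∈ Ω ∧ q w = q z := ⟨z, hz, rfl⟩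
    have h1 : h (q z) = q' hex.choose := dif_pos hex
    rw [h1, hR' _ hex.choose_spec.1 z hz, ← hR _ hex.choose_spec.1 z hz]
    exact hex.choose_spec.2
  refine ⟨h, ?_, ?_, ?_, hh⟩
  · rw [continuousOn_iff_isClosed]
    intro t ht
    refine ⟨q '' (Ω ∩ q' ⁻¹' t), ?_, ?_⟩
    · have h1 : IsClosed (Ω ∩ q' ⁻¹' t) := hq'.preimage_isClosed_of_isClosed hΩ.isClosed ht
      have h2 : IsCompact (Ω ∩ q' ⁻¹' t) := hΩ.of_isClosed_subset h1 inter_subset_left
      exact (h2.image_of_continuousOn (hq.mono inter_subset_left)).isClosed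
    · ext x
      constructor
      · rintro ⟨h1, h2⟩
        refine ⟨?_, h2⟩
        rw [← hL] at h2
        obtain ⟨z, hz, rfl⟩ := h2
        rw [mem_preimage, hh z hz] at h1
        exact ⟨z, ⟨hz, h1⟩, rfl⟩
      · rintro ⟨⟨z, ⟨hz, h1⟩, rfl⟩, h2⟩
        refine ⟨?_, h2⟩
        rw [mem_preimage, hh z hz]
        exact h1
  · intro x hx y hy hxy
    rw [← hL] at hx hy
    obtain ⟨z, hz, rfl⟩ := hx
    obtain ⟨w, hw, rfl⟩ := hy
    rw [hh z hz, hh w hw] at hxy
    rw [hR z hz w hw, ← hR' z hz w hw]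
    exact hxy
  · rw [← hL, ← hL', image_image]
    exact image_congr fun z hz => hh z hz

end Pool.Agent.SRP
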