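import Pool.Agent.SRP.StC

set_option autoImplicit false

/-! # SRP, module UNM (helper17): two surfaces with the same model are homeomorphic -/

open Set Metric Filter Topology Pool.Agent.SRF

namespace Pool.Agent.SRP

theorem unm_map (hCFIN : St_CFIN) (hUNI : St_UNI) (X X' : Type) [TopologicalSpace X]
    [TopologicalSpace X'] (hX : IsSurf X) (hX' : IsSurf X') (C : Conf) (hC : C.Ok) (e q : ℂ → X)
    (e' q' : ℂ → X') (he : IsOpenEmbedding e) (hq : Pres C (e '' OD)ᶜ q)
    (heq : ∀ z ∈ UC, q z = e z) (he' : IsOpenEmbedding e') (hq' : Pres C (e' '' OD)ᶜ q')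
    (heq' : ∀ z ∈ UC, q' z = e' z) :
    ∃ h : X → X', Continuous h ∧ (∀ z ∈ CD, h (e z) = e' z) ∧ ∀ z ∈ C.Dom, h (q z) = q' z := by
  classical
  have := hX.t2
  have := hX'.t2
  obtain ⟨-, -, -, -, hUC, -, hrel, -⟩ := hCFIN C hC
  -- points of the outer circle are related only to themselves
  have hout : ∀ w ∈ UC, ∀ z, C.Rel w z → w = z := by
    intro w hw z hwz
    rcases hrel w z hwz with h | ⟨i, hi, h1, -⟩
    · exact h
    · exfalso
      have h2 := hC.inside i hi
      have h3 := hC.pos i hi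
      rw [mem_closedBall, dist_eq_norm] at h1
      rw [mem_sphere_zero_iff_norm] at hw
      have h4 : ‖w‖ ≤ ‖w - (i : ℂ)‖ + ‖(i : ℂ)‖ := by
        have := norm_add_le (w - (i : ℂ)) (i : ℂ)
        rwa [sub_add_cancel] at this
      rw [Complex.norm_real, Real.norm_eq_abs] at h4
      linarith
  let h : X → X' := fun x => if hx : ∃ z, z ∈ CD ∧ e z = x then e' hx.choose else
    if hx' : ∃ z, z ∈ C.Dom ∧ q z = x then q' hx'.choose else e' 0
  have h1 : ∀ z ∈ CD, h (e z) = e' z := by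
    intro z hz
    have hex : ∃ w, w ∈ CD ∧ e w = e z := ⟨z, hz, rfl⟩
    have h1 : h (e z) = e' hex.choose := dif_pos hex
    rw [h1, he.injective hex.choose_spec.2]
  have h2 : ∀ z ∈ C.Dom, h (q z) = q' z := by
    intro z hz
    by_cases hex : ∃ w, w ∈ CD ∧ e w = q z
    · obtain ⟨w, hw, hwz⟩ := hex
      have hwU : w ∈ UC := by
        have h3 : q z ∈ (e '' OD)ᶜ := by
          rw [← hq.image]
          exact ⟨z, hz, rfl⟩
        rw [← hwz] at h3
        rw [mem_sphere_zero_iff_norm]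
        rw [mem_closedBall_zero_iff] at hw
        by_contra hne
        exact h3 ⟨w, by rw [mem_ball_zero_iff]; exact lt_of_le_of_ne hw hne, rfl⟩
      have h3 : w = z := by
        refine hout w hwU z ?_
        rw [← hq.rel w (hUC hwU) z hz, heq w hwU, hwz]
      rw [← hwz, h1 w hw, ← heq' w hwU, h3]
    · have hex' : ∃ w, w ∈ C.Dom ∧ q w = q z := ⟨z, hz, rfl⟩
      have h3 : h (q z) = q' hex'.choose := by
        change (if hx : ∃ w, w ∈ CD ∧ e w = q z then e' hx.choose else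
          if hx' : ∃ w, w ∈ C.Dom ∧ q w = q z then q' hx'.choose else e' 0) = _
        rw [dif_neg hex, dif_pos hex']
      rw [h3, hq'.rel _ hex'.choose_spec.1 z hz, ← hq.rel _ hex'.choose_spec.1 z hz]
      exact hex'.choose_spec.2
  refine ⟨h, ?_, h1, h2⟩
  have hcl : IsClosed (e '' OD)ᶜ := (he.isOpenMap _ isOpen_ball).isClosed_compl
  have hcl2 : IsClosed (e '' CD) := ((isCompact_closedBall (0 : ℂ) 1).image he.continuous).isClosed
  have hc1 : ContinuousOn h (e '' CD) := by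
    rintro _ ⟨z, hz, rfl⟩
    rw [ContinuousWithinAt, ← he.isEmbedding.map_nhdsWithin_eq, tendsto_map'_iff, h1 z hz]
    refine (he'.continuous.continuousWithinAt (s := CD) (x := z)).congr' ?_
    filter_upwards [self_mem_nhdsWithin] with w hw
    exact (h1 w hw).symm
  have hc2 : ContinuousOn h (e '' OD)ᶜ := by
    intro x hx
    obtain ⟨φ, hφ, hφ0⟩ := hX.chart x
    have hN : IsCompact (φ '' closedBall 0 1) := (isCompact_closedBall (0 : ℂ) 1).image hφ.continuous
    have hNx : φ '' closedBall 0 1 ∈ 𝓝 x := by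
      rw [← hφ0]
      exact hφ.isOpenMap.image_mem_nhds (closedBall_mem_nhds 0 one_pos)
    set A : Set X := φ '' closedBall 0 1 ∩ (e '' OD)ᶜ with hA
    have hAc : IsCompact A := hN.inter_right hcl
    obtain ⟨B, hBD, hB, hBA⟩ := hq.proper A inter_subset_right hAc
    have hΩcl : IsClosed (B ∩ q ⁻¹' A) :=
      (hq.cont.mono hBD).preimage_isClosed_of_isClosed hB.isClosed hAc.isClosed
    have hΩ : IsCompact (B ∩ q ⁻¹' A) := hB.of_isClosed_subset hΩcl inter_subset_left
    have hΩD : B ∩ q ⁻¹' A ⊆ C.Dom := inter_subset_left.trans hBD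
    have hΩA : q '' (B ∩ q ⁻¹' A) = A := by
      ext y
      constructor
      · rintro ⟨z, hz, rfl⟩
        exact hz.2
      · intro hy
        have h3 : y ∈ q '' C.Dom := by
          rw [hq.image]
          exact hy.2
        obtain ⟨z, hz, rfl⟩ := h3
        exact ⟨z, ⟨hBA z hz hy, hy⟩, rfl⟩
    obtain ⟨h₂, g1, -, -, g4⟩ := hUNI X X' (B ∩ q ⁻¹' A) C.Rel A (q' '' (B ∩ q ⁻¹' A)) q q' hΩ
      (hq.cont.mono hΩD) (hq'.cont.mono hΩD) hΩA rfl
      (fun x hx y hy => hq.rel x (hΩD hx) y (hΩD hy))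
      (fun x hx y hy => hq'.rel x (hΩD hx) y (hΩD hy))
    have hhA : ContinuousOn h A := by
      refine g1.congr ?_
      intro y hy
      rw [← hΩA] at hy
      obtain ⟨z, hz, rfl⟩ := hy
      rw [h2 z (hΩD hz), g4 z hz]
    have hxA : x ∈ A := ⟨mem_of_mem_nhds hNx, hx⟩
    refine (hhA x hxA).mono_of_mem_nhdsWithin ?_
    rw [hA]
    exact inter_mem (mem_nhdsWithin_of_mem_nhds hNx) self_mem_nhdsWithin
  have hcov : e '' CD ∪ (e '' OD)ᶜ = univ := by
    refine eq_univ_of_forall fun x => ?_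
    by_cases hx : x ∈ e '' OD
    · exact Or.inl (image_mono ball_subset_closedBall hx)
    · exact Or.inr hx
  rw [← continuousOn_univ, ← hcov]
  exact hc1.union_of_isClosed hc2 hcl2 hcl

theorem thm_UNM (hCFIN : St_CFIN) (hUNI : St_UNI) : St_UNM := by
  intro X X' _ _ hX hX' C hC hM hM'
  obtain ⟨e, he, q, hq, heq⟩ := hM
  obtain ⟨e', he', q', hq', heq'⟩ := hM'
  obtain ⟨h, h1, h2, h3⟩ := unm_map hCFIN hUNI X X' hX hX' C hC e q e' q' he hq heq he' hq' heq'
  obtain ⟨g, g1, g2, g3⟩ := unm_map hCFIN hUNI X' X hX' hX C hC e' q' e q he' hq' heq' he hq heq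
  refine ⟨⟨⟨h, g, ?_, ?_⟩, h1, g1⟩⟩
  · intro x
    by_cases hx : x ∈ e '' OD
    · obtain ⟨z, hz, rfl⟩ := hx
      rw [h2 z (ball_subset_closedBall hz), g2 z (ball_subset_closedBall hz)]
    · have hx' : x ∈ q '' C.Dom := by
        rw [hq.image]
        exact hx
      obtain ⟨z, hz, rfl⟩ := hx'
      rw [h3 z hz, g3 z hz]
  · intro x
    by_cases hx : x ∈ e' '' OD
    · obtain ⟨z, hz, rfl⟩ := hx
      rw [g2 z (ball_subset_closedBall hz), h2 z (ball_subset_closedBall hz)]
    · have hx' : x ∈ q' '' C.Dom := by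
        rw [hq'.image]
        exact hx
      obtain ⟨z, hz, rfl⟩ := hx'
      rw [g3 z hz, h3 z hz]

end Pool.Agent.SRP
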