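import Pool.Agent.SRF.AsmC
import Pool.Agent.SRP.StE
import Pool.Agent.SRP.CFIN
import Pool.Agent.SRP.CCONG
import Pool.Agent.SRP.ROOM
import Pool.Agent.SRP.REF
import Pool.Agent.SRP.POL
import Pool.Agent.SRP.INFP
import Pool.Agent.SRP.ADJ
import Pool.Agent.SRP.SHR
import Pool.Agent.SRP.KLEE
import Pool.Agent.SRP.KPRES
import Pool.Agent.SRP.FREE
import Pool.Agent.SRP.UNI
import Pool.Agent.SRP.UNM
import Pool.Agent.SRP.CUT
import Pool.Agent.SRP.PASTE
import Pool.Agent.SRP.MEX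
import Pool.Agent.SRP.RED
import Pool.Agent.SRP.INTD
import Pool.Agent.SRP.PDT
import Pool.Agent.SRP.PDS
import Pool.Agent.SRP.HOLE
import Pool.Agent.SRP.MONO
import Pool.Agent.SRP.BAND
import Pool.Agent.SRP.BDT
import Pool.Agent.SRP.ANG
import Pool.Agent.SRP.CONE
import Pool.Agent.SRP.BCN
import Pool.Agent.SRP.LA
import Pool.Agent.SRP.LU
import Pool.Agent.SRP.LD
import Pool.Agent.SRP.SONE
import Pool.Agent.SRP.LP
import Pool.Agent.SRP.STEP
import Pool.Agent.SRP.SUB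
import Pool.Agent.SRP.EQV
import Pool.Agent.SRP.LIM
import Pool.Agent.SRP.PAR
import Pool.Agent.SRP.MAT
import Pool.Agent.SRP.CLU
import Pool.Agent.SRP.STDC
import Pool.Agent.SRP.CLS
import Pool.Agent.SRP.CONN

set_option autoImplicit false

/-! # SRP, Parts III and IV: what is proved without hypotheses -/

namespace Pool.Agent.SRP

theorem sCFIN : St_CFIN := thm_CFIN
theorem sCCONG : St_CCONG := thm_CCONG
theorem sROOM : St_ROOM := thm_ROOM sCFIN
theorem sREF : St_REF := thm_REF sCFIN sCCONG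
theorem sPOL : St_POL := thm_POL
theorem sINFP : St_INFP := thm_INFP
theorem sADJ : St_ADJ := thm_ADJ sCFIN sROOM sPOL sINFP
theorem sSHR : St_SHR := thm_SHR sPOL
theorem sKLEE : St_KLEE := thm_KLEE sCFIN sPOL sADJ sSHR
theorem sKPRES : St_KPRES := thm_KPRES sCFIN sKLEE
theorem sFREE : St_FREE := thm_FREE sCFIN sKPRES
theorem sUNI : St_UNI := thm_UNI
theorem sUNM : St_UNM := thm_UNM sCFIN sUNI
theorem sCUT : St_CUT := thm_CUT sCFIN
theorem sPASTE : St_PASTE := thm_PASTE sCFIN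
theorem sMEX : St_MEX := thm_MEX sCFIN
theorem sRED : St_RED := thm_RED sCFIN sCCONG sREF sADJ sFREE sCUT sPASTE
theorem sINTD : St_INTD := thm_INTD
theorem sPDT : St_PDT := thm_PDT Pool.Agent.SRF.sSCH Pool.Agent.SRF.sTH sINTD
theorem sPDS : St_PDS := thm_PDS sINTD sPDT
theorem sHOLE : St_HOLE := thm_HOLE sCFIN sCCONG sINTD sPDS
theorem sMONO : St_MONO := thm_MONO Pool.Agent.SRF.sLOGB
theorem sBAND : St_BAND := thm_BAND
theorem sBDT : St_BDT := thm_BDT sMONO sBAND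
theorem sANG : St_ANG := thm_ANG
theorem sCONE : St_CONE := thm_CONE sINTD Pool.Agent.SRF.sRADH sMONO
theorem sBCN : St_BCN := thm_BCN sCFIN sFREE
theorem sLA : St_LA := thm_LA sMONO Pool.Agent.SRF.sRADH
theorem sLU : St_LU := thm_LU sANG sINTD sPDS
theorem sSUB : St_SUB := thm_SUB sCFIN sCUT sPASTE
theorem sLIM : St_LIM := thm_LIM sCFIN sCCONG
theorem sPAR : St_PAR := thm_PAR
theorem sMAT : St_MAT := thm_MAT
theorem sCLU : St_CLU := thm_CLU sCFIN sCCONG sREF sKPRES sSUB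
theorem sCLS : St_CLS := thm_CLS sCFIN sMAT

end Pool.Agent.SRP
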