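import Pool.Agent.SRP.StE

set_option autoImplicit false

/-! # COL: small collars of the free holes -/

open Set Metric Filter Topology Pool.Agent.SRF

namespace Pool.Agent.SRP

/-- One free hole: `closedBall c (r / 2)` is blown up to `closedBall c (R / 2)`, and
`closedBall c r` is mapped into `closedBall c s`. -/
private theorem col_one (hPOL : St_POL) (c : ℂ) (r s R : ℝ) (hr : 0 < r) (hrR : r < R)
    (hs : R / 2 < s) (hsR : s < R) :
    ∃ Φ : ℂ ≃ₜ ℂ, (∀ z, z ∉ ball c R → Φ z = z) ∧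
      (∀ z ∈ closedBall c (r / 2), Φ z = c + ((R / r : ℝ) : ℂ) * (z - c)) ∧
      ∀ z ∈ closedBall c r, Φ z ∈ closedBall c s := by
  have hR : 0 < R := hr.trans hrR
  have hs0 : 0 < s := by linarith
  obtain ⟨Φ₁, h1a, h1b⟩ := hPOL c r s R 0 hr hrR hs0 hsR
  obtain ⟨Φ₂, h2a, h2b⟩ := hPOL c (s / 2) (R / 2) s 0 (by linarith) (by linarith) (by linarith) hs
  have hc0 : cexpi 0 = 1 := by simp [cexpi]
  simp only [hc0, mul_one] at h1b h2b
  have hrne : (r : ℂ) ≠ 0 := by exact_mod_cast hr.ne'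
  have hsne : (s : ℂ) ≠ 0 := by exact_mod_cast hs0.ne'
  have hn1 : ∀ z, ‖((s / r : ℝ) : ℂ) * (z - c)‖ = s / r * ‖z - c‖ := by
    intro z
    rw [norm_mul, Complex.norm_real, Real.norm_of_nonneg (by positivity)]
  refine ⟨Φ₁.trans Φ₂, ?_, ?_, ?_⟩
  · intro z hz
    have h1 : Φ₁ z = z := h1a z hz
    rw [Homeomorph.trans_apply, h1]
    apply h2a z
    intro h
    exact hz (ball_subset_ball hsR.le h)
  · intro z hz
    rw [mem_closedBall, dist_eq_norm] at hz
    have hz' : z ∈ closedBall c r := by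
      rw [mem_closedBall, dist_eq_norm]
      linarith
    rw [Homeomorph.trans_apply, h1b z hz', h2b]
    · have : c + ((s / r : ℝ) : ℂ) * (z - c) - c = ((s / r : ℝ) : ℂ) * (z - c) := by ring
      rw [this]
      push_cast
      field_simp
    · rw [mem_closedBall, dist_eq_norm, add_sub_cancel_left, hn1]
      calc s / r * ‖z - c‖ ≤ s / r * (r / 2) := by gcongr
        _ = s / 2 := by field_simp
  · intro z hz
    rw [Homeomorph.trans_apply, h1b z hz]
    rw [mem_closedBall, dist_eq_norm] at hz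
    set w := c + ((s / r : ℝ) : ℂ) * (z - c) with hw
    have hwn : ‖w - c‖ ≤ s := by
      rw [hw, add_sub_cancel_left, hn1]
      calc s / r * ‖z - c‖ ≤ s / r * r := by gcongr
        _ = s := by field_simp
    have hwm : w ∈ closedBall c s := by rwa [mem_closedBall, dist_eq_norm]
    by_contra hcon
    have hfix : Φ₂ (Φ₂ w) = Φ₂ w := h2a _ fun h => hcon (ball_subset_closedBall h)
    have : Φ₂ w = w := Φ₂.injective hfix
    rw [this] at hcon
    exact hcon hwm

/-- Composition of finitely many homeomorphisms with disjoint supports. -/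
private theorem col_many (R : ℝ → ℝ) (Φ : ℝ → ℂ ≃ₜ ℂ) (J : Finset ℝ) :
    (∀ i ∈ J, ∀ j ∈ J, i ≠ j → Disjoint (ball (i : ℂ) (R i)) (ball (j : ℂ) (R j))) →
    (∀ i ∈ J, ∀ z, z ∉ ball (i : ℂ) (R i) → Φ i z = z) →
    ∃ Θ : ℂ ≃ₜ ℂ, (∀ z, (∀ i ∈ J, z ∉ ball (i : ℂ) (R i)) → Θ z = z) ∧
      ∀ i ∈ J, ∀ z ∈ ball (i : ℂ) (R i), Θ z = Φ i z := by
  classical
  induction J using Finset.induction_on with
  | empty =>
    intro _ _
    exact ⟨Homeomorph.refl ℂ, fun z _ => rfl, fun i hi => by simp at hi⟩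
  | insert j J hj ih =>
    intro hd hf
    obtain ⟨Θ, h1, h2⟩ := ih (fun a ha b hb => hd a (Finset.mem_insert_of_mem ha) b
      (Finset.mem_insert_of_mem hb)) (fun a ha => hf a (Finset.mem_insert_of_mem ha))
    have hjj := hf j (Finset.mem_insert_self j J)
    have hmem : ∀ z ∈ ball (j : ℂ) (R j), Φ j z ∈ ball (j : ℂ) (R j) := by
      intro z hz
      by_contra hcon
      have : Φ j (Φ j z) = Φ j z := hjj _ hcon
      rw [(Φ j).injective this] at hcon
      exact hcon hz
    refine ⟨(Φ j).trans Θ, ?_, ?_⟩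
    · intro z hz
      rw [Homeomorph.trans_apply, hjj z (hz j (Finset.mem_insert_self j J))]
      exact h1 z fun i hi => hz i (Finset.mem_insert_of_mem hi)
    · intro i hi z hz
      rw [Homeomorph.trans_apply]
      rcases Finset.mem_insert.1 hi with rfl | hi'
      · apply h1
        intro k hk hk'
        have hne : i ≠ k := fun h => hj (h ▸ hk)
        exact Set.disjoint_left.1 (hd i hi k (Finset.mem_insert_of_mem hk) hne) (hmem z hz) hk'
      · have hne : i ≠ j := fun h => hj (h ▸ hi')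
        have : z ∉ ball (j : ℂ) (R j) := fun h =>
          Set.disjoint_left.1 (hd i hi j (Finset.mem_insert_self j J) hne) hz h
        rw [hjj z this]
        exact h2 i hi' z hz

/-- A set of fixed points of a bijection is invariant. -/
private theorem col_fix (Θ : ℂ ≃ₜ ℂ) (S : Set ℂ) (h : ∀ z ∈ S, Θ z = z) (z : ℂ) :
    Θ z ∈ S ↔ z ∈ S := by
  constructor
  · intro hz
    have : Θ z = z := Θ.injective (h _ hz)
    rwa [this] at hz
  · intro hz
    rwa [h z hz]

open Classical in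
/-- The configuration with smaller free holes. -/
private noncomputable def colConf (C : Conf) (r : ℝ → ℝ) : Conf where
  F := C.F
  I := C.I
  rad := fun i => if C.lab i = Lab.O then r i else C.rad i
  lab := C.lab

/-- COL. -/
theorem thm_COL (hCFIN : St_CFIN) (hPOL : St_POL) : St_COL := by
  classical
  intro X _ _ t p o L Bd A u η hFP hA hdis hη
  obtain ⟨C₀, hok, hF, hT, hP, hO, q₀, hpres, hu, hBd⟩ := hFP
  obtain ⟨-, -, -, hfin, -, -, -, -⟩ := hCFIN C₀ hok
  obtain ⟨hIfin, hDom⟩ := hfin hF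
  have hRpos : ∀ i ∈ C₀.I, 0 < C₀.rad i := hok.pos
  -- the holes of the labels T and P are in the balls, and the domain is inside
  have hholeO : ∀ i ∈ C₀.I, C₀.lab i = Lab.O → C₀.holes i = ball (i : ℂ) (C₀.rad i / 2) := by
    intro i _ hl
    simp [Conf.holes, hl]
  -- choice of epsilon
  have heps : ∀ i ∈ C₀.I, C₀.lab i = Lab.O → ∃ s : ℝ, C₀.rad i / 2 < s ∧ s < C₀.rad i ∧
      ∀ z ∈ C₀.Dom, q₀ z ∈ A → z ∉ closedBall (i : ℂ) s := by
    intro i hi hl
    have hK : IsCompact (C₀.Dom ∩ q₀ ⁻¹' A) := by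
      have := hpres.cont.preimage_isClosed_of_isClosed hDom.isClosed hA
      exact hDom.of_isClosed_subset this inter_subset_left
    have hsep : ∀ z ∈ C₀.Dom ∩ q₀ ⁻¹' A, C₀.rad i / 2 < dist z (i : ℂ) := by
      rintro z ⟨hz, hzA⟩
      have h1 : z ∉ ball (i : ℂ) (C₀.rad i / 2) := by
        intro h
        apply hz.2
        right
        rw [mem_iUnion₂]
        exact ⟨i, hi, by rwa [hholeO i hi hl]⟩
      have h2 : z ∉ sphere (i : ℂ) (C₀.rad i / 2) := by
        intro h
        apply Set.disjoint_left.1 hdis hzA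
        rw [hBd]
        refine mem_image_of_mem _ ?_
        simp only [Conf.FreeBd, mem_iUnion₂]
        exact ⟨i, ⟨hi, hl⟩, h⟩
      rw [mem_ball, not_lt] at h1
      exact lt_of_le_of_ne h1 fun h => h2 (mem_sphere.2 h.symm)
    have hR := hRpos i hi
    by_cases hne : (C₀.Dom ∩ q₀ ⁻¹' A).Nonempty
    · obtain ⟨w, hw, hwmin⟩ := hK.exists_isMinOn hne
        (continuous_id.dist (continuous_const (y := (i : ℂ)))).continuousOn
      have hws := hsep w hw
      refine ⟨min ((C₀.rad i / 2 + dist w (i : ℂ)) / 2) (3 / 4 * C₀.rad i), ?_, ?_, ?_⟩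
      · rw [lt_min_iff]
        constructor <;> linarith
      · exact (min_le_right _ _).trans_lt (by linarith)
      · intro z hz hzA hzb
        rw [mem_closedBall] at hzb
        have h1 : dist w (i : ℂ) ≤ dist z (i : ℂ) := hwmin (show z ∈ C₀.Dom ∩ q₀ ⁻¹' A from ⟨hz, hzA⟩)
        have h2 := hzb.trans (min_le_left _ _)
        linarith
    · refine ⟨3 / 4 * C₀.rad i, by linarith, by linarith, ?_⟩
      intro z hz hzA _
      exact hne ⟨z, hz, hzA⟩
  have hone : ∀ i : ℝ, ∃ (r s : ℝ) (Φ : ℂ ≃ₜ ℂ), i ∈ C₀.I → C₀.lab i = Lab.O →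
      0 < r ∧ r ≤ η ∧ r < C₀.rad i ∧ s < C₀.rad i ∧
      (∀ z ∈ C₀.Dom, q₀ z ∈ A → z ∉ closedBall (i : ℂ) s) ∧
      (∀ z, z ∉ ball (i : ℂ) (C₀.rad i) → Φ z = z) ∧
      (∀ z ∈ closedBall (i : ℂ) (r / 2), Φ z = i + ((C₀.rad i / r : ℝ) : ℂ) * (z - i)) ∧
      ∀ z ∈ closedBall (i : ℂ) r, Φ z ∈ closedBall (i : ℂ) s := by
    intro i
    by_cases h : i ∈ C₀.I ∧ C₀.lab i = Lab.O
    · obtain ⟨s, hs1, hs2, hs3⟩ := heps i h.1 h.2
      have hR := hRpos i h.1
      have hr0 : 0 < min η (C₀.rad i / 2) := lt_min hη (by linarith)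
      have hrR : min η (C₀.rad i / 2) < C₀.rad i := (min_le_right _ _).trans_lt (by linarith)
      obtain ⟨Φ, f1, f2, f3⟩ := col_one hPOL (i : ℂ) _ s (C₀.rad i) hr0 hrR hs1 hs2
      exact ⟨min η (C₀.rad i / 2), s, Φ, fun _ _ =>
        ⟨hr0, min_le_left _ _, hrR, hs2, hs3, f1, f2, f3⟩⟩
    · exact ⟨0, 0, Homeomorph.refl ℂ, fun h1 h2 => absurd ⟨h1, h2⟩ h⟩
  choose r s Φ hall using hone
  -- the centres of the free holes
  have hJfin : {i ∈ C₀.I | C₀.lab i = Lab.O}.Finite := hIfin.subset (sep_subset _ _)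
  set J : Finset ℝ := hJfin.toFinset with hJ
  have hJm : ∀ i, i ∈ J ↔ i ∈ C₀.I ∧ C₀.lab i = Lab.O := by
    intro i
    rw [hJ, Set.Finite.mem_toFinset]
    rfl
  have hballs : ∀ i ∈ C₀.I, ∀ j ∈ C₀.I, i ≠ j →
      Disjoint (closedBall (i : ℂ) (C₀.rad i)) (closedBall (j : ℂ) (C₀.rad j)) := by
    intro i hi j hj hne
    apply closedBall_disjoint_closedBall
    rw [dist_eq_norm, ← Complex.ofReal_sub, Complex.norm_real, Real.norm_eq_abs]
    exact hok.apart i hi j hj hne
  obtain ⟨Θ, hΘ1, hΘ2⟩ := col_many C₀.rad Φ J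
    (fun i hi j hj hne => (hballs i ((hJm i).1 hi).1 j ((hJm j).1 hj).1 hne).mono
      ball_subset_closedBall ball_subset_closedBall)
    (fun i hi => (hall i ((hJm i).1 hi).1 ((hJm i).1 hi).2).2.2.2.2.2.1)
  -- fixed points
  have hfixB : ∀ i ∈ C₀.I, C₀.lab i ≠ Lab.O → ∀ z ∈ closedBall (i : ℂ) (C₀.rad i), Θ z = z := by
    intro i hi hl z hz
    apply hΘ1
    intro j hj hzj
    have hj' := (hJm j).1 hj
    have hne : i ≠ j := fun h => hl (h ▸ hj'.2)
    exact Set.disjoint_left.1 (hballs i hi j hj'.1 hne) hz (ball_subset_closedBall hzj)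
  have hfixO : ∀ z : ℂ, 1 ≤ ‖z‖ → Θ z = z := by
    intro z hz
    apply hΘ1
    intro j hj hzj
    have hj' := (hJm j).1 hj
    have h1 := hok.inside j hj'.1
    rw [mem_ball, dist_eq_norm] at hzj
    have h2 : ‖z‖ ≤ ‖z - (j : ℂ)‖ + ‖(j : ℂ)‖ := by
      simpa using norm_add_le (z - (j : ℂ)) (j : ℂ)
    rw [Complex.norm_real, Real.norm_eq_abs] at h2
    linarith
  have hCB : ∀ z : ℂ, Θ z ∈ closedBall (0 : ℂ) 1 ↔ z ∈ closedBall (0 : ℂ) 1 := by
    intro z
    have := col_fix Θ (closedBall (0 : ℂ) 1)ᶜ (fun w hw => hfixO w (by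
      rw [mem_compl_iff, mem_closedBall, dist_zero_right, not_le] at hw
      exact hw.le)) z
    rw [mem_compl_iff, mem_compl_iff, not_iff_not] at this
    exact this
  -- the scaling
  have hscale : ∀ i ∈ C₀.I, C₀.lab i = Lab.O → ∀ z ∈ closedBall (i : ℂ) (r i / 2),
      Θ z = i + ((C₀.rad i / r i : ℝ) : ℂ) * (z - i) := by
    intro i hi hl z hz
    obtain ⟨h0, h1, h2, h3, h4, h5, h6, h7⟩ := hall i hi hl
    rw [hΘ2 i ((hJm i).2 ⟨hi, hl⟩) z, h6 z hz]
    exact closedBall_subset_ball (by linarith) hz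
  have hkey : ∀ i ∈ C₀.I, C₀.lab i = Lab.O → ∀ z, ∀ ρ ≤ 1 / 2,
      (dist (Θ z) (i : ℂ) = ρ * C₀.rad i ↔ dist z (i : ℂ) = ρ * r i) := by
    intro i hi hl z ρ hρ
    obtain ⟨h0, h1, h2, h3, h4, h5, h6, h7⟩ := hall i hi hl
    have hR := hRpos i hi
    have hdist : ∀ w ∈ closedBall (i : ℂ) (r i / 2),
        dist (Θ w) (i : ℂ) = C₀.rad i / r i * dist w (i : ℂ) := by
      intro w hw
      rw [hscale i hi hl w hw, dist_eq_norm, dist_eq_norm, add_sub_cancel_left, norm_mul,
        Complex.norm_real, Real.norm_of_nonneg (by positivity)]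
    constructor
    · intro h
      set w : ℂ := i + ((r i / C₀.rad i : ℝ) : ℂ) * (Θ z - i) with hw
      have hRne : (C₀.rad i : ℂ) ≠ 0 := by exact_mod_cast hR.ne'
      have hrne : (r i : ℂ) ≠ 0 := by exact_mod_cast h0.ne'
      have hwd : dist w (i : ℂ) = ρ * r i := by
        rw [hw, dist_eq_norm, add_sub_cancel_left, norm_mul, Complex.norm_real,
          Real.norm_of_nonneg (by positivity), ← dist_eq_norm, h]
        field_simp
      have hwm : w ∈ closedBall (i : ℂ) (r i / 2) := by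
        rw [mem_closedBall, hwd]
        nlinarith
      have : Θ w = Θ z := by
        rw [hscale i hi hl w hwm, hw, add_sub_cancel_left]
        push_cast
        field_simp
        ring
      rw [← Θ.injective this, hwd]
    · intro h
      have hzm : z ∈ closedBall (i : ℂ) (r i / 2) := by
        rw [mem_closedBall, h]
        nlinarith
      rw [hdist z hzm, h]
      field_simp
  have hkey2 : ∀ i ∈ C₀.I, C₀.lab i = Lab.O → ∀ z,
      (Θ z ∈ ball (i : ℂ) (C₀.rad i / 2) ↔ z ∈ ball (i : ℂ) (r i / 2)) := by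
    intro i hi hl z
    obtain ⟨h0, h1, h2, h3, h4, h5, h6, h7⟩ := hall i hi hl
    have hR := hRpos i hi
    rw [mem_ball, mem_ball]
    constructor
    · intro h
      have := (hkey i hi hl z (dist (Θ z) (i : ℂ) / C₀.rad i) (by
        rw [div_le_iff₀ hR]; linarith)).1 (by field_simp)
      rw [this]
      rw [div_mul_eq_mul_div, div_lt_iff₀ hR]
      nlinarith
    · intro h
      have := (hkey i hi hl z (dist z (i : ℂ) / r i) (by
        rw [div_le_iff₀ h0]; linarith)).2 (by field_simp)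
      rw [this]
      rw [div_mul_eq_mul_div, div_lt_iff₀ h0]
      nlinarith
  -- the holes
  set C : Conf := colConf C₀ r with hC
  have hCrO : ∀ i, C₀.lab i = Lab.O → C.rad i = r i := fun i hl => if_pos hl
  have hCrN : ∀ i, C₀.lab i ≠ Lab.O → C.rad i = C₀.rad i := fun i hl => if_neg hl
  have hlab : ∀ i, C.lab i = C₀.lab i := fun i => rfl
  have hIeq : C.I = C₀.I := rfl
  have hFeq : C.F = C₀.F := rfl
  have hsubT : ∀ i ∈ C₀.I, ∀ (e : ℝ), |e| = C₀.rad i / 2 →
      closedBall ((i + e : ℝ) : ℂ) (C₀.rad i / 8) ⊆ closedBall (i : ℂ) (C₀.rad i) := by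
    intro i hi e he
    have hR := hRpos i hi
    apply closedBall_subset_closedBall'
    rw [dist_eq_norm, ← Complex.ofReal_sub, Complex.norm_real, Real.norm_eq_abs,
      add_sub_cancel_left, he]
    linarith
  have hsubP : ∀ i ∈ C₀.I, closedBall (i : ℂ) (C₀.rad i / 2) ⊆ closedBall (i : ℂ) (C₀.rad i) :=
    fun i hi => closedBall_subset_closedBall (by have := hRpos i hi; linarith)
  have hTm : ∀ i ∈ C₀.I, closedBall ((i - C₀.rad i / 2 : ℝ) : ℂ) (C₀.rad i / 8) ⊆
      closedBall (i : ℂ) (C₀.rad i) := by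
    intro i hi
    have := hsubT i hi (-(C₀.rad i / 2)) (by rw [abs_neg, abs_of_pos]; linarith [hRpos i hi])
    rwa [← sub_eq_add_neg] at this
  have hTp : ∀ i ∈ C₀.I, closedBall ((i + C₀.rad i / 2 : ℝ) : ℂ) (C₀.rad i / 8) ⊆
      closedBall (i : ℂ) (C₀.rad i) := by
    intro i hi
    exact hsubT i hi (C₀.rad i / 2) (by rw [abs_of_pos]; linarith [hRpos i hi])
  have hholes : ∀ i ∈ C₀.I, ∀ z, (Θ z ∈ C₀.holes i ↔ z ∈ C.holes i) := by
    intro i hi z
    cases hl : C₀.lab i with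
    | T =>
      have hne : C₀.lab i ≠ Lab.O := by simp [hl]
      have e1 : C.holes i = C₀.holes i := by
        simp only [Conf.holes, hlab, hl, hCrN i hne]
      rw [e1]
      apply col_fix
      intro w hw
      simp only [Conf.holes, hl] at hw
      rcases hw with hw | hw
      · exact hfixB i hi hne w (hTm i hi (ball_subset_closedBall hw))
      · exact hfixB i hi hne w (hTp i hi (ball_subset_closedBall hw))
    | P =>
      have hne : C₀.lab i ≠ Lab.O := by simp [hl]
      have e1 : C.holes i = C₀.holes i := by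
        simp only [Conf.holes, hlab, hl, hCrN i hne]
      rw [e1]
      apply col_fix
      intro w hw
      simp only [Conf.holes, hl] at hw
      exact hfixB i hi hne w (hsubP i hi (ball_subset_closedBall hw))
    | O =>
      have e1 : C.holes i = ball (i : ℂ) (r i / 2) := by
        simp only [Conf.holes, hlab, hl, hCrO i hl]
      rw [e1, hholeO i hi hl]
      exact hkey2 i hi hl z
  have hDomiff : ∀ z, Θ z ∈ C₀.Dom ↔ z ∈ C.Dom := by
    intro z
    simp only [Conf.Dom, hFeq, hF, image_empty, empty_union, Set.mem_sdiff, mem_iUnion, exists_prop, hIeq, hCB]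
    constructor
    · rintro ⟨h1, h2⟩
      exact ⟨h1, fun ⟨i, hi, hz⟩ => h2 ⟨i, hi, (hholes i hi z).2 hz⟩⟩
    · rintro ⟨h1, h2⟩
      exact ⟨h1, fun ⟨i, hi, hz⟩ => h2 ⟨i, hi, (hholes i hi z).1 hz⟩⟩
  have hDomim : Θ '' C.Dom = C₀.Dom := by
    ext w
    constructor
    · rintro ⟨z, hz, rfl⟩
      exact (hDomiff z).2 hz
    · intro hw
      refine ⟨Θ.symm w, (hDomiff _).1 ?_, Θ.apply_symm_apply w⟩
      rwa [Θ.apply_symm_apply]
  have hradle : ∀ i ∈ C₀.I, C.rad i ≤ C₀.rad i := by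
    intro i hi
    by_cases hl : C₀.lab i = Lab.O
    · rw [hCrO i hl]
      exact (hall i hi hl).2.2.1.le
    · rw [hCrN i hl]
  have hradpos : ∀ i ∈ C₀.I, 0 < C.rad i := by
    intro i hi
    by_cases hl : C₀.lab i = Lab.O
    · rw [hCrO i hl]
      exact (hall i hi hl).1
    · rw [hCrN i hl]
      exact hRpos i hi
  have hfbiff : ∀ z, Θ z ∈ C₀.FreeBd ↔ z ∈ C.FreeBd := by
    intro z
    simp only [Conf.FreeBd, mem_iUnion, mem_ofPred_eq, hlab, hIeq, mem_sphere, exists_prop]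
    apply exists_congr
    intro i
    constructor
    · rintro ⟨⟨hi, hl⟩, h⟩
      refine ⟨⟨hi, hl⟩, ?_⟩
      rw [hCrO i hl]
      have := (hkey i hi hl z (1 / 2) le_rfl).1 (by rw [h]; ring)
      rw [this]; ring
    · rintro ⟨⟨hi, hl⟩, h⟩
      refine ⟨⟨hi, hl⟩, ?_⟩
      rw [hCrO i hl] at h
      have := (hkey i hi hl z (1 / 2) le_rfl).2 (by rw [h]; ring)
      rw [this]; ring
  have hfbim : Θ '' C.FreeBd = C₀.FreeBd := by
    ext w
    constructor
    · rintro ⟨z, hz, rfl⟩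
      exact (hfbiff z).2 hz
    · intro hw
      refine ⟨Θ.symm w, (hfbiff _).1 ?_, Θ.apply_symm_apply w⟩
      rwa [Θ.apply_symm_apply]
  -- the relation
  have hrefl : ∀ (i : ℝ) (x : ℂ), dist (2 * (i : ℂ) - (starRingEnd ℂ) x) (i : ℂ) = dist x (i : ℂ) := by
    intro i x
    rw [dist_eq_norm, dist_eq_norm]
    have : 2 * (i : ℂ) - (starRingEnd ℂ) x - i = -(starRingEnd ℂ) (x - i) := by
      rw [map_sub, Complex.conj_ofReal]
      ring
    rw [this, norm_neg, RCLike.norm_conj]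
  have hrefl2 : ∀ (i : ℝ) (x : ℂ), dist (2 * (i : ℂ) - x) (i : ℂ) = dist x (i : ℂ) := by
    intro i x
    rw [dist_eq_norm, dist_eq_norm]
    have : 2 * (i : ℂ) - x - i = -(x - i) := by ring
    rw [this, norm_neg]
  have hrel : ∀ x y : ℂ, C₀.Rel (Θ x) (Θ y) ↔ C.Rel x y := by
    intro x y
    have hfixT : ∀ i ∈ C₀.I, C₀.lab i = Lab.T → ∀ w : ℂ,
        (w ∈ sphere ((i - C₀.rad i / 2 : ℝ) : ℂ) (C₀.rad i / 8) ∨
          w ∈ sphere ((i + C₀.rad i / 2 : ℝ) : ℂ) (C₀.rad i / 8)) →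
        w ∈ closedBall (i : ℂ) (C₀.rad i) := by
      intro i hi _ w hw
      rcases hw with hw | hw
      · exact hTm i hi (sphere_subset_closedBall hw)
      · exact hTp i hi (sphere_subset_closedBall hw)
    constructor
    · rintro (h | ⟨i, hi, ⟨hl, hx, hy⟩ | ⟨hl, hx, hy⟩⟩)
      · exact Or.inl (Θ.injective h)
      · have hne : C₀.lab i ≠ Lab.O := by simp [hl]
        have hxm := hfixT i hi hl _ hx
        have hym : Θ y ∈ closedBall (i : ℂ) (C₀.rad i) := by
          rw [mem_closedBall] at hxm ⊢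
          rwa [hy, hrefl]
        have hx1 : Θ x = x := Θ.injective (hfixB i hi hne _ hxm)
        have hy1 : Θ y = y := Θ.injective (hfixB i hi hne _ hym)
        rw [hx1] at hx hy
        rw [hy1] at hy
        refine Or.inr ⟨i, hi, Or.inl ⟨hl, ?_, hy⟩⟩
        rw [hCrN i hne]
        exact hx
      · have hne : C₀.lab i ≠ Lab.O := by simp [hl]
        have hxm := hsubP i hi (sphere_subset_closedBall hx)
        have hym : Θ y ∈ closedBall (i : ℂ) (C₀.rad i) := by
          rw [mem_closedBall] at hxm ⊢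
          rwa [hy, hrefl2]
        have hx1 : Θ x = x := Θ.injective (hfixB i hi hne _ hxm)
        have hy1 : Θ y = y := Θ.injective (hfixB i hi hne _ hym)
        rw [hx1] at hx hy
        rw [hy1] at hy
        refine Or.inr ⟨i, hi, Or.inr ⟨hl, ?_, hy⟩⟩
        rw [hCrN i hne]
        exact hx
    · rintro (h | ⟨i, hi, ⟨hl, hx, hy⟩ | ⟨hl, hx, hy⟩⟩)
      · exact Or.inl (by rw [h])
      · have hl' : C₀.lab i = Lab.T := hl
        have hne : C₀.lab i ≠ Lab.O := by simp [hl']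
        rw [hCrN i hne] at hx
        have hxm := hfixT i hi hl' _ hx
        have hym : y ∈ closedBall (i : ℂ) (C₀.rad i) := by
          rw [mem_closedBall] at hxm ⊢
          rwa [hy, hrefl]
        rw [hfixB i hi hne _ hxm, hfixB i hi hne _ hym]
        exact Or.inr ⟨i, hi, Or.inl ⟨hl', hx, hy⟩⟩
      · have hl' : C₀.lab i = Lab.P := hl
        have hne : C₀.lab i ≠ Lab.O := by simp [hl']
        rw [hCrN i hne] at hx
        have hxm := hsubP i hi (sphere_subset_closedBall hx)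
        have hym : y ∈ closedBall (i : ℂ) (C₀.rad i) := by
          rw [mem_closedBall] at hxm ⊢
          rwa [hy, hrefl2]
        rw [hfixB i hi hne _ hxm, hfixB i hi hne _ hym]
        exact Or.inr ⟨i, hi, Or.inr ⟨hl', hx, hy⟩⟩
  refine ⟨C, q₀ ∘ Θ, ?_, hF, hT, hP, hO, ?_, ?_, ?_, ?_⟩
  · exact {
      closed := hok.closed
      compact := hok.compact
      td := hok.td
      small := hok.small
      pos := hradpos
      inside := fun i hi => lt_of_le_of_lt (by have := hradle i hi; linarith) (hok.inside i hi)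
      away := fun i hi x hx => (hradle i hi).trans_lt (hok.away i hi x hx)
      apart := fun i hi j hj hne => lt_of_le_of_lt
        (by have := hradle i hi; have := hradle j hj; linarith) (hok.apart i hi j hj hne) }
  · refine ⟨?_, ?_, ?_, ?_⟩
    · exact hpres.cont.comp Θ.continuous.continuousOn fun z hz => (hDomiff z).2 hz
    · rw [image_comp, hDomim, hpres.image]
    · intro x hx y hy
      rw [← hrel x y]
      exact hpres.rel _ ((hDomiff x).2 hx) _ ((hDomiff y).2 hy)
    · intro A' hA' hcA'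
      obtain ⟨B, hB1, hB2, hB3⟩ := hpres.proper A' hA' hcA'
      refine ⟨Θ ⁻¹' B, fun z hz => (hDomiff z).1 (hB1 hz), ?_, ?_⟩
      · exact Θ.isCompact_preimage.2 hB2
      · intro x hx hxA
        exact hB3 _ ((hDomiff x).2 hx) hxA
  · intro z hz
    have h1 : Θ z = z := hfixO z (by rw [mem_sphere, dist_zero_right] at hz; exact hz.ge)
    rw [Function.comp_apply, h1]
    exact hu z hz
  · rw [image_comp, hfbim, hBd]
  · intro i hi hl
    obtain ⟨h0, h1, h2, h3, h4, h5, h6, h7⟩ := hall i hi hl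
    have hl' : C₀.lab i = Lab.O := hl
    rw [hCrO i hl']
    refine ⟨h1, ?_⟩
    rw [Set.disjoint_left]
    rintro _ ⟨z, ⟨hz, hzb⟩, rfl⟩ hzA
    apply h4 (Θ z) ((hDomiff z).2 hz) hzA
    have hzb' : z ∈ ball (i : ℂ) (C₀.rad i) := closedBall_subset_ball h2 hzb
    rw [hΘ2 i ((hJm i).2 ⟨hi, hl⟩) z hzb']
    exact h7 z hzb

end Pool.Agent.SRP
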