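import Pool.Agent.SRP.StD
import Pool.Agent.SRP.RED

/-!
# SRP DYCK: handle and crosscap equal three crosscaps
-/

set_option autoImplicit false

open Set Metric Filter Topology Pool.Agent.SRF

namespace Pool.Agent.SRP

/-! ## Configurations -/

theorem dyck_ok {C : Conf} (hF : C.F = ∅) (hfin : C.I.Finite) (pos : ∀ i ∈ C.I, 0 < C.rad i)
    (inside : ∀ i ∈ C.I, |i| + C.rad i < 1)
    (apart : ∀ i ∈ C.I, ∀ j ∈ C.I, i < j → C.rad i + C.rad j < j - i) : C.Ok where
  closed := by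
    rw [hF]
    exact isClosed_empty
  compact := by
    rw [hF, empty_union]
    exact hfin.isCompact
  td := by
    rw [hF]
    exact isTotallyDisconnected_empty
  small := fun x hx => by
    rw [hF] at hx
    exact absurd hx (notMem_empty x)
  pos := pos
  inside := inside
  away := fun i _ x hx => by
    rw [hF] at hx
    exact absurd hx (notMem_empty x)
  apart := fun i hi j hj h => by
    rcases lt_or_gt_of_ne h with h1 | h1
    · have := apart i hi j hj h1
      rw [abs_sub_comm, abs_of_pos (by linarith)]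
      exact this
    · have := apart j hj i hi h1
      rw [abs_of_pos (by linarith)]
      linarith

/-- a crosscap and a handle -/
noncomputable def dyck_D : Conf where
  F := ∅
  I := {-(1 / 2), 1 / 2}
  rad := fun _ => 1 / 4
  lab := fun x => if x < 0 then Lab.P else Lab.T

/-- a crosscap and two free holes -/
noncomputable def dyck_W : Conf where
  F := ∅
  I := {-(1 / 2), 3 / 8, 5 / 8}
  rad := fun x => if x < 0 then 1 / 4 else 3 / 32
  lab := fun x => if x < 0 then Lab.P else Lab.O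

/-- two free holes and a crosscap between them -/
noncomputable def dyck_V : Conf where
  F := ∅
  I := {-(1 / 2), 3 / 8, 5 / 8}
  rad := fun x => if x < 0 then 1 / 4 else 1 / 16
  lab := fun x => if x = 3 / 8 then Lab.P else Lab.O

theorem dyck_D_ok : dyck_D.Ok := by
  refine dyck_ok rfl (show ({-(1 / 2), 1 / 2} : Set ℝ).Finite from toFinite _) (fun i _ => ?_) (fun i hi => ?_) (fun i hi j hj h => ?_)
  · show (0 : ℝ) < 1 / 4
    norm_num
  · show |i| + 1 / 4 < 1
    rcases hi with rfl | rfl <;> norm_num [abs_of_pos, abs_neg]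
  · show (1 : ℝ) / 4 + 1 / 4 < j - i
    rcases hi with rfl | rfl <;> rcases hj with rfl | rfl <;>
      first | (exfalso; norm_num at h; done) | norm_num

theorem dyck_sl_ok : slC.Ok := by
  refine dyck_ok rfl (show ({-(1 / 2), 1 / 2} : Set ℝ).Finite from toFinite _) (fun i _ => ?_) (fun i hi => ?_) (fun i hi j hj h => ?_)
  · show (0 : ℝ) < 1 / 4
    norm_num
  · show |i| + 1 / 4 < 1
    rcases hi with rfl | rfl <;> norm_num [abs_of_pos, abs_neg]
  · show (1 : ℝ) / 4 + 1 / 4 < j - i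
    rcases hi with rfl | rfl <;> rcases hj with rfl | rfl <;>
      first | (exfalso; norm_num at h; done) | norm_num

theorem dyck_W_ok : dyck_W.Ok := by
  refine dyck_ok rfl (show ({-(1 / 2), 3 / 8, 5 / 8} : Set ℝ).Finite from toFinite _) (fun i hi => ?_) (fun i hi => ?_) (fun i hi j hj h => ?_)
  · show (0 : ℝ) < if i < 0 then 1 / 4 else 3 / 32
    split_ifs <;> norm_num
  · show |i| + (if i < 0 then 1 / 4 else 3 / 32) < 1
    rcases hi with rfl | rfl | rfl <;> norm_num [abs_of_pos, abs_neg]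
  · show (if i < 0 then (1 : ℝ) / 4 else 3 / 32) + (if j < 0 then (1 : ℝ) / 4 else 3 / 32) < j - i
    rcases hi with rfl | rfl | rfl <;> rcases hj with rfl | rfl | rfl <;>
      first | (exfalso; norm_num at h; done) | norm_num

theorem dyck_V_ok : dyck_V.Ok := by
  refine dyck_ok rfl (show ({-(1 / 2), 3 / 8, 5 / 8} : Set ℝ).Finite from toFinite _) (fun i hi => ?_) (fun i hi => ?_) (fun i hi j hj h => ?_)
  · show (0 : ℝ) < if i < 0 then 1 / 4 else 1 / 16
    split_ifs <;> norm_num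
  · show |i| + (if i < 0 then 1 / 4 else 1 / 16) < 1
    rcases hi with rfl | rfl | rfl <;> norm_num [abs_of_pos, abs_neg]
  · show (if i < 0 then (1 : ℝ) / 4 else 1 / 16) + (if j < 0 then (1 : ℝ) / 4 else 1 / 16) < j - i
    rcases hi with rfl | rfl | rfl <;> rcases hj with rfl | rfl | rfl <;>
      first | (exfalso; norm_num at h; done) | norm_num

theorem dyck_D_cnt : dyck_D.cnt Lab.T = 1 ∧ dyck_D.cnt Lab.P = 1 ∧ dyck_D.cnt Lab.O = 0 := by
  have hT : {i ∈ dyck_D.I | dyck_D.lab i = Lab.T} = {1 / 2} := by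
    ext i
    constructor
    · rintro ⟨rfl | h, h2⟩
      · exfalso
        have h3 : (if (-(1 / 2) : ℝ) < 0 then Lab.P else Lab.T) = Lab.T := h2
        rw [if_pos (by norm_num)] at h3
        cases h3
      · exact h
    · rintro rfl
      refine ⟨Or.inr rfl, ?_⟩
      show (if (1 / 2 : ℝ) < 0 then Lab.P else Lab.T) = Lab.T
      norm_num
  have hP : {i ∈ dyck_D.I | dyck_D.lab i = Lab.P} = {-(1 / 2)} := by
    ext i
    constructor
    · rintro ⟨h | rfl, h2⟩
      · exact h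
      · exfalso
        have h3 : (if (1 / 2 : ℝ) < 0 then Lab.P else Lab.T) = Lab.P := h2
        rw [if_neg (by norm_num)] at h3
        cases h3
    · rintro rfl
      refine ⟨Or.inl rfl, ?_⟩
      show (if (-(1 / 2) : ℝ) < 0 then Lab.P else Lab.T) = Lab.P
      norm_num
  have hO : {i ∈ dyck_D.I | dyck_D.lab i = Lab.O} = ∅ := by
    ext i
    constructor
    · rintro ⟨-, h2⟩
      exfalso
      have h3 : (if i < 0 then Lab.P else Lab.T) = Lab.O := h2
      split_ifs at h3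
    · intro h
      exact absurd h (notMem_empty i)
  unfold Conf.cnt
  rw [hT, hP, hO]
  simp

theorem dyck_W_cnt : dyck_W.cnt Lab.T = 0 ∧ dyck_W.cnt Lab.P = 1 ∧ dyck_W.cnt Lab.O = 2 := by
  have hT : {i ∈ dyck_W.I | dyck_W.lab i = Lab.T} = ∅ := by
    ext i
    constructor
    · rintro ⟨-, h2⟩
      exfalso
      have h3 : (if i < 0 then Lab.P else Lab.O) = Lab.T := h2
      split_ifs at h3
    · intro h
      exact absurd h (notMem_empty i)
  have hP : {i ∈ dyck_W.I | dyck_W.lab i = Lab.P} = {-(1 / 2)} := by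
    ext i
    constructor
    · rintro ⟨h | h, h2⟩
      · exact h
      · exfalso
        have h3 : (if i < 0 then Lab.P else Lab.O) = Lab.P := h2
        rcases h with rfl | rfl
        · rw [if_neg (by norm_num)] at h3
          cases h3
        · rw [if_neg (by norm_num)] at h3
          cases h3
    · rintro rfl
      refine ⟨Or.inl rfl, ?_⟩
      show (if (-(1 / 2) : ℝ) < 0 then Lab.P else Lab.O) = Lab.P
      norm_num
  have hO : {i ∈ dyck_W.I | dyck_W.lab i = Lab.O} = {3 / 8, 5 / 8} := by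
    ext i
    constructor
    · rintro ⟨rfl | h, h2⟩
      · exfalso
        have h3 : (if (-(1 / 2) : ℝ) < 0 then Lab.P else Lab.O) = Lab.O := h2
        rw [if_pos (by norm_num)] at h3
        cases h3
      · exact h
    · intro h
      refine ⟨Or.inr h, ?_⟩
      show (if i < 0 then Lab.P else Lab.O) = Lab.O
      rcases h with rfl | rfl <;> norm_num
  unfold Conf.cnt
  rw [hT, hP, hO, ncard_pair (by norm_num)]
  simp

theorem dyck_V_cnt : dyck_V.cnt Lab.T = 0 ∧ dyck_V.cnt Lab.P = 1 ∧ dyck_V.cnt Lab.O = 2 := by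
  have hT : {i ∈ dyck_V.I | dyck_V.lab i = Lab.T} = ∅ := by
    ext i
    constructor
    · rintro ⟨-, h2⟩
      exfalso
      have h3 : (if i = 3 / 8 then Lab.P else Lab.O) = Lab.T := h2
      split_ifs at h3
    · intro h
      exact absurd h (notMem_empty i)
  have hP : {i ∈ dyck_V.I | dyck_V.lab i = Lab.P} = {3 / 8} := by
    ext i
    constructor
    · rintro ⟨-, h2⟩
      have h3 : (if i = 3 / 8 then Lab.P else Lab.O) = Lab.P := h2
      split_ifs at h3 with h4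
      exact h4
    · rintro rfl
      refine ⟨Or.inr (Or.inl rfl), ?_⟩
      show (if (3 / 8 : ℝ) = 3 / 8 then Lab.P else Lab.O) = Lab.P
      simp
  have hO : {i ∈ dyck_V.I | dyck_V.lab i = Lab.O} = {-(1 / 2), 5 / 8} := by
    ext i
    constructor
    · rintro ⟨h | h | h, h2⟩
      · exact Or.inl h
      · exfalso
        have h3 : (if i = 3 / 8 then Lab.P else Lab.O) = Lab.O := h2
        rw [if_pos h] at h3
        simp at h3
      · exact Or.inr h
    · rintro (rfl | rfl)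
      · refine ⟨Or.inl rfl, ?_⟩
        show (if (-(1 / 2) : ℝ) = 3 / 8 then Lab.P else Lab.O) = Lab.O
        norm_num
      · refine ⟨Or.inr (Or.inr rfl), ?_⟩
        show (if (5 / 8 : ℝ) = 3 / 8 then Lab.P else Lab.O) = Lab.O
        norm_num
  unfold Conf.cnt
  rw [hT, hP, hO, ncard_pair (by norm_num)]
  simp

theorem dyck_V_slot : dyck_V.Slot (1 / 2) (1 / 4) where
  pos := by norm_num
  inside := by norm_num [abs_of_pos]
  away := fun x hx => absurd hx (notMem_empty x)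
  ball := fun i hi => by
    show |i - 1 / 2| + (if i < 0 then (1 : ℝ) / 4 else 1 / 16) ≤ 1 / 4 ∨
      1 / 4 + (if i < 0 then (1 : ℝ) / 4 else 1 / 16) < |i - 1 / 2|
    rcases hi with rfl | rfl | rfl
    · right
      rw [show (-(1 / 2) : ℝ) - 1 / 2 = -1 by norm_num]
      norm_num
    · left
      rw [show (3 / 8 : ℝ) - 1 / 2 = -(1 / 8) by norm_num, abs_neg, abs_of_pos (by norm_num)]
      norm_num
    · left
      rw [show (5 / 8 : ℝ) - 1 / 2 = 1 / 8 by norm_num, abs_of_pos (by norm_num)]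
      norm_num

theorem dyck_V_content (hCCONG : St_CCONG) :
    (dyck_V.slot (1 / 2) (1 / 4)).Dom = slC.Dom ∧ (dyck_V.slot (1 / 2) (1 / 4)).Rel = slC.Rel := by
  have h := hCCONG slC (dyck_V.slot (1 / 2) (1 / 4)) rfl (by
    ext x
    constructor
    · rintro ⟨h1 | h1 | h1, h2⟩
      · exfalso
        have h3 : x = -4 := by linarith
        rw [h3] at h2
        norm_num at h2
      · left
        show x = -(1 / 2)
        linarith
      · right
        show x = 1 / 2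
        have h1' : (1 : ℝ) / 2 + 1 / 4 * x = 5 / 8 := h1
        linarith
    · rintro (rfl | rfl)
      · refine ⟨Or.inr (Or.inl ?_), ?_⟩
        · norm_num
        · rw [abs_neg, abs_of_pos (by norm_num)]
          norm_num
      · refine ⟨Or.inr (Or.inr ?_), ?_⟩
        · show (1 : ℝ) / 2 + 1 / 4 * (1 / 2) = 5 / 8
          norm_num
        · rw [abs_of_pos (by norm_num)]
          norm_num) (by
    intro i hi
    have e1 : (dyck_V.slot (1 / 2) (1 / 4)).rad i =
        (if (1 / 2 + 1 / 4 * i : ℝ) < 0 then (1 : ℝ) / 4 else 1 / 16) / (1 / 4) := rfl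
    have e2 : (dyck_V.slot (1 / 2) (1 / 4)).lab i =
        if (1 / 2 + 1 / 4 * i : ℝ) = 3 / 8 then Lab.P else Lab.O := rfl
    have e3 : slC.rad i = 1 / 4 := rfl
    have e4 : slC.lab i = if i < 0 then Lab.P else Lab.O := rfl
    rw [e1, e2, e3, e4]
    rcases hi with rfl | rfl <;> norm_num)
  exact ⟨h.1, h.2.1⟩

/-! ## Domains and relations -/

theorem dyck_D_dom (z : ℂ) : z ∈ dyck_D.Dom ↔
    ‖z‖ ≤ 1 ∧ 1 / 8 ≤ ‖z + 1 / 2‖ ∧ 1 / 32 ≤ ‖z - 3 / 8‖ ∧ 1 / 32 ≤ ‖z - 5 / 8‖ := by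
  have h1 : dyck_D.holes (-(1 / 2)) = ball (-(1 / 2)) (1 / 8) := by
    have h : dyck_D.lab (-(1 / 2)) = Lab.P := if_pos (by norm_num)
    unfold Conf.holes
    rw [h]
    have h2 : dyck_D.rad (-(1 / 2)) = 1 / 4 := rfl
    rw [h2]
    norm_num
  have h2 : dyck_D.holes (1 / 2) = ball (3 / 8) (1 / 32) ∪ ball (5 / 8) (1 / 32) := by
    have h : dyck_D.lab (1 / 2) = Lab.T := if_neg (by norm_num)
    unfold Conf.holes
    rw [h]
    have h2 : dyck_D.rad (1 / 2) = 1 / 4 := rfl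
    rw [h2]
    norm_num
  have h3 : (⋃ i ∈ dyck_D.I, dyck_D.holes i) = dyck_D.holes (-(1 / 2)) ∪ dyck_D.holes (1 / 2) := by
    show (⋃ i ∈ ({-(1 / 2), 1 / 2} : Set ℝ), dyck_D.holes i) = _
    rw [biUnion_insert, biUnion_singleton]
  unfold Conf.Dom
  rw [h3, h1, h2, show dyck_D.F = ∅ from rfl, image_empty, empty_union]
  simp only [Set.mem_sdiff, mem_union, mem_closedBall_zero_iff, mem_ball_iff_norm, not_or, not_lt,
    sub_neg_eq_add]

theorem dyck_W_dom (z : ℂ) : z ∈ dyck_W.Dom ↔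
    ‖z‖ ≤ 1 ∧ 1 / 8 ≤ ‖z + 1 / 2‖ ∧ 3 / 64 ≤ ‖z - 3 / 8‖ ∧ 3 / 64 ≤ ‖z - 5 / 8‖ := by
  have h1 : dyck_W.holes (-(1 / 2)) = ball (-(1 / 2)) (1 / 8) := by
    have h : dyck_W.lab (-(1 / 2)) = Lab.P := if_pos (by norm_num)
    unfold Conf.holes
    rw [h]
    have h2 : dyck_W.rad (-(1 / 2)) = 1 / 4 := if_pos (by norm_num)
    rw [h2]
    norm_num
  have h2 : dyck_W.holes (3 / 8) = ball (3 / 8) (3 / 64) := by
    have h : dyck_W.lab (3 / 8) = Lab.O := if_neg (by norm_num)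
    unfold Conf.holes
    rw [h]
    have h2 : dyck_W.rad (3 / 8) = 3 / 32 := if_neg (by norm_num)
    rw [h2]
    norm_num
  have h4 : dyck_W.holes (5 / 8) = ball (5 / 8) (3 / 64) := by
    have h : dyck_W.lab (5 / 8) = Lab.O := if_neg (by norm_num)
    unfold Conf.holes
    rw [h]
    have h2 : dyck_W.rad (5 / 8) = 3 / 32 := if_neg (by norm_num)
    rw [h2]
    norm_num
  have h3 : (⋃ i ∈ dyck_W.I, dyck_W.holes i) =
      dyck_W.holes (-(1 / 2)) ∪ (dyck_W.holes (3 / 8) ∪ dyck_W.holes (5 / 8)) := by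
    show (⋃ i ∈ ({-(1 / 2), 3 / 8, 5 / 8} : Set ℝ), dyck_W.holes i) = _
    rw [biUnion_insert, biUnion_insert, biUnion_singleton]
  unfold Conf.Dom
  rw [h3, h1, h2, h4, show dyck_W.F = ∅ from rfl, image_empty, empty_union]
  simp only [Set.mem_sdiff, mem_union, mem_closedBall_zero_iff, mem_ball_iff_norm, not_or, not_lt,
    sub_neg_eq_add]

theorem dyck_D_rel (x y : ℂ) : dyck_D.Rel x y ↔ x = y ∨
    ((‖x - 3 / 8‖ = 1 / 32 ∨ ‖x - 5 / 8‖ = 1 / 32) ∧ y = 1 - (starRingEnd ℂ) x) ∨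
    (‖x + 1 / 2‖ = 1 / 8 ∧ y = -1 - x) := by
  have l1 : dyck_D.lab (-(1 / 2)) = Lab.P := if_pos (by norm_num)
  have l2 : dyck_D.lab (1 / 2) = Lab.T := if_neg (by norm_num)
  have r : ∀ i, dyck_D.rad i = 1 / 4 := fun i => rfl
  unfold Conf.Rel
  constructor
  · rintro (h | ⟨i, hi, h⟩)
    · exact Or.inl h
    · right
      rcases hi with rfl | rfl
      · rw [l1, r] at h
        right
        rcases h with h | h
        · cases h.1
        · obtain ⟨-, h1, h2⟩ := h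
          rw [mem_sphere_iff_norm] at h1
          constructor
          · rw [← show (1 : ℝ) / 4 / 2 = 1 / 8 by norm_num, ← h1]
            congr 1
            push_cast
            ring
          · rw [h2]
            push_cast
            ring
      · rw [l2, r] at h
        left
        rcases h with h | h
        · obtain ⟨-, h1, h2⟩ := h
          rw [mem_sphere_iff_norm, mem_sphere_iff_norm] at h1
          constructor
          · rcases h1 with h1 | h1
            · left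
              rw [← show (1 : ℝ) / 4 / 8 = 1 / 32 by norm_num, ← h1]
              congr 1
              push_cast
              ring
            · right
              rw [← show (1 : ℝ) / 4 / 8 = 1 / 32 by norm_num, ← h1]
              congr 1
              push_cast
              ring
          · rw [h2]
            push_cast
            ring
        · cases h.1
  · rintro (h | ⟨h1, h2⟩ | ⟨h1, h2⟩)
    · exact Or.inl h
    · right
      refine ⟨1 / 2, Or.inr rfl, ?_⟩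
      rw [l2, r]
      left
      refine ⟨rfl, ?_, ?_⟩
      · rw [mem_sphere_iff_norm, mem_sphere_iff_norm]
        rcases h1 with h1 | h1
        · left
          rw [show (1 : ℝ) / 4 / 8 = 1 / 32 by norm_num, ← h1]
          congr 1
          push_cast
          ring
        · right
          rw [show (1 : ℝ) / 4 / 8 = 1 / 32 by norm_num, ← h1]
          congr 1
          push_cast
          ring
      · rw [h2]
        push_cast
        ring
    · right
      refine ⟨-(1 / 2), Or.inl rfl, ?_⟩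
      rw [l1, r]
      right
      refine ⟨rfl, ?_, ?_⟩
      · rw [mem_sphere_iff_norm, show (1 : ℝ) / 4 / 2 = 1 / 8 by norm_num, ← h1]
        congr 1
        push_cast
        ring
      · rw [h2]
        push_cast
        ring

theorem dyck_W_rel (x y : ℂ) : dyck_W.Rel x y ↔ x = y ∨ (‖x + 1 / 2‖ = 1 / 8 ∧ y = -1 - x) := by
  have l1 : dyck_W.lab (-(1 / 2)) = Lab.P := if_pos (by norm_num)
  have l2 : dyck_W.lab (3 / 8) = Lab.O := if_neg (by norm_num)
  have l3 : dyck_W.lab (5 / 8) = Lab.O := if_neg (by norm_num)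
  have r : dyck_W.rad (-(1 / 2)) = 1 / 4 := if_pos (by norm_num)
  unfold Conf.Rel
  constructor
  · rintro (h | ⟨i, hi, h⟩)
    · exact Or.inl h
    · right
      rcases hi with rfl | rfl | rfl
      · rw [l1, r] at h
        rcases h with h | h
        · cases h.1
        · obtain ⟨-, h1, h2⟩ := h
          rw [mem_sphere_iff_norm] at h1
          constructor
          · rw [← show (1 : ℝ) / 4 / 2 = 1 / 8 by norm_num, ← h1]
            congr 1
            push_cast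
            ring
          · rw [h2]
            push_cast
            ring
      · rw [l2] at h
        rcases h with h | h <;> cases h.1
      · rw [l3] at h
        rcases h with h | h <;> cases h.1
  · rintro (h | ⟨h1, h2⟩)
    · exact Or.inl h
    · right
      refine ⟨-(1 / 2), Or.inl rfl, ?_⟩
      rw [l1, r]
      right
      refine ⟨rfl, ?_, ?_⟩
      · rw [mem_sphere_iff_norm, show (1 : ℝ) / 4 / 2 = 1 / 8 by norm_num, ← h1]
        congr 1
        push_cast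
        ring
      · rw [h2]
        push_cast
        ring

theorem dyck_W_sub : dyck_W.Dom ⊆ dyck_D.Dom := by
  intro z hz
  rw [dyck_W_dom] at hz
  rw [dyck_D_dom]
  exact ⟨hz.1, hz.2.1, by linarith [hz.2.2.1], by linarith [hz.2.2.2]⟩

/-- the part without the tube -/
theorem dyck_W_pres (hCFIN : St_CFIN) {X : Type} [TopologicalSpace X] {L : Set X} {q : ℂ → X}
    (hq : Pres dyck_D L q) : Pres dyck_W (q '' dyck_W.Dom) q where
  cont := hq.cont.mono dyck_W_sub
  image := rfl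
  rel := fun x hx y hy => by
    rw [hq.rel x (dyck_W_sub hx) y (dyck_W_sub hy), dyck_D_rel, dyck_W_rel]
    rw [dyck_W_dom] at hx
    constructor
    · rintro (h | ⟨h | h, -⟩ | h)
      · exact Or.inl h
      · exfalso
        linarith [hx.2.2.1]
      · exfalso
        linarith [hx.2.2.2]
      · exact Or.inr h
    · rintro (h | h)
      · exact Or.inl h
      · exact Or.inr (Or.inr h)
  proper := fun A _ _ => ⟨dyck_W.Dom, Subset.rfl, ((hCFIN _ dyck_W_ok).2.2.2.1 rfl).2,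
    fun x hx _ => hx⟩

/-! ## The tube -/

/-- radius -/
noncomputable def dyck_r (s : ℝ) : ℝ := (2 + |s|) / 64

/-- points near `5/8` -/
noncomputable def dyck_R (ζ : ℂ) (s : ℝ) : ℂ := 5 / 8 + (dyck_r s : ℂ) * ζ

open Classical in
/-- the parametrisation of the tube -/
noncomputable def dyck_Z (ζ : ℂ) (s : ℝ) : ℂ :=
  if 0 ≤ s then dyck_R ζ s else 1 - (starRingEnd ℂ) (dyck_R ζ s)

theorem dyck_r_pos (s : ℝ) : 0 < dyck_r s := by
  unfold dyck_r
  positivity

theorem dyck_r_ge (s : ℝ) : 1 / 32 ≤ dyck_r s := by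
  unfold dyck_r
  linarith [abs_nonneg s]

theorem dyck_r_le {s : ℝ} (hs : |s| ≤ 1) : dyck_r s ≤ 3 / 64 := by
  unfold dyck_r
  linarith

theorem dyck_R_norm {ζ : ℂ} (hζ : ‖ζ‖ = 1) (s : ℝ) : ‖dyck_R ζ s - 5 / 8‖ = dyck_r s := by
  unfold dyck_R
  rw [add_sub_cancel_left, norm_mul, hζ, mul_one, Complex.norm_real,
    Real.norm_of_nonneg (dyck_r_pos s).le]

/-- norm estimates with real centres -/
theorem dyck_ge (z : ℂ) (a b : ℂ) (d : ℝ) (h : ‖a - b‖ = d) : d - ‖z - a‖ ≤ ‖z - b‖ := by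
  have h3 := norm_sub_le (z - b) (z - a)
  rw [show z - b - (z - a) = a - b by ring, h] at h3
  linarith

theorem dyck_near {z : ℂ} (h : ‖z - 5 / 8‖ ≤ 3 / 64) :
    ‖z‖ ≤ 1 ∧ 1 / 8 < ‖z + 1 / 2‖ ∧ 13 / 64 ≤ ‖z - 3 / 8‖ := by
  refine ⟨?_, ?_, ?_⟩
  · have h1 : ‖z‖ ≤ ‖z - 5 / 8‖ + ‖(5 / 8 : ℂ)‖ := by
      have := norm_add_le (z - 5 / 8) (5 / 8)
      rwa [sub_add_cancel] at this
    have h2 : ‖(5 / 8 : ℂ)‖ = 5 / 8 := by norm_num
    linarith
  · have h1 := dyck_ge z (5 / 8) (-(1 / 2)) (9 / 8) (by norm_num)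
    rw [sub_neg_eq_add] at h1
    linarith
  · have h1 := dyck_ge z (5 / 8) (3 / 8) (1 / 4) (by norm_num)
    linarith

theorem dyck_near' {z : ℂ} (h : ‖z - 3 / 8‖ ≤ 3 / 64) :
    ‖z‖ ≤ 1 ∧ 1 / 8 < ‖z + 1 / 2‖ ∧ 13 / 64 ≤ ‖z - 5 / 8‖ := by
  refine ⟨?_, ?_, ?_⟩
  · have h1 : ‖z‖ ≤ ‖z - 3 / 8‖ + ‖(3 / 8 : ℂ)‖ := by
      have := norm_add_le (z - 3 / 8) (3 / 8)
      rwa [sub_add_cancel] at this
    have h2 : ‖(3 / 8 : ℂ)‖ = 3 / 8 := by norm_num
    linarith
  · have h1 := dyck_ge z (3 / 8) (-(1 / 2)) (7 / 8) (by norm_num)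
    rw [sub_neg_eq_add] at h1
    linarith
  · have h1 := dyck_ge z (3 / 8) (5 / 8) (1 / 4) (by norm_num)
    linarith

theorem dyck_refl (z : ℂ) : ‖1 - (starRingEnd ℂ) z - 3 / 8‖ = ‖z - 5 / 8‖ := by
  have h : 1 - (starRingEnd ℂ) z - 3 / 8 = -(starRingEnd ℂ) (z - 5 / 8) := by
    rw [map_sub]
    have : (starRingEnd ℂ) (5 / 8) = 5 / 8 := by
      rw [show (5 / 8 : ℂ) = ((5 / 8 : ℝ) : ℂ) by push_cast; ring, Complex.conj_ofReal]
    rw [this]
    ring
  rw [h, norm_neg, RCLike.norm_conj]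

theorem dyck_Z_pos {ζ : ℂ} {s : ℝ} (hs : 0 ≤ s) : dyck_Z ζ s = dyck_R ζ s := if_pos hs

theorem dyck_Z_neg {ζ : ℂ} {s : ℝ} (hs : s < 0) :
    dyck_Z ζ s = 1 - (starRingEnd ℂ) (dyck_R ζ s) := if_neg (not_le.2 hs)

theorem dyck_Z_norm {ζ : ℂ} (hζ : ‖ζ‖ = 1) (s : ℝ) :
    ‖dyck_Z ζ s - 5 / 8‖ = dyck_r s ∨ ‖dyck_Z ζ s - 3 / 8‖ = dyck_r s := by
  rcases le_or_gt 0 s with h | h
  · left
    rw [dyck_Z_pos h, dyck_R_norm hζ]
  · right
    rw [dyck_Z_neg h, dyck_refl, dyck_R_norm hζ]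

theorem dyck_Z_dom {ζ : ℂ} (hζ : ‖ζ‖ = 1) {s : ℝ} (hs : |s| ≤ 1) : dyck_Z ζ s ∈ dyck_D.Dom := by
  rw [dyck_D_dom]
  have h1 := dyck_r_ge s
  have h2 := dyck_r_le hs
  rcases dyck_Z_norm hζ s with h | h
  · obtain ⟨a, b, c⟩ := dyck_near (h.le.trans h2)
    exact ⟨a, b.le, by linarith, by linarith⟩
  · obtain ⟨a, b, c⟩ := dyck_near' (h.le.trans h2)
    exact ⟨a, b.le, by linarith, by linarith⟩

theorem dyck_R_inj {ζ ζ' : ℂ} (hζ : ‖ζ‖ = 1) (hζ' : ‖ζ'‖ = 1) {s s' : ℝ}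
    (h : dyck_R ζ s = dyck_R ζ' s') : |s| = |s'| ∧ ζ = ζ' := by
  have h1 : dyck_r s = dyck_r s' := by
    rw [← dyck_R_norm hζ, ← dyck_R_norm hζ', h]
  have h2 : |s| = |s'| := by
    unfold dyck_r at h1
    linarith
  refine ⟨h2, ?_⟩
  unfold dyck_R at h
  rw [h1] at h
  have h3 := add_left_cancel h
  have h4 : (dyck_r s' : ℂ) ≠ 0 := by exact_mod_cast (dyck_r_pos s').ne'
  exact mul_left_cancel₀ h4 h3

theorem dyck_inj1 {X : Type} [TopologicalSpace X] {L : Set X} {q : ℂ → X}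
    (hq : Pres dyck_D L q) {ζ ζ' : ℂ} (hζ : ‖ζ‖ = 1) (hζ' : ‖ζ'‖ = 1) {s s' : ℝ} (hs : |s| ≤ 1)
    (hs' : |s'| ≤ 1) (h0 : 0 ≤ s) (h : q (dyck_Z ζ s) = q (dyck_Z ζ' s')) : ζ = ζ' ∧ s = s' := by
  have hr := (hq.rel _ (dyck_Z_dom hζ hs) _ (dyck_Z_dom hζ' hs')).1 h
  rw [dyck_D_rel] at hr
  rw [dyck_Z_pos h0] at hr
  have n1 := dyck_R_norm hζ s
  have n2 := dyck_R_norm hζ' s'
  have m1 := dyck_r_le hs
  have m2 := dyck_r_le hs'
  obtain ⟨-, b1, c1⟩ := dyck_near (n1.le.trans m1)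
  obtain ⟨-, b2, c2⟩ := dyck_near (n2.le.trans m2)
  rcases le_or_gt 0 s' with h1 | h1
  · rw [dyck_Z_pos h1] at hr
    rcases hr with hr | ⟨-, hr⟩ | ⟨hr, -⟩
    · obtain ⟨e1, e2⟩ := dyck_R_inj hζ hζ' hr
      rw [abs_of_nonneg h0, abs_of_nonneg h1] at e1
      exact ⟨e2, e1⟩
    · exfalso
      have := dyck_refl (dyck_R ζ s)
      rw [← hr] at this
      linarith
    · exfalso
      linarith
  · exfalso
    rw [dyck_Z_neg h1] at hr
    rcases hr with hr | ⟨hr1, hr⟩ | ⟨hr, -⟩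
    · have := dyck_refl (dyck_R ζ' s')
      rw [← hr] at this
      linarith
    · have e0 : (starRingEnd ℂ) (dyck_R ζ' s') = (starRingEnd ℂ) (dyck_R ζ s) :=
        sub_right_injective hr
      have e1 : dyck_R ζ' s' = dyck_R ζ s := by
        have := congrArg (starRingEnd ℂ) e0
        simpa using this
      obtain ⟨e2, -⟩ := dyck_R_inj hζ' hζ e1
      have e3 : dyck_r s = 1 / 32 := by
        rcases hr1 with hr1 | hr1
        · linarith
        · rw [← n1, hr1]
      have e4 : |s| = 0 := by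
        unfold dyck_r at e3
        linarith
      rw [e4] at e2
      rw [abs_eq_zero.1 e2] at h1
      exact lt_irrefl _ h1
    · linarith

theorem dyck_inj {X : Type} [TopologicalSpace X] {L : Set X} {q : ℂ → X}
    (hq : Pres dyck_D L q) {ζ ζ' : ℂ} (hζ : ‖ζ‖ = 1) (hζ' : ‖ζ'‖ = 1) {s s' : ℝ} (hs : |s| ≤ 1)
    (hs' : |s'| ≤ 1) (h : q (dyck_Z ζ s) = q (dyck_Z ζ' s')) : ζ = ζ' ∧ s = s' := by
  rcases le_or_gt 0 s with h0 | h0
  · exact dyck_inj1 hq hζ hζ' hs hs' h0 h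
  · rcases le_or_gt 0 s' with h1 | h1
    · obtain ⟨a, b⟩ := dyck_inj1 hq hζ' hζ hs' hs h1 h.symm
      exact ⟨a.symm, b.symm⟩
    · have hr := (hq.rel _ (dyck_Z_dom hζ hs) _ (dyck_Z_dom hζ' hs')).1 h
      rw [dyck_D_rel, dyck_Z_neg h0, dyck_Z_neg h1] at hr
      have n1 := dyck_R_norm hζ s
      have n2 := dyck_R_norm hζ' s'
      have m1 := dyck_r_le hs
      have m2 := dyck_r_le hs'
      have r1 := dyck_refl (dyck_R ζ s)
      have r2 := dyck_refl (dyck_R ζ' s')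
      obtain ⟨-, b1, c1⟩ := dyck_near' (z := 1 - (starRingEnd ℂ) (dyck_R ζ s)) (by linarith)
      obtain ⟨-, b2, c2⟩ := dyck_near' (z := 1 - (starRingEnd ℂ) (dyck_R ζ' s')) (by linarith)
      obtain ⟨-, -, c3⟩ := dyck_near (z := dyck_R ζ s) (by linarith)
      rcases hr with hr | ⟨-, hr⟩ | ⟨hr, -⟩
      · have e0 : (starRingEnd ℂ) (dyck_R ζ s) = (starRingEnd ℂ) (dyck_R ζ' s') :=
          sub_right_injective hr
        have e1 : dyck_R ζ s = dyck_R ζ' s' := by
          have := congrArg (starRingEnd ℂ) e0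
          simpa using this
        obtain ⟨e2, e3⟩ := dyck_R_inj hζ hζ' e1
        rw [abs_of_neg h0, abs_of_neg h1] at e2
        exact ⟨e3, by linarith⟩
      · exfalso
        have e1 : 1 - (starRingEnd ℂ) (dyck_R ζ' s') = dyck_R ζ s := by
          rw [hr, map_sub, map_one, Complex.conj_conj]
          ring
        rw [e1] at r2
        linarith
      · exfalso
        linarith

theorem dyck_T_mem {X : Type} [TopologicalSpace X] {L : Set X} {q : ℂ → X}
    (hq : Pres dyck_D L q) {ζ : ℂ} (hζ : ‖ζ‖ = 1) {s : ℝ} (hs : |s| ≤ 1) :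
    q (dyck_Z ζ s) ∈ q '' dyck_W.Dom ↔ |s| = 1 := by
  have m1 := dyck_r_le hs
  constructor
  · rintro ⟨w, hw, hwz⟩
    have hr := (hq.rel _ (dyck_W_sub hw) _ (dyck_Z_dom hζ hs)).1 hwz
    rw [dyck_D_rel] at hr
    rw [dyck_W_dom] at hw
    have e0 : 3 / 64 ≤ dyck_r s := by
      rcases hr with hr | ⟨hr, -⟩ | ⟨hr1, hr2⟩
      · rw [hr] at hw
        rcases dyck_Z_norm hζ s with h | h
        · rw [h] at hw
          exact hw.2.2.2
        · rw [h] at hw
          exact hw.2.2.1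
      · exfalso
        rcases hr with hr | hr
        · linarith [hw.2.2.1]
        · linarith [hw.2.2.2]
      · exfalso
        have e1 : ‖dyck_Z ζ s + 1 / 2‖ = 1 / 8 := by
          rw [hr2, ← hr1, ← norm_neg]
          congr 1
          ring
        rcases dyck_Z_norm hζ s with h | h
        · have := (dyck_near (h.le.trans m1)).2.1
          linarith
        · have := (dyck_near' (h.le.trans m1)).2.1
          linarith
    unfold dyck_r at e0
    exact le_antisymm hs (by linarith)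
  · intro h1
    refine ⟨_, ?_, rfl⟩
    have e0 : dyck_r s = 3 / 64 := by
      unfold dyck_r
      rw [h1]
      norm_num
    rw [dyck_W_dom]
    rcases dyck_Z_norm hζ s with h | h
    · obtain ⟨a, b, c⟩ := dyck_near (h.le.trans m1)
      exact ⟨a, b.le, by linarith, by linarith⟩
    · obtain ⟨a, b, c⟩ := dyck_near' (h.le.trans m1)
      exact ⟨a, b.le, by linarith, by linarith⟩

/-- at level zero both formulas agree -/
theorem dyck_zero {X : Type} [TopologicalSpace X] {L : Set X} {q : ℂ → X}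
    (hq : Pres dyck_D L q) {z : ℂ} (hz : ‖z - 5 / 8‖ = 1 / 32) :
    q z = q (1 - (starRingEnd ℂ) z) := by
  have r1 := dyck_refl z
  obtain ⟨a, b, c⟩ := dyck_near (z := z) (by linarith)
  obtain ⟨a', b', c'⟩ := dyck_near' (z := 1 - (starRingEnd ℂ) z) (by linarith)
  refine (hq.rel z ?_ _ ?_).2 ?_
  · rw [dyck_D_dom]
    exact ⟨a, b.le, by linarith, by linarith⟩
  · rw [dyck_D_dom]
    exact ⟨a', b'.le, by linarith, by linarith⟩
  · rw [dyck_D_rel]
    exact Or.inr (Or.inl ⟨Or.inr hz, rfl⟩)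

theorem dyck_cont {X : Type} [TopologicalSpace X] {L : Set X} {q : ℂ → X}
    (hq : Pres dyck_D L q) {f : ℂ → ℂ} (hf : Continuous f) (hf1 : ∀ z, ‖f z‖ = 1) :
    ContinuousOn (fun z : ℂ => q (dyck_Z (f z) z.im)) {z : ℂ | |z.im| ≤ 1} := by
  have hR : Continuous fun z : ℂ => dyck_R (f z) z.im := by
    unfold dyck_R dyck_r
    fun_prop
  have hR' : Continuous fun z : ℂ => 1 - (starRingEnd ℂ) (dyck_R (f z) z.im) := by
    exact continuous_const.sub (Complex.continuous_conj.comp hR)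
  have hdomR : ∀ z : ℂ, |z.im| ≤ 1 → dyck_R (f z) z.im ∈ dyck_D.Dom := by
    intro z hz
    have n1 := dyck_R_norm (hf1 z) z.im
    have m1 := dyck_r_le hz
    have m2 := dyck_r_ge z.im
    obtain ⟨a, b, c⟩ := dyck_near (n1.le.trans m1)
    rw [dyck_D_dom]
    exact ⟨a, b.le, by linarith, by linarith⟩
  have hdomR' : ∀ z : ℂ, |z.im| ≤ 1 → 1 - (starRingEnd ℂ) (dyck_R (f z) z.im) ∈ dyck_D.Dom := by
    intro z hz
    have n1 := dyck_R_norm (hf1 z) z.im
    have m1 := dyck_r_le hz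
    have m2 := dyck_r_ge z.im
    have r1 := dyck_refl (dyck_R (f z) z.im)
    obtain ⟨a, b, c⟩ := dyck_near' (z := 1 - (starRingEnd ℂ) (dyck_R (f z) z.im)) (by linarith)
    rw [dyck_D_dom]
    exact ⟨a, b.le, by linarith, by linarith⟩
  have h1 : ContinuousOn (fun z : ℂ => q (dyck_Z (f z) z.im)) {z : ℂ | |z.im| ≤ 1 ∧ 0 ≤ z.im} := by
    refine ContinuousOn.congr (f := fun z : ℂ => q (dyck_R (f z) z.im)) ?_ fun z hz => ?_
    · exact hq.cont.comp hR.continuousOn fun z hz => hdomR z hz.1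
    · show q (dyck_Z (f z) z.im) = _
      rw [dyck_Z_pos hz.2]
  have h2 : ContinuousOn (fun z : ℂ => q (dyck_Z (f z) z.im)) {z : ℂ | |z.im| ≤ 1 ∧ z.im ≤ 0} := by
    refine ContinuousOn.congr
      (f := fun z : ℂ => q (1 - (starRingEnd ℂ) (dyck_R (f z) z.im))) ?_ fun z hz => ?_
    · exact hq.cont.comp hR'.continuousOn fun z hz => hdomR' z hz.1
    · show q (dyck_Z (f z) z.im) = _
      rcases lt_or_eq_of_le hz.2 with h | h
      · rw [dyck_Z_neg h]
      · rw [dyck_Z_pos h.ge]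
        apply dyck_zero hq
        rw [dyck_R_norm (hf1 z), h]
        unfold dyck_r
        rw [abs_zero]
        norm_num
  have c0 : IsClosed {z : ℂ | |z.im| ≤ 1} :=
    isClosed_le (continuous_abs.comp Complex.continuous_im) continuous_const
  have c1 : IsClosed {z : ℂ | |z.im| ≤ 1 ∧ 0 ≤ z.im} :=
    c0.inter (isClosed_le continuous_const Complex.continuous_im)
  have c2 : IsClosed {z : ℂ | |z.im| ≤ 1 ∧ z.im ≤ 0} :=
    c0.inter (isClosed_le Complex.continuous_im continuous_const)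
  refine (h1.union_of_isClosed h2 c1 c2).mono fun z hz => ?_
  rcases le_total 0 z.im with h | h
  · exact Or.inl ⟨hz, h⟩
  · exact Or.inr ⟨hz, h⟩

theorem dyck_cover {X : Type} [TopologicalSpace X] {L : Set X} {q : ℂ → X}
    (hq : Pres dyck_D L q) {p : X} (hp : p ∈ L) : p ∈ q '' dyck_W.Dom ∨
      ∃ (ζ : ℂ) (s : ℝ), ‖ζ‖ = 1 ∧ |s| ≤ 1 ∧ p = q (dyck_Z ζ s) := by
  rw [← hq.image] at hp
  obtain ⟨z, hz, rfl⟩ := hp
  by_cases hzW : z ∈ dyck_W.Dom
  · exact Or.inl ⟨z, hzW, rfl⟩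
  · right
    rw [dyck_D_dom] at hz
    rw [dyck_W_dom] at hzW
    -- every point near 5/8 is of the form `dyck_R ζ s`
    have key : ∀ w : ℂ, 1 / 32 ≤ ‖w - 5 / 8‖ → ‖w - 5 / 8‖ < 3 / 64 → ∃ (ζ : ℂ) (s : ℝ),
        ‖ζ‖ = 1 ∧ 0 ≤ s ∧ s ≤ 1 ∧ w = dyck_R ζ s := by
      intro w h1 h2
      have hn : (0 : ℝ) < ‖w - 5 / 8‖ := by linarith
      have hn' : (‖w - 5 / 8‖ : ℂ) ≠ 0 := by exact_mod_cast hn.ne'
      refine ⟨(w - 5 / 8) / ‖w - 5 / 8‖, 64 * ‖w - 5 / 8‖ - 2, ?_, by linarith, by linarith, ?_⟩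
      · rw [norm_div, Complex.norm_real, norm_norm, div_self hn.ne']
      · unfold dyck_R dyck_r
        rw [abs_of_nonneg (by linarith)]
        rw [show (2 + (64 * ‖w - 5 / 8‖ - 2)) / 64 = ‖w - 5 / 8‖ by ring, mul_div_cancel₀ _ hn']
        ring
    by_cases h5 : ‖z - 5 / 8‖ < 3 / 64
    · obtain ⟨ζ, s, h1, h2, h3, h4⟩ := key z hz.2.2.2 h5
      refine ⟨ζ, s, h1, by rw [abs_of_nonneg h2]; exact h3, ?_⟩
      rw [dyck_Z_pos h2, h4]
    · have h3 : ‖z - 3 / 8‖ < 3 / 64 := by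
        by_contra hc
        exact hzW ⟨hz.1, hz.2.1, not_lt.1 hc, not_lt.1 h5⟩
      have e1 : 1 - (starRingEnd ℂ) (1 - (starRingEnd ℂ) z) = z := by
        rw [map_sub, map_one, Complex.conj_conj]
        ring
      have e2 := dyck_refl (1 - (starRingEnd ℂ) z)
      rw [e1] at e2
      obtain ⟨ζ, s, h1, h2, h4, h5⟩ := key (1 - (starRingEnd ℂ) z) (by linarith [hz.2.2.1])
        (by linarith)
      rcases lt_or_eq_of_le h2 with h6 | h6
      · refine ⟨ζ, -s, h1, by rw [abs_neg, abs_of_nonneg h2]; exact h4, ?_⟩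
        rw [dyck_Z_neg (neg_lt_zero.2 h6)]
        have e3 : dyck_R ζ (-s) = dyck_R ζ s := by
          unfold dyck_R dyck_r
          rw [abs_neg]
        rw [e3, ← h5, e1]
      · refine ⟨ζ, s, h1, by rw [abs_of_nonneg h2]; exact h4, ?_⟩
        rw [dyck_Z_pos h2, ← h5]
        have e3 := dyck_zero hq (z := 1 - (starRingEnd ℂ) z) (by
          rw [h5, dyck_R_norm h1, ← h6]
          unfold dyck_r
          rw [abs_zero]
          norm_num)
        rw [e1] at e3
        exact e3.symm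

/-! ## Bands -/

theorem dyck_cexpi_norm (t : ℝ) : ‖cexpi t‖ = 1 := by
  unfold cexpi
  exact Complex.norm_exp_ofReal_mul_I t

theorem dyck_cexpi_cont : Continuous cexpi := by
  unfold cexpi
  fun_prop

theorem dyck_cexpi_pi (t : ℝ) : cexpi (Real.pi + t) = -cexpi t := by
  unfold cexpi
  have h : ((Real.pi + t : ℝ) : ℂ) * Complex.I = (t : ℂ) * Complex.I + (Real.pi : ℂ) * Complex.I := by
    push_cast
    ring
  rw [h, Complex.exp_add, Complex.exp_pi_mul_I]
  ring

theorem dyck_cexpi_conj (t : ℝ) : (starRingEnd ℂ) (cexpi t) = cexpi (-t) := by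
  unfold cexpi
  rw [← Complex.exp_conj, map_mul, Complex.conj_ofReal, Complex.conj_I]
  congr 1
  push_cast
  ring

theorem dyck_cexpi_re (t : ℝ) : (cexpi t).re = Real.cos t := by
  unfold cexpi
  exact Complex.exp_ofReal_mul_I_re t

theorem dyck_cexpi_inj {a b : ℝ} (h : cexpi a = cexpi b) (hab : |a - b| < 2 * Real.pi) : a = b := by
  unfold cexpi at h
  rw [Complex.exp_eq_exp_iff_exists_int] at h
  obtain ⟨n, hn⟩ := h
  have h1 : (a : ℂ) = (b : ℂ) + n * (2 * Real.pi) := by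
    have h2 : ((a : ℂ) - ((b : ℂ) + n * (2 * Real.pi))) * Complex.I = 0 := by
      rw [sub_mul, hn]
      ring
    rcases mul_eq_zero.1 h2 with h3 | h3
    · exact sub_eq_zero.1 h3
    · exact absurd h3 Complex.I_ne_zero
  have h2 : a = b + n * (2 * Real.pi) := by exact_mod_cast h1
  have h3 : a - b = n * (2 * Real.pi) := by linarith
  rw [h3, abs_mul, abs_of_pos Real.two_pi_pos] at hab
  have h4 : |(n : ℝ)| < 1 := by
    by_contra hc
    have := mul_le_mul_of_nonneg_right (not_lt.1 hc) Real.two_pi_pos.le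
    linarith
  have h5 : n = 0 := by
    have h6 : |n| < 1 := by exact_mod_cast h4
    exact Int.abs_lt_one_iff.1 h6
  rw [h5] at h2
  simpa using h2

/-- half of the tube, `c = 0` or `c = π` -/
noncomputable def dyck_H {X : Type} (q : ℂ → X) (c : ℝ) (z : ℂ) : X :=
  q (dyck_Z (cexpi (c + Real.pi * z.re / 2)) z.im)

theorem dyck_H_cont {X : Type} [TopologicalSpace X] {L : Set X} {q : ℂ → X}
    (hq : Pres dyck_D L q) (c : ℝ) : ContinuousOn (dyck_H q c) Sq := by
  refine (dyck_cont hq (f := fun z : ℂ => cexpi (c + Real.pi * z.re / 2)) ?_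
    (fun z => dyck_cexpi_norm _)).mono fun z hz => hz.2
  exact dyck_cexpi_cont.comp (by fun_prop)

theorem dyck_H_inj {X : Type} [TopologicalSpace X] {L : Set X} {q : ℂ → X}
    (hq : Pres dyck_D L q) (c : ℝ) : InjOn (dyck_H q c) Sq := by
  intro z hz w hw h
  obtain ⟨h1, h2⟩ := dyck_inj hq (dyck_cexpi_norm _) (dyck_cexpi_norm _) hz.2 hw.2 h
  have hpi := Real.pi_pos
  have h3 := dyck_cexpi_inj h1 (by
    have e : c + Real.pi * z.re / 2 - (c + Real.pi * w.re / 2) = Real.pi / 2 * (z.re - w.re) := by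
      ring
    rw [e, abs_mul, abs_of_pos (by linarith)]
    have h4 : |z.re - w.re| ≤ 2 := by
      have := abs_le.1 hz.1
      have := abs_le.1 hw.1
      rw [abs_le]
      constructor <;> linarith
    nlinarith)
  refine Complex.ext ?_ h2
  have h4 : Real.pi * (z.re - w.re) = 0 := by linarith
  rcases mul_eq_zero.1 h4 with h5 | h5
  · linarith
  · linarith

theorem dyck_H_meet {X : Type} [TopologicalSpace X] {L : Set X} {q : ℂ → X}
    (hq : Pres dyck_D L q) (c : ℝ) :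
    dyck_H q c '' Sq ∩ q '' dyck_W.Dom = dyck_H q c '' SqA := by
  apply Subset.antisymm
  · rintro _ ⟨⟨z, hz, rfl⟩, h⟩
    exact ⟨z, ⟨hz.1, (dyck_T_mem hq (dyck_cexpi_norm _) hz.2).1 h⟩, rfl⟩
  · rintro _ ⟨z, hz, rfl⟩
    have hz2 : |z.im| ≤ 1 := hz.2.le
    exact ⟨⟨z, ⟨hz.1, hz2⟩, rfl⟩, (dyck_T_mem hq (dyck_cexpi_norm _) hz2).2 hz.2⟩

theorem dyck_cos {x : ℝ} (hx : |x| ≤ 1) : 0 ≤ Real.cos (Real.pi * x / 2) := by
  have hpi := Real.pi_pos
  have := abs_le.1 hx
  apply Real.cos_nonneg_of_mem_Icc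
  constructor <;> nlinarith

theorem dyck_cos_pos {x : ℝ} (hx : |x| < 1) : 0 < Real.cos (Real.pi * x / 2) := by
  have hpi := Real.pi_pos
  have := abs_lt.1 hx
  apply Real.cos_pos_of_mem_Ioo
  constructor <;> nlinarith

/-- where the two halves meet -/
theorem dyck_H_H {X : Type} [TopologicalSpace X] {L : Set X} {q : ℂ → X}
    (hq : Pres dyck_D L q) {z w : ℂ} (hz : z ∈ Sq) (hw : w ∈ Sq)
    (h : dyck_H q 0 w = dyck_H q Real.pi z) : |w.re| = 1 ∧ |z.re| = 1 := by
  obtain ⟨h1, -⟩ := dyck_inj hq (dyck_cexpi_norm _) (dyck_cexpi_norm _) hw.2 hz.2 h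
  rw [dyck_cexpi_pi, zero_add] at h1
  have h2 := congrArg Complex.re h1
  rw [Complex.neg_re, dyck_cexpi_re, dyck_cexpi_re] at h2
  constructor
  · by_contra hc
    have a1 := dyck_cos_pos (lt_of_le_of_ne hw.1 hc)
    have a2 := dyck_cos hz.1
    linarith
  · by_contra hc
    have a1 := dyck_cos_pos (lt_of_le_of_ne hz.1 hc)
    have a2 := dyck_cos hw.1
    linarith

theorem dyck_edge {X : Type} {q : ℂ → X} {w : ℂ} (hw : |w.re| = 1) :
    dyck_H q 0 w = dyck_H q Real.pi (-(starRingEnd ℂ) w) := by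
  unfold dyck_H
  have h1 : (-(starRingEnd ℂ) w).im = w.im := by simp
  have h2 : (-(starRingEnd ℂ) w).re = -w.re := by simp
  rw [h1, h2, dyck_cexpi_pi, zero_add]
  congr 2
  have hp : cexpi (Real.pi / 2) = Complex.I := by
    unfold cexpi
    push_cast
    exact Complex.exp_pi_div_two_mul_I
  have hm : cexpi (-(Real.pi / 2)) = -Complex.I := by
    rw [← dyck_cexpi_conj, hp, Complex.conj_I]
  rcases (abs_eq zero_le_one).1 hw with h | h
  · rw [h]
    rw [show Real.pi * 1 / 2 = Real.pi / 2 by ring, show Real.pi * -1 / 2 = -(Real.pi / 2) by ring,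
      hp, hm, neg_neg]
  · rw [h]
    rw [show Real.pi * -(-1) / 2 = Real.pi / 2 by ring,
      show Real.pi * -1 / 2 = -(Real.pi / 2) by ring, hp, hm]

theorem dyck_H_rest {X : Type} [TopologicalSpace X] {L : Set X} {q : ℂ → X}
    (hq : Pres dyck_D L q) :
    dyck_H q 0 '' Sq ∩ (q '' dyck_W.Dom ∪ dyck_H q Real.pi '' Sq) =
      dyck_H q 0 '' (Sq \ SqI) := by
  apply Subset.antisymm
  · rintro _ ⟨⟨w, hw, rfl⟩, h | ⟨z, hz, h⟩⟩
    · have h1 := (dyck_T_mem hq (dyck_cexpi_norm _) hw.2).1 h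
      exact ⟨w, ⟨hw, fun h2 => absurd h1 h2.2.ne⟩, rfl⟩
    · have h1 := (dyck_H_H hq hz hw h.symm).1
      exact ⟨w, ⟨hw, fun h2 => absurd h1 h2.1.ne⟩, rfl⟩
  · rintro _ ⟨w, ⟨hw, hwI⟩, rfl⟩
    refine ⟨⟨w, hw, rfl⟩, ?_⟩
    by_cases h : |w.im| = 1
    · exact Or.inl ((dyck_T_mem hq (dyck_cexpi_norm _) hw.2).2 h)
    · right
      have h2 : |w.re| = 1 := by
        by_contra hc
        exact hwI ⟨lt_of_le_of_ne hw.1 hc, lt_of_le_of_ne hw.2 h⟩
      refine ⟨-(starRingEnd ℂ) w, ⟨?_, ?_⟩, (dyck_edge h2).symm⟩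
      · simpa using hw.1
      · simpa using hw.2

theorem dyck_H_cover {X : Type} [TopologicalSpace X] {L : Set X} {q : ℂ → X}
    (hq : Pres dyck_D L q) :
    L = (q '' dyck_W.Dom ∪ dyck_H q Real.pi '' Sq) ∪ dyck_H q 0 '' Sq := by
  apply Subset.antisymm
  · intro p hp
    rcases dyck_cover hq hp with h | ⟨ζ, s, hζ, hs, rfl⟩
    · exact Or.inl (Or.inl h)
    · have hpi := Real.pi_pos
      -- angles of points in the right half plane
      have key : ∀ ξ : ℂ, ‖ξ‖ = 1 → 0 ≤ ξ.re → ∃ x : ℝ, |x| ≤ 1 ∧ cexpi (Real.pi * x / 2) = ξ := by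
        intro ξ h1 h2
        have h3 := Complex.abs_arg_le_pi_div_two_iff.2 h2
        refine ⟨2 * ξ.arg / Real.pi, ?_, ?_⟩
        · rw [abs_div, abs_mul, abs_of_pos hpi, abs_two, div_le_one hpi]
          linarith
        · have h4 : Real.pi * (2 * ξ.arg / Real.pi) / 2 = ξ.arg := by
            field_simp
          rw [h4]
          unfold cexpi
          have := Complex.norm_mul_exp_arg_mul_I ξ
          rw [h1] at this
          simpa using this
      rcases le_total 0 ζ.re with h | h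
      · right
        obtain ⟨x, hx, hxζ⟩ := key ζ hζ h
        refine ⟨⟨x, s⟩, ⟨hx, hs⟩, ?_⟩
        unfold dyck_H
        rw [zero_add, hxζ]
      · left
        right
        obtain ⟨x, hx, hxζ⟩ := key (-ζ) (by rw [norm_neg, hζ]) (by rw [Complex.neg_re]; linarith)
        refine ⟨⟨x, s⟩, ⟨hx, hs⟩, ?_⟩
        unfold dyck_H
        rw [dyck_cexpi_pi, hxζ, neg_neg]
  · have hTL : ∀ c, dyck_H q c '' Sq ⊆ L := by
      rintro c _ ⟨z, hz, rfl⟩
      rw [← hq.image]
      exact ⟨_, dyck_Z_dom (dyck_cexpi_norm _) hz.2, rfl⟩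
    rintro p ((h | h) | h)
    · rw [← hq.image]
      exact image_mono dyck_W_sub h
    · exact hTL _ h
    · exact hTL _ h

/-- the top and the bottom of a half -/
theorem dyck_H_top {X : Type} {q : ℂ → X} (c x : ℝ) :
    dyck_H q c (x + Complex.I) = q (5 / 8 + 3 / 64 * cexpi (c + Real.pi * x / 2)) := by
  unfold dyck_H
  have h1 : ((x : ℂ) + Complex.I).re = x := by simp
  have h2 : ((x : ℂ) + Complex.I).im = 1 := by simp
  rw [h1, h2, dyck_Z_pos zero_le_one]
  unfold dyck_R dyck_r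
  rw [abs_one]
  norm_num

theorem dyck_H_bot {X : Type} {q : ℂ → X} (c x : ℝ) :
    dyck_H q c (x - Complex.I) = q (3 / 8 + 3 / 64 * cexpi (Real.pi - (c + Real.pi * x / 2))) := by
  unfold dyck_H
  have h1 : ((x : ℂ) - Complex.I).re = x := by simp
  have h2 : ((x : ℂ) - Complex.I).im = -1 := by simp
  rw [h1, h2, dyck_Z_neg (by norm_num)]
  unfold dyck_R dyck_r
  rw [abs_neg, abs_one, map_add, map_mul, dyck_cexpi_conj, sub_eq_add_neg Real.pi, dyck_cexpi_pi]
  have e1 : (starRingEnd ℂ) (5 / 8) = 5 / 8 := by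
    rw [show (5 / 8 : ℂ) = ((5 / 8 : ℝ) : ℂ) by push_cast; ring, Complex.conj_ofReal]
  rw [e1, Complex.conj_ofReal]
  congr 1
  push_cast
  ring

/-! ## The cap -/

theorem dyck_UC_conn : IsPreconnected UC :=
  isPreconnected_sphere (by rw [Complex.rank_real_complex]; norm_num) 0 1

theorem dyck_UC_ne : UC.Nonempty := ⟨1, by simp⟩

/-- a disc attached along the only free circle -/
theorem dyck_cap (hBCN : St_BCN) (hRED : St_RED) (hLA : St_LA) {X : Type}
    [TopologicalSpace X] [T2Space X] {t p : ℕ} {L Bd : Set X} {u e : ℂ → X}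
    (h : FinPres t p 1 L Bd u) (he : AttTo L Bd e UC) : FinPres t p 0 (L ∪ e '' CD) ∅ u := by
  obtain ⟨C, hC, hF, ht, hp, ho, q, hq, hqu, hBd⟩ := h
  have hsub : e '' UC ⊆ q '' C.FreeBd := by
    rw [← hBd]
    exact he.bd
  have hUC : UC ⊆ CD := sphere_subset_closedBall
  obtain ⟨i, hi, hl, hT⟩ := (hBCN.1 X C L q hC hF hq).2 (e '' UC) hsub (dyck_UC_ne.image e)
    (dyck_UC_conn.image e (he.cont.mono hUC))
  obtain ⟨L₀, W, B₁, u₁, q₁, g1, g2, g3, g4, g5, g6, g7, g8, g9, g10, g11, g12, g13⟩ :=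
    hRED.1 X C L q u hC hF hq hqu i hi hl
  have hri := hC.pos i hi
  have hB : q₁ '' sphere 0 (1 / 4) = B₁ := by
    have e1 : red_a 0 (1 / 4) '' UC = sphere (0 : ℂ) (1 / 4) := by
      have := red_a_sph (j := 0) (r := 1 / 4) (by norm_num) 0 1
      rw [mul_zero, add_zero, mul_one, Complex.ofReal_zero] at this
      exact this
    have e2 : red_a i (C.rad i / 2) '' UC = sphere (i : ℂ) (C.rad i / 2) := by
      have := red_a_sph (j := i) (r := C.rad i / 2) (by linarith) 0 1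
      rw [mul_zero, add_zero, mul_one] at this
      exact this
    rw [g9, ← e1, ← e2, image_image, image_image]
    refine image_congr fun z hz => ?_
    have h1 := g8 z hz
    unfold red_a
    rw [← h1]
    congr 1
    push_cast
    ring
  have hBW : B₁ ⊆ W := by
    rw [← hB, ← g6]
    refine image_mono fun z hz => ?_
    have h1 : ‖z‖ = 1 / 4 := by simpa using hz
    show 1 / 4 ≤ ‖z‖ ∧ ‖z‖ ≤ 1
    rw [h1]
    norm_num
  have hTB : e '' UC ⊆ B₁ := by
    rw [g9]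
    exact hT
  have hWL : W ⊆ L := by
    rw [g1]
    exact subset_union_right
  have hL₀L : L₀ ⊆ L := by
    rw [g1]
    exact subset_union_left
  have hann : IsAnn W B₁ u₁ := ⟨q₁, g4, g5, g6, hB, g7⟩
  have hatt : AttTo W B₁ e UC :=
    { cont := he.cont
      inj := he.inj
      meet := by
        apply Subset.antisymm
        · rintro x ⟨h1, h2⟩
          rw [← he.meet]
          exact ⟨h1, hWL h2⟩
        · intro x hx
          exact ⟨image_mono hUC hx, hBW (hTB hx)⟩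
      bd := hTB }
  obtain ⟨-, hfp⟩ := hLA X W B₁ u₁ e hann hatt
  have hfin := g13 0 0 0 (W ∪ e '' CD) ∅ hfp (by
    rintro x ⟨h1 | h1, h2⟩
    · rw [← g2]
      exact ⟨h2, h1⟩
    · exfalso
      have h3 : x ∈ e '' UC := by
        rw [← he.meet]
        exact ⟨h1, hL₀L h2⟩
      exact disjoint_left.1 g10 (hTB h3) h2)
  rw [ht, hp, ho, ← union_assoc, ← g1] at hfin
  have hbd := hBCN.2.2.2.1 X t p _ _ u hfin
  rw [hbd] at hfin
  exact hfin

/-! ## Sliding -/

theorem dyck_V_free : dyck_V.FreeBd = sphere (-(1 / 2)) (1 / 8) ∪ sphere (5 / 8) (1 / 32) := by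
  have hO : {i ∈ dyck_V.I | dyck_V.lab i = Lab.O} = {-(1 / 2), 5 / 8} := by
    ext i
    constructor
    · rintro ⟨h | h | h, h2⟩
      · exact Or.inl h
      · exfalso
        have h3 : (if i = 3 / 8 then Lab.P else Lab.O) = Lab.O := h2
        rw [if_pos h] at h3
        cases h3
      · exact Or.inr h
    · rintro (rfl | rfl)
      · refine ⟨Or.inl rfl, ?_⟩
        show (if (-(1 / 2) : ℝ) = 3 / 8 then Lab.P else Lab.O) = Lab.O
        norm_num
      · refine ⟨Or.inr (Or.inr rfl), ?_⟩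
        show (if (5 / 8 : ℝ) = 3 / 8 then Lab.P else Lab.O) = Lab.O
        norm_num
  have r1 : dyck_V.rad (-(1 / 2)) = 1 / 4 := if_pos (by norm_num)
  have r2 : dyck_V.rad (5 / 8) = 1 / 16 := if_neg (by norm_num)
  unfold Conf.FreeBd
  rw [hO, biUnion_insert, biUnion_singleton, r1, r2]
  norm_num

theorem dyck_sl_free (t : ℝ) : (1 / 2 : ℂ) + 1 / 8 * cexpi t ∈ slC.Dom := by
  apply red_free_dom dyck_sl_ok rfl
  unfold Conf.FreeBd
  refine mem_biUnion (x := (1 / 2 : ℝ)) ⟨Or.inr rfl, if_neg (by norm_num)⟩ ?_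
  rw [mem_sphere_iff_norm]
  have r : slC.rad (1 / 2) = 1 / 4 := rfl
  rw [r]
  have h : (1 / 2 : ℂ) + 1 / 8 * cexpi t - ((1 / 2 : ℝ) : ℂ) = ((1 / 8 : ℝ) : ℂ) * cexpi t := by
    push_cast
    ring
  rw [h, norm_mul, dyck_cexpi_norm, Complex.norm_real]
  norm_num

theorem dyck_slide (hCFIN : St_CFIN) (hCCONG : St_CCONG) (hCUT : St_CUT) (hPASTE : St_PASTE)
    (hSLD : St_SLD) {X : Type} [TopologicalSpace X] [T2Space X] {W : Set X} {q u : ℂ → X}
    (hq : Pres dyck_V W q) (hu : ∀ z ∈ UC, q z = u z) :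
    ∃ (Q : ℂ → X) (g : ℝ → ℝ), Pres dyck_V W Q ∧ (∀ z ∈ UC, Q z = u z) ∧ Continuous g ∧
      StrictAnti g ∧ (∀ z ∈ UC, Q (-(1 / 2) + 1 / 8 * z) = q (-(1 / 2) + 1 / 8 * z)) ∧
      ∀ t, Q (5 / 8 + 1 / 32 * cexpi (g t)) = q (5 / 8 + 1 / 32 * cexpi t) := by
  have hcomp : IsCompact dyck_V.Dom := ((hCFIN _ dyck_V_ok).2.2.2.1 rfl).2
  have hW : W = q '' dyck_V.Dom := hq.image.symm
  have hWc : IsCompact W := by
    rw [hW]
    exact hcomp.image_of_continuousOn hq.cont
  obtain ⟨c1, c2, -⟩ := hCUT X dyck_V dyck_V_ok W q hq (1 / 2) (1 / 4) dyck_V_slot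
  obtain ⟨d1, d2⟩ := dyck_V_content hCCONG
  have c1' : Pres slC (q '' (dyck_V.Dom ∩ closedBall ((1 / 2 : ℝ) : ℂ) (1 / 4)))
      (fun z => q ((1 / 2 : ℝ) + (1 / 4 : ℝ) * z)) := by
    have c3 : PresOn (dyck_V.slot (1 / 2) (1 / 4)).Dom (dyck_V.slot (1 / 2) (1 / 4)).Rel
      (q '' (dyck_V.Dom ∩ closedBall ((1 / 2 : ℝ) : ℂ) (1 / 4)))
      (fun z => q ((1 / 2 : ℝ) + (1 / 4 : ℝ) * z)) := c1
    rw [d1, d2] at c3
    exact c3
  obtain ⟨q', g, s1, s2, s3, s4, s5⟩ := hSLD X _ _ c1'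
  have s1' : Pres (dyck_V.slot (1 / 2) (1 / 4))
      (q '' (dyck_V.Dom ∩ closedBall ((1 / 2 : ℝ) : ℂ) (1 / 4))) q' := by
    show PresOn (dyck_V.slot (1 / 2) (1 / 4)).Dom (dyck_V.slot (1 / 2) (1 / 4)).Rel _ _
    rw [d1, d2]
    exact s1
  obtain ⟨Q, p1, p2, p3⟩ := hPASTE X dyck_V dyck_V dyck_V_ok dyck_V_ok rfl {1 / 2}
    (fun _ => 1 / 4)
    (by rw [show dyck_V.F = ∅ from rfl, empty_union]; exact isCompact_singleton)
    (by
      intro k hk
      rw [mem_singleton_iff.1 hk]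
      exact ⟨dyck_V_slot, dyck_V_slot⟩)
    (by
      intro k hk l hl hkl
      exact absurd (hk.trans hl.symm) hkl)
    (fun i _ => ⟨Iff.rfl, fun _ => ⟨rfl, rfl⟩⟩) W q hWc.isClosed hq
    (fun _ => q '' (dyck_V.Dom ∩ closedBall ((1 / 2 : ℝ) : ℂ) (1 / 4))) (fun _ => q')
    (by
      intro k hk
      rw [mem_singleton_iff.1 hk]
      exact s1')
    (by
      intro k hk z hz
      rw [mem_singleton_iff.1 hk]
      exact s2 z hz)
    (by
      intro k hk
      rw [biUnion_singleton, mem_singleton_iff.1 hk, c2])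
    (by
      intro k hk l hl hkl
      exact absurd (hk.trans hl.symm) hkl)
    (fun A _ => (finite_singleton _).subset fun k hk => hk.1)
  simp only [biUnion_singleton] at p1
  have hun : q '' (dyck_V.Dom \ ball ((1 / 2 : ℝ) : ℂ) (1 / 4)) ∪
      q '' (dyck_V.Dom ∩ closedBall ((1 / 2 : ℝ) : ℂ) (1 / 4)) = W := by
    rw [hW, ← image_union]
    congr 1
    ext z
    constructor
    · rintro (hz | hz)
      · exact hz.1
      · exact hz.1
    · intro hz
      by_cases hb : z ∈ ball ((1 / 2 : ℝ) : ℂ) (1 / 4)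
      · exact Or.inr ⟨hz, ball_subset_closedBall hb⟩
      · exact Or.inl ⟨hz, hb⟩
  rw [hun] at p1
  have p2' : ∀ z ∈ dyck_V.Dom, z ∉ ball ((1 / 2 : ℝ) : ℂ) (1 / 4) → Q z = q z := by
    intro z hz hzb
    refine p2 z hz fun k hk => ?_
    rw [mem_singleton_iff.1 hk]
    exact hzb
  have p3' : ∀ z ∈ slC.Dom, Q ((1 / 2 : ℝ) + (1 / 4 : ℝ) * z) = q' z := by
    intro z hz
    exact p3 (1 / 2) rfl z (by rw [d1]; exact hz)
  have half : ‖(-(1 / 2) : ℂ)‖ = 1 / 2 := by norm_num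
  have hx1 : ‖((1 / 2 : ℝ) : ℂ)‖ = 1 / 2 := by
    rw [Complex.norm_real]
    norm_num
  refine ⟨Q, g, p1, ?_, s3, s4, ?_, ?_⟩
  · intro z hz
    rw [p2' z ((hCFIN _ dyck_V_ok).2.2.2.2.1 hz), hu z hz]
    intro hb
    have h1 : ‖z‖ = 1 := by simpa using hz
    rw [mem_ball_iff_norm] at hb
    have h2 := norm_sub_norm_le z ((1 / 2 : ℝ) : ℂ)
    linarith
  · intro z hz
    have h1 : ‖z‖ = 1 := by simpa using hz
    refine p2' _ ?_ ?_
    · apply red_free_dom dyck_V_ok rfl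
      rw [dyck_V_free]
      left
      rw [mem_sphere_iff_norm, add_sub_cancel_left, norm_mul, h1]
      norm_num
    · intro hb
      rw [mem_ball_iff_norm] at hb
      have h2 := norm_sub_norm_le (1 : ℂ) (1 / 8 * z)
      have h3 : ‖(1 / 8 : ℂ) * z‖ = 1 / 8 := by
        rw [norm_mul, h1]
        norm_num
      have h4 : -(1 / 2) + 1 / 8 * z - ((1 / 2 : ℝ) : ℂ) = -(1 - 1 / 8 * z) := by
        push_cast
        ring
      rw [h4, norm_neg] at hb
      rw [h3, norm_one] at h2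
      linarith
  · intro t
    have h1 := p3' _ (dyck_sl_free (g t))
    rw [← s5 t] at h1
    have e1 : ((1 / 2 : ℝ) : ℂ) + ((1 / 4 : ℝ) : ℂ) * (1 / 2 + 1 / 8 * cexpi (g t)) =
        5 / 8 + 1 / 32 * cexpi (g t) := by
      push_cast
      ring
    have e2 : ((1 / 2 : ℝ) : ℂ) + ((1 / 4 : ℝ) : ℂ) * (1 / 2 + 1 / 8 * cexpi t) =
        5 / 8 + 1 / 32 * cexpi t := by
      push_cast
      ring
    rw [e1] at h1
    rw [h1]
    show q _ = q _
    rw [e2]

/-! ## Assembly -/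

theorem dyck_Sq_compact : IsCompact Sq := by
  apply Metric.isCompact_of_isClosed_isBounded
  · exact (isClosed_le (continuous_abs.comp Complex.continuous_re) continuous_const).inter
      (isClosed_le (continuous_abs.comp Complex.continuous_im) continuous_const)
  · refine isBounded_closedBall.subset (t := closedBall (0 : ℂ) 2) fun z hz => ?_
    rw [mem_closedBall_zero_iff]
    have h1 : |z.re| ≤ 1 := hz.1
    have h2 : |z.im| ≤ 1 := hz.2
    exact (Complex.norm_le_abs_re_add_abs_im z).trans (by linarith)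

/-- the inverse of a continuous injective map on a compact set -/
theorem dyck_inv {K : Set ℂ} (hK : IsCompact K) {φ : ℂ → ℂ} (hφ : ContinuousOn φ K)
    (hi : InjOn φ K) : ∃ ψ : ℂ → ℂ, ContinuousOn ψ (φ '' K) ∧ ∀ x ∈ K, ψ (φ x) = x := by
  classical
  have h1 : ∀ x ∈ K, Function.invFunOn φ K (φ x) = x := fun x hx => hi.leftInvOn_invFunOn hx
  refine ⟨Function.invFunOn φ K, ?_, h1⟩
  rw [continuousOn_iff_isClosed]
  intro t ht
  have h2 : IsCompact (φ '' (K ∩ t)) :=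
    (hK.inter_right ht).image_of_continuousOn (hφ.mono inter_subset_left)
  refine ⟨φ '' (K ∩ t), h2.isClosed, ?_⟩
  apply Subset.antisymm
  · rintro _ ⟨h3, ⟨x, hx, rfl⟩⟩
    have h4 : Function.invFunOn φ K (φ x) ∈ t := h3
    rw [h1 x hx] at h4
    exact ⟨⟨x, ⟨hx, h4⟩, rfl⟩, ⟨x, hx, rfl⟩⟩
  · rintro _ ⟨⟨x, ⟨hx, hxt⟩, rfl⟩, -⟩
    refine ⟨?_, ⟨x, hx, rfl⟩⟩
    show Function.invFunOn φ K (φ x) ∈ t
    rw [h1 x hx]
    exact hxt

theorem dyck_img {X : Type} (f : ℂ → X) {S : Set ℂ} (hS : ∀ z ∈ S, -(starRingEnd ℂ) z ∈ S) :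
    (fun z => f (-(starRingEnd ℂ) z)) '' S = f '' S := by
  apply Subset.antisymm
  · rintro _ ⟨z, hz, rfl⟩
    exact ⟨_, hS z hz, rfl⟩
  · rintro _ ⟨z, hz, rfl⟩
    refine ⟨_, hS z hz, ?_⟩
    show f (-(starRingEnd ℂ) (-(starRingEnd ℂ) z)) = f z
    rw [map_neg, Complex.conj_conj, neg_neg]

theorem dyck_fp_congr {X : Type} [TopologicalSpace X] {t p o : ℕ} {L Bd : Set X} {u u' : ℂ → X}
    (h : FinPres t p o L Bd u) (hu : ∀ z ∈ UC, u z = u' z) : FinPres t p o L Bd u' := by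
  obtain ⟨C, h1, h2, h3, h4, h5, q, h6, h7, h8⟩ := h
  exact ⟨C, h1, h2, h3, h4, h5, q, h6, fun z hz => (h7 z hz).trans (hu z hz), h8⟩

theorem dyck_neg_conj (z : ℂ) : (-(starRingEnd ℂ) z).re = -z.re ∧ (-(starRingEnd ℂ) z).im = z.im := by
  constructor <;> simp

/-- the sliding moves the two free circles of `W` to circles with orientation reversed at one of
them -/
theorem dyck_move (hCFIN : St_CFIN) (hCCONG : St_CCONG) (hFREE : St_FREE)
    (hCUT : St_CUT) (hPASTE : St_PASTE) (hSLD : St_SLD) {X : Type} [TopologicalSpace X] [T2Space X]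
    {W : Set X} {q u : ℂ → X} (hq : Pres dyck_W W q) (hu : ∀ z ∈ UC, q z = u z) :
    ∃ (Q : ℂ → X) (g : ℝ → ℝ), Pres dyck_V W Q ∧ (∀ z ∈ UC, Q z = u z) ∧ Continuous g ∧
      StrictAnti g ∧ (∀ t, Q (-(1 / 2) + 1 / 8 * cexpi t) = q (3 / 8 + 3 / 64 * cexpi t)) ∧
      ∀ t, Q (5 / 8 + 1 / 32 * cexpi (g t)) = q (5 / 8 + 3 / 64 * cexpi t) := by
  have hcnt : ∀ l, dyck_V.cnt l = dyck_W.cnt l := by
    intro l
    cases l with
    | T => rw [dyck_V_cnt.1, dyck_W_cnt.1]
    | P => rw [dyck_V_cnt.2.1, dyck_W_cnt.2.1]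
    | O => rw [dyck_V_cnt.2.2, dyck_W_cnt.2.2]
  obtain ⟨Φ, Φ1, Φ2, -, -, Φ5⟩ := hFREE.2 dyck_W dyck_V dyck_W_ok dyck_V_ok rfl rfl hcnt 2
    ![3 / 8, 5 / 8] ![-(1 / 2), 5 / 8] (by
      intro a b h
      fin_cases a <;> fin_cases b
      · rfl
      · exact absurd h (by norm_num)
      · exact absurd h (by norm_num)
      · rfl) (by
      intro a b h
      fin_cases a <;> fin_cases b
      · rfl
      · exact absurd h (by norm_num)
      · exact absurd h (by norm_num)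
      · rfl) (by
      intro k
      fin_cases k
      · refine ⟨Or.inr (Or.inl rfl), Or.inl rfl, ?_⟩
        show (if (-(1 / 2) : ℝ) = 3 / 8 then Lab.P else Lab.O) =
          (if (3 / 8 : ℝ) < 0 then Lab.P else Lab.O)
        rw [if_neg (by norm_num), if_neg (by norm_num)]
      · refine ⟨Or.inr (Or.inr rfl), Or.inr (Or.inr rfl), ?_⟩
        show (if (5 / 8 : ℝ) = 3 / 8 then Lab.P else Lab.O) =
          (if (5 / 8 : ℝ) < 0 then Lab.P else Lab.O)
        rw [if_neg (by norm_num), if_neg (by norm_num)])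
  have hV := Φ5 X W q hq
  have hVu : ∀ z ∈ UC, (fun z => q (Φ.symm z)) z = u z := by
    intro z hz
    show q (Φ.symm z) = u z
    have h0 : Φ.symm z = z := by
      rw [Homeomorph.symm_apply_eq]
      refine (Φ1 z ?_).symm
      intro h
      have h1 : ‖z‖ = 1 := by simpa using hz
      have h2 : ‖z‖ < 1 := by simpa using h
      linarith
    rw [h0, hu z hz]
  obtain ⟨Q, g, s1, s2, s3, s4, s5, s6⟩ := dyck_slide hCFIN hCCONG hCUT hPASTE hSLD hV hVu
  refine ⟨Q, g, s1, s2, s3, s4, ?_, ?_⟩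
  · intro t
    rw [s5 _ (by simpa using dyck_cexpi_norm t)]
    show q (Φ.symm (-(1 / 2) + 1 / 8 * cexpi t)) = _
    congr 1
    rw [Homeomorph.symm_apply_eq]
    have r1 : dyck_W.rad (3 / 8) = 3 / 32 := if_neg (by norm_num)
    have r2 : dyck_V.rad (-(1 / 2)) = 1 / 4 := if_pos (by norm_num)
    have h1 : Φ (3 / 8 + 3 / 64 * cexpi t) = ((-(1 / 2) : ℝ) : ℂ) +
        ((dyck_V.rad (-(1 / 2)) / dyck_W.rad (3 / 8) : ℝ) : ℂ) *
          (3 / 8 + 3 / 64 * cexpi t - ((3 / 8 : ℝ) : ℂ)) := by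
      refine Φ2 0 _ ?_
      show _ ∈ closedBall ((3 / 8 : ℝ) : ℂ) (dyck_W.rad (3 / 8))
      rw [r1, mem_closedBall_iff_norm]
      have h2 : (3 / 8 : ℂ) + 3 / 64 * cexpi t - ((3 / 8 : ℝ) : ℂ) =
          ((3 / 64 : ℝ) : ℂ) * cexpi t := by
        push_cast
        ring
      rw [h2, norm_mul, dyck_cexpi_norm, Complex.norm_real]
      norm_num
    rw [h1, r1, r2]
    push_cast
    ring
  · intro t
    rw [s6]
    show q (Φ.symm (5 / 8 + 1 / 32 * cexpi t)) = _
    congr 1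
    rw [Homeomorph.symm_apply_eq]
    have r1 : dyck_W.rad (5 / 8) = 3 / 32 := if_neg (by norm_num)
    have r2 : dyck_V.rad (5 / 8) = 1 / 16 := if_neg (by norm_num)
    have h1 : Φ (5 / 8 + 3 / 64 * cexpi t) = ((5 / 8 : ℝ) : ℂ) +
        ((dyck_V.rad (5 / 8) / dyck_W.rad (5 / 8) : ℝ) : ℂ) *
          (5 / 8 + 3 / 64 * cexpi t - ((5 / 8 : ℝ) : ℂ)) := by
      refine Φ2 1 _ ?_
      show _ ∈ closedBall ((5 / 8 : ℝ) : ℂ) (dyck_W.rad (5 / 8))
      rw [r1, mem_closedBall_iff_norm]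
      have h2 : (5 / 8 : ℂ) + 3 / 64 * cexpi t - ((5 / 8 : ℝ) : ℂ) =
          ((3 / 64 : ℝ) : ℂ) * cexpi t := by
        push_cast
        ring
      rw [h2, norm_mul, dyck_cexpi_norm, Complex.norm_real]
      norm_num
    rw [h1, r1, r2]
    push_cast
    ring

/-- after attaching one half of the tube -/
theorem dyck_band (hCFIN : St_CFIN) (hCCONG : St_CCONG) (hFREE : St_FREE)
    (hCUT : St_CUT) (hPASTE : St_PASTE) (hRED : St_RED) (hLK : St_LK) (hSLD : St_SLD) {X : Type}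
    [TopologicalSpace X] [T2Space X] {L : Set X} {q u : ℂ → X} (hq : Pres dyck_D L q)
    (hu : ∀ z ∈ UC, q z = u z) :
    ∃ Bd : Set X, FinPres 0 3 1 (q '' dyck_W.Dom ∪ dyck_H q Real.pi '' Sq) Bd u ∧
      dyck_H q 0 '' (Sq \ SqI) ⊆ Bd := by
  have hpi := Real.pi_pos
  obtain ⟨Q, g, s1, s2, s3, s4, k0, k1⟩ := dyck_move hCFIN hCCONG hFREE hCUT hPASTE hSLD
    (dyck_W_pres hCFIN hq) hu
  have l1 : dyck_V.lab (-(1 / 2)) = Lab.O := if_neg (by norm_num)
  have l2 : dyck_V.lab (5 / 8) = Lab.O := if_neg (by norm_num)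
  have r1 : dyck_V.rad (-(1 / 2)) = 1 / 4 := if_pos (by norm_num)
  have r2 : dyck_V.rad (5 / 8) = 1 / 16 := if_neg (by norm_num)
  obtain ⟨L₀, W₁, B₁, B₂, u₁, q₁, g1, g2, -, g4, g5, g6, g7, g8, g9, g10, g11, g12, -, -, g15⟩ :=
    hRED.2 X dyck_V (q '' dyck_W.Dom) Q u dyck_V_ok rfl s1 s2 (-(1 / 2)) (Or.inl rfl) (5 / 8)
      (Or.inr (Or.inr rfl)) (by norm_num) l1 l2
  have f8 : ∀ t, q₁ (-(1 / 4) + 1 / 16 * cexpi t) = q (3 / 8 + 3 / 64 * cexpi t) := by
    intro t
    rw [← k0 t]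
    have h := g8 (cexpi t) (by simpa using dyck_cexpi_norm t)
    rw [r1] at h
    have e1 : -(1 / 4) + 1 / 16 * cexpi t = -(1 / 4) + cexpi t / 16 := by ring
    have e2 : ((-(1 / 2) : ℝ) : ℂ) + ((1 / 4 / 2 : ℝ) : ℂ) * cexpi t =
        -(1 / 2) + 1 / 8 * cexpi t := by
      push_cast
      ring
    rw [e1, h, e2]
  have f9 : ∀ t, q₁ (1 / 4 + 1 / 16 * cexpi (g t)) = q (5 / 8 + 3 / 64 * cexpi t) := by
    intro t
    rw [← k1 t]
    have h := g9 (cexpi (g t)) (by simpa using dyck_cexpi_norm (g t))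
    rw [r2] at h
    have e1 : 1 / 4 + 1 / 16 * cexpi (g t) = 1 / 4 + cexpi (g t) / 16 := by ring
    have e2 : ((5 / 8 : ℝ) : ℂ) + ((1 / 16 / 2 : ℝ) : ℂ) * cexpi (g t) =
        5 / 8 + 1 / 32 * cexpi (g t) := by
      push_cast
      ring
    rw [e1, h, e2]
  have hFB : q₁ '' pantsC.FreeBd = B₁ ∪ B₂ := by
    rw [red_pants_free, image_union, g10, g11]
    congr 1
    · refine red_circ_image (by norm_num) (by rw [r1]; norm_num) fun z hz => ?_
      rw [← g8 z hz]
      congr 1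
      push_cast
      ring
    · refine red_circ_image (by norm_num) (by rw [r2]; norm_num) fun z hz => ?_
      rw [← g9 z hz]
      congr 1
      push_cast
      ring
  have hFD : pantsC.FreeBd ⊆ pantsC.Dom := red_free_dom red_pants_ok rfl
  -- the free circles
  have m8 : ∀ t, q (3 / 8 + 3 / 64 * cexpi t) ∈ q₁ '' pantsC.FreeBd := by
    intro t
    rw [← f8 t]
    refine ⟨_, ?_, rfl⟩
    rw [red_pants_free]
    left
    rw [mem_sphere_iff_norm]
    have e : -(1 / 4) + 1 / 16 * cexpi t - ((-(1 / 4) : ℝ) : ℂ) = ((1 / 16 : ℝ) : ℂ) * cexpi t := by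
      push_cast
      ring
    rw [e, norm_mul, dyck_cexpi_norm, Complex.norm_real]
    norm_num
  have m9 : ∀ t, q (5 / 8 + 3 / 64 * cexpi t) ∈ q₁ '' pantsC.FreeBd := by
    intro t
    rw [← f9 t]
    refine ⟨_, ?_, rfl⟩
    rw [red_pants_free]
    right
    rw [mem_sphere_iff_norm]
    have e : 1 / 4 + 1 / 16 * cexpi (g t) - ((1 / 4 : ℝ) : ℂ) =
        ((1 / 16 : ℝ) : ℂ) * cexpi (g t) := by
      push_cast
      ring
    rw [e, norm_mul, dyck_cexpi_norm, Complex.norm_real]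
    norm_num
  have mA : ∀ c, dyck_H q c '' SqA ⊆ q₁ '' pantsC.FreeBd := by
    rintro c _ ⟨z, hz, rfl⟩
    rcases (abs_eq zero_le_one).1 hz.2 with h | h
    · have e : z = (z.re : ℂ) + Complex.I := Complex.ext (by simp) (by simpa using h)
      rw [e, dyck_H_top]
      exact m9 _
    · have e : z = (z.re : ℂ) - Complex.I := Complex.ext (by simp) (by simpa using h)
      rw [e, dyck_H_bot]
      exact m8 _
  set H₁ : ℂ → X := fun z => dyck_H q Real.pi (-(starRingEnd ℂ) z) with hH₁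
  have iSq : H₁ '' Sq = dyck_H q Real.pi '' Sq := dyck_img _ fun z hz => by
    constructor
    · rw [(dyck_neg_conj z).1, abs_neg]
      exact hz.1
    · rw [(dyck_neg_conj z).2]
      exact hz.2
  have iSqA : H₁ '' SqA = dyck_H q Real.pi '' SqA := dyck_img _ fun z hz => by
    constructor
    · rw [(dyck_neg_conj z).1, abs_neg]
      exact hz.1
    · rw [(dyck_neg_conj z).2]
      exact hz.2
  have iSqO : H₁ '' SqO = dyck_H q Real.pi '' SqO := dyck_img _ fun z hz => by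
    constructor
    · rw [(dyck_neg_conj z).1, abs_neg]
      exact hz.1
    · rw [(dyck_neg_conj z).2]
      exact hz.2
  have iSqF : H₁ '' SqF = dyck_H q Real.pi '' SqF := dyck_img _ fun z hz => by
    constructor
    · rw [(dyck_neg_conj z).1, abs_neg]
      exact hz.1
    · rw [(dyck_neg_conj z).2]
      exact hz.2
  have hmap : MapsTo (fun z : ℂ => -(starRingEnd ℂ) z) Sq Sq := fun z hz => by
    constructor
    · show |(-(starRingEnd ℂ) z).re| ≤ 1
      rw [(dyck_neg_conj z).1, abs_neg]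
      exact hz.1
    · show |(-(starRingEnd ℂ) z).im| ≤ 1
      rw [(dyck_neg_conj z).2]
      exact hz.2
  have hcont : ContinuousOn H₁ Sq :=
    (dyck_H_cont hq Real.pi).comp Complex.continuous_conj.neg.continuousOn hmap
  have hinj : InjOn H₁ Sq := by
    intro z hz w hw h
    have h1 := dyck_H_inj hq Real.pi (hmap hz) (hmap hw) h
    have h2 : (starRingEnd ℂ) z = (starRingEnd ℂ) w := neg_injective h1
    have h3 := congrArg (starRingEnd ℂ) h2
    simpa using h3
  have hW₁W : W₁ ⊆ q '' dyck_W.Dom := by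
    rw [g1]
    exact subset_union_right
  have hL₀W : L₀ ⊆ q '' dyck_W.Dom := by
    rw [g1]
    exact subset_union_left
  have hmeet : H₁ '' Sq ∩ q₁ '' pantsC.Dom = H₁ '' SqA := by
    rw [iSq, iSqA, g6]
    apply Subset.antisymm
    · rintro x ⟨h1, h2⟩
      rw [← dyck_H_meet hq Real.pi]
      exact ⟨h1, hW₁W h2⟩
    · intro x hx
      have h1 : x ∈ dyck_H q Real.pi '' Sq := by
        rw [← dyck_H_meet hq Real.pi] at hx
        exact hx.1
      refine ⟨h1, ?_⟩
      rw [← g6]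
      exact image_mono hFD (mA _ hx)
  have hfp := hLK X q₁ H₁ (fun x => g (Real.pi - Real.pi * x / 2)) (fun x => Real.pi * x / 2) g4 g5
    hcont hinj hmeet (by
      refine (s3.comp ?_).continuousOn
      fun_prop) (by
      refine Continuous.continuousOn ?_
      fun_prop) (by
      intro x _ y _ hxy
      refine s4 ?_
      have := mul_lt_mul_of_pos_left hxy hpi
      linarith) (by
      intro x _ y _ hxy
      have := mul_lt_mul_of_pos_left hxy hpi
      show Real.pi * x / 2 < Real.pi * y / 2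
      linarith) (by
      intro x _
      show dyck_H q Real.pi (-(starRingEnd ℂ) ((x : ℂ) + Complex.I)) = _
      have e : -(starRingEnd ℂ) ((x : ℂ) + Complex.I) = ((-x : ℝ) : ℂ) + Complex.I := by
        rw [map_add, Complex.conj_ofReal, Complex.conj_I]
        push_cast
        ring
      rw [e, dyck_H_top, f9]
      congr 4
      ring) (by
      intro x _
      show dyck_H q Real.pi (-(starRingEnd ℂ) ((x : ℂ) - Complex.I)) = _
      have e : -(starRingEnd ℂ) ((x : ℂ) - Complex.I) = ((-x : ℝ) : ℂ) - Complex.I := by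
        rw [map_sub, Complex.conj_ofReal, Complex.conj_I]
        push_cast
        ring
      rw [e, dyck_H_bot, f8]
      congr 4
      ring)
  have hfin := g15 0 2 1 _ _ (dyck_fp_congr hfp g7) (by
    rintro x ⟨h1 | h1, h2⟩
    · rw [← g2, ← g6]
      exact ⟨h2, h1⟩
    · exfalso
      rw [iSq] at h1
      have h3 : x ∈ dyck_H q Real.pi '' SqA := by
        rw [← dyck_H_meet hq Real.pi]
        exact ⟨h1, hL₀W h2⟩
      have h4 := mA _ h3
      rw [hFB] at h4
      exact disjoint_left.1 g12 h4 h2)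
  rw [dyck_V_cnt.1, dyck_V_cnt.2.1, dyck_V_cnt.2.2, iSq, iSqO, iSqF, g6, ← union_assoc, ← g1]
    at hfin
  refine ⟨_, hfin, ?_⟩
  rintro _ ⟨w, ⟨hw, hwI⟩, rfl⟩
  right
  by_cases h : |w.im| = 1
  · left
    refine ⟨mA _ ⟨w, ⟨hw.1, h⟩, rfl⟩, ?_⟩
    rintro ⟨z, hz, hzw⟩
    have hz1 : |z.re| < 1 := hz.1
    have hz2 : |z.im| = 1 := hz.2
    have h1 := (dyck_H_H hq (z := z) (w := w) ⟨hz1.le, hz2.le⟩ hw hzw.symm).2
    linarith
  · right
    have h2 : |w.re| = 1 := by
      by_contra hc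
      exact hwI ⟨lt_of_le_of_ne hw.1 hc, lt_of_le_of_ne hw.2 h⟩
    refine ⟨-(starRingEnd ℂ) w, ⟨?_, ?_⟩, (dyck_edge h2).symm⟩
    · rw [(dyck_neg_conj w).1, abs_neg]
      exact h2
    · rw [(dyck_neg_conj w).2]
      exact hw.2

/-- handle and crosscap equal three crosscaps -/
theorem thm_DYCK (hCFIN : St_CFIN) (hCCONG : St_CCONG) (_hREF : St_REF) (hFREE : St_FREE)
    (hCUT : St_CUT) (hPASTE : St_PASTE) (hRED : St_RED) (_hMONO : St_MONO) (hBAND : St_BAND)
    (hBCN : St_BCN) (hLA : St_LA) (hLK : St_LK) (hSLD : St_SLD) : St_DYCK := by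
  intro X _ _ L Bd u hFP
  have hBd : Bd = ∅ := hBCN.2.2.2.1 X 1 1 L Bd u hFP
  obtain ⟨q, hq, hqu, -⟩ := hFREE.1 1 1 0 X L Bd u hFP dyck_D dyck_D_ok rfl dyck_D_cnt.1
    dyck_D_cnt.2.1 dyck_D_cnt.2.2
  obtain ⟨Bd₃, hfp, hcap⟩ := dyck_band hCFIN hCCONG hFREE hCUT hPASTE hRED hLK hSLD hq hqu
  have hpi := Real.pi_pos
  obtain ⟨H₀, b1, b2, b3, -, -, -, -, -, -, -, -, b12⟩ := hBAND 0 (Real.pi / 2) Real.pi
    (3 * Real.pi / 2) (by linarith) (by linarith) (by linarith) (by linarith)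
  obtain ⟨ψ, ψ1, ψ2⟩ := dyck_inv dyck_Sq_compact b1 b2
  rw [b3] at ψ1
  have hψS : MapsTo ψ CD Sq := by
    rw [← b3]
    rintro _ ⟨z, hz, rfl⟩
    rw [ψ2 z hz]
    exact hz
  have hψinj : InjOn ψ CD := by
    rw [← b3]
    rintro _ ⟨z, hz, rfl⟩ _ ⟨w, hw, rfl⟩ h
    rw [ψ2 z hz, ψ2 w hw] at h
    rw [h]
  have him : ∀ S ⊆ Sq, (fun w => dyck_H q 0 (ψ w)) '' (H₀ '' S) = dyck_H q 0 '' S := by
    intro S hS
    rw [image_image]
    exact image_congr fun z hz => by
      show dyck_H q 0 (ψ (H₀ z)) = _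
      rw [ψ2 z (hS hz)]
  have hCD := him Sq Subset.rfl
  have hUC := him (Sq \ SqI) sdiff_subset
  rw [b3] at hCD
  rw [b12] at hUC
  have hatt : AttTo (q '' dyck_W.Dom ∪ dyck_H q Real.pi '' Sq) Bd₃ (fun w => dyck_H q 0 (ψ w)) UC :=
    { cont := (dyck_H_cont hq 0).comp ψ1 hψS
      inj := (dyck_H_inj hq 0).comp hψinj hψS
      meet := by
        rw [hCD, hUC]
        exact dyck_H_rest hq
      bd := by
        rw [hUC]
        exact hcap }
  have hfin := dyck_cap hBCN hRED hLA hfp hatt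
  rw [hCD, ← dyck_H_cover hq] at hfin
  rw [hBd]
  exact hfin

end Pool.Agent.SRP
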