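import Pool.Agent.SRP.StE

set_option autoImplicit false

/-! # SRP, module EXI: every connected surface has a model -/

open Set Metric Filter Topology Pool.Agent.SRF

namespace Pool.Agent.SRP

private theorem exi_sOk : (single (1 / 2) Lab.O).Ok := by
  refine ⟨isClosed_empty, ?_, ?_, ?_, ?_, ?_, ?_, ?_⟩
  · change IsCompact (∅ ∪ {0})
    rw [empty_union]
    exact isCompact_singleton
  · exact isTotallyDisconnected_empty
  · intro x hx
    exact absurd hx (notMem_empty x)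
  · intro i _
    change (0 : ℝ) < 1 / 2
    norm_num
  · intro i hi
    change |i| + 1 / 2 < 1
    rw [mem_singleton_iff.1 hi]
    norm_num
  · intro i _ x hx
    exact absurd hx (notMem_empty x)
  · intro i hi j hj hij
    exact absurd ((mem_singleton_iff.1 hi).trans (mem_singleton_iff.1 hj).symm) hij

private theorem exi_sDom : (single (1 / 2) Lab.O).Dom = Ann := by
  ext z
  unfold Conf.Dom
  rw [Set.mem_sdiff, mem_closedBall_zero_iff]
  have h1 : z ∈ (fun x : ℝ => (x : ℂ)) '' (single (1 / 2) Lab.O).F ∪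
      ⋃ i ∈ (single (1 / 2) Lab.O).I, (single (1 / 2) Lab.O).holes i ↔ ‖z‖ < 1 / 4 := by
    change z ∈ (fun x : ℝ => (x : ℂ)) '' ∅ ∪
      ⋃ i ∈ ({0} : Set ℝ), (single (1 / 2) Lab.O).holes i ↔ _
    rw [image_empty, empty_union, biUnion_singleton]
    change z ∈ ball ((0 : ℝ) : ℂ) (1 / 2 / 2) ↔ _
    rw [Complex.ofReal_zero, mem_ball_zero_iff]
    norm_num
  rw [h1, not_lt]
  exact and_comm

private theorem exi_sRel {x y : ℂ} : (single (1 / 2) Lab.O).Rel x y ↔ x = y := by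
  constructor
  · rintro (h | ⟨i, -, ⟨h, -⟩ | ⟨h, -⟩⟩)
    · exact h
    · exact absurd h (by simp [single])
    · exact absurd h (by simp [single])
  · exact fun h => Or.inl h

private theorem exi_sFree : (single (1 / 2) Lab.O).FreeBd = sphere 0 (1 / 4) := by
  unfold Conf.FreeBd
  have h : {i ∈ (single (1 / 2) Lab.O).I | (single (1 / 2) Lab.O).lab i = Lab.O} = {0} := by
    ext i
    constructor
    · exact fun h => h.1
    · exact fun h => ⟨h, rfl⟩
  rw [h, biUnion_singleton]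
  change sphere ((0 : ℝ) : ℂ) (1 / 2 / 2) = _
  rw [Complex.ofReal_zero]
  norm_num

private theorem exi_annc : IsCompact Ann := by
  have h : Ann = closedBall 0 1 ∩ {z : ℂ | 1 / 4 ≤ ‖z‖} := by
    ext z
    constructor
    · rintro ⟨h1, h2⟩
      exact ⟨mem_closedBall_zero_iff.2 h2, h1⟩
    · rintro ⟨h1, h2⟩
      exact ⟨h2, mem_closedBall_zero_iff.1 h1⟩
  rw [h]
  exact (isCompact_closedBall 0 1).inter_right (isClosed_le continuous_const continuous_norm)

/-- The map from the standard annulus onto `{1/2 ≤ ‖w‖ ≤ 1}`, turning it inside out. -/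
private noncomputable def exi_g (z : ℂ) : ℂ := (((7 - 4 * ‖z‖) / (6 * ‖z‖) : ℝ) : ℂ) * z

private theorem exi_gn {z : ℂ} (hz : z ∈ Ann) : ‖exi_g z‖ = (7 - 4 * ‖z‖) / 6 := by
  have h1 : (0 : ℝ) < ‖z‖ := lt_of_lt_of_le (by norm_num) hz.1
  have h2 : ‖z‖ ≤ 1 := hz.2
  unfold exi_g
  rw [norm_mul, Complex.norm_real, Real.norm_of_nonneg (div_nonneg (by linarith) (by linarith))]
  field_simp

private theorem exi_gc : ContinuousOn exi_g Ann := by
  unfold exi_g
  refine ContinuousOn.mul ?_ continuousOn_id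
  refine Complex.continuous_ofReal.comp_continuousOn ?_
  refine ContinuousOn.div (by fun_prop) (by fun_prop) fun z hz => ?_
  have h1 : (0 : ℝ) < ‖z‖ := lt_of_lt_of_le (by norm_num) hz.1
  positivity

private theorem exi_gi : InjOn exi_g Ann := by
  intro x hx y hy hxy
  have h1 : (0 : ℝ) < ‖x‖ := lt_of_lt_of_le (by norm_num) hx.1
  have h2 : ‖x‖ ≤ 1 := hx.2
  have h3 : ‖x‖ = ‖y‖ := by
    have := congrArg norm hxy
    rw [exi_gn hx, exi_gn hy] at this
    linarith
  unfold exi_g at hxy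
  rw [← h3] at hxy
  refine mul_left_cancel₀ ?_ hxy
  rw [Ne, Complex.ofReal_eq_zero]
  have : (0 : ℝ) < (7 - 4 * ‖x‖) / (6 * ‖x‖) := div_pos (by linarith) (by linarith)
  exact this.ne'

private theorem exi_gim : exi_g '' Ann = {w | 1 / 2 ≤ ‖w‖ ∧ ‖w‖ ≤ 1} := by
  ext w
  constructor
  · rintro ⟨z, hz, rfl⟩
    rw [mem_ofPred_eq, exi_gn hz]
    have h1 : 1 / 4 ≤ ‖z‖ := hz.1
    have h2 : ‖z‖ ≤ 1 := hz.2
    constructor <;> linarith
  · rintro ⟨h1, h2⟩
    have h0 : (0 : ℝ) < ‖w‖ := by linarith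
    have hr : (0 : ℝ) < (7 - 6 * ‖w‖) / 4 / ‖w‖ := div_pos (by linarith) h0
    have hn : ‖(((7 - 6 * ‖w‖) / 4 / ‖w‖ : ℝ) : ℂ) * w‖ = (7 - 6 * ‖w‖) / 4 := by
      rw [norm_mul, Complex.norm_real, Real.norm_of_nonneg hr.le]
      field_simp
    refine ⟨(((7 - 6 * ‖w‖) / 4 / ‖w‖ : ℝ) : ℂ) * w, ⟨?_, ?_⟩, ?_⟩
    · rw [hn]; linarith
    · rw [hn]; linarith
    · unfold exi_g
      rw [hn, ← mul_assoc, ← Complex.ofReal_mul]
      have h3 : (7 - 4 * ((7 - 6 * ‖w‖) / 4)) / (6 * ((7 - 6 * ‖w‖) / 4)) *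
          ((7 - 6 * ‖w‖) / 4 / ‖w‖) = 1 := by
        have h4 : (7 - 6 * ‖w‖) ≠ 0 := by
          have : (0 : ℝ) < 7 - 6 * ‖w‖ := by linarith
          exact this.ne'
        have h5 : 7 - 4 * ((7 - 6 * ‖w‖) / 4) = 6 * ‖w‖ := by ring
        rw [h5]
        field_simp
      rw [h3, Complex.ofReal_one, one_mul]

private theorem exi_gsph : exi_g '' sphere 0 (1 / 4) = UC := by
  ext w
  constructor
  · rintro ⟨z, hz, rfl⟩
    have hz' : ‖z‖ = 1 / 4 := mem_sphere_zero_iff_norm.1 hz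
    have hzA : z ∈ Ann := ⟨hz'.ge, by rw [hz']; norm_num⟩
    rw [mem_sphere_zero_iff_norm, exi_gn hzA, hz']
    norm_num
  · intro hw
    have hw1 : ‖w‖ = 1 := mem_sphere_zero_iff_norm.1 hw
    have hwm : w ∈ exi_g '' Ann := by
      rw [exi_gim]
      exact ⟨by rw [hw1]; norm_num, hw1.le⟩
    obtain ⟨z, hz, rfl⟩ := hwm
    refine ⟨z, ?_, rfl⟩
    rw [exi_gn hz] at hw1
    rw [mem_sphere_zero_iff_norm]
    linarith

private theorem exi_guc {z : ℂ} (hz : z ∈ UC) : exi_g z = z / 2 := by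
  have hz' : ‖z‖ = 1 := mem_sphere_zero_iff_norm.1 hz
  unfold exi_g
  rw [hz']
  norm_num
  ring

section

variable {X : Type} [TopologicalSpace X]

private theorem exi_half (z : ℂ) : ‖z / 2‖ = ‖z‖ / 2 := by
  rw [norm_div]
  norm_num

private theorem exi_e {φ : ℂ → X} (hφ : IsOpenEmbedding φ) :
    IsOpenEmbedding (fun z : ℂ => φ (z / 2)) := by
  have h : (2 : ℂ)⁻¹ ≠ 0 := by norm_num
  have h2 : (fun z : ℂ => φ (z / 2)) = φ ∘ (Homeomorph.mulRight₀ (2 : ℂ)⁻¹ h) := by
    funext z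
    simp [div_eq_mul_inv]
  rw [h2]
  exact hφ.comp (Homeomorph.isOpenEmbedding _)

private theorem exi_stage0 {φ : ℂ → X} (hφ : IsOpenEmbedding φ)
    (hfr : frontier (φ '' CD) = φ '' UC) :
    Stage (fun z : ℂ => φ (z / 2)) (φ '' CD) (single (1 / 2) Lab.O) (fun z => φ (exi_g z)) := by
  refine ⟨exi_sOk, rfl, ?_, ?_, ?_⟩
  · refine ⟨?_, ?_, ?_, ?_⟩
    · rw [exi_sDom]
      exact hφ.continuous.comp_continuousOn exi_gc
    · rw [exi_sDom]
      have h1 : (fun z : ℂ => φ (exi_g z)) '' Ann = φ '' {w | 1 / 2 ≤ ‖w‖ ∧ ‖w‖ ≤ 1} := by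
        rw [← exi_gim, image_image]
      rw [h1]
      ext x
      constructor
      · rintro ⟨w, ⟨h1, h2⟩, rfl⟩
        refine ⟨⟨w, mem_closedBall_zero_iff.2 h2, rfl⟩, ?_⟩
        rintro ⟨z, hz, hzw⟩
        have h3 : z / 2 = w := hφ.injective hzw
        have h4 : ‖z‖ < 1 := mem_ball_zero_iff.1 hz
        rw [← h3, exi_half] at h1
        linarith
      · rintro ⟨⟨w, hw, rfl⟩, h⟩
        refine ⟨w, ⟨?_, mem_closedBall_zero_iff.1 hw⟩, rfl⟩
        by_contra hlt
        push Not at hlt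
        refine h ⟨w * 2, ?_, ?_⟩
        · rw [mem_ball_zero_iff, norm_mul]
          norm_num
          linarith
        · change φ (w * 2 / 2) = φ w
          rw [mul_div_cancel_right₀ w two_ne_zero]
    · rw [exi_sDom]
      intro x hx y hy
      rw [exi_sRel]
      exact ⟨fun h => exi_gi hx hy (hφ.injective h), fun h => by rw [h]⟩
    · intro A _ _
      rw [exi_sDom]
      exact ⟨Ann, Subset.rfl, exi_annc, fun x hx _ => hx⟩
  · intro z hz
    rw [exi_guc hz]
  · rw [exi_sFree, hfr, ← exi_gsph, image_image]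

/-- Frontiers of the components of the complement of the first disc. -/
private theorem exi_front (hADJ : Pool.Agent.SRF.St_ADJ) (hX : IsSurf X) [ConnectedSpace X]
    {K : Set X} (hK : Bord K) (hne : K.Nonempty) (hc : IsConnected (frontier K)) (x : X)
    (hx : x ∉ K) : IsConnected (frontier (connectedComponentIn Kᶜ x)) := by
  obtain ⟨ho, hs, -, h4⟩ := hADJ X hX K hK x hx
  have hxm : x ∈ connectedComponentIn Kᶜ x := mem_connectedComponentIn hx
  have hfne : (frontier (connectedComponentIn Kᶜ x)).Nonempty := by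
    rw [nonempty_iff_ne_empty]
    intro h0
    have hcl : IsClopen (connectedComponentIn Kᶜ x) := isClopen_iff_frontier_eq_empty.2 h0
    have huniv := hcl.eq_univ ⟨x, hxm⟩
    obtain ⟨y, hy⟩ := hne
    have hy2 : y ∈ connectedComponentIn Kᶜ x := by
      rw [huniv]; exact mem_univ y
    exact connectedComponentIn_subset _ _ hy2 hy
  have heq : frontier (connectedComponentIn Kᶜ x) = frontier K := by
    rcases h4 _ Subset.rfl hc.isPreconnected with h | h
    · exact Subset.antisymm hs h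
    · exfalso
      obtain ⟨y, hy⟩ := hfne
      exact disjoint_left.1 h (hs hy) (frontier_subset_closure hy)
  rw [heq]
  exact hc

/-- The data of a stage. -/
private structure ExiP (e : ℂ → X) (s : Set X × Conf × (ℂ → X)) : Prop where
  bord : Bord s.1
  conn : IsConnected s.1
  stage : Stage e s.1 s.2.1 s.2.2
  sub : e '' CD ⊆ interior s.1
  front : ∀ x, x ∉ s.1 → IsConnected (frontier (connectedComponentIn s.1ᶜ x))

private theorem exi_uc : IsConnected UC := by
  apply isConnected_sphere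
  · rw [Complex.rank_real_complex]
    exact Cardinal.one_lt_two
  · norm_num

private theorem exi_step (hGEX : Pool.Agent.SRF.St_GEX) (hSTG : St_STG) (hX : IsSurf X)
    (hcs : ConnectedSpace X) {e : ℂ → X} (he : IsOpenEmbedding e) {A : Set X} (hA : IsCompact A)
    (s : Set X × Conf × (ℂ → X)) (hs : ExiP e s) : ∃ s' : Set X × Conf × (ℂ → X),
      ExiP e s' ∧ s.1 ∪ A ⊆ interior s'.1 ∧ ExtS s.1 s.2.1 s.2.2 s'.2.1 s'.2.2 := by
  obtain ⟨K', hb, hsub, hB, hC, hfr⟩ := hGEX X hX hcs s.1 A hs.bord hs.conn hA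
  obtain ⟨C', q', h1, h2⟩ := hSTG X hX hcs e s.1 K' s.2.1 s.2.2 he hs.sub hs.bord hs.stage hs.front
    hb (subset_union_left.trans hsub) hB
  refine ⟨(K', C', q'), ⟨hB, hC, h1, ?_, ?_⟩, hsub, h2⟩
  · exact hs.sub.trans (interior_mono (subset_union_left.trans (hsub.trans interior_subset)))
  · intro x hx
    obtain ⟨-, γ, hγ, hγ2⟩ := hfr x hx
    change IsConnected (frontier (connectedComponentIn K'ᶜ x))
    rw [hγ2]
    exact exi_uc.image γ hγ.1

end

/-- **EXI.** Every connected surface has a model. -/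
theorem thm_EXI (_hBFR : Pool.Agent.SRF.St_BFR) (hBB : Pool.Agent.SRF.St_BB)
    (hADJ : Pool.Agent.SRF.St_ADJ) (hGEX : Pool.Agent.SRF.St_GEX) (hSTG : St_STG)
    (hLIM : St_LIM) : St_EXI := by
  intro X _ hX hcs
  have := hX.t2
  have := hX.sc
  have : WeaklyLocallyCompactSpace X := by
    refine ⟨fun x => ?_⟩
    obtain ⟨φ, hφ, rfl⟩ := hX.chart x
    refine ⟨φ '' CD, (isCompact_closedBall 0 1).image hφ.continuous, ?_⟩
    exact hφ.isOpenMap.image_mem_nhds (closedBall_mem_nhds 0 one_pos)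
  obtain ⟨x0⟩ := hcs.toNonempty
  obtain ⟨φ, hφ, -⟩ := hX.chart x0
  have htile : IsTile φ := ⟨hφ.continuous.continuousOn, hφ.injective.injOn, φ, hφ,
    image_subset_range _ _⟩
  obtain ⟨hb1, hb2, hb3⟩ := (hBB X hX).1 φ htile
  set e : ℂ → X := fun z => φ (z / 2) with he
  have heo : IsOpenEmbedding e := exi_e hφ
  have hesub : e '' CD ⊆ interior (φ '' CD) := by
    have h1 : e '' CD ⊆ φ '' OD := by
      rintro _ ⟨z, hz, rfl⟩
      refine ⟨z / 2, ?_, rfl⟩
      have hz' : ‖z‖ ≤ 1 := mem_closedBall_zero_iff.1 hz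
      rw [mem_ball_zero_iff, exi_half]
      linarith
    refine h1.trans (interior_maximal (image_mono ball_subset_closedBall) ?_)
    exact hφ.isOpenMap _ isOpen_ball
  have hfc : IsConnected (frontier (φ '' CD)) := by
    rw [hb2]
    exact exi_uc.image φ hφ.continuous.continuousOn
  have h0 : ExiP e (φ '' CD, single (1 / 2) Lab.O, fun z => φ (exi_g z)) :=
    ⟨hb1, hb3, exi_stage0 hφ hb2, hesub,
      fun x hx => exi_front hADJ hX hb1 hb3.nonempty hfc x hx⟩
  let A : CompactExhaustion X := CompactExhaustion.choice X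
  have hstep : ∀ (n : ℕ) (s : {s : Set X × Conf × (ℂ → X) // ExiP e s}),
      ∃ s' : {s : Set X × Conf × (ℂ → X) // ExiP e s},
        s.1.1 ∪ A n ⊆ interior s'.1.1 ∧ ExtS s.1.1 s.1.2.1 s.1.2.2 s'.1.2.1 s'.1.2.2 := by
    intro n s
    obtain ⟨s', h1, h2, h3⟩ := exi_step hGEX hSTG hX hcs heo (A.isCompact n) s.1 s.2
    exact ⟨⟨s', h1⟩, h2, h3⟩
  choose f hf1 hf2 using hstep
  let S : ℕ → {s : Set X × Conf × (ℂ → X) // ExiP e s} := fun n =>
    Nat.rec ⟨_, h0⟩ (fun n s => f n s) n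
  have hS : ∀ n, S (n + 1) = f n (S n) := fun n => rfl
  have hsub : ∀ n, (S n).1.1 ∪ A n ⊆ interior (S (n + 1)).1.1 := fun n => by
    rw [hS]; exact hf1 n (S n)
  have hext : ∀ n, ExtS (S n).1.1 (S n).1.2.1 (S n).1.2.2 (S (n + 1)).1.2.1 (S (n + 1)).1.2.2 :=
    fun n => by rw [hS]; exact hf2 n (S n)
  have hmono : Monotone fun n => (S n).1.1 := monotone_nat_of_le_succ fun n =>
    subset_union_left.trans ((hsub n).trans interior_subset)
  have hAsub : ∀ n, A n ⊆ (S (n + 1)).1.1 := fun n =>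
    subset_union_right.trans ((hsub n).trans interior_subset)
  have hcomp : ∀ B : Set X, IsCompact B → ∃ n, B ⊆ (S n).1.1 := by
    intro B hB
    obtain ⟨n, hn⟩ := A.exists_superset_of_isCompact hB
    exact ⟨n + 1, hn.trans (hAsub n)⟩
  obtain ⟨C', q', h1, h2, h3, h4⟩ := hLIM X (e '' OD) (fun n => (S n).1.1) (fun n => (S n).1.2.1)
    (fun n => (S n).1.2.2) e hmono
    (fun n => ⟨(S n).2.stage.ok, (S n).2.stage.fin, (S n).2.stage.pres, (S n).2.stage.circle⟩)
    hext (fun B _ hB => hcomp B hB)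
  refine ⟨C', h1, h2, e, heo, q', ?_, h4⟩
  have hU : (⋃ n, (S n).1.1 \ e '' OD) = (e '' OD)ᶜ := by
    ext x
    constructor
    · intro hx
      obtain ⟨n, hn⟩ := mem_iUnion.1 hx
      exact hn.2
    · intro hx
      obtain ⟨n, hn⟩ := hcomp {x} isCompact_singleton
      exact mem_iUnion.2 ⟨n, hn (mem_singleton x), hx⟩
  rw [← hU]
  exact h3

end Pool.Agent.SRP
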