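import Pool.Agent.SRP.StD
import Pool.Agent.SRF.ARC0

/-!
# Module LB of SRP: a disc attached to an annulus along an arc
-/

set_option autoImplicit false

open Set Metric Filter Topology Pool.Agent.SRF

namespace Pool.Agent.SRP

private theorem lb_inv {X : Type} [TopologicalSpace X] [T2Space X] {S : Set ℂ} (hS : IsCompact S)
    (q : ℂ → X) (hq : ContinuousOn q S) (hi : InjOn q S) (T : Set ℝ) (f : ℝ → X)
    (hf : ContinuousOn f T) (hm : ∀ t ∈ T, f t ∈ q '' S) :
    ∃ ζ : ℝ → ℂ, ContinuousOn ζ T ∧ ∀ t ∈ T, ζ t ∈ S ∧ q (ζ t) = f t := by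
  classical
  have hm' : ∀ t : ℝ, ∃ z : ℂ, t ∈ T → z ∈ S ∧ q z = f t := by
    intro t
    by_cases ht : t ∈ T
    · obtain ⟨z, hz, hzq⟩ := hm t ht
      exact ⟨z, fun _ => ⟨hz, hzq⟩⟩
    · exact ⟨0, fun h => absurd h ht⟩
  choose ζ hζ using hm'
  refine ⟨ζ, ?_, fun t ht => hζ t ht⟩
  have : CompactSpace S := isCompact_iff_compactSpace.1 hS
  have emb : IsClosedEmbedding (S.domRestrict q) :=
    (continuousOn_iff_continuous_domRestrict.1 hq).isClosedEmbedding (injOn_iff_injective.1 hi)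
  rw [continuousOn_iff_continuous_domRestrict]
  let g : T → S := fun t => ⟨ζ t, (hζ t t.2).1⟩
  have hg : Continuous g := by
    rw [emb.isInducing.continuous_iff]
    have h1 : (S.domRestrict q) ∘ g = T.domRestrict f := by
      funext t
      exact (hζ t t.2).2
    rw [h1]
    exact continuousOn_iff_continuous_domRestrict.1 hf
  exact continuous_subtype_val.comp hg

private theorem lb_theta (hMONO : St_MONO) {X : Type} [TopologicalSpace X] [T2Space X]
    (q : ℂ → X) (c : ℂ) (r : ℝ) (hr : 0 < r) (hq : ContinuousOn q (sphere c r))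
    (hi : InjOn q (sphere c r)) (f : ℝ → X) (hf : ContinuousOn f (Icc (-1) 1))
    (hfi : InjOn f (Icc (-1) 1)) (hm : ∀ t ∈ Icc (-1 : ℝ) 1, f t ∈ q '' sphere c r) :
    ∃ θ : ℝ → ℝ, ContinuousOn θ (Icc (-1) 1) ∧
      (StrictMonoOn θ (Icc (-1) 1) ∨ StrictAntiOn θ (Icc (-1) 1)) ∧
      ∀ t ∈ Icc (-1 : ℝ) 1, f t = q (c + r * cexpi (θ t)) := by
  obtain ⟨ζ, hζ, hζq⟩ := lb_inv (isCompact_sphere c r) q hq hi _ f hf hm
  obtain ⟨θ, h1, h2, h3, -⟩ := hMONO.1 c r (-1) 1 ζ hr (by norm_num) hζ (by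
    intro s hs t ht hst
    apply hfi hs ht
    rw [← (hζq s hs).2, ← (hζq t ht).2, hst]) (fun t ht => (hζq t ht).1)
  exact ⟨θ, h1, h2, fun t ht => by rw [← h3 t ht]; exact (hζq t ht).2.symm⟩

/-- equal values of `cexpi` at nearby points -/
private theorem lb_inj {s t : ℝ} (h : cexpi s = cexpi t) (h1 : t ≤ s) (h2 : s < t + 2 * Real.pi) :
    s = t :=
  arc0_inj (e := t) ⟨h1, h2⟩ ⟨le_rfl, by linarith [Real.two_pi_pos]⟩ h

/-- the closed half disc on the right, its round side and its straight side -/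
private def lb_R : Set ℂ := {z | ‖z‖ ≤ 1 / 4 ∧ 0 ≤ z.re}
private def lb_A : Set ℂ := {z | ‖z‖ = 1 / 4 ∧ 0 ≤ z.re}
private def lb_B : Set ℂ := {z | z.re = 0 ∧ |z.im| ≤ 1 / 4}

private theorem lb_norm_im {z : ℂ} (hz : z.re = 0) : ‖z‖ = |z.im| := by
  have : z = z.im * Complex.I := by
    apply Complex.ext <;> simp [hz]
  conv_lhs => rw [this]
  rw [norm_mul, Complex.norm_I, mul_one, Complex.norm_real, Real.norm_eq_abs]

private theorem lb_A_sub : lb_A ⊆ lb_R := fun _ hz => ⟨hz.1.le, hz.2⟩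
private theorem lb_B_sub : lb_B ⊆ lb_R := fun z hz =>
  ⟨by rw [lb_norm_im hz.1]; exact hz.2, by rw [hz.1]⟩

private theorem lb_R_eq : lb_R = closedBall 0 (1 / 4) ∩ {z : ℂ | 0 ≤ z.re} := by
  ext z
  simp [lb_R]

private theorem lb_R_closed : IsClosed lb_R := by
  rw [lb_R_eq]
  exact isClosed_closedBall.inter (isClosed_le continuous_const Complex.continuous_re)

private theorem lb_R_compact : IsCompact lb_R := by
  rw [lb_R_eq]
  exact (isCompact_closedBall _ _).inter_right
    (isClosed_le continuous_const Complex.continuous_re)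

private theorem lb_R_convex : Convex ℝ lb_R := by
  rw [lb_R_eq]
  refine (convex_closedBall _ _).inter ?_
  exact convex_halfSpace_re_ge 0

private theorem lb_R_int : interior lb_R = {z | ‖z‖ < 1 / 4 ∧ 0 < z.re} := by
  rw [lb_R_eq, interior_inter, interior_closedBall _ (by norm_num),
    Complex.interior_setOfPred_le_re]
  ext z
  simp

private theorem lb_R_front : frontier lb_R = lb_A ∪ lb_B := by
  rw [lb_R_closed.frontier_eq, lb_R_int]
  ext z
  constructor
  · rintro ⟨⟨h1, h2⟩, h3⟩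
    rcases h1.lt_or_eq with h4 | h4
    · right
      have h5 : z.re = 0 := by
        by_contra h5
        exact h3 ⟨h4, lt_of_le_of_ne h2 (Ne.symm h5)⟩
      exact ⟨h5, by rw [← lb_norm_im h5]; exact h1⟩
    · exact Or.inl ⟨h4, h2⟩
  · rintro (h | h)
    · exact ⟨lb_A_sub h, fun h2 => absurd h.1 (ne_of_lt h2.1)⟩
    · exact ⟨lb_B_sub h, fun h2 => absurd h.1 (ne_of_gt h2.2)⟩

/-- the parameter on the arc `[a, b]` -/
private noncomputable def lb_t (a b x : ℝ) : ℝ := (a + b) / 2 + x * (b - a) / 2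

/-- the parametrisation of the boundary of the half disc -/
private noncomputable def lb_beta (a b : ℝ) (z : ℂ) : ℂ :=
  if 0 < z.re then cexpi (lb_t a b (2 / Real.pi * z.arg))
  else cexpi (b + (1 / 4 - z.im) * 2 * (a + 2 * Real.pi - b))

private theorem lb_beta_B (a b : ℝ) {z : ℂ} (hz : z ∈ lb_B) :
    lb_beta a b z = cexpi (b + (1 / 4 - z.im) * 2 * (a + 2 * Real.pi - b)) := by
  unfold lb_beta
  rw [if_neg (by rw [hz.1]; exact lt_irrefl 0)]

private theorem lb_beta_A (a b : ℝ) {z : ℂ} (hz : z ∈ lb_A) :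
    lb_beta a b z = cexpi (lb_t a b (2 / Real.pi * z.arg)) := by
  by_cases h : 0 < z.re
  · unfold lb_beta
    rw [if_pos h]
  · have h0 : z.re = 0 := le_antisymm (not_lt.1 h) hz.2
    have h1 : |z.im| = 1 / 4 := by rw [← lb_norm_im h0]; exact hz.1
    rw [lb_beta_B a b ⟨h0, h1.le⟩]
    have hpi := Real.pi_ne_zero
    rcases abs_eq (by norm_num : (0 : ℝ) ≤ 1 / 4) |>.1 h1 with h2 | h2
    · have h3 : z.arg = Real.pi / 2 := by
        rw [Complex.arg_eq_pi_div_two_iff]
        exact ⟨h0, by rw [h2]; norm_num⟩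
      rw [h3, h2]
      congr 1
      unfold lb_t
      field_simp
      ring
    · have h3 : z.arg = -(Real.pi / 2) := by
        rw [Complex.arg_eq_neg_pi_div_two_iff]
        exact ⟨h0, by rw [h2]; norm_num⟩
      rw [h3, h2]
      have h4 : b + (1 / 4 - -(1 / 4)) * 2 * (a + 2 * Real.pi - b) = a + 2 * Real.pi := by ring
      rw [h4, arc0_add_two_pi]
      congr 1
      unfold lb_t
      field_simp
      ring

private theorem lb_A_eq {z : ℂ} (hz : z ∈ lb_A) : z = 1 / 4 * cexpi z.arg := by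
  have := Complex.norm_mul_exp_arg_mul_I z
  rw [hz.1] at this
  unfold cexpi
  calc z = ((1 / 4 : ℝ) : ℂ) * Complex.exp (z.arg * Complex.I) := this.symm
    _ = _ := by push_cast; rfl

private theorem lb_arg {z : ℂ} (hz : z ∈ lb_A) : 2 / Real.pi * z.arg ∈ Icc (-1 : ℝ) 1 := by
  have h1 := Complex.abs_arg_le_pi_div_two_iff.2 hz.2
  rw [abs_le] at h1
  have hpi := Real.pi_pos
  have e : (2 : ℝ) / Real.pi * (Real.pi / 2) = 1 := by field_simp
  have h2 : 0 < 2 / Real.pi := by positivity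
  constructor
  · have := mul_le_mul_of_nonneg_left h1.1 h2.le
    linarith
  · have := mul_le_mul_of_nonneg_left h1.2 h2.le
    linarith

private theorem lb_t_mem {a b : ℝ} (hab : a < b) {x : ℝ} (hx : x ∈ Icc (-1 : ℝ) 1) :
    lb_t a b x ∈ Icc a b := by
  unfold lb_t
  constructor
  · nlinarith [hx.1, hx.2]
  · nlinarith [hx.1, hx.2]

private theorem lb_t_surj {a b : ℝ} (hab : a < b) {s : ℝ} (hs : s ∈ Icc a b) :
    ∃ x ∈ Icc (-1 : ℝ) 1, lb_t a b x = s := by
  have h : 0 < b - a := by linarith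
  refine ⟨(2 * s - a - b) / (b - a), ⟨?_, ?_⟩, ?_⟩
  · rw [le_div_iff₀ h]; linarith [hs.1]
  · rw [div_le_iff₀ h]; linarith [hs.2]
  · unfold lb_t; field_simp; ring

private theorem lb_point {x : ℝ} (hx : x ∈ Icc (-1 : ℝ) 1) :
    (1 / 4 * cexpi (Real.pi / 2 * x) : ℂ) ∈ lb_A ∧
      (1 / 4 * cexpi (Real.pi / 2 * x) : ℂ).arg = Real.pi / 2 * x := by
  have hpi := Real.pi_pos
  have h1 : Real.pi / 2 * x ≤ Real.pi / 2 := by nlinarith [hx.2]
  have h2 : -(Real.pi / 2) ≤ Real.pi / 2 * x := by nlinarith [hx.1]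
  have harg : (1 / 4 * cexpi (Real.pi / 2 * x) : ℂ).arg = Real.pi / 2 * x := by
    have e : (1 / 4 * cexpi (Real.pi / 2 * x) : ℂ) =
        ((1 / 4 : ℝ) : ℂ) * (Complex.cos ((Real.pi / 2 * x : ℝ) : ℂ) +
          Complex.sin ((Real.pi / 2 * x : ℝ) : ℂ) * Complex.I) := by
      unfold cexpi
      rw [Complex.exp_mul_I]
      push_cast
      rfl
    rw [e]
    exact Complex.arg_mul_cos_add_sin_mul_I (by norm_num) ⟨by linarith, by linarith⟩
  refine ⟨⟨?_, ?_⟩, harg⟩
  · rw [norm_mul]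
    unfold cexpi
    rw [Complex.norm_exp_ofReal_mul_I]
    norm_num
  · rw [← Complex.abs_arg_le_pi_div_two_iff, harg, abs_le]
    exact ⟨h2, h1⟩

private theorem lb_beta_cont (a b : ℝ) : ContinuousOn (lb_beta a b) (frontier lb_R) := by
  rw [lb_R_front]
  have hA : IsClosed lb_A := by
    have : lb_A = sphere 0 (1 / 4) ∩ {z : ℂ | 0 ≤ z.re} := by ext z; simp [lb_A]
    rw [this]
    exact isClosed_sphere.inter (isClosed_le continuous_const Complex.continuous_re)
  have hB : IsClosed lb_B := by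
    have : lb_B = {z : ℂ | z.re = 0} ∩ {z : ℂ | |z.im| ≤ 1 / 4} := by ext z; simp [lb_B]
    rw [this]
    exact (isClosed_eq Complex.continuous_re continuous_const).inter
      (isClosed_le Complex.continuous_im.abs continuous_const)
  refine ContinuousOn.union_of_isClosed ?_ ?_ hA hB
  · refine ContinuousOn.congr (f := fun z : ℂ => cexpi (lb_t a b (2 / Real.pi * z.arg))) ?_
      (fun z hz => lb_beta_A a b hz)
    refine arc0_cont.comp_continuousOn ?_
    unfold lb_t
    have h1 : ContinuousOn Complex.arg lb_A := by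
      intro z hz
      refine (Complex.continuousAt_arg ?_).continuousWithinAt
      rw [Complex.mem_slitPlane_iff]
      by_cases h : 0 < z.re
      · exact Or.inl h
      · right
        have h0 : z.re = 0 := le_antisymm (not_lt.1 h) hz.2
        have h1 : |z.im| = 1 / 4 := by rw [← lb_norm_im h0]; exact hz.1
        intro h2
        rw [h2] at h1
        norm_num at h1
    fun_prop
  · refine ContinuousOn.congr (f := fun z : ℂ =>
      cexpi (b + (1 / 4 - z.im) * 2 * (a + 2 * Real.pi - b))) ?_ (fun z hz => lb_beta_B a b hz)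
    refine arc0_cont.comp_continuousOn ?_
    exact (by fun_prop : Continuous fun z : ℂ =>
      b + (1 / 4 - z.im) * 2 * (a + 2 * Real.pi - b)).continuousOn

private theorem lb_B_par {a b : ℝ} (hba : b < a + 2 * Real.pi) {z : ℂ} (hz : z ∈ lb_B) :
    b + (1 / 4 - z.im) * 2 * (a + 2 * Real.pi - b) ∈ Icc b (a + 2 * Real.pi) := by
  have h := abs_le.1 hz.2
  have h1 : 0 < a + 2 * Real.pi - b := by linarith
  constructor
  · nlinarith [h.1, h.2]
  · nlinarith [h.1, h.2]

private theorem lb_beta_inj {a b : ℝ} (hab : a < b) (hba : b < a + 2 * Real.pi) :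
    InjOn (lb_beta a b) (frontier lb_R) := by
  rw [lb_R_front]
  have hpi := Real.pi_pos
  have hAA : ∀ z ∈ lb_A, ∀ w ∈ lb_A, lb_beta a b z = lb_beta a b w → z = w := by
    intro z hz w hw h
    rw [lb_beta_A a b hz, lb_beta_A a b hw] at h
    have h1 := lb_t_mem hab (lb_arg hz)
    have h2 := lb_t_mem hab (lb_arg hw)
    have h3 : lb_t a b (2 / Real.pi * z.arg) = lb_t a b (2 / Real.pi * w.arg) :=
      arc0_inj (e := a) ⟨h1.1, by linarith [h1.2]⟩ ⟨h2.1, by linarith [h2.2]⟩ h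
    have h4 : z.arg = w.arg := by
      unfold lb_t at h3
      have h5 : (2 / Real.pi * z.arg) * (b - a) = (2 / Real.pi * w.arg) * (b - a) := by linarith
      have h6 := mul_right_cancel₀ (by linarith : b - a ≠ 0) h5
      exact mul_left_cancel₀ (by positivity) h6
    rw [lb_A_eq hz, lb_A_eq hw, h4]
  have hBB : ∀ z ∈ lb_B, ∀ w ∈ lb_B, lb_beta a b z = lb_beta a b w → z = w := by
    intro z hz w hw h
    rw [lb_beta_B a b hz, lb_beta_B a b hw] at h
    have h1 := lb_B_par hba hz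
    have h2 := lb_B_par hba hw
    have h3 := arc0_inj (e := b) ⟨h1.1, by linarith [h1.2]⟩ ⟨h2.1, by linarith [h2.2]⟩ h
    have h4 : z.im = w.im := by
      have h5 : (1 / 4 - z.im) * (2 * (a + 2 * Real.pi - b)) =
          (1 / 4 - w.im) * (2 * (a + 2 * Real.pi - b)) := by linarith
      have h6 := mul_right_cancel₀ (by linarith : 2 * (a + 2 * Real.pi - b) ≠ 0) h5
      linarith
    exact Complex.ext (by rw [hz.1, hw.1]) h4
  have hAB : ∀ z ∈ lb_A, ∀ w ∈ lb_B, lb_beta a b z = lb_beta a b w → z = w := by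
    intro z hz w hw h
    have hwA : w ∈ lb_A → z = w := fun hw' => hAA z hz w hw' h
    apply hwA
    rw [lb_beta_A a b hz, lb_beta_B a b hw] at h
    have h1 := lb_t_mem hab (lb_arg hz)
    have h2 := lb_B_par hba hw
    have hw3 : |w.im| = 1 / 4 := by
      rcases lt_or_ge (b + (1 / 4 - w.im) * 2 * (a + 2 * Real.pi - b)) (a + 2 * Real.pi) with h3 | h3
      · have h4 := arc0_inj (e := a) ⟨h1.1, by linarith [h1.2]⟩ ⟨by linarith [h2.1], h3⟩ h
        have h5 : (1 / 4 - w.im) * (2 * (a + 2 * Real.pi - b)) ≤ 0 := by linarith [h1.2]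
        have h6 : 1 / 4 - w.im ≤ 0 := by
          by_contra h7
          push Not at h7
          have : 0 < (1 / 4 - w.im) * (2 * (a + 2 * Real.pi - b)) := by
            apply mul_pos h7; linarith
          linarith
        have h7 := abs_le.1 hw.2
        rw [abs_of_nonneg (by linarith)]
        linarith [h7.2]
      · have h5 : 1 * (a + 2 * Real.pi - b) ≤ ((1 / 4 - w.im) * 2) * (a + 2 * Real.pi - b) := by
          linarith
        have h6 := le_of_mul_le_mul_right h5 (by linarith)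
        have h7 := abs_le.1 hw.2
        rw [abs_of_nonpos (by linarith)]
        linarith [h7.1]
    exact ⟨by rw [lb_norm_im hw.1]; exact hw3, by rw [hw.1]⟩
  rintro z (hz | hz) w (hw | hw) h
  · exact hAA z hz w hw h
  · exact hAB z hz w hw h
  · exact (hAB w hw z hz h.symm).symm
  · exact hBB z hz w hw h

private theorem lb_beta_maps (a b : ℝ) (S : Set ℂ) : MapsTo (lb_beta a b) S UC := by
  intro z _
  unfold lb_beta
  split_ifs <;> exact arc0_mem_UC _

/-- the straight side goes to the complementary arc -/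
private theorem lb_beta_image {a b : ℝ} (hba : b < a + 2 * Real.pi) :
    lb_beta a b '' lb_B = UC \ oarc a b := by
  ext ζ
  constructor
  · rintro ⟨z, hz, rfl⟩
    refine ⟨lb_beta_maps a b univ (mem_univ z), ?_⟩
    rw [lb_beta_B a b hz]
    rintro ⟨s, hs, hst⟩
    have h1 := lb_B_par hba hz
    have h2 := lb_inj hst.symm (by linarith [hs.2, h1.1]) (by linarith [hs.1, h1.2])
    linarith [hs.2, h1.1]
  · rintro ⟨h1, h2⟩
    obtain ⟨s, hs, hsζ⟩ := arc0_surj a h1
    have h3 : ∃ s ∈ Icc b (a + 2 * Real.pi), cexpi s = ζ := by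
      rcases lt_or_ge s b with h4 | h4
      · rcases hs.1.lt_or_eq with h5 | h5
        · exact absurd ⟨s, ⟨h5, h4⟩, hsζ⟩ h2
        · refine ⟨a + 2 * Real.pi, ⟨hba.le, le_rfl⟩, ?_⟩
          rw [arc0_add_two_pi, h5, hsζ]
      · exact ⟨s, ⟨h4, hs.2.le⟩, hsζ⟩
    obtain ⟨s, hs, hsζ⟩ := h3
    have h4 : 0 < a + 2 * Real.pi - b := by linarith
    set y : ℝ := 1 / 4 - (s - b) / (2 * (a + 2 * Real.pi - b)) with hy
    have h5 : 0 ≤ (s - b) / (2 * (a + 2 * Real.pi - b)) := div_nonneg (by linarith [hs.1]) (by linarith)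
    have h6 : (s - b) / (2 * (a + 2 * Real.pi - b)) ≤ 1 / 2 := by
      rw [div_le_iff₀ (by linarith)]
      linarith [hs.2]
    have hz : ((y : ℂ) * Complex.I) ∈ lb_B := by
      refine ⟨by simp, ?_⟩
      have : ((y : ℂ) * Complex.I).im = y := by simp
      rw [this, abs_le]
      constructor <;> linarith
    refine ⟨(y : ℂ) * Complex.I, hz, ?_⟩
    rw [lb_beta_B a b hz, ← hsζ]
    congr 1
    have : ((y : ℂ) * Complex.I).im = y := by simp
    rw [this, hy]
    field_simp
    ring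

private theorem lb_core (hCONE : St_CONE) (hINTD : St_INTD) (hPDS : St_PDS) {X : Type}
    [TopologicalSpace X] [T2Space X] (q e : ℂ → X) (a b : ℝ) (hab : a < b)
    (hba : b < a + 2 * Real.pi) (hq : ContinuousOn q Ann) (hqi : InjOn q Ann)
    (he : ContinuousOn e CD) (hei : InjOn e CD) (hmeet : e '' CD ∩ q '' Ann = e '' carc a b)
    (hpar : ∀ x ∈ Icc (-1 : ℝ) 1, e (cexpi (lb_t a b x)) = q (1 / 4 * cexpi (Real.pi / 2 * x))) :
    IsAnn (q '' Ann ∪ e '' CD) ((q '' sphere 0 (1 / 4) ∪ e '' UC) \ e '' oarc a b) q := by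
  classical
  have hpi := Real.pi_pos
  -- the homeomorphism of the half disc with the disc
  obtain ⟨κ, hκR, -, hκβ⟩ := hCONE lb_R (lb_beta a b) lb_R_compact lb_R_convex
    (by
      rw [lb_R_int]
      refine ⟨(1 / 8 : ℝ), ?_, ?_⟩
      · rw [Complex.norm_real]; norm_num
      · rw [Complex.ofReal_re]; norm_num)
    (lb_beta_cont a b) (lb_beta_inj hab hba) (lb_beta_maps a b _)
  rw [lb_R_front] at hκβ
  have hκmem : ∀ z ∈ lb_R, κ z ∈ CD := by
    intro z hz
    rw [← hκR]
    exact mem_image_of_mem _ hz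
  have hκA : ∀ z ∈ lb_A, e (κ z) = q z := by
    intro z hz
    have h1 : κ z = lb_beta a b z := hκβ (Or.inl hz)
    rw [h1, lb_beta_A a b hz, hpar _ (lb_arg hz)]
    congr 1
    conv_rhs => rw [lb_A_eq hz]
    congr 2
    field_simp
  have hκB : κ '' lb_B = UC \ oarc a b := by
    rw [← lb_beta_image hba]
    exact image_congr fun z hz => hκβ (Or.inr hz)
  -- the map on the union
  set Q : ℂ → X := fun z => if 1 / 4 ≤ ‖z‖ then q z else e (κ z) with hQ
  have hQA : ∀ z ∈ Ann, Q z = q z := fun z hz => if_pos hz.1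
  have hQR : ∀ z ∈ lb_R, Q z = e (κ z) := by
    intro z hz
    by_cases h : 1 / 4 ≤ ‖z‖
    · have h1 : Q z = q z := if_pos h
      rw [h1, hκA z ⟨le_antisymm hz.1 h, hz.2⟩]
    · exact if_neg h
  have hAnnc : IsClosed Ann := by
    have : Ann = {z : ℂ | 1 / 4 ≤ ‖z‖} ∩ {z : ℂ | ‖z‖ ≤ 1} := by ext z; simp [Ann]
    rw [this]
    exact (isClosed_le continuous_const continuous_norm).inter
      (isClosed_le continuous_norm continuous_const)
  have hQc : ContinuousOn Q (Ann ∪ lb_R) := by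
    refine ContinuousOn.union_of_isClosed (hq.congr hQA) ?_ hAnnc lb_R_closed
    exact (he.comp κ.continuous.continuousOn hκmem).congr hQR
  have hcross : ∀ z ∈ Ann, ∀ w ∈ lb_R, Q z = Q w → z = w := by
    intro z hz w hw h
    rw [hQA z hz, hQR w hw] at h
    have h1 : e (κ w) ∈ e '' carc a b := by
      rw [← hmeet]
      exact ⟨mem_image_of_mem _ (hκmem w hw), ⟨z, hz, h⟩⟩
    obtain ⟨ζ, ⟨s, hs, rfl⟩, hζ⟩ := h1
    have h2 : cexpi s = κ w := hei (sphere_subset_closedBall (arc0_mem_UC s)) (hκmem w hw) hζ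
    obtain ⟨x, hx, rfl⟩ := lb_t_surj hab hs
    obtain ⟨hpA, hparg⟩ := lb_point hx
    have h3 : κ (1 / 4 * cexpi (Real.pi / 2 * x)) = cexpi (lb_t a b x) := by
      have h4 : κ (1 / 4 * cexpi (Real.pi / 2 * x)) = lb_beta a b _ := hκβ (Or.inl hpA)
      rw [h4, lb_beta_A a b hpA, hparg]
      congr 2
      field_simp
    have h4 : w = 1 / 4 * cexpi (Real.pi / 2 * x) := κ.injective (by rw [h3, h2])
    have hwA : w ∈ lb_A := by rw [h4]; exact hpA
    rw [hκA w hwA] at h
    exact hqi hz ⟨hwA.1.ge, by rw [hwA.1]; norm_num⟩ h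
  have hQi : InjOn Q (Ann ∪ lb_R) := by
    rintro z (hz | hz) w (hw | hw) h
    · rw [hQA z hz, hQA w hw] at h
      exact hqi hz hw h
    · exact hcross z hz w hw h
    · exact (hcross w hw z hz h.symm).symm
    · rw [hQR z hz, hQR w hw] at h
      exact κ.injective (hei (hκmem z hz) (hκmem w hw) h)
  -- the left half disc
  set E : Set ℂ := {z | ‖z‖ ≤ 1 / 4 ∧ z.re ≤ 0} with hE
  have hE_eq : E = closedBall 0 (1 / 4) ∩ {z : ℂ | z.re ≤ 0} := by
    ext z
    simp [hE]
  have hE_int : interior E = {z | ‖z‖ < 1 / 4 ∧ z.re < 0} := by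
    rw [hE_eq, interior_inter, interior_closedBall _ (by norm_num),
      Complex.interior_setOfPred_re_le]
    ext z
    simp
  have hE_disc : IsDisc E := by
    refine hINTD.2.1 E ?_ ?_ ?_
    · rw [hE_eq]
      exact (isCompact_closedBall _ _).inter_right
        (isClosed_le Complex.continuous_re continuous_const)
    · rw [hE_eq]
      exact (convex_closedBall _ _).inter (convex_halfSpace_re_le 0)
    · rw [hE_int]
      refine ⟨((-(1 / 8) : ℝ) : ℂ), ?_, ?_⟩
      · rw [Complex.norm_real]; norm_num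
      · rw [Complex.ofReal_re]; norm_num
  have hD_disc : IsDisc (closedBall (0 : ℂ) (1 / 4)) := by
    refine hINTD.2.1 _ (isCompact_closedBall _ _) (convex_closedBall _ _) ?_
    rw [interior_closedBall _ (by norm_num)]
    exact ⟨0, by simp⟩
  obtain ⟨Θ, hΘid, hΘD, hΘi⟩ := hPDS.2 0 1 one_pos (closedBall 0 (1 / 4)) E hD_disc hE_disc
    (closedBall_subset_ball (by norm_num))
    (fun z hz => by
      rw [mem_ball_zero_iff]
      exact lt_of_le_of_lt hz.1 (by norm_num))
  rw [interior_closedBall _ (by norm_num : (1 / 4 : ℝ) ≠ 0), hE_int] at hΘi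
  have hΘCD : ∀ z, Θ z ∈ CD ↔ z ∈ CD := by
    have h1 : ∀ z, Θ z ∉ OD ↔ z ∉ OD := by
      intro z
      constructor
      · intro h
        have h2 : Θ (Θ z) = Θ z := hΘid _ h
        rwa [Θ.injective h2] at h
      · intro h
        rw [hΘid z h]
        exact h
    intro z
    by_cases hz : z ∈ OD
    · have h2 : Θ z ∈ OD := by
        by_contra h3
        exact ((h1 z).1 h3) hz
      exact ⟨fun _ => ball_subset_closedBall hz, fun _ => ball_subset_closedBall h2⟩
    · rw [hΘid z hz]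
  have hΘb : ∀ z, (‖z‖ < 1 / 4 ↔ ‖Θ z‖ < 1 / 4 ∧ (Θ z).re < 0) := by
    intro z
    have h1 : Θ z ∈ Θ '' ball 0 (1 / 4) ↔ z ∈ ball (0 : ℂ) (1 / 4) :=
      Θ.injective.mem_set_image
    rw [hΘi, mem_ball_zero_iff] at h1
    exact h1.symm
  have hΘc : ∀ z, (‖z‖ ≤ 1 / 4 ↔ Θ z ∈ E) := by
    intro z
    have h1 : Θ z ∈ Θ '' closedBall 0 (1 / 4) ↔ z ∈ closedBall (0 : ℂ) (1 / 4) :=
      Θ.injective.mem_set_image
    rw [hΘD, mem_closedBall_zero_iff] at h1
    exact h1.symm
  have hΘAnn : Θ '' Ann = Ann ∪ lb_R := by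
    ext w
    constructor
    · rintro ⟨z, hz, rfl⟩
      have h1 : ‖Θ z‖ ≤ 1 := by
        have := (hΘCD z).2 (by rw [mem_closedBall_zero_iff]; exact hz.2)
        rwa [mem_closedBall_zero_iff] at this
      by_cases h2 : 1 / 4 ≤ ‖Θ z‖
      · exact Or.inl ⟨h2, h1⟩
      · right
        push Not at h2
        refine ⟨h2.le, ?_⟩
        by_contra h3
        push Not at h3
        exact absurd ((hΘb z).2 ⟨h2, h3⟩) (not_lt.2 hz.1)
    · intro hw
      refine ⟨Θ.symm w, ?_, Θ.apply_symm_apply w⟩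
      have hw1 : ‖w‖ ≤ 1 := by
        rcases hw with hw | hw
        · exact hw.2
        · exact hw.1.trans (by norm_num)
      have h1 := (hΘCD (Θ.symm w)).1 (by
        rw [Θ.apply_symm_apply, mem_closedBall_zero_iff]; exact hw1)
      rw [mem_closedBall_zero_iff] at h1
      refine ⟨?_, h1⟩
      by_contra h2
      push Not at h2
      have h3 := (hΘb (Θ.symm w)).1 h2
      rw [Θ.apply_symm_apply] at h3
      rcases hw with hw | hw
      · exact absurd h3.1 (not_lt.2 hw.1)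
      · exact absurd h3.2 (not_lt.2 hw.2)
  set L : Set ℂ := {z | ‖z‖ = 1 / 4 ∧ z.re ≤ 0} with hL
  have hΘS : Θ '' sphere 0 (1 / 4) = L ∪ lb_B := by
    ext w
    constructor
    · rintro ⟨z, hz, rfl⟩
      rw [mem_sphere_zero_iff_norm] at hz
      have h1 : Θ z ∈ E := (hΘc z).1 hz.le
      rcases h1.1.lt_or_eq with h2 | h2
      · right
        have h3 : (Θ z).re = 0 := by
          by_contra h3
          exact absurd ((hΘb z).2 ⟨h2, lt_of_le_of_ne h1.2 h3⟩) (not_lt.2 hz.ge)
        exact ⟨h3, by rw [← lb_norm_im h3]; exact h1.1⟩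
      · exact Or.inl ⟨h2, h1.2⟩
    · intro hw
      refine ⟨Θ.symm w, ?_, Θ.apply_symm_apply w⟩
      have hwE : w ∈ E := by
        rcases hw with hw | hw
        · exact ⟨hw.1.le, hw.2⟩
        · exact ⟨by rw [lb_norm_im hw.1]; exact hw.2, hw.1.le⟩
      have h1 := (hΘc (Θ.symm w)).2 (by rw [Θ.apply_symm_apply]; exact hwE)
      rw [mem_sphere_zero_iff_norm]
      refine le_antisymm h1 ?_
      by_contra h2
      push Not at h2
      have h3 := (hΘb (Θ.symm w)).1 h2
      rw [Θ.apply_symm_apply] at h3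
      rcases hw with hw | hw
      · exact absurd hw.1 (ne_of_lt h3.1)
      · exact absurd hw.1 (ne_of_lt h3.2)
  -- images
  have himg : Q '' (Ann ∪ lb_R) = q '' Ann ∪ e '' CD := by
    rw [image_union, image_congr hQA, image_congr hQR]
    congr 1
    have h1 : (fun z => e (κ z)) '' lb_R = e '' (κ '' lb_R) := (image_image e κ lb_R).symm
    rw [h1, hκR]
  have hLAnn : L ⊆ Ann := fun z hz => ⟨hz.1.ge, by rw [hz.1]; norm_num⟩
  have hsAnn : sphere (0 : ℂ) (1 / 4) ⊆ Ann := fun z hz => by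
    rw [mem_sphere_zero_iff_norm] at hz
    exact ⟨hz.ge, by rw [hz]; norm_num⟩
  have himg2 : Q '' (L ∪ lb_B) = q '' L ∪ e '' (UC \ oarc a b) := by
    rw [image_union, image_congr fun z hz => hQA z (hLAnn hz),
      image_congr fun z hz => hQR z (lb_B_sub hz)]
    congr 1
    have h1 : (fun z => e (κ z)) '' lb_B = e '' (κ '' lb_B) := (image_image e κ lb_B).symm
    rw [h1, hκB]
  -- the open arc in the inner circle
  have hoarc : e '' oarc a b = q '' (sphere 0 (1 / 4) \ L) := by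
    ext y
    constructor
    · rintro ⟨_, ⟨s, hs, rfl⟩, rfl⟩
      obtain ⟨x, hx, hxs⟩ := lb_t_surj hab (Ioo_subset_Icc_self hs)
      obtain ⟨hpA, hparg⟩ := lb_point hx
      rw [← hxs, hpar x hx]
      refine mem_image_of_mem _ ⟨by rw [mem_sphere_zero_iff_norm]; exact hpA.1, ?_⟩
      intro hL'
      have h0 : (1 / 4 * cexpi (Real.pi / 2 * x) : ℂ).re = 0 := le_antisymm hL'.2 hpA.2
      have hxlt : x < 1 := by
        rcases hx.2.lt_or_eq with h | h
        · exact h
        · exfalso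
          rw [h] at hxs
          have : lb_t a b 1 = b := by unfold lb_t; ring
          linarith [hs.2]
      have hxgt : -1 < x := by
        rcases hx.1.lt_or_eq with h | h
        · exact h
        · exfalso
          rw [← h] at hxs
          have : lb_t a b (-1) = a := by unfold lb_t; ring
          linarith [hs.1]
      have h1 : |(1 / 4 * cexpi (Real.pi / 2 * x) : ℂ).arg| < Real.pi / 2 := by
        rw [hparg, abs_lt]
        constructor <;> nlinarith
      rw [Complex.abs_arg_lt_pi_div_two_iff] at h1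
      rcases h1 with h1 | h1
      · linarith
      · have h2 := hpA.1
        rw [h1, norm_zero] at h2
        norm_num at h2
    · rintro ⟨z, ⟨hz1, hz2⟩, rfl⟩
      rw [mem_sphere_zero_iff_norm] at hz1
      have hre : 0 < z.re := by
        by_contra h
        exact hz2 ⟨hz1, not_lt.1 h⟩
      have hzA : z ∈ lb_A := ⟨hz1, hre.le⟩
      have harg : |z.arg| < Real.pi / 2 := Complex.abs_arg_lt_pi_div_two_iff.2 (Or.inl hre)
      rw [abs_lt] at harg
      have h2 : 0 < 2 / Real.pi := by positivity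
      have e1 : (2 : ℝ) / Real.pi * (Real.pi / 2) = 1 := by field_simp
      have hx1 : 2 / Real.pi * z.arg < 1 := by
        have := mul_lt_mul_of_pos_left harg.2 h2
        linarith
      have hx2 : -1 < 2 / Real.pi * z.arg := by
        have := mul_lt_mul_of_pos_left harg.1 h2
        linarith
      refine ⟨cexpi (lb_t a b (2 / Real.pi * z.arg)), ⟨_, ⟨?_, ?_⟩, rfl⟩, ?_⟩
      · unfold lb_t; nlinarith
      · unfold lb_t; nlinarith
      · rw [← lb_beta_A a b hzA, ← hκβ (Or.inl hzA)]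
        exact hκA z hzA
  have hfin : q '' L ∪ e '' (UC \ oarc a b) =
      (q '' sphere 0 (1 / 4) ∪ e '' UC) \ e '' oarc a b := by
    rw [union_sdiff_distrib]
    congr 1
    · rw [hoarc, ← (hqi.mono hsAnn).image_sdiff_subset sdiff_subset]
      congr 1
      ext z
      constructor
      · intro hz
        exact ⟨by rw [mem_sphere_zero_iff_norm]; exact hz.1, fun h => h.2 hz⟩
      · rintro ⟨h1, h2⟩
        by_contra h3
        exact h2 ⟨h1, h3⟩
    · have hoUC : oarc a b ⊆ UC := by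
        rintro _ ⟨s, -, rfl⟩
        exact arc0_mem_UC s
      rw [← (hei.mono sphere_subset_closedBall).image_sdiff_subset hoUC]
  refine ⟨Q ∘ Θ, ?_, ?_, ?_, ?_, ?_⟩
  · refine hQc.comp Θ.continuous.continuousOn ?_
    intro z hz
    rw [← hΘAnn]
    exact mem_image_of_mem _ hz
  · refine hQi.comp Θ.injective.injOn ?_
    intro z hz
    rw [← hΘAnn]
    exact mem_image_of_mem _ hz
  · rw [image_comp, hΘAnn, himg]
  · rw [image_comp, hΘS, himg2, hfin]
  · intro z hz
    have h1 : z ∉ ball (0 : ℂ) 1 := by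
      rw [mem_sphere_zero_iff_norm] at hz
      rw [mem_ball_zero_iff, hz]
      exact lt_irrefl 1
    rw [Function.comp_apply, hΘid z h1]
    apply hQA
    rw [mem_sphere_zero_iff_norm] at hz
    exact ⟨by rw [hz]; norm_num, hz.le⟩

private theorem lb_pre {X : Type} [TopologicalSpace X] (q : ℂ → X) (ψ : ℂ ≃ₜ ℂ)
    (hψ : ∀ z, ‖ψ z‖ = ‖z‖) (hq : ContinuousOn q Ann) (hqi : InjOn q Ann) :
    ContinuousOn (q ∘ ψ) Ann ∧ InjOn (q ∘ ψ) Ann ∧ (q ∘ ψ) '' Ann = q '' Ann ∧
      (q ∘ ψ) '' sphere 0 (1 / 4) = q '' sphere 0 (1 / 4) := by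
  have hm : MapsTo ψ Ann Ann := by
    intro z hz
    exact ⟨by rw [hψ]; exact hz.1, by rw [hψ]; exact hz.2⟩
  have h1 : ψ '' Ann = Ann := by
    ext w
    constructor
    · rintro ⟨z, hz, rfl⟩; exact hm hz
    · intro hw
      refine ⟨ψ.symm w, ?_, ψ.apply_symm_apply w⟩
      have : ‖ψ.symm w‖ = ‖w‖ := by rw [← hψ, ψ.apply_symm_apply]
      exact ⟨by rw [this]; exact hw.1, by rw [this]; exact hw.2⟩
  have h2 : ψ '' sphere 0 (1 / 4) = sphere 0 (1 / 4) := by
    ext w
    constructor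
    · rintro ⟨z, hz, rfl⟩
      rw [mem_sphere_zero_iff_norm] at hz ⊢
      rw [hψ, hz]
    · intro hw
      refine ⟨ψ.symm w, ?_, ψ.apply_symm_apply w⟩
      rw [mem_sphere_zero_iff_norm] at hw ⊢
      rw [← hψ, ψ.apply_symm_apply, hw]
  exact ⟨hq.comp ψ.continuous.continuousOn hm, hqi.comp ψ.injective.injOn hm,
    by rw [image_comp, h1], by rw [image_comp, h2]⟩

theorem thm_LB (hMONO : St_MONO) (hANG : St_ANG) (hCONE : St_CONE) (hINTD : St_INTD)
    (hPDS : St_PDS) : St_LB := by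
  intro X _ _ W Bd u e a b hann hab hba hatt
  obtain ⟨q, hq, hqi, hqW, hqBd, hqu⟩ := hann
  have hpi := Real.pi_pos
  have hsAnn : sphere (0 : ℂ) (1 / 4) ⊆ Ann := fun z hz => by
    rw [mem_sphere_zero_iff_norm] at hz
    exact ⟨hz.ge, by rw [hz]; norm_num⟩
  have htinj : ∀ x y : ℝ, lb_t a b x = lb_t a b y → x = y := by
    intro x y h
    unfold lb_t at h
    have h5 : x * (b - a) = y * (b - a) := by linarith
    exact mul_right_cancel₀ (by linarith : b - a ≠ 0) h5
  have hfc : ContinuousOn (fun x => e (cexpi (lb_t a b x))) (Icc (-1) 1) := by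
    refine hatt.cont.comp ?_ (fun x _ => sphere_subset_closedBall (arc0_mem_UC _))
    refine (arc0_cont.comp ?_).continuousOn
    unfold lb_t
    fun_prop
  have hfi : InjOn (fun x => e (cexpi (lb_t a b x))) (Icc (-1) 1) := by
    intro x hx y hy h
    have h1 := hatt.inj (sphere_subset_closedBall (arc0_mem_UC _))
      (sphere_subset_closedBall (arc0_mem_UC _)) h
    have h2 := lb_t_mem hab hx
    have h3 := lb_t_mem hab hy
    exact htinj x y (arc0_inj (e := a) ⟨h2.1, by linarith [h2.2]⟩ ⟨h3.1, by linarith [h3.2]⟩ h1)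
  obtain ⟨θ, hθc, hθm, hθe⟩ := lb_theta hMONO q 0 (1 / 4) (by norm_num) (hq.mono hsAnn)
    (hqi.mono hsAnn) (fun x => e (cexpi (lb_t a b x))) hfc hfi (by
      intro x hx
      rw [hqBd]
      exact hatt.bd ⟨_, ⟨_, lb_t_mem hab hx, rfl⟩, rfl⟩)
  have hθi : InjOn (fun x => cexpi (θ x)) (Icc (-1) 1) := by
    intro x hx y hy h
    apply hfi hx hy
    simp only at h ⊢
    rw [hθe x hx, hθe y hy, h]
  have hmeet : ∀ q₂ : ℂ → X, q₂ '' Ann = q '' Ann → e '' CD ∩ q₂ '' Ann = e '' carc a b := by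
    intro q₂ h
    rw [h, hqW]
    exact hatt.meet
  have hpart : ∀ σ : ℝ, (σ = 1 ∨ σ = -1) → InjOn (fun x => cexpi (σ * (Real.pi / 2 * x)))
      (Icc (-1) 1) := by
    intro σ hσ x hx y hy h
    have h1 : Real.pi / 2 * x ≤ Real.pi / 2 := by nlinarith [hx.2]
    have h2 : -(Real.pi / 2) ≤ Real.pi / 2 * x := by nlinarith [hx.1]
    have h3 : Real.pi / 2 * y ≤ Real.pi / 2 := by nlinarith [hy.2]
    have h4 : -(Real.pi / 2) ≤ Real.pi / 2 * y := by nlinarith [hy.1]
    have h5 : Real.pi / 2 * x = Real.pi / 2 * y := by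
      rcases hσ with rfl | rfl
      · have := arc0_inj (e := -(Real.pi / 2)) (x := 1 * (Real.pi / 2 * x))
          (y := 1 * (Real.pi / 2 * y)) ⟨by linarith, by linarith⟩ ⟨by linarith, by linarith⟩ h
        linarith
      · have := arc0_inj (e := -(Real.pi / 2)) (x := -1 * (Real.pi / 2 * x))
          (y := -1 * (Real.pi / 2 * y)) ⟨by linarith, by linarith⟩ ⟨by linarith, by linarith⟩ h
        linarith
    exact mul_left_cancel₀ (by positivity) h5
  -- the common part
  have hmain : ∀ σ : ℝ, (σ = 1 ∨ σ = -1) →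
      ((StrictMonoOn θ (Icc (-1) 1) ∧ StrictMonoOn (fun x => σ * (Real.pi / 2 * x)) (Icc (-1) 1)) ∨
        (StrictAntiOn θ (Icc (-1) 1) ∧
          StrictAntiOn (fun x => σ * (Real.pi / 2 * x)) (Icc (-1) 1))) →
      ∃ q₁ : ℂ → X, ContinuousOn q₁ Ann ∧ InjOn q₁ Ann ∧ q₁ '' Ann = q '' Ann ∧
        q₁ '' sphere 0 (1 / 4) = q '' sphere 0 (1 / 4) ∧ (∀ z ∈ UC, q₁ z = u z) ∧
        ∀ x ∈ Icc (-1 : ℝ) 1, e (cexpi (lb_t a b x)) =
          q₁ (1 / 4 * cexpi (σ * (Real.pi / 2 * x))) := by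
    intro σ hσ hmon
    obtain ⟨Φ, hΦid, hΦn, hΦe⟩ := hANG.1 0 (1 / 4) 1 (by norm_num) (by norm_num) θ
      (fun x => σ * (Real.pi / 2 * x)) hθc (by fun_prop) hmon hθi (hpart σ hσ)
    have hΦn' : ∀ z, ‖Φ.symm z‖ = ‖z‖ := by
      intro z
      have := hΦn (Φ.symm z)
      rw [Φ.apply_symm_apply, sub_zero, sub_zero] at this
      exact this.symm
    obtain ⟨h1, h2, h3, h4⟩ := lb_pre q Φ.symm hΦn' hq hqi
    refine ⟨q ∘ Φ.symm, h1, h2, h3, h4, ?_, ?_⟩
    · intro z hz
      have h5 : z ∉ ball (0 : ℂ) 1 := by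
        rw [mem_sphere_zero_iff_norm] at hz
        rw [mem_ball_zero_iff, hz]
        exact lt_irrefl 1
      have h6 : Φ.symm z = z := by
        rw [Homeomorph.symm_apply_eq]
        exact (hΦid z h5).symm
      rw [Function.comp_apply, h6]
      exact hqu z hz
    · intro x hx
      have h5 := hΦe x hx
      simp only [zero_add] at h5
      have h6 := hθe x hx
      simp only [zero_add] at h6
      rw [h6, Function.comp_apply]
      congr 1
      rw [eq_comm, Homeomorph.symm_apply_eq, h5]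
      push_cast
      rfl
  have hconjn : ∀ z : ℂ, ‖Complex.conjLIE.toHomeomorph z‖ = ‖z‖ := fun z => Complex.norm_conj z
  rcases hθm with hmon | hmon
  · obtain ⟨q₁, h1, h2, h3, h4, h5, h6⟩ := hmain 1 (Or.inl rfl) (Or.inl ⟨hmon, by
      intro x _ y _ hxy
      simp only
      nlinarith⟩)
    obtain ⟨q', g1, g2, g3, g4, g5⟩ := lb_core hCONE hINTD hPDS q₁ e a b hab hba h1 h2 hatt.cont
      hatt.inj (hmeet q₁ h3) (fun x hx => by
        have := h6 x hx
        rwa [one_mul] at this)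
    refine ⟨q', g1, g2, ?_, ?_, fun z hz => (g5 z hz).trans (h5 z hz)⟩
    · rw [g3, h3, hqW]
    · rw [g4, h4, hqBd]
  · obtain ⟨q₁, h1, h2, h3, h4, h5, h6⟩ := hmain (-1) (Or.inr rfl) (Or.inr ⟨hmon, by
      intro x _ y _ hxy
      simp only
      nlinarith⟩)
    obtain ⟨k1, k2, k3, k4⟩ := lb_pre q₁ Complex.conjLIE.toHomeomorph hconjn h1 h2
    obtain ⟨q', g1, g2, g3, g4, g5⟩ := lb_core hCONE hINTD hPDS
      (q₁ ∘ Complex.conjLIE.toHomeomorph) e a b hab hba k1 k2 hatt.cont
      hatt.inj (hmeet _ (k3.trans h3)) (fun x hx => by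
        rw [h6 x hx, Function.comp_apply]
        congr 1
        have : Complex.conjLIE.toHomeomorph (1 / 4 * cexpi (Real.pi / 2 * x)) =
            (starRingEnd ℂ) (1 / 4 * cexpi (Real.pi / 2 * x)) := rfl
        rw [this, map_mul]
        congr 1
        · have h14 : (1 / 4 : ℂ) = ((1 / 4 : ℝ) : ℂ) := by push_cast; rfl
          rw [h14, Complex.conj_ofReal]
        · unfold cexpi
          rw [← Complex.exp_conj, map_mul, Complex.conj_I, Complex.conj_ofReal]
          congr 1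
          push_cast
          ring)
    obtain ⟨m1, m2, m3, m4⟩ := lb_pre q' Complex.conjLIE.toHomeomorph hconjn g1 g2
    refine ⟨q' ∘ Complex.conjLIE.toHomeomorph, m1, m2, ?_, ?_, ?_⟩
    · rw [m3, g3, k3, h3, hqW]
    · rw [m4, g4, k4, h4, hqBd]
    · intro z hz
      have hz' : (starRingEnd ℂ) z ∈ UC := by
        rw [mem_sphere_zero_iff_norm] at hz ⊢
        rw [Complex.norm_conj, hz]
      have h7 : (q' ∘ Complex.conjLIE.toHomeomorph) z = q' ((starRingEnd ℂ) z) := rfl
      have h8 : (q₁ ∘ Complex.conjLIE.toHomeomorph) ((starRingEnd ℂ) z) =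
          q₁ ((starRingEnd ℂ) ((starRingEnd ℂ) z)) := rfl
      rw [h7, g5 _ hz', h8, Complex.conj_conj]
      exact h5 z hz

end Pool.Agent.SRP
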