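import Pool.Agent.SRP.StD

set_option autoImplicit false

/-! # SRP, LT: a twisted band attached to one circle is a crosscap (helper20) -/

namespace Pool.Agent.SRP

open Set Metric Filter Topology Pool.Agent.SRF

/-! ## unit vectors -/

/-- the unit vector in the direction `(x, 1)` -/
private noncomputable def lt_U (x : ℝ) : ℂ := ⟨x / √(1 + x ^ 2), 1 / √(1 + x ^ 2)⟩

/-- the unit vector in the direction `(1, y)` -/
private noncomputable def lt_D (y : ℝ) : ℂ := ⟨1 / √(1 + y ^ 2), y / √(1 + y ^ 2)⟩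

private theorem lt_pos (x : ℝ) : 0 < √(1 + x ^ 2) := Real.sqrt_pos.2 (by positivity)

private theorem lt_sqrt (p s : ℝ) (hp : 0 < p) : √(1 + (s / p) ^ 2) = √(p ^ 2 + s ^ 2) / p := by
  have h : 1 + (s / p) ^ 2 = (p ^ 2 + s ^ 2) / p ^ 2 := by
    field_simp
  rw [h, Real.sqrt_div (by positivity), Real.sqrt_sq hp.le]

private theorem lt_norm_U (x : ℝ) : ‖lt_U x‖ = 1 := by
  rw [Complex.norm_eq_sqrt_sq_add_sq]
  show √((x / √(1 + x ^ 2)) ^ 2 + (1 / √(1 + x ^ 2)) ^ 2) = 1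
  have h : √(1 + x ^ 2) ^ 2 = 1 + x ^ 2 := Real.sq_sqrt (by positivity)
  rw [div_pow, div_pow, h, ← add_div, add_comm (x ^ 2), one_pow, div_self (by positivity),
    Real.sqrt_one]

private theorem lt_norm_D (x : ℝ) : ‖lt_D x‖ = 1 := by
  rw [Complex.norm_eq_sqrt_sq_add_sq]
  show √((1 / √(1 + x ^ 2)) ^ 2 + (x / √(1 + x ^ 2)) ^ 2) = 1
  have h : √(1 + x ^ 2) ^ 2 = 1 + x ^ 2 := Real.sq_sqrt (by positivity)
  rw [div_pow, div_pow, h, ← add_div, one_pow, div_self (by positivity), Real.sqrt_one]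

private theorem lt_U_eq {z : ℂ} (hz : 0 < z.im) : (‖z‖ : ℂ) * lt_U (z.re / z.im) = z := by
  have h1 : √(1 + (z.re / z.im) ^ 2) = ‖z‖ / z.im := by
    rw [lt_sqrt _ _ hz, Complex.norm_eq_sqrt_sq_add_sq, add_comm]
  have h0 : z ≠ 0 := fun h => by rw [h] at hz; exact lt_irrefl _ hz
  have h2 : ‖z‖ ≠ 0 := norm_ne_zero_iff.2 h0
  apply Complex.ext
  · rw [Complex.re_ofReal_mul]
    show ‖z‖ * (z.re / z.im / √(1 + (z.re / z.im) ^ 2)) = z.re
    rw [h1]
    field_simp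
  · rw [Complex.im_ofReal_mul]
    show ‖z‖ * (1 / √(1 + (z.re / z.im) ^ 2)) = z.im
    rw [h1]
    field_simp

private theorem lt_D_eq {z : ℂ} (hz : 0 < z.re) : (‖z‖ : ℂ) * lt_D (z.im / z.re) = z := by
  have h1 : √(1 + (z.im / z.re) ^ 2) = ‖z‖ / z.re := by
    rw [lt_sqrt _ _ hz, Complex.norm_eq_sqrt_sq_add_sq]
  have h0 : z ≠ 0 := fun h => by rw [h] at hz; exact lt_irrefl _ hz
  have h2 : ‖z‖ ≠ 0 := norm_ne_zero_iff.2 h0
  apply Complex.ext
  · rw [Complex.re_ofReal_mul]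
    show ‖z‖ * (1 / √(1 + (z.im / z.re) ^ 2)) = z.re
    rw [h1]
    field_simp
  · rw [Complex.im_ofReal_mul]
    show ‖z‖ * (z.im / z.re / √(1 + (z.im / z.re) ^ 2)) = z.im
    rw [h1]
    field_simp

private theorem lt_rU_re (r x : ℝ) : ((r : ℂ) * lt_U x).re = r * (x / √(1 + x ^ 2)) := by
  rw [Complex.re_ofReal_mul]; rfl

private theorem lt_rU_im (r x : ℝ) : ((r : ℂ) * lt_U x).im = r * (1 / √(1 + x ^ 2)) := by
  rw [Complex.im_ofReal_mul]; rfl

private theorem lt_rD_re (r x : ℝ) : ((r : ℂ) * lt_D x).re = r * (1 / √(1 + x ^ 2)) := by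
  rw [Complex.re_ofReal_mul]; rfl

private theorem lt_rD_im (r x : ℝ) : ((r : ℂ) * lt_D x).im = r * (x / √(1 + x ^ 2)) := by
  rw [Complex.im_ofReal_mul]; rfl

private theorem lt_rU_norm {r : ℝ} (hr : 0 ≤ r) (x : ℝ) : ‖(r : ℂ) * lt_U x‖ = r := by
  rw [norm_mul, lt_norm_U, mul_one, Complex.norm_real, Real.norm_of_nonneg hr]

private theorem lt_rD_norm {r : ℝ} (hr : 0 ≤ r) (x : ℝ) : ‖(r : ℂ) * lt_D x‖ = r := by
  rw [norm_mul, lt_norm_D, mul_one, Complex.norm_real, Real.norm_of_nonneg hr]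

private theorem lt_rU_quot {r : ℝ} (hr : 0 < r) (x : ℝ) :
    ((r : ℂ) * lt_U x).re / ((r : ℂ) * lt_U x).im = x := by
  rw [lt_rU_re, lt_rU_im]
  have := lt_pos x
  field_simp

private theorem lt_rD_quot {r : ℝ} (hr : 0 < r) (x : ℝ) :
    ((r : ℂ) * lt_D x).im / ((r : ℂ) * lt_D x).re = x := by
  rw [lt_rD_re, lt_rD_im]
  have := lt_pos x
  field_simp

private theorem lt_U_cont : Continuous lt_U := by
  have h : Continuous fun x : ℝ => √(1 + x ^ 2) := by fun_prop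
  have h1 : Continuous fun x : ℝ => x / √(1 + x ^ 2) :=
    continuous_id.div h fun x => (lt_pos x).ne'
  have h2 : Continuous fun x : ℝ => 1 / √(1 + x ^ 2) :=
    continuous_const.div h fun x => (lt_pos x).ne'
  have h3 : lt_U = fun x : ℝ => ((x / √(1 + x ^ 2) : ℝ) : ℂ) +
      ((1 / √(1 + x ^ 2) : ℝ) : ℂ) * Complex.I := by
    funext x
    apply Complex.ext <;> simp [lt_U]
  rw [h3]
  exact (Complex.continuous_ofReal.comp h1).add
    ((Complex.continuous_ofReal.comp h2).mul continuous_const)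

private theorem lt_D_cont : Continuous lt_D := by
  have h : Continuous fun x : ℝ => √(1 + x ^ 2) := by fun_prop
  have h1 : Continuous fun x : ℝ => 1 / √(1 + x ^ 2) :=
    continuous_const.div h fun x => (lt_pos x).ne'
  have h2 : Continuous fun x : ℝ => x / √(1 + x ^ 2) :=
    continuous_id.div h fun x => (lt_pos x).ne'
  have h3 : lt_D = fun x : ℝ => ((1 / √(1 + x ^ 2) : ℝ) : ℂ) +
      ((x / √(1 + x ^ 2) : ℝ) : ℂ) * Complex.I := by
    funext x
    apply Complex.ext <;> simp [lt_D]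
  rw [h3]
  exact (Complex.continuous_ofReal.comp h1).add
    ((Complex.continuous_ofReal.comp h2).mul continuous_const)

private theorem lt_cexpi (x : ℝ) : cexpi (Real.pi / 2 - Real.arctan x) = lt_U x := by
  unfold cexpi
  rw [Complex.exp_mul_I, ← Complex.ofReal_cos, ← Complex.ofReal_sin, Real.cos_pi_div_two_sub,
    Real.sin_pi_div_two_sub, Real.sin_arctan, Real.cos_arctan]
  apply Complex.ext <;> simp [lt_U]

private theorem lt_cexpi' (x : ℝ) : cexpi (-(Real.pi / 2) - Real.arctan x) = -lt_U x := by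
  have h : -(Real.pi / 2) - Real.arctan x = (Real.pi / 2 - Real.arctan x) - Real.pi := by ring
  rw [← lt_cexpi, h]
  unfold cexpi
  rw [Complex.ofReal_sub _ Real.pi, sub_mul, Complex.exp_sub, Complex.exp_pi_mul_I, div_neg,
    div_one]

/-! ## the map on the domain -/

private def lt_O1 : Set ℂ := {z | 1 / 2 ≤ ‖z‖ ∧ ‖z‖ ≤ 1}
private def lt_O2 : Set ℂ := {z | (1 / 4 ≤ ‖z‖ ∧ ‖z‖ ≤ 1 / 2) ∧ |z.re| ≤ z.im}
private def lt_O3 : Set ℂ := {z | (1 / 4 ≤ ‖z‖ ∧ ‖z‖ ≤ 1 / 2) ∧ |z.re| ≤ -z.im}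

private noncomputable def lt_T (z : ℂ) : ℂ := (((3 * ‖z‖ - 1) / (2 * ‖z‖) : ℝ) : ℂ) * z
private noncomputable def lt_S (z : ℂ) : ℂ := ⟨z.re / z.im, 4 * ‖z‖ - 1⟩
private noncomputable def lt_S' (z : ℂ) : ℂ := ⟨z.re / z.im, -(4 * ‖z‖ - 1)⟩

private theorem lt_closed1 : IsClosed lt_O1 :=
  (isClosed_le continuous_const continuous_norm).inter
    (isClosed_le continuous_norm continuous_const)

private theorem lt_closed2 : IsClosed lt_O2 :=
  ((isClosed_le continuous_const continuous_norm).inter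
    (isClosed_le continuous_norm continuous_const)).inter
    (isClosed_le Complex.continuous_re.abs Complex.continuous_im)

private theorem lt_closed3 : IsClosed lt_O3 :=
  ((isClosed_le continuous_const continuous_norm).inter
    (isClosed_le continuous_norm continuous_const)).inter
    (isClosed_le Complex.continuous_re.abs Complex.continuous_im.neg)

private theorem lt_im2 {z : ℂ} (hz : z ∈ lt_O2) : 0 < z.im := by
  obtain ⟨⟨h1, _⟩, h3⟩ := hz
  rcases (le_trans (abs_nonneg _) h3).lt_or_eq with h | h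
  · exact h
  · exfalso
    rw [← h] at h3
    have h4 : z.re = 0 := abs_eq_zero.1 (le_antisymm h3 (abs_nonneg _))
    have h5 : z = 0 := Complex.ext h4 h.symm
    rw [h5, norm_zero] at h1
    linarith

private theorem lt_im3 {z : ℂ} (hz : z ∈ lt_O3) : z.im < 0 := by
  obtain ⟨⟨h1, _⟩, h3⟩ := hz
  rcases (le_trans (abs_nonneg _) h3).lt_or_eq with h | h
  · linarith
  · exfalso
    rw [← h] at h3
    have h4 : z.re = 0 := abs_eq_zero.1 (le_antisymm h3 (abs_nonneg _))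
    have h5 : z = 0 := Complex.ext h4 (by simpa using h)
    rw [h5, norm_zero] at h1
    linarith

private theorem lt_rep2 {z : ℂ} (hz : z ∈ lt_O2) : (‖z‖ : ℂ) * lt_U (z.re / z.im) = z :=
  lt_U_eq (lt_im2 hz)

private theorem lt_rep3 {z : ℂ} (hz : z ∈ lt_O3) : -((‖z‖ : ℂ) * lt_U (z.re / z.im)) = z := by
  have h := lt_im3 hz
  have h1 : 0 < (-z).im := by rw [Complex.neg_im]; linarith
  have h2 := lt_U_eq h1
  rw [norm_neg, Complex.neg_re, Complex.neg_im, neg_div_neg_eq] at h2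
  rw [h2, neg_neg]

private theorem lt_neg23 {z : ℂ} : -z ∈ lt_O3 ↔ z ∈ lt_O2 := by
  unfold lt_O3 lt_O2
  simp only [mem_ofPred_eq, norm_neg, Complex.neg_re, Complex.neg_im, abs_neg, neg_neg]

private theorem lt_quot_le2 {z : ℂ} (hz : z ∈ lt_O2) : |z.re / z.im| ≤ 1 := by
  have h := lt_im2 hz
  rw [abs_div, abs_of_pos h, div_le_one h]
  exact hz.2

private theorem lt_quot_le3 {z : ℂ} (hz : z ∈ lt_O3) : |z.re / z.im| ≤ 1 := by
  have h := lt_im3 hz
  rw [abs_div, abs_of_neg h, div_le_one (by linarith)]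
  exact hz.2

private theorem lt_S_mem {z : ℂ} (hz : z ∈ lt_O2) : lt_S z ∈ Sq := by
  refine ⟨lt_quot_le2 hz, ?_⟩
  show |4 * ‖z‖ - 1| ≤ 1
  rw [abs_le]
  constructor <;> linarith [hz.1.1, hz.1.2]

private theorem lt_S'_mem {z : ℂ} (hz : z ∈ lt_O3) : lt_S' z ∈ Sq := by
  refine ⟨lt_quot_le3 hz, ?_⟩
  show |-(4 * ‖z‖ - 1)| ≤ 1
  rw [abs_le]
  constructor <;> linarith [hz.1.1, hz.1.2]

private theorem lt_T_norm {z : ℂ} (hz : 1 / 2 ≤ ‖z‖) : ‖lt_T z‖ = (3 * ‖z‖ - 1) / 2 := by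
  unfold lt_T
  rw [norm_mul, Complex.norm_real, Real.norm_of_nonneg]
  · have : ‖z‖ ≠ 0 := by linarith
    field_simp
  · apply div_nonneg <;> linarith

private theorem lt_T_mem {z : ℂ} (hz : z ∈ lt_O1) : lt_T z ∈ Ann := by
  refine ⟨?_, ?_⟩
  · rw [lt_T_norm hz.1]
    linarith [hz.1]
  · rw [lt_T_norm hz.1]
    linarith [hz.2]

private theorem lt_T_inj : InjOn lt_T lt_O1 := by
  intro z hz w hw h
  have h1 := lt_T_norm hz.1
  have h2 := lt_T_norm hw.1
  rw [h] at h1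
  have h3 : ‖z‖ = ‖w‖ := by linarith
  unfold lt_T at h
  rw [h3] at h
  have h4 : (((3 * ‖w‖ - 1) / (2 * ‖w‖) : ℝ) : ℂ) ≠ 0 := by
    rw [Complex.ofReal_ne_zero]
    have := hw.1
    apply div_ne_zero <;> linarith
  exact mul_left_cancel₀ h4 h

private theorem lt_T_surj {v : ℂ} (hv : v ∈ Ann) : ∃ z ∈ lt_O1, lt_T z = v := by
  have hv0 : 0 < ‖v‖ := by linarith [hv.1]
  let z : ℂ := (((2 * ‖v‖ + 1) / (3 * ‖v‖) : ℝ) : ℂ) * v
  have hz : ‖z‖ = (2 * ‖v‖ + 1) / 3 := by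
    show ‖(((2 * ‖v‖ + 1) / (3 * ‖v‖) : ℝ) : ℂ) * v‖ = _
    rw [norm_mul, Complex.norm_real, Real.norm_of_nonneg (by positivity)]
    field_simp
  refine ⟨z, ⟨?_, ?_⟩, ?_⟩
  · rw [hz]; linarith [hv.1]
  · rw [hz]; linarith [hv.2]
  · unfold lt_T
    rw [hz]
    show _ * ((((2 * ‖v‖ + 1) / (3 * ‖v‖) : ℝ) : ℂ) * v) = v
    rw [← mul_assoc, ← Complex.ofReal_mul]
    have : (3 * ((2 * ‖v‖ + 1) / 3) - 1) / (2 * ((2 * ‖v‖ + 1) / 3)) *
        ((2 * ‖v‖ + 1) / (3 * ‖v‖)) = 1 := by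
      field_simp
      ring
    rw [this]
    simp

private theorem lt_T_cont : ContinuousOn lt_T lt_O1 := by
  have h : ContinuousOn (fun z : ℂ => (3 * ‖z‖ - 1) / (2 * ‖z‖)) lt_O1 := by
    apply ContinuousOn.div
    · fun_prop
    · fun_prop
    · intro z hz
      have := hz.1
      linarith
  exact (Complex.continuous_ofReal.comp_continuousOn h).mul continuousOn_id

private theorem lt_quot_cont (s : Set ℂ) (hs : ∀ z ∈ s, z.im ≠ 0) :
    ContinuousOn (fun z : ℂ => z.re / z.im) s :=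
  ContinuousOn.div Complex.continuous_re.continuousOn Complex.continuous_im.continuousOn hs

private theorem lt_mk_cont {s : Set ℂ} {f g : ℂ → ℝ} (hf : ContinuousOn f s)
    (hg : ContinuousOn g s) : ContinuousOn (fun z => (⟨f z, g z⟩ : ℂ)) s := by
  have h3 : (fun z => (⟨f z, g z⟩ : ℂ)) = fun z => ((f z : ℝ) : ℂ) + ((g z : ℝ) : ℂ) * Complex.I := by
    funext x
    apply Complex.ext <;> simp
  rw [h3]
  exact (Complex.continuous_ofReal.comp_continuousOn hf).add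
    ((Complex.continuous_ofReal.comp_continuousOn hg).mul continuousOn_const)

private theorem lt_S_cont : ContinuousOn lt_S lt_O2 :=
  lt_mk_cont (lt_quot_cont _ fun _ hz => (lt_im2 hz).ne') (by fun_prop)

private theorem lt_S'_cont : ContinuousOn lt_S' lt_O3 :=
  lt_mk_cont (lt_quot_cont _ fun _ hz => (lt_im3 hz).ne) (by fun_prop)

/-- inverse of `lt_S` -/
private theorem lt_S_surj {w : ℂ} (hw : w ∈ Sq) (h0 : 0 ≤ w.im) :
    (((w.im + 1) / 4 : ℝ) : ℂ) * lt_U w.re ∈ lt_O2 ∧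
      lt_S ((((w.im + 1) / 4 : ℝ) : ℂ) * lt_U w.re) = w := by
  have hr : 0 < (w.im + 1) / 4 := by linarith
  have h1 := (abs_le.1 hw.2).2
  refine ⟨⟨⟨?_, ?_⟩, ?_⟩, ?_⟩
  · rw [lt_rU_norm hr.le]; linarith
  · rw [lt_rU_norm hr.le]; linarith
  · rw [lt_rU_re, lt_rU_im, abs_mul, abs_of_pos hr]
    apply mul_le_mul_of_nonneg_left _ hr.le
    rw [abs_div, abs_of_pos (lt_pos _)]
    exact div_le_div_of_nonneg_right hw.1 (lt_pos _).le
  · apply Complex.ext
    · exact lt_rU_quot hr w.re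
    · show 4 * ‖(((w.im + 1) / 4 : ℝ) : ℂ) * lt_U w.re‖ - 1 = w.im
      rw [lt_rU_norm hr.le]
      ring

private theorem lt_S'_surj {w : ℂ} (hw : w ∈ Sq) (h0 : w.im ≤ 0) :
    -((((1 - w.im) / 4 : ℝ) : ℂ) * lt_U w.re) ∈ lt_O3 ∧
      lt_S' (-((((1 - w.im) / 4 : ℝ) : ℂ) * lt_U w.re)) = w := by
  have hr : 0 < (1 - w.im) / 4 := by linarith
  have h1 := (abs_le.1 hw.2).1
  refine ⟨?_, ?_⟩
  · rw [lt_neg23]
    refine ⟨⟨?_, ?_⟩, ?_⟩
    · rw [lt_rU_norm hr.le]; linarith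
    · rw [lt_rU_norm hr.le]; linarith
    · rw [lt_rU_re, lt_rU_im, abs_mul, abs_of_pos hr]
      apply mul_le_mul_of_nonneg_left _ hr.le
      rw [abs_div, abs_of_pos (lt_pos _)]
      exact div_le_div_of_nonneg_right hw.1 (lt_pos _).le
  · apply Complex.ext
    · show (-((((1 - w.im) / 4 : ℝ) : ℂ) * lt_U w.re)).re /
        (-((((1 - w.im) / 4 : ℝ) : ℂ) * lt_U w.re)).im = w.re
      rw [Complex.neg_re, Complex.neg_im, neg_div_neg_eq]
      exact lt_rU_quot hr w.re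
    · show -(4 * ‖-((((1 - w.im) / 4 : ℝ) : ℂ) * lt_U w.re)‖ - 1) = w.im
      rw [norm_neg, lt_rU_norm hr.le]
      ring

section

variable {X : Type} (q H : ℂ → X)

open Classical in
private noncomputable def lt_Q (z : ℂ) : X :=
  if 1 / 2 ≤ ‖z‖ then q (lt_T z) else if 0 < z.im then H (lt_S z) else H (lt_S' z)

private theorem lt_Q1 {z : ℂ} (hz : z ∈ lt_O1) : lt_Q q H z = q (lt_T z) := if_pos hz.1

private theorem lt_T_half {z : ℂ} (hz : ‖z‖ = 1 / 2) : lt_T z = 1 / 2 * z := by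
  unfold lt_T
  rw [hz]
  congr 1
  norm_num

variable {q H}

private theorem lt_Q2 (h1 : ∀ x ∈ Icc (-1 : ℝ) 1, H (x + Complex.I) = q (1 / 4 * lt_U x)) {z : ℂ}
    (hz : z ∈ lt_O2) : lt_Q q H z = H (lt_S z) := by
  unfold lt_Q
  by_cases h : 1 / 2 ≤ ‖z‖
  · rw [if_pos h]
    have h2 : ‖z‖ = 1 / 2 := le_antisymm hz.1.2 h
    have h3 : lt_S z = ((z.re / z.im : ℝ) : ℂ) + Complex.I := by
      apply Complex.ext
      · show z.re / z.im = _
        simp
      · show 4 * ‖z‖ - 1 = _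
        rw [h2]
        simp
        norm_num
    rw [h3, h1 _ (abs_le.1 (lt_quot_le2 hz)), lt_T_half h2]
    congr 1
    conv_lhs => rw [← lt_rep2 hz]
    rw [h2]
    push_cast
    ring
  · rw [if_neg h, if_pos (lt_im2 hz)]

private theorem lt_Q3 (h2 : ∀ x ∈ Icc (-1 : ℝ) 1, H (x - Complex.I) = q (-(1 / 4 * lt_U x)))
    {z : ℂ} (hz : z ∈ lt_O3) : lt_Q q H z = H (lt_S' z) := by
  unfold lt_Q
  by_cases h : 1 / 2 ≤ ‖z‖
  · rw [if_pos h]
    have h2' : ‖z‖ = 1 / 2 := le_antisymm hz.1.2 h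
    have h3 : lt_S' z = ((z.re / z.im : ℝ) : ℂ) - Complex.I := by
      apply Complex.ext
      · show z.re / z.im = _
        simp
      · show -(4 * ‖z‖ - 1) = _
        rw [h2']
        simp
        norm_num
    rw [h3, h2 _ (abs_le.1 (lt_quot_le3 hz)), lt_T_half h2']
    congr 1
    conv_lhs => rw [← lt_rep3 hz]
    rw [h2']
    push_cast
    ring
  · rw [if_neg h, if_neg (not_lt.2 (lt_im3 hz).le)]

/-- the hypotheses on `q`, `H` -/
private structure lt_Hyp [TopologicalSpace X] (q H : ℂ → X) : Prop where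
  qc : ContinuousOn q Ann
  qi : InjOn q Ann
  Hc : ContinuousOn H Sq
  Hi : InjOn H Sq
  int : H '' Sq ∩ q '' Ann = H '' SqA
  h1 : ∀ x ∈ Icc (-1 : ℝ) 1, H (x + Complex.I) = q (1 / 4 * lt_U x)
  h2 : ∀ x ∈ Icc (-1 : ℝ) 1, H (x - Complex.I) = q (-(1 / 4 * lt_U x))

variable [TopologicalSpace X]

private theorem lt_Q_cont (h : lt_Hyp q H) : ContinuousOn (lt_Q q H) (lt_O1 ∪ (lt_O2 ∪ lt_O3)) := by
  have c1 : ContinuousOn (lt_Q q H) lt_O1 :=
    (h.qc.comp lt_T_cont fun z hz => lt_T_mem hz).congr fun z hz => lt_Q1 q H hz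
  have c2 : ContinuousOn (lt_Q q H) lt_O2 :=
    (h.Hc.comp lt_S_cont fun z hz => lt_S_mem hz).congr fun z hz => lt_Q2 h.h1 hz
  have c3 : ContinuousOn (lt_Q q H) lt_O3 :=
    (h.Hc.comp lt_S'_cont fun z hz => lt_S'_mem hz).congr fun z hz => lt_Q3 h.h2 hz
  exact c1.union_of_isClosed (c2.union_of_isClosed c3 lt_closed2 lt_closed3) lt_closed1
    (lt_closed2.union lt_closed3)

/-- a point of the annulus and a point of the square with the same image -/
private theorem lt_meet (h : lt_Hyp q H) {v w : ℂ} (hv : v ∈ Ann) (hw : w ∈ Sq)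
    (he : q v = H w) : |w.im| = 1 := by
  have h3 : H w ∈ H '' SqA := by
    rw [← h.int]
    exact ⟨mem_image_of_mem H hw, v, hv, he⟩
  obtain ⟨w', hw', hww⟩ := h3
  have h4 : w' = w := h.Hi ⟨hw'.1, hw'.2.le⟩ hw hww
  rw [← h4]
  exact hw'.2

private theorem lt_rel12 (h : lt_Hyp q H) {z w : ℂ} (hz : z ∈ lt_O1) (hw : w ∈ lt_O2)
    (he : lt_Q q H z = lt_Q q H w) : z = w := by
  have h3 := he
  rw [lt_Q1 q H hz, lt_Q2 h.h1 hw] at h3
  have h4 := lt_meet h (lt_T_mem hz) (lt_S_mem hw) h3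
  have h5 : ‖w‖ = 1 / 2 := by
    change |4 * ‖w‖ - 1| = 1 at h4
    rw [abs_of_nonneg (by linarith [hw.1.1])] at h4
    linarith
  have hw1 : w ∈ lt_O1 := ⟨h5.ge, by rw [h5]; norm_num⟩
  rw [lt_Q1 q H hz, lt_Q1 q H hw1] at he
  exact lt_T_inj hz hw1 (h.qi (lt_T_mem hz) (lt_T_mem hw1) he)

private theorem lt_rel13 (h : lt_Hyp q H) {z w : ℂ} (hz : z ∈ lt_O1) (hw : w ∈ lt_O3)
    (he : lt_Q q H z = lt_Q q H w) : z = w := by
  have h3 := he
  rw [lt_Q1 q H hz, lt_Q3 h.h2 hw] at h3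
  have h4 := lt_meet h (lt_T_mem hz) (lt_S'_mem hw) h3
  have h5 : ‖w‖ = 1 / 2 := by
    change |-(4 * ‖w‖ - 1)| = 1 at h4
    rw [abs_neg, abs_of_nonneg (by linarith [hw.1.1])] at h4
    linarith
  have hw1 : w ∈ lt_O1 := ⟨h5.ge, by rw [h5]; norm_num⟩
  rw [lt_Q1 q H hz, lt_Q1 q H hw1] at he
  exact lt_T_inj hz hw1 (h.qi (lt_T_mem hz) (lt_T_mem hw1) he)

private theorem lt_rel22 (h : lt_Hyp q H) {z w : ℂ} (hz : z ∈ lt_O2) (hw : w ∈ lt_O2)
    (he : lt_Q q H z = lt_Q q H w) : z = w := by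
  rw [lt_Q2 h.h1 hz, lt_Q2 h.h1 hw] at he
  have h3 := h.Hi (lt_S_mem hz) (lt_S_mem hw) he
  have h4 : z.re / z.im = w.re / w.im := congrArg Complex.re h3
  have h5 : 4 * ‖z‖ - 1 = 4 * ‖w‖ - 1 := congrArg Complex.im h3
  have h6 : ‖z‖ = ‖w‖ := by linarith
  rw [← lt_rep2 hz, ← lt_rep2 hw, h4, h6]

private theorem lt_rel33 (h : lt_Hyp q H) {z w : ℂ} (hz : z ∈ lt_O3) (hw : w ∈ lt_O3)
    (he : lt_Q q H z = lt_Q q H w) : z = w := by
  rw [lt_Q3 h.h2 hz, lt_Q3 h.h2 hw] at he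
  have h3 := h.Hi (lt_S'_mem hz) (lt_S'_mem hw) he
  have h4 : z.re / z.im = w.re / w.im := congrArg Complex.re h3
  have h5 : -(4 * ‖z‖ - 1) = -(4 * ‖w‖ - 1) := congrArg Complex.im h3
  have h6 : ‖z‖ = ‖w‖ := by linarith
  rw [← lt_rep3 hz, ← lt_rep3 hw, h4, h6]

private theorem lt_rel23 (h : lt_Hyp q H) {z w : ℂ} (hz : z ∈ lt_O2) (hw : w ∈ lt_O3)
    (he : lt_Q q H z = lt_Q q H w) : ‖z‖ = 1 / 4 ∧ w = -z := by
  rw [lt_Q2 h.h1 hz, lt_Q3 h.h2 hw] at he
  have h3 := h.Hi (lt_S_mem hz) (lt_S'_mem hw) he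
  have h4 : z.re / z.im = w.re / w.im := congrArg Complex.re h3
  have h5 : 4 * ‖z‖ - 1 = -(4 * ‖w‖ - 1) := congrArg Complex.im h3
  have h6 : ‖z‖ = 1 / 4 := by linarith [hz.1.1, hw.1.1]
  have h7 : ‖w‖ = 1 / 4 := by linarith [hz.1.1, hw.1.1]
  refine ⟨h6, ?_⟩
  rw [← lt_rep2 hz, ← lt_rep3 hw, h4, h6, h7]

private theorem lt_relneg (h : lt_Hyp q H) {z : ℂ} (hz : z ∈ lt_O2) (hn : ‖z‖ = 1 / 4) :
    lt_Q q H z = lt_Q q H (-z) := by
  rw [lt_Q2 h.h1 hz, lt_Q3 h.h2 (lt_neg23.2 hz)]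
  congr 1
  apply Complex.ext
  · show z.re / z.im = (-z).re / (-z).im
    rw [Complex.neg_re, Complex.neg_im, neg_div_neg_eq]
  · show 4 * ‖z‖ - 1 = -(4 * ‖-z‖ - 1)
    rw [norm_neg, hn]
    norm_num

private theorem lt_rel (h : lt_Hyp q H) {z w : ℂ} (hz : z ∈ lt_O1 ∪ (lt_O2 ∪ lt_O3))
    (hw : w ∈ lt_O1 ∪ (lt_O2 ∪ lt_O3)) :
    lt_Q q H z = lt_Q q H w ↔ z = w ∨ (‖z‖ = 1 / 4 ∧ w = -z) := by
  constructor
  · intro he
    rcases hz with hz | hz | hz <;> rcases hw with hw | hw | hw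
    · left
      rw [lt_Q1 q H hz, lt_Q1 q H hw] at he
      exact lt_T_inj hz hw (h.qi (lt_T_mem hz) (lt_T_mem hw) he)
    · exact Or.inl (lt_rel12 h hz hw he)
    · exact Or.inl (lt_rel13 h hz hw he)
    · exact Or.inl (lt_rel12 h hw hz he.symm).symm
    · exact Or.inl (lt_rel22 h hz hw he)
    · exact Or.inr (lt_rel23 h hz hw he)
    · exact Or.inl (lt_rel13 h hw hz he.symm).symm
    · obtain ⟨h3, h4⟩ := lt_rel23 h hw hz he.symm
      right
      rw [h4, norm_neg, neg_neg]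
      exact ⟨h3, rfl⟩
    · exact Or.inl (lt_rel33 h hz hw he)
  · rintro (rfl | ⟨hn, rfl⟩)
    · rfl
    · rcases hz with hz | hz | hz
      · exfalso
        have := hz.1
        rw [hn] at this
        norm_num at this
      · exact lt_relneg h hz hn
      · have h3 : -z ∈ lt_O2 := by rw [← lt_neg23, neg_neg]; exact hz
        have h4 := lt_relneg h h3 (by rw [norm_neg, hn])
        rw [neg_neg] at h4
        exact h4.symm

private theorem lt_image (h : lt_Hyp q H) :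
    lt_Q q H '' (lt_O1 ∪ (lt_O2 ∪ lt_O3)) = q '' Ann ∪ H '' Sq := by
  ext y
  constructor
  · rintro ⟨z, hz | hz | hz, rfl⟩
    · exact Or.inl ⟨_, lt_T_mem hz, (lt_Q1 q H hz).symm⟩
    · exact Or.inr ⟨_, lt_S_mem hz, (lt_Q2 h.h1 hz).symm⟩
    · exact Or.inr ⟨_, lt_S'_mem hz, (lt_Q3 h.h2 hz).symm⟩
  · rintro (⟨v, hv, rfl⟩ | ⟨w, hw, rfl⟩)
    · obtain ⟨z, hz, rfl⟩ := lt_T_surj hv
      exact ⟨z, Or.inl hz, lt_Q1 q H hz⟩
    · rcases le_total 0 w.im with h0 | h0
      · obtain ⟨h3, h4⟩ := lt_S_surj hw h0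
        exact ⟨_, Or.inr (Or.inl h3), by rw [lt_Q2 h.h1 h3, h4]⟩
      · obtain ⟨h3, h4⟩ := lt_S'_surj hw h0
        exact ⟨_, Or.inr (Or.inr h3), by rw [lt_Q3 h.h2 h3, h4]⟩

/-- the new free circle -/
private def lt_B : Set ℂ := {z | 1 / 4 ≤ ‖z‖ ∧ ‖z‖ ≤ 1 / 2 ∧ |z.im| ≤ |z.re| ∧
  (‖z‖ = 1 / 2 ∨ |z.im| = |z.re|)}

private theorem lt_B_sub : lt_B ⊆ lt_O1 ∪ (lt_O2 ∪ lt_O3) := by
  rintro z ⟨h1, h2, _, h4 | h4⟩
  · exact Or.inl ⟨h4.ge, by rw [h4]; norm_num⟩
  · right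
    rcases le_total 0 z.im with h0 | h0
    · left
      exact ⟨⟨h1, h2⟩, by rw [← h4, abs_of_nonneg h0]⟩
    · right
      exact ⟨⟨h1, h2⟩, by rw [← h4, abs_of_nonpos h0]⟩

/-- the points of `H '' SqO` -/
private theorem lt_SqO (h : lt_Hyp q H) {v : ℂ} (hv : ‖v‖ = 1 / 4) :
    q v ∈ H '' SqO ↔ |v.re| < |v.im| := by
  have hvA : v ∈ Ann := ⟨hv.ge, by rw [hv]; norm_num⟩
  have hUA : ∀ x : ℝ, 1 / 4 * lt_U x ∈ Ann ∧ -(1 / 4 * lt_U x) ∈ Ann := by
    intro x
    have : ‖1 / 4 * lt_U x‖ = 1 / 4 := by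
      rw [norm_mul, lt_norm_U]
      norm_num
    refine ⟨⟨this.ge, by rw [this]; norm_num⟩, ⟨?_, ?_⟩⟩
    · rw [norm_neg, this]
    · rw [norm_neg, this]; norm_num
  have hlt : ∀ x : ℝ, |x| < 1 → |(1 / 4 * lt_U x).re| < |(1 / 4 * lt_U x).im| := by
    intro x hx
    have e : (1 / 4 : ℂ) = ((1 / 4 : ℝ) : ℂ) := by norm_num
    rw [e, lt_rU_re, lt_rU_im, abs_mul, abs_mul]
    have := lt_pos x
    apply mul_lt_mul_of_pos_left _ (by norm_num)
    rw [abs_div, abs_div, abs_one]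
    exact div_lt_div_of_pos_right hx (abs_pos.2 this.ne')
  constructor
  · rintro ⟨w, ⟨hw1, hw2⟩, hw3⟩
    have hx : w.re ∈ Icc (-1 : ℝ) 1 := abs_le.1 hw1.le
    rcases (abs_eq (by norm_num : (0 : ℝ) ≤ 1)).1 hw2 with h3 | h3
    · have h4 : w = (w.re : ℂ) + Complex.I := by
        apply Complex.ext
        · simp
        · simp [h3]
      rw [h4, h.h1 _ hx] at hw3
      have h5 := h.qi (hUA w.re).1 hvA hw3
      rw [← h5]
      exact hlt _ hw1
    · have h4 : w = (w.re : ℂ) - Complex.I := by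
        apply Complex.ext
        · simp
        · simp [h3]
      rw [h4, h.h2 _ hx] at hw3
      have h5 := h.qi (hUA w.re).2 hvA hw3
      rw [← h5, Complex.neg_re, Complex.neg_im, abs_neg, abs_neg]
      exact hlt _ hw1
  · intro hlt'
    rcases lt_trichotomy 0 v.im with h0 | h0 | h0
    · have h4 := lt_U_eq h0
      have hx : |v.re / v.im| < 1 := by
        rw [abs_div, div_lt_one (abs_pos.2 h0.ne')]
        exact hlt'
      refine ⟨((v.re / v.im : ℝ) : ℂ) + Complex.I, ⟨by simpa using hx, by simp⟩, ?_⟩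
      rw [h.h1 _ (abs_le.1 hx.le)]
      congr 1
      conv_rhs => rw [← h4, hv]
      norm_num
    · exfalso
      rw [← h0, abs_zero] at hlt'
      exact absurd hlt' (not_lt.2 (abs_nonneg _))
    · have h0' : 0 < (-v).im := by rw [Complex.neg_im]; linarith
      have h4 := lt_U_eq h0'
      rw [Complex.neg_re, Complex.neg_im, neg_div_neg_eq, norm_neg] at h4
      have hx : |v.re / v.im| < 1 := by
        rw [abs_div, div_lt_one (abs_pos.2 h0.ne)]
        exact hlt'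
      refine ⟨((v.re / v.im : ℝ) : ℂ) - Complex.I, ⟨by simpa using hx, by simp⟩, ?_⟩
      rw [h.h2 _ (abs_le.1 hx.le)]
      congr 1
      rw [neg_eq_iff_eq_neg, ← h4, hv]
      norm_num

private theorem lt_boundary (h : lt_Hyp q H) :
    lt_Q q H '' lt_B = (q '' sphere 0 (1 / 4) \ H '' SqO) ∪ H '' SqF := by
  ext y
  constructor
  · rintro ⟨z, ⟨h1, h2, h3, h4⟩, rfl⟩
    by_cases h5 : ‖z‖ = 1 / 2
    · left
      have hz1 : z ∈ lt_O1 := ⟨h5.ge, by rw [h5]; norm_num⟩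
      have h6 : ‖lt_T z‖ = 1 / 4 := by rw [lt_T_norm h5.ge, h5]; norm_num
      rw [lt_Q1 q H hz1]
      refine ⟨⟨_, by rw [mem_sphere_zero_iff_norm, h6], rfl⟩, ?_⟩
      rw [lt_SqO h h6, lt_T_half h5]
      have e : (1 / 2 : ℂ) = ((1 / 2 : ℝ) : ℂ) := by norm_num
      rw [e, Complex.re_ofReal_mul, Complex.im_ofReal_mul, abs_mul, abs_mul, not_lt]
      exact mul_le_mul_of_nonneg_left h3 (abs_nonneg _)
    · right
      have h6 : |z.im| = |z.re| := h4.resolve_left h5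
      rcases le_total 0 z.im with h0 | h0
      · have hz2 : z ∈ lt_O2 := ⟨⟨h1, h2⟩, by rw [← h6, abs_of_nonneg h0]⟩
        rw [lt_Q2 h.h1 hz2]
        refine ⟨_, ⟨?_, (lt_S_mem hz2).2⟩, rfl⟩
        show |z.re / z.im| = 1
        rw [abs_div, ← h6, div_self (abs_ne_zero.2 (lt_im2 hz2).ne')]
      · have hz3 : z ∈ lt_O3 := ⟨⟨h1, h2⟩, by rw [← h6, abs_of_nonpos h0]⟩
        rw [lt_Q3 h.h2 hz3]
        refine ⟨_, ⟨?_, (lt_S'_mem hz3).2⟩, rfl⟩
        show |z.re / z.im| = 1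
        rw [abs_div, ← h6, div_self (abs_ne_zero.2 (lt_im3 hz3).ne)]
  · rintro (⟨⟨v, hv, rfl⟩, hy⟩ | ⟨w, ⟨hw1, hw2⟩, rfl⟩)
    · rw [mem_sphere_zero_iff_norm] at hv
      rw [lt_SqO h hv, not_lt] at hy
      have hz : ‖(2 : ℂ) * v‖ = 1 / 2 := by
        rw [norm_mul, hv]; norm_num
      have hz1 : (2 : ℂ) * v ∈ lt_O1 := ⟨hz.ge, by rw [hz]; norm_num⟩
      refine ⟨2 * v, ⟨by rw [hz]; norm_num, hz.le, ?_, Or.inl hz⟩, ?_⟩
      · have e : (2 : ℂ) = ((2 : ℝ) : ℂ) := by norm_num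
        rw [e, Complex.re_ofReal_mul, Complex.im_ofReal_mul, abs_mul, abs_mul]
        exact mul_le_mul_of_nonneg_left hy (abs_nonneg _)
      · rw [lt_Q1 q H hz1, lt_T_half hz]
        congr 1
        ring
    · have hwS : w ∈ Sq := ⟨hw1.le, hw2⟩
      have key : ∀ r : ℝ, 0 < r → |((r : ℂ) * lt_U w.re).im| = |((r : ℂ) * lt_U w.re).re| := by
        intro r hr
        rw [lt_rU_re, lt_rU_im, abs_mul, abs_mul, abs_div, abs_div, hw1, abs_one]
      rcases le_total 0 w.im with h0 | h0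
      · obtain ⟨h3, h4⟩ := lt_S_surj hwS h0
        have h5 := key ((w.im + 1) / 4) (by linarith)
        exact ⟨_, ⟨h3.1.1, h3.1.2, h5.le, Or.inr h5⟩, by rw [lt_Q2 h.h1 h3, h4]⟩
      · obtain ⟨h3, h4⟩ := lt_S'_surj hwS h0
        have h5 := key ((1 - w.im) / 4) (by linarith)
        refine ⟨_, ⟨h3.1.1, h3.1.2, ?_, Or.inr ?_⟩, by rw [lt_Q3 h.h2 h3, h4]⟩
        · rw [Complex.neg_re, Complex.neg_im, abs_neg, abs_neg]
          exact h5.le
        · rw [Complex.neg_re, Complex.neg_im, abs_neg, abs_neg]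
          exact h5

end

/-! ## the crosscap -/

private theorem lt_Ok : (single (1 / 2) Lab.P).Ok where
  closed := isClosed_empty
  compact := by
    show IsCompact (∅ ∪ {0})
    rw [empty_union]
    exact isCompact_singleton
  td := by
    intro t ht _
    exact (subset_empty_iff.1 ht) ▸ subsingleton_empty
  small := by
    intro x hx
    exact absurd hx (notMem_empty x)
  pos := by
    intro i _
    show (0 : ℝ) < 1 / 2
    norm_num
  inside := by
    intro i hi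
    rw [show i = 0 from hi]
    show |(0 : ℝ)| + 1 / 2 < 1
    rw [abs_zero]
    norm_num
  away := by
    intro i _ x hx
    exact absurd hx (notMem_empty x)
  apart := by
    intro i hi j hj hij
    exact absurd ((show i = 0 from hi).trans (show j = 0 from hj).symm) hij

private theorem lt_Dom : (single (1 / 2) Lab.P).Dom = Ann := by
  have hholes : (single (1 / 2) Lab.P).holes 0 = ball (0 : ℂ) (1 / 4) := by
    show ball ((0 : ℝ) : ℂ) ((1 / 2 : ℝ) / 2) = _
    norm_num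
  have h1 : (⋃ i ∈ (single (1 / 2) Lab.P).I, (single (1 / 2) Lab.P).holes i) =
      ball (0 : ℂ) (1 / 4) := by
    show (⋃ i ∈ ({0} : Set ℝ), (single (1 / 2) Lab.P).holes i) = _
    rw [biUnion_singleton, hholes]
  unfold Conf.Dom
  rw [h1]
  show closedBall 0 1 \ ((fun x : ℝ => (x : ℂ)) '' (∅ : Set ℝ) ∪ ball (0 : ℂ) (1 / 4)) = Ann
  rw [image_empty, empty_union]
  ext z
  rw [Set.mem_sdiff, mem_closedBall_zero_iff, mem_ball_zero_iff, not_lt]
  exact and_comm

private theorem lt_Rel (x y : ℂ) : (single (1 / 2) Lab.P).Rel x y ↔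
    x = y ∨ (‖x‖ = 1 / 4 ∧ y = -x) := by
  have hs : (x ∈ sphere ((0 : ℝ) : ℂ) ((1 / 2 : ℝ) / 2)) ↔ ‖x‖ = 1 / 4 := by
    rw [Complex.ofReal_zero, mem_sphere_zero_iff_norm]
    norm_num
  unfold Conf.Rel
  constructor
  · rintro (h | ⟨i, hi, ⟨h, _⟩ | ⟨_, h2, h3⟩⟩)
    · exact Or.inl h
    · exact absurd h (by show ¬ (Lab.P = Lab.T); exact fun h => nomatch h)
    · right
      rw [show i = 0 from hi] at h2 h3
      refine ⟨hs.1 h2, ?_⟩
      rw [h3]
      simp
  · rintro (h | ⟨h2, h3⟩)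
    · exact Or.inl h
    · right
      refine ⟨0, rfl, Or.inr ⟨rfl, hs.2 h2, ?_⟩⟩
      rw [h3]
      simp

private theorem lt_FreeBd : (single (1 / 2) Lab.P).FreeBd = ∅ := by
  unfold Conf.FreeBd
  have : {i ∈ (single (1 / 2) Lab.P).I | (single (1 / 2) Lab.P).lab i = Lab.O} = ∅ := by
    ext i
    constructor
    · rintro ⟨_, h⟩
      exact absurd h (by show ¬ (Lab.P = Lab.O); exact fun h => nomatch h)
    · intro h
      exact absurd h (notMem_empty i)
  rw [this, biUnion_empty]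

private theorem lt_cntP : (single (1 / 2) Lab.P).cnt Lab.P = 1 := by
  unfold Conf.cnt
  have : {i ∈ (single (1 / 2) Lab.P).I | (single (1 / 2) Lab.P).lab i = Lab.P} = {0} := by
    ext i
    constructor
    · rintro ⟨h, _⟩
      exact h
    · intro h
      exact ⟨h, rfl⟩
  rw [this, ncard_singleton]

private theorem lt_cntne (l : Lab) (hl : Lab.P ≠ l) : (single (1 / 2) Lab.P).cnt l = 0 := by
  unfold Conf.cnt
  have : {i ∈ (single (1 / 2) Lab.P).I | (single (1 / 2) Lab.P).lab i = l} = ∅ := by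
    ext i
    constructor
    · rintro ⟨_, h⟩
      exact absurd h hl
    · intro h
      exact absurd h (notMem_empty i)
  rw [this, ncard_empty]

/-! ## the chart -/

open Classical in
private noncomputable def lt_P (w : ℂ) : ℂ :=
  if 0 ≤ w.re then ((1 / 4 + 13 / 20 * w.re : ℝ) : ℂ) * lt_D (2 * w.im)
  else -(((1 / 4 - 13 / 20 * w.re : ℝ) : ℂ) * lt_D (2 * w.im))

private theorem lt_P_norm (w : ℂ) : ‖lt_P w‖ = 1 / 4 + 13 / 20 * |w.re| := by
  unfold lt_P
  by_cases h : 0 ≤ w.re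
  · rw [if_pos h, lt_rD_norm (by positivity), abs_of_nonneg h]
  · rw [if_neg h, norm_neg, lt_rD_norm (by linarith), abs_of_neg (not_le.1 h)]
    ring

private theorem lt_P_quot (w : ℂ) : (lt_P w).im / (lt_P w).re = 2 * w.im := by
  unfold lt_P
  by_cases h : 0 ≤ w.re
  · rw [if_pos h, lt_rD_quot (by positivity)]
  · rw [if_neg h, Complex.neg_re, Complex.neg_im, neg_div_neg_eq, lt_rD_quot (by linarith)]

private theorem lt_P_re (w : ℂ) : (0 ≤ w.re → 0 < (lt_P w).re) ∧ (w.re < 0 → (lt_P w).re < 0) := by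
  constructor
  · intro h
    unfold lt_P
    rw [if_pos h, lt_rD_re]
    have := lt_pos (2 * w.im)
    positivity
  · intro h
    unfold lt_P
    rw [if_neg (not_le.2 h), Complex.neg_re, lt_rD_re]
    have := lt_pos (2 * w.im)
    have h2 : 0 < 1 / 4 - 13 / 20 * w.re := by linarith
    have : 0 < (1 / 4 - 13 / 20 * w.re) * (1 / √(1 + (2 * w.im) ^ 2)) := by positivity
    linarith

private theorem lt_P_mem {w : ℂ} (hw : w ∈ Sq) : lt_P w ∈ Ann := by
  refine ⟨?_, ?_⟩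
  · rw [lt_P_norm]
    have := abs_nonneg w.re
    linarith
  · rw [lt_P_norm]
    linarith [hw.1]

section

variable {M : Type} [TopologicalSpace M] {m : ℂ → M}

/-- the properties of the presentation of the crosscap -/
private structure lt_M (m : ℂ → M) : Prop where
  c : ContinuousOn m Ann
  s : m '' Ann = univ
  r : ∀ x ∈ Ann, ∀ y ∈ Ann, (m x = m y ↔ x = y ∨ (‖x‖ = 1 / 4 ∧ y = -x))

private theorem lt_annneg {z : ℂ} (hz : z ∈ Ann) : -z ∈ Ann := by
  refine ⟨?_, ?_⟩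
  · rw [norm_neg]; exact hz.1
  · rw [norm_neg]; exact hz.2

private theorem lt_mneg (hm : lt_M m) {z : ℂ} (hz : ‖z‖ = 1 / 4) : m (-z) = m z := by
  have hzA : z ∈ Ann := ⟨hz.ge, by rw [hz]; norm_num⟩
  exact ((hm.r z hzA (-z) (lt_annneg hzA)).2 (Or.inr ⟨hz, rfl⟩)).symm

private theorem lt_phi_cont (hm : lt_M m) : ContinuousOn (fun w => m (lt_P w)) Sq := by
  have hD : Continuous fun w : ℂ => lt_D (2 * w.im) :=
    lt_D_cont.comp (continuous_const.mul Complex.continuous_im)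
  have hp : Continuous fun w : ℂ => ((1 / 4 + 13 / 20 * w.re : ℝ) : ℂ) * lt_D (2 * w.im) :=
    (Complex.continuous_ofReal.comp
      (continuous_const.add (continuous_const.mul Complex.continuous_re))).mul hD
  have hn : Continuous fun w : ℂ => -(((1 / 4 - 13 / 20 * w.re : ℝ) : ℂ) * lt_D (2 * w.im)) :=
    ((Complex.continuous_ofReal.comp
      (continuous_const.sub (continuous_const.mul Complex.continuous_re))).mul hD).neg
  have hSq : Sq = (Sq ∩ {w | 0 ≤ w.re}) ∪ (Sq ∩ {w | w.re ≤ 0}) := by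
    ext w
    constructor
    · intro hw
      rcases le_total 0 w.re with h | h
      · exact Or.inl ⟨hw, h⟩
      · exact Or.inr ⟨hw, h⟩
    · rintro (h | h)
      · exact h.1
      · exact h.1
  have hSqc : IsClosed Sq :=
    (isClosed_le Complex.continuous_re.abs continuous_const).inter
      (isClosed_le Complex.continuous_im.abs continuous_const)
  rw [hSq]
  apply ContinuousOn.union_of_isClosed
  · have h1 : ContinuousOn (fun w => m (((1 / 4 + 13 / 20 * w.re : ℝ) : ℂ) * lt_D (2 * w.im)))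
        (Sq ∩ {w | 0 ≤ w.re}) := by
      refine hm.c.comp hp.continuousOn fun w hw => ?_
      have h2 := lt_P_mem hw.1
      have h3 : 0 ≤ w.re := hw.2
      unfold lt_P at h2
      rw [if_pos h3] at h2
      exact h2
    refine h1.congr fun w hw => ?_
    show m (lt_P w) = _
    have h3 : 0 ≤ w.re := hw.2
    unfold lt_P
    rw [if_pos h3]
  · have h1 : ContinuousOn (fun w => m (-(((1 / 4 - 13 / 20 * w.re : ℝ) : ℂ) * lt_D (2 * w.im))))
        (Sq ∩ {w | w.re ≤ 0}) := by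
      refine hm.c.comp hn.continuousOn fun w hw => ?_
      apply lt_annneg
      have h3 : w.re ≤ 0 := hw.2
      have h4 := (abs_le.1 hw.1.1).1
      have h5 : (0 : ℝ) ≤ 1 / 4 - 13 / 20 * w.re := by linarith
      refine ⟨?_, ?_⟩
      · rw [lt_rD_norm h5]; linarith
      · rw [lt_rD_norm h5]; linarith
    refine h1.congr fun w hw => ?_
    show m (lt_P w) = _
    have h3 : w.re ≤ 0 := hw.2
    unfold lt_P
    rcases h3.lt_or_eq with h4 | h4
    · rw [if_neg (not_le.2 h4)]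
    · rw [if_pos h4.ge]
      show m (((1 / 4 + 13 / 20 * w.re : ℝ) : ℂ) * lt_D (2 * w.im)) =
        m (-(((1 / 4 - 13 / 20 * w.re : ℝ) : ℂ) * lt_D (2 * w.im)))
      rw [h4, mul_zero, add_zero, sub_zero]
      refine (lt_mneg hm ?_).symm
      rw [lt_rD_norm (by norm_num)]
  · exact hSqc.inter (isClosed_le continuous_const Complex.continuous_re)
  · exact hSqc.inter (isClosed_le Complex.continuous_re continuous_const)

private theorem lt_P_inj {w w' : ℂ} (h : lt_P w = lt_P w') : w = w' := by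
  have h1 : |w.re| = |w'.re| := by
    have := lt_P_norm w
    rw [h, lt_P_norm] at this
    linarith
  have h2 : w.im = w'.im := by
    have := lt_P_quot w
    rw [h, lt_P_quot] at this
    linarith
  have h3 : w.re = w'.re := by
    rcases le_or_gt 0 w.re with h4 | h4 <;> rcases le_or_gt 0 w'.re with h5 | h5
    · rwa [abs_of_nonneg h4, abs_of_nonneg h5] at h1
    · exfalso
      have h6 := (lt_P_re w).1 h4
      rw [h] at h6
      exact absurd ((lt_P_re w').2 h5) (not_lt.2 h6.le)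
    · exfalso
      have h6 := (lt_P_re w).2 h4
      rw [h] at h6
      exact absurd ((lt_P_re w').1 h5) (not_lt.2 h6.le)
    · rw [abs_of_neg h4, abs_of_neg h5] at h1
      linarith
  exact Complex.ext h3 h2

private theorem lt_phi_inj (hm : lt_M m) : InjOn (fun w => m (lt_P w)) Sq := by
  intro w hw w' hw' h
  rcases (hm.r _ (lt_P_mem hw) _ (lt_P_mem hw')).1 h with h1 | ⟨h1, h2⟩
  · exact lt_P_inj h1
  · exfalso
    have h3 : |w.re| = 0 := by
      rw [lt_P_norm] at h1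
      linarith
    have h4 : |w'.re| = 0 := by
      have h5 : ‖lt_P w'‖ = 1 / 4 := by rw [h2, norm_neg, h1]
      rw [lt_P_norm] at h5
      linarith
    have h5 := (lt_P_re w).1 (abs_eq_zero.1 h3).ge
    have h6 := (lt_P_re w').1 (abs_eq_zero.1 h4).ge
    rw [h2, Complex.neg_re] at h6
    linarith

private theorem lt_img (hm : lt_M m) (p : ℝ → ℝ → Prop) :
    (fun w => m (lt_P w)) '' {w | w ∈ Sq ∧ p |w.re| |w.im|} =
      m '' {z | z ∈ Ann ∧ ‖z‖ ≤ 9 / 10 ∧ |z.im| ≤ 2 * |z.re| ∧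
        p (20 / 13 * (‖z‖ - 1 / 4)) (|z.im| / (2 * |z.re|))} := by
  ext y
  constructor
  · rintro ⟨w, ⟨hw, hp⟩, rfl⟩
    have hre : (lt_P w).re ≠ 0 := by
      rcases le_or_gt 0 w.re with h | h
      · exact ((lt_P_re w).1 h).ne'
      · exact ((lt_P_re w).2 h).ne
    have hrea : 0 < |(lt_P w).re| := abs_pos.2 hre
    have hq : |(lt_P w).im| = 2 * |w.im| * |(lt_P w).re| := by
      have h1 := congrArg abs (lt_P_quot w)
      rw [abs_div, abs_mul, abs_of_pos (by norm_num : (0 : ℝ) < 2), div_eq_iff hrea.ne'] at h1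
      exact h1
    have e1 : 20 / 13 * (‖lt_P w‖ - 1 / 4) = |w.re| := by
      rw [lt_P_norm]; ring
    have e2 : |(lt_P w).im| / (2 * |(lt_P w).re|) = |w.im| := by
      rw [hq]
      field_simp
    refine ⟨lt_P w, ⟨lt_P_mem hw, ?_, ?_, ?_⟩, rfl⟩
    · rw [lt_P_norm]; linarith [hw.1]
    · rw [hq]
      have := hw.2
      nlinarith
    · rw [e1, e2]
      exact hp
  · rintro ⟨z, ⟨hz, h1, h2, hp⟩, rfl⟩
    have hre : z.re ≠ 0 := by
      intro h0
      rw [h0, abs_zero, mul_zero] at h2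
      have h3 : z.im = 0 := abs_eq_zero.1 (le_antisymm h2 (abs_nonneg _))
      have h4 : z = 0 := Complex.ext h0 h3
      have h5 := hz.1
      rw [h4, norm_zero] at h5
      norm_num at h5
    have hrea : 0 < |z.re| := abs_pos.2 hre
    have hb : |z.im / (2 * z.re)| = |z.im| / (2 * |z.re|) := by
      rw [abs_div, abs_mul, abs_of_pos (by norm_num : (0 : ℝ) < 2)]
    have hb1 : |z.im / (2 * z.re)| ≤ 1 := by
      rw [hb, div_le_one (by positivity)]
      exact h2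
    have hn := hz.1
    rcases lt_or_gt_of_ne hre with h0 | h0
    · let w : ℂ := ⟨-(20 / 13 * (‖z‖ - 1 / 4)), z.im / (2 * z.re)⟩
      have hwr : |w.re| = 20 / 13 * (‖z‖ - 1 / 4) := by
        show |-(20 / 13 * (‖z‖ - 1 / 4))| = _
        rw [abs_neg, abs_of_nonneg (by linarith)]
      have hzneg : (‖z‖ : ℂ) * lt_D (z.im / z.re) = -z := by
        have h5 : 0 < (-z).re := by rw [Complex.neg_re]; linarith
        have h6 := lt_D_eq h5
        rwa [Complex.neg_re, Complex.neg_im, neg_div_neg_eq, norm_neg] at h6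
      have hq : 2 * (z.im / (2 * z.re)) = z.im / z.re := by field_simp
      refine ⟨w, ⟨⟨?_, hb1⟩, ?_⟩, ?_⟩
      · rw [hwr]; linarith
      · rw [hwr]
        show p _ |z.im / (2 * z.re)|
        rw [hb]
        exact hp
      · show m (lt_P w) = m z
        unfold lt_P
        rcases hn.lt_or_eq with h5 | h5
        · rw [if_neg]
          · show m (-(((1 / 4 - 13 / 20 * -(20 / 13 * (‖z‖ - 1 / 4)) : ℝ) : ℂ) *
              lt_D (2 * (z.im / (2 * z.re))))) = m z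
            have e : 1 / 4 - 13 / 20 * -(20 / 13 * (‖z‖ - 1 / 4)) = ‖z‖ := by ring
            rw [e, hq, hzneg, neg_neg]
          · show ¬ (0 ≤ -(20 / 13 * (‖z‖ - 1 / 4)))
            rw [not_le]
            linarith
        · rw [if_pos]
          · show m (((1 / 4 + 13 / 20 * -(20 / 13 * (‖z‖ - 1 / 4)) : ℝ) : ℂ) *
              lt_D (2 * (z.im / (2 * z.re)))) = m z
            have e : 1 / 4 + 13 / 20 * -(20 / 13 * (‖z‖ - 1 / 4)) = ‖z‖ := by
              rw [← h5]; norm_num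
            rw [e, hq, hzneg]
            exact lt_mneg hm h5.symm
          · show 0 ≤ -(20 / 13 * (‖z‖ - 1 / 4))
            rw [← h5]
            norm_num
    · let w : ℂ := ⟨20 / 13 * (‖z‖ - 1 / 4), z.im / (2 * z.re)⟩
      have hwr : |w.re| = 20 / 13 * (‖z‖ - 1 / 4) := abs_of_nonneg (by
        show 0 ≤ 20 / 13 * (‖z‖ - 1 / 4)
        linarith)
      have hq : 2 * (z.im / (2 * z.re)) = z.im / z.re := by field_simp
      refine ⟨w, ⟨⟨?_, hb1⟩, ?_⟩, ?_⟩
      · rw [hwr]; linarith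
      · rw [hwr]
        show p _ |z.im / (2 * z.re)|
        rw [hb]
        exact hp
      · show m (lt_P w) = m z
        unfold lt_P
        rw [if_pos (show 0 ≤ 20 / 13 * (‖z‖ - 1 / 4) by linarith)]
        show m (((1 / 4 + 13 / 20 * (20 / 13 * (‖z‖ - 1 / 4)) : ℝ) : ℂ) *
          lt_D (2 * (z.im / (2 * z.re)))) = m z
        have e : 1 / 4 + 13 / 20 * (20 / 13 * (‖z‖ - 1 / 4)) = ‖z‖ := by ring
        rw [e, hq, lt_D_eq h0]

private theorem lt_compl (hm : lt_M m) (W : Set ℂ) (hW : ∀ z, -z ∈ W ↔ z ∈ W) :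
    univ \ m '' (Ann ∩ W) = m '' (Ann \ W) := by
  ext y
  constructor
  · rintro ⟨_, hy⟩
    have h1 : y ∈ m '' Ann := by rw [hm.s]; trivial
    obtain ⟨z, hz, rfl⟩ := h1
    exact ⟨z, ⟨hz, fun h => hy ⟨z, ⟨hz, h⟩, rfl⟩⟩, rfl⟩
  · rintro ⟨z, ⟨hz, hzW⟩, rfl⟩
    refine ⟨trivial, ?_⟩
    rintro ⟨z', ⟨hz', hzW'⟩, he⟩
    rcases (hm.r z' hz' z hz).1 he with h1 | ⟨_, h1⟩
    · rw [h1] at hzW'
      exact hzW hzW'
    · rw [h1, hW] at hzW
      exact hzW hzW'

end

/-! ## assembly -/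

private theorem lt_Omega : Ann \ {z | ‖z‖ < 1 / 2 ∧ |z.im| < |z.re|} =
    lt_O1 ∪ (lt_O2 ∪ lt_O3) := by
  ext z
  constructor
  · rintro ⟨hz, h⟩
    by_cases h1 : 1 / 2 ≤ ‖z‖
    · exact Or.inl ⟨h1, hz.2⟩
    · have h2 : |z.re| ≤ |z.im| := by
        by_contra h3
        exact h ⟨not_le.1 h1, not_le.1 h3⟩
      right
      rcases le_total 0 z.im with h0 | h0
      · left
        rw [abs_of_nonneg h0] at h2
        exact ⟨⟨hz.1, (not_le.1 h1).le⟩, h2⟩
      · right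
        rw [abs_of_nonpos h0] at h2
        exact ⟨⟨hz.1, (not_le.1 h1).le⟩, h2⟩
  · rintro (h | h | h)
    · exact ⟨⟨by linarith [h.1], h.2⟩, fun h3 => absurd h3.1 (not_lt.2 h.1)⟩
    · exact ⟨⟨h.1.1, by linarith [h.1.2]⟩, fun h3 =>
        absurd h3.2 (not_lt.2 (h.2.trans (le_abs_self _)))⟩
    · exact ⟨⟨h.1.1, by linarith [h.1.2]⟩, fun h3 =>
        absurd h3.2 (not_lt.2 (h.2.trans (neg_le_abs _)))⟩

private theorem lt_O_compact : IsCompact (lt_O1 ∪ (lt_O2 ∪ lt_O3)) := by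
  refine (isCompact_closedBall (0 : ℂ) 1).of_isClosed_subset
    (lt_closed1.union (lt_closed2.union lt_closed3)) ?_
  intro z hz
  rw [← lt_Omega] at hz
  rw [mem_closedBall_zero_iff]
  exact hz.1.2

private theorem lt_E_eq : {w : ℂ | |w.re| ≤ 5 / 13 ∧ |w.im| ≤ 1 / 2} =
    Icc (-(5 / 13) : ℝ) (5 / 13) ×ℂ Icc (-(1 / 2) : ℝ) (1 / 2) := by
  ext w
  rw [Complex.mem_reProdIm, mem_Icc, mem_Icc, ← abs_le, ← abs_le]
  rfl

private theorem lt_E_int : interior {w : ℂ | |w.re| ≤ 5 / 13 ∧ |w.im| ≤ 1 / 2} =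
    {w : ℂ | |w.re| < 5 / 13 ∧ |w.im| < 1 / 2} := by
  rw [lt_E_eq, Complex.interior_reProdIm, interior_Icc, interior_Icc]
  ext w
  rw [Complex.mem_reProdIm, mem_Ioo, mem_Ioo, ← abs_lt, ← abs_lt]
  rfl

private theorem lt_E_closed : IsClosed {w : ℂ | |w.re| ≤ 5 / 13 ∧ |w.im| ≤ 1 / 2} :=
  (isClosed_le Complex.continuous_re.abs continuous_const).inter
    (isClosed_le Complex.continuous_im.abs continuous_const)

private theorem lt_core (hCFIN : St_CFIN) (hINTD : St_INTD) (hUNI : St_UNI) (hMEX : St_MEX)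
    (hHOLE : St_HOLE) (X : Type) [TopologicalSpace X] [T2Space X] (q H : ℂ → X)
    (h : lt_Hyp q H) :
    FinPres 0 1 1 (q '' Ann ∪ H '' Sq) ((q '' sphere 0 (1 / 4) \ H '' SqO) ∪ H '' SqF) q := by
  obtain ⟨M, tM, t2M, cM, m, hPres⟩ := hMEX (single (1 / 2) Lab.P) lt_Ok rfl
  have hm : lt_M m := by
    refine ⟨?_, ?_, ?_⟩
    · rw [← lt_Dom]; exact hPres.cont
    · rw [← lt_Dom]; exact hPres.image
    · intro x hx y hy
      rw [← lt_Rel]
      rw [← lt_Dom] at hx hy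
      exact hPres.rel x hx y hy
  set Ω : Set ℂ := lt_O1 ∪ (lt_O2 ∪ lt_O3) with hΩ
  have hΩA : Ω ⊆ Ann := by
    rw [hΩ, ← lt_Omega]
    exact fun z hz => hz.1
  -- the map `g`
  obtain ⟨g, hgc, hgi, hgim, hgm⟩ := hUNI M X Ω (single (1 / 2) Lab.P).Rel (m '' Ω)
    (lt_Q q H '' Ω) m (lt_Q q H) lt_O_compact (hm.c.mono hΩA) (lt_Q_cont h) rfl rfl
    (fun x hx y hy => by rw [lt_Rel]; exact hm.r x (hΩA hx) y (hΩA hy))
    (fun x hx y hy => by rw [lt_Rel]; exact lt_rel h hx hy)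
  -- the chart
  have hSqI : (fun w => m (lt_P w)) '' SqI =
      m '' (Ann ∩ {z | ‖z‖ < 9 / 10 ∧ |z.im| < 2 * |z.re|}) := by
    have e1 : SqI = {w | w ∈ Sq ∧ (fun a b : ℝ => a < 1 ∧ b < 1) |w.re| |w.im|} := by
      ext w
      constructor
      · intro hw
        exact ⟨⟨hw.1.le, hw.2.le⟩, hw⟩
      · intro hw
        exact hw.2
    rw [e1, lt_img hm (fun a b : ℝ => a < 1 ∧ b < 1)]
    congr 1
    ext z
    constructor
    · rintro ⟨hz, h1, h2, h3, h4⟩
      refine ⟨hz, ?_, ?_⟩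
      · linarith
      · rcases h2.lt_or_eq with h5 | h5
        · exact h5
        · exfalso
          rw [h5] at h4
          have h6 : 2 * |z.re| ≠ 0 := by
            intro h7
            have h8 : z.re = 0 := abs_eq_zero.1 (by linarith)
            rw [h7] at h5
            have h9 : z = 0 := Complex.ext h8 (abs_eq_zero.1 h5)
            have h10 := hz.1
            rw [h9, norm_zero] at h10
            norm_num at h10
          rw [div_self h6] at h4
          exact lt_irrefl _ h4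
    · rintro ⟨hz, h1, h2⟩
      have h3 : 0 < 2 * |z.re| := lt_of_le_of_lt (abs_nonneg _) h2
      refine ⟨hz, h1.le, h2.le, ?_, ?_⟩
      · linarith
      · rw [div_lt_one h3]
        exact h2
  have hWsym : ∀ z : ℂ, -z ∈ {z : ℂ | ‖z‖ < 9 / 10 ∧ |z.im| < 2 * |z.re|} ↔
      z ∈ {z : ℂ | ‖z‖ < 9 / 10 ∧ |z.im| < 2 * |z.re|} := by
    intro z
    show (‖-z‖ < 9 / 10 ∧ |(-z).im| < 2 * |(-z).re|) ↔ (‖z‖ < 9 / 10 ∧ |z.im| < 2 * |z.re|)
    rw [norm_neg, Complex.neg_im, Complex.neg_re, abs_neg, abs_neg]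
  have hVsym : ∀ z : ℂ, -z ∈ {z : ℂ | ‖z‖ < 1 / 2 ∧ |z.im| < |z.re|} ↔
      z ∈ {z : ℂ | ‖z‖ < 1 / 2 ∧ |z.im| < |z.re|} := by
    intro z
    show (‖-z‖ < 1 / 2 ∧ |(-z).im| < |(-z).re|) ↔ (‖z‖ < 1 / 2 ∧ |z.im| < |z.re|)
    rw [norm_neg, Complex.neg_im, Complex.neg_re, abs_neg, abs_neg]
  have hAnnc : IsCompact Ann := by
    rw [← lt_Dom]
    exact ((hCFIN _ lt_Ok).2.2.2.1 rfl).2
  have hUopen : IsOpen ((fun w => m (lt_P w)) '' SqI) := by
    rw [hSqI, ← isClosed_compl_iff, compl_eq_univ_sdiff, lt_compl hm _ hWsym]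
    have hWo : IsOpen {z : ℂ | ‖z‖ < 9 / 10 ∧ |z.im| < 2 * |z.re|} :=
      (isOpen_lt continuous_norm continuous_const).inter
        (isOpen_lt Complex.continuous_im.abs (continuous_const.mul Complex.continuous_re.abs))
    exact ((hAnnc.diff hWo).image_of_continuousOn (hm.c.mono fun z hz => hz.1)).isClosed
  have hE_int : (fun w => m (lt_P w)) '' interior {w : ℂ | |w.re| ≤ 5 / 13 ∧ |w.im| ≤ 1 / 2} =
      m '' (Ann ∩ {z | ‖z‖ < 1 / 2 ∧ |z.im| < |z.re|}) := by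
    have e1 : {w : ℂ | |w.re| < 5 / 13 ∧ |w.im| < 1 / 2} =
        {w | w ∈ Sq ∧ (fun a b : ℝ => a < 5 / 13 ∧ b < 1 / 2) |w.re| |w.im|} := by
      ext w
      constructor
      · intro hw
        exact ⟨⟨by linarith [hw.1], by linarith [hw.2]⟩, hw⟩
      · intro hw
        exact hw.2
    rw [lt_E_int, e1, lt_img hm (fun a b : ℝ => a < 5 / 13 ∧ b < 1 / 2)]
    congr 1
    ext z
    constructor
    · rintro ⟨hz, h1, h2, h3, h4⟩
      have h6 : 0 < |z.re| := by
        rcases (abs_nonneg z.re).lt_or_eq with h7 | h7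
        · exact h7
        · exfalso
          have h8 : z.re = 0 := abs_eq_zero.1 h7.symm
          rw [← h7, mul_zero] at h2
          have h9 : z = 0 := Complex.ext h8 (abs_eq_zero.1 (le_antisymm h2 (abs_nonneg _)))
          have h10 := hz.1
          rw [h9, norm_zero] at h10
          norm_num at h10
      refine ⟨hz, by linarith, ?_⟩
      rw [div_lt_iff₀ (by linarith)] at h4
      linarith
    · rintro ⟨hz, h1, h2⟩
      have h3 : 0 < |z.re| := lt_of_le_of_lt (abs_nonneg _) h2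
      refine ⟨hz, by linarith, by linarith, by linarith, ?_⟩
      rw [div_lt_iff₀ (by linarith)]
      linarith
  have hE_fr : (fun w => m (lt_P w)) '' frontier {w : ℂ | |w.re| ≤ 5 / 13 ∧ |w.im| ≤ 1 / 2} =
      m '' lt_B := by
    have e1 : frontier {w : ℂ | |w.re| ≤ 5 / 13 ∧ |w.im| ≤ 1 / 2} =
        {w | w ∈ Sq ∧ (fun a b : ℝ => a ≤ 5 / 13 ∧ b ≤ 1 / 2 ∧ (a = 5 / 13 ∨ b = 1 / 2))
          |w.re| |w.im|} := by
      rw [lt_E_closed.frontier_eq, lt_E_int]
      ext w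
      constructor
      · rintro ⟨hw, hw2⟩
        refine ⟨⟨by linarith [hw.1], by linarith [hw.2]⟩, hw.1, hw.2, ?_⟩
        by_contra hcon
        rw [not_or] at hcon
        exact hw2 ⟨lt_of_le_of_ne hw.1 hcon.1, lt_of_le_of_ne hw.2 hcon.2⟩
      · rintro ⟨_, h1, h2, h3⟩
        refine ⟨⟨h1, h2⟩, ?_⟩
        rintro ⟨h4, h5⟩
        rcases h3 with h3 | h3
        · exact absurd h3 h4.ne
        · exact absurd h3 h5.ne
    rw [e1, lt_img hm (fun a b : ℝ => a ≤ 5 / 13 ∧ b ≤ 1 / 2 ∧ (a = 5 / 13 ∨ b = 1 / 2))]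
    congr 1
    ext z
    constructor
    · rintro ⟨hz, h1, h2, h3, h4, h5⟩
      have h6 : 0 < |z.re| := by
        rcases (abs_nonneg z.re).lt_or_eq with h7 | h7
        · exact h7
        · exfalso
          have h8 : z.re = 0 := abs_eq_zero.1 h7.symm
          rw [← h7, mul_zero] at h2
          have h9 : z = 0 := Complex.ext h8 (abs_eq_zero.1 (le_antisymm h2 (abs_nonneg _)))
          have h10 := hz.1
          rw [h9, norm_zero] at h10
          norm_num at h10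
      rw [div_le_iff₀ (by linarith)] at h4
      rw [div_eq_iff (by linarith)] at h5
      refine ⟨hz.1, by linarith, by linarith, ?_⟩
      rcases h5 with h5 | h5
      · left; linarith
      · right; linarith
    · rintro ⟨h1, h2, h3, h4⟩
      have h6 : 0 < |z.re| := by
        rcases (abs_nonneg z.re).lt_or_eq with h7 | h7
        · exact h7
        · exfalso
          have h8 : z.re = 0 := abs_eq_zero.1 h7.symm
          rw [← h7] at h3
          have h9 : z = 0 := Complex.ext h8 (abs_eq_zero.1 (le_antisymm h3 (abs_nonneg _)))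
          rw [h9, norm_zero] at h1
          norm_num at h1
      refine ⟨⟨h1, by linarith⟩, by linarith, by linarith, by linarith, ?_, ?_⟩
      · rw [div_le_iff₀ (by linarith)]
        linarith
      · rw [div_eq_iff (by linarith)]
        rcases h4 with h4 | h4
        · left; linarith
        · right; linarith
  obtain ⟨hOk', hT', hP', hO', q', hq'P, hq'u, hq'B⟩ := hHOLE M (single (1 / 2) Lab.P) univ m
    (fun w => m (lt_P w)) {w : ℂ | |w.re| ≤ 5 / 13 ∧ |w.im| ≤ 1 / 2} (7 / 10) (1 / 100) lt_Ok rfl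
    hPres (lt_phi_cont hm) (lt_phi_inj hm) (subset_univ _)
    ⟨_, hUopen, inter_univ _⟩
    (by
      rw [hSqI, Set.disjoint_left]
      rintro _ ⟨z, ⟨hz, hz1, _⟩, rfl⟩ ⟨u, hu, he⟩
      have hu1 : ‖u‖ = 1 := mem_sphere_zero_iff_norm.1 hu
      have huA : u ∈ Ann := ⟨by rw [hu1]; norm_num, hu1.le⟩
      rcases (hm.r u huA z hz).1 he with h1 | ⟨h1, _⟩
      · rw [← h1, hu1] at hz1
        norm_num at hz1
      · rw [hu1] at h1
        norm_num at h1)
    (by rw [lt_FreeBd, image_empty]; exact disjoint_empty _)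
    (by
      refine hINTD.2.1 _ ?_ ?_ ?_
      · rw [lt_E_eq]
        exact isCompact_Icc.reProdIm isCompact_Icc
      · rw [lt_E_eq]
        exact ((convex_Icc (-(5 / 13) : ℝ) (5 / 13)).linear_preimage Complex.reLm).inter
          ((convex_Icc (-(1 / 2) : ℝ) (1 / 2)).linear_preimage Complex.imLm)
      · rw [lt_E_int]
        refine ⟨0, ?_, ?_⟩
        · show |(0 : ℂ).re| < 5 / 13
          rw [Complex.zero_re, abs_zero]
          norm_num
        · show |(0 : ℂ).im| < 1 / 2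
          rw [Complex.zero_im, abs_zero]
          norm_num)
    (by
      rintro w ⟨h1, h2⟩
      exact ⟨by linarith, by linarith⟩)
    (by norm_num) (by rw [abs_of_pos (by norm_num)]; norm_num)
    (by
      intro i hi
      rw [show i = 0 from hi]
      show (1 / 2 : ℝ) + 2 * (1 / 100) < |0 - 7 / 10|
      rw [zero_sub, abs_neg, abs_of_pos (by norm_num)]
      norm_num)
    (by
      rw [hSqI]
      rintro _ ⟨z, hz, rfl⟩
      rw [mem_closedBall_iff_norm] at hz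
      have hre : |z.re - 7 / 10| ≤ 1 / 100 := by
        have h1 := Complex.abs_re_le_norm (z - ((7 / 10 : ℝ) : ℂ))
        rw [Complex.sub_re, Complex.ofReal_re] at h1
        exact h1.trans hz
      have him : |z.im| ≤ 1 / 100 := by
        have h1 := Complex.abs_im_le_norm (z - ((7 / 10 : ℝ) : ℂ))
        rw [Complex.sub_im, Complex.ofReal_im, sub_zero] at h1
        exact h1.trans hz
      have hn : ‖z‖ ≤ 71 / 100 := by
        have h1 := norm_add_le (z - ((7 / 10 : ℝ) : ℂ)) ((7 / 10 : ℝ) : ℂ)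
        rw [sub_add_cancel, Complex.norm_real, Real.norm_of_nonneg (by norm_num)] at h1
        linarith
      have hre2 := (abs_le.1 hre).1
      have hre3 : 69 / 100 ≤ |z.re| := by
        rw [abs_of_nonneg (by linarith)]
        linarith
      have hn2 := Complex.abs_re_le_norm z
      exact ⟨z, ⟨⟨by linarith, by linarith⟩, by linarith, by linarith⟩, rfl⟩)
  have hL : univ \ (fun w => m (lt_P w)) '' interior {w : ℂ | |w.re| ≤ 5 / 13 ∧ |w.im| ≤ 1 / 2} =
      m '' Ω := by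
    rw [hE_int, lt_compl hm _ hVsym, lt_Omega]
  rw [hL] at hq'P
  refine ⟨(single (1 / 2) Lab.P).add (7 / 10) (2 * (1 / 100)) Lab.O, hOk', rfl, ?_, ?_, ?_,
    fun z => g (q' z), ?_, ?_, ?_⟩
  · rw [hT', lt_cntne Lab.T (fun h => nomatch h)]
  · rw [hP', lt_cntP]
  · rw [hO', lt_cntne Lab.O (fun h => nomatch h)]
  · have hmaps : MapsTo q' ((single (1 / 2) Lab.P).add (7 / 10) (2 * (1 / 100)) Lab.O).Dom
        (m '' Ω) := by
      intro x hx
      rw [← hq'P.image]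
      exact mem_image_of_mem q' hx
    refine ⟨hgc.comp hq'P.cont hmaps, ?_, ?_, ?_⟩
    · have h1 : (fun z => g (q' z)) '' ((single (1 / 2) Lab.P).add (7 / 10) (2 * (1 / 100))
          Lab.O).Dom = g '' (q' '' ((single (1 / 2) Lab.P).add (7 / 10) (2 * (1 / 100))
          Lab.O).Dom) := by
        rw [image_image]
      rw [h1, hq'P.image, hgim, hΩ]
      exact lt_image h
    · intro x hx y hy
      rw [← hq'P.rel x hx y hy]
      exact hgi.eq_iff (hmaps hx) (hmaps hy)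
    · intro A _ _
      exact ⟨_, Subset.rfl, ((hCFIN _ hOk').2.2.2.1 rfl).2, fun x hx _ => hx⟩
  · intro z hz
    have hz1 : ‖z‖ = 1 := mem_sphere_zero_iff_norm.1 hz
    have hzO : z ∈ lt_O1 := ⟨by rw [hz1]; norm_num, hz1.le⟩
    show g (q' z) = q z
    rw [hq'u z hz, hgm z (Or.inl hzO), lt_Q1 q H hzO]
    congr 1
    unfold lt_T
    rw [hz1]
    norm_num
  · have h1 : (fun z => g (q' z)) '' ((single (1 / 2) Lab.P).add (7 / 10) (2 * (1 / 100))
        Lab.O).FreeBd = g '' (q' '' ((single (1 / 2) Lab.P).add (7 / 10) (2 * (1 / 100))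
        Lab.O).FreeBd) := by
      rw [image_image]
    rw [h1, hq'B, lt_FreeBd, image_empty, empty_union, hE_fr, ← lt_boundary h, image_image]
    exact (image_congr fun z hz => hgm z (lt_B_sub hz)).symm

theorem thm_LT (hCFIN : St_CFIN) (hANG : St_ANG) (hINTD : St_INTD) (hUNI : St_UNI)
    (hMEX : St_MEX) (hHOLE : St_HOLE) : St_LT := by
  intro X _ _ q H θ₁ θ₂ hqc hqi hHc hHi hint hθ₁ hθ₂ ha₁ ha₂ e₁ e₂
  have hUI : ∀ x y : ℝ, lt_U x = lt_U y → x = y := by
    intro x y hxy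
    have h1 := lt_rU_quot one_pos x
    rw [hxy, lt_rU_quot one_pos y] at h1
    exact h1.symm
  have hI1 : InjOn (fun x => cexpi (θ₁ x)) (Icc (-1) 1) := by
    intro x hx y hy hxy
    have h1 : H (x + Complex.I) = H (y + Complex.I) := by
      rw [e₁ x hx, e₁ y hy]
      exact congrArg (fun z => q (1 / 4 * z)) hxy
    have h2 := hHi (show (x : ℂ) + Complex.I ∈ Sq from ⟨by simpa using abs_le.2 hx, by simp⟩)
      (show (y : ℂ) + Complex.I ∈ Sq from ⟨by simpa using abs_le.2 hy, by simp⟩) h1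
    have h3 := congrArg Complex.re h2
    simpa using h3
  have hI2 : InjOn (fun x => cexpi (θ₂ x)) (Icc (-1) 1) := by
    intro x hx y hy hxy
    have h1 : H (x - Complex.I) = H (y - Complex.I) := by
      rw [e₂ x hx, e₂ y hy]
      exact congrArg (fun z => q (1 / 4 * z)) hxy
    have h2 := hHi (show (x : ℂ) - Complex.I ∈ Sq from ⟨by simpa using abs_le.2 hx, by simp⟩)
      (show (y : ℂ) - Complex.I ∈ Sq from ⟨by simpa using abs_le.2 hy, by simp⟩) h1
    have h3 := congrArg Complex.re h2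
    simpa using h3
  obtain ⟨Φ, hΦ1, hΦ2, hΦ3, hΦ4⟩ := hANG.2 0 (1 / 4) 1 (by norm_num) (by norm_num) θ₁
    (fun x => Real.pi / 2 - Real.arctan x) θ₂ (fun x => -(Real.pi / 2) - Real.arctan x) hθ₁
    (by fun_prop) hθ₂ (by fun_prop)
    (Or.inr ⟨ha₁, fun x _ y _ hxy => by
      have := Real.arctan_strictMono hxy
      show Real.pi / 2 - Real.arctan y < Real.pi / 2 - Real.arctan x
      linarith⟩)
    (Or.inr ⟨ha₂, fun x _ y _ hxy => by
      have := Real.arctan_strictMono hxy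
      show -(Real.pi / 2) - Real.arctan y < -(Real.pi / 2) - Real.arctan x
      linarith⟩)
    hI1
    (fun x _ y _ hxy => hUI x y (by
      simpa only [lt_cexpi] using hxy))
    hI2
    (fun x _ y _ hxy => hUI x y (by
      have h1 : -lt_U x = -lt_U y := by simpa only [lt_cexpi'] using hxy
      exact neg_injective h1))
    (fun x hx y hy hxy => by
      have h1 : H (x + Complex.I) = H (y - Complex.I) := by
        rw [e₁ x hx, e₂ y hy, hxy]
      have h2 := hHi (show (x : ℂ) + Complex.I ∈ Sq from ⟨by simpa using abs_le.2 hx, by simp⟩)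
        (show (y : ℂ) - Complex.I ∈ Sq from ⟨by simpa using abs_le.2 hy, by simp⟩) h1
      have h3 := congrArg Complex.im h2
      simp at h3
      norm_num at h3)
    (fun x _ y _ hxy => by
      rw [lt_cexpi, lt_cexpi'] at hxy
      have h1 := congrArg Complex.im hxy
      rw [Complex.neg_im] at h1
      have h2 : 0 < (lt_U x).im := by
        show 0 < 1 / √(1 + x ^ 2)
        have := lt_pos x
        positivity
      have h3 : 0 < (lt_U y).im := by
        show 0 < 1 / √(1 + y ^ 2)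
        have := lt_pos y
        positivity
      linarith)
  have hn : ∀ z, ‖Φ z‖ = ‖z‖ := by
    intro z
    have := hΦ2 z
    rwa [sub_zero, sub_zero] at this
  have hns : ∀ z, ‖Φ.symm z‖ = ‖z‖ := by
    intro z
    rw [← hn, Φ.apply_symm_apply]
  have himg : ∀ S : Set ℂ, (∀ z, Φ z ∈ S ↔ z ∈ S) → (fun z => q (Φ.symm z)) '' S = q '' S := by
    intro S hS
    ext y
    constructor
    · rintro ⟨z, hz, rfl⟩
      refine ⟨Φ.symm z, ?_, rfl⟩
      rw [← hS, Φ.apply_symm_apply]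
      exact hz
    · rintro ⟨z, hz, rfl⟩
      refine ⟨Φ z, (hS z).2 hz, ?_⟩
      show q (Φ.symm (Φ z)) = q z
      rw [Φ.symm_apply_apply]
  have hAnn : ∀ z, Φ z ∈ Ann ↔ z ∈ Ann := by
    intro z
    show (1 / 4 ≤ ‖Φ z‖ ∧ ‖Φ z‖ ≤ 1) ↔ (1 / 4 ≤ ‖z‖ ∧ ‖z‖ ≤ 1)
    rw [hn]
  have hSph : ∀ z, Φ z ∈ sphere (0 : ℂ) (1 / 4) ↔ z ∈ sphere (0 : ℂ) (1 / 4) := by
    intro z
    rw [mem_sphere_zero_iff_norm, mem_sphere_zero_iff_norm, hn]
  have hsA : MapsTo Φ.symm Ann Ann := by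
    intro z hz
    rw [← hAnn, Φ.apply_symm_apply]
    exact hz
  have hHyp : lt_Hyp (fun z => q (Φ.symm z)) H := by
    refine ⟨hqc.comp Φ.symm.continuous.continuousOn hsA, ?_, hHc, hHi, ?_, ?_, ?_⟩
    · intro z hz w hw hzw
      exact Φ.symm.injective (hqi (hsA hz) (hsA hw) hzw)
    · rw [himg Ann hAnn]
      exact hint
    · intro x hx
      rw [e₁ x hx]
      show q (1 / 4 * cexpi (θ₁ x)) = q (Φ.symm (1 / 4 * lt_U x))
      have h1 := hΦ3 x hx
      rw [zero_add, zero_add] at h1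
      have h2 : Φ (1 / 4 * cexpi (θ₁ x)) = 1 / 4 * lt_U x := by
        rw [← lt_cexpi]
        push_cast at h1
        exact h1
      rw [← h2, Φ.symm_apply_apply]
    · intro x hx
      rw [e₂ x hx]
      show q (1 / 4 * cexpi (θ₂ x)) = q (Φ.symm (-(1 / 4 * lt_U x)))
      have h1 := hΦ4 x hx
      rw [zero_add, zero_add] at h1
      have h2 : Φ (1 / 4 * cexpi (θ₂ x)) = -(1 / 4 * lt_U x) := by
        rw [← mul_neg, ← lt_cexpi']
        push_cast at h1
        exact h1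
      rw [← h2, Φ.symm_apply_apply]
  have hmain := lt_core hCFIN hINTD hUNI hMEX hHOLE X (fun z => q (Φ.symm z)) H hHyp
  rw [himg Ann hAnn, himg _ hSph] at hmain
  obtain ⟨C, hC, hF, hT, hP, hO, q'', hPres, hu, hB⟩ := hmain
  refine ⟨C, hC, hF, hT, hP, hO, q'', hPres, ?_, hB⟩
  intro z hz
  rw [hu z hz]
  show q (Φ.symm z) = q z
  congr 1
  rw [Homeomorph.symm_apply_eq]
  refine (hΦ1 z ?_).symm
  rw [mem_ball_zero_iff, not_lt, mem_sphere_zero_iff_norm.1 hz]

end Pool.Agent.SRP
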