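import Pool.Agent.SRP.StE

set_option autoImplicit false

/-! # NRM: normal forms (helper60 for helper10) -/

open Set Metric Filter Topology Pool.Agent.SRF

namespace Pool.Agent.SRP

private theorem nrm_acc {S : Set ℝ} {x : ℝ} :
    AccPt x (𝓟 S) ↔ ∀ ε > 0, ∃ y ∈ S, |y - x| < ε ∧ y ≠ x := by
  rw [accPt_iff_nhds]
  constructor
  · intro h ε hε
    obtain ⟨y, ⟨h1, h2⟩, h3⟩ := h (ball x ε) (ball_mem_nhds x hε)
    exact ⟨y, h2, by rwa [mem_ball, Real.dist_eq] at h1, h3⟩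
  · intro h U hU
    obtain ⟨ε, hε, hb⟩ := Metric.mem_nhds_iff.1 hU
    obtain ⟨y, h1, h2, h3⟩ := h ε hε
    exact ⟨y, ⟨hb (by rwa [mem_ball, Real.dist_eq]), h1⟩, h3⟩

private theorem nrm_mono {S T : Set ℝ} {x : ℝ} (h : S ⊆ T) (hx : AccPt x (𝓟 S)) :
    AccPt x (𝓟 T) := hx.mono (principal_mono.2 h)

private theorem nrm_inf {S : Set ℝ} {x ε : ℝ} (h : AccPt x (𝓟 S)) (hε : 0 < ε) :
    {y ∈ S | |y - x| < ε}.Infinite := by
  have h1 := Set.Infinite.of_accPt (h.nhds_inter (ball_mem_nhds x hε))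
  refine h1.mono ?_
  rintro y ⟨hy1, hy2⟩
  exact ⟨hy2, by rwa [mem_ball, Real.dist_eq] at hy1⟩

/-- shadowing -/
private theorem nrm_shadow {U V : Set ℝ} {x : ℝ} (hx : x ∉ V)
    (h : ∀ ε > 0, {u ∈ U | ¬ ∃ v ∈ V, |u - v| < ε}.Finite) (hU : AccPt x (𝓟 U)) :
    AccPt x (𝓟 V) := by
  rw [nrm_acc]
  intro ε hε
  have h1 := nrm_inf hU (half_pos hε)
  obtain ⟨u, ⟨hu1, hu2⟩, hu3⟩ := (h1.diff (h (ε / 2) (half_pos hε))).nonempty
  have h2 : ∃ v ∈ V, |u - v| < ε / 2 := by
    by_contra hc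
    exact hu3 ⟨hu1, hc⟩
  obtain ⟨v, hv, huv⟩ := h2
  refine ⟨v, hv, ?_, fun e => hx (e ▸ hv)⟩
  have h3 : |v - x| ≤ |u - x| + |u - v| := by
    have h4 : v - x = (u - x) - (u - v) := by ring
    rw [h4]
    exact abs_sub _ _
  linarith

private theorem nrm_iso {C : Conf} (hC : C.Ok) {i : ℝ} (hi : i ∈ C.I) :
    ∀ x ∈ C.F ∪ C.I, |x - i| < C.rad i → x = i := by
  rintro x (hx | hx) h
  · exact absurd (hC.away i hi x hx) (not_lt.2 h.le)
  · by_contra hne
    have h1 := hC.apart x hx i hi hne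
    have h2 := hC.pos x hx
    linarith

private theorem nrm_closed {C : Conf} (hC : C.Ok) {S : Set ℝ} (hS : S ⊆ C.I) :
    IsClosed (C.F ∪ S) := by
  refine isClosed_of_closure_subset fun x hx => ?_
  have h1 : x ∈ C.F ∪ C.I := hC.compact.isClosed.closure_subset_iff.2
    (union_subset_union_right _ hS) hx
  rcases h1 with h1 | h1
  · exact Or.inl h1
  · obtain ⟨y, hy1, hy2⟩ := Metric.mem_closure_iff.1 hx (C.rad x) (hC.pos x h1)
    have h2 := nrm_iso hC h1 y (union_subset_union_right _ hS hy1)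
      (by rwa [dist_comm, Real.dist_eq] at hy2)
    exact h2 ▸ hy1

private theorem nrm_compact {C : Conf} (hC : C.Ok) {S : Set ℝ} (hS : S ⊆ C.I) :
    IsCompact (C.F ∪ S) :=
  hC.compact.of_isClosed_subset (nrm_closed hC hS) (union_subset_union_right _ hS)

private theorem nrm_accF {C : Conf} (hC : C.Ok) {S : Set ℝ} (hS : S ⊆ C.I) (hinf : S.Infinite) :
    ∃ x ∈ C.F, AccPt x (𝓟 S) := by
  obtain ⟨x, hx, hacc⟩ := hinf.exists_accPt_of_subset_isCompact hC.compact
    (hS.trans subset_union_right)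
  rcases hx with hx | hx
  · exact ⟨x, hx, hacc⟩
  · exfalso
    obtain ⟨y, hy1, hy2, hy3⟩ := nrm_acc.1 hacc (C.rad x) (hC.pos x hx)
    exact hy3 (nrm_iso hC hx y (Or.inr (hS hy1)) hy2)

private theorem nrm_x {D : Conf} (hD : D.Ok) {x : ℝ} (hx : x ∈ D.I) : |x| < 1 := by
  have h1 := hD.inside x hx
  have h2 := hD.pos x hx
  linarith

private theorem nrm_cnt0 {D : Conf} (hf : D.I.Finite) {l : Lab} (h : D.cnt l = 0) :
    ∀ i ∈ D.I, D.lab i ≠ l := by
  intro i hi hl
  have h1 : {i ∈ D.I | D.lab i = l} = ∅ :=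
    (Set.ncard_eq_zero (hf.subset (Set.sep_subset _ _))).1 h
  have h2 : i ∈ {i ∈ D.I | D.lab i = l} := ⟨hi, hl⟩
  rw [h1] at h2
  exact h2

private theorem nrm_cntP {D : Conf} {l : Lab} (h : 0 < D.cnt l) :
    ∃ i ∈ D.I, D.lab i = l := by
  by_contra hc
  push Not at hc
  have h1 : {i ∈ D.I | D.lab i = l} = ∅ := by
    rw [Set.eq_empty_iff_forall_notMem]
    rintro i ⟨h1, h2⟩
    exact hc i h1 h2
  rw [Conf.cnt, h1, Set.ncard_empty] at h
  exact lt_irrefl _ h

private theorem nrm_lab {C : Conf} (hC : C.Good) {i : ℝ} (hi : i ∈ C.I) :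
    C.lab i = Lab.T ∨ C.lab i = Lab.P := by
  have h1 := hC.noO i hi
  cases h : C.lab i with
  | T => exact Or.inl rfl
  | P => exact Or.inr rfl
  | O => exact absurd h h1

private theorem nrm_disj {C : Conf} {i : ℝ} (h1 : i ∈ C.IT) (h2 : i ∈ C.IP) : False := by
  have := h1.2.symm.trans h2.2
  cases this

private theorem nrm_union {C : Conf} (hC : C.Good) : C.I = C.IT ∪ C.IP := by
  ext i
  constructor
  · intro hi
    rcases nrm_lab hC hi with h | h
    · exact Or.inl ⟨hi, h⟩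
    · exact Or.inr ⟨hi, h⟩
  · rintro (h | h)
    · exact h.1
    · exact h.1

/-- the case (b) -/
private theorem nrm_b (hCF : St_CFIN) (hST : St_STDC) (hCL : St_CLU) (X : Type)
    [TopologicalSpace X] (hX : IsSurf X) (C : Conf) (hC : C.Good) (hM : IsModel X C)
    (hP : C.IP.Nonempty) (hPf : C.IP.Finite) (hTf : C.IT.Finite) :
    ∃ C' : Conf, C'.Good ∧ C'.Normal ∧ IsModel X C' := by
  obtain ⟨S, hS, hE⟩ := hST
  obtain ⟨j0, hj0⟩ := hP
  have hIf : C.I.Finite := by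
    rw [nrm_union hC]
    exact hTf.union hPf
  have hp : 0 < C.IP.ncard := (Set.ncard_pos hPf).2 ⟨j0, hj0⟩
  have hO : {i ∈ C.I | C.lab i = Lab.O} = ∅ := by
    rw [Set.eq_empty_iff_forall_notMem]
    rintro i ⟨h1, h2⟩
    exact hC.noO i h1 h2
  obtain ⟨C', hok, hF, hM', hI, hl1, hl2⟩ := hCL X hX C hC.ok hM {j0} (fun _ => C.I)
    (fun _ => S C.IT.ncard C.IP.ncard) (fun _ => S 0 (2 * C.IT.ncard + C.IP.ncard))
    (by
      rintro j rfl
      exact ⟨hj0.1, Subset.rfl, hIf⟩)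
    (by
      rintro j rfl k rfl h
      exact absurd rfl h)
    (by
      intro ε _
      exact (Set.finite_singleton j0).subset (Set.sep_subset _ _))
    (by
      intro j _
      have h1 := hS C.IT.ncard C.IP.ncard
      have h2 := hS 0 (2 * C.IT.ncard + C.IP.ncard)
      refine ⟨h1.1, h1.2.1, h2.1, h2.2.1, hE _ _ _ _ hp (by omega) (by omega), ?_⟩
      intro l
      cases l with
      | T => exact h1.2.2.1
      | P => exact h1.2.2.2.1
      | O =>
        change (S C.IT.ncard C.IP.ncard).cnt Lab.O = {i ∈ C.I | C.lab i = Lab.O}.ncard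
        rw [hO, Set.ncard_empty]
        exact h1.2.2.2.2)
  obtain ⟨hD1, hD2, hD3, hD4, hD5⟩ := hS 0 (2 * C.IT.ncard + C.IP.ncard)
  have hDf := ((hCF _ hD1).2.2.2.1 hD2).1
  have hI' : ∀ i ∈ C'.I, ∃ x ∈ (S 0 (2 * C.IT.ncard + C.IP.ncard)).I,
      i = j0 + C.rad j0 * x ∧ C'.lab i = (S 0 (2 * C.IT.ncard + C.IP.ncard)).lab x := by
    intro i hi
    rw [hI] at hi
    rcases hi with hi | ⟨j, hj, x, hx, hi⟩
    · exact absurd (mem_iUnion₂.2 ⟨j0, Set.mem_singleton j0, hi.1⟩) hi.2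
    · have hj' : j = j0 := hj
      subst hj'
      exact ⟨x, hx, hi, by rw [hi]; exact hl2 j rfl x hx⟩
  have hI'f : C'.I.Finite := by
    refine (hDf.image fun x => j0 + C.rad j0 * x).subset ?_
    intro i hi
    obtain ⟨x, hx, h1, -⟩ := hI' i hi
    exact ⟨x, hx, h1.symm⟩
  refine ⟨C', ⟨hok, ?_⟩, ?_, hM'⟩
  · intro i hi
    obtain ⟨x, hx, -, h2⟩ := hI' i hi
    rw [h2]
    exact nrm_cnt0 hDf hD5 x hx
  · right
    left
    refine ⟨hI'f.subset (Set.sep_subset _ _), ?_, ?_⟩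
    · obtain ⟨x, hx, hxl⟩ := nrm_cntP (D := S 0 (2 * C.IT.ncard + C.IP.ncard)) (l := Lab.P)
        (by rw [hD4]; omega)
      refine ⟨j0 + C.rad j0 * x, ?_, ?_⟩
      · rw [hI]
        exact Or.inr ⟨j0, rfl, x, hx, rfl⟩
      · rw [← hxl]
        exact hl2 j0 rfl x hx
    · rw [Set.eq_empty_iff_forall_notMem]
      rintro i ⟨hi, hil⟩
      obtain ⟨x, hx, -, h2⟩ := hI' i hi
      exact nrm_cnt0 hDf hD3 x hx (h2.symm.trans hil)

/-- the case (c) -/
private theorem nrm_c (hCF : St_CFIN) (hST : St_STDC) (hCL : St_CLU) (X : Type)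
    [TopologicalSpace X] (hX : IsSurf X) (C : Conf) (hC : C.Good) (hM : IsModel X C)
    (hPf : C.IP.Finite) (hTi : C.IT.Infinite) (k p' : ℕ) (hp' : p' = 1 ∨ p' = 2)
    (hk : C.IP.ncard = 2 * k + p') :
    ∃ C' : Conf, C'.Good ∧ C'.Normal ∧ IsModel X C' := by
  obtain ⟨S, hS, hE⟩ := hST
  have hp : 0 < C.IP.ncard := by omega
  obtain ⟨j0, hj0⟩ : C.IP.Nonempty := (Set.ncard_pos hPf).1 hp
  obtain ⟨C', hok, hF, hM', hI, hl1, hl2⟩ := hCL X hX C hC.ok hM {j0} (fun _ => C.IP)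
    (fun _ => S 0 C.IP.ncard) (fun _ => S k p')
    (by
      rintro j rfl
      exact ⟨hj0, Set.sep_subset _ _, hPf⟩)
    (by
      rintro j rfl k rfl h
      exact absurd rfl h)
    (by
      intro ε _
      exact (Set.finite_singleton j0).subset (Set.sep_subset _ _))
    (by
      intro j _
      have h1 := hS 0 C.IP.ncard
      have h2 := hS k p'
      refine ⟨h1.1, h1.2.1, h2.1, h2.2.1, hE _ _ _ _ hp (by omega) (by omega), ?_⟩
      intro l
      cases l with
      | T =>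
        have h3 : {i ∈ C.IP | C.lab i = Lab.T} = ∅ := by
          rw [Set.eq_empty_iff_forall_notMem]
          rintro i ⟨h3, h4⟩
          exact nrm_disj ⟨h3.1, h4⟩ h3
        change (S 0 C.IP.ncard).cnt Lab.T = {i ∈ C.IP | C.lab i = Lab.T}.ncard
        rw [h3, Set.ncard_empty]
        exact h1.2.2.1
      | P =>
        have h3 : {i ∈ C.IP | C.lab i = Lab.P} = C.IP := by
          ext i
          exact ⟨fun h => h.1, fun h => ⟨h, h.2⟩⟩
        change (S 0 C.IP.ncard).cnt Lab.P = {i ∈ C.IP | C.lab i = Lab.P}.ncard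
        rw [h3]
        exact h1.2.2.2.1
      | O =>
        have h3 : {i ∈ C.IP | C.lab i = Lab.O} = ∅ := by
          rw [Set.eq_empty_iff_forall_notMem]
          rintro i ⟨h3, h4⟩
          exact hC.noO i h3.1 h4
        change (S 0 C.IP.ncard).cnt Lab.O = {i ∈ C.IP | C.lab i = Lab.O}.ncard
        rw [h3, Set.ncard_empty]
        exact h1.2.2.2.2)
  obtain ⟨hD1, hD2, hD3, hD4, hD5⟩ := hS k p'
  have hDf := ((hCF _ hD1).2.2.2.1 hD2).1
  have hG : ∀ i, (i ∈ ⋃ j ∈ ({j0} : Set ℝ), C.IP) ↔ i ∈ C.IP := by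
    intro i
    rw [mem_iUnion₂]
    exact ⟨fun ⟨_, _, h⟩ => h, fun h => ⟨j0, rfl, h⟩⟩
  have hr : 0 < C.rad j0 := hC.ok.pos j0 hj0.1
  refine ⟨C', ⟨hok, ?_⟩, ?_, hM'⟩
  · intro i hi
    rw [hI] at hi
    rcases hi with hi | ⟨j, hj, x, hx, hi⟩
    · rw [hl1 i hi]
      exact hC.noO i hi.1
    · rw [hi, hl2 j hj x hx]
      exact nrm_cnt0 hDf hD5 x hx
  · right
    right
    left
    have hP' : C'.IP = (fun x => j0 + C.rad j0 * x) '' {x ∈ (S k p').I | (S k p').lab x = Lab.P} := by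
      ext i
      constructor
      · rintro ⟨hi, hil⟩
        rw [hI] at hi
        rcases hi with hi | ⟨j, hj, x, hx, hi⟩
        · rw [hl1 i hi] at hil
          exact absurd ((hG i).2 ⟨hi.1, hil⟩) hi.2
        · have hj' : j = j0 := hj
          subst hj'
          rw [hi, hl2 j hj x hx] at hil
          exact ⟨x, ⟨hx, hil⟩, hi.symm⟩
      · rintro ⟨x, ⟨hx, hxl⟩, rfl⟩
        refine ⟨?_, ?_⟩
        · rw [hI]
          exact Or.inr ⟨j0, rfl, x, hx, rfl⟩
        · rw [← hxl]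
          exact hl2 j0 rfl x hx
    refine ⟨?_, ?_⟩
    · refine hTi.mono fun i hi => ?_
      have h1 : i ∈ C.I \ ⋃ j ∈ ({j0} : Set ℝ), C.IP :=
        ⟨hi.1, fun h => nrm_disj hi ((hG i).1 h)⟩
      refine ⟨?_, ?_⟩
      · rw [hI]
        exact Or.inl h1
      · rw [hl1 i h1]
        exact hi.2
    · have h1 : C'.IP.ncard = p' := by
        rw [hP', Set.ncard_image_of_injective]
        · exact hD4
        · intro x y hxy
          have h2 : C.rad j0 * x = C.rad j0 * y := add_left_cancel hxy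
          exact mul_left_cancel₀ hr.ne' h2
      rw [h1]
      exact hp'

/-- the case (d) -/
private theorem nrm_d (hCF : St_CFIN) (hST : St_STDC) (hPA : St_PAR) (hCL : St_CLU) (X : Type)
    [TopologicalSpace X] (hX : IsSurf X) (C : Conf) (hC : C.Good) (hM : IsModel X C)
    (hPi : C.IP.Infinite) :
    ∃ C' : Conf, C'.Good ∧ C'.Normal ∧ IsModel X C' := by
  obtain ⟨S, hS, hE⟩ := hST
  have hPI : C.IP ⊆ C.I := Set.sep_subset _ _
  have hTI : C.IT ⊆ C.I := Set.sep_subset _ _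
  obtain ⟨E, hEd⟩ : ∃ E : Set ℝ, E = {y ∈ C.F | AccPt y (𝓟 C.IP)} := ⟨_, rfl⟩
  obtain ⟨A, hAd⟩ : ∃ A : Set ℝ, A = {y ∈ C.F | AccPt y (𝓟 C.I) ∧ ¬ AccPt y (𝓟 C.IP)} := ⟨_, rfl⟩
  obtain ⟨J, hJd⟩ : ∃ J : Set ℝ, J = {i ∈ C.IT | A = ∅ ∨ infDist i E ≤ infDist i A} := ⟨_, rfl⟩
  have hEc : IsClosed E := by
    rw [hEd]
    exact hC.ok.closed.inter (isClosed_derivedSet C.IP)
  have hEn : E.Nonempty := by
    obtain ⟨x, hx, hacc⟩ := nrm_accF hC.ok hPI hPi
    rw [hEd]
    exact ⟨x, hx, hacc⟩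
  have hJT : J ⊆ C.IT := by
    rw [hJd]
    exact Set.sep_subset _ _
  have hJI : J ⊆ C.I := hJT.trans hTI
  have hdisj : Disjoint C.F C.I := (hCF C hC.ok).1
  -- far from E
  have hfar : ∀ x, x ∉ E → ∃ d > 0, ∀ i, |i - x| < d → |i - x| < infDist i E := by
    intro x hx
    have h1 : 0 < infDist x E := (hEc.notMem_iff_infDist_pos hEn).1 hx
    refine ⟨infDist x E / 2, half_pos h1, fun i hi => ?_⟩
    have h2 : infDist x E ≤ infDist i E + dist x i := infDist_le_infDist_add_dist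
    rw [dist_comm, Real.dist_eq] at h2
    linarith
  have hJacc : ∀ x ∈ C.F, AccPt x (𝓟 J) → AccPt x (𝓟 C.IP) := by
    intro x hx hacc
    by_contra hn
    have hxE : x ∉ E := by
      rw [hEd]
      exact fun h => hn h.2
    have hxA : x ∈ A := by
      rw [hAd]
      exact ⟨hx, nrm_mono hJI hacc, hn⟩
    obtain ⟨d, hd, h1⟩ := hfar x hxE
    obtain ⟨i, hi1, hi2, -⟩ := nrm_acc.1 hacc d hd
    have h2 := h1 i hi2
    rw [hJd] at hi1
    rcases hi1.2 with h3 | h3
    · rw [h3] at hxA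
      exact hxA
    · have h4 : infDist i A ≤ dist i x := infDist_le_dist_of_mem hxA
      rw [Real.dist_eq] at h4
      linarith
  have hiso : ∀ {Q : Set ℝ}, Q ⊆ C.I → ∀ i ∈ Q, ∃ ε > 0, ∀ x ∈ C.F ∪ Q, |x - i| < ε → x = i :=
    fun {Q} hQ i hi => ⟨C.rad i, hC.ok.pos i (hQ hi), fun x hx h =>
      nrm_iso hC.ok (hQ hi) x (union_subset_union_right _ hQ hx) h⟩
  obtain ⟨p, hpi, hpm, hpf⟩ := hPA C.F J C.IP (nrm_compact hC.ok hJI) (nrm_compact hC.ok hPI)
    hC.ok.closed (hdisj.mono_right hJI) (hdisj.mono_right hPI) (hiso hJI) (hiso hPI) hPi hJacc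
  obtain ⟨C', hok, hF, hM', hI, hl1, hl2⟩ := hCL X hX C hC.ok hM J (fun i => {i, p i})
    (fun _ => S 1 1) (fun _ => S 0 3)
    (by
      intro j hj
      refine ⟨Or.inl rfl, ?_, (Set.finite_singleton _).insert _⟩
      rintro i (rfl | rfl)
      · exact hJI hj
      · exact hPI (hpm hj))
    (by
      intro j hj k hk hjk
      rw [Set.disjoint_left]
      rintro i (rfl | rfl) (h | h)
      · exact hjk h
      · exact nrm_disj (hJT hj) (h ▸ hpm hk)
      · exact nrm_disj (hJT hk) (h ▸ hpm hj)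
      · exact hjk (hpi hj hk h))
    (by
      intro ε hε
      refine (hpf ε hε).subset ?_
      rintro j ⟨hj, h⟩
      refine ⟨hj, ?_⟩
      by_contra hc
      push Not at hc
      apply h
      rintro i (rfl | rfl)
      · exact mem_ball_self hε
      · rw [mem_ball, Real.dist_eq]
        exact hc)
    (by
      intro j hj
      have h1 := hS 1 1
      have h2 := hS 0 3
      refine ⟨h1.1, h1.2.1, h2.1, h2.2.1, hE _ _ _ _ (by norm_num) (by norm_num) (by norm_num), ?_⟩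
      intro l
      cases l with
      | T =>
        have h3 : {i ∈ ({j, p j} : Set ℝ) | C.lab i = Lab.T} = {j} := by
          ext i
          constructor
          · rintro ⟨rfl | rfl, h3⟩
            · rfl
            · exact (nrm_disj ⟨hPI (hpm hj), h3⟩ (hpm hj)).elim
          · rintro rfl
            exact ⟨Or.inl rfl, (hJT hj).2⟩
        change (S 1 1).cnt Lab.T = {i ∈ ({j, p j} : Set ℝ) | C.lab i = Lab.T}.ncard
        rw [h3, Set.ncard_singleton]
        exact h1.2.2.1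
      | P =>
        have h3 : {i ∈ ({j, p j} : Set ℝ) | C.lab i = Lab.P} = {p j} := by
          ext i
          constructor
          · rintro ⟨rfl | rfl, h3⟩
            · exact (nrm_disj (hJT hj) ⟨hJI hj, h3⟩).elim
            · rfl
          · rintro rfl
            exact ⟨Or.inr rfl, (hpm hj).2⟩
        change (S 1 1).cnt Lab.P = {i ∈ ({j, p j} : Set ℝ) | C.lab i = Lab.P}.ncard
        rw [h3, Set.ncard_singleton]
        exact h1.2.2.2.1
      | O =>
        have h3 : {i ∈ ({j, p j} : Set ℝ) | C.lab i = Lab.O} = ∅ := by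
          rw [Set.eq_empty_iff_forall_notMem]
          rintro i ⟨rfl | rfl, h3⟩
          · exact hC.noO _ (hJI hj) h3
          · exact hC.noO _ (hPI (hpm hj)) h3
        change (S 1 1).cnt Lab.O = {i ∈ ({j, p j} : Set ℝ) | C.lab i = Lab.O}.ncard
        rw [h3, Set.ncard_empty]
        exact h1.2.2.2.2)
  obtain ⟨hD1, hD2, hD3, hD4, hD5⟩ := hS 0 3
  have hDf := ((hCF _ hD1).2.2.2.1 hD2).1
  have hG : ∀ i, (i ∈ ⋃ j ∈ J, ({j, p j} : Set ℝ)) ↔ ∃ j ∈ J, i = j ∨ i = p j := by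
    intro i
    rw [mem_iUnion₂]
    exact ⟨fun ⟨j, hj, h⟩ => ⟨j, hj, h⟩, fun ⟨j, hj, h⟩ => ⟨j, hj, h⟩⟩
  have hlP : ∀ x ∈ (S 0 3).I, (S 0 3).lab x = Lab.P := by
    intro x hx
    have h1 := nrm_cnt0 hDf hD3 x hx
    have h2 := nrm_cnt0 hDf hD5 x hx
    cases h : (S 0 3).lab x with
    | T => exact absurd h h1
    | P => rfl
    | O => exact absurd h h2
  obtain ⟨x0, hx0, -⟩ := nrm_cntP (D := S 0 3) (l := Lab.P) (by rw [hD4]; norm_num)
  have hG' : Conf.Good C' := by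
    refine ⟨hok, ?_⟩
    intro i hi
    rw [hI] at hi
    rcases hi with hi | ⟨j, hj, x, hx, hi⟩
    · rw [hl1 i hi]
      exact hC.noO i hi.1
    · rw [hi, hl2 j hj x hx]
      exact nrm_cnt0 hDf hD5 x hx
  -- the sets for the new configuration
  have hT' : C'.IT = C.IT \ J := by
    ext i
    constructor
    · rintro ⟨hi, hil⟩
      rw [hI] at hi
      rcases hi with hi | ⟨j, hj, x, hx, hi⟩
      · rw [hl1 i hi] at hil
        exact ⟨⟨hi.1, hil⟩, fun h => hi.2 ((hG i).2 ⟨i, h, Or.inl rfl⟩)⟩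
      · rw [hi, hl2 j hj x hx] at hil
        exact absurd hil (nrm_cnt0 hDf hD3 x hx)
    · rintro ⟨hi, hiJ⟩
      have h1 : i ∈ C.I \ ⋃ j ∈ J, ({j, p j} : Set ℝ) := by
        refine ⟨hi.1, fun h => ?_⟩
        obtain ⟨j, hj, rfl | rfl⟩ := (hG i).1 h
        · exact hiJ hj
        · exact nrm_disj hi (hpm hj)
      refine ⟨?_, ?_⟩
      · rw [hI]
        exact Or.inl h1
      · rw [hl1 i h1]
        exact hi.2
  have hnew : ∀ j ∈ J, ∀ x ∈ (S 0 3).I, j + C.rad j * x ∈ C'.IP := by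
    intro j hj x hx
    refine ⟨?_, ?_⟩
    · rw [hI]
      exact Or.inr ⟨j, hj, x, hx, rfl⟩
    · rw [← hlP x hx]
      exact hl2 j hj x hx
  have hold : ∀ i ∈ C.IP, (∀ j ∈ J, i ≠ p j) → i ∈ C'.IP := by
    intro i hi hn
    have h1 : i ∈ C.I \ ⋃ j ∈ J, ({j, p j} : Set ℝ) := by
      refine ⟨hi.1, fun h => ?_⟩
      obtain ⟨j, hj, rfl | rfl⟩ := (hG i).1 h
      · exact nrm_disj (hJT hj) hi
      · exact hn j hj rfl
    refine ⟨?_, ?_⟩
    · rw [hI]
      exact Or.inl h1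
    · rw [hl1 i h1]
      exact hi.2
  have hcaseI : ∀ i ∈ C'.I, i ∈ C.I ∧ C'.lab i = C.lab i ∨
      ∃ j ∈ J, ∃ x ∈ (S 0 3).I, i = j + C.rad j * x := by
    intro i hi
    rw [hI] at hi
    rcases hi with hi | hi
    · exact Or.inl ⟨hi.1, hl1 i hi⟩
    · exact Or.inr hi
  have hdJ : ∀ j ∈ J, ∀ x ∈ (S 0 3).I, |j + C.rad j * x - j| < C.rad j := by
    intro j hj x hx
    have h1 := nrm_x hD1 hx
    have h2 := hC.ok.pos j (hJI hj)
    rw [add_sub_cancel_left, abs_mul, abs_of_pos h2]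
    nlinarith
  have hradf : ∀ ε > 0, {j ∈ J | ε ≤ C.rad j ∨ ε ≤ |p j - j|}.Finite := by
    intro ε hε
    refine (((hCF C hC.ok).2.2.1 ε hε).union (hpf ε hε)).subset ?_
    rintro j ⟨hj, h | h⟩
    · exact Or.inl ⟨hJI hj, h⟩
    · exact Or.inr ⟨hj, h⟩
  have hNf : ∀ ε > 0, {u | ∃ j ∈ J, (ε ≤ C.rad j ∨ ε ≤ |p j - j|) ∧
      (u = p j ∨ u = j ∨ ∃ x ∈ (S 0 3).I, u = j + C.rad j * x)}.Finite := by
    intro ε hε
    have h1 : ({u | ∃ j ∈ J, (ε ≤ C.rad j ∨ ε ≤ |p j - j|) ∧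
      (u = p j ∨ u = j ∨ ∃ x ∈ (S 0 3).I, u = j + C.rad j * x)} : Set ℝ) ⊆
        ⋃ j ∈ {j ∈ J | ε ≤ C.rad j ∨ ε ≤ |p j - j|},
          (insert (p j) (insert j ((fun x => j + C.rad j * x) '' (S 0 3).I)) : Set ℝ) := by
      rintro u ⟨j, hj, h1, h2⟩
      refine mem_iUnion₂.2 ⟨j, ⟨hj, h1⟩, ?_⟩
      rcases h2 with h2 | h2 | ⟨x, hx, h2⟩
      · exact Or.inl h2
      · exact Or.inr (Or.inl h2)
      · exact Or.inr (Or.inr ⟨x, hx, h2.symm⟩)
    refine ((hradf ε hε).biUnion fun j _ => ?_).subset h1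
    exact ((hDf.image _).insert _).insert _
  have hxI : ∀ x ∈ C.F, x ∉ C.I := fun x hx h => Set.disjoint_left.1 hdisj hx h
  have hxI' : ∀ x ∈ C.F, x ∉ C'.I := by
    intro x hx h
    have h1 := (hCF C' hok).1
    rw [hF] at h1
    exact Set.disjoint_left.1 h1 hx h
  have haccP : ∀ x ∈ C.F, (AccPt x (𝓟 C'.IP) ↔ AccPt x (𝓟 C.IP)) := by
    intro x hx
    constructor
    · refine nrm_shadow (fun h => hxI x hx h.1) fun ε hε => ?_
      refine (hNf (ε / 2) (half_pos hε)).subset ?_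
      rintro u ⟨hu, hn⟩
      rcases hcaseI u hu.1 with ⟨h1, h2⟩ | ⟨j, hj, y, hy, h1⟩
      · exact absurd ⟨u, ⟨h1, h2.symm.trans hu.2⟩, by rw [sub_self, abs_zero]; exact hε⟩ hn
      · refine ⟨j, hj, ?_, Or.inr (Or.inr ⟨y, hy, h1⟩)⟩
        by_contra hc
        push Not at hc
        refine hn ⟨p j, hpm hj, ?_⟩
        have h2 := hdJ j hj y hy
        have h3 : |u - p j| ≤ |j + C.rad j * y - j| + |p j - j| := by
          have h4 : u - p j = (j + C.rad j * y - j) - (p j - j) := by rw [h1]; ring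
          rw [h4]
          exact abs_sub _ _
        linarith [hc.1, hc.2]
    · refine nrm_shadow (fun h => hxI' x hx h.1) fun ε hε => ?_
      refine (hNf (ε / 2) (half_pos hε)).subset ?_
      rintro u ⟨hu, hn⟩
      by_cases h : ∃ j ∈ J, u = p j
      · obtain ⟨j, hj, h1⟩ := h
        refine ⟨j, hj, ?_, Or.inl h1⟩
        by_contra hc
        push Not at hc
        refine hn ⟨j + C.rad j * x0, hnew j hj x0 hx0, ?_⟩
        have h2 := hdJ j hj x0 hx0
        have h3 : |u - (j + C.rad j * x0)| ≤ |p j - j| + |j + C.rad j * x0 - j| := by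
          have h4 : u - (j + C.rad j * x0) = (p j - j) - (j + C.rad j * x0 - j) := by rw [h1]; ring
          rw [h4]
          exact abs_sub _ _
        linarith [hc.1, hc.2]
      · push Not at h
        exact absurd ⟨u, hold u hu h, by rw [sub_self, abs_zero]; exact hε⟩ hn
  have haccI : ∀ x ∈ C.F, (AccPt x (𝓟 C'.I) ↔ AccPt x (𝓟 C.I)) := by
    intro x hx
    constructor
    · refine nrm_shadow (hxI x hx) fun ε hε => ?_
      refine (hNf (ε / 2) (half_pos hε)).subset ?_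
      rintro u ⟨hu, hn⟩
      rcases hcaseI u hu with ⟨h1, h2⟩ | ⟨j, hj, y, hy, h1⟩
      · exact absurd ⟨u, h1, by rw [sub_self, abs_zero]; exact hε⟩ hn
      · refine ⟨j, hj, ?_, Or.inr (Or.inr ⟨y, hy, h1⟩)⟩
        by_contra hc
        push Not at hc
        refine hn ⟨j, hJI hj, ?_⟩
        have h2 := hdJ j hj y hy
        rw [h1]
        linarith [hc.1, hc.2]
    · refine nrm_shadow (hxI' x hx) fun ε hε => ?_
      refine (hNf (ε / 2) (half_pos hε)).subset ?_
      rintro u ⟨hu, hn⟩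
      by_cases h : ∃ j ∈ J, u = j ∨ u = p j
      · obtain ⟨j, hj, h1⟩ := h
        refine ⟨j, hj, ?_, ?_⟩
        · by_contra hc
          push Not at hc
          refine hn ⟨j + C.rad j * x0, (hnew j hj x0 hx0).1, ?_⟩
          have h2 := hdJ j hj x0 hx0
          have h5 : |u - j| ≤ |p j - j| := by
            rcases h1 with h1 | h1
            · rw [h1, sub_self, abs_zero]
              exact abs_nonneg _
            · rw [h1]
          have h3 : |u - (j + C.rad j * x0)| ≤ |u - j| + |j + C.rad j * x0 - j| := by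
            have h4 : u - (j + C.rad j * x0) = (u - j) - (j + C.rad j * x0 - j) := by ring
            rw [h4]
            exact abs_sub _ _
          linarith [hc.1, hc.2]
        · rcases h1 with h1 | h1
          · exact Or.inr (Or.inl h1)
          · exact Or.inl h1
      · have h1 : u ∈ C.I \ ⋃ j ∈ J, ({j, p j} : Set ℝ) := ⟨hu, fun h' => h ((hG u).1 h')⟩
        refine absurd ⟨u, ?_, by rw [sub_self, abs_zero]; exact hε⟩ hn
        rw [hI]
        exact Or.inl h1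
  have hA' : {y ∈ C'.F | AccPt y (𝓟 C'.I) ∧ ¬ AccPt y (𝓟 C'.IP)} = A := by
    rw [hAd, hF]
    ext y
    constructor
    · rintro ⟨h1, h2, h3⟩
      exact ⟨h1, (haccI y h1).1 h2, fun h => h3 ((haccP y h1).2 h)⟩
    · rintro ⟨h1, h2, h3⟩
      exact ⟨h1, (haccI y h1).2 h2, fun h => h3 ((haccP y h1).1 h)⟩
  have hAT : ∀ x ∈ A, AccPt x (𝓟 (C.IT \ J)) := by
    intro x hxA
    have hxA' := hxA
    rw [hAd] at hxA'
    obtain ⟨hxF, hxI2, hxP⟩ := hxA'
    have hxE : x ∉ E := by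
      rw [hEd]
      exact fun h => hxP h.2
    obtain ⟨d, hd, h1⟩ := hfar x hxE
    have h2 : ∃ δ > 0, ∀ y ∈ C.IP, |y - x| < δ → y = x := by
      by_contra hc
      push Not at hc
      exact hxP (nrm_acc.2 fun ε hε => by
        obtain ⟨y, hy1, hy2, hy3⟩ := hc ε hε
        exact ⟨y, hy1, hy2, hy3⟩)
    obtain ⟨δ, hδ, h2⟩ := h2
    rw [nrm_acc]
    intro ε hε
    obtain ⟨y, hy1, hy2, hy3⟩ := nrm_acc.1 hxI2 (min ε (min d δ)) (lt_min hε (lt_min hd hδ))
    have hy4 : |y - x| < ε := hy2.trans_le (min_le_left _ _)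
    have hy5 : |y - x| < d := hy2.trans_le ((min_le_right _ _).trans (min_le_left _ _))
    have hy6 : |y - x| < δ := hy2.trans_le ((min_le_right _ _).trans (min_le_right _ _))
    rw [nrm_union hC] at hy1
    rcases hy1 with hy1 | hy1
    · refine ⟨y, ⟨hy1, fun hyJ => ?_⟩, hy4, hy3⟩
      rw [hJd] at hyJ
      rcases hyJ.2 with h3 | h3
      · rw [h3] at hxA
        exact hxA
      · have h4 : infDist y A ≤ dist y x := infDist_le_dist_of_mem hxA
        rw [Real.dist_eq] at h4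
        have h5 := h1 y hy5
        linarith
    · exact absurd (h2 y hy1 hy6) hy3
  refine ⟨C', hG', ?_, hM'⟩
  right
  right
  right
  refine ⟨?_, ?_, ?_⟩
  · obtain ⟨x, hx, hacc⟩ := nrm_accF hC.ok hPI hPi
    exact Set.Infinite.of_accPt ((haccP x hx).2 hacc)
  · rw [hT']
    rcases A.eq_empty_or_nonempty with hA | ⟨x, hx⟩
    · left
      rw [Set.eq_empty_iff_forall_notMem]
      rintro i ⟨hi1, hi2⟩
      apply hi2
      rw [hJd]
      exact ⟨hi1, Or.inl hA⟩
    · right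
      exact Set.Infinite.of_accPt (hAT x hx)
  · intro x hx
    rw [hA', hT']
    rw [hF] at hx
    constructor
    · intro hacc
      have hAn : A.Nonempty := by
        obtain ⟨i, ⟨hi1, hi2⟩, -⟩ := nrm_acc.1 hacc 1 one_pos
        rw [Set.nonempty_iff_ne_empty]
        intro hA
        apply hi2
        rw [hJd]
        exact ⟨hi1, Or.inl hA⟩
      by_cases hxP : AccPt x (𝓟 C.IP)
      · have hxE : x ∈ E := by
          rw [hEd]
          exact ⟨hx, hxP⟩
        rw [Metric.mem_closure_iff_infDist_zero hAn]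
        refine le_antisymm (le_of_forall_pos_le_add fun ε hε => ?_) infDist_nonneg
        obtain ⟨i, ⟨hi1, hi2⟩, hi3, -⟩ := nrm_acc.1 hacc (ε / 2) (half_pos hε)
        have h1 : infDist i A < infDist i E := by
          by_contra hc
          push Not at hc
          apply hi2
          rw [hJd]
          exact ⟨hi1, Or.inr hc⟩
        have h2 : infDist i E ≤ dist i x := infDist_le_dist_of_mem hxE
        have h3 : infDist x A ≤ infDist i A + dist x i := infDist_le_infDist_add_dist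
        rw [dist_comm x i] at h3
        rw [Real.dist_eq] at h2 h3
        linarith
      · apply subset_closure
        rw [hAd]
        exact ⟨hx, nrm_mono (diff_subset.trans hTI) hacc, hxP⟩
    · intro hcl
      have h1 : A ⊆ derivedSet (C.IT \ J) := fun y hy => hAT y hy
      have h2 : closure A ⊆ derivedSet (C.IT \ J) :=
        (isClosed_derivedSet _).closure_subset_iff.2 h1
      exact h2 hcl

theorem thm_NRM (hCF : St_CFIN) (hST : St_STDC) (hPA : St_PAR) (hCL : St_CLU) : St_NRM := by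
  intro X _ hX C hC hM
  rcases C.IP.eq_empty_or_nonempty with hP | hP
  · exact ⟨C, hC, Or.inl hP, hM⟩
  · rcases C.IP.finite_or_infinite with hPf | hPi
    · rcases C.IT.finite_or_infinite with hTf | hTi
      · exact nrm_b hCF hST hCL X hX C hC hM hP hPf hTf
      · have hp : 0 < C.IP.ncard := (Set.ncard_pos hPf).2 hP
        rcases Nat.even_or_odd' C.IP.ncard with ⟨c, hc | hc⟩
        · exact nrm_c hCF hST hCL X hX C hC hM hPf hTi (c - 1) 2 (Or.inr rfl) (by omega)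
        · exact nrm_c hCF hST hCL X hX C hC hM hPf hTi c 1 (Or.inl rfl) (by omega)
    · exact nrm_d hCF hST hPA hCL X hX C hC hM hPi

end Pool.Agent.SRP
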