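import Pool.Agent.SRP.StE

set_option autoImplicit false

/-! # SRP PIECE: the part of a built set in one component of the complement -/

open Set Metric Filter Topology Pool.Agent.SRF

namespace Pool.Agent.SRP

theorem piece_closOD : closure OD = CD := closure_ball (0 : ℂ) one_ne_zero

theorem piece_OD_sub (S : Set ℂ) (hS : S ⊆ UC) : OD ⊆ CD \ S := by
  intro z hz
  refine ⟨ball_subset_closedBall hz, fun h => ?_⟩
  have h1 := hS h
  rw [mem_sphere_zero_iff_norm] at h1
  rw [mem_ball_zero_iff] at hz
  linarith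

theorem piece_clos (S : Set ℂ) (hS : S ⊆ UC) : closure (CD \ S) = CD := by
  apply Subset.antisymm
  · exact closure_minimal sdiff_subset isClosed_closedBall
  · rw [← piece_closOD]
    exact closure_mono (piece_closOD ▸ piece_OD_sub S hS)

theorem piece_preconn (S : Set ℂ) (hS : S ⊆ UC) : IsPreconnected (CD \ S) := by
  have h : IsPreconnected OD := (convex_ball (0 : ℂ) 1).isPreconnected
  refine h.subset_closure (piece_OD_sub S hS) ?_
  rw [piece_closOD]
  exact sdiff_subset

theorem thm_PIECE (hSTEP : St_STEP) (hBFR : Pool.Agent.SRF.St_BFR) (hATB : Pool.Agent.SRF.St_ATB)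
    (hARC0 : Pool.Agent.SRF.St_ARC0) (hBB : Pool.Agent.SRF.St_BB)
    (hADJ : Pool.Agent.SRF.St_ADJ) (hBCN : St_BCN) : St_PIECE := by
  intro X _ hX K K' W x u hK hx hB hW hann
  have : T2Space X := hX.t2
  obtain ⟨hUo, hUf, hUc, -⟩ := hADJ X hX K hK x hx
  set U : Set X := connectedComponentIn Kᶜ x with hU
  have hKc : IsClosed K := hK.1.isClosed
  have hUK : U ⊆ Kᶜ := connectedComponentIn_subset _ _
  have hclU : closure U = U ∪ frontier U := by
    rw [closure_eq_self_union_frontier]
  have hfK : frontier K ⊆ K := hKc.frontier_subset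
  have hKU : K ∩ closure U = frontier U := by
    ext y
    rw [hclU]
    constructor
    · rintro ⟨h1, h2 | h2⟩
      · exact absurd h1 (hUK h2)
      · exact h2
    · intro h
      exact ⟨hfK (hUf h), Or.inr h⟩
  have hfW : frontier U ⊆ W := by
    obtain ⟨q, -, -, h1, h2, -⟩ := hann
    rw [← h1, ← h2]
    refine image_mono ?_
    intro z hz
    rw [mem_sphere_zero_iff_norm] at hz
    constructor
    · rw [hz]
    · rw [hz]
      norm_num
  induction hB with
  | refl =>
    refine ⟨0, 0, 1, ?_⟩
    have h1 : W ∪ K ∩ closure U = W := by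
      rw [hKU]
      exact union_eq_self_of_subset_right hfW
    have h2 : frontier K ∩ closure U = frontier U := by
      apply Subset.antisymm
      · intro y hy
        rw [← hKU]
        exact ⟨hfK hy.1, hy.2⟩
      · intro y hy
        exact ⟨hUf hy, frontier_subset_closure hy⟩
    rw [h1, h2]
    exact (hBCN.2.2.2.2.1 X W (frontier U) u).1 hann
  | step L e S O hL hA ih =>
    obtain ⟨t, p, o, hfp⟩ := ih
    obtain ⟨hOS, hSU, -, hSne, -⟩ := hARC0 S O hA.shape
    have hLb : Bord L := (hBB X hX).2.1 K L hL hK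
    have hKL : K ⊆ L := hL.subset
    obtain ⟨hec, hei, -⟩ := hA.tile
    have hUCD : UC ⊆ CD := sphere_subset_closedBall
    have hSCD : S ⊆ CD := hSU.trans hUCD
    have hmiss : ∀ z ∈ CD \ S, e z ∉ L := by
      intro z hz hzL
      have h1 : e z ∈ e '' S := by
        rw [← hA.meet]
        exact ⟨mem_image_of_mem e hz.1, hzL⟩
      obtain ⟨w, hw, hwz⟩ := h1
      have h2 := hei (hSCD hw) hz.1 hwz
      exact hz.2 (h2 ▸ hw)
    have hpre : IsPreconnected (e '' (CD \ S)) :=
      (piece_preconn S hSU).image e (hec.mono sdiff_subset)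
    have hmK : e '' (CD \ S) ⊆ Kᶜ := by
      rintro y ⟨z, hz, rfl⟩ hy
      exact hmiss z hz (hKL hy)
    obtain ⟨hLB', hfrL⟩ := hATB X hX L e S O hLb hA
    by_cases hmeet : (e '' (CD \ S) ∩ U).Nonempty
    · -- Case 1
      obtain ⟨y, hy1, hy2⟩ := hmeet
      have hsub : e '' (CD \ S) ⊆ U := by
        have h1 := hpre.subset_connectedComponentIn hy1 hmK
        rw [hU, connectedComponentIn_eq hy2]
        exact h1
      have hcl : e '' CD ⊆ closure U := by
        have h1 : e '' closure (CD \ S) ⊆ closure (e '' (CD \ S)) := by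
          refine ContinuousOn.image_closure ?_
          rw [piece_clos S hSU]
          exact hec
        rw [piece_clos S hSU] at h1
        exact h1.trans (closure_mono hsub)
      have hbd := (hBFR X hX L hLb).2.2.2.2 e S hA.tile hSU hA.meet
      have hSeCD : e '' S ⊆ e '' CD := image_mono hSCD
      have hatt : AttTo (W ∪ (L ∩ closure U)) (frontier L ∩ closure U) e S := by
        refine ⟨hec, hei, ?_, ?_⟩
        · apply Subset.antisymm
          · rintro y ⟨hy1, hy2⟩
            rw [← hA.meet]
            refine ⟨hy1, ?_⟩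
            rcases hy2 with h | h
            · exact hKL (hW h)
            · exact h.1
          · intro y hy
            have h1 := hy
            rw [← hA.meet] at h1
            exact ⟨h1.1, Or.inr ⟨h1.2, hcl h1.1⟩⟩
        · intro y hy
          exact ⟨hbd.1 hy, hcl (hSeCD hy)⟩
      obtain ⟨t', p', o', h⟩ := hSTEP X t p o (W ∪ (L ∩ closure U)) (frontier L ∩ closure U) u e S O
        hfp hA.shape hSne hatt
      refine ⟨t', p', o', ?_⟩
      have h1 : W ∪ (L ∪ e '' CD) ∩ closure U = W ∪ (L ∩ closure U) ∪ e '' CD := by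
        rw [union_inter_distrib_right, inter_eq_self_of_subset_left hcl, union_assoc]
      have h2 : frontier (L ∪ e '' CD) ∩ closure U =
          ((frontier L ∩ closure U) ∪ e '' UC) \ e '' O := by
        rw [hfrL]
        have h3 : e '' UC ⊆ closure U := (image_mono hUCD).trans hcl
        ext y
        constructor
        · rintro ⟨⟨h4 | h4, h5⟩, h6⟩
          · exact ⟨Or.inl ⟨h4, h6⟩, h5⟩
          · exact ⟨Or.inr h4, h5⟩
        · rintro ⟨h4 | h4, h5⟩
          · exact ⟨⟨Or.inl h4.1, h5⟩, h4.2⟩
          · exact ⟨⟨Or.inr h4, h5⟩, h3 h4⟩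
      rw [h1, h2]
      exact h
    · -- Case 2
      have hdis : ∀ ζ ∈ CD, e ζ ∉ closure U := by
        intro ζ hζ hcl
        have hζO : ζ ∈ closure OD := by
          rw [piece_closOD]
          exact hζ
        -- points of the open disc near `ζ`
        have hnear : ∀ V : Set X, IsOpen V → e ζ ∈ V → ∃ w ∈ OD, e w ∈ V := by
          intro V hV hζV
          have h1 : e ⁻¹' V ∈ 𝓝[CD] ζ := (hec ζ hζ).preimage_mem_nhdsWithin (hV.mem_nhds hζV)
          have h2 : e ⁻¹' V ∈ 𝓝[OD] ζ := nhdsWithin_mono ζ ball_subset_closedBall h1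
          have h3 : (𝓝[OD] ζ).NeBot := mem_closure_iff_nhdsWithin_neBot.1 hζO
          obtain ⟨w, hw1, hw2⟩ := (h3.nonempty_of_mem (inter_mem h2 self_mem_nhdsWithin))
          exact ⟨w, hw2, hw1⟩
        have hno : ∀ w ∈ OD, e w ∉ U := by
          intro w hw hwU
          exact hmeet ⟨e w, mem_image_of_mem e (piece_OD_sub S hSU hw), hwU⟩
        have hnU : e ζ ∉ U := by
          intro h1
          obtain ⟨w, hw, hwU⟩ := hnear U hUo h1
          exact hno w hw hwU
        have hfr : e ζ ∈ frontier U := by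
          rw [hclU] at hcl
          exact hcl.resolve_left hnU
        obtain ⟨φ, hφ, hφ0, hφK⟩ := hK.2 (e ζ) (hUf hfr)
        have hφU := hUc φ hφ hφK (by rw [hφ0]; exact hcl)
        obtain ⟨w, hw, z, hz⟩ := hnear (range φ) hφ.isOpen_range (hφ0 ▸ mem_range_self 0)
        have h1 : e w ∉ K := hmK (mem_image_of_mem e (piece_OD_sub S hSU hw))
        rw [← hz, hφK z, not_le] at h1
        exact hno w hw (hz ▸ hφU (mem_image_of_mem φ h1))
      refine ⟨t, p, o, ?_⟩
      have h1 : (L ∪ e '' CD) ∩ closure U = L ∩ closure U := by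
        ext y
        constructor
        · rintro ⟨h2 | ⟨ζ, hζ, rfl⟩, h3⟩
          · exact ⟨h2, h3⟩
          · exact absurd h3 (hdis ζ hζ)
        · rintro ⟨h2, h3⟩
          exact ⟨Or.inl h2, h3⟩
      have h2 : frontier (L ∪ e '' CD) ∩ closure U = frontier L ∩ closure U := by
        rw [hfrL]
        ext y
        constructor
        · rintro ⟨⟨h2 | ⟨ζ, hζ, rfl⟩, h4⟩, h3⟩
          · exact ⟨h2, h3⟩
          · exact absurd h3 (hdis ζ (hUCD hζ))
        · rintro ⟨h2, h3⟩
          refine ⟨⟨Or.inl h2, ?_⟩, h3⟩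
          rintro ⟨ζ, hζ, rfl⟩
          exact hdis ζ (hSCD (hOS hζ)) h3
      rw [h1, h2]
      exact hfp

end Pool.Agent.SRP
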