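import Pool.Agent.SRP.StD

set_option autoImplicit false

/-! # SRP (MP_3b9597_lc), SLD: a free hole slides through a crosscap -/

namespace Pool.Agent.SRP

open Set Metric Topology Pool.Agent.SRF

/-- the antipodal inversion in the circle of radius `1/4` -/
noncomputable def sldTau (w : ℂ) : ℂ := -(1 / (16 * (starRingEnd ℂ) w))

theorem sldTau_norm (w : ℂ) : ‖sldTau w‖ = 1 / (16 * ‖w‖) := by
  simp [sldTau]

theorem sldTau_tau (w : ℂ) : sldTau (sldTau w) = w := by
  by_cases h : w = 0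
  · simp [sldTau, h]
  · have h1 : (starRingEnd ℂ) w ≠ 0 := by simpa using h
    simp only [sldTau, map_neg, map_div₀, map_one, map_mul, Complex.conj_conj, map_ofNat]
    field_simp

theorem sldTau_re (w : ℂ) : (sldTau w).re = -(w.re / (16 * ‖w‖ ^ 2)) := by
  by_cases h : w = 0
  · simp [sldTau, h]
  · have h1 : ‖w‖ ^ 2 ≠ 0 := by
      have := norm_pos_iff.2 h
      positivity
    have h2 : sldTau w = -((1 / (16 * ‖w‖ ^ 2) : ℝ) : ℂ) * w := by
      have h3 : (starRingEnd ℂ) w ≠ 0 := by simpa using h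
      have h4 : (starRingEnd ℂ) w * w = ((‖w‖ ^ 2 : ℝ) : ℂ) := by
        rw [mul_comm, Complex.mul_conj, Complex.normSq_eq_norm_sq]
      have h5 : ((‖w‖ ^ 2 : ℝ) : ℂ) ≠ 0 := by exact_mod_cast h1
      unfold sldTau
      push_cast at h4 h5 ⊢
      rw [← h4] at h5 ⊢
      field_simp
    rw [h2, neg_mul, Complex.neg_re, Complex.re_ofReal_mul]
    ring

theorem sldTau_quarter {w : ℂ} (h : ‖w‖ = 1 / 4) : sldTau w = -w := by
  have h0 : w ≠ 0 := by
    intro h0
    rw [h0, norm_zero] at h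
    norm_num at h
  have h3 : (starRingEnd ℂ) w ≠ 0 := by simpa using h0
  have h4 : (starRingEnd ℂ) w * w = ((‖w‖ ^ 2 : ℝ) : ℂ) := by
    rw [mul_comm, Complex.mul_conj, Complex.normSq_eq_norm_sq]
  rw [h] at h4
  unfold sldTau
  push_cast at h4
  have h5 : w = 1 / (16 * (starRingEnd ℂ) w) := by
    field_simp
    rw [mul_comm w, mul_comm, ← mul_assoc] at *
    linear_combination 16 * h4
  rw [← h5]

theorem sldTau_cont : ContinuousOn sldTau {w | w ≠ 0} := by
  unfold sldTau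
  refine ContinuousOn.neg (ContinuousOn.div continuousOn_const ?_ ?_)
  · exact (continuous_const.mul Complex.continuous_conj).continuousOn
  · intro w hw
    have : (starRingEnd ℂ) w ≠ 0 := by simpa using hw
    simpa using this

/-- inversion of the discs -/
theorem sldTau_ball {z : ℂ} (hz : z ≠ 0) :
    ‖sldTau z - ((875 / 9798 : ℝ) : ℂ)‖ < 25 / 19596 ↔ ‖z + ((7 / 10 : ℝ) : ℂ)‖ < 1 / 100 := by
  have hn : 0 < ‖z‖ := norm_pos_iff.2 hz
  have h1 : ‖sldTau z - ((875 / 9798 : ℝ) : ℂ)‖ * (16 * ‖z‖) =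
      ‖1 + ((7000 / 4899 : ℝ) : ℂ) * z‖ := by
    have h3 : (starRingEnd ℂ) z ≠ 0 := by simpa using hz
    have h2 : (16 * ‖z‖ : ℝ) = ‖(16 * (starRingEnd ℂ) z : ℂ)‖ := by simp
    rw [h2, ← norm_mul]
    have h4 : (sldTau z - ((875 / 9798 : ℝ) : ℂ)) * (16 * (starRingEnd ℂ) z) =
        -(starRingEnd ℂ) (1 + ((7000 / 4899 : ℝ) : ℂ) * z) := by
      simp only [sldTau, map_add, map_mul, map_one, Complex.conj_ofReal]
      push_cast
      field_simp
      ring
    rw [h4, norm_neg, Complex.norm_conj]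
  have e1 : ‖1 + ((7000 / 4899 : ℝ) : ℂ) * z‖ ^ 2 =
      1 + 2 * (7000 / 4899) * z.re + (7000 / 4899) ^ 2 * ‖z‖ ^ 2 := by
    rw [← Complex.normSq_eq_norm_sq, ← Complex.normSq_eq_norm_sq, Complex.normSq_apply,
      Complex.normSq_apply]
    simp
    ring
  have e2 : ‖z + ((7 / 10 : ℝ) : ℂ)‖ ^ 2 = ‖z‖ ^ 2 + 2 * (7 / 10) * z.re + (7 / 10) ^ 2 := by
    rw [← Complex.normSq_eq_norm_sq, ← Complex.normSq_eq_norm_sq, Complex.normSq_apply,
      Complex.normSq_apply]
    simp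
    ring
  have hk : 0 < 16 * ‖z‖ := by positivity
  constructor
  · intro h
    have h5 : ‖1 + ((7000 / 4899 : ℝ) : ℂ) * z‖ < 25 / 19596 * (16 * ‖z‖) := by
      rw [← h1]
      exact mul_lt_mul_of_pos_right h hk
    have h6 : ‖1 + ((7000 / 4899 : ℝ) : ℂ) * z‖ ^ 2 < (25 / 19596 * (16 * ‖z‖)) ^ 2 :=
      pow_lt_pow_left₀ h5 (norm_nonneg _) two_ne_zero
    rw [e1] at h6
    have h7 : ‖z + ((7 / 10 : ℝ) : ℂ)‖ ^ 2 < (1 / 100) ^ 2 := by
      rw [e2]
      nlinarith
    exact lt_of_pow_lt_pow_left₀ 2 (by norm_num) h7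
  · intro h
    have h6 : ‖z + ((7 / 10 : ℝ) : ℂ)‖ ^ 2 < (1 / 100) ^ 2 :=
      pow_lt_pow_left₀ h (norm_nonneg _) two_ne_zero
    rw [e2] at h6
    have h7 : ‖1 + ((7000 / 4899 : ℝ) : ℂ) * z‖ ^ 2 < (25 / 19596 * (16 * ‖z‖)) ^ 2 := by
      rw [e1]
      nlinarith
    have h8 := lt_of_pow_lt_pow_left₀ 2 (by positivity) h7
    rw [← h1] at h8
    exact lt_of_mul_lt_mul_right h8 hk.le

/-- the configuration: crosscap at `0`, free hole at `7/10` -/
noncomputable def sldC : Conf := (single (1 / 2) Lab.P).add (7 / 10) (1 / 50) Lab.O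

theorem sldC_I : sldC.I = {7 / 10, 0} := rfl

theorem sldC_Ok : sldC.Ok := by
  have hr0 : sldC.rad 0 = 1 / 2 := by
    simp only [sldC, Conf.add, single]
    norm_num
  have hr1 : sldC.rad (7 / 10) = 1 / 50 := by
    simp only [sldC, Conf.add]
    norm_num
  have hF : sldC.F = ∅ := rfl
  refine ⟨by rw [hF]; exact isClosed_empty, ?_, ?_, ?_, ?_, ?_, ?_, ?_⟩
  · rw [hF, empty_union, sldC_I]
    exact (Set.toFinite _).isCompact
  · rw [hF]
    exact isTotallyDisconnected_empty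
  · rw [hF]
    intro x hx
    exact absurd hx (notMem_empty x)
  · rw [sldC_I]
    rintro i (rfl | rfl)
    · rw [hr1]; norm_num
    · rw [hr0]; norm_num
  · rw [sldC_I]
    rintro i (rfl | rfl)
    · rw [hr1, abs_of_pos (by norm_num)]; norm_num
    · rw [hr0]; norm_num
  · rw [hF]
    intro i _ x hx
    exact absurd hx (notMem_empty x)
  · rw [sldC_I]
    rintro i (rfl | rfl) j (rfl | rfl) h
    · exact absurd rfl h
    · rw [hr1, hr0, abs_of_pos (by norm_num)]; norm_num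
    · rw [hr1, hr0, abs_of_neg (by norm_num)]; norm_num
    · exact absurd rfl h

theorem sldC_dom (z : ℂ) : z ∈ sldC.Dom ↔ ‖z‖ ≤ 1 ∧ 1 / 4 ≤ ‖z‖ ∧
    1 / 100 ≤ ‖z - ((7 / 10 : ℝ) : ℂ)‖ := by
  have hF : sldC.F = ∅ := rfl
  have h0 : sldC.holes 0 = ball 0 (1 / 4) := by
    simp only [sldC, Conf.holes, Conf.add, single]
    norm_num
  have h1 : sldC.holes (7 / 10) = ball ((7 / 10 : ℝ) : ℂ) (1 / 100) := by
    simp only [sldC, Conf.holes, Conf.add]
    norm_num
  rw [Conf.Dom, hF, sldC_I]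
  simp only [image_empty, empty_union, mem_sdiff, mem_closedBall, dist_zero_right, mem_iUnion,
    mem_insert_iff, mem_singleton_iff, exists_prop, not_exists, not_and]
  constructor
  · rintro ⟨h, h2⟩
    have h3 := h2 _ (Or.inl rfl)
    have h4 := h2 _ (Or.inr rfl)
    rw [h1, mem_ball, dist_eq_norm, not_lt] at h3
    rw [h0, mem_ball, dist_zero_right, not_lt] at h4
    exact ⟨h, h4, h3⟩
  · rintro ⟨h, h4, h3⟩
    refine ⟨h, ?_⟩
    rintro i (rfl | rfl)
    · rw [h1, mem_ball, dist_eq_norm, not_lt]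
      exact h3
    · rw [h0, mem_ball, dist_zero_right, not_lt]
      exact h4

theorem sldC_rel (x y : ℂ) : sldC.Rel x y ↔ x = y ∨ (‖x‖ = 1 / 4 ∧ y = -x) := by
  have hl0 : sldC.lab 0 = Lab.P := by
    simp only [sldC, Conf.add, single]
    norm_num
  have hl1 : sldC.lab (7 / 10) = Lab.O := by
    simp only [sldC, Conf.add]
    norm_num
  have hr0 : sldC.rad 0 = 1 / 2 := by
    simp only [sldC, Conf.add, single]
    norm_num
  rw [Conf.Rel, sldC_I]
  constructor
  · rintro (h | ⟨i, (rfl | rfl), h⟩)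
    · exact Or.inl h
    · rcases h with h | h
      · rw [hl1] at h
        exact absurd h.1 (by simp)
      · rw [hl1] at h
        exact absurd h.1 (by simp)
    · rcases h with h | h
      · rw [hl0] at h
        exact absurd h.1 (by simp)
      · rw [hr0] at h
        refine Or.inr ⟨?_, ?_⟩
        · have := h.2.1
          rw [mem_sphere, dist_eq_norm] at this
          simp at this
          rw [this]
          norm_num
        · simpa using h.2.2
  · rintro (h | ⟨h, h2⟩)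
    · exact Or.inl h
    · refine Or.inr ⟨0, Or.inr rfl, Or.inr ⟨hl0, ?_, ?_⟩⟩
      · rw [hr0, mem_sphere, dist_eq_norm]
        simp [h]
        norm_num
      · simpa using h2

/-- the moving homeomorphism `κ` -/
theorem sld_kappa (hKLEE : St_KLEE) : ∃ κ : ℂ ≃ₜ ℂ,
    (∀ z, z ∉ ball ((2 / 5 : ℝ) : ℂ) (33 / 100) → κ z = z) ∧
    ∀ z ∈ closedBall ((7 / 10 : ℝ) : ℂ) (1 / 100),
      κ z = ((875 / 9798 : ℝ) : ℂ) + ((1250 / 9798 : ℝ) : ℂ) * (z - ((7 / 10 : ℝ) : ℂ)) := by
  let a : ℝ := 10 / 11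
  let a' : ℝ := -(15221 / 48990) * (100 / 33)
  let C : Conf := ⟨∅, {a}, fun _ => 1 / 33, fun _ => Lab.O⟩
  let C' : Conf := ⟨∅, {a'}, fun _ => 25 / 19596 * (100 / 33), fun _ => Lab.O⟩
  have hok : ∀ (b r : ℝ), 0 < r → |b| + r < 1 →
      Conf.Ok ⟨∅, {b}, fun _ => r, fun _ => Lab.O⟩ := by
    intro b r hr hb
    refine ⟨isClosed_empty, ?_, isTotallyDisconnected_empty, ?_, ?_, ?_, ?_, ?_⟩
    · simp
    · intro x hx
      exact absurd hx (notMem_empty x)
    · intro i _
      exact hr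
    · rintro i (rfl : i = b)
      exact hb
    · intro i _ x hx
      exact absurd hx (notMem_empty x)
    · rintro i (rfl : i = b) j (rfl : j = i) h
      exact absurd rfl h
  have hC : C.Ok := hok a (1 / 33) (by norm_num) (by
    rw [abs_of_pos (by norm_num)]; norm_num)
  have hC' : C'.Ok := hok a' (25 / 19596 * (100 / 33)) (by norm_num) (by
    rw [abs_of_neg (by norm_num)]; norm_num)
  obtain ⟨Φ, h1, -, h2⟩ := hKLEE C C' (fun _ => a') hC hC' continuousOn_const (by
    intro x hx y hy _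
    rcases hx with hx | hx
    · exact absurd hx (notMem_empty x)
    rcases hy with hy | hy
    · exact absurd hy (notMem_empty y)
    exact (mem_singleton_iff.1 hx).trans (mem_singleton_iff.1 hy).symm) (by simp [C, C']) (by
    simp [C, C'])
  have h3 := h2 a rfl
  -- the affine map
  let α : ℂ ≃ₜ ℂ :=
    { toFun := fun z => ((2 / 5 : ℝ) : ℂ) + ((33 / 100 : ℝ) : ℂ) * z
      invFun := fun z => (z - ((2 / 5 : ℝ) : ℂ)) / ((33 / 100 : ℝ) : ℂ)
      left_inv := by
        intro z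
        have : ((33 / 100 : ℝ) : ℂ) ≠ 0 := by exact_mod_cast (by norm_num : (33 / 100 : ℝ) ≠ 0)
        simp only []
        field_simp
        ring
      right_inv := by
        intro z
        have : ((33 / 100 : ℝ) : ℂ) ≠ 0 := by exact_mod_cast (by norm_num : (33 / 100 : ℝ) ≠ 0)
        simp only []
        field_simp
        ring
      continuous_toFun := by fun_prop
      continuous_invFun := by fun_prop }
  have hα : ∀ z, α z = ((2 / 5 : ℝ) : ℂ) + ((33 / 100 : ℝ) : ℂ) * z := fun z => rfl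
  have hα' : ∀ z, α.symm z = (z - ((2 / 5 : ℝ) : ℂ)) / ((33 / 100 : ℝ) : ℂ) := fun z => rfl
  have h33 : ((33 / 100 : ℝ) : ℂ) ≠ 0 := by exact_mod_cast (by norm_num : (33 / 100 : ℝ) ≠ 0)
  refine ⟨(α.symm.trans Φ).trans α, ?_, ?_⟩
  · intro z hz
    have h4 : Φ (α.symm z) = α.symm z := by
      apply h1
      intro h5
      apply hz
      rw [hα', mem_ball, dist_zero_right, norm_div, Complex.norm_real, Real.norm_eq_abs,
        abs_of_pos (by norm_num : (0 : ℝ) < 33 / 100), div_lt_one (by norm_num)] at h5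
      rwa [mem_ball, dist_eq_norm]
    simp only [Homeomorph.trans_apply]
    rw [h4, Homeomorph.apply_symm_apply]
  · intro z hz
    have h4 := h3 (α.symm z) (by
      rw [hα', mem_closedBall, dist_eq_norm]
      have h5 : (z - ((2 / 5 : ℝ) : ℂ)) / ((33 / 100 : ℝ) : ℂ) - ((a : ℝ) : ℂ) =
          (z - ((7 / 10 : ℝ) : ℂ)) / ((33 / 100 : ℝ) : ℂ) := by
        simp only [a]
        push_cast
        field_simp
        ring
      rw [h5, norm_div, Complex.norm_real, Real.norm_eq_abs,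
        abs_of_pos (by norm_num : (0 : ℝ) < 33 / 100), div_le_iff₀ (by norm_num)]
      rw [mem_closedBall, dist_eq_norm] at hz
      calc ‖z - ((7 / 10 : ℝ) : ℂ)‖ ≤ 1 / 100 := hz
        _ = C.rad a * (33 / 100) := by simp only [C]; norm_num)
    simp only [Homeomorph.trans_apply]
    rw [h4, hα, hα']
    simp only [C, C', a, a']
    push_cast
    field_simp
    ring

/-- the half turn -/
theorem sld_turn (hPOL : St_POL) : ∃ κ : ℂ ≃ₜ ℂ, (∀ z, 1 ≤ ‖z‖ → κ z = z) ∧
    ∀ z, ‖z‖ ≤ 9 / 10 → κ z = -z := by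
  obtain ⟨κ, h1, h2⟩ := hPOL 0 (9 / 10) (9 / 10) 1 Real.pi (by norm_num) (by norm_num)
    (by norm_num) (by norm_num)
  refine ⟨κ, fun z hz => h1 z (by simpa using hz), fun z hz => ?_⟩
  rw [h2 z (by simpa using hz)]
  have : cexpi Real.pi = -1 := by rw [cexpi, Complex.exp_pi_mul_I]
  rw [this]
  norm_num

theorem sldTau_ne {w : ℂ} (h : w ≠ 0) : sldTau w ≠ 0 := by
  intro h1
  have h2 := sldTau_tau w
  rw [h1] at h2
  apply h
  rw [← h2]
  simp [sldTau]

/-- the right half, with a hole -/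
def sldB (c r : ℝ) : Set ℂ := {w | 1 / 16 ≤ ‖w‖ ∧ ‖w‖ ≤ 1 ∧ 0 ≤ w.re ∧ r ≤ ‖w - (c : ℂ)‖}

/-- the relation on the right half -/
def sldR (w w' : ℂ) : Prop := w = w' ∨ (w.re = 0 ∧ w' = sldTau w)

theorem sld_pos {w : ℂ} {a : ℝ} (ha : 0 < a) (h : a ≤ ‖w‖) : w ≠ 0 := by
  intro h0
  rw [h0, norm_zero] at h
  linarith

theorem sld_re_le (z : ℂ) (c : ℝ) : c - z.re ≤ ‖z - (c : ℂ)‖ := by
  have h := Complex.abs_re_le_norm (z - (c : ℂ))
  rw [Complex.sub_re, Complex.ofReal_re] at h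
  have := neg_abs_le (z.re - c)
  linarith

/-- unfolding: the presentation of `L` over the right half -/
theorem sld_unfold {X : Type} [TopologicalSpace X] {L : Set X} {q : ℂ → X} (hq : Pres sldC L q) :
    ∃ qh : ℂ → X, (∀ w, 1 / 4 ≤ ‖w‖ → qh w = q w) ∧ ContinuousOn qh (sldB (7 / 10) (1 / 100)) ∧
      qh '' sldB (7 / 10) (1 / 100) = L ∧
      (∀ w ∈ sldB (7 / 10) (1 / 100), ∀ w' ∈ sldB (7 / 10) (1 / 100),
        (qh w = qh w' ↔ sldR w w')) ∧
      ∀ z ∈ sldC.Dom, z.re ≤ 0 → qh (sldTau z) = q z := by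
  classical
  have hrel : ∀ x ∈ sldC.Dom, ∀ y ∈ sldC.Dom, (q x = q y ↔ x = y ∨ (‖x‖ = 1 / 4 ∧ y = -x)) := by
    intro x hx y hy
    rw [← sldC_rel]
    exact hq.rel x hx y hy
  -- points of the domain
  have hd1 : ∀ w ∈ sldB (7 / 10) (1 / 100), 1 / 4 ≤ ‖w‖ → w ∈ sldC.Dom := by
    intro w hw h
    exact (sldC_dom w).2 ⟨hw.2.1, h, hw.2.2.2⟩
  have hd2 : ∀ w ∈ sldB (7 / 10) (1 / 100), ‖w‖ ≤ 1 / 4 → sldTau w ∈ sldC.Dom ∧
      (sldTau w).re ≤ 0 := by
    intro w hw h
    have h0 : 0 < ‖w‖ := lt_of_lt_of_le (by norm_num) hw.1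
    have hre : (sldTau w).re ≤ 0 := by
      rw [sldTau_re]
      have : 0 ≤ w.re / (16 * ‖w‖ ^ 2) := div_nonneg hw.2.2.1 (by positivity)
      linarith
    refine ⟨(sldC_dom _).2 ⟨?_, ?_, ?_⟩, hre⟩
    · rw [sldTau_norm, div_le_one (by positivity)]
      linarith [hw.1]
    · rw [sldTau_norm, div_le_div_iff₀ (by norm_num) (by positivity)]
      linarith
    · have := sld_re_le (sldTau w) (7 / 10)
      linarith
  let qh : ℂ → X := fun w => if 1 / 4 ≤ ‖w‖ then q w else q (sldTau w)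
  have e1 : ∀ w, 1 / 4 ≤ ‖w‖ → qh w = q w := fun w h => if_pos h
  have e2 : ∀ w ∈ sldB (7 / 10) (1 / 100), ‖w‖ ≤ 1 / 4 → qh w = q (sldTau w) := by
    intro w hw h
    rcases lt_or_eq_of_le h with h1 | h1
    · exact if_neg (not_le.2 h1)
    · rw [e1 w h1.ge]
      refine (hrel w (hd1 w hw h1.ge) _ (hd2 w hw h).1).2 (Or.inr ⟨h1, sldTau_quarter h1⟩)
  refine ⟨qh, e1, ?_, ?_, ?_, ?_⟩
  · have hB : sldB (7 / 10) (1 / 100) =
        (sldB (7 / 10) (1 / 100) ∩ {w | 1 / 4 ≤ ‖w‖}) ∪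
        (sldB (7 / 10) (1 / 100) ∩ {w | ‖w‖ ≤ 1 / 4}) := by
      rw [← inter_union_distrib_left]
      refine (inter_eq_self_of_subset_left fun w _ => ?_).symm
      exact le_total (1 / 4) ‖w‖
    have hcl : IsClosed (sldB (7 / 10) (1 / 100)) := by
      refine (isClosed_le continuous_const continuous_norm).inter
        ((isClosed_le continuous_norm continuous_const).inter
        ((isClosed_le continuous_const Complex.continuous_re).inter
        (isClosed_le continuous_const (continuous_id.sub continuous_const).norm)))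
    rw [hB]
    refine ContinuousOn.union_of_isClosed ?_ ?_
      (hcl.inter (isClosed_le continuous_const continuous_norm))
      (hcl.inter (isClosed_le continuous_norm continuous_const))
    · refine (hq.cont.mono fun w hw => hd1 w hw.1 hw.2).congr fun w hw => e1 w hw.2
    · refine ContinuousOn.congr (hq.cont.comp (sldTau_cont.mono fun w hw => ?_)
        fun w hw => (hd2 w hw.1 hw.2).1) fun w hw => e2 w hw.1 hw.2
      exact sld_pos (by norm_num) hw.1.1
  · apply Subset.antisymm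
    · rintro _ ⟨w, hw, rfl⟩
      rw [← hq.image]
      rcases le_total (1 / 4) ‖w‖ with h | h
      · exact ⟨w, hd1 w hw h, (e1 w h).symm⟩
      · exact ⟨_, (hd2 w hw h).1, (e2 w hw h).symm⟩
    · rw [← hq.image]
      rintro _ ⟨z, hz, rfl⟩
      obtain ⟨h1, h2, h3⟩ := (sldC_dom z).1 hz
      rcases le_total 0 z.re with h | h
      · exact ⟨z, ⟨by linarith, h1, h, h3⟩, e1 z h2⟩
      · have h0 : 0 < ‖z‖ := lt_of_lt_of_le (by norm_num) h2
        have hn : ‖sldTau z‖ ≤ 1 / 4 := by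
          rw [sldTau_norm, div_le_div_iff₀ (by positivity) (by norm_num)]
          linarith
        have hw : sldTau z ∈ sldB (7 / 10) (1 / 100) := by
          refine ⟨?_, by linarith, ?_, ?_⟩
          · rw [sldTau_norm, div_le_div_iff₀ (by norm_num) (by positivity)]
            linarith
          · rw [sldTau_re]
            have : z.re / (16 * ‖z‖ ^ 2) ≤ 0 := div_nonpos_of_nonpos_of_nonneg h (by positivity)
            linarith
          · have h4 : ‖((7 / 10 : ℝ) : ℂ)‖ = 7 / 10 := by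
              rw [Complex.norm_real, Real.norm_eq_abs, abs_of_pos (by norm_num)]
            have h5 := norm_sub_norm_le ((7 / 10 : ℝ) : ℂ) (sldTau z)
            rw [norm_sub_rev] at h5
            linarith
        refine ⟨_, hw, ?_⟩
        rw [e2 _ hw hn, sldTau_tau]
  · intro w hw w' hw'
    have p0 : 0 < ‖w‖ := lt_of_lt_of_le (by norm_num) hw.1
    have p0' : 0 < ‖w'‖ := lt_of_lt_of_le (by norm_num) hw'.1
    rcases le_or_gt (1 / 4) ‖w‖ with h | h <;> rcases le_or_gt (1 / 4) ‖w'‖ with h' | h'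
    · rw [e1 w h, e1 w' h', hrel w (hd1 w hw h) w' (hd1 w' hw' h')]
      constructor
      · rintro (h1 | ⟨h1, h2⟩)
        · exact Or.inl h1
        · have h3 : w.re = 0 := by
            have h4 := hw'.2.2.1
            rw [h2, Complex.neg_re] at h4
            linarith [hw.2.2.1]
          exact Or.inr ⟨h3, by rw [h2, sldTau_quarter h1]⟩
      · rintro (h1 | ⟨h1, h2⟩)
        · exact Or.inl h1
        · have h3 : ‖w‖ = 1 / 4 := by
            rw [h2, sldTau_norm, div_le_div_iff₀ (by norm_num) (by positivity)] at h'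
            linarith
          exact Or.inr ⟨h3, by rw [h2, sldTau_quarter h3]⟩
    · rw [e1 w h, e2 w' hw' h'.le, hrel w (hd1 w hw h) _ (hd2 w' hw' h'.le).1]
      have h5 : 1 / 4 < ‖sldTau w'‖ := by
        rw [sldTau_norm, div_lt_div_iff₀ (by norm_num) (by positivity)]
        linarith
      constructor
      · rintro (h1 | ⟨h1, h2⟩)
        · have h3 : w.re = 0 := by
            have h4 := (hd2 w' hw' h'.le).2
            rw [← h1] at h4
            linarith [hw.2.2.1]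
          exact Or.inr ⟨h3, by rw [h1, sldTau_tau]⟩
        · rw [h2, norm_neg] at h5
          linarith
      · rintro (h1 | ⟨h1, h2⟩)
        · rw [h1] at h
          linarith
        · exact Or.inl (by rw [h2, sldTau_tau])
    · rw [e2 w hw h.le, e1 w' h', eq_comm, hrel w' (hd1 w' hw' h') _ (hd2 w hw h.le).1]
      have h5 : 1 / 4 < ‖sldTau w‖ := by
        rw [sldTau_norm, div_lt_div_iff₀ (by norm_num) (by positivity)]
        linarith
      constructor
      · rintro (h1 | ⟨h1, h2⟩)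
        · have h3 : w'.re = 0 := by
            have h4 := (hd2 w hw h.le).2
            rw [← h1] at h4
            linarith [hw'.2.2.1]
          have h6 : w.re = 0 := by
            have h7 := sldTau_re w
            rw [← h1, h3] at h7
            have h8 : w.re / (16 * ‖w‖ ^ 2) = 0 := by linarith
            rcases div_eq_zero_iff.1 h8 with h9 | h9
            · exact h9
            · exfalso
              have : 0 < 16 * ‖w‖ ^ 2 := by positivity
              linarith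
          exact Or.inr ⟨h6, h1⟩
        · rw [h2, norm_neg] at h5
          linarith
      · rintro (h1 | ⟨h1, h2⟩)
        · rw [h1] at h
          linarith
        · exact Or.inl h2
    · rw [e2 w hw h.le, e2 w' hw' h'.le, hrel _ (hd2 w hw h.le).1 _ (hd2 w' hw' h'.le).1]
      have h5 : 1 / 4 < ‖sldTau w‖ := by
        rw [sldTau_norm, div_lt_div_iff₀ (by norm_num) (by positivity)]
        linarith
      constructor
      · rintro (h1 | ⟨h1, h2⟩)
        · exact Or.inl (by rw [← sldTau_tau w, h1, sldTau_tau])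
        · linarith
      · rintro (h1 | ⟨h1, h2⟩)
        · exact Or.inl (by rw [h1])
        · rw [h2] at h'
          linarith
  · intro z hz h
    obtain ⟨h1, h2, h3⟩ := (sldC_dom z).1 hz
    have h0 : 0 < ‖z‖ := lt_of_lt_of_le (by norm_num) h2
    have hn : ‖sldTau z‖ ≤ 1 / 4 := by
      rw [sldTau_norm, div_le_div_iff₀ (by positivity) (by norm_num)]
      linarith
    have hw : sldTau z ∈ sldB (7 / 10) (1 / 100) := by
      refine ⟨?_, by linarith, ?_, ?_⟩
      · rw [sldTau_norm, div_le_div_iff₀ (by norm_num) (by positivity)]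
        linarith
      · rw [sldTau_re]
        have : z.re / (16 * ‖z‖ ^ 2) ≤ 0 := div_nonpos_of_nonpos_of_nonneg h (by positivity)
        linarith
      · have h4 : ‖((7 / 10 : ℝ) : ℂ)‖ = 7 / 10 := by
          rw [Complex.norm_real, Real.norm_eq_abs, abs_of_pos (by norm_num)]
        have h5 := norm_sub_norm_le ((7 / 10 : ℝ) : ℂ) (sldTau z)
        rw [norm_sub_rev] at h5
        linarith
    rw [e2 _ hw hn, sldTau_tau]

/-- the domain with the hole on the left -/
def sldL : Set ℂ := {z | ‖z‖ ≤ 1 ∧ 1 / 4 ≤ ‖z‖ ∧ 1 / 100 ≤ ‖z + ((7 / 10 : ℝ) : ℂ)‖}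

theorem sld_fold_right {z : ℂ} (hz : z ∈ sldL) (h : 0 ≤ z.re) :
    z ∈ sldB (875 / 9798) (25 / 19596) := by
  refine ⟨by linarith [hz.2.1], hz.1, h, ?_⟩
  have h4 : ‖((875 / 9798 : ℝ) : ℂ)‖ = 875 / 9798 := by
    rw [Complex.norm_real, Real.norm_eq_abs, abs_of_pos (by norm_num)]
  have h5 := norm_sub_norm_le z ((875 / 9798 : ℝ) : ℂ)
  have := hz.2.1
  linarith

theorem sld_fold_left {z : ℂ} (hz : z ∈ sldL) (h : z.re ≤ 0) :
    sldTau z ∈ sldB (875 / 9798) (25 / 19596) := by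
  have h0 : 0 < ‖z‖ := lt_of_lt_of_le (by norm_num) hz.2.1
  refine ⟨?_, ?_, ?_, ?_⟩
  · rw [sldTau_norm, div_le_div_iff₀ (by norm_num) (by positivity)]
    linarith [hz.1]
  · rw [sldTau_norm, div_le_one (by positivity)]
    linarith [hz.2.1]
  · rw [sldTau_re]
    have : z.re / (16 * ‖z‖ ^ 2) ≤ 0 := div_nonpos_of_nonpos_of_nonneg h (by positivity)
    linarith
  · by_contra h1
    have h2 := (sldTau_ball (norm_pos_iff.1 h0)).1 (not_le.1 h1)
    exact absurd hz.2.2 (not_le.2 h2)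

theorem sldTau_re_neg {z : ℂ} (h0 : 0 < ‖z‖) (h : z.re < 0) : 0 < (sldTau z).re := by
  rw [sldTau_re]
  have : z.re / (16 * ‖z‖ ^ 2) < 0 := div_neg_of_neg_of_pos h (by positivity)
  linarith

open Classical in
/-- the folding map -/
noncomputable def sldF (z : ℂ) : ℂ := if 0 ≤ z.re then z else sldTau z

theorem sldF_mem {z : ℂ} (hz : z ∈ sldL) : sldF z ∈ sldB (875 / 9798) (25 / 19596) := by
  unfold sldF
  split_ifs with h
  · exact sld_fold_right hz h
  · exact sld_fold_left hz (not_le.1 h).le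

theorem sldF_rel {z w : ℂ} (hz : z ∈ sldL) (hw : w ∈ sldL) :
    sldR (sldF z) (sldF w) ↔ z = w ∨ (‖z‖ = 1 / 4 ∧ w = -z) := by
  have hz0 : 0 < ‖z‖ := lt_of_lt_of_le (by norm_num) hz.2.1
  have hw0 : 0 < ‖w‖ := lt_of_lt_of_le (by norm_num) hw.2.1
  unfold sldF sldR
  split_ifs with h1 h2 h2
  · constructor
    · rintro (h | ⟨h3, h4⟩)
      · exact Or.inl h
      · have h5 : ‖z‖ = 1 / 4 := by
          have h6 := hw.2.1
          rw [h4, sldTau_norm, div_le_div_iff₀ (by norm_num) (by positivity)] at h6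
          linarith [hz.2.1]
        exact Or.inr ⟨h5, by rw [h4, sldTau_quarter h5]⟩
    · rintro (h | ⟨h3, h4⟩)
      · exact Or.inl h
      · refine Or.inr ⟨?_, by rw [h4, sldTau_quarter h3]⟩
        rw [h4, Complex.neg_re] at h2
        linarith
  · have h2' := not_le.1 h2
    constructor
    · rintro (h | ⟨h3, h4⟩)
      · have h5 : ‖w‖ = 1 / 4 := by
          have h6 := hz.2.1
          rw [h, sldTau_norm, div_le_div_iff₀ (by norm_num) (by positivity)] at h6
          linarith [hw.2.1]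
        have h7 := sldTau_quarter h5
        rw [h7] at h
        exact Or.inr ⟨by rw [h, norm_neg, h5], by rw [h, neg_neg]⟩
      · have h5 : w = z := by rw [← sldTau_tau w, h4, sldTau_tau]
        rw [h5] at h2'
        linarith
    · rintro (h | ⟨h3, h4⟩)
      · rw [h] at h1
        linarith
      · left
        have h5 : ‖w‖ = 1 / 4 := by rw [h4, norm_neg, h3]
        rw [sldTau_quarter h5, h4, neg_neg]
  · have h1' := not_le.1 h1
    have h6 := sldTau_re_neg hz0 h1'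
    constructor
    · rintro (h | ⟨h3, h4⟩)
      · have h5 : ‖z‖ = 1 / 4 := by
          have h6 := hw.2.1
          rw [← h, sldTau_norm, div_le_div_iff₀ (by norm_num) (by positivity)] at h6
          linarith [hz.2.1]
        have h7 := sldTau_quarter h5
        rw [h7] at h
        exact Or.inr ⟨h5, h.symm⟩
      · linarith
    · rintro (h | ⟨h3, h4⟩)
      · rw [← h] at h2
        linarith
      · left
        rw [sldTau_quarter h3, h4]
  · have h1' := not_le.1 h1
    have h2' := not_le.1 h2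
    have h6 := sldTau_re_neg hz0 h1'
    constructor
    · rintro (h | ⟨h3, h4⟩)
      · exact Or.inl (by rw [← sldTau_tau z, h, sldTau_tau])
      · linarith
    · rintro (h | ⟨h3, h4⟩)
      · exact Or.inl (by rw [h])
      · rw [h4, Complex.neg_re] at h2'
        linarith

/-- every point of the right half comes from the left domain, up to the relation -/
theorem sldF_surj {w : ℂ} (hw : w ∈ sldB (875 / 9798) (25 / 19596)) :
    ∃ z ∈ sldL, sldF z = w ∨ (w.re = 0 ∧ sldF z = sldTau w) := by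
  have h0 : 0 < ‖w‖ := lt_of_lt_of_le (by norm_num) hw.1
  rcases le_total (1 / 4) ‖w‖ with h | h
  · refine ⟨w, ⟨hw.2.1, h, ?_⟩, Or.inl (if_pos hw.2.2.1)⟩
    have h1 := Complex.abs_re_le_norm (w + ((7 / 10 : ℝ) : ℂ))
    rw [Complex.add_re, Complex.ofReal_re] at h1
    have h2 := le_abs_self (w.re + 7 / 10)
    have := hw.2.2.1
    linarith
  · have hz : sldTau w ∈ sldL := by
      refine ⟨?_, ?_, ?_⟩
      · rw [sldTau_norm, div_le_one (by positivity)]
        linarith [hw.1]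
      · rw [sldTau_norm, div_le_div_iff₀ (by norm_num) (by positivity)]
        linarith
      · by_contra h1
        have h2 := (sldTau_ball (z := sldTau w) (sldTau_ne (norm_pos_iff.1 h0))).2 (not_le.1 h1)
        rw [sldTau_tau] at h2
        exact absurd hw.2.2.2 (not_le.2 h2)
    refine ⟨sldTau w, hz, ?_⟩
    have hre : (sldTau w).re = -(w.re / (16 * ‖w‖ ^ 2)) := sldTau_re w
    rcases eq_or_lt_of_le hw.2.2.1 with h1 | h1
    · right
      refine ⟨h1.symm, if_pos ?_⟩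
      rw [hre, ← h1]
      simp
    · left
      unfold sldF
      rw [if_neg, sldTau_tau]
      rw [hre, not_le]
      have : 0 < w.re / (16 * ‖w‖ ^ 2) := by positivity
      linarith

/-- facts on the moving homeomorphism -/
theorem sld_kappa' {κ : ℂ ≃ₜ ℂ}
    (h1 : ∀ z, z ∉ ball ((2 / 5 : ℝ) : ℂ) (33 / 100) → κ z = z)
    (h2 : ∀ z ∈ closedBall ((7 / 10 : ℝ) : ℂ) (1 / 100),
      κ z = ((875 / 9798 : ℝ) : ℂ) + ((1250 / 9798 : ℝ) : ℂ) * (z - ((7 / 10 : ℝ) : ℂ))) :
    (∀ w, w.re = 0 → κ w = w) ∧ (∀ w, w.re = 0 → κ.symm w = w) ∧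
    (∀ w, (κ w).re = 0 → w.re = 0) ∧
    (∀ w ∈ sldB (7 / 10) (1 / 100), κ w ∈ sldB (875 / 9798) (25 / 19596)) ∧
    (∀ w ∈ sldB (875 / 9798) (25 / 19596), κ.symm w ∈ sldB (7 / 10) (1 / 100)) ∧
    (∀ w, 1 ≤ ‖w‖ ∨ ‖w‖ ≤ 1 / 16 → κ.symm w = w) := by
  have hN : ∀ w ∈ ball ((2 / 5 : ℝ) : ℂ) (33 / 100), 1 / 16 ≤ ‖w‖ ∧ ‖w‖ ≤ 1 ∧ 0 < w.re ∧
      1 / 16 < ‖w‖ ∧ ‖w‖ < 1 := by
    intro w hw
    rw [mem_ball, dist_eq_norm] at hw
    have h3 := sld_re_le w (2 / 5)
    have h4 : ‖((2 / 5 : ℝ) : ℂ)‖ = 2 / 5 := by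
      rw [Complex.norm_real, Real.norm_eq_abs, abs_of_pos (by norm_num)]
    have h5 := norm_sub_norm_le w ((2 / 5 : ℝ) : ℂ)
    have h6 := (le_abs_self _).trans (Complex.abs_re_le_norm w)
    refine ⟨by linarith, by linarith, by linarith, by linarith, by linarith⟩
  have hsymm : ∀ z, z ∉ ball ((2 / 5 : ℝ) : ℂ) (33 / 100) → κ.symm z = z := by
    intro z hz
    rw [Homeomorph.symm_apply_eq, h1 z hz]
  have hNN : ∀ z ∈ ball ((2 / 5 : ℝ) : ℂ) (33 / 100), κ z ∈ ball ((2 / 5 : ℝ) : ℂ) (33 / 100) := by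
    intro z hz
    by_contra h
    have h3 := κ.injective (h1 _ h)
    rw [h3] at h
    exact h hz
  have hNN' : ∀ z ∈ ball ((2 / 5 : ℝ) : ℂ) (33 / 100),
      κ.symm z ∈ ball ((2 / 5 : ℝ) : ℂ) (33 / 100) := by
    intro z hz
    by_contra h
    have h3 := h1 _ h
    rw [Homeomorph.apply_symm_apply] at h3
    rw [← h3] at h
    exact h hz
  have hre : ∀ w : ℂ, w.re = 0 → w ∉ ball ((2 / 5 : ℝ) : ℂ) (33 / 100) := by
    intro w hw h
    have := (hN w h).2.2.1
    linarith
  refine ⟨fun w hw => h1 w (hre w hw), fun w hw => hsymm w (hre w hw), ?_, ?_, ?_, ?_⟩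
  · intro w hw
    by_cases h : w ∈ ball ((2 / 5 : ℝ) : ℂ) (33 / 100)
    · exact absurd (hNN w h) (hre _ hw)
    · rwa [h1 w h] at hw
  · intro w hw
    have hb : 25 / 19596 ≤ ‖κ w - ((875 / 9798 : ℝ) : ℂ)‖ := by
      by_contra h
      rw [not_le] at h
      have hk : ((1250 / 9798 : ℝ) : ℂ) ≠ 0 := by
        exact_mod_cast (by norm_num : (1250 / 9798 : ℝ) ≠ 0)
      have h3 : ‖(κ w - ((875 / 9798 : ℝ) : ℂ)) / ((1250 / 9798 : ℝ) : ℂ)‖ < 1 / 100 := by
        rw [norm_div, Complex.norm_real, Real.norm_eq_abs,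
          abs_of_pos (by norm_num : (0 : ℝ) < 1250 / 9798), div_lt_iff₀ (by norm_num)]
        linarith
      have h4 := h2 (((7 / 10 : ℝ) : ℂ) + (κ w - ((875 / 9798 : ℝ) : ℂ)) /
        ((1250 / 9798 : ℝ) : ℂ)) (by
          rw [mem_closedBall, dist_eq_norm, add_sub_cancel_left]
          exact h3.le)
      rw [add_sub_cancel_left, mul_div_cancel₀ _ hk, add_sub_cancel] at h4
      have h5 := κ.injective h4
      have h6 := hw.2.2.2
      rw [← h5, add_sub_cancel_left] at h6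
      linarith
    by_cases h : w ∈ ball ((2 / 5 : ℝ) : ℂ) (33 / 100)
    · have h3 := hN _ (hNN w h)
      exact ⟨h3.1, h3.2.1, h3.2.2.1.le, hb⟩
    · rw [h1 w h] at hb ⊢
      exact ⟨hw.1, hw.2.1, hw.2.2.1, hb⟩
  · intro w hw
    have hb : 1 / 100 ≤ ‖κ.symm w - ((7 / 10 : ℝ) : ℂ)‖ := by
      by_contra h
      rw [not_le] at h
      have h4 := h2 (κ.symm w) (by rw [mem_closedBall, dist_eq_norm]; exact h.le)
      rw [Homeomorph.apply_symm_apply] at h4
      have h6 := hw.2.2.2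
      rw [h4, add_sub_cancel_left, norm_mul, Complex.norm_real, Real.norm_eq_abs,
        abs_of_pos (by norm_num : (0 : ℝ) < 1250 / 9798)] at h6
      linarith
    by_cases h : w ∈ ball ((2 / 5 : ℝ) : ℂ) (33 / 100)
    · have h3 := hN _ (hNN' w h)
      exact ⟨h3.1, h3.2.1, h3.2.2.1.le, hb⟩
    · rw [hsymm w h] at hb ⊢
      exact ⟨hw.1, hw.2.1, hw.2.2.1, hb⟩
  · intro w hw
    apply hsymm
    intro h
    have h3 := hN w h
    rcases hw with hw | hw
    · linarith
    · linarith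

/-- facts on the half turn -/
theorem sld_turn' {κ : ℂ ≃ₜ ℂ} (h1 : ∀ z, 1 ≤ ‖z‖ → κ z = z) (h2 : ∀ z, ‖z‖ ≤ 9 / 10 → κ z = -z) :
    (∀ z, ‖z‖ ≤ 9 / 10 → κ.symm z = -z) ∧ (∀ z, 1 ≤ ‖z‖ → κ.symm z = z) ∧
    (∀ z ∈ sldC.Dom, κ.symm z ∈ sldL) ∧ (∀ z ∈ sldL, κ z ∈ sldC.Dom) ∧
    (∀ z w, (z = w ∨ (‖z‖ = 1 / 4 ∧ w = -z)) ↔
      (κ.symm z = κ.symm w ∨ (‖κ.symm z‖ = 1 / 4 ∧ κ.symm w = -κ.symm z))) := by
  have s1 : ∀ z, ‖z‖ ≤ 9 / 10 → κ.symm z = -z := by
    intro z hz
    rw [Homeomorph.symm_apply_eq, h2 (-z) (by rwa [norm_neg]), neg_neg]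
  have s2 : ∀ z, 1 ≤ ‖z‖ → κ.symm z = z := by
    intro z hz
    rw [Homeomorph.symm_apply_eq, h1 z hz]
  have key : ∀ z y : ℂ, κ z = y → ‖z‖ ≤ 1 → 1 / 4 ≤ ‖z‖ → ‖y‖ ≤ 1 ∧ 1 / 4 ≤ ‖y‖ := by
    intro z y hzy hz hz4
    constructor
    · by_contra h
      rw [not_le] at h
      have h3 : κ y = y := h1 y h.le
      have h4 : y = z := κ.injective (h3.trans hzy.symm)
      rw [h4] at h
      linarith
    · by_contra h
      rw [not_le] at h
      have h3 : κ (-y) = y := by rw [h2 (-y) (by rw [norm_neg]; linarith), neg_neg]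
      have h4 : -y = z := κ.injective (h3.trans hzy.symm)
      rw [← h4, norm_neg] at hz4
      linarith
  have key' : ∀ z y : ℂ, κ z = y → ‖y‖ ≤ 1 → 1 / 4 ≤ ‖y‖ → ‖z‖ ≤ 1 ∧ 1 / 4 ≤ ‖z‖ := by
    intro z y hzy hy hy4
    constructor
    · by_contra h
      rw [not_le] at h
      rw [h1 z h.le] at hzy
      rw [← hzy] at hy
      linarith
    · by_contra h
      rw [not_le] at h
      rw [h2 z (by linarith)] at hzy
      rw [← hzy, norm_neg] at hy4
      linarith
  have h7 : ‖((7 / 10 : ℝ) : ℂ)‖ = 7 / 10 := by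
    rw [Complex.norm_real, Real.norm_eq_abs, abs_of_pos (by norm_num)]
  refine ⟨s1, s2, ?_, ?_, ?_⟩
  · intro z hz
    obtain ⟨a1, a2, a3⟩ := (sldC_dom z).1 hz
    obtain ⟨b1, b2⟩ := key' (κ.symm z) z (κ.apply_symm_apply z) a1 a2
    refine ⟨b1, b2, ?_⟩
    by_contra h
    rw [not_le] at h
    have h3 : ‖κ.symm z‖ ≤ 9 / 10 := by
      have h4 := norm_sub_norm_le (κ.symm z) (-((7 / 10 : ℝ) : ℂ))
      rw [sub_neg_eq_add, norm_neg, h7] at h4
      linarith
    have h5 := h2 _ h3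
    rw [κ.apply_symm_apply] at h5
    rw [h5] at a3
    have h6 : -κ.symm z - ((7 / 10 : ℝ) : ℂ) = -(κ.symm z + ((7 / 10 : ℝ) : ℂ)) := by ring
    rw [h6, norm_neg] at a3
    linarith
  · intro z hz
    obtain ⟨b1, b2⟩ := key z (κ z) rfl hz.1 hz.2.1
    refine (sldC_dom _).2 ⟨b1, b2, ?_⟩
    by_contra h
    rw [not_le] at h
    have h3 : ‖κ z‖ ≤ 9 / 10 := by
      have h4 := norm_sub_norm_le (κ z) ((7 / 10 : ℝ) : ℂ)
      rw [h7] at h4
      linarith
    have h5 : κ (-κ z) = κ z := by rw [h2 (-κ z) (by rwa [norm_neg]), neg_neg]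
    have h6 : -κ z = z := κ.injective h5
    have h8 := hz.2.2
    have h9 : z + ((7 / 10 : ℝ) : ℂ) = -(κ z - ((7 / 10 : ℝ) : ℂ)) := by
      rw [neg_sub, sub_eq_add_neg, h6, add_comm]
    rw [h9, norm_neg] at h8
    linarith
  · intro z w
    constructor
    · rintro (h | ⟨h, h'⟩)
      · exact Or.inl (by rw [h])
      · right
        have h3 : κ.symm z = -z := s1 z (by rw [h]; norm_num)
        have h4 : κ.symm w = -w := s1 w (by rw [h', norm_neg, h]; norm_num)
        rw [h3, h4, norm_neg]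
        exact ⟨h, by rw [h']⟩
    · rintro (h | ⟨h, h'⟩)
      · exact Or.inl (κ.symm.injective h)
      · right
        have h3 : κ (κ.symm z) = -κ.symm z := h2 _ (by rw [h]; norm_num)
        have h4 : κ (κ.symm w) = -κ.symm w := h2 _ (by rw [h', norm_neg, h]; norm_num)
        rw [κ.apply_symm_apply] at h3 h4
        refine ⟨(congrArg norm h3).trans ((norm_neg _).trans h), ?_⟩
        exact h4.trans ((congrArg (fun x => -x) h').trans (congrArg (fun x => -x) h3.symm))

/-- the angle function -/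
noncomputable def sldG (t : ℝ) : ℝ :=
  Real.pi - t + 2 * Complex.arg (((7 / 10 : ℝ) : ℂ) + ((1 / 100 : ℝ) : ℂ) * cexpi t)

theorem cexpi_add (a b : ℝ) : cexpi (a + b) = cexpi a * cexpi b := by
  rw [cexpi, cexpi, cexpi, ← Complex.exp_add]
  push_cast
  ring_nf

theorem norm_cexpi (a : ℝ) : ‖cexpi a‖ = 1 := by
  rw [cexpi, Complex.norm_exp_ofReal_mul_I]

theorem conj_cexpi (a : ℝ) : (starRingEnd ℂ) (cexpi a) = cexpi (-a) := by
  rw [cexpi, cexpi, ← Complex.exp_conj]
  simp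

theorem cexpi_zero : cexpi 0 = 1 := by simp [cexpi]

theorem sld_repos (t : ℝ) :
    69 / 100 ≤ (((7 / 10 : ℝ) : ℂ) + ((1 / 100 : ℝ) : ℂ) * cexpi t).re := by
  rw [Complex.add_re, Complex.ofReal_re, Complex.re_ofReal_mul]
  have h := (abs_le.1 ((Complex.abs_re_le_norm (cexpi t)).trans (norm_cexpi t).le)).1
  linarith

theorem sldG_deriv (t : ℝ) : HasDerivAt sldG (-1 + 2 *
    (((1 / 100 : ℝ) : ℂ) * cexpi t / (((7 / 10 : ℝ) : ℂ) + ((1 / 100 : ℝ) : ℂ) * cexpi t)).re) t := by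
  have h1 : HasDerivAt (fun s : ℝ => cexpi s) (cexpi t * Complex.I) t := by
    have h2 : HasDerivAt (fun s : ℝ => ((s : ℂ) * Complex.I)) (1 * Complex.I) t :=
      (Complex.ofRealCLM.hasDerivAt (x := t)).mul_const Complex.I
    have h3 := h2.cexp
    simpa [cexpi] using h3
  have h2 : HasDerivAt (fun s : ℝ => ((7 / 10 : ℝ) : ℂ) + ((1 / 100 : ℝ) : ℂ) * cexpi s)
      (((1 / 100 : ℝ) : ℂ) * (cexpi t * Complex.I)) t := by
    simpa using (h1.const_mul ((1 / 100 : ℝ) : ℂ)).const_add ((7 / 10 : ℝ) : ℂ)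
  have hs : ((7 / 10 : ℝ) : ℂ) + ((1 / 100 : ℝ) : ℂ) * cexpi t ∈ Complex.slitPlane := by
    left
    have := sld_repos t
    linarith
  have h3 := h2.clog_real hs
  have h4 := Complex.imCLM.hasFDerivAt.comp_hasDerivAt t h3
  have h5 : HasDerivAt (fun s : ℝ => Complex.arg (((7 / 10 : ℝ) : ℂ) +
      ((1 / 100 : ℝ) : ℂ) * cexpi s))
      (((1 / 100 : ℝ) : ℂ) * cexpi t /
        (((7 / 10 : ℝ) : ℂ) + ((1 / 100 : ℝ) : ℂ) * cexpi t)).re t := by
    have h4' : HasDerivAt (fun s : ℝ => (Complex.log (((7 / 10 : ℝ) : ℂ) +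
        ((1 / 100 : ℝ) : ℂ) * cexpi s)).im)
        (((1 / 100 : ℝ) : ℂ) * (cexpi t * Complex.I) /
          (((7 / 10 : ℝ) : ℂ) + ((1 / 100 : ℝ) : ℂ) * cexpi t)).im t := h4
    have h6 : ((1 / 100 : ℝ) : ℂ) * (cexpi t * Complex.I) /
          (((7 / 10 : ℝ) : ℂ) + ((1 / 100 : ℝ) : ℂ) * cexpi t) =
          (((1 / 100 : ℝ) : ℂ) * cexpi t /
          (((7 / 10 : ℝ) : ℂ) + ((1 / 100 : ℝ) : ℂ) * cexpi t)) * Complex.I := by ring
    simp only [Complex.log_im] at h4'
    rwa [h6, Complex.mul_I_im] at h4'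
  have h6 := ((hasDerivAt_id t).const_sub Real.pi).add (h5.const_mul 2)
  exact h6

theorem sldG_anti : StrictAnti sldG := by
  apply strictAnti_of_deriv_neg
  intro t
  rw [(sldG_deriv t).deriv]
  have h1 : ‖((1 / 100 : ℝ) : ℂ) * cexpi t /
      (((7 / 10 : ℝ) : ℂ) + ((1 / 100 : ℝ) : ℂ) * cexpi t)‖ ≤ 1 / 69 := by
    rw [norm_div, norm_mul, norm_cexpi, mul_one, Complex.norm_real, Real.norm_eq_abs,
      abs_of_pos (by norm_num : (0 : ℝ) < 1 / 100)]
    have h2 := (sld_repos t).trans ((le_abs_self _).trans (Complex.abs_re_le_norm _))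
    rw [div_le_div_iff₀ (by linarith) (by norm_num)]
    linarith
  have h2 := (le_abs_self _).trans (Complex.abs_re_le_norm (((1 / 100 : ℝ) : ℂ) * cexpi t /
      (((7 / 10 : ℝ) : ℂ) + ((1 / 100 : ℝ) : ℂ) * cexpi t)))
  linarith

theorem sldG_cont : Continuous sldG :=
  continuous_iff_continuousAt.2 fun t => (sldG_deriv t).continuousAt

/-- the reflected point is the inverse point -/
theorem sldG_eq (t : ℝ) :
    sldTau (-(((7 / 10 : ℝ) : ℂ) + ((1 / 100 : ℝ) : ℂ) * cexpi (sldG t))) =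
    ((875 / 9798 : ℝ) : ℂ) + ((25 / 19596 : ℝ) : ℂ) * cexpi t := by
  set w : ℂ := ((7 / 10 : ℝ) : ℂ) + ((1 / 100 : ℝ) : ℂ) * cexpi t with hw
  have hwre := sld_repos t
  rw [← hw] at hwre
  have hw0 : w ≠ 0 := by
    intro h
    rw [h] at hwre
    norm_num at hwre
  have hcw : (starRingEnd ℂ) w ≠ 0 := by simpa using hw0
  have h1 : cexpi (2 * w.arg) * (starRingEnd ℂ) w = w := by
    have h2 : (‖w‖ : ℂ) * cexpi w.arg = w := Complex.norm_mul_exp_arg_mul_I w
    have h3 : (starRingEnd ℂ) w = (‖w‖ : ℂ) * cexpi (-w.arg) := by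
      conv_lhs => rw [← h2]
      rw [map_mul, Complex.conj_ofReal, conj_cexpi]
    rw [h3, mul_left_comm, ← cexpi_add]
    have h4 : 2 * w.arg + -w.arg = w.arg := by ring
    rw [h4, h2]
  have h2 : cexpi (sldG t) = -(cexpi (-t) * cexpi (2 * w.arg)) := by
    have h3 : sldG t = Real.pi + (-t + 2 * w.arg) := by
      rw [sldG, ← hw]
      ring
    rw [h3, cexpi_add, cexpi_add]
    have : cexpi Real.pi = -1 := by rw [cexpi, Complex.exp_pi_mul_I]
    rw [this]
    ring
  have h3 : (starRingEnd ℂ) w = ((7 / 10 : ℝ) : ℂ) + ((1 / 100 : ℝ) : ℂ) * cexpi (-t) := by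
    rw [hw, map_add, map_mul, Complex.conj_ofReal, Complex.conj_ofReal, conj_cexpi]
  have h5 : cexpi (-t) * cexpi t = 1 := by rw [← cexpi_add, neg_add_cancel, cexpi_zero]
  have h4 : (((7 / 10 : ℝ) : ℂ) + ((1 / 100 : ℝ) : ℂ) * cexpi (sldG t)) * (starRingEnd ℂ) w =
      ((4899 / 10000 : ℝ) : ℂ) := by
    have h6 : (((7 / 10 : ℝ) : ℂ) + ((1 / 100 : ℝ) : ℂ) * cexpi (sldG t)) * (starRingEnd ℂ) w =
        ((7 / 10 : ℝ) : ℂ) * (starRingEnd ℂ) w -
          ((1 / 100 : ℝ) : ℂ) * cexpi (-t) * (cexpi (2 * w.arg) * (starRingEnd ℂ) w) := by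
      rw [h2]
      ring
    rw [h6, h1, h3, hw]
    push_cast
    linear_combination (-(1 / 10000) : ℂ) * h5
  have h6 : (starRingEnd ℂ) (((7 / 10 : ℝ) : ℂ) + ((1 / 100 : ℝ) : ℂ) * cexpi (sldG t)) * w =
      ((4899 / 10000 : ℝ) : ℂ) := by
    have h7 := congrArg (starRingEnd ℂ) h4
    rwa [map_mul, Complex.conj_conj, Complex.conj_ofReal] at h7
  have h8 : (starRingEnd ℂ) (((7 / 10 : ℝ) : ℂ) + ((1 / 100 : ℝ) : ℂ) * cexpi (sldG t)) ≠ 0 := by
    intro h
    rw [h, zero_mul] at h6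
    have : ((4899 / 10000 : ℝ) : ℂ) ≠ 0 := by exact_mod_cast (by norm_num : (4899 / 10000 : ℝ) ≠ 0)
    exact this h6.symm
  rw [sldTau, map_neg]
  set a : ℂ := (starRingEnd ℂ) (((7 / 10 : ℝ) : ℂ) + ((1 / 100 : ℝ) : ℂ) * cexpi (sldG t)) with ha
  have h9 : -(1 / (16 * -a)) = 1 / (16 * a) := by
    rw [mul_neg, div_neg, neg_neg]
  rw [h9]
  have h10 : w = ((4899 / 10000 : ℝ) : ℂ) / a := by
    rw [eq_div_iff h8, mul_comm]
    exact h6
  have h11 : ((875 / 9798 : ℝ) : ℂ) + ((25 / 19596 : ℝ) : ℂ) * cexpi t =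
      w * ((10000 / 78384 : ℝ) : ℂ) := by
    rw [hw]
    push_cast
    ring
  rw [h11, h10]
  push_cast
  field_simp
  norm_num

theorem sld_mulnorm (t : ℝ) : ‖((1 / 100 : ℝ) : ℂ) * cexpi t‖ = 1 / 100 := by
  rw [norm_mul, norm_cexpi, Complex.norm_real, Real.norm_eq_abs,
    abs_of_pos (by norm_num : (0 : ℝ) < 1 / 100), mul_one]

theorem sld_ptnorm (t : ℝ) :
    ‖((7 / 10 : ℝ) : ℂ) + ((1 / 100 : ℝ) : ℂ) * cexpi t‖ ≤ 71 / 100 := by
  have h7 : ‖((7 / 10 : ℝ) : ℂ)‖ = 7 / 10 := by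
    rw [Complex.norm_real, Real.norm_eq_abs, abs_of_pos (by norm_num)]
  have := norm_add_le ((7 / 10 : ℝ) : ℂ) (((1 / 100 : ℝ) : ℂ) * cexpi t)
  rw [sld_mulnorm, h7] at this
  linarith

theorem sld_core (hCFIN : St_CFIN) (hPOL : St_POL) (hKLEE : St_KLEE) {X : Type}
    [TopologicalSpace X] {L : Set X} {q : ℂ → X} (hq : Pres sldC L q) :
    ∃ q' : ℂ → X, Pres sldC L q' ∧ (∀ z ∈ UC, q' z = q z) ∧
      ∀ t : ℝ, q (((7 / 10 : ℝ) : ℂ) + ((1 / 100 : ℝ) : ℂ) * cexpi t) =
        q' (((7 / 10 : ℝ) : ℂ) + ((1 / 100 : ℝ) : ℂ) * cexpi (sldG t)) := by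
  obtain ⟨-, -, -, hcpt, hUC, -, -, -⟩ := hCFIN sldC sldC_Ok
  obtain ⟨qh, g1, g2, g3, g4, g5⟩ := sld_unfold hq
  obtain ⟨κ, a1, a2⟩ := sld_kappa hKLEE
  obtain ⟨b1, b2, b3, b4, b5, b6⟩ := sld_kappa' a1 a2
  obtain ⟨κ₂, c1, c2⟩ := sld_turn hPOL
  obtain ⟨d1, d2, d3, d4, d5⟩ := sld_turn' c1 c2
  have taure : ∀ v : ℂ, v.re = 0 → (sldTau v).re = 0 := by
    intro v hv
    rw [sldTau_re, hv]
    simp
  have hR : ∀ v ∈ sldB (875 / 9798) (25 / 19596), ∀ v' ∈ sldB (875 / 9798) (25 / 19596),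
      (sldR (κ.symm v) (κ.symm v') ↔ sldR v v') := by
    intro v _ v' _
    constructor
    · rintro (h | ⟨h, h'⟩)
      · exact Or.inl (κ.symm.injective h)
      · have h3 : v = κ.symm v := by
          conv_lhs => rw [← κ.apply_symm_apply v, b1 _ h]
        rw [← h3] at h h'
        refine Or.inr ⟨h, ?_⟩
        rw [Homeomorph.symm_apply_eq, b1 _ (taure v h)] at h'
        exact h'
    · rintro (h | ⟨h, h'⟩)
      · exact Or.inl (by rw [h])
      · right
        rw [b2 v h, h', b2 _ (taure v h)]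
        exact ⟨h, rfl⟩
  -- continuity over the left domain
  have hsc : IsClosed sldL := by
    refine (isClosed_le continuous_norm continuous_const).inter
      ((isClosed_le continuous_const continuous_norm).inter
      (isClosed_le continuous_const (continuous_id.add continuous_const).norm))
  have hcont : ContinuousOn (fun z => qh (κ.symm (sldF z))) sldL := by
    have hB : sldL = (sldL ∩ {z | 0 ≤ z.re}) ∪ (sldL ∩ {z | z.re ≤ 0}) := by
      rw [← inter_union_distrib_left]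
      refine (inter_eq_self_of_subset_left fun w _ => ?_).symm
      exact le_total 0 w.re
    rw [hB]
    refine ContinuousOn.union_of_isClosed ?_ ?_
      (hsc.inter (isClosed_le continuous_const Complex.continuous_re))
      (hsc.inter (isClosed_le Complex.continuous_re continuous_const))
    · refine ContinuousOn.congr (f := fun z => qh (κ.symm z))
        (g2.comp κ.symm.continuous.continuousOn fun z hz => b5 _ (sld_fold_right hz.1 hz.2)) ?_
      intro z hz
      have : sldF z = z := if_pos hz.2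
      simp only [this]
    · refine ContinuousOn.congr (f := fun z => qh (κ.symm (sldTau z)))
        (g2.comp (κ.symm.continuous.comp_continuousOn (sldTau_cont.mono fun z hz => ?_))
          fun z hz => b5 _ (sld_fold_left hz.1 hz.2)) ?_
      · exact sld_pos (by norm_num) hz.1.2.1
      · intro z hz
        by_cases h : 0 ≤ z.re
        · have h0 : z.re = 0 := le_antisymm hz.2 h
          have h1 : sldF z = z := if_pos h
          simp only [h1]
          rw [b2 z h0, b2 _ (taure z h0)]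
          have m1 := b5 _ (sld_fold_right hz.1 h)
          have m2 := b5 _ (sld_fold_left hz.1 hz.2)
          rw [b2 z h0] at m1
          rw [b2 _ (taure z h0)] at m2
          exact (g4 z m1 _ m2).2 (Or.inr ⟨h0, rfl⟩)
        · have h1 : sldF z = sldTau z := if_neg h
          simp only [h1]
  refine ⟨fun z => qh (κ.symm (sldF (κ₂.symm z))), ⟨?_, ?_, ?_, ?_⟩, ?_, ?_⟩
  · exact hcont.comp κ₂.symm.continuous.continuousOn d3
  · apply Subset.antisymm
    · rintro _ ⟨z, hz, rfl⟩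
      rw [← g3]
      exact ⟨_, b5 _ (sldF_mem (d3 z hz)), rfl⟩
    · rw [← g3]
      rintro _ ⟨w, hw, rfl⟩
      obtain ⟨z, hz, h⟩ := sldF_surj (b4 w hw)
      refine ⟨κ₂ z, d4 z hz, ?_⟩
      simp only [Homeomorph.symm_apply_apply]
      rcases h with h | ⟨h, h'⟩
      · rw [h, Homeomorph.symm_apply_apply]
      · have h0 := b3 w h
        rw [h', b1 w h0, b2 _ (taure w h0)]
        have m2 := b5 _ (sldF_mem hz)
        rw [h', b1 w h0, b2 _ (taure w h0)] at m2
        exact ((g4 w hw _ m2).2 (Or.inr ⟨h0, rfl⟩)).symm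
  · intro x hx y hy
    change qh (κ.symm (sldF (κ₂.symm x))) = qh (κ.symm (sldF (κ₂.symm y))) ↔ _
    rw [g4 _ (b5 _ (sldF_mem (d3 x hx))) _ (b5 _ (sldF_mem (d3 y hy))),
      hR _ (sldF_mem (d3 x hx)) _ (sldF_mem (d3 y hy)), sldF_rel (d3 x hx) (d3 y hy), ← d5,
      sldC_rel]
  · intro A _ _
    exact ⟨sldC.Dom, Subset.rfl, (hcpt rfl).2, fun x hx _ => hx⟩
  · intro z hz
    have hz1 : ‖z‖ = 1 := by simpa using hz
    simp only [d2 z hz1.ge]
    by_cases h : 0 ≤ z.re
    · have h1 : sldF z = z := if_pos h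
      rw [h1, b6 z (Or.inl hz1.ge)]
      exact g1 z (by rw [hz1]; norm_num)
    · have h1 : sldF z = sldTau z := if_neg h
      rw [h1, b6 _ (Or.inr (by rw [sldTau_norm, hz1]; norm_num))]
      exact g5 z (hUC hz) (not_le.1 h).le
  · intro t
    have h0 := sld_ptnorm (sldG t)
    have hre := sld_repos (sldG t)
    simp only [d1 _ (h0.trans (by norm_num))]
    have h1 : sldF (-(((7 / 10 : ℝ) : ℂ) + ((1 / 100 : ℝ) : ℂ) * cexpi (sldG t))) =
        sldTau (-(((7 / 10 : ℝ) : ℂ) + ((1 / 100 : ℝ) : ℂ) * cexpi (sldG t))) := by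
      refine if_neg ?_
      rw [Complex.neg_re]
      linarith
    rw [h1, sldG_eq]
    have h2 := a2 (((7 / 10 : ℝ) : ℂ) + ((1 / 100 : ℝ) : ℂ) * cexpi t) (by
      rw [mem_closedBall, dist_eq_norm, add_sub_cancel_left, sld_mulnorm])
    have h3 : κ.symm (((875 / 9798 : ℝ) : ℂ) + ((25 / 19596 : ℝ) : ℂ) * cexpi t) =
        ((7 / 10 : ℝ) : ℂ) + ((1 / 100 : ℝ) : ℂ) * cexpi t := by
      rw [Homeomorph.symm_apply_eq, h2]
      push_cast
      ring
    rw [h3]
    refine (g1 _ ?_).symm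
    have := (sld_repos t).trans ((le_abs_self _).trans (Complex.abs_re_le_norm _))
    linarith

theorem slC_Ok : slC.Ok := by
  have hF : slC.F = ∅ := rfl
  have hI : slC.I = {-(1 / 2), 1 / 2} := rfl
  have hr : ∀ x, slC.rad x = 1 / 4 := fun x => rfl
  refine ⟨by rw [hF]; exact isClosed_empty, ?_, ?_, ?_, ?_, ?_, ?_, ?_⟩
  · rw [hF, empty_union, hI]
    exact (Set.toFinite _).isCompact
  · rw [hF]
    exact isTotallyDisconnected_empty
  · rw [hF]
    intro x hx
    exact absurd hx (notMem_empty x)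
  · intro i _
    rw [hr]
    norm_num
  · rw [hI]
    rintro i (rfl | rfl)
    · rw [hr, abs_neg, abs_of_pos (by norm_num)]; norm_num
    · rw [hr, abs_of_pos (by norm_num)]; norm_num
  · rw [hF]
    intro i _ x hx
    exact absurd hx (notMem_empty x)
  · rw [hI]
    rintro i (rfl | rfl) j (rfl | rfl) h
    · exact absurd rfl h
    · rw [hr, hr, abs_of_neg (by norm_num)]; norm_num
    · rw [hr, hr, abs_of_pos (by norm_num)]; norm_num
    · exact absurd rfl h

theorem sld_cnt (l : Lab) : sldC.cnt l = slC.cnt l := by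
  have hl0 : sldC.lab 0 = Lab.P := by
    simp only [sldC, Conf.add, single]
    norm_num
  have hl1 : sldC.lab (7 / 10) = Lab.O := by
    simp only [sldC, Conf.add]
    norm_num
  have hk0 : slC.lab (-(1 / 2)) = Lab.P := by
    simp only [slC]
    norm_num
  have hk1 : slC.lab (1 / 2) = Lab.O := by
    simp only [slC]
    norm_num
  have hI : slC.I = {-(1 / 2), 1 / 2} := rfl
  have key : ∀ (C : Conf) (a b : ℝ), a ≠ b → (∀ i, i ∈ C.I ↔ i = a ∨ i = b) →
      C.lab a = Lab.P → C.lab b = Lab.O →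
      C.cnt l = (if l matches Lab.T then 0 else 1) := by
    intro C a b hab hI ha hb
    rw [Conf.cnt]
    cases l
    · have : {i ∈ C.I | C.lab i = Lab.T} = ∅ := by
        ext i
        constructor
        · rintro ⟨h, h'⟩
          rcases (hI i).1 h with rfl | rfl
          · rw [ha] at h'
            cases h'
          · rw [hb] at h'
            cases h'
        · intro h
          exact absurd h (notMem_empty i)
      rw [this]
      simp
    · have : {i ∈ C.I | C.lab i = Lab.P} = {a} := by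
        ext i
        constructor
        · rintro ⟨h, h'⟩
          rcases (hI i).1 h with rfl | rfl
          · rfl
          · rw [hb] at h'
            cases h'
        · rintro rfl
          exact ⟨(hI _).2 (Or.inl rfl), ha⟩
      rw [this]
      simp
    · have : {i ∈ C.I | C.lab i = Lab.O} = {b} := by
        ext i
        constructor
        · rintro ⟨h, h'⟩
          rcases (hI i).1 h with rfl | rfl
          · rw [ha] at h'
            cases h'
          · rfl
        · rintro rfl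
          exact ⟨(hI _).2 (Or.inr rfl), hb⟩
      rw [this]
      simp
  rw [key sldC 0 (7 / 10) (by norm_num) (fun i => by
      rw [sldC_I]
      exact or_comm) hl0 hl1,
    key slC (-(1 / 2)) (1 / 2) (by norm_num) (fun i => by
      rw [hI]
      exact Iff.rfl) hk0 hk1]

theorem thm_SLD (hCFIN : St_CFIN) (_hCCONG : St_CCONG) (hPOL : St_POL) (hKLEE : St_KLEE)
    (hFREE : St_FREE) (_hUNI : St_UNI) (_hMEX : St_MEX) : St_SLD := by
  intro X _ _ L q hq
  have hne : (-(1 / 2) : ℝ) ≠ 1 / 2 := by norm_num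
  have hne' : (0 : ℝ) ≠ 7 / 10 := by norm_num
  have hl0 : sldC.lab 0 = Lab.P := by
    simp only [sldC, Conf.add, single]
    norm_num
  have hl1 : sldC.lab (7 / 10) = Lab.O := by
    simp only [sldC, Conf.add]
    norm_num
  have hk0 : slC.lab (-(1 / 2)) = Lab.P := by
    simp only [slC]
    norm_num
  have hk1 : slC.lab (1 / 2) = Lab.O := by
    simp only [slC]
    norm_num
  obtain ⟨Φ, f1, f2, f3, -, f5⟩ := hFREE.2 slC sldC slC_Ok sldC_Ok rfl rfl sld_cnt 2
    ![-(1 / 2), 1 / 2] ![0, 7 / 10] (by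
      intro a b h
      fin_cases a <;> fin_cases b
      · rfl
      · exact absurd h hne
      · exact absurd h.symm hne
      · rfl) (by
      intro a b h
      fin_cases a <;> fin_cases b
      · rfl
      · exact absurd h hne'
      · exact absurd h.symm hne'
      · rfl) (by
      intro k
      fin_cases k
      · exact ⟨Or.inl rfl, Or.inr rfl, hl0.trans hk0.symm⟩
      · exact ⟨Or.inr rfl, Or.inl rfl, hl1.trans hk1.symm⟩)
  obtain ⟨q₂', p1, p2, p3⟩ := sld_core hCFIN hPOL hKLEE (f5 X L q hq)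
  have hp := f5 X L q hq
  have hmem : ∀ x ∈ slC.Dom, Φ x ∈ sldC.Dom := fun x hx => f3 ▸ mem_image_of_mem Φ hx
  have hpt : ∀ s : ℝ, Φ (1 / 2 + 1 / 8 * cexpi s) =
      ((7 / 10 : ℝ) : ℂ) + ((1 / 100 : ℝ) : ℂ) * cexpi s := by
    intro s
    have h1 := f2 1 (1 / 2 + 1 / 8 * cexpi s) (by
      have h2 : ((![-(1 / 2), 1 / 2] : Fin 2 → ℝ) 1 : ℝ) = 1 / 2 := rfl
      rw [h2, mem_closedBall, dist_eq_norm]
      have h3 : (1 / 2 + 1 / 8 * cexpi s : ℂ) - ((1 / 2 : ℝ) : ℂ) =
          ((1 / 8 : ℝ) : ℂ) * cexpi s := by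
        push_cast
        ring
      rw [h3, norm_mul, norm_cexpi, Complex.norm_real, Real.norm_eq_abs,
        abs_of_pos (by norm_num : (0 : ℝ) < 1 / 8)]
      have h4 : slC.rad (1 / 2) = 1 / 4 := rfl
      rw [h4]
      norm_num)
    have h2 : ((![-(1 / 2), 1 / 2] : Fin 2 → ℝ) 1 : ℝ) = 1 / 2 := rfl
    have h3 : ((![0, 7 / 10] : Fin 2 → ℝ) 1 : ℝ) = 7 / 10 := rfl
    have h4 : slC.rad (1 / 2) = 1 / 4 := rfl
    have h5 : sldC.rad (7 / 10) = 1 / 50 := by
      simp only [sldC, Conf.add]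
      norm_num
    rw [h2, h3, h4, h5] at h1
    rw [h1]
    push_cast
    ring
  refine ⟨fun z => q₂' (Φ z), sldG, ⟨?_, ?_, ?_, ?_⟩, ?_, sldG_cont, sldG_anti, ?_⟩
  · exact p1.cont.comp Φ.continuous.continuousOn hmem
  · rw [← p1.image, ← f3, image_image]
  · intro x hx y hy
    change q₂' (Φ x) = q₂' (Φ y) ↔ _
    rw [p1.rel _ (hmem x hx) _ (hmem y hy), ← hp.rel _ (hmem x hx) _ (hmem y hy)]
    simp only [Homeomorph.symm_apply_apply]
    exact hq.rel x hx y hy
  · intro A _ _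
    exact ⟨slC.Dom, Subset.rfl, ((hCFIN slC slC_Ok).2.2.2.1 rfl).2, fun x hx _ => hx⟩
  · intro z hz
    have h1 : z ∉ OD := by
      simp only [mem_ball, dist_zero_right, not_lt]
      have : ‖z‖ = 1 := by simpa using hz
      exact this.ge
    have h2 : Φ z = z := f1 z h1
    simp only [h2]
    rw [p2 z hz]
    congr 1
    rw [Homeomorph.symm_apply_eq, h2]
  · intro t
    simp only [hpt]
    rw [← p3 t, ← hpt t]
    simp only [Homeomorph.symm_apply_apply]

end Pool.Agent.SRP
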