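import Pool.Agent.SRP.StE
import Pool.Agent.SRP.CUT

set_option autoImplicit false

/-! # SRP STG: from one stage of the exhaustion to the next -/

open Set Metric Filter Topology Pool.Agent.SRF

namespace Pool.Agent.SRP

/-! ## The slot of a free hole -/

theorem stg_slot_I (C : Conf) (hC : C.Ok) (j : ℝ) (hj : j ∈ C.I) :
    (C.slot j (C.rad j)).I = {0} := by
  have hs := hC.pos j hj
  ext x
  constructor
  · rintro ⟨hx1, hx2⟩
    by_contra hne
    have hne' : x ≠ 0 := hne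
    have h1 : j ≠ j + C.rad j * x := by
      intro h
      have h0 : C.rad j * x = 0 := by linarith
      rcases mul_eq_zero.1 h0 with h | h
      · exact hs.ne' h
      · exact hne' h
    have h2 := hC.apart j hj _ hx1 h1
    have h3 : |j - (j + C.rad j * x)| = C.rad j * |x| := by
      rw [show j - (j + C.rad j * x) = -(C.rad j * x) by ring, abs_neg, abs_mul, abs_of_pos hs]
    have h4 := hC.pos _ hx1
    rw [h3] at h2
    nlinarith
  · intro hx
    have hx0 : x = 0 := hx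
    subst hx0
    refine ⟨?_, by simp⟩
    rw [mul_zero, add_zero]
    exact hj

theorem stg_slot_lab (C : Conf) (j : ℝ) (hl : C.lab j = Lab.O) :
    (C.slot j (C.rad j)).lab 0 = Lab.O := by
  change C.lab (j + C.rad j * 0) = Lab.O
  rw [mul_zero, add_zero, hl]

theorem stg_slot_Dom (C : Conf) (hC : C.Ok) (j : ℝ) (hj : j ∈ C.I) (hl : C.lab j = Lab.O) :
    (C.slot j (C.rad j)).Dom = {z : ℂ | 1 / 2 ≤ ‖z‖ ∧ ‖z‖ ≤ 1} := by
  have hs := hC.pos j hj
  have h0 : (C.slot j (C.rad j)).holes 0 = ball (0 : ℂ) (1 / 2) := by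
    have e2 : (C.slot j (C.rad j)).rad 0 = 1 := by
      change C.rad (j + C.rad j * 0) / C.rad j = 1
      rw [mul_zero, add_zero, div_self hs.ne']
    unfold Conf.holes
    rw [stg_slot_lab C j hl, e2, Complex.ofReal_zero]
  have h1 : (C.slot j (C.rad j)).F = ∅ := rfl
  unfold Conf.Dom
  rw [stg_slot_I C hC j hj, h1, image_empty, empty_union, biUnion_singleton, h0]
  ext z
  rw [Set.mem_sdiff, mem_closedBall, mem_ball, dist_zero_right, Set.mem_ofPred_eq, not_lt]
  exact and_comm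

theorem stg_slot_Rel (C : Conf) (hC : C.Ok) (j : ℝ) (hj : j ∈ C.I) (hl : C.lab j = Lab.O)
    (x y : ℂ) : (C.slot j (C.rad j)).Rel x y ↔ x = y := by
  constructor
  · rintro (h | ⟨i, hi, h⟩)
    · exact h
    · rw [stg_slot_I C hC j hj] at hi
      have hi0 : i = 0 := hi
      subst hi0
      rw [stg_slot_lab C j hl] at h
      rcases h with ⟨h, -⟩ | ⟨h, -⟩
      · exact absurd h (by simp)
      · exact absurd h (by simp)
  · intro h
    exact Or.inl h

theorem stg_aff_sphere (c s b ρ : ℝ) (hs : 0 < s) :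
    (fun z : ℂ => (c : ℂ) + s * z) '' sphere (b : ℂ) ρ = sphere ((c + s * b : ℝ) : ℂ) (s * ρ) := by
  have hsc : (s : ℂ) ≠ 0 := by exact_mod_cast hs.ne'
  ext w
  constructor
  · rintro ⟨z, hz, rfl⟩
    exact (cut_mem_sphere c s hs z _ b _ ρ rfl rfl).2 hz
  · intro hw
    have h1 : (c : ℂ) + s * ((w - c) / s) = w := by field_simp; ring
    refine ⟨(w - c) / s, ?_, h1⟩
    rw [← cut_mem_sphere c s hs _ (c + s * b) b (s * ρ) ρ rfl rfl, h1]
    exact hw

theorem stg_aff_sphere0 (j s : ℝ) (hs : 0 < s) :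
    (fun z : ℂ => (j : ℂ) + s * z) '' sphere (0 : ℂ) (1 / 2) = sphere (j : ℂ) (s / 2) := by
  have h := stg_aff_sphere j s 0 (1 / 2) hs
  rw [mul_zero, add_zero, Complex.ofReal_zero] at h
  rw [h]
  congr 1
  ring

/-- The free circles lie in the domain. -/
theorem stg_circle_Dom (C : Conf) (hC : C.Ok) (j : ℝ) (hj : j ∈ C.I) (hl : C.lab j = Lab.O)
    (hS : C.Slot j (C.rad j)) : sphere (j : ℂ) (C.rad j / 2) ⊆ C.Dom := by
  have hs := hC.pos j hj
  rw [← stg_aff_sphere0 j (C.rad j) hs]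
  rintro _ ⟨z, hz, rfl⟩
  have hz' : ‖z‖ = 1 / 2 := by simpa using hz
  refine (cut_mem_Dom C hC.pos j (C.rad j) hS z ?_).1 ?_
  · rw [mem_closedBall, dist_zero_right, hz']
    norm_num
  · rw [stg_slot_Dom C hC j hj hl]
    exact ⟨hz'.ge, by rw [hz']; norm_num⟩

theorem stg_circle_sub (j r : ℝ) (hr : 0 < r) :
    sphere (j : ℂ) (r / 2) ⊆ closedBall (j : ℂ) r := by
  intro z hz
  rw [mem_sphere] at hz
  rw [mem_closedBall, hz]
  linarith

variable {X : Type} [TopologicalSpace X]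

theorem stg_ann [T2Space X] (hCUT : St_CUT) (hBCN : St_BCN) (C : Conf) (hC : C.Ok) (L : Set X)
    (q : ℂ → X) (hq : Pres C L q) (j : ℝ) (hj : j ∈ C.I) (hl : C.lab j = Lab.O)
    (hS : C.Slot j (C.rad j)) :
    IsAnn (q '' (C.Dom ∩ closedBall (j : ℂ) (C.rad j))) (q '' sphere (j : ℂ) (C.rad j / 2))
      (fun z => q (j + C.rad j * z)) := by
  have hs := hC.pos j hj
  obtain ⟨hP, -, -⟩ := hCUT X C hC L q hq j (C.rad j) hS
  obtain ⟨h1, h2, h3, -⟩ := hP
  rw [stg_slot_Dom C hC j hj hl] at h1 h2 h3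
  have hinj : InjOn (fun z => q (j + C.rad j * z)) {z : ℂ | 1 / 2 ≤ ‖z‖ ∧ ‖z‖ ≤ 1} := by
    intro x hx y hy hxy
    exact (stg_slot_Rel C hC j hj hl x y).1 ((h3 x hx y hy).1 hxy)
  have h := hBCN.2.2.2.2.2 X (fun z => q (j + C.rad j * z)) h1 hinj
  rw [h2] at h
  have h4 : (fun z : ℂ => q (j + C.rad j * z)) '' sphere 0 (1 / 2) =
      q '' sphere (j : ℂ) (C.rad j / 2) := by
    rw [← stg_aff_sphere0 j (C.rad j) hs, image_image]
  rw [h4] at h
  exact h

theorem stg_balls (C : Conf) (hC : C.Ok) (j k : ℝ) (hj : j ∈ C.I) (hk : k ∈ C.I) (hjk : j ≠ k)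
    (z : ℂ) (hz : z ∈ closedBall (j : ℂ) (C.rad j)) : z ∉ closedBall (k : ℂ) (C.rad k) := by
  intro hz'
  have h1 := hC.apart j hj k hk hjk
  rw [mem_closedBall, dist_comm] at hz
  rw [mem_closedBall] at hz'
  have h2 : dist (j : ℂ) (k : ℂ) = |j - k| := by
    rw [dist_eq_norm, ← Complex.ofReal_sub, Complex.norm_real, Real.norm_eq_abs]
  have h3 := dist_triangle (j : ℂ) z (k : ℂ)
  rw [h2] at h3
  linarith

theorem stg_W_disj (C : Conf) (hC : C.Ok) (L : Set X) (q : ℂ → X) (hq : Pres C L q) (j k : ℝ)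
    (hj : j ∈ C.I) (hk : k ∈ C.I) (hjk : j ≠ k) (hS : C.Slot k (C.rad k)) :
    Disjoint (q '' (C.Dom ∩ closedBall (j : ℂ) (C.rad j)))
      (q '' (C.Dom ∩ closedBall (k : ℂ) (C.rad k))) := by
  rw [Set.disjoint_left]
  rintro _ ⟨x, ⟨hx1, hx2⟩, rfl⟩ ⟨y, ⟨hy1, hy2⟩, hxy⟩
  have h1 : C.Rel y x := (hq.rel y hy1 x hx1).1 hxy
  have h2 : x ∉ closedBall (k : ℂ) (C.rad k) := stg_balls C hC j k hj hk hjk x hx2
  have h3 : y = x := cut_rel_eq C hC.pos k (C.rad k) hS y x hy2
    (fun h => h2 (ball_subset_closedBall h)) h1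
  rw [h3] at hy2
  exact h2 hy2

/-! ## Components of the complement -/

theorem stg_neg_conn : IsPreconnected {z : ℂ | z.im < 0} :=
  (convex_halfSpace_im_lt 0).isPreconnected

theorem stg_comp (K : Set X) (hK : Bord K) (p : X) (hp : p ∈ frontier K) :
    ∃ x, x ∉ K ∧ p ∈ closure (connectedComponentIn Kᶜ x) := by
  obtain ⟨φ, hφ, h0, hφK⟩ := hK.2 p hp
  have hx : φ (-Complex.I) ∉ K := by
    rw [hφK]
    simp
  refine ⟨φ (-Complex.I), hx, ?_⟩
  have h1 : φ '' {z : ℂ | z.im < 0} ⊆ connectedComponentIn Kᶜ (φ (-Complex.I)) := by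
    refine IsPreconnected.subset_connectedComponentIn
      (stg_neg_conn.image φ hφ.continuous.continuousOn) (mem_image_of_mem φ (by simp)) ?_
    rintro _ ⟨z, hz, rfl⟩ hzK
    exact absurd ((hφK z).1 hzK) (not_le.2 hz)
  refine closure_mono h1 ?_
  refine image_closure_subset_closure_image hφ.continuous ⟨0, ?_, h0⟩
  rw [Complex.closure_setOfPred_im_lt]
  simp

theorem stg_comp_eq (hADJ : Pool.Agent.SRF.St_ADJ) (hX : IsSurf X) (K : Set X) (hK : Bord K)
    (x y p : X) (hx : x ∉ K) (hy : y ∉ K) (hp : p ∈ frontier K)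
    (hpx : p ∈ closure (connectedComponentIn Kᶜ x))
    (hpy : p ∈ closure (connectedComponentIn Kᶜ y)) :
    connectedComponentIn Kᶜ x = connectedComponentIn Kᶜ y := by
  obtain ⟨φ, hφ, h0, hφK⟩ := hK.2 p hp
  have h1 := (hADJ X hX K hK x hx).2.2.1 φ hφ hφK (by rw [h0]; exact hpx)
  have h2 := (hADJ X hX K hK y hy).2.2.1 φ hφ hφK (by rw [h0]; exact hpy)
  have h3 : φ (-Complex.I) ∈ φ '' {z : ℂ | z.im < 0} := mem_image_of_mem φ (by simp)
  rw [connectedComponentIn_eq (h1 h3), connectedComponentIn_eq (h2 h3)]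

/-- The components of the complement and the circles of the frontier. -/
theorem stg_circles (hADJ : Pool.Agent.SRF.St_ADJ) (hX : IsSurf X) (K : Set X) (hK : Bord K)
    (hfr : ∀ x, x ∉ K → IsConnected (frontier (connectedComponentIn Kᶜ x)))
    (J : Set ℝ) (c : ℝ → Set X) (hc : frontier K = ⋃ j ∈ J, c j)
    (hcc : ∀ j ∈ J, IsConnected (c j)) (hcd : ∀ j ∈ J, ∀ k ∈ J, j ≠ k → Disjoint (c j) (c k))
    (hone : ∀ T ⊆ frontier K, T.Nonempty → IsPreconnected T → ∃ i ∈ J, T ⊆ c i) :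
    (∀ j ∈ J, ∃ x, x ∉ K ∧ frontier (connectedComponentIn Kᶜ x) = c j) ∧
    (∀ x, x ∉ K → ∃ j ∈ J, frontier (connectedComponentIn Kᶜ x) = c j) := by
  have hcs : ∀ j ∈ J, c j ⊆ frontier K := by
    intro j hj
    rw [hc]
    exact subset_biUnion_of_mem (u := c) hj
  have h2 : ∀ x, x ∉ K → ∃ j ∈ J, frontier (connectedComponentIn Kᶜ x) = c j := by
    intro x hx
    obtain ⟨-, hsub, -, h4⟩ := hADJ X hX K hK x hx
    obtain ⟨i, hi, hTi⟩ := hone _ hsub (hfr x hx).nonempty (hfr x hx).isPreconnected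
    refine ⟨i, hi, subset_antisymm hTi ?_⟩
    rcases h4 (c i) (hcs i hi) (hcc i hi).isPreconnected with h | h
    · exact h
    · exfalso
      obtain ⟨p, hp⟩ := (hfr x hx).nonempty
      exact (Set.disjoint_left.1 h) (hTi hp) (frontier_subset_closure hp)
  refine ⟨?_, h2⟩
  intro j hj
  obtain ⟨p, hp⟩ := (hcc j hj).nonempty
  obtain ⟨x, hx, hpx⟩ := stg_comp K hK p (hcs j hj hp)
  refine ⟨x, hx, ?_⟩
  obtain ⟨i, hi, hxi⟩ := h2 x hx
  rcases (hADJ X hX K hK x hx).2.2.2 (c j) (hcs j hj) (hcc j hj).isPreconnected with h | h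
  · rw [hxi] at h
    by_cases hij : i = j
    · rw [hxi, hij]
    · exact absurd hp ((Set.disjoint_left.1 (hcd i hi j hj hij)) (h hp))
  · exact absurd hpx ((Set.disjoint_left.1 h) hp)

/-- STG. -/
theorem thm_STG (hCFIN : St_CFIN) (hCCONG : St_CCONG) (hREF : St_REF) (hCUT : St_CUT)
    (hPASTE : St_PASTE) (hBCN : St_BCN) (hCOL : St_COL) (hPIECE : St_PIECE)
    (_hBFR : Pool.Agent.SRF.St_BFR) (hADJ : Pool.Agent.SRF.St_ADJ) : St_STG := by
  intro X _ hX hconn e K K' C q he heK hK hSt hfr hKK' hKint hK'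
  classical
  have := hX.t2
  obtain ⟨hC, hF, hq, hcirc, hbd⟩ := hSt
  -- the free holes
  let J : Set ℝ := {j ∈ C.I | C.lab j = Lab.O}
  let W : ℝ → Set X := fun j => q '' (C.Dom ∩ closedBall (j : ℂ) (C.rad j))
  let c : ℝ → Set X := fun j => q '' sphere (j : ℂ) (C.rad j / 2)
  have hJI : J ⊆ C.I := fun j hj => hj.1
  have hJfin : J.Finite := ((hCFIN C hC).2.2.2.1 hF).1.subset hJI
  have hslot : ∀ j ∈ J, C.Slot j (C.rad j) :=
    (hREF C hC J hJI (fun _ => C) (fun _ _ => ⟨hC, hF⟩)).2.1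
  have hLK : K \ e '' OD ⊆ K := sdiff_subset
  have hWK : ∀ j, W j ⊆ K \ e '' OD := by
    intro j
    rw [← hq.image]
    exact image_mono inter_subset_left
  have hcW : ∀ j ∈ J, c j ⊆ W j := by
    intro j hj
    refine image_mono (subset_inter (stg_circle_Dom C hC j hj.1 hj.2 (hslot j hj)) ?_)
    exact stg_circle_sub j (C.rad j) (hC.pos j hj.1)
  have hWd : ∀ j ∈ J, ∀ k ∈ J, j ≠ k → Disjoint (W j) (W k) := fun j hj k hk hjk =>
    stg_W_disj C hC _ q hq j k hj.1 hk.1 hjk (hslot k hk)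
  have hcf : frontier K = ⋃ j ∈ J, c j := by
    rw [← hbd]
    exact image_iUnion₂ q _
  have hcc : ∀ j ∈ J, IsConnected (c j) := by
    intro j hj
    have hrank : 1 < Module.rank ℝ ℂ := by
      rw [Complex.rank_real_complex]
      exact Nat.one_lt_ofNat
    exact (isConnected_sphere hrank (j : ℂ) (by linarith [hC.pos j hj.1])).image q
      (hq.cont.mono (stg_circle_Dom C hC j hj.1 hj.2 (hslot j hj)))
  have hcd : ∀ j ∈ J, ∀ k ∈ J, j ≠ k → Disjoint (c j) (c k) := fun j hj k hk hjk =>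
    (hWd j hj k hk hjk).mono (hcW j hj) (hcW k hk)
  have hone : ∀ T ⊆ frontier K, T.Nonempty → IsPreconnected T → ∃ i ∈ J, T ⊆ c i := by
    intro T hT hTn hTc
    rw [← hbd] at hT
    obtain ⟨i, hi, hil, hTi⟩ := (hBCN.1 X C _ q hC hF hq).2 T hT hTn hTc
    exact ⟨i, ⟨hi, hil⟩, hTi⟩
  obtain ⟨hcomp1, hcomp2⟩ := stg_circles hADJ hX K hK hfr J c hcf hcc hcd hone
  -- choice of the components
  obtain ⟨x0⟩ : Nonempty X := hconn.toNonempty
  have hchx : ∀ j : ℝ, ∃ x : X, j ∈ J →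
      x ∉ K ∧ frontier (connectedComponentIn Kᶜ x) = c j := by
    intro j
    by_cases hj : j ∈ J
    · obtain ⟨x, hx⟩ := hcomp1 j hj
      exact ⟨x, fun _ => hx⟩
    · exact ⟨x0, fun h => absurd h hj⟩
  choose x hx using hchx
  let U : ℝ → Set X := fun j => connectedComponentIn Kᶜ (x j)
  have hUK : ∀ j, ∀ y ∈ U j, y ∉ K := fun j y hy => connectedComponentIn_subset Kᶜ (x j) hy
  have hUo : ∀ j ∈ J, IsOpen (U j) := fun j hj => (hADJ X hX K hK (x j) (hx j hj).1).1
  have hUf : ∀ j ∈ J, frontier (U j) = c j := fun j hj => (hx j hj).2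
  have hUc : ∀ j ∈ J, closure (U j) = U j ∪ c j := by
    intro j hj
    rw [closure_eq_self_union_frontier, hUf j hj]
  have hcK : ∀ j ∈ J, c j ⊆ K := fun j hj => (hcW j hj).trans ((hWK j).trans hLK)
  -- `K ∩ closure (U j) = c j`
  have hKU : ∀ j ∈ J, K ∩ closure (U j) ⊆ c j := by
    rintro j hj y ⟨hy1, hy2⟩
    rw [hUc j hj] at hy2
    rcases hy2 with hy2 | hy2
    · exact absurd hy1 (hUK j y hy2)
    · exact hy2
  have hUcd : ∀ j ∈ J, ∀ k ∈ J, j ≠ k → Disjoint (closure (U j)) (closure (U k)) := by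
    intro j hj k hk hjk
    have hUU : Disjoint (U j) (U k) := by
      rw [Set.disjoint_left]
      intro y hy1 hy2
      have h1 : U j = U k := by
        change connectedComponentIn Kᶜ (x j) = connectedComponentIn Kᶜ (x k)
        rw [connectedComponentIn_eq hy1, connectedComponentIn_eq hy2]
      have h2 : c j = c k := by rw [← hUf j hj, ← hUf k hk, h1]
      obtain ⟨p, hp⟩ := (hcc j hj).nonempty
      exact (Set.disjoint_left.1 (hcd j hj k hk hjk)) hp (h2 ▸ hp)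
    have h1 : Disjoint (closure (U j)) (U k) := hUU.closure_left (hUo k hk)
    have h2 : Disjoint (U j) (closure (U k)) := hUU.closure_right (hUo j hj)
    rw [Set.disjoint_left]
    intro y hy1 hy2
    have hy1' := hy1
    rw [hUc j hj] at hy1
    rw [hUc k hk] at hy2
    rcases hy2 with hy2 | hy2
    · exact (Set.disjoint_left.1 h1) hy1' hy2
    · rcases hy1 with hy1 | hy1
      · exact (Set.disjoint_left.1 h2) hy1 (by rw [hUc k hk]; exact Or.inr hy2)
      · exact (Set.disjoint_left.1 (hcd j hj k hk hjk)) hy1 hy2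
  -- every point of the complement is in one of the `U j`
  have hcov : ∀ y, y ∉ K → ∃ j ∈ J, y ∈ U j := by
    intro y hy
    obtain ⟨j, hj, hyj⟩ := hcomp2 y hy
    refine ⟨j, hj, ?_⟩
    obtain ⟨p, hp⟩ := (hcc j hj).nonempty
    have h1 : connectedComponentIn Kᶜ y = U j := by
      refine stg_comp_eq hADJ hX K hK y (x j) p hy (hx j hj).1 ?_ ?_ ?_
      · rw [hcf]
        exact mem_biUnion hj hp
      · exact frontier_subset_closure (by rw [hyj]; exact hp)
      · exact frontier_subset_closure (by rw [(hx j hj).2]; exact hp)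
    rw [← h1]
    exact mem_connectedComponentIn hy
  -- the new pieces
  let L' : ℝ → Set X := fun j => W j ∪ (K' ∩ closure (U j))
  have hchD : ∀ j : ℝ, ∃ (D : Conf) (f : ℂ → X), j ∈ J → D.Ok ∧ D.F = ∅ ∧ Pres D (L' j) f ∧
      (∀ z ∈ UC, f z = q (j + C.rad j * z)) ∧
      f '' D.FreeBd = frontier K' ∩ closure (U j) ∧
      ∀ i ∈ D.I, D.lab i = Lab.O → D.rad i ≤ 1 / 2 ∧
        Disjoint (f '' (D.Dom ∩ closedBall (i : ℂ) (D.rad i))) K := by
    intro j
    by_cases hj : j ∈ J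
    · have hann : IsAnn (W j) (frontier (connectedComponentIn Kᶜ (x j)))
          (fun z => q (j + C.rad j * z)) := by
        rw [(hx j hj).2]
        exact stg_ann hCUT hBCN C hC _ q hq j hj.1 hj.2 (hslot j hj)
      obtain ⟨t, p, o, hfp⟩ := hPIECE X hX K K' (W j) (x j) _ hK (hx j hj).1 hKK'
        ((hWK j).trans hLK) hann
      have hdis : Disjoint K (frontier K' ∩ closure (connectedComponentIn Kᶜ (x j))) := by
        rw [Set.disjoint_left]
        rintro y hy1 ⟨hy2, -⟩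
        exact hy2.2 (hKint hy1)
      obtain ⟨D, f, h1, h2, -, -, -, h3, h4, h5, h6⟩ := hCOL X t p o _ _ K _ (1 / 2) hfp
        hK.1.isClosed hdis (by norm_num)
      exact ⟨D, f, fun _ => ⟨h1, h2, h3, h4, h5, h6⟩⟩
    · exact ⟨C, q, fun h => absurd h hj⟩
  choose D f hD using hchD
  obtain ⟨hcompact, -, C', hC', hC'F, hC'slot, hC'I, hout, hDD⟩ :=
    hREF C hC J hJI D (fun j hj => ⟨(hD j hj).1, (hD j hj).2.1⟩)
  -- the slots of `C'`
  have hcong : ∀ j ∈ J, (C'.slot j (C.rad j)).Dom = (D j).Dom ∧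
      (C'.slot j (C.rad j)).Rel = (D j).Rel := by
    intro j hj
    have h := hCCONG (D j) (C'.slot j (C.rad j)) (hD j hj).2.1.symm (hDD j hj).1
      (hDD j hj).2
    exact ⟨h.1, h.2.1⟩
  have hpres : ∀ j ∈ J, Pres (C'.slot j (C.rad j)) (L' j) (f j) := by
    intro j hj
    have h := (hD j hj).2.2.1
    unfold Pres at h ⊢
    rw [(hcong j hj).1, (hcong j hj).2]
    exact h
  let L0 : Set X := q '' (C.Dom \ ⋃ k ∈ J, ball (k : ℂ) (C.rad k))
  have hL0K : L0 ⊆ K \ e '' OD := by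
    rw [← hq.image]
    exact image_mono sdiff_subset
  have hWL0 : ∀ j ∈ J, W j ∩ L0 ⊆ q '' sphere (j : ℂ) (C.rad j) := by
    rintro j hj y ⟨hy1, hy2⟩
    have h := (hCUT X C hC _ q hq j (C.rad j) (hslot j hj)).2.1
    rw [← h]
    refine ⟨hy1, ?_⟩
    obtain ⟨z, ⟨hz1, hz2⟩, rfl⟩ := hy2
    exact ⟨z, ⟨hz1, fun h3 => hz2 (mem_biUnion hj h3)⟩, rfl⟩
  have hKL' : ∀ j ∈ J, L' j ∩ K ⊆ W j := by
    rintro j hj y ⟨hy1 | hy1, hy2⟩
    · exact hy1
    · exact hcW j hj (hKU j hj ⟨hy2, hy1.2⟩)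
  have hL'd : ∀ j ∈ J, ∀ k ∈ J, j ≠ k → Disjoint (L' j) (L' k) := by
    intro j hj k hk hjk
    rw [Set.disjoint_left]
    intro y hy1 hy2
    by_cases hyK : y ∈ K
    · exact (Set.disjoint_left.1 (hWd j hj k hk hjk)) (hKL' j hj ⟨hy1, hyK⟩)
        (hKL' k hk ⟨hy2, hyK⟩)
    · rcases hy1 with hy1 | hy1
      · exact hyK (hLK (hWK j hy1))
      · rcases hy2 with hy2 | hy2
        · exact hyK (hLK (hWK k hy2))
        · exact (Set.disjoint_left.1 (hUcd j hj k hk hjk)) hy1.2 hy2.2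
  have heo : IsOpen (e '' OD) := he.isOpenMap _ isOpen_ball
  obtain ⟨Q, hQ, hQmap, hQslot⟩ := hPASTE X C C' hC hC' hC'F J C.rad hcompact
    (fun j hj => ⟨hslot j hj, hC'slot j hj⟩)
    (fun j hj k hk hjk => hC.apart j hj.1 k hk.1 hjk) hout (K \ e '' OD) q
    (hK.1.isClosed.sdiff heo) hq L' f hpres (fun j hj => (hD j hj).2.2.2.1)
    (fun j hj y hy => hWL0 j hj ⟨hKL' j hj ⟨hy.1, hLK (hL0K hy.2)⟩, hy.2⟩) hL'd
    (fun A _ => hJfin.subset (fun j hj => hj.1))
  -- the union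
  have hKsub : K ⊆ K' := hKK'.subset
  have hunion : L0 ∪ ⋃ j ∈ J, L' j = K' \ e '' OD := by
    apply subset_antisymm
    · rintro y (hy | hy)
      · exact ⟨hKsub (hL0K hy).1, (hL0K hy).2⟩
      · rw [mem_iUnion₂] at hy
        obtain ⟨j, hj, hy | hy⟩ := hy
        · exact ⟨hKsub (hWK j hy).1, (hWK j hy).2⟩
        · refine ⟨hy.1, fun hye => ?_⟩
          have hyi : y ∈ interior K := by
            obtain ⟨z, hz, rfl⟩ := hye
            exact heK ⟨z, ball_subset_closedBall hz, rfl⟩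
          have hyc : y ∈ c j := hKU j hj ⟨interior_subset hyi, hy.2⟩
          have hyf : y ∈ frontier K := by
            rw [hcf]
            exact mem_biUnion hj hyc
          exact hyf.2 hyi
    · rintro y ⟨hy1, hy2⟩
      by_cases hyK : y ∈ K
      · have hyL : y ∈ q '' C.Dom := by
          rw [hq.image]
          exact ⟨hyK, hy2⟩
        obtain ⟨z, hz, rfl⟩ := hyL
        by_cases hzb : z ∈ ⋃ k ∈ J, ball (k : ℂ) (C.rad k)
        · rw [mem_iUnion₂] at hzb
          obtain ⟨k, hk, hzk⟩ := hzb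
          refine Or.inr (mem_biUnion hk (Or.inl ⟨z, ⟨hz, ball_subset_closedBall hzk⟩, rfl⟩))
        · exact Or.inl ⟨z, ⟨hz, hzb⟩, rfl⟩
      · obtain ⟨j, hj, hyj⟩ := hcov y hyK
        exact Or.inr (mem_biUnion hj (Or.inr ⟨hy1, subset_closure hyj⟩))
  have hQ' : Pres C' (K' \ e '' OD) Q := by
    rw [← hunion]
    exact hQ
  -- the value on the slots
  have hQD : ∀ j ∈ J, ∀ z ∈ (D j).Dom, Q (j + C.rad j * z) = f j z := by
    intro j hj z hz
    exact hQslot j hj z (by rw [(hcong j hj).1]; exact hz)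
  have hQsl : ∀ j ∈ J, ∀ z ∈ C'.Dom ∩ closedBall (j : ℂ) (C.rad j),
      ∃ w ∈ (D j).Dom, z = j + C.rad j * w ∧ Q z = f j w := by
    rintro j hj z ⟨hz1, hz2⟩
    have hs := hC.pos j hj.1
    have hsc : ((C.rad j : ℝ) : ℂ) ≠ 0 := by exact_mod_cast hs.ne'
    have h1 : (j : ℂ) + C.rad j * ((z - j) / C.rad j) = z := by field_simp; ring
    have h2 : (z - j) / C.rad j ∈ closedBall (0 : ℂ) 1 := by
      rw [mem_closedBall, dist_eq_norm] at hz2
      rw [mem_closedBall, dist_zero_right, norm_div, Complex.norm_real, Real.norm_eq_abs,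
        abs_of_pos hs, div_le_one hs]
      exact hz2
    have h3 : (z - j) / C.rad j ∈ (D j).Dom := by
      rw [← (hcong j hj).1, cut_mem_Dom C' hC'.pos j (C.rad j) (hC'slot j hj) _ h2, h1]
      exact hz1
    refine ⟨(z - j) / C.rad j, h3, h1.symm, ?_⟩
    rw [← hQD j hj _ h3, h1]
  -- the new free centres
  have hfree : ∀ i ∈ C'.I, C'.lab i = Lab.O → ∃ j ∈ J, ∃ y ∈ (D j).I,
      i = j + C.rad j * y ∧ (D j).lab y = Lab.O ∧ C'.rad i = C.rad j * (D j).rad y := by
    intro i hi hil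
    rw [hC'I] at hi
    rcases hi with hi | ⟨j, hj, y, hy, rfl⟩
    · exfalso
      have h1 : ∀ j ∈ J, C.rad j < |i - j| := by
        intro j hj
        have hij : i ≠ j := fun h => hi.2 (h ▸ hj)
        have h2 := hC.apart i hi.1 j hj.1 hij
        have h3 := hC.pos i hi.1
        linarith
      have h2 := (hout i h1).2 hi.1
      exact hi.2 ⟨hi.1, by rw [← h2.2]; exact hil⟩
    · refine ⟨j, hj, y, hy, rfl, ?_, ?_⟩
      · rw [← ((hDD j hj).2 y hy).2]
        exact hil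
      · rw [← ((hDD j hj).2 y hy).1]
        change C'.rad (j + C.rad j * y) = C.rad j * (C'.rad (j + C.rad j * y) / C.rad j)
        have := (hC.pos j hj.1).ne'
        field_simp
  refine ⟨C', Q, ⟨hC', hC'F.trans hF, hQ', ?_, ?_⟩, ?_⟩
  · -- the outer circle
    intro z hz
    rw [hQmap z ((hCFIN C hC).2.2.2.2.1 hz) ?_, hcirc z hz]
    intro j hj hzj
    have h1 := hC.inside j hj.1
    rw [mem_ball, dist_eq_norm] at hzj
    have h2 : ‖z‖ = 1 := by simpa using hz
    have h3 : ‖z‖ ≤ ‖z - (j : ℂ)‖ + |j| := by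
      have h4 := norm_add_le (z - (j : ℂ)) (j : ℂ)
      rwa [sub_add_cancel, Complex.norm_real, Real.norm_eq_abs] at h4
    linarith
  · -- the free boundary
    apply subset_antisymm
    · rintro _ ⟨z, hz, rfl⟩
      unfold Conf.FreeBd at hz
      rw [mem_iUnion₂] at hz
      obtain ⟨i, ⟨hi, hil⟩, hz⟩ := hz
      obtain ⟨j, hj, y, hy, rfl, hyl, hr⟩ := hfree i hi hil
      have hs := hC.pos j hj.1
      have h1 : z ∈ (fun w : ℂ => (j : ℂ) + C.rad j * w) '' sphere (y : ℂ) ((D j).rad y / 2) := by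
        rw [stg_aff_sphere j (C.rad j) y _ hs]
        rw [hr] at hz
        rw [← mul_div_assoc]
        exact hz
      obtain ⟨w, hw, rfl⟩ := h1
      have hSy : (D j).Slot y ((D j).rad y) :=
        (hREF (D j) (hD j hj).1 {y} (by simpa using hy) (fun _ => D j)
          (fun _ _ => ⟨(hD j hj).1, (hD j hj).2.1⟩)).2.1 y rfl
      have hwD : w ∈ (D j).Dom := stg_circle_Dom (D j) (hD j hj).1 y hy hyl hSy hw
      have h2 : f j w ∈ frontier K' ∩ closure (U j) := by
        rw [← (hD j hj).2.2.2.2.1]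
        refine ⟨w, ?_, rfl⟩
        unfold Conf.FreeBd
        exact mem_biUnion (show y ∈ {i ∈ (D j).I | (D j).lab i = Lab.O} from ⟨hy, hyl⟩) hw
      change Q (j + C.rad j * w) ∈ frontier K'
      rw [hQD j hj w hwD]
      exact h2.1
    · intro y hy
      have hyK : y ∉ K := fun h => hy.2 (hKint h)
      obtain ⟨j, hj, hyj⟩ := hcov y hyK
      have h1 : y ∈ f j '' (D j).FreeBd := by
        rw [(hD j hj).2.2.2.2.1]
        exact ⟨hy, subset_closure hyj⟩
      obtain ⟨w, hw, rfl⟩ := h1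
      unfold Conf.FreeBd at hw
      rw [mem_iUnion₂] at hw
      obtain ⟨i, ⟨hi, hil⟩, hw⟩ := hw
      have hs := hC.pos j hj.1
      have hSi : (D j).Slot i ((D j).rad i) :=
        (hREF (D j) (hD j hj).1 {i} (by simpa using hi) (fun _ => D j)
          (fun _ _ => ⟨(hD j hj).1, (hD j hj).2.1⟩)).2.1 i rfl
      have hwD : w ∈ (D j).Dom := stg_circle_Dom (D j) (hD j hj).1 i hi hil hSi hw
      refine ⟨j + C.rad j * w, ?_, hQD j hj w hwD⟩
      unfold Conf.FreeBd
      have hi' : j + C.rad j * i ∈ C'.I := by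
        rw [hC'I]
        exact Or.inr ⟨j, hj, i, hi, rfl⟩
      have hil' : C'.lab (j + C.rad j * i) = Lab.O := by
        have h3 := ((hDD j hj).2 i hi).2
        rw [hil] at h3
        exact h3
      refine mem_biUnion (show j + C.rad j * i ∈ {i ∈ C'.I | C'.lab i = Lab.O} from
        ⟨hi', hil'⟩) ?_
      have h4 : C'.rad (j + C.rad j * i) = C.rad j * (D j).rad i := by
        rw [← ((hDD j hj).2 i hi).1]
        change C'.rad (j + C.rad j * i) = C.rad j * (C'.rad (j + C.rad j * i) / C.rad j)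
        have := hs.ne'
        field_simp
      rw [h4, mul_div_assoc, ← stg_aff_sphere j (C.rad j) i _ hs]
      exact ⟨w, hw, rfl⟩
  · refine ⟨?_, ?_, ?_, ?_, ?_⟩
    · intro i hi
      exact hout i (fun j hj => hi j hj.1 hj.2)
    · intro j hj hjl
      exact hC'slot j ⟨hj, hjl⟩
    · intro z hz hzj
      exact hQmap z hz (fun j hj => hzj j hj.1 hj.2)
    · rintro j hj hjl y ⟨⟨z, hz, rfl⟩, hyK⟩
      have hjJ : j ∈ J := ⟨hj, hjl⟩
      obtain ⟨w, hw, -, hQw⟩ := hQsl j hjJ z hz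
      have h1 : Q z ∈ L' j := by
        rw [hQw, ← (hD j hjJ).2.2.1.image]
        exact ⟨w, hw, rfl⟩
      exact hKL' j hjJ ⟨h1, hyK⟩
    · intro i hi hil
      obtain ⟨j, hj, y, hy, rfl, hyl, hr⟩ := hfree i hi hil
      have hs := hC.pos j hj.1
      obtain ⟨h1, h2⟩ := (hD j hj).2.2.2.2.2 y hy hyl
      have h3 := (hD j hj).1.inside y hy
      have h4 : |j + C.rad j * y - j| = C.rad j * |y| := by
        rw [add_sub_cancel_left, abs_mul, abs_of_pos hs]
      refine ⟨j, hj.1, hj.2, ?_, ?_, ?_⟩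
      · rw [h4, hr, ← mul_add]
        nlinarith
      · rw [hr]
        nlinarith
      · rw [Set.disjoint_left]
        rintro _ ⟨z, ⟨hz1, hz2⟩, rfl⟩ hzK
        have hz3 : z ∈ closedBall (j : ℂ) (C.rad j) := by
          rw [mem_closedBall] at hz2 ⊢
          have h5 := dist_triangle z ((j + C.rad j * y : ℝ) : ℂ) (j : ℂ)
          have h6 : dist ((j + C.rad j * y : ℝ) : ℂ) (j : ℂ) = C.rad j * |y| := by
            rw [dist_eq_norm, ← Complex.ofReal_sub, Complex.norm_real, Real.norm_eq_abs, h4]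
          rw [h6] at h5
          rw [hr] at hz2
          nlinarith
        obtain ⟨w, hw, hzw, hQw⟩ := hQsl j hj z ⟨hz1, hz3⟩
        refine (Set.disjoint_left.1 h2) ⟨w, ⟨hw, ?_⟩, hQw.symm⟩ hzK
        rw [hzw, hr] at hz2
        exact (cut_mem_closedBall j (C.rad j) hs w _ y _ ((D j).rad y) rfl rfl).1 hz2

end Pool.Agent.SRP
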