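import Pool.Agent.SRP.AsmP
import Pool.Agent.SRP.LB
import Pool.Agent.SRP.LT
import Pool.Agent.SRP.SLD
import Pool.Agent.SRP.DYCK
import Pool.Agent.SRP.COL
import Pool.Agent.SRP.PIECE
import Pool.Agent.SRP.STG
import Pool.Agent.SRP.EXI
import Pool.Agent.SRP.NRM

set_option autoImplicit false

/-! # SRP, Parts III and IV: the chain relative to LH, LK and Part V -/

namespace Pool.Agent.SRP

theorem sLB : St_LB := thm_LB sMONO sANG sCONE sINTD sPDS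
theorem sLT : St_LT := thm_LT sCFIN sANG sINTD sUNI sMEX sHOLE
theorem sLD : St_LD := thm_LD sBDT sLU sLT
theorem sSONE : St_SONE := thm_SONE sCFIN sBCN sRED sLD
theorem sSLD : St_SLD := thm_SLD sCFIN sCCONG sPOL sKLEE sFREE sUNI sMEX
theorem sCOL : St_COL := thm_COL sCFIN sPOL

theorem step_of (hLH : St_LH) (hLK : St_LK) : St_STEP :=
  thm_STEP sCFIN sBCN sRED sLA sLB sLD (thm_LP sBDT hLH hLK)

theorem exi_of (hLH : St_LH) (hLK : St_LK) : St_EXI :=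
  thm_EXI Pool.Agent.SRF.sBFR Pool.Agent.SRF.sBB Pool.Agent.SRF.sADJ Pool.Agent.SRF.sGEX
    (thm_STG sCFIN sCCONG sREF sCUT sPASTE sBCN sCOL
      (thm_PIECE (step_of hLH hLK) Pool.Agent.SRF.sBFR Pool.Agent.SRF.sATB
        Pool.Agent.SRF.sARC0 Pool.Agent.SRF.sBB Pool.Agent.SRF.sADJ sBCN)
      Pool.Agent.SRF.sBFR Pool.Agent.SRF.sADJ) sLIM

theorem nrm_of (hLK : St_LK) : St_NRM :=
  thm_NRM sCFIN (thm_STDC sCFIN (thm_EQV sCFIN sCCONG sREF sFREE sUNI sMEX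
    (thm_DYCK sCFIN sCCONG sREF sFREE sCUT sPASTE sRED sMONO sBAND sBCN sLA hLK sSLD)
    sSUB)) sPAR sCLU

theorem con_of (hLH : St_LH) (hLK : St_LK) (hPARTV : St_PARTV) : Pool.Agent.SRF.St_CONN :=
  thm_CON (exi_of hLH hLK) (nrm_of hLK) hPARTV sCLS sKPRES sUNM

end Pool.Agent.SRP
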