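import Pool.Agent.SRP.StD

set_option autoImplicit false

/-! # SRP, module LH: an untwisted band joining two circles gives a handle -/

namespace Pool.Agent.SRP

open Set Metric Topology Pool.Agent.SRF

/-! ### The circle -/

private theorem lh_cexpi (t : ℝ) : cexpi t = (Real.cos t : ℂ) + (Real.sin t : ℂ) * Complex.I := by
  unfold cexpi
  rw [Complex.exp_mul_I, Complex.ofReal_cos, Complex.ofReal_sin]

private theorem lh_re (t : ℝ) : (cexpi t).re = Real.cos t := by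
  rw [lh_cexpi]
  simp [Complex.cos_ofReal_re]

private theorem lh_im (t : ℝ) : (cexpi t).im = Real.sin t := by
  rw [lh_cexpi]
  simp [Complex.sin_ofReal_re]

private theorem lh_norm (t : ℝ) : ‖cexpi t‖ = 1 := by
  unfold cexpi
  exact Complex.norm_exp_ofReal_mul_I t

private theorem lh_cont : Continuous cexpi := by
  unfold cexpi
  fun_prop

private theorem lh_arg {r t : ℝ} (hr : 0 < r) (ht : |t| < Real.pi) :
    Complex.arg ((r : ℂ) * cexpi t) = t := by
  rw [lh_cexpi, Complex.ofReal_cos, Complex.ofReal_sin]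
  apply Complex.arg_mul_cos_add_sin_mul_I hr
  have := abs_lt.1 ht
  exact ⟨this.1, this.2.le⟩

private theorem lh_polar (u : ℂ) : (‖u‖ : ℂ) * cexpi (Complex.arg u) = u := by
  unfold cexpi
  exact Complex.norm_mul_exp_arg_mul_I u

private theorem lh_pnorm {r : ℝ} (hr : 0 ≤ r) (t : ℝ) : ‖(r : ℂ) * cexpi t‖ = r := by
  rw [norm_mul, lh_norm, mul_one, Complex.norm_real, Real.norm_eq_abs, abs_of_nonneg hr]

/-! ### The reflection -/

/-- The reflection in the imaginary axis. -/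
def lh_m (z : ℂ) : ℂ := -(starRingEnd ℂ) z

private theorem lh_mm (z : ℂ) : lh_m (lh_m z) = z := by
  unfold lh_m
  simp

private theorem lh_m_re (z : ℂ) : (lh_m z).re = -z.re := by
  unfold lh_m
  simp

private theorem lh_m_im (z : ℂ) : (lh_m z).im = z.im := by
  unfold lh_m
  simp

private theorem lh_m_norm (z : ℂ) : ‖lh_m z‖ = ‖z‖ := by
  unfold lh_m
  rw [norm_neg, RCLike.norm_conj]

private theorem lh_m_sub (z : ℂ) : ‖lh_m z - 1 / 4‖ = ‖z + 1 / 4‖ := by
  have : lh_m z - 1 / 4 = lh_m (z + 1 / 4) := by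
    apply Complex.ext
    · rw [lh_m_re, Complex.sub_re, lh_m_re, Complex.add_re]
      ring
    · rw [lh_m_im, Complex.sub_im, lh_m_im, Complex.add_im]
      have : (1 / 4 : ℂ).im = 0 := by norm_num
      rw [this]
      ring
  rw [this, lh_m_norm]

private theorem lh_m_add (z : ℂ) : ‖lh_m z + 1 / 4‖ = ‖z - 1 / 4‖ := by
  rw [← lh_m_sub (lh_m z), lh_mm]

private theorem lh_m_cont : Continuous lh_m := by
  unfold lh_m
  fun_prop

private theorem lh_m_inj {z w : ℂ} (h : lh_m z = lh_m w) : z = w := by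
  rw [← lh_mm z, h, lh_mm]

/-- The domain with holes of radius `a`. -/
def lh_D (a : ℝ) : Set ℂ := {z | ‖z‖ ≤ 1 ∧ a ≤ ‖z - 1 / 4‖ ∧ a ≤ ‖z + 1 / 4‖}

private theorem lh_D_closed (a : ℝ) : IsClosed (lh_D a) := by
  apply IsClosed.inter
  · exact isClosed_le continuous_norm continuous_const
  · apply IsClosed.inter
    · exact isClosed_le continuous_const (show Continuous fun z : ℂ => ‖z - 1 / 4‖ by fun_prop)
    · exact isClosed_le continuous_const (show Continuous fun z : ℂ => ‖z + 1 / 4‖ by fun_prop)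

private theorem lh_D_compact (a : ℝ) : IsCompact (lh_D a) := by
  apply (isCompact_closedBall (0 : ℂ) 1).of_isClosed_subset (lh_D_closed a)
  intro z hz
  rw [mem_closedBall_zero_iff]
  exact hz.1

private theorem lh_D_m {a : ℝ} {z : ℂ} (h : z ∈ lh_D a) : lh_m z ∈ lh_D a := by
  refine ⟨?_, ?_, ?_⟩
  · rw [lh_m_norm]
    exact h.1
  · rw [lh_m_sub]
    exact h.2.2
  · rw [lh_m_add]
    exact h.2.1

/-- The relation. -/
def lh_R (x y : ℂ) : Prop :=
  x = y ∨ ((‖x - 1 / 4‖ = 1 / 16 ∨ ‖x + 1 / 4‖ = 1 / 16) ∧ y = lh_m x)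

/-! ### The configurations -/

private theorem lh_dom1 : pantsC.Dom = lh_D (1 / 16) := by
  ext z
  unfold Conf.Dom pantsC Conf.holes lh_D
  simp only [image_empty, empty_union, mem_sdiff, mem_closedBall_zero_iff, mem_iUnion, mem_insert_iff,
    mem_singleton_iff, exists_prop, exists_eq_or_imp, exists_eq_left, mem_ball, dist_eq_norm,
    mem_ofPred_eq, not_or, not_lt]
  have e1 : (((-(1 / 4) : ℝ)) : ℂ) = -(1 / 4) := by push_cast; ring
  have e2 : (((1 / 4 : ℝ)) : ℂ) = 1 / 4 := by push_cast; ring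
  rw [e1, e2, sub_neg_eq_add]
  norm_num
  tauto

private theorem lh_dom2 : (single (1 / 2) Lab.T).Dom = lh_D (1 / 16) := by
  ext z
  unfold Conf.Dom single Conf.holes lh_D
  simp only [image_empty, empty_union, mem_sdiff, mem_closedBall_zero_iff, mem_iUnion,
    mem_singleton_iff, exists_prop, exists_eq_left, mem_union, mem_ball, dist_eq_norm,
    mem_ofPred_eq, not_or, not_lt]
  have e1 : (((0 - 1 / 2 / 2 : ℝ)) : ℂ) = -(1 / 4) := by push_cast; ring
  have e2 : (((0 + 1 / 2 / 2 : ℝ)) : ℂ) = 1 / 4 := by push_cast; ring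
  rw [e1, e2, sub_neg_eq_add]
  norm_num
  tauto

private theorem lh_fb : pantsC.FreeBd = {z | ‖z - 1 / 4‖ = 1 / 16 ∨ ‖z + 1 / 4‖ = 1 / 16} := by
  ext z
  unfold Conf.FreeBd pantsC
  simp only [mem_iUnion, mem_ofPred_eq, mem_insert_iff,
    mem_singleton_iff, exists_prop, and_true, exists_eq_or_imp, exists_eq_left, mem_sphere,
    dist_eq_norm]
  have e1 : (((-(1 / 4) : ℝ)) : ℂ) = -(1 / 4) := by push_cast; ring
  have e2 : (((1 / 4 : ℝ)) : ℂ) = 1 / 4 := by push_cast; ring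
  rw [e1, e2, sub_neg_eq_add]
  norm_num
  tauto

private theorem lh_fb1 : (single (1 / 2) Lab.T).FreeBd = ∅ := by
  ext z
  unfold Conf.FreeBd single
  simp

private theorem lh_rel (x y : ℂ) : (single (1 / 2) Lab.T).Rel x y ↔ lh_R x y := by
  unfold Conf.Rel single lh_R
  simp only [mem_singleton_iff, exists_eq_left, true_and, reduceCtorEq, false_and,
    or_false, mem_sphere, dist_eq_norm]
  have e1 : (((0 - 1 / 2 / 2 : ℝ)) : ℂ) = -(1 / 4) := by push_cast; ring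
  have e2 : (((0 + 1 / 2 / 2 : ℝ)) : ℂ) = 1 / 4 := by push_cast; ring
  rw [e1, e2, sub_neg_eq_add]
  have e3 : 2 * ((0 : ℝ) : ℂ) - (starRingEnd ℂ) x = lh_m x := by
    unfold lh_m
    simp
  rw [e3]
  norm_num
  tauto

private theorem lh_ok : (single (1 / 2) Lab.T).Ok := by
  refine ⟨isClosed_empty, ?_, ?_, ?_, ?_, ?_, ?_, ?_⟩
  · unfold single
    simp
  · unfold single
    exact isTotallyDisconnected_empty
  · unfold single
    simp
  · unfold single
    simp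
  · unfold single
    simp
    try norm_num
  · unfold single
    simp
  · intro i hi j hj hij
    have h1 : i = 0 := hi
    have h2 : j = 0 := hj
    exact absurd (h1.trans h2.symm) hij

private theorem lh_polar_inj {r r' t t' : ℝ} (hr : 0 < r) (hr' : 0 < r') (ht : |t| < Real.pi)
    (ht' : |t'| < Real.pi) (h : (r : ℂ) * cexpi t = (r' : ℂ) * cexpi t') : r = r' ∧ t = t' := by
  constructor
  · rw [← lh_pnorm hr.le t, h, lh_pnorm hr'.le]
  · rw [← lh_arg hr ht, h, lh_arg hr' ht']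

/-! ### Doubling -/

/-- `F` where `l ≥ 0`, its mirror image where `l < 0`. -/
noncomputable def lh_db (l : ℂ → ℝ) (F : ℂ → ℂ) (w : ℂ) : ℂ := if 0 ≤ l w then F w else lh_m (F w)

/-- A presentation by the handle. -/
structure lh_P {M : Type} [TopologicalSpace M] (p : ℂ → M) : Prop where
  cont : ContinuousOn p (lh_D (1 / 16))
  surj : ∀ m, ∃ z ∈ lh_D (1 / 16), p z = m
  rel : ∀ x ∈ lh_D (1 / 16), ∀ y ∈ lh_D (1 / 16), (p x = p y ↔ lh_R x y)

private theorem lh_far {x : ℂ} (h : 0 < x.re) : 1 / 4 < ‖x + 1 / 4‖ := by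
  have h1 : (x + 1 / 4).re ≤ ‖x + 1 / 4‖ := Complex.re_le_norm _
  have h2 : (x + 1 / 4).re = x.re + 1 / 4 := by
    rw [Complex.add_re]
    norm_num
  linarith

private theorem lh_pm {M : Type} [TopologicalSpace M] {p : ℂ → M} (hp : lh_P p) {z : ℂ}
    (hz : z ∈ lh_D (1 / 16)) (h : ‖z - 1 / 4‖ = 1 / 16) : p z = p (lh_m z) :=
  (hp.rel z hz _ (lh_D_m hz)).2 (Or.inr ⟨Or.inl h, rfl⟩)

private theorem lh_db_cont {M : Type} [TopologicalSpace M] {p : ℂ → M} (hp : lh_P p) {l : ℂ → ℝ}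
    {F : ℂ → ℂ} {S : Set ℂ} (hl : Continuous l) (hF : ContinuousOn F S) (hS : IsClosed S)
    (hFD : ∀ w ∈ S, F w ∈ lh_D (1 / 16)) (h0 : ∀ w ∈ S, l w = 0 → ‖F w - 1 / 4‖ = 1 / 16) :
    ContinuousOn (fun w => p (lh_db l F w)) S := by
  have hSu : S = (S ∩ {w | 0 ≤ l w}) ∪ (S ∩ {w | l w ≤ 0}) := by
    rw [← inter_union_distrib_left]
    symm
    rw [inter_eq_left]
    intro w _
    exact le_total 0 (l w)
  have c1 : IsClosed (S ∩ {w | 0 ≤ l w}) := hS.inter (isClosed_le continuous_const hl)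
  have c2 : IsClosed (S ∩ {w | l w ≤ 0}) := hS.inter (isClosed_le hl continuous_const)
  rw [hSu]
  apply ContinuousOn.union_of_isClosed _ _ c1 c2
  · have h1 : ContinuousOn (fun w => p (F w)) (S ∩ {w | 0 ≤ l w}) :=
      hp.cont.comp (hF.mono inter_subset_left) (fun w hw => hFD w hw.1)
    apply h1.congr
    intro w hw
    show p (lh_db l F w) = p (F w)
    have h2 : 0 ≤ l w := hw.2
    unfold lh_db
    rw [if_pos h2]
  · have h1 : ContinuousOn (fun w => p (lh_m (F w))) (S ∩ {w | l w ≤ 0}) :=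
      hp.cont.comp (lh_m_cont.comp_continuousOn (hF.mono inter_subset_left))
        (fun w hw => lh_D_m (hFD w hw.1))
    apply h1.congr
    intro w hw
    show p (lh_db l F w) = p (lh_m (F w))
    unfold lh_db
    by_cases h : 0 ≤ l w
    · rw [if_pos h]
      exact lh_pm hp (hFD w hw.1) (h0 w hw.1 (le_antisymm hw.2 h))
    · rw [if_neg h]

private theorem lh_db_D {l : ℂ → ℝ} {F : ℂ → ℂ} {w : ℂ} {a : ℝ} (h : F w ∈ lh_D a) :
    lh_db l F w ∈ lh_D a := by
  unfold lh_db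
  split_ifs
  · exact h
  · exact lh_D_m h

private theorem lh_db_R {l l' : ℂ → ℝ} {F F' : ℂ → ℂ} {w w' : ℂ} (h1 : 0 < (F w).re)
    (h2 : 0 < (F' w').re) (h : lh_R (lh_db l F w) (lh_db l' F' w')) :
    F w = F' w' ∧ (‖F w - 1 / 4‖ = 1 / 16 ∨ (0 ≤ l w ↔ 0 ≤ l' w')) := by
  have f1 := lh_far h1
  have f2 := lh_far h2
  unfold lh_db at h
  by_cases a1 : 0 ≤ l w
  · by_cases a2 : 0 ≤ l' w'
    · rw [if_pos a1, if_pos a2] at h
      rcases h with h | ⟨h, h'⟩
      · exact ⟨h, Or.inr (iff_of_true a1 a2)⟩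
      · exfalso
        rw [h', lh_m_re] at h2
        linarith
    · rw [if_pos a1, if_neg a2] at h
      rcases h with h | ⟨h, h'⟩
      · exfalso
        rw [h, lh_m_re] at h1
        linarith
      · refine ⟨(lh_m_inj h').symm, Or.inl ?_⟩
        rcases h with h | h
        · exact h
        · exfalso
          linarith
  · by_cases a2 : 0 ≤ l' w'
    · rw [if_neg a1, if_pos a2] at h
      rcases h with h | ⟨h, h'⟩
      · exfalso
        rw [← h, lh_m_re] at h2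
        linarith
      · rw [lh_mm] at h'
        refine ⟨h'.symm, Or.inl ?_⟩
        rcases h with h | h
        · exfalso
          rw [lh_m_sub] at h
          linarith
        · rw [lh_m_add] at h
          exact h
    · rw [if_neg a1, if_neg a2] at h
      rcases h with h | ⟨h, h'⟩
      · exact ⟨lh_m_inj h, Or.inr (iff_of_false a1 a2)⟩
      · exfalso
        rw [lh_mm] at h'
        rw [← h', lh_m_re] at h1
        linarith

/-! ### The two charts -/

/-- Polar coordinates about `1/4`. -/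
noncomputable def lh_G (w : ℂ) : ℂ :=
  1 / 4 + ((1 / 16 + |w.re| / 4 : ℝ) : ℂ) * cexpi (3 * Real.pi / 4 * w.im)

/-- The left half collar of the circle about `1/4`. -/
noncomputable def lh_K (w : ℂ) : ℂ :=
  1 / 4 - (((|w.im| + 1) / 16 : ℝ) : ℂ) * cexpi (Real.pi / 2 * w.re)

private theorem lh_G_cont : Continuous lh_G := by
  unfold lh_G
  have := lh_cont
  fun_prop

private theorem lh_K_cont : Continuous lh_K := by
  unfold lh_K
  have := lh_cont
  fun_prop

private theorem lh_G_norm (w : ℂ) : ‖lh_G w - 1 / 4‖ = 1 / 16 + |w.re| / 4 := by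
  unfold lh_G
  rw [add_sub_cancel_left, lh_pnorm (by positivity)]

private theorem lh_K_norm (w : ℂ) : ‖lh_K w - 1 / 4‖ = (|w.im| + 1) / 16 := by
  unfold lh_K
  rw [sub_sub_cancel_left, norm_neg, lh_pnorm (by positivity)]

private theorem lh_G_re (w : ℂ) : (lh_G w).re =
    1 / 4 + (1 / 16 + |w.re| / 4) * Real.cos (3 * Real.pi / 4 * w.im) := by
  unfold lh_G
  rw [Complex.add_re, Complex.re_ofReal_mul, lh_re]
  norm_num

private theorem lh_K_re (w : ℂ) : (lh_K w).re =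
    1 / 4 - (|w.im| + 1) / 16 * Real.cos (Real.pi / 2 * w.re) := by
  unfold lh_K
  rw [Complex.sub_re, Complex.re_ofReal_mul, lh_re]
  norm_num

private theorem lh_G_pos {w : ℂ} (hw : w ∈ Sq) : 0 < (lh_G w).re := by
  rw [lh_G_re]
  have hp := Real.pi_pos
  have h1 : |3 * Real.pi / 4 * w.im| ≤ 3 * Real.pi / 4 := by
    rw [abs_mul, abs_of_pos (by positivity : (0 : ℝ) < 3 * Real.pi / 4)]
    exact mul_le_of_le_one_right (by positivity) hw.2
  have h2 : Real.cos (3 * Real.pi / 4) ≤ Real.cos (3 * Real.pi / 4 * w.im) := by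
    rw [← Real.cos_abs (3 * Real.pi / 4 * w.im)]
    exact Real.cos_le_cos_of_nonneg_of_le_pi (abs_nonneg _) (by linarith) h1
  have h3 : Real.cos (3 * Real.pi / 4) = -(Real.sqrt 2 / 2) := by
    have : 3 * Real.pi / 4 = Real.pi - Real.pi / 4 := by ring
    rw [this, Real.cos_pi_sub, Real.cos_pi_div_four]
  have h4 : Real.sqrt 2 < 3 / 2 := by
    rw [Real.sqrt_lt' (by norm_num)]
    norm_num
  have h5 : 1 / 16 + |w.re| / 4 ≤ 5 / 16 := by
    have := hw.1
    linarith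
  have h6 : (0 : ℝ) < 1 / 16 + |w.re| / 4 := by positivity
  rw [h3] at h2
  nlinarith [Real.sqrt_nonneg 2]

private theorem lh_K_pos {w : ℂ} (hw : w ∈ Sq) : 0 < (lh_K w).re := by
  rw [lh_K_re]
  have h1 := Real.cos_le_one (Real.pi / 2 * w.re)
  have h2 : (0 : ℝ) < (|w.im| + 1) / 16 := by positivity
  have h3 := hw.2
  nlinarith

private theorem lh_near {x : ℂ} {r : ℝ} (h : ‖x - 1 / 4‖ ≤ r) : ‖x‖ ≤ r + 1 / 4 := by
  have h1 : ‖x‖ ≤ ‖x - 1 / 4‖ + ‖(1 / 4 : ℂ)‖ := by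
    have := norm_add_le (x - 1 / 4) (1 / 4)
    rwa [sub_add_cancel] at this
  have h2 : ‖(1 / 4 : ℂ)‖ = 1 / 4 := by norm_num
  linarith

private theorem lh_G_D {w : ℂ} (hw : w ∈ Sq) : lh_G w ∈ lh_D (1 / 16) := by
  have h1 := lh_G_norm w
  have h2 := hw.1
  have h3 := lh_far (lh_G_pos hw)
  have h4 : ‖lh_G w‖ ≤ (1 / 16 + |w.re| / 4) + 1 / 4 := lh_near h1.le
  have h5 := abs_nonneg w.re
  exact ⟨by linarith, by linarith, by linarith⟩

private theorem lh_K_D {w : ℂ} (hw : w ∈ Sq) : lh_K w ∈ lh_D (1 / 16) := by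
  have h1 := lh_K_norm w
  have h2 := hw.2
  have h3 := lh_far (lh_K_pos hw)
  have h4 : ‖lh_K w‖ ≤ (|w.im| + 1) / 16 + 1 / 4 := lh_near h1.le
  have h5 := abs_nonneg w.im
  exact ⟨by linarith, by linarith, by linarith⟩

private theorem lh_G_inj {w w' : ℂ} (hw : w ∈ Sq) (hw' : w' ∈ Sq) (h : lh_G w = lh_G w') :
    |w.re| = |w'.re| ∧ w.im = w'.im := by
  have hp := Real.pi_pos
  unfold lh_G at h
  have hb : ∀ {v : ℂ}, v ∈ Sq → |3 * Real.pi / 4 * v.im| < Real.pi := by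
    intro v hv
    rw [abs_mul, abs_of_pos (by positivity : (0 : ℝ) < 3 * Real.pi / 4)]
    have := hv.2
    nlinarith [abs_nonneg v.im]
  obtain ⟨h1, h2⟩ := lh_polar_inj (by positivity) (by positivity) (hb hw) (hb hw')
    (add_left_cancel h)
  constructor
  · linarith
  · exact mul_left_cancel₀ (by positivity) h2

private theorem lh_K_inj {w w' : ℂ} (hw : w ∈ Sq) (hw' : w' ∈ Sq) (h : lh_K w = lh_K w') :
    |w.im| = |w'.im| ∧ w.re = w'.re := by
  have hp := Real.pi_pos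
  unfold lh_K at h
  have hb : ∀ {v : ℂ}, v ∈ Sq → |Real.pi / 2 * v.re| < Real.pi := by
    intro v hv
    rw [abs_mul, abs_of_pos (by positivity : (0 : ℝ) < Real.pi / 2)]
    have := hv.1
    nlinarith [abs_nonneg v.re]
  obtain ⟨h1, h2⟩ := lh_polar_inj (by positivity) (by positivity) (hb hw) (hb hw')
    (sub_right_injective h)
  constructor
  · linarith
  · exact mul_left_cancel₀ (by positivity) h2

private theorem lh_abs {a b : ℝ} (h : |a| = |b|) (h' : a = 0 ∨ (0 ≤ a ↔ 0 ≤ b)) : a = b := by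
  rcases h' with h' | h'
  · rw [h', abs_zero] at h
    rw [h', abs_eq_zero.1 h.symm]
  · by_cases ha : 0 ≤ a
    · rwa [abs_of_nonneg ha, abs_of_nonneg (h'.1 ha)] at h
    · have hb : ¬ 0 ≤ b := fun hb => ha (h'.2 hb)
      rw [abs_of_neg (not_le.1 ha), abs_of_neg (not_le.1 hb)] at h
      linarith

/-- The chart of the handle. -/
noncomputable def lh_Phi {M : Type} (p : ℂ → M) (w : ℂ) : M := p (lh_db Complex.re lh_G w)

/-- The band in the handle. -/
noncomputable def lh_Kap {M : Type} (p : ℂ → M) (w : ℂ) : M := p (lh_db Complex.im lh_K w)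

private theorem lh_Sq_closed : IsClosed Sq := by
  apply IsClosed.inter
  · exact isClosed_le (by fun_prop : Continuous fun z : ℂ => |z.re|) continuous_const
  · exact isClosed_le (by fun_prop : Continuous fun z : ℂ => |z.im|) continuous_const

private theorem lh_SqI_sub {w : ℂ} (hw : w ∈ SqI) : w ∈ Sq := ⟨hw.1.le, hw.2.le⟩

section M

variable {M : Type} [TopologicalSpace M] {p : ℂ → M}

private theorem lh_Phi_cont (hp : lh_P p) : ContinuousOn (lh_Phi p) Sq := by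
  apply lh_db_cont hp Complex.continuous_re lh_G_cont.continuousOn lh_Sq_closed
  · exact fun w hw => lh_G_D hw
  · intro w _ h
    rw [lh_G_norm, h]
    norm_num

private theorem lh_Kap_cont (hp : lh_P p) : ContinuousOn (lh_Kap p) Sq := by
  apply lh_db_cont hp Complex.continuous_im lh_K_cont.continuousOn lh_Sq_closed
  · exact fun w hw => lh_K_D hw
  · intro w _ h
    rw [lh_K_norm, h]
    norm_num

private theorem lh_Phi_inj (hp : lh_P p) : InjOn (lh_Phi p) Sq := by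
  intro w hw w' hw' h
  have h1 := (hp.rel _ (lh_db_D (lh_G_D hw)) _ (lh_db_D (lh_G_D hw'))).1 h
  obtain ⟨h2, h3⟩ := lh_db_R (lh_G_pos hw) (lh_G_pos hw') h1
  obtain ⟨h4, h5⟩ := lh_G_inj hw hw' h2
  apply Complex.ext _ h5
  apply lh_abs h4
  rcases h3 with h3 | h3
  · left
    rw [lh_G_norm] at h3
    exact abs_eq_zero.1 (by linarith)
  · exact Or.inr h3

private theorem lh_Kap_inj (hp : lh_P p) : InjOn (lh_Kap p) Sq := by
  intro w hw w' hw' h
  have h1 := (hp.rel _ (lh_db_D (lh_K_D hw)) _ (lh_db_D (lh_K_D hw'))).1 h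
  obtain ⟨h2, h3⟩ := lh_db_R (lh_K_pos hw) (lh_K_pos hw') h1
  obtain ⟨h4, h5⟩ := lh_K_inj hw hw' h2
  apply Complex.ext h5
  apply lh_abs h4
  rcases h3 with h3 | h3
  · left
    rw [lh_K_norm] at h3
    exact abs_eq_zero.1 (by linarith)
  · exact Or.inr h3

/-- A preimage of the mirror image. -/
private theorem lh_db_neg (hp : lh_P p) {l : ℂ → ℝ} {F : ℂ → ℂ} {w w' : ℂ}
    (hw : F w ∈ lh_D (1 / 16)) (h0 : l w = 0 → ‖F w - 1 / 4‖ = 1 / 16) (hl : 0 ≤ l w)
    (hl' : l w' = -l w) (hF : F w' = F w) : p (lh_db l F w') = p (lh_m (F w)) := by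
  unfold lh_db
  by_cases h : 0 ≤ l w'
  · rw [if_pos h, hF]
    apply lh_pm hp hw
    apply h0
    rw [hl'] at h
    linarith
  · rw [if_neg h, hF]

/-- The open set. -/
def lh_N : Set ℂ := {z | (z - 1 / 4 ∈ Complex.slitPlane ∧
  |Complex.arg (z - 1 / 4)| < 3 * Real.pi / 4) ∧ ‖z - 1 / 4‖ < 5 / 16}

private theorem lh_N_open : IsOpen lh_N := by
  have h1 : IsOpen (Complex.slitPlane ∩ Complex.arg ⁻¹' {t | |t| < 3 * Real.pi / 4}) :=
    Complex.continuousOn_arg.isOpen_inter_preimage Complex.isOpen_slitPlane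
      (isOpen_lt continuous_abs continuous_const)
  have h2 : IsOpen ((fun z : ℂ => z - 1 / 4) ⁻¹'
      (Complex.slitPlane ∩ Complex.arg ⁻¹' {t | |t| < 3 * Real.pi / 4})) :=
    h1.preimage (by fun_prop)
  exact h2.inter (isOpen_lt (by fun_prop : Continuous fun z : ℂ => ‖z - 1 / 4‖) continuous_const)

private theorem lh_G_N {w : ℂ} (hw : w ∈ SqI) : lh_G w ∈ lh_N := by
  have hp := Real.pi_pos
  have h1 : |3 * Real.pi / 4 * w.im| < 3 * Real.pi / 4 := by
    rw [abs_mul, abs_of_pos (by positivity : (0 : ℝ) < 3 * Real.pi / 4)]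
    exact mul_lt_of_lt_one_right (by positivity) hw.2
  have h2 : lh_G w - 1 / 4 = ((1 / 16 + |w.re| / 4 : ℝ) : ℂ) * cexpi (3 * Real.pi / 4 * w.im) := by
    unfold lh_G
    ring
  have h3 : Complex.arg (lh_G w - 1 / 4) = 3 * Real.pi / 4 * w.im := by
    rw [h2]
    exact lh_arg (by positivity) (by linarith)
  refine ⟨⟨?_, ?_⟩, ?_⟩
  · rw [Complex.mem_slitPlane_iff_arg, h3]
    refine ⟨?_, ?_⟩
    · intro h
      rw [h, abs_of_pos hp] at h1
      linarith
    · intro h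
      have h4 := lh_G_norm w
      rw [h, norm_zero] at h4
      have := abs_nonneg w.re
      linarith
  · rw [h3]
    exact h1
  · rw [lh_G_norm]
    have := hw.1
    linarith

/-- Polar coordinates. -/
private theorem lh_G_surj {z : ℂ} (h : 1 / 16 ≤ ‖z - 1 / 4‖) : ∃ w : ℂ, lh_G w = z ∧ 0 ≤ w.re ∧
    w.re = 4 * (‖z - 1 / 4‖ - 1 / 16) ∧
    w.im = 4 / (3 * Real.pi) * Complex.arg (z - 1 / 4) := by
  have hp := Real.pi_pos
  refine ⟨⟨4 * (‖z - 1 / 4‖ - 1 / 16), 4 / (3 * Real.pi) * Complex.arg (z - 1 / 4)⟩, ?_, ?_, rfl,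
    rfl⟩
  · unfold lh_G
    have h1 : 1 / 16 + |4 * (‖z - 1 / 4‖ - 1 / 16)| / 4 = ‖z - 1 / 4‖ := by
      rw [abs_of_nonneg (by linarith)]
      ring
    have h2 : 3 * Real.pi / 4 * (4 / (3 * Real.pi) * Complex.arg (z - 1 / 4)) =
        Complex.arg (z - 1 / 4) := by
      field_simp
    show 1 / 4 + ((1 / 16 + |4 * (‖z - 1 / 4‖ - 1 / 16)| / 4 : ℝ) : ℂ) *
      cexpi (3 * Real.pi / 4 * (4 / (3 * Real.pi) * Complex.arg (z - 1 / 4))) = z
    rw [h1, h2, lh_polar]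
    ring
  · show 0 ≤ 4 * (‖z - 1 / 4‖ - 1 / 16)
    linarith

private theorem lh_K_surj {z : ℂ} (h : 1 / 16 ≤ ‖z - 1 / 4‖) : ∃ w : ℂ, lh_K w = z ∧ 0 ≤ w.im ∧
    w.im = 16 * ‖z - 1 / 4‖ - 1 ∧ w.re = 2 / Real.pi * Complex.arg (1 / 4 - z) := by
  have hp := Real.pi_pos
  refine ⟨⟨2 / Real.pi * Complex.arg (1 / 4 - z), 16 * ‖z - 1 / 4‖ - 1⟩, ?_, ?_, rfl, rfl⟩
  · unfold lh_K
    have h1 : (|16 * ‖z - 1 / 4‖ - 1| + 1) / 16 = ‖1 / 4 - z‖ := by
      rw [abs_of_nonneg (by linarith), norm_sub_rev (1 / 4) z]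
      ring
    have h2 : Real.pi / 2 * (2 / Real.pi * Complex.arg (1 / 4 - z)) =
        Complex.arg (1 / 4 - z) := by
      field_simp
    show 1 / 4 - (((|16 * ‖z - 1 / 4‖ - 1| + 1) / 16 : ℝ) : ℂ) *
      cexpi (Real.pi / 2 * (2 / Real.pi * Complex.arg (1 / 4 - z))) = z
    rw [h1, h2, lh_polar]
    ring
  · show 0 ≤ 16 * ‖z - 1 / 4‖ - 1
    linarith

private theorem lh_G_m (w : ℂ) : lh_G (lh_m w) = lh_G w := by
  unfold lh_G
  rw [lh_m_re, lh_m_im, abs_neg]

private theorem lh_K_c (w : ℂ) : lh_K ((starRingEnd ℂ) w) = lh_K w := by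
  unfold lh_K
  rw [Complex.conj_re, Complex.conj_im, abs_neg]

private theorem lh_angle {a b t : ℝ} (ha : 0 < a) (h : |t| ≤ b) : |a * t| ≤ a * b := by
  rw [abs_mul, abs_of_pos ha]
  exact mul_le_mul_of_nonneg_left h ha.le

private theorem lh_angle' {a b t : ℝ} (ha : 0 < a) (h : |t| < b) : |a * t| < a * b := by
  rw [abs_mul, abs_of_pos ha]
  exact mul_lt_mul_of_pos_left h ha

private theorem lh_N_G {z : ℂ} (hz : z ∈ lh_D (1 / 16)) (h : z ∈ lh_N) :
    ∃ w ∈ SqI, 0 ≤ w.re ∧ lh_G w = z := by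
  have hp := Real.pi_pos
  obtain ⟨w, h1, h2, h3, h4⟩ := lh_G_surj hz.2.1
  refine ⟨w, ⟨?_, ?_⟩, h2, h1⟩
  · rw [abs_of_nonneg h2, h3]
    have := h.2
    linarith
  · rw [h4]
    refine (lh_angle' (by positivity) h.1.2).trans_le (le_of_eq ?_)
    field_simp

private theorem lh_Phi_neg (hp : lh_P p) {w : ℂ} (hw : w ∈ Sq) (h0 : 0 ≤ w.re) :
    lh_Phi p (lh_m w) = p (lh_m (lh_G w)) := by
  apply lh_db_neg hp (lh_G_D hw) _ h0 (lh_m_re w) (lh_G_m w)
  intro h
  rw [lh_G_norm, h]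
  norm_num

omit [TopologicalSpace M] in
private theorem lh_Phi_pos {w : ℂ} (h0 : 0 ≤ w.re) : lh_Phi p w = p (lh_G w) := by
  unfold lh_Phi lh_db
  rw [if_pos h0]

private theorem lh_Kap_neg (hp : lh_P p) {w : ℂ} (hw : w ∈ Sq) (h0 : 0 ≤ w.im) :
    lh_Kap p ((starRingEnd ℂ) w) = p (lh_m (lh_K w)) := by
  apply lh_db_neg hp (lh_K_D hw) _ h0 (Complex.conj_im w) (lh_K_c w)
  intro h
  rw [lh_K_norm, h]
  norm_num

omit [TopologicalSpace M] in
private theorem lh_Kap_pos {w : ℂ} (h0 : 0 ≤ w.im) : lh_Kap p w = p (lh_K w) := by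
  unfold lh_Kap lh_db
  rw [if_pos h0]

private theorem lh_Phi_img (hp : lh_P p) :
    lh_Phi p '' SqI = p '' (lh_D (1 / 16) ∩ (lh_N ∪ lh_m ⁻¹' lh_N)) := by
  ext m
  constructor
  · rintro ⟨w, hw, rfl⟩
    refine ⟨lh_db Complex.re lh_G w, ⟨lh_db_D (lh_G_D (lh_SqI_sub hw)), ?_⟩, rfl⟩
    unfold lh_db
    split_ifs
    · left
      exact lh_G_N hw
    · right
      show lh_m (lh_m _) ∈ lh_N
      rw [lh_mm]
      exact lh_G_N hw
  · rintro ⟨z, ⟨hz, hN | hN⟩, rfl⟩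
    · obtain ⟨w, hw, h0, rfl⟩ := lh_N_G hz hN
      exact ⟨w, hw, lh_Phi_pos h0⟩
    · obtain ⟨w, hw, h0, hG⟩ := lh_N_G (lh_D_m hz) hN
      refine ⟨lh_m w, ⟨?_, ?_⟩, ?_⟩
      · rw [lh_m_re, abs_neg]
        exact hw.1
      · rw [lh_m_im]
        exact hw.2
      · rw [lh_Phi_neg hp (lh_SqI_sub hw) h0, hG, lh_mm]

private theorem lh_O_inv {x y : ℂ} (h : lh_R x y) (hx : x ∈ lh_N ∪ lh_m ⁻¹' lh_N) :
    y ∈ lh_N ∪ lh_m ⁻¹' lh_N := by
  rcases h with h | ⟨-, h⟩
  · rw [← h]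
    exact hx
  · rcases hx with hx | hx
    · right
      show lh_m y ∈ lh_N
      rw [h, lh_mm]
      exact hx
    · left
      rw [h]
      exact hx

private theorem lh_Phi_open [T2Space M] (hp : lh_P p) : IsOpen (lh_Phi p '' SqI) := by
  rw [lh_Phi_img hp, ← isClosed_compl_iff]
  have hO : IsOpen (lh_N ∪ lh_m ⁻¹' lh_N) := lh_N_open.union (lh_N_open.preimage lh_m_cont)
  have h1 : (p '' (lh_D (1 / 16) ∩ (lh_N ∪ lh_m ⁻¹' lh_N)))ᶜ =
      p '' (lh_D (1 / 16) \ (lh_N ∪ lh_m ⁻¹' lh_N)) := by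
    ext m
    constructor
    · intro hm
      obtain ⟨z, hz, rfl⟩ := hp.surj m
      exact ⟨z, ⟨hz, fun h => hm ⟨z, ⟨hz, h⟩, rfl⟩⟩, rfl⟩
    · rintro ⟨z, ⟨hz, hn⟩, rfl⟩ ⟨y, ⟨hy, hy'⟩, h⟩
      exact hn (lh_O_inv ((hp.rel y hy z hz).1 h) hy')
  rw [h1]
  exact (((lh_D_compact _).diff hO).image_of_continuousOn (hp.cont.mono sdiff_subset)).isClosed

private theorem lh_Phi_UC (hp : lh_P p) : Disjoint (lh_Phi p '' SqI) (p '' UC) := by
  rw [Set.disjoint_left]
  rintro m ⟨w, hw, rfl⟩ ⟨u, hu, h⟩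
  have hG := lh_G_D (lh_SqI_sub hw)
  have hu1 : ‖u‖ = 1 := by
    rw [mem_sphere_zero_iff_norm] at hu
    exact hu
  have h4 : ‖(1 / 4 : ℂ)‖ = 1 / 4 := by norm_num
  have huD : u ∈ lh_D (1 / 16) := by
    refine ⟨hu1.le, ?_, ?_⟩
    · have := norm_sub_norm_le u (1 / 4)
      rw [hu1, h4] at this
      linarith
    · have := norm_sub_norm_le u (-(1 / 4))
      rw [hu1, norm_neg, h4, sub_neg_eq_add] at this
      linarith
  have h1 := (hp.rel _ (lh_db_D hG) _ huD).1 h.symm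
  have h2 : ‖lh_db Complex.re lh_G w‖ = ‖lh_G w‖ := by
    unfold lh_db
    split_ifs
    · rfl
    · exact lh_m_norm _
  have h3 : ‖u‖ = ‖lh_G w‖ := by
    rcases h1 with h1 | ⟨-, h1⟩
    · rw [← h1, h2]
    · rw [h1, lh_m_norm, h2]
  have h5 := lh_near (lh_G_norm w).le
  have h6 := hw.1
  linarith

private theorem lh_Phi_ball (hp : lh_P p) :
    p '' closedBall (((27 / 50 : ℝ)) : ℂ) (1 / 200) ⊆ lh_Phi p '' SqI := by
  have hpi := Real.pi_pos
  rw [lh_Phi_img hp]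
  apply image_mono
  intro z hz
  rw [mem_closedBall, dist_eq_norm] at hz
  have h1 : |(z - ((27 / 50 : ℝ) : ℂ)).re| ≤ 1 / 200 := (Complex.abs_re_le_norm _).trans hz
  rw [Complex.sub_re, Complex.ofReal_re] at h1
  have h2 := abs_le.1 h1
  have h3 : ‖z - 1 / 4‖ ≤ 1 / 200 + 29 / 100 := by
    have e1 : z - 1 / 4 = (z - ((27 / 50 : ℝ) : ℂ)) + ((29 / 100 : ℝ) : ℂ) := by
      push_cast
      ring
    rw [e1]
    refine (norm_add_le _ _).trans ?_
    rw [Complex.norm_real, Real.norm_eq_abs, abs_of_pos (by norm_num : (0 : ℝ) < 29 / 100)]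
    linarith
  have h4 : (z - 1 / 4).re = z.re - 1 / 4 := by
    rw [Complex.sub_re]
    norm_num
  have h5 : z.re - 1 / 4 ≤ ‖z - 1 / 4‖ := by
    rw [← h4]
    exact Complex.re_le_norm _
  have h6 := lh_near h3
  have h7 := lh_far (x := z) (by linarith)
  refine ⟨⟨by linarith, by linarith, by linarith⟩, Or.inl ⟨⟨?_, ?_⟩, by linarith⟩⟩
  · left
    rw [h4]
    linarith
  · have : |Complex.arg (z - 1 / 4)| < Real.pi / 2 := by
      rw [Complex.abs_arg_lt_pi_div_two_iff]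
      left
      rw [h4]
      linarith
    linarith

/-- The disc which is removed. -/
def lh_E : Set ℂ := Icc (-(1 / 4)) (1 / 4) ×ℂ Icc (-(2 / 3)) (2 / 3)

private theorem lh_E_int (w : ℂ) : w ∈ interior lh_E ↔ |w.re| < 1 / 4 ∧ |w.im| < 2 / 3 := by
  unfold lh_E
  rw [Complex.interior_reProdIm, interior_Icc, interior_Icc, Complex.mem_reProdIm, mem_Ioo,
    mem_Ioo, ← abs_lt, ← abs_lt]

private theorem lh_E_mem (w : ℂ) : w ∈ lh_E ↔ |w.re| ≤ 1 / 4 ∧ |w.im| ≤ 2 / 3 := by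
  unfold lh_E
  rw [Complex.mem_reProdIm, mem_Icc, mem_Icc, ← abs_le, ← abs_le]

private theorem lh_E_closed : IsClosed lh_E := isClosed_Icc.reProdIm isClosed_Icc

private theorem lh_E_fr (w : ℂ) : w ∈ frontier lh_E ↔
    (|w.re| ≤ 1 / 4 ∧ |w.im| ≤ 2 / 3) ∧ (|w.re| = 1 / 4 ∨ |w.im| = 2 / 3) := by
  rw [lh_E_closed.frontier_eq, mem_sdiff, lh_E_mem, lh_E_int]
  constructor
  · rintro ⟨h1, h2⟩
    refine ⟨h1, ?_⟩
    by_contra hc
    push Not at hc
    exact h2 ⟨lt_of_le_of_ne h1.1 hc.1, lt_of_le_of_ne h1.2 hc.2⟩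
  · rintro ⟨h1, h2⟩
    refine ⟨h1, ?_⟩
    rintro ⟨h3, h4⟩
    rcases h2 with h2 | h2
    · linarith
    · linarith

private theorem lh_E_sub : lh_E ⊆ SqI := by
  intro w hw
  rw [lh_E_mem] at hw
  exact ⟨by linarith [hw.1], by linarith [hw.2]⟩

private theorem lh_quarter (z : ℂ) : (z - 1 / 4).re = z.re - 1 / 4 := by
  rw [Complex.sub_re]
  norm_num

private theorem lh_quarter' (z : ℂ) : (1 / 4 - z).re = 1 / 4 - z.re := by
  rw [Complex.sub_re]
  norm_num

private theorem lh_split {z : ℂ} (hz : z ∈ lh_D (1 / 16)) (h : ‖z - 1 / 4‖ < 1 / 8) :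
    (∃ w ∈ Sq, 0 ≤ w.im ∧ lh_K w = z) ∨ (∃ w ∈ interior lh_E, 0 ≤ w.re ∧ lh_G w = z) := by
  have hp := Real.pi_pos
  rcases le_or_gt z.re (1 / 4) with hr | hr
  · left
    obtain ⟨w, h1, h2, h3, h4⟩ := lh_K_surj hz.2.1
    have ha : |Complex.arg (1 / 4 - z)| ≤ Real.pi / 2 := by
      rw [Complex.abs_arg_le_pi_div_two_iff, lh_quarter']
      linarith
    refine ⟨w, ⟨?_, ?_⟩, h2, h1⟩
    · rw [h4]
      refine (lh_angle (by positivity) ha).trans (le_of_eq ?_)
      field_simp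
    · rw [abs_of_nonneg h2, h3]
      linarith
  · right
    obtain ⟨w, h1, h2, h3, h4⟩ := lh_G_surj hz.2.1
    have ha : |Complex.arg (z - 1 / 4)| < Real.pi / 2 := by
      rw [Complex.abs_arg_lt_pi_div_two_iff, lh_quarter]
      left
      linarith
    refine ⟨w, (lh_E_int w).2 ⟨?_, ?_⟩, h2, h1⟩
    · rw [abs_of_nonneg h2, h3]
      linarith
    · rw [h4]
      refine (lh_angle' (by positivity) ha).trans_le (le_of_eq ?_)
      field_simp
      norm_num

private theorem lh_D_mono {a b : ℝ} (h : a ≤ b) : lh_D b ⊆ lh_D a :=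
  fun _ hz => ⟨hz.1, h.trans hz.2.1, h.trans hz.2.2⟩

private theorem lh_E_m {w : ℂ} (hw : w ∈ interior lh_E) : lh_m w ∈ interior lh_E := by
  rw [lh_E_int] at hw ⊢
  rw [lh_m_re, lh_m_im, abs_neg]
  exact hw

private theorem lh_Sq_c {w : ℂ} (hw : w ∈ Sq) : (starRingEnd ℂ) w ∈ Sq := by
  refine ⟨?_, ?_⟩
  · rw [Complex.conj_re]
    exact hw.1
  · rw [Complex.conj_im, abs_neg]
    exact hw.2

private theorem lh_cover (hp : lh_P p) : (univ : Set M) \ lh_Phi p '' interior lh_E =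
    p '' lh_D (1 / 8) ∪ lh_Kap p '' Sq := by
  have hpi := Real.pi_pos
  have hES : ∀ w ∈ interior lh_E, w ∈ Sq := fun w hw =>
    lh_SqI_sub (lh_E_sub (interior_subset hw))
  ext m
  constructor
  · rintro ⟨-, hm⟩
    obtain ⟨z, hz, rfl⟩ := hp.surj m
    by_cases h1 : 1 / 8 ≤ ‖z - 1 / 4‖
    · by_cases h2 : 1 / 8 ≤ ‖z + 1 / 4‖
      · exact Or.inl ⟨z, ⟨hz.1, h1, h2⟩, rfl⟩
      · push Not at h2
        rw [← lh_m_sub] at h2
        rcases lh_split (lh_D_m hz) h2 with ⟨w, hw, h0, hK⟩ | ⟨w, hw, h0, hG⟩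
        · right
          refine ⟨(starRingEnd ℂ) w, lh_Sq_c hw, ?_⟩
          rw [lh_Kap_neg hp hw h0, hK, lh_mm]
        · exfalso
          apply hm
          refine ⟨lh_m w, lh_E_m hw, ?_⟩
          rw [lh_Phi_neg hp (hES w hw) h0, hG, lh_mm]
    · push Not at h1
      rcases lh_split hz h1 with ⟨w, hw, h0, hK⟩ | ⟨w, hw, h0, hG⟩
      · right
        exact ⟨w, hw, by rw [lh_Kap_pos h0, hK]⟩
      · exfalso
        exact hm ⟨w, hw, by rw [lh_Phi_pos h0, hG]⟩
  · rintro (⟨y, hy, rfl⟩ | ⟨v, hv, rfl⟩)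
    · refine ⟨mem_univ _, ?_⟩
      rintro ⟨w, hw, h⟩
      have hG := lh_G_D (hES w hw)
      have h1 := (hp.rel _ (lh_D_mono (by norm_num) hy) _ (lh_db_D hG)).1 h.symm
      rcases h1 with h1 | ⟨h1, -⟩
      · have h2 : lh_G w ∈ lh_D (1 / 8) := by
          unfold lh_db at h1
          split_ifs at h1
          · rw [← h1]
            exact hy
          · rw [← lh_mm (lh_G w), ← h1]
            exact lh_D_m hy
        have h3 := h2.2.1
        rw [lh_G_norm] at h3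
        have h4 := ((lh_E_int w).1 hw).1
        linarith
      · have h2 := hy.2.1
        have h3 := hy.2.2
        rcases h1 with h1 | h1
        · linarith
        · linarith
    · refine ⟨mem_univ _, ?_⟩
      rintro ⟨w, hw, h⟩
      have h1 := (hp.rel _ (lh_db_D (lh_K_D hv)) _ (lh_db_D (lh_G_D (hES w hw)))).1 h.symm
      have h2 := (lh_db_R (lh_K_pos hv) (lh_G_pos (hES w hw)) h1).1
      have h3 : (lh_K v).re ≤ 1 / 4 := by
        rw [lh_K_re]
        have h4 : 0 ≤ Real.cos (Real.pi / 2 * v.re) := by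
          have h5 := abs_le.1 (lh_angle (a := Real.pi / 2) (by positivity) hv.1)
          exact Real.cos_nonneg_of_mem_Icc ⟨by linarith [h5.1], by linarith [h5.2]⟩
        have h5 : 0 ≤ (|v.im| + 1) / 16 := by positivity
        nlinarith
      have h4 : 1 / 4 < (lh_G w).re := by
        rw [lh_G_re]
        have h5 : 0 < Real.cos (3 * Real.pi / 4 * w.im) := by
          have h6 := abs_lt.1 (lh_angle' (a := 3 * Real.pi / 4) (by positivity)
            ((lh_E_int w).1 hw).2)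
          exact Real.cos_pos_of_mem_Ioo ⟨by linarith [h6.1], by linarith [h6.2]⟩
        have h7 : 0 < 1 / 16 + |w.re| / 4 := by positivity
        nlinarith
      rw [h2] at h3
      linarith

/-- The rest of the circles. -/
def lh_FB : Set ℂ := {y | y ∈ lh_D (1 / 8) ∧ ((‖y - 1 / 4‖ = 1 / 8 ∧ 1 / 4 ≤ y.re) ∨
  (‖y + 1 / 4‖ = 1 / 8 ∧ y.re ≤ -(1 / 4)))}

private theorem lh_FB_m {y : ℂ} (h : y ∈ lh_FB) : lh_m y ∈ lh_FB := by
  refine ⟨lh_D_m h.1, ?_⟩
  rcases h.2 with ⟨h1, h2⟩ | ⟨h1, h2⟩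
  · right
    rw [lh_m_add, lh_m_re]
    exact ⟨h1, by linarith⟩
  · left
    rw [lh_m_sub, lh_m_re]
    exact ⟨h1, by linarith⟩

private theorem lh_FB_G {w : ℂ} (h1 : |w.re| = 1 / 4) (h2 : |w.im| ≤ 2 / 3) :
    lh_G w ∈ lh_FB := by
  have hpi := Real.pi_pos
  have hw : w ∈ Sq := ⟨by linarith, by linarith⟩
  have h3 := lh_G_norm w
  rw [h1] at h3
  have h4 := lh_far (lh_G_pos hw)
  have h5 := (lh_G_D hw).1
  refine ⟨⟨h5, by linarith, by linarith⟩, Or.inl ⟨by linarith, ?_⟩⟩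
  rw [lh_G_re]
  have h6 : 0 ≤ Real.cos (3 * Real.pi / 4 * w.im) := by
    have h7 := abs_le.1 (lh_angle (a := 3 * Real.pi / 4) (by positivity) h2)
    exact Real.cos_nonneg_of_mem_Icc ⟨by linarith [h7.1], by linarith [h7.2]⟩
  have h7 : 0 < 1 / 16 + |w.re| / 4 := by positivity
  nlinarith

private theorem lh_G_FB {y : ℂ} (h1 : ‖y - 1 / 4‖ = 1 / 8) (h2 : 1 / 4 ≤ y.re) :
    ∃ w ∈ frontier lh_E, 0 < w.re ∧ lh_G w = y := by
  have hpi := Real.pi_pos
  obtain ⟨w, e1, e2, e3, e4⟩ := lh_G_surj (z := y) (by linarith)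
  have ha : |Complex.arg (y - 1 / 4)| ≤ Real.pi / 2 := by
    rw [Complex.abs_arg_le_pi_div_two_iff, lh_quarter]
    linarith
  have hre : w.re = 1 / 4 := by
    rw [e3, h1]
    norm_num
  refine ⟨w, ?_, by rw [hre]; norm_num, e1⟩
  rw [lh_E_fr]
  refine ⟨⟨?_, ?_⟩, Or.inl ?_⟩
  · rw [hre, abs_of_pos (by norm_num)]
  · rw [e4]
    refine (lh_angle (by positivity) ha).trans (le_of_eq ?_)
    field_simp
    norm_num
  · rw [hre, abs_of_pos (by norm_num)]

private theorem lh_corr {v w : ℂ} (h1 : |v.re| = 1) (h2 : w.im = -(2 / 3) * v.re)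
    (h3 : w.re = v.im / 4) :
    lh_db Complex.im lh_K v = lh_db Complex.re lh_G w := by
  have hK : lh_K v = lh_G w := by
    unfold lh_K lh_G
    have e1 : 1 / 16 + |w.re| / 4 = (|v.im| + 1) / 16 := by
      rw [h3, abs_div, abs_of_pos (by norm_num : (0 : ℝ) < 4)]
      ring
    have e2 : 3 * Real.pi / 4 * w.im = -(Real.pi / 2 * v.re) := by
      rw [h2]
      ring
    have e3 : cexpi (-(Real.pi / 2 * v.re)) = -cexpi (Real.pi / 2 * v.re) := by
      apply Complex.ext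
      · rw [Complex.neg_re, lh_re, lh_re, Real.cos_neg]
        have : Real.cos (Real.pi / 2 * v.re) = 0 := by
          rcases (abs_eq (by norm_num : (0 : ℝ) ≤ 1)).1 h1 with h | h
          · rw [h, mul_one, Real.cos_pi_div_two]
          · rw [h, mul_neg, mul_one, Real.cos_neg, Real.cos_pi_div_two]
        rw [this, neg_zero]
      · rw [Complex.neg_im, lh_im, lh_im, Real.sin_neg]
    rw [e1, e2, e3]
    ring
  unfold lh_db
  rw [hK]
  by_cases h : 0 ≤ v.im
  · rw [if_pos h, if_pos (by rw [h3]; linarith)]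
  · rw [if_neg h, if_neg (by rw [h3]; linarith)]

private theorem lh_front (hp : lh_P p) :
    lh_Phi p '' frontier lh_E = p '' lh_FB ∪ lh_Kap p '' SqF := by
  ext m
  constructor
  · rintro ⟨w, hw, rfl⟩
    rw [lh_E_fr] at hw
    obtain ⟨⟨h1, h2⟩, h3 | h3⟩ := hw
    · left
      refine ⟨lh_db Complex.re lh_G w, ?_, rfl⟩
      unfold lh_db
      split_ifs
      · exact lh_FB_G h3 h2
      · exact lh_FB_m (lh_FB_G h3 h2)
    · right
      refine ⟨⟨-(3 / 2) * w.im, 4 * w.re⟩, ⟨?_, ?_⟩, ?_⟩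
      · show |-(3 / 2) * w.im| = 1
        rw [abs_mul, h3]
        norm_num
      · show |4 * w.re| ≤ 1
        rw [abs_mul, abs_of_pos (by norm_num : (0 : ℝ) < 4)]
        linarith
      · unfold lh_Kap lh_Phi
        congr 1
        apply lh_corr
        · show |-(3 / 2) * w.im| = 1
          rw [abs_mul, h3]
          norm_num
        · show w.im = -(2 / 3) * (-(3 / 2) * w.im)
          ring
        · show w.re = 4 * w.re / 4
          ring
  · rintro (⟨y, hy, rfl⟩ | ⟨v, hv, rfl⟩)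
    · rcases hy.2 with ⟨h1, h2⟩ | ⟨h1, h2⟩
      · obtain ⟨w, hw, h0, hG⟩ := lh_G_FB h1 h2
        exact ⟨w, hw, by rw [lh_Phi_pos h0.le, hG]⟩
      · rw [← lh_m_sub] at h1
        obtain ⟨w, hw, h0, hG⟩ := lh_G_FB h1 (by rw [lh_m_re]; linarith)
        refine ⟨lh_m w, ?_, ?_⟩
        · rw [lh_E_fr] at hw ⊢
          rw [lh_m_re, lh_m_im, abs_neg]
          exact hw
        · have hwE := (lh_E_fr w).1 hw
          rw [lh_Phi_neg hp ⟨by linarith [hwE.1.1], by linarith [hwE.1.2]⟩ h0.le, hG, lh_mm]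
    · have hv1 : |v.re| = 1 := hv.1
      have hv2 : |v.im| ≤ 1 := hv.2
      refine ⟨⟨v.im / 4, -(2 / 3) * v.re⟩, ?_, ?_⟩
      · rw [lh_E_fr]
        have e1 : |v.im / 4| ≤ 1 / 4 := by
          rw [abs_div, abs_of_pos (by norm_num : (0 : ℝ) < 4)]
          linarith
        have e2 : |-(2 / 3) * v.re| = 2 / 3 := by
          rw [abs_mul, hv1]
          norm_num
        exact ⟨⟨e1, e2.le⟩, Or.inr e2⟩
      · unfold lh_Kap lh_Phi
        congr 1
        symm
        exact lh_corr hv1 rfl rfl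

end M

/-! ### The radial map -/

/-- The radial function. -/
noncomputable def lh_g (t : ℝ) : ℝ := max t ((t + 3 / 16) / 2)

/-- The radial map. -/
noncomputable def lh_tau (c z : ℂ) : ℂ := c + ((lh_g ‖z - c‖ / ‖z - c‖ : ℝ) : ℂ) * (z - c)

private theorem lh_g_big {t : ℝ} (h : 3 / 16 ≤ t) : lh_g t = t := by
  unfold lh_g
  exact max_eq_left (by linarith)

private theorem lh_g_small {t : ℝ} (h : t ≤ 3 / 16) : lh_g t = (t + 3 / 16) / 2 := by
  unfold lh_g
  exact max_eq_right (by linarith)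

private theorem lh_g_ge (t : ℝ) : t ≤ lh_g t := le_max_left _ _

private theorem lh_g_inj {t t' : ℝ} (h : lh_g t = lh_g t') : t = t' := by
  rcases le_total t (3 / 16) with h1 | h1
  · rcases le_total t' (3 / 16) with h2 | h2
    · rw [lh_g_small h1, lh_g_small h2] at h
      linarith
    · rw [lh_g_small h1, lh_g_big h2] at h
      linarith
  · rcases le_total t' (3 / 16) with h2 | h2
    · rw [lh_g_big h1, lh_g_small h2] at h
      linarith
    · rw [lh_g_big h1, lh_g_big h2] at h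
      exact h

private theorem lh_tau_big {c z : ℂ} (h : 3 / 16 ≤ ‖z - c‖) : lh_tau c z = z := by
  unfold lh_tau
  rw [lh_g_big h, div_self (by linarith), Complex.ofReal_one, one_mul]
  ring

private theorem lh_tau_norm {c z : ℂ} (h : 0 < ‖z - c‖) : ‖lh_tau c z - c‖ = lh_g ‖z - c‖ := by
  unfold lh_tau
  have h1 : 0 < lh_g ‖z - c‖ := h.trans_le (lh_g_ge _)
  rw [add_sub_cancel_left, norm_mul, Complex.norm_real, Real.norm_eq_abs, abs_of_pos (by positivity),
    div_mul_cancel₀ _ h.ne']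

private theorem lh_tau_inj {c z w : ℂ} (hz : 0 < ‖z - c‖) (hw : 0 < ‖w - c‖)
    (h : lh_tau c z = lh_tau c w) : z = w := by
  have h1 : ‖z - c‖ = ‖w - c‖ := by
    apply lh_g_inj
    rw [← lh_tau_norm hz, ← lh_tau_norm hw, h]
  unfold lh_tau at h
  rw [← h1] at h
  have h2 : 0 < lh_g ‖z - c‖ := hz.trans_le (lh_g_ge _)
  have h3 : ((lh_g ‖z - c‖ / ‖z - c‖ : ℝ) : ℂ) ≠ 0 := by
    exact_mod_cast (div_pos h2 hz).ne'
  have h4 := mul_left_cancel₀ h3 (add_left_cancel h)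
  exact sub_left_injective h4

private theorem lh_tau_cont (c : ℂ) : ContinuousOn (lh_tau c) {z | 1 / 16 ≤ ‖z - c‖} := by
  have hg : Continuous lh_g := by
    unfold lh_g
    fun_prop
  unfold lh_tau
  apply ContinuousOn.add continuousOn_const
  apply ContinuousOn.mul
  · apply Complex.continuous_ofReal.comp_continuousOn
    apply ContinuousOn.div
    · exact (hg.comp (by fun_prop)).continuousOn
    · fun_prop
    · intro z hz
      have : (1 / 16 : ℝ) ≤ ‖z - c‖ := hz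
      linarith
  · fun_prop

private theorem lh_tau_surj {c y : ℂ} (h : 1 / 8 ≤ ‖y - c‖) :
    ∃ z, 1 / 16 ≤ ‖z - c‖ ∧ lh_tau c z = y := by
  have h0 : 0 < ‖y - c‖ := by linarith
  obtain ⟨t, ht1, ht2⟩ : ∃ t : ℝ, 1 / 16 ≤ t ∧ lh_g t = ‖y - c‖ := by
    rcases le_total ‖y - c‖ (3 / 16) with h1 | h1
    · exact ⟨2 * ‖y - c‖ - 3 / 16, by linarith, by rw [lh_g_small (by linarith)]; ring⟩
    · exact ⟨‖y - c‖, by linarith, lh_g_big h1⟩
  have ht0 : 0 < t := by linarith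
  have hn : ‖(c + ((t / ‖y - c‖ : ℝ) : ℂ) * (y - c)) - c‖ = t := by
    rw [add_sub_cancel_left, norm_mul, Complex.norm_real, Real.norm_eq_abs,
      abs_of_pos (by positivity), div_mul_cancel₀ _ h0.ne']
  refine ⟨c + ((t / ‖y - c‖ : ℝ) : ℂ) * (y - c), by rw [hn]; exact ht1, ?_⟩
  unfold lh_tau
  rw [hn, ht2, add_sub_cancel_left, ← mul_assoc, ← Complex.ofReal_mul]
  have : ‖y - c‖ / t * (t / ‖y - c‖) = 1 := by
    field_simp
  rw [this, Complex.ofReal_one, one_mul]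
  ring

private theorem lh_tau_val (c u : ℂ) (hu : ‖u‖ = 1) : lh_tau c (c + 1 / 16 * u) = c + 1 / 8 * u := by
  have h1 : ‖c + 1 / 16 * u - c‖ = 1 / 16 := by
    rw [add_sub_cancel_left, norm_mul, hu]
    norm_num
  unfold lh_tau
  rw [h1, lh_g_small (by norm_num), add_sub_cancel_left]
  push_cast
  ring

private theorem lh_T1 (hANG : St_ANG) (c : ℂ) (θ α : ℝ → ℝ) (hθ : ContinuousOn θ (Icc (-1) 1))
    (hα : ContinuousOn α (Icc (-1) 1))
    (hm : (StrictMonoOn θ (Icc (-1) 1) ∧ StrictMonoOn α (Icc (-1) 1)) ∨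
      (StrictAntiOn θ (Icc (-1) 1) ∧ StrictAntiOn α (Icc (-1) 1)))
    (hi : InjOn (fun x => cexpi (θ x)) (Icc (-1) 1))
    (hj : InjOn (fun x => cexpi (α x)) (Icc (-1) 1)) :
    ∃ T : ℂ → ℂ, ContinuousOn T {z | 1 / 16 ≤ ‖z - c‖} ∧ (∀ z, 3 / 16 ≤ ‖z - c‖ → T z = z) ∧
      (∀ z, 1 / 16 ≤ ‖z - c‖ → ‖T z - c‖ = lh_g ‖z - c‖) ∧ InjOn T {z | 1 / 16 ≤ ‖z - c‖} ∧
      (∀ y, 1 / 8 ≤ ‖y - c‖ → ∃ z, 1 / 16 ≤ ‖z - c‖ ∧ T z = y) ∧
      ∀ x ∈ Icc (-1 : ℝ) 1, T (c + 1 / 16 * cexpi (θ x)) = c + 1 / 8 * cexpi (α x) := by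
  obtain ⟨Φ, h1, h2, h3⟩ := hANG.1 c (1 / 16) (3 / 16) (by norm_num) (by norm_num) θ α hθ hα hm hi hj
  refine ⟨fun z => lh_tau c (Φ z), ?_, ?_, ?_, ?_, ?_, ?_⟩
  · apply (lh_tau_cont c).comp Φ.continuous.continuousOn
    intro z hz
    show 1 / 16 ≤ ‖Φ z - c‖
    rw [h2]
    exact hz
  · intro z hz
    have h4 : Φ z = z := by
      apply h1
      rw [mem_ball, dist_eq_norm]
      linarith
    show lh_tau c (Φ z) = z
    rw [h4, lh_tau_big hz]
  · intro z hz
    show ‖lh_tau c (Φ z) - c‖ = lh_g ‖z - c‖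
    rw [lh_tau_norm (by rw [h2]; linarith), h2]
  · intro z hz w hw h
    have hz' : 1 / 16 ≤ ‖z - c‖ := hz
    have hw' : 1 / 16 ≤ ‖w - c‖ := hw
    exact Φ.injective (lh_tau_inj (by rw [h2]; linarith) (by rw [h2]; linarith) h)
  · intro y hy
    obtain ⟨z, hz1, hz2⟩ := lh_tau_surj hy
    refine ⟨Φ.symm z, ?_, ?_⟩
    · rw [← h2, Φ.apply_symm_apply]
      exact hz1
    · show lh_tau c (Φ (Φ.symm z)) = y
      rw [Φ.apply_symm_apply]
      exact hz2
  · intro x hx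
    have h4 := h3 x hx
    have e : (((1 / 16 : ℝ)) : ℂ) = 1 / 16 := by push_cast; ring
    rw [e] at h4
    show lh_tau c (Φ (c + 1 / 16 * cexpi (θ x))) = _
    rw [h4, lh_tau_val _ _ (lh_norm _)]

private theorem lh_tri (u : ℂ) : 1 / 2 ≤ ‖u - 1 / 4‖ + ‖u + 1 / 4‖ := by
  have h1 := norm_sub_le (u + 1 / 4) (u - 1 / 4)
  have h2 : (u + 1 / 4) - (u - 1 / 4) = 1 / 2 := by ring
  rw [h2] at h1
  have h3 : ‖(1 / 2 : ℂ)‖ = 1 / 2 := by norm_num
  rw [h3] at h1
  linarith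

private theorem lh_near' {x : ℂ} {r : ℝ} (h : ‖x + 1 / 4‖ ≤ r) : ‖x‖ ≤ r + 1 / 4 := by
  rw [← lh_m_norm]
  apply lh_near
  rw [lh_m_sub]
  exact h

private theorem lh_T (hANG : St_ANG) (θ₁ θ₂ α₁ α₂ : ℝ → ℝ)
    (h1 : ContinuousOn θ₁ (Icc (-1) 1)) (h2 : ContinuousOn θ₂ (Icc (-1) 1))
    (h3 : ContinuousOn α₁ (Icc (-1) 1)) (h4 : ContinuousOn α₂ (Icc (-1) 1))
    (h5 : StrictMonoOn θ₁ (Icc (-1) 1)) (h6 : StrictAntiOn θ₂ (Icc (-1) 1))
    (h7 : StrictMonoOn α₁ (Icc (-1) 1)) (h8 : StrictAntiOn α₂ (Icc (-1) 1))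
    (h9 : InjOn (fun x => cexpi (θ₁ x)) (Icc (-1) 1))
    (h10 : InjOn (fun x => cexpi (θ₂ x)) (Icc (-1) 1))
    (h11 : InjOn (fun x => cexpi (α₁ x)) (Icc (-1) 1))
    (h12 : InjOn (fun x => cexpi (α₂ x)) (Icc (-1) 1)) :
    ∃ T : ℂ → ℂ, ContinuousOn T (lh_D (1 / 16)) ∧ InjOn T (lh_D (1 / 16)) ∧
      T '' lh_D (1 / 16) = lh_D (1 / 8) ∧ (∀ z ∈ UC, T z = z) ∧
      (∀ z ∈ lh_D (1 / 16), (‖T z - 1 / 4‖ = 1 / 8 ↔ ‖z - 1 / 4‖ = 1 / 16) ∧
        (‖T z + 1 / 4‖ = 1 / 8 ↔ ‖z + 1 / 4‖ = 1 / 16)) ∧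
      (∀ x ∈ Icc (-1 : ℝ) 1, T (1 / 4 + 1 / 16 * cexpi (θ₁ x)) = 1 / 4 + 1 / 8 * cexpi (α₁ x)) ∧
      ∀ x ∈ Icc (-1 : ℝ) 1,
        T (-(1 / 4) + 1 / 16 * cexpi (θ₂ x)) = -(1 / 4) + 1 / 8 * cexpi (α₂ x) := by
  obtain ⟨T₁, a1, a2, a3, a4, a5, a6⟩ := lh_T1 hANG (1 / 4) θ₁ α₁ h1 h3 (Or.inl ⟨h5, h7⟩) h9 h11
  obtain ⟨T₂, b1, b2, b3, b4, b5, b6⟩ := lh_T1 hANG (-(1 / 4)) θ₂ α₂ h2 h4 (Or.inr ⟨h6, h8⟩) h10 h12
  simp only [sub_neg_eq_add] at b1 b2 b3 b4 b5
  -- case A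
  have hA : ∀ z, 1 / 16 ≤ ‖z - 1 / 4‖ → ‖z - 1 / 4‖ < 3 / 16 → T₂ (T₁ z) = T₁ z ∧
      ‖T₁ z - 1 / 4‖ = (‖z - 1 / 4‖ + 3 / 16) / 2 ∧ 5 / 16 < ‖T₁ z + 1 / 4‖ ∧
      ‖T₁ z‖ ≤ 7 / 16 := by
    intro z hz1 hz2
    have e1 := a3 z hz1
    rw [lh_g_small hz2.le] at e1
    have e2 := lh_tri (T₁ z)
    have e3 : 5 / 16 < ‖T₁ z + 1 / 4‖ := by linarith
    have e4 := lh_near e1.le
    exact ⟨b2 _ (by linarith), e1, e3, by linarith⟩
  have hB : ∀ z, 3 / 16 ≤ ‖z - 1 / 4‖ → T₂ (T₁ z) = T₂ z := by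
    intro z hz
    rw [a2 z hz]
  have hC : ∀ z, 1 / 16 ≤ ‖z + 1 / 4‖ → ‖z + 1 / 4‖ < 3 / 16 → T₂ (T₁ z) = T₂ z ∧
      ‖T₂ z + 1 / 4‖ = (‖z + 1 / 4‖ + 3 / 16) / 2 ∧ 5 / 16 < ‖T₂ z - 1 / 4‖ ∧
      ‖T₂ z‖ ≤ 7 / 16 := by
    intro z hz1 hz2
    have e1 := b3 z hz1
    rw [lh_g_small hz2.le] at e1
    have e2 := lh_tri (T₂ z)
    have e3 : 5 / 16 < ‖T₂ z - 1 / 4‖ := by linarith
    have e4 := lh_near' e1.le
    have e5 := lh_tri z
    exact ⟨hB z (by linarith), e1, e3, by linarith⟩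
  have hE : ∀ z, 3 / 16 ≤ ‖z - 1 / 4‖ → 3 / 16 ≤ ‖z + 1 / 4‖ → T₂ (T₁ z) = z := by
    intro z hz1 hz2
    rw [hB z hz1, b2 z hz2]
  have hmaps : MapsTo T₁ (lh_D (1 / 16)) {z | 1 / 16 ≤ ‖z + 1 / 4‖} := by
    intro z hz
    show 1 / 16 ≤ ‖T₁ z + 1 / 4‖
    rcases lt_or_ge ‖z - 1 / 4‖ (3 / 16) with h | h
    · have := (hA z hz.2.1 h).2.2.1
      linarith
    · rw [a2 z h]
      exact hz.2.2
  have hsub : lh_D (1 / 16) ⊆ {z | 1 / 16 ≤ ‖z - 1 / 4‖} := fun z hz => hz.2.1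
  refine ⟨fun z => T₂ (T₁ z), ?_, ?_, ?_, ?_, ?_, ?_, ?_⟩
  · exact b1.comp (a1.mono hsub) hmaps
  · exact b4.comp (a4.mono hsub) hmaps
  · apply Subset.antisymm
    · rintro _ ⟨z, hz, rfl⟩
      show T₂ (T₁ z) ∈ lh_D (1 / 8)
      rcases lt_or_ge ‖z - 1 / 4‖ (3 / 16) with h | h
      · obtain ⟨e1, e2, e3, e4⟩ := hA z hz.2.1 h
        have := hz.2.1
        rw [e1]
        exact ⟨by linarith, by linarith, by linarith⟩
      · rcases lt_or_ge ‖z + 1 / 4‖ (3 / 16) with h' | h'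
        · obtain ⟨e1, e2, e3, e4⟩ := hC z hz.2.2 h'
          have := hz.2.2
          rw [e1]
          exact ⟨by linarith, by linarith, by linarith⟩
        · rw [hE z h h']
          exact ⟨hz.1, by linarith, by linarith⟩
    · intro y hy
      rcases lt_or_ge ‖y - 1 / 4‖ (3 / 16) with h | h
      · obtain ⟨z, hz1, hz2⟩ := a5 y hy.2.1
        have e1 := a3 z hz1
        rw [hz2] at e1
        have e2 : ‖z - 1 / 4‖ < 3 / 16 := (lh_g_ge _).trans_lt (by rw [← e1]; exact h)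
        have e3 := lh_tri z
        have e4 := lh_near e2.le
        refine ⟨z, ⟨by linarith, hz1, by linarith⟩, ?_⟩
        show T₂ (T₁ z) = y
        rw [(hA z hz1 e2).1, hz2]
      · rcases lt_or_ge ‖y + 1 / 4‖ (3 / 16) with h' | h'
        · obtain ⟨z, hz1, hz2⟩ := b5 y hy.2.2
          have e1 := b3 z hz1
          rw [hz2] at e1
          have e2 : ‖z + 1 / 4‖ < 3 / 16 := (lh_g_ge _).trans_lt (by rw [← e1]; exact h')
          have e3 := lh_tri z
          have e4 := lh_near' e2.le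
          refine ⟨z, ⟨by linarith, by linarith, hz1⟩, ?_⟩
          show T₂ (T₁ z) = y
          rw [(hC z hz1 e2).1, hz2]
        · exact ⟨y, ⟨hy.1, by linarith, by linarith⟩, hE y h h'⟩
  · intro z hz
    have hz1 : ‖z‖ = 1 := by
      rw [mem_sphere_zero_iff_norm] at hz
      exact hz
    apply hE
    · by_contra hc
      push Not at hc
      have := lh_near hc.le
      linarith
    · by_contra hc
      push Not at hc
      have := lh_near' hc.le
      linarith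
  · intro z hz
    show (‖T₂ (T₁ z) - 1 / 4‖ = 1 / 8 ↔ ‖z - 1 / 4‖ = 1 / 16) ∧
        (‖T₂ (T₁ z) + 1 / 4‖ = 1 / 8 ↔ ‖z + 1 / 4‖ = 1 / 16)
    rcases lt_or_ge ‖z - 1 / 4‖ (3 / 16) with h | h
    · obtain ⟨e1, e2, e3, e4⟩ := hA z hz.2.1 h
      have e5 := lh_tri z
      rw [e1]
      refine ⟨⟨fun h' => by linarith, fun h' => by linarith⟩,
        ⟨fun h' => by linarith, fun h' => by linarith⟩⟩
    · rcases lt_or_ge ‖z + 1 / 4‖ (3 / 16) with h' | h'
      · obtain ⟨e1, e2, e3, e4⟩ := hC z hz.2.2 h'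
        rw [e1]
        refine ⟨⟨fun h' => by linarith, fun h' => by linarith⟩,
          ⟨fun h' => by linarith, fun h' => by linarith⟩⟩
      · rw [hE z h h']
        refine ⟨⟨fun h' => by linarith, fun h' => by linarith⟩,
          ⟨fun h' => by linarith, fun h' => by linarith⟩⟩
  · intro x hx
    have e1 : ‖1 / 4 + 1 / 16 * cexpi (θ₁ x) - 1 / 4‖ = 1 / 16 := by
      rw [add_sub_cancel_left, norm_mul, lh_norm]
      norm_num
    show T₂ (T₁ (1 / 4 + 1 / 16 * cexpi (θ₁ x))) = _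
    rw [(hA _ (by rw [e1]) (by rw [e1]; norm_num)).1, a6 x hx]
  · intro x hx
    have e1 : ‖-(1 / 4) + 1 / 16 * cexpi (θ₂ x) + 1 / 4‖ = 1 / 16 := by
      have : -(1 / 4) + 1 / 16 * cexpi (θ₂ x) + 1 / 4 = 1 / 16 * cexpi (θ₂ x) := by ring
      rw [this, norm_mul, lh_norm]
      norm_num
    show T₂ (T₁ (-(1 / 4) + 1 / 16 * cexpi (θ₂ x))) = _
    rw [(hC _ (by rw [e1]) (by rw [e1]; norm_num)).1, b6 x hx]

/-! ### Glueing -/

/-- Two maps on disjoint sets. -/
noncomputable def lh_gl {Y : Type} (a b : ℂ → Y) (z : ℂ) : Y := if z.re < 5 then a z else b (z - 10)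

/-- The disjoint union of the domain and the square. -/
def lh_W : Set ℂ := lh_D (1 / 16) ∪ {z | z - 10 ∈ Sq}

private theorem lh_re10 (z : ℂ) : (z - 10).re = z.re - 10 := by
  rw [Complex.sub_re]
  norm_num

private theorem lh_gl_D {Y : Type} {a b : ℂ → Y} {z : ℂ} (hz : z ∈ lh_D (1 / 16)) :
    lh_gl a b z = a z := by
  unfold lh_gl
  have h1 := (Complex.re_le_norm z).trans hz.1
  rw [if_pos (by linarith)]

private theorem lh_gl_S {Y : Type} {a b : ℂ → Y} {z : ℂ} (hz : z - 10 ∈ Sq) :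
    lh_gl a b z = b (z - 10) := by
  unfold lh_gl
  have h1 := (abs_le.1 hz.1).1
  rw [lh_re10] at h1
  rw [if_neg (by linarith)]

private theorem lh_S10_closed : IsClosed {z : ℂ | z - 10 ∈ Sq} :=
  lh_Sq_closed.preimage (by fun_prop : Continuous fun z : ℂ => z - 10)

private theorem lh_gl_cont {Y : Type} [TopologicalSpace Y] {a b : ℂ → Y}
    (ha : ContinuousOn a (lh_D (1 / 16))) (hb : ContinuousOn b Sq) :
    ContinuousOn (lh_gl a b) lh_W := by
  apply ContinuousOn.union_of_isClosed _ _ (lh_D_closed _) lh_S10_closed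
  · exact ha.congr fun z hz => lh_gl_D hz
  · have h1 : ContinuousOn (fun z : ℂ => b (z - 10)) {z | z - 10 ∈ Sq} :=
      hb.comp (by fun_prop) (fun z hz => hz)
    exact h1.congr fun z hz => lh_gl_S hz

private theorem lh_gl_img {Y : Type} (a b : ℂ → Y) :
    lh_gl a b '' lh_W = a '' lh_D (1 / 16) ∪ b '' Sq := by
  unfold lh_W
  rw [image_union]
  congr 1
  · exact image_congr fun z hz => lh_gl_D hz
  · ext m
    constructor
    · rintro ⟨z, hz, rfl⟩
      exact ⟨z - 10, hz, (lh_gl_S hz).symm⟩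
    · rintro ⟨v, hv, rfl⟩
      have hv' : v + 10 - 10 ∈ Sq := by
        rw [add_sub_cancel_right]
        exact hv
      exact ⟨v + 10, hv', by rw [lh_gl_S hv', add_sub_cancel_right]⟩

private theorem lh_W_compact : IsCompact lh_W := by
  apply (lh_D_compact _).union
  apply (isCompact_closedBall (10 : ℂ) 2).of_isClosed_subset lh_S10_closed
  intro z hz
  rw [mem_closedBall, dist_eq_norm]
  have h1 : |(z - 10).re| ≤ 1 := hz.1
  have h2 : |(z - 10).im| ≤ 1 := hz.2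
  have := Complex.norm_le_abs_re_add_abs_im (z - 10)
  linarith

private theorem lh_neg_exp (t : ℝ) : (starRingEnd ℂ) (cexpi t) = cexpi (-t) := by
  apply Complex.ext
  · rw [Complex.conj_re, lh_re, lh_re, Real.cos_neg]
  · rw [Complex.conj_im, lh_im, lh_im, Real.sin_neg]

private theorem lh_exp_pi (t : ℝ) : cexpi (t + Real.pi) = -cexpi t := by
  apply Complex.ext
  · rw [Complex.neg_re, lh_re, lh_re, Real.cos_add_pi]
  · rw [Complex.neg_im, lh_im, lh_im, Real.sin_add_pi]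

private theorem lh_K_one {v : ℂ} (h : |v.im| = 1) :
    lh_K v = 1 / 4 + 1 / 8 * cexpi (Real.pi / 2 * v.re + Real.pi) := by
  unfold lh_K
  rw [h, lh_exp_pi]
  push_cast
  ring

private theorem lh_K_mone {v : ℂ} (h : |v.im| = 1) :
    lh_m (lh_K v) = -(1 / 4) + 1 / 8 * cexpi (-(Real.pi / 2 * v.re)) := by
  rw [lh_K_one h, lh_exp_pi, ← lh_neg_exp]
  unfold lh_m
  simp only [map_add, map_mul, map_neg, map_div₀, map_one, map_ofNat]
  ring

private theorem lh_disc (hINTD : St_INTD) : IsDisc lh_E := by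
  apply hINTD.2.1
  · exact isCompact_Icc.reProdIm isCompact_Icc
  · exact ((convex_Icc (-(1 / 4) : ℝ) (1 / 4)).linear_preimage Complex.reLm).inter
      ((convex_Icc (-(2 / 3) : ℝ) (2 / 3)).linear_preimage Complex.imLm)
  · exact ⟨0, (lh_E_int 0).2 ⟨by norm_num, by norm_num⟩⟩

private theorem lh_inj_aux {s : ℝ → ℝ} (hs : ∀ x ∈ Icc (-1 : ℝ) 1, |s x| ≤ Real.pi / 2)
    (hi : InjOn s (Icc (-1) 1)) : InjOn (fun x => cexpi (s x)) (Icc (-1) 1) := by
  have hp := Real.pi_pos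
  intro x hx y hy h
  apply hi hx hy
  refine (lh_polar_inj (r := 1) (r' := 1) (by norm_num) (by norm_num) ?_ ?_ ?_).2
  · linarith [hs x hx]
  · linarith [hs y hy]
  · rw [Complex.ofReal_one, one_mul, one_mul]
    exact h

/-! ### The theorem -/

private theorem lh_core (hCFIN : St_CFIN) (hINTD : St_INTD) (hUNI : St_UNI) (hMEX : St_MEX)
    (hHOLE : St_HOLE) (X : Type) [TopologicalSpace X] [T2Space X] (q H : ℂ → X) (T : ℂ → ℂ)
    (hq : ContinuousOn q (lh_D (1 / 16))) (hqi : InjOn q (lh_D (1 / 16))) (hH : ContinuousOn H Sq)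
    (hHi : InjOn H Sq) (hmeet : H '' Sq ∩ q '' lh_D (1 / 16) = H '' SqA)
    (hT1 : ContinuousOn T (lh_D (1 / 16))) (hT2 : InjOn T (lh_D (1 / 16)))
    (hT3 : T '' lh_D (1 / 16) = lh_D (1 / 8)) (hT4 : ∀ z ∈ UC, T z = z)
    (hT5 : ∀ z ∈ lh_D (1 / 16), (‖T z - 1 / 4‖ = 1 / 8 ↔ ‖z - 1 / 4‖ = 1 / 16) ∧
        (‖T z + 1 / 4‖ = 1 / 8 ↔ ‖z + 1 / 4‖ = 1 / 16))
    (hV : ∀ v ∈ Sq, |v.im| = 1 → ∃ z ∈ lh_D (1 / 16), T z = lh_db Complex.im lh_K v ∧ q z = H v) :
    FinPres 1 0 1 (q '' lh_D (1 / 16) ∪ H '' Sq)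
      ((q '' {z | ‖z - 1 / 4‖ = 1 / 16 ∨ ‖z + 1 / 4‖ = 1 / 16} \ H '' SqO) ∪ H '' SqF) q := by
  obtain ⟨M, tM, t2M, -, p, hP⟩ := hMEX (single (1 / 2) Lab.T) lh_ok rfl
  have hp : lh_P p := by
    refine ⟨?_, ?_, ?_⟩
    · have := hP.cont
      rwa [lh_dom2] at this
    · intro m
      have h1 : m ∈ p '' (single (1 / 2) Lab.T).Dom := by
        rw [hP.image]
        exact mem_univ _
      rwa [lh_dom2] at h1
    · intro x hx y hy
      rw [← lh_rel]
      exact hP.rel x (by rw [lh_dom2]; exact hx) y (by rw [lh_dom2]; exact hy)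
  have hTD : ∀ z ∈ lh_D (1 / 16), T z ∈ lh_D (1 / 8) := fun z hz => by
    rw [← hT3]
    exact mem_image_of_mem T hz
  have hsub : lh_D (1 / 8) ⊆ lh_D (1 / 16) := lh_D_mono (by norm_num)
  -- the relation is trivial on the smaller domain
  have hRt : ∀ y ∈ lh_D (1 / 8), ∀ u, lh_R y u → y = u := by
    intro y hy u h
    rcases h with h | ⟨h, -⟩
    · exact h
    · have h1 := hy.2.1
      have h2 := hy.2.2
      rcases h with h | h
      · linarith
      · linarith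
  have hdbS : ∀ v ∈ Sq, lh_db Complex.im lh_K v ∈ lh_D (1 / 16) := fun v hv => lh_db_D (lh_K_D hv)
  -- points of the band with `T x` in it
  have hband : ∀ x ∈ lh_D (1 / 16), ∀ v ∈ Sq, T x = lh_db Complex.im lh_K v → |v.im| = 1 := by
    intro x hx v hv h
    have h1 : lh_K v ∈ lh_D (1 / 8) := by
      have h2 := hTD x hx
      rw [h] at h2
      unfold lh_db at h2
      split_ifs at h2
      · exact h2
      · rw [← lh_mm (lh_K v)]
        exact lh_D_m h2
    have h2 := h1.2.1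
    rw [lh_K_norm] at h2
    exact le_antisymm hv.2 (by linarith)
  have hfib : ∀ x ∈ lh_D (1 / 16), ∀ v ∈ Sq, (p (T x) = lh_Kap p v ↔ q x = H v) := by
    intro x hx v hv
    constructor
    · intro h
      have h1 := (hp.rel _ (hsub (hTD x hx)) _ (hdbS v hv)).1 h
      have h2 := hRt _ (hTD x hx) _ h1
      obtain ⟨z, hz, hz1, hz2⟩ := hV v hv (hband x hx v hv h2)
      have h3 : x = z := hT2 hx hz (h2.trans hz1.symm)
      rw [h3, hz2]
    · intro h
      have h1 : H v ∈ H '' SqA := by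
        rw [← hmeet]
        exact ⟨mem_image_of_mem H hv, ⟨x, hx, h⟩⟩
      obtain ⟨v', hv', h2⟩ := h1
      have hv'S : v' ∈ Sq := ⟨hv'.1, hv'.2.le⟩
      have h3 : v' = v := hHi hv'S hv h2
      have h4 : |v.im| = 1 := by
        rw [← h3]
        exact hv'.2
      obtain ⟨z, hz, hz1, hz2⟩ := hV v hv h4
      have h5 : x = z := hqi hx hz (h.trans hz2.symm)
      show p (T x) = p (lh_db Complex.im lh_K v)
      rw [h5, hz1]
  -- the two presentations of `lh_W`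
  have hq1c : ContinuousOn (lh_gl (fun z => p (T z)) (lh_Kap p)) lh_W :=
    lh_gl_cont (hp.cont.comp hT1 fun z hz => hsub (hTD z hz)) (lh_Kap_cont hp)
  have hq2c : ContinuousOn (lh_gl q H) lh_W := lh_gl_cont hq hH
  have himg1 : lh_gl (fun z => p (T z)) (lh_Kap p) '' lh_W =
      (univ : Set M) \ lh_Phi p '' interior lh_E := by
    rw [lh_gl_img, lh_cover hp, ← hT3, image_image]
  have himg2 : lh_gl q H '' lh_W = q '' lh_D (1 / 16) ∪ H '' Sq := lh_gl_img q H
  obtain ⟨h, hh1, hh2, hh3, hh4⟩ := hUNI M X lh_W (fun x y => lh_gl q H x = lh_gl q H y) _ _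
    (lh_gl (fun z => p (T z)) (lh_Kap p)) (lh_gl q H) lh_W_compact hq1c hq2c himg1 himg2 (by
      intro x hx y hy
      rcases hx with hx | hx
      · rcases hy with hy | hy
        · rw [lh_gl_D hx, lh_gl_D hy, lh_gl_D hx, lh_gl_D hy]
          constructor
          · intro h
            have h1 := (hp.rel _ (hsub (hTD x hx)) _ (hsub (hTD y hy))).1 h
            rw [hT2 hx hy (hRt _ (hTD x hx) _ h1)]
          · intro h
            rw [hqi hx hy h]
        · rw [lh_gl_D hx, lh_gl_S hy, lh_gl_D hx, lh_gl_S hy]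
          exact hfib x hx _ hy
      · rcases hy with hy | hy
        · rw [lh_gl_D hy, lh_gl_S hx, lh_gl_D hy, lh_gl_S hx, eq_comm, hfib y hy _ hx, eq_comm]
        · rw [lh_gl_S hx, lh_gl_S hy, lh_gl_S hx, lh_gl_S hy]
          constructor
          · intro h
            rw [lh_Kap_inj hp hx hy h]
          · intro h
            rw [hHi hx hy h]) (fun _ _ _ _ => Iff.rfl)
  have hhD : ∀ z ∈ lh_D (1 / 16), h (p (T z)) = q z := by
    intro z hz
    have := hh4 z (Or.inl hz)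
    rwa [lh_gl_D hz, lh_gl_D hz] at this
  have hhS : ∀ v ∈ Sq, h (lh_Kap p v) = H v := by
    intro v hv
    have hv' : v + 10 - 10 ∈ Sq := by
      rw [add_sub_cancel_right]
      exact hv
    have := hh4 (v + 10) (Or.inr hv')
    rwa [lh_gl_S hv', lh_gl_S hv', add_sub_cancel_right] at this
  -- the hole
  obtain ⟨o1, o2, o3, o4, q', hq', hqU, hqF⟩ := hHOLE M (single (1 / 2) Lab.T) univ p (lh_Phi p) lh_E
    (27 / 50) (1 / 200) lh_ok rfl hP (lh_Phi_cont hp) (lh_Phi_inj hp) (subset_univ _)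
    ⟨lh_Phi p '' SqI, lh_Phi_open hp, inter_univ _⟩ (lh_Phi_UC hp) (by
      rw [lh_fb1, image_empty]
      exact disjoint_empty _) (lh_disc hINTD) lh_E_sub (by norm_num) (by
      rw [abs_of_pos (by norm_num)]
      norm_num) (by
      intro i hi
      have hi0 : i = 0 := hi
      rw [hi0]
      show (1 / 2 : ℝ) + 2 * (1 / 200) < |0 - 27 / 50|
      rw [zero_sub, abs_neg, abs_of_pos (by norm_num)]
      norm_num) (lh_Phi_ball hp)
  set C' := (single (1 / 2) Lab.T).add (27 / 50) (2 * (1 / 200)) Lab.O with hC'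
  have hF' : C'.F = ∅ := rfl
  have hc1 : (single (1 / 2) Lab.T).cnt Lab.T = 1 := by
    unfold Conf.cnt single
    have : {i ∈ ({0} : Set ℝ) | Lab.T = Lab.T} = {0} := by
      ext i
      simp
    rw [this, ncard_singleton]
  have hc2 : (single (1 / 2) Lab.T).cnt Lab.P = 0 := by
    unfold Conf.cnt single
    have : {i ∈ ({0} : Set ℝ) | Lab.T = Lab.P} = ∅ := by
      ext i
      simp
    rw [this, ncard_empty]
  have hc3 : (single (1 / 2) Lab.T).cnt Lab.O = 0 := by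
    unfold Conf.cnt single
    have : {i ∈ ({0} : Set ℝ) | Lab.T = Lab.O} = ∅ := by
      ext i
      simp
    rw [this, ncard_empty]
  have hmaps : MapsTo q' C'.Dom ((univ : Set M) \ lh_Phi p '' interior lh_E) := by
    intro x hx
    rw [← hq'.image]
    exact mem_image_of_mem q' hx
  refine ⟨C', o1, hF', by rw [o2, hc1], by rw [o3, hc2], by rw [o4, hc3], fun z => h (q' z),
    ⟨?_, ?_, ?_, ?_⟩, ?_, ?_⟩
  · exact hh1.comp hq'.cont hmaps
  · rw [← hh3, ← hq'.image, image_image]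
  · intro x hx y hy
    rw [← hq'.rel x hx y hy]
    constructor
    · intro h'
      exact hh2 (hmaps hx) (hmaps hy) h'
    · intro h'
      show h (q' x) = h (q' y)
      rw [h']
  · intro A _ _
    exact ⟨C'.Dom, Subset.rfl, ((hCFIN C' o1).2.2.2.1 hF').2, fun x hx _ => hx⟩
  · intro z hz
    have hzD : z ∈ lh_D (1 / 16) := by
      rw [← lh_dom2]
      exact (hCFIN _ lh_ok).2.2.2.2.1 hz
    show h (q' z) = q z
    rw [hqU z hz, ← hhD z hzD, hT4 z hz]
  · have e1 : (fun z => h (q' z)) '' C'.FreeBd = h '' (q' '' C'.FreeBd) := by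
      rw [image_image]
    rw [e1, hqF, lh_fb1, image_empty, empty_union, lh_front hp, image_union]
    congr 1
    · ext m
      constructor
      · rintro ⟨⟨z, hz, rfl⟩, hn⟩
        have hzD : z ∈ lh_D (1 / 16) := by
          have e2 := lh_tri z
          rcases hz with hz | hz
          · have := lh_near hz.le
            exact ⟨by linarith, by linarith, by linarith⟩
          · have := lh_near' hz.le
            exact ⟨by linarith, by linarith, by linarith⟩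
        refine ⟨p (T z), ⟨T z, ?_, rfl⟩, hhD z hzD⟩
        by_contra hc
        apply hn
        -- a point of the band
        have hfind : ∃ v ∈ SqO, T z = lh_db Complex.im lh_K v := by
          rcases hz with hz | hz
          · have e3 := (hT5 z hzD).1.2 hz
            have e4 : (T z).re < 1 / 4 := by
              by_contra hc'
              push Not at hc'
              exact hc ⟨hTD z hzD, Or.inl ⟨e3, hc'⟩⟩
            obtain ⟨v, w1, w2, w3, w4⟩ := lh_K_surj (z := T z) (by linarith)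
            have w5 : v.im = 1 := by
              rw [w3, e3]
              norm_num
            refine ⟨v, ⟨?_, ?_⟩, ?_⟩
            · have ha : |Complex.arg (1 / 4 - T z)| < Real.pi / 2 := by
                rw [Complex.abs_arg_lt_pi_div_two_iff, lh_quarter']
                left
                linarith
              have hpi := Real.pi_pos
              rw [w4]
              refine (lh_angle' (by positivity) ha).trans_le (le_of_eq ?_)
              field_simp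
            · rw [w5, abs_one]
            · unfold lh_db
              rw [if_pos w2, w1]
          · have e3 := (hT5 z hzD).2.2 hz
            have e4 : -(1 / 4) < (T z).re := by
              by_contra hc'
              push Not at hc'
              exact hc ⟨hTD z hzD, Or.inr ⟨e3, hc'⟩⟩
            have e3' : ‖lh_m (T z) - 1 / 4‖ = 1 / 8 := by
              rw [lh_m_sub]
              exact e3
            obtain ⟨v, w1, w2, w3, w4⟩ := lh_K_surj (z := lh_m (T z)) (by linarith)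
            have w5 : v.im = 1 := by
              rw [w3, e3']
              norm_num
            refine ⟨(starRingEnd ℂ) v, ⟨?_, ?_⟩, ?_⟩
            · have ha : |Complex.arg (1 / 4 - lh_m (T z))| < Real.pi / 2 := by
                rw [Complex.abs_arg_lt_pi_div_two_iff, lh_quarter', lh_m_re]
                left
                linarith
              have hpi := Real.pi_pos
              rw [Complex.conj_re, w4]
              refine (lh_angle' (by positivity) ha).trans_le (le_of_eq ?_)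
              field_simp
            · rw [Complex.conj_im, abs_neg, w5, abs_one]
            · unfold lh_db
              rw [if_neg (by rw [Complex.conj_im, w5]; norm_num), lh_K_c, w1, lh_mm]
        obtain ⟨v, hv, hTv⟩ := hfind
        have hvS : v ∈ Sq := ⟨hv.1.le, hv.2.le⟩
        obtain ⟨y, hy, hy1, hy2⟩ := hV v hvS hv.2
        have : z = y := hT2 hzD hy (hTv.trans hy1.symm)
        rw [this, hy2]
        exact ⟨v, hv, rfl⟩
      · rintro ⟨_, ⟨y, hy, rfl⟩, rfl⟩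
        have hy8 := hy.1
        rw [← hT3] at hy8
        obtain ⟨z, hz, rfl⟩ := hy8
        rw [hhD z hz]
        refine ⟨⟨z, ?_, rfl⟩, ?_⟩
        · rcases hy.2 with ⟨h1, -⟩ | ⟨h1, -⟩
          · exact Or.inl ((hT5 z hz).1.1 h1)
          · exact Or.inr ((hT5 z hz).2.1 h1)
        · rintro ⟨v, hv, h1⟩
          have hvS : v ∈ Sq := ⟨hv.1.le, hv.2.le⟩
          obtain ⟨u, hu, hu1, hu2⟩ := hV v hvS hv.2
          have h2 : u = z := hqi hu hz (hu2.trans h1)
          rw [h2] at hu1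
          have hpi := Real.pi_pos
          have h3 : 0 < Real.cos (Real.pi / 2 * v.re) := by
            have h4 := abs_lt.1 (lh_angle' (a := Real.pi / 2) (by positivity) hv.1)
            exact Real.cos_pos_of_mem_Ioo ⟨by linarith [h4.1], by linarith [h4.2]⟩
          have h3' := Real.cos_le_one (Real.pi / 2 * v.re)
          have h4 : (lh_K v).re = 1 / 4 - 1 / 8 * Real.cos (Real.pi / 2 * v.re) := by
            rw [lh_K_re, hv.2]
            ring
          have h5 : |(T z).re| < 1 / 4 := by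
            rw [hu1]
            unfold lh_db
            split_ifs
            · rw [abs_lt, h4]
              exact ⟨by linarith, by linarith⟩
            · rw [lh_m_re, abs_neg, abs_lt, h4]
              exact ⟨by linarith, by linarith⟩
          have h6 := abs_lt.1 h5
          rcases hy.2 with ⟨-, h7⟩ | ⟨-, h7⟩
          · linarith
          · linarith
    · ext m
      constructor
      · rintro ⟨v, hv, rfl⟩
        exact ⟨lh_Kap p v, ⟨v, hv, rfl⟩, hhS v ⟨hv.1.le, hv.2⟩⟩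
      · rintro ⟨_, ⟨v, hv, rfl⟩, rfl⟩
        exact ⟨v, hv, (hhS v ⟨hv.1.le, hv.2⟩).symm⟩

theorem thm_LH (hCFIN : St_CFIN) (hANG : St_ANG) (hINTD : St_INTD) (hUNI : St_UNI)
    (hMEX : St_MEX) (hHOLE : St_HOLE) : St_LH := by
  intro X _ _ q H θ₁ θ₂ hq hqi hH hHi hmeet hθ1 hθ2 hm1 hm2 hb1 hb2
  have hpi := Real.pi_pos
  rw [lh_dom1] at hq hqi hmeet ⊢
  rw [lh_fb]
  have hS1 : ∀ x ∈ Icc (-1 : ℝ) 1, (x : ℂ) + Complex.I ∈ Sq := by
    intro x hx
    refine ⟨?_, ?_⟩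
    · simp only [Complex.add_re, Complex.ofReal_re, Complex.I_re, add_zero]
      exact abs_le.2 hx
    · simp
  have hS2 : ∀ x ∈ Icc (-1 : ℝ) 1, (x : ℂ) - Complex.I ∈ Sq := by
    intro x hx
    refine ⟨?_, ?_⟩
    · simp only [Complex.sub_re, Complex.ofReal_re, Complex.I_re, sub_zero]
      exact abs_le.2 hx
    · simp
  have hi1 : InjOn (fun x => cexpi (θ₁ x)) (Icc (-1) 1) := by
    intro x hx y hy h
    have h0 : cexpi (θ₁ x) = cexpi (θ₁ y) := h
    have h1 : H (x + Complex.I) = H (y + Complex.I) := by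
      rw [hb1 x hx, hb1 y hy, h0]
    have h2 := hHi (hS1 x hx) (hS1 y hy) h1
    exact_mod_cast add_right_cancel h2
  have hi2 : InjOn (fun x => cexpi (θ₂ x)) (Icc (-1) 1) := by
    intro x hx y hy h
    have h0 : cexpi (θ₂ x) = cexpi (θ₂ y) := h
    have h1 : H (x - Complex.I) = H (y - Complex.I) := by
      rw [hb2 x hx, hb2 y hy, h0]
    have h2 := hHi (hS2 x hx) (hS2 y hy) h1
    exact_mod_cast sub_left_injective h2
  have hhalf : ∀ x ∈ Icc (-1 : ℝ) 1, |Real.pi / 2 * x| ≤ Real.pi / 2 := by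
    intro x hx
    have := lh_angle (a := Real.pi / 2) (by positivity) (abs_le.2 hx)
    linarith
  have hi4 : InjOn (fun x : ℝ => cexpi (-(Real.pi / 2 * x))) (Icc (-1) 1) := by
    apply lh_inj_aux (s := fun x => -(Real.pi / 2 * x))
    · intro x hx
      show |-(Real.pi / 2 * x)| ≤ Real.pi / 2
      rw [abs_neg]
      exact hhalf x hx
    · intro x _ y _ h
      have h1 : Real.pi / 2 * x = Real.pi / 2 * y := neg_injective h
      exact mul_left_cancel₀ (by positivity) h1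
  have hi3 : InjOn (fun x : ℝ => cexpi (Real.pi / 2 * x + Real.pi)) (Icc (-1) 1) := by
    intro x hx y hy h
    have h0 : cexpi (Real.pi / 2 * x + Real.pi) = cexpi (Real.pi / 2 * y + Real.pi) := h
    rw [lh_exp_pi, lh_exp_pi, neg_inj] at h0
    have h1 := lh_inj_aux (s := fun x => Real.pi / 2 * x) hhalf (by
      intro x _ y _ h
      exact mul_left_cancel₀ (by positivity) h)
    exact h1 hx hy h0
  obtain ⟨T, t1, t2, t3, t4, t5, t6, t7⟩ := lh_T hANG θ₁ θ₂ (fun x => Real.pi / 2 * x + Real.pi)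
    (fun x => -(Real.pi / 2 * x)) hθ1 hθ2 (by fun_prop) (by fun_prop) hm1 hm2 (by
      intro x _ y _ h
      show Real.pi / 2 * x + Real.pi < Real.pi / 2 * y + Real.pi
      have := mul_lt_mul_of_pos_left h (by positivity : 0 < Real.pi / 2)
      linarith) (by
      intro x _ y _ h
      show -(Real.pi / 2 * y) < -(Real.pi / 2 * x)
      have := mul_lt_mul_of_pos_left h (by positivity : 0 < Real.pi / 2)
      linarith) hi1 hi2 hi3 hi4
  refine lh_core hCFIN hINTD hUNI hMEX hHOLE X q H T hq hqi hH hHi hmeet t1 t2 t3 t4 t5 ?_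
  intro v hv hv1
  have hvr : v.re ∈ Icc (-1 : ℝ) 1 := abs_le.1 hv.1
  rcases (abs_eq (by norm_num : (0 : ℝ) ≤ 1)).1 hv1 with h | h
  · have e1 : ‖1 / 4 + 1 / 16 * cexpi (θ₁ v.re) - 1 / 4‖ = 1 / 16 := by
      rw [add_sub_cancel_left, norm_mul, lh_norm]
      norm_num
    have e2 := lh_tri (1 / 4 + 1 / 16 * cexpi (θ₁ v.re))
    have e3 := lh_near e1.le
    refine ⟨1 / 4 + 1 / 16 * cexpi (θ₁ v.re), ⟨by linarith, by linarith, by linarith⟩, ?_, ?_⟩
    · rw [t6 v.re hvr]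
      unfold lh_db
      rw [if_pos (by rw [h]; norm_num), lh_K_one hv1]
    · rw [← hb1 v.re hvr]
      congr 1
      apply Complex.ext
      · simp
      · simp [h]
  · have e1 : ‖-(1 / 4) + 1 / 16 * cexpi (θ₂ v.re) + 1 / 4‖ = 1 / 16 := by
      have : -(1 / 4) + 1 / 16 * cexpi (θ₂ v.re) + 1 / 4 = 1 / 16 * cexpi (θ₂ v.re) := by ring
      rw [this, norm_mul, lh_norm]
      norm_num
    have e2 := lh_tri (-(1 / 4) + 1 / 16 * cexpi (θ₂ v.re))
    have e3 := lh_near' e1.le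
    refine ⟨-(1 / 4) + 1 / 16 * cexpi (θ₂ v.re), ⟨by linarith, by linarith, by linarith⟩, ?_, ?_⟩
    · rw [t7 v.re hvr]
      unfold lh_db
      rw [if_neg (by rw [h]; norm_num), lh_K_mone hv1]
    · rw [← hb2 v.re hvr]
      congr 1
      apply Complex.ext
      · simp
      · simp [h]

end Pool.Agent.SRP
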