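import Pool.Agent.SRP.StD

/-! # SRP/LK (helper89): a twisted band joining two circles, two crosscaps -/

set_option autoImplicit false

open Set Metric Filter Topology Pool.Agent.SRF

namespace Pool.Agent.SRP

/-! ## Coordinates -/

private theorem lk_nsq (a : ℝ) (z : ℂ) : ‖z - (a : ℂ)‖ ^ 2 = (z.re - a) ^ 2 + z.im ^ 2 := by
  rw [Complex.sq_norm, Complex.normSq_apply, Complex.sub_re, Complex.sub_im, Complex.ofReal_re,
    Complex.ofReal_im]
  ring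

private theorem lk_lt (a r : ℝ) (hr : 0 < r) (z : ℂ) :
    ‖z - (a : ℂ)‖ < r ↔ (z.re - a) ^ 2 + z.im ^ 2 < r ^ 2 := by
  rw [← lk_nsq, sq_lt_sq₀ (norm_nonneg _) hr.le]

private theorem lk_le (a r : ℝ) (hr : 0 < r) (z : ℂ) :
    ‖z - (a : ℂ)‖ ≤ r ↔ (z.re - a) ^ 2 + z.im ^ 2 ≤ r ^ 2 := by
  rw [← lk_nsq, sq_le_sq₀ (norm_nonneg _) hr.le]

private theorem lk_eq (a r : ℝ) (hr : 0 < r) (z : ℂ) :
    ‖z - (a : ℂ)‖ = r ↔ (z.re - a) ^ 2 + z.im ^ 2 = r ^ 2 := by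
  rw [← lk_nsq, sq_eq_sq₀ (norm_nonneg _) hr.le]

private theorem lk_le1 (z : ℂ) : ‖z‖ ≤ 1 ↔ z.re ^ 2 + z.im ^ 2 ≤ 1 := by
  have := lk_le 0 1 one_pos z
  simpa using this

private theorem lk_dom (z : ℂ) : z ∈ pantsC.Dom ↔ z.re ^ 2 + z.im ^ 2 ≤ 1 ∧
    1 / 256 ≤ (z.re - 1 / 4) ^ 2 + z.im ^ 2 ∧ 1 / 256 ≤ (z.re + 1 / 4) ^ 2 + z.im ^ 2 := by
  unfold Conf.Dom
  have h1 : z ∈ (fun x : ℝ => (x : ℂ)) '' pantsC.F ∪ ⋃ i ∈ pantsC.I, pantsC.holes i ↔
      (z.re + 1 / 4) ^ 2 + z.im ^ 2 < 1 / 256 ∨ (z.re - 1 / 4) ^ 2 + z.im ^ 2 < 1 / 256 := by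
    change z ∈ (fun x : ℝ => (x : ℂ)) '' ∅ ∪
      ⋃ i ∈ ({-(1 / 4), 1 / 4} : Set ℝ), pantsC.holes i ↔ _
    rw [image_empty, empty_union, biUnion_insert, biUnion_singleton]
    change z ∈ ball ((-(1 / 4) : ℝ) : ℂ) (1 / 8 / 2) ∨ z ∈ ball ((1 / 4 : ℝ) : ℂ) (1 / 8 / 2) ↔ _
    rw [mem_ball, dist_eq_norm, lk_lt _ _ (by norm_num), mem_ball, dist_eq_norm,
      lk_lt _ _ (by norm_num)]
    norm_num
  change z ∈ closedBall 0 1 ∧ ¬ _ ↔ _
  rw [h1, mem_closedBall_zero_iff, lk_le1, not_or, not_lt, not_lt]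
  exact and_congr_right fun _ => and_comm

private theorem lk_free (z : ℂ) : z ∈ pantsC.FreeBd ↔
    (z.re - 1 / 4) ^ 2 + z.im ^ 2 = 1 / 256 ∨ (z.re + 1 / 4) ^ 2 + z.im ^ 2 = 1 / 256 := by
  unfold Conf.FreeBd
  have h : {i ∈ pantsC.I | pantsC.lab i = Lab.O} = {-(1 / 4), 1 / 4} := by
    ext i
    constructor
    · exact fun h => h.1
    · exact fun h => ⟨h, rfl⟩
  rw [h, biUnion_insert, biUnion_singleton]
  change z ∈ sphere ((-(1 / 4) : ℝ) : ℂ) (1 / 8 / 2) ∨ z ∈ sphere ((1 / 4 : ℝ) : ℂ) (1 / 8 / 2) ↔ _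
  rw [mem_sphere_iff_norm, lk_eq _ _ (by norm_num), mem_sphere_iff_norm, lk_eq _ _ (by norm_num),
    or_comm]
  norm_num

/-! ## The neighbourhood of the segment -/

/-- squared distance from the segment from `-1/4` to `1/4` -/
private noncomputable def lk_g (z : ℂ) : ℝ := (max 0 (|z.re| - 1 / 4)) ^ 2 + z.im ^ 2

private theorem lk_gc : Continuous lk_g := by
  unfold lk_g
  exact ((continuous_const.max ((continuous_abs.comp Complex.continuous_re).sub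
    continuous_const)).pow 2).add (Complex.continuous_im.pow 2)

private theorem lk_g1 {z : ℂ} (h : |z.re| ≤ 1 / 4) : lk_g z = z.im ^ 2 := by
  unfold lk_g
  rw [max_eq_left (by linarith)]
  ring

private theorem lk_g2 {z : ℂ} (h : 1 / 4 ≤ z.re) : lk_g z = (z.re - 1 / 4) ^ 2 + z.im ^ 2 := by
  unfold lk_g
  rw [abs_of_nonneg (by linarith), max_eq_right (by linarith)]

private theorem lk_g3 {z : ℂ} (h : z.re ≤ -(1 / 4)) : lk_g z = (z.re + 1 / 4) ^ 2 + z.im ^ 2 := by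
  unfold lk_g
  rw [abs_of_nonpos (by linarith), max_eq_right (by linarith)]
  ring

private theorem lk_cases (z : ℂ) : (|z.re| ≤ 1 / 4 ∧ lk_g z = z.im ^ 2) ∨
    (1 / 4 < z.re ∧ lk_g z = (z.re - 1 / 4) ^ 2 + z.im ^ 2) ∨
    (z.re < -(1 / 4) ∧ lk_g z = (z.re + 1 / 4) ^ 2 + z.im ^ 2) := by
  rcases le_or_gt |z.re| (1 / 4) with h | h
  · exact Or.inl ⟨h, lk_g1 h⟩
  · rcases lt_abs.1 h with h | h
    · exact Or.inr (Or.inl ⟨h, lk_g2 h.le⟩)
    · exact Or.inr (Or.inr ⟨by linarith, lk_g3 (by linarith)⟩)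

private theorem lk_gle (z : ℂ) : lk_g z ≤ (z.re - 1 / 4) ^ 2 + z.im ^ 2 ∧
    lk_g z ≤ (z.re + 1 / 4) ^ 2 + z.im ^ 2 := by
  rcases lk_cases z with ⟨h, h'⟩ | ⟨h, h'⟩ | ⟨h, h'⟩ <;> rw [h']
  · constructor <;> nlinarith [sq_nonneg (z.re - 1 / 4), sq_nonneg (z.re + 1 / 4)]
  · constructor
    · exact le_rfl
    · nlinarith
  · constructor
    · nlinarith
    · exact le_rfl

/-- the stadium -/
private def lk_St : Set ℂ := {z | lk_g z ≤ 1 / 256}

private theorem lk_St' : lk_St = {z : ℂ | ∃ s : ℝ, |s| ≤ 1 / 4 ∧ ‖z - s‖ ≤ 1 / 16} := by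
  ext z
  constructor
  · intro (hz : lk_g z ≤ 1 / 256)
    rcases lk_cases z with ⟨h, h'⟩ | ⟨h, h'⟩ | ⟨h, h'⟩ <;> rw [h'] at hz
    · refine ⟨z.re, h, ?_⟩
      rw [lk_le _ _ (by norm_num)]
      norm_num
      linarith
    · refine ⟨1 / 4, by norm_num, ?_⟩
      rw [lk_le _ _ (by norm_num)]
      norm_num
      norm_num at hz
      exact hz
    · refine ⟨-(1 / 4), by norm_num, ?_⟩
      rw [lk_le _ _ (by norm_num)]
      norm_num
      norm_num at hz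
      exact hz
  · rintro ⟨s, hs, hz⟩
    change lk_g z ≤ 1 / 256
    rw [lk_le _ _ (by norm_num)] at hz
    rw [abs_le] at hs
    rcases lk_cases z with ⟨h, h'⟩ | ⟨h, h'⟩ | ⟨h, h'⟩ <;> rw [h']
    · nlinarith [sq_nonneg (z.re - s)]
    · nlinarith [sq_nonneg (z.re - s)]
    · nlinarith [sq_nonneg (z.re - s)]

private theorem lk_Stconv : Convex ℝ lk_St := by
  rw [lk_St']
  rintro z ⟨s, hs, hz⟩ w ⟨t, ht, hw⟩ a b ha hb hab
  refine ⟨a * s + b * t, ?_, ?_⟩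
  · rw [abs_le] at hs ht ⊢
    constructor <;> nlinarith
  · have h1 : a • z + b • w - ((a * s + b * t : ℝ) : ℂ) = (a : ℂ) * (z - s) + (b : ℂ) * (w - t) := by
      rw [Complex.real_smul, Complex.real_smul]
      push_cast
      ring
    rw [h1]
    calc ‖(a : ℂ) * (z - s) + (b : ℂ) * (w - t)‖ ≤ ‖(a : ℂ) * (z - s)‖ + ‖(b : ℂ) * (w - t)‖ :=
          norm_add_le _ _
      _ = a * ‖z - s‖ + b * ‖w - t‖ := by
        rw [norm_mul, norm_mul, Complex.norm_real, Complex.norm_real, Real.norm_of_nonneg ha,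
          Real.norm_of_nonneg hb]
      _ ≤ a * (1 / 16) + b * (1 / 16) :=
        add_le_add (mul_le_mul_of_nonneg_left hz ha) (mul_le_mul_of_nonneg_left hw hb)
      _ = 1 / 16 := by rw [← add_mul, hab, one_mul]

private theorem lk_Stball {z : ℂ} (hz : z ∈ lk_St) : ‖z‖ ≤ 5 / 16 := by
  rw [lk_St'] at hz
  obtain ⟨s, hs, hz⟩ := hz
  calc ‖z‖ = ‖(z - s) + s‖ := by rw [sub_add_cancel]
    _ ≤ ‖z - s‖ + ‖(s : ℂ)‖ := norm_add_le _ _
    _ ≤ 1 / 16 + 1 / 4 := by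
      rw [Complex.norm_real, Real.norm_eq_abs]
      exact add_le_add hz hs
    _ = 5 / 16 := by norm_num

private theorem lk_Stclosed : IsClosed lk_St := isClosed_le lk_gc continuous_const

private theorem lk_Stcomp : IsCompact lk_St :=
  (isCompact_closedBall (0 : ℂ) (5 / 16)).of_isClosed_subset lk_Stclosed
    fun _ hz => mem_closedBall_zero_iff.2 (lk_Stball hz)

private theorem lk_Stint : interior lk_St = {z | lk_g z < 1 / 256} := by
  apply Subset.antisymm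
  · intro z hz
    have h1' : z ∈ lk_St := interior_subset hz
    have h1 : lk_g z ≤ 1 / 256 := h1'
    rcases h1.lt_or_eq with h | h
    · exact h
    · exfalso
      have h2 : ∀ ε : ℝ, 0 < ε → lk_g (((1 + ε : ℝ) : ℂ) * z) > 1 / 256 := by
        intro ε hε
        have h3 : lk_g (((1 + ε : ℝ) : ℂ) * z) =
            (max 0 ((1 + ε) * |z.re| - 1 / 4)) ^ 2 + ((1 + ε) * z.im) ^ 2 := by
          unfold lk_g
          rw [Complex.re_ofReal_mul, Complex.im_ofReal_mul, abs_mul,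
            abs_of_pos (by linarith : 0 < 1 + ε)]
        rw [h3, ← h]
        unfold lk_g
        have h4 : 0 ≤ |z.re| := abs_nonneg _
        rcases le_or_gt (|z.re| - 1 / 4) 0 with h5 | h5
        · rw [max_eq_left h5]
          unfold lk_g at h
          rw [max_eq_left h5] at h
          have h6 : z.im ^ 2 = 1 / 256 := by linarith
          have h7 : 0 ≤ (max 0 ((1 + ε) * |z.re| - 1 / 4)) ^ 2 := sq_nonneg _
          have h8 : ((1 + ε) * z.im) ^ 2 = (1 + ε) ^ 2 * (1 / 256) := by rw [mul_pow, h6]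
          rw [h8, h6]
          nlinarith
        · have h6 : |z.re| - 1 / 4 < (1 + ε) * |z.re| - 1 / 4 := by nlinarith
          rw [max_eq_right h5.le, max_eq_right (h5.trans h6).le]
          have h7 : (|z.re| - 1 / 4) ^ 2 < ((1 + ε) * |z.re| - 1 / 4) ^ 2 := by nlinarith
          have h8 : z.im ^ 2 ≤ ((1 + ε) * z.im) ^ 2 := by
            rw [mul_pow]
            nlinarith [sq_nonneg z.im]
          linarith
      have hcont : Continuous (fun ε : ℝ => ((1 + ε : ℝ) : ℂ) * z) := by fun_prop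
      have h3 := (isOpen_interior (s := lk_St)).preimage hcont
      have h4 : (0 : ℝ) ∈ (fun ε : ℝ => ((1 + ε : ℝ) : ℂ) * z) ⁻¹' interior lk_St := by
        rw [mem_preimage]
        simpa using hz
      obtain ⟨δ, hδ, hδs⟩ := Metric.isOpen_iff.1 h3 0 h4
      have h5 : δ / 2 ∈ ball (0 : ℝ) δ := by
        rw [mem_ball_zero_iff, Real.norm_of_nonneg (by linarith)]
        linarith
      have h6' : ((1 + δ / 2 : ℝ) : ℂ) * z ∈ lk_St := interior_subset (hδs h5)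
      have h6 : lk_g (((1 + δ / 2 : ℝ) : ℂ) * z) ≤ 1 / 256 := h6'
      have h7 := h2 (δ / 2) (by linarith)
      linarith
  · exact interior_maximal (fun z (hz : lk_g z < 1 / 256) => hz.le)
      (isOpen_lt lk_gc continuous_const)

/-- distance from the centres -/
private noncomputable def lk_R (z : ℂ) : ℝ := (|z.re| - 1 / 4) ^ 2 + z.im ^ 2

private theorem lk_dom' (z : ℂ) : z ∈ pantsC.Dom ↔ z.re ^ 2 + z.im ^ 2 ≤ 1 ∧ 1 / 256 ≤ lk_R z := by
  rw [lk_dom]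
  refine and_congr_right fun _ => ?_
  unfold lk_R
  rcases le_total 0 z.re with h | h
  · rw [abs_of_nonneg h]
    constructor
    · exact fun h => h.1
    · intro h1
      exact ⟨h1, by nlinarith⟩
  · rw [abs_of_nonpos h]
    constructor
    · intro h1
      nlinarith [h1.2]
    · intro h1
      exact ⟨by nlinarith, by nlinarith⟩

private theorem lk_free' (z : ℂ) : z ∈ pantsC.FreeBd ↔ lk_R z = 1 / 256 := by
  rw [lk_free]
  unfold lk_R
  rcases le_total 0 z.re with h | h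
  · rw [abs_of_nonneg h]
    constructor
    · rintro (h1 | h1)
      · exact h1
      · nlinarith [sq_nonneg z.im]
    · exact Or.inl
  · rw [abs_of_nonpos h]
    constructor
    · rintro (h1 | h1)
      · nlinarith [sq_nonneg z.im]
      · nlinarith
    · intro h1
      exact Or.inr (by nlinarith)

private theorem lk_gR (z : ℂ) (h : 1 / 4 ≤ |z.re|) : lk_g z = lk_R z := by
  unfold lk_g lk_R
  rw [max_eq_right (by linarith)]

private theorem lk_g0 (z : ℂ) (h : |z.re| ≤ 1 / 4) : lk_g z = z.im ^ 2 := lk_g1 h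

private theorem lk_gleR (z : ℂ) : lk_g z ≤ lk_R z := by
  rcases le_total |z.re| (1 / 4) with h | h
  · rw [lk_g0 z h]
    unfold lk_R
    nlinarith [sq_nonneg (|z.re| - 1 / 4)]
  · exact (lk_gR z h).le

private def lk_Fr : Set ℂ := {z | lk_g z = 1 / 256}

private def lk_B : Set ℂ := {z | z.re ^ 2 + z.im ^ 2 ≤ 1 ∧ 1 / 256 ≤ lk_g z}

private theorem lk_BD : lk_B ⊆ pantsC.Dom := by
  intro z hz
  rw [lk_dom']
  exact ⟨hz.1, hz.2.trans (lk_gleR z)⟩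

private theorem lk_FrB : lk_Fr ⊆ lk_B := by
  intro z (hz : lk_g z = 1 / 256)
  refine ⟨?_, hz.ge⟩
  rw [← lk_le1]
  exact (lk_Stball (z := z) hz.le).trans (by norm_num)

/-- the annulus -/
private theorem lk_ann (hINTD : St_INTD) (hPDS : St_PDS) {X : Type} [TopologicalSpace X]
    {q : ℂ → X} (hqc : ContinuousOn q pantsC.Dom) (hqi : InjOn q pantsC.Dom) :
    IsAnn (q '' lk_B) (q '' lk_Fr) q := by
  have hi0 : interior (closedBall (0 : ℂ) (1 / 4)) = ball 0 (1 / 4) :=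
    interior_closedBall _ (by norm_num)
  have hE : IsDisc (closedBall (0 : ℂ) (1 / 4)) := by
    refine hINTD.2.1 _ (isCompact_closedBall _ _) (convex_closedBall _ _) ?_
    rw [hi0]
    exact ⟨0, mem_ball_self (by norm_num)⟩
  have hSt : IsDisc lk_St := by
    refine hINTD.2.1 _ lk_Stcomp lk_Stconv ?_
    rw [lk_Stint]
    refine ⟨0, ?_⟩
    change lk_g 0 < 1 / 256
    rw [lk_g0 0 (by simp)]
    norm_num
  obtain ⟨Θ, hΘ1, hΘ2, hΘ3⟩ := hPDS.2 0 1 one_pos (closedBall 0 (1 / 4)) lk_St hE hSt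
    (closedBall_subset_ball (by norm_num)) (fun z hz => mem_ball_zero_iff.2
      ((lk_Stball hz).trans_lt (by norm_num)))
  have hC : Θ '' closedBall (0 : ℂ) 1 = closedBall 0 1 := by
    have h1 : Θ '' (closedBall (0 : ℂ) 1)ᶜ = (closedBall (0 : ℂ) 1)ᶜ := by
      have h2 : ∀ z ∈ (closedBall (0 : ℂ) 1)ᶜ, Θ z = id z := fun z hz =>
        hΘ1 z fun h => hz (ball_subset_closedBall h)
      rw [image_congr h2, image_id]
    rw [image_compl_eq Θ.bijective] at h1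
    exact compl_injective h1
  have hAnn : Ann = closedBall 0 1 \ ball 0 (1 / 4) := by
    ext z
    constructor
    · rintro ⟨h1, h2⟩
      exact ⟨mem_closedBall_zero_iff.2 h2, fun h => absurd (mem_ball_zero_iff.1 h) (not_lt.2 h1)⟩
    · rintro ⟨h1, h2⟩
      rw [mem_ball_zero_iff, not_lt] at h2
      exact ⟨h2, mem_closedBall_zero_iff.1 h1⟩
  have hB : lk_B = closedBall 0 1 \ {z | lk_g z < 1 / 256} := by
    ext z
    constructor
    · rintro ⟨h1, h2⟩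
      exact ⟨mem_closedBall_zero_iff.2 ((lk_le1 z).2 h1), fun h => absurd h (not_lt.2 h2)⟩
    · rintro ⟨h1, h2⟩
      exact ⟨(lk_le1 z).1 (mem_closedBall_zero_iff.1 h1), not_lt.1 h2⟩
  have hΘB : Θ '' Ann = lk_B := by
    rw [hAnn, image_sdiff Θ.injective, hC, ← hi0, hΘ3, lk_Stint, hB]
  have hΘF : Θ '' sphere 0 (1 / 4) = lk_Fr := by
    have h1 : sphere (0 : ℂ) (1 / 4) = closedBall 0 (1 / 4) \ interior (closedBall 0 (1 / 4)) := by
      rw [hi0, closedBall_sdiff_ball]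
    rw [h1, image_sdiff Θ.injective, hΘ2, hΘ3, lk_Stint]
    ext z
    constructor
    · rintro ⟨h1, h2⟩
      exact le_antisymm h1 (not_lt.1 h2)
    · intro (h : lk_g z = 1 / 256)
      exact ⟨h.le, fun h' => absurd h h'.ne⟩
  have hm : MapsTo Θ Ann pantsC.Dom := by
    intro z hz
    apply lk_BD
    rw [← hΘB]
    exact ⟨z, hz, rfl⟩
  refine ⟨fun z => q (Θ z), hqc.comp Θ.continuous.continuousOn hm, ?_, ?_, ?_, ?_⟩
  · intro z hz w hw h
    exact Θ.injective (hqi (hm hz) (hm hw) h)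
  · rw [← hΘB, image_image]
  · rw [← hΘF, image_image]
  · intro z hz
    change q (Θ z) = q z
    rw [hΘ1 z]
    intro h
    rw [mem_sphere_zero_iff_norm] at hz
    rw [mem_ball_zero_iff] at h
    linarith

/-! ## The inner square -/

private noncomputable def lk_σ (z : ℂ) : ℂ :=
  ((z.re * (1 / 4 - 1 / 16 * √(1 - z.im ^ 2)) : ℝ) : ℂ) + ((z.im / 16 : ℝ) : ℂ) * Complex.I

private theorem lk_σre (z : ℂ) : (lk_σ z).re = z.re * (1 / 4 - 1 / 16 * √(1 - z.im ^ 2)) := by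
  simp [lk_σ]

private theorem lk_σim (z : ℂ) : (lk_σ z).im = z.im / 16 := by
  simp [lk_σ]

private theorem lk_σc : Continuous lk_σ := by
  unfold lk_σ
  fun_prop

private theorem lk_fac {y : ℝ} : 3 / 16 ≤ 1 / 4 - 1 / 16 * √(1 - y ^ 2) ∧
    1 / 4 - 1 / 16 * √(1 - y ^ 2) ≤ 1 / 4 := by
  have h1 : 0 ≤ √(1 - y ^ 2) := Real.sqrt_nonneg _
  have h2 : √(1 - y ^ 2) ≤ 1 := by
    rw [Real.sqrt_le_iff]
    exact ⟨zero_le_one, by nlinarith [sq_nonneg y]⟩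
  constructor <;> linarith

private theorem lk_σi : InjOn lk_σ Sq := by
  intro z _ w _ h
  have h1 : z.im = w.im := by
    have : (lk_σ z).im = (lk_σ w).im := by rw [h]
    rw [lk_σim, lk_σim] at this
    linarith
  have h2 : z.re = w.re := by
    have h3 : (lk_σ z).re = (lk_σ w).re := by rw [h]
    rw [lk_σre, lk_σre, h1] at h3
    have h4 := (lk_fac (y := w.im)).1
    exact mul_right_cancel₀ (by linarith) h3
  exact Complex.ext h2 h1

private theorem lk_SqD : Sq \ SqI = SqA ∪ SqF := by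
  ext z
  constructor
  · rintro ⟨⟨h1, h2⟩, h3⟩
    by_cases h4 : |z.im| = 1
    · exact Or.inl ⟨h1, h4⟩
    · right
      refine ⟨?_, h2⟩
      by_contra h5
      exact h3 ⟨lt_of_le_of_ne h1 h5, lt_of_le_of_ne h2 h4⟩
  · rintro (⟨h1, h2⟩ | ⟨h1, h2⟩)
    · exact ⟨⟨h1, h2.le⟩, fun h => absurd h2 h.2.ne⟩
    · exact ⟨⟨h1.le, h2⟩, fun h => absurd h1 h.1.ne⟩

private theorem lk_SqD' : Sq \ SqI = SqO ∪ SqF := by
  rw [lk_SqD]
  ext z
  constructor
  · rintro (⟨h1, h2⟩ | h)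
    · by_cases h4 : |z.re| = 1
      · exact Or.inr ⟨h4, h2.le⟩
      · exact Or.inl ⟨lt_of_le_of_ne h1 h4, h2⟩
    · exact Or.inr h
  · rintro (⟨h1, h2⟩ | h)
    · exact Or.inl ⟨h1.le, h2⟩
    · exact Or.inr h

private theorem lk_OF : Disjoint SqO SqF := by
  rw [disjoint_left]
  rintro z ⟨h1, -⟩ ⟨h2, -⟩
  exact absurd h2 h1.ne

/-- a point with `|im| ≤ 1/16` is the image of a point with the given properties -/
private theorem lk_σinv {w : ℂ} (h1 : |w.re| ≤ 1 / 4) (h2 : |w.im| ≤ 1 / 16)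
    (h3 : 1 / 256 ≤ lk_R w) : ∃ z ∈ Sq, lk_σ z = w ∧ (lk_R w = 1 / 256 → |z.re| = 1) ∧
      (|w.re| < 1 / 4 → |w.im| = 1 / 16 → |z.re| < 1) := by
  set y : ℝ := 16 * w.im with hy
  set k : ℝ := 1 / 4 - 1 / 16 * √(1 - y ^ 2) with hk
  have hk1 : 3 / 16 ≤ k := lk_fac.1
  have hk2 : k ≤ 1 / 4 := lk_fac.2
  have hk0 : 0 < k := by linarith
  have hy1 : |y| ≤ 1 := by
    rw [hy, abs_mul, abs_of_pos (by norm_num : (0:ℝ) < 16)]
    linarith
  have hy2 : y ^ 2 ≤ 1 := by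
    rw [← sq_abs]
    nlinarith [abs_nonneg y]
  have hs : √(1 - y ^ 2) ^ 2 = 1 - y ^ 2 := Real.sq_sqrt (by linarith)
  have hs0 : 0 ≤ √(1 - y ^ 2) := Real.sqrt_nonneg _
  have hks : (1 / 4 - k) ^ 2 + w.im ^ 2 = 1 / 256 := by
    have : 1 / 4 - k = 1 / 16 * √(1 - y ^ 2) := by rw [hk]; ring
    rw [this, mul_pow, hs, hy]
    ring
  unfold lk_R at h3 ⊢
  have hle : |w.re| ≤ k := by
    by_contra h
    rw [not_le] at h
    nlinarith
  have hc : |w.re / k| = |w.re| / k := by rw [abs_div, abs_of_pos hk0]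
  refine ⟨((w.re / k : ℝ) : ℂ) + ((y : ℝ) : ℂ) * Complex.I, ?_, ?_, ?_, ?_⟩
  · constructor
    · simp only [Complex.add_re, Complex.ofReal_re, Complex.mul_re, Complex.I_re, mul_zero,
        Complex.ofReal_im, Complex.I_im, zero_mul, sub_zero, add_zero]
      rw [hc, div_le_one hk0]
      exact hle
    · simpa using hy1
  · apply Complex.ext
    · rw [lk_σre]
      simp only [Complex.add_re, Complex.ofReal_re, Complex.mul_re, Complex.I_re, mul_zero,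
        Complex.ofReal_im, Complex.I_im, sub_zero, add_zero, Complex.add_im,
        Complex.mul_im, zero_add, mul_one]
      rw [← hk, div_mul_cancel₀ _ hk0.ne']
    · rw [lk_σim]
      simp only [Complex.add_im, Complex.ofReal_im, Complex.mul_im, Complex.ofReal_re,
        Complex.I_im, mul_one, Complex.I_re, mul_zero, add_zero, zero_add]
      rw [hy]
      ring
  · intro h
    have h4 : |w.re| = k := by nlinarith
    simp only [Complex.add_re, Complex.ofReal_re, Complex.mul_re, Complex.I_re, mul_zero,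
        Complex.ofReal_im, Complex.I_im, zero_mul, sub_zero, add_zero]
    rw [hc, h4, div_self hk0.ne']
  · intro h4 h5
    have h6 : w.im ^ 2 = 1 / 256 := by
      rw [← sq_abs, h5]
      norm_num
    have h7 : k = 1 / 4 := by nlinarith
    simp only [Complex.add_re, Complex.ofReal_re, Complex.mul_re, Complex.I_re, mul_zero,
        Complex.ofReal_im, Complex.I_im, zero_mul, sub_zero, add_zero]
    rw [hc, div_lt_one hk0, h7]
    exact h4

private theorem lk_σprop {z : ℂ} (hz : z ∈ Sq) : |(lk_σ z).re| ≤ 1 / 4 ∧ |(lk_σ z).im| ≤ 1 / 16 ∧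
    1 / 256 ≤ lk_R (lk_σ z) ∧ (|z.re| = 1 → lk_R (lk_σ z) = 1 / 256) ∧
    (|z.im| = 1 → |(lk_σ z).im| = 1 / 16 ∧ |(lk_σ z).re| = |z.re| / 4) := by
  obtain ⟨h1, h2⟩ := hz
  set k : ℝ := 1 / 4 - 1 / 16 * √(1 - z.im ^ 2) with hk
  have hk1 : 3 / 16 ≤ k := lk_fac.1
  have hk2 : k ≤ 1 / 4 := lk_fac.2
  have hk0 : 0 < k := by linarith
  have hy2 : z.im ^ 2 ≤ 1 := by
    rw [← sq_abs]
    nlinarith [abs_nonneg z.im]
  have hs : √(1 - z.im ^ 2) ^ 2 = 1 - z.im ^ 2 := Real.sq_sqrt (by linarith)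
  have hks : (1 / 4 - k) ^ 2 + (z.im / 16) ^ 2 = 1 / 256 := by
    have : 1 / 4 - k = 1 / 16 * √(1 - z.im ^ 2) := by rw [hk]; ring
    rw [this, mul_pow, hs]
    ring
  have hre : |(lk_σ z).re| = |z.re| * k := by
    rw [lk_σre, ← hk, abs_mul, abs_of_pos hk0]
  have him : |(lk_σ z).im| = |z.im| / 16 := by
    rw [lk_σim, abs_div, abs_of_pos (by norm_num : (0:ℝ) < 16)]
  have h0 : 0 ≤ |z.re| := abs_nonneg _
  refine ⟨?_, ?_, ?_, ?_, ?_⟩
  · rw [hre]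
    nlinarith
  · rw [him]
    linarith
  · unfold lk_R
    rw [hre, lk_σim, ← hks]
    have h9 : |z.re| * k ≤ k := by nlinarith
    nlinarith
  · intro h
    unfold lk_R
    rw [hre, lk_σim, ← hks, h]
    ring
  · intro h
    rw [him, h, hre]
    refine ⟨by norm_num, ?_⟩
    have h3 : z.im ^ 2 = 1 := by rw [← sq_abs, h]; norm_num
    have h4 : k = 1 / 4 := by
      rw [hk, h3]
      simp
    rw [h4]
    ring

private theorem lk_σSq : lk_σ '' Sq = {w | |w.re| ≤ 1 / 4 ∧ |w.im| ≤ 1 / 16 ∧ 1 / 256 ≤ lk_R w} := by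
  ext w
  constructor
  · rintro ⟨z, hz, rfl⟩
    obtain ⟨h1, h2, h3, -⟩ := lk_σprop hz
    exact ⟨h1, h2, h3⟩
  · rintro ⟨h1, h2, h3⟩
    obtain ⟨z, hz, hzw, -⟩ := lk_σinv h1 h2 h3
    exact ⟨z, hz, hzw⟩

private theorem lk_im {w : ℂ} (h : |w.im| = 1 / 16) : w.im ^ 2 = 1 / 256 := by
  rw [← sq_abs, h]
  norm_num

private theorem lk_σA : lk_σ '' SqA = {w | |w.re| ≤ 1 / 4 ∧ |w.im| = 1 / 16} := by
  ext w
  constructor
  · rintro ⟨z, ⟨hz1, hz2⟩, rfl⟩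
    obtain ⟨h1, -, -, -, h5⟩ := lk_σprop (z := z) ⟨hz1, hz2.le⟩
    exact ⟨h1, (h5 hz2).1⟩
  · rintro ⟨h1, h2⟩
    have h3 : 1 / 256 ≤ lk_R w := by
      unfold lk_R
      rw [lk_im h2]
      nlinarith [sq_nonneg (|w.re| - 1 / 4)]
    obtain ⟨z, hz, rfl, -⟩ := lk_σinv h1 h2.le h3
    refine ⟨z, ⟨hz.1, ?_⟩, rfl⟩
    rw [lk_σim, abs_div, abs_of_pos (by norm_num : (0:ℝ) < 16)] at h2
    linarith

private theorem lk_σO : lk_σ '' SqO = {w | |w.re| < 1 / 4 ∧ |w.im| = 1 / 16} := by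
  ext w
  constructor
  · rintro ⟨z, ⟨hz1, hz2⟩, rfl⟩
    obtain ⟨-, -, -, -, h5⟩ := lk_σprop (z := z) ⟨hz1.le, hz2.le⟩
    obtain ⟨h6, h7⟩ := h5 hz2
    refine ⟨?_, h6⟩
    rw [h7]
    linarith
  · rintro ⟨h1, h2⟩
    have h3 : 1 / 256 ≤ lk_R w := by
      unfold lk_R
      rw [lk_im h2]
      nlinarith [sq_nonneg (|w.re| - 1 / 4)]
    obtain ⟨z, hz, rfl, -, h5⟩ := lk_σinv h1.le h2.le h3
    have h6 := h5 h1 h2
    refine ⟨z, ⟨h6, ?_⟩, rfl⟩
    rw [lk_σim, abs_div, abs_of_pos (by norm_num : (0:ℝ) < 16)] at h2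
    linarith

private theorem lk_σF : lk_σ '' SqF = {w | |w.re| ≤ 1 / 4 ∧ lk_R w = 1 / 256} := by
  ext w
  constructor
  · rintro ⟨z, ⟨hz1, hz2⟩, rfl⟩
    obtain ⟨h1, -, -, h4, -⟩ := lk_σprop (z := z) ⟨hz1.le, hz2⟩
    exact ⟨h1, h4 hz1⟩
  · rintro ⟨h1, h2⟩
    have h3 : |w.im| ≤ 1 / 16 := by
      unfold lk_R at h2
      rw [← sq_abs w.im] at h2
      by_contra h
      rw [not_le] at h
      nlinarith [sq_nonneg (|w.re| - 1 / 4)]
    obtain ⟨z, hz, rfl, h4, -⟩ := lk_σinv h1 h3 h2.ge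
    exact ⟨z, ⟨h4 h2, hz.2⟩, rfl⟩

private theorem lk_SqDclosed : IsCompact Sq := by
  have h1 : Sq = {z : ℂ | |z.re| ≤ 1} ∩ {z : ℂ | |z.im| ≤ 1} := rfl
  have h2 : IsClosed Sq := by
    rw [h1]
    exact (isClosed_le (continuous_abs.comp Complex.continuous_re) continuous_const).inter
      (isClosed_le (continuous_abs.comp Complex.continuous_im) continuous_const)
  refine (isCompact_closedBall (0 : ℂ) 2).of_isClosed_subset h2 ?_
  intro z hz
  rw [mem_closedBall_zero_iff]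
  calc ‖z‖ ≤ |z.re| + |z.im| := Complex.norm_le_abs_re_add_abs_im z
    _ ≤ 2 := by linarith [hz.1, hz.2]

/-- a square as a disc attached along two arcs -/
private theorem lk_att (hBAND : St_BAND) {X : Type} [TopologicalSpace X] {G : ℂ → X}
    (hGc : ContinuousOn G Sq) (hGi : InjOn G Sq) : ∃ e : ℂ → X, ContinuousOn e CD ∧ InjOn e CD ∧
      e '' CD = G '' Sq ∧
      e '' (carc 0 (Real.pi / 2) ∪ carc Real.pi (3 * Real.pi / 2)) = G '' SqA ∧
      e '' (oarc 0 (Real.pi / 2) ∪ oarc Real.pi (3 * Real.pi / 2)) = G '' SqO ∧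
      e '' UC = G '' (Sq \ SqI) := by
  have hpi := Real.pi_pos
  obtain ⟨H₀, hc, hi, h1, -, -, -, -, -, h4, h5, -, h6⟩ := hBAND 0 (Real.pi / 2) Real.pi
    (3 * Real.pi / 2) (by linarith) (by linarith) (by linarith) (by linarith)
  set K : ℂ → ℂ := Function.invFunOn H₀ Sq with hK
  have hKl : ∀ w ∈ Sq, K (H₀ w) = w := fun w hw => hi.leftInvOn_invFunOn hw
  have hKm : MapsTo K CD Sq := by
    intro z hz
    rw [← h1] at hz
    obtain ⟨w, hw, rfl⟩ := hz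
    rw [hKl w hw]
    exact hw
  have hKi : InjOn K CD := by
    rw [← h1]
    rintro _ ⟨z, hz, rfl⟩ _ ⟨w, hw, rfl⟩ h
    rw [hKl z hz, hKl w hw] at h
    rw [h]
  have hKc : ContinuousOn K CD := by
    rw [continuousOn_iff_isClosed]
    intro t ht
    refine ⟨H₀ '' (Sq ∩ t), ?_, ?_⟩
    · exact ((lk_SqDclosed.inter_right ht).image_of_continuousOn
        (hc.mono inter_subset_left)).isClosed
    · rw [← h1]
      ext v
      constructor
      · rintro ⟨h7, w, hw, rfl⟩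
        rw [mem_preimage, hKl w hw] at h7
        exact ⟨⟨w, ⟨hw, h7⟩, rfl⟩, w, hw, rfl⟩
      · rintro ⟨⟨w, ⟨hw, h7⟩, rfl⟩, -⟩
        refine ⟨?_, w, hw, rfl⟩
        rw [mem_preimage, hKl w hw]
        exact h7
  have himg : ∀ V ⊆ Sq, (fun z => G (K z)) '' (H₀ '' V) = G '' V := by
    intro V hV
    rw [image_image]
    exact image_congr fun w hw => by rw [hKl w (hV hw)]
  refine ⟨fun z => G (K z), hGc.comp hKc hKm, ?_, ?_, ?_, ?_, ?_⟩
  · intro z hz w hw h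
    exact hKi hz hw (hGi (hKm hz) (hKm hw) h)
  · rw [← h1]
    exact himg _ Subset.rfl
  · rw [← h4]
    exact himg _ fun z hz => ⟨hz.1, hz.2.le⟩
  · rw [← h5]
    exact himg _ fun z hz => ⟨hz.1.le, hz.2.le⟩
  · rw [← h6]
    exact himg _ fun z hz => hz.1

/-! ## The outer quarters -/

private noncomputable def lk_m : ℝ := 1 / 4 + √2 / 32

private theorem lk_s2 : √2 * √2 = 2 := Real.mul_self_sqrt (by norm_num)

private theorem lk_s2pos : 0 < √2 := Real.sqrt_pos.2 (by norm_num)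

private theorem lk_s2lt : √2 < 3 / 2 := by
  nlinarith [lk_s2, lk_s2pos]

private theorem lk_cre (s : ℝ) : (cexpi s).re = Real.cos s := by
  unfold cexpi
  exact Complex.exp_ofReal_mul_I_re s

private theorem lk_cim (s : ℝ) : (cexpi s).im = Real.sin s := by
  unfold cexpi
  exact Complex.exp_ofReal_mul_I_im s

/-- the point of the outer quarter -/
private noncomputable def lk_P (x : ℝ) : ℂ := 1 / 4 + 1 / 16 * cexpi (Real.pi * x / 4)

private theorem lk_Pre (x : ℝ) : (lk_P x).re = 1 / 4 + Real.cos (Real.pi * x / 4) / 16 := by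
  unfold lk_P
  have h1 : (1 / 4 + 1 / 16 * cexpi (Real.pi * x / 4) : ℂ) =
      ((1 / 4 : ℝ) : ℂ) + ((1 / 16 : ℝ) : ℂ) * cexpi (Real.pi * x / 4) := by
    push_cast
    ring
  rw [h1, Complex.add_re, Complex.ofReal_re, Complex.re_ofReal_mul, lk_cre]
  ring

private theorem lk_Pim (x : ℝ) : (lk_P x).im = Real.sin (Real.pi * x / 4) / 16 := by
  unfold lk_P
  have h1 : (1 / 4 + 1 / 16 * cexpi (Real.pi * x / 4) : ℂ) =
      ((1 / 4 : ℝ) : ℂ) + ((1 / 16 : ℝ) : ℂ) * cexpi (Real.pi * x / 4) := by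
    push_cast
    ring
  rw [h1, Complex.add_im, Complex.ofReal_im, Complex.im_ofReal_mul, lk_cim]
  ring

private theorem lk_Psq (x : ℝ) : ((lk_P x).re - 1 / 4) ^ 2 + (lk_P x).im ^ 2 = 1 / 256 := by
  rw [lk_Pre, lk_Pim]
  nlinarith [Real.sin_sq_add_cos_sq (Real.pi * x / 4)]

private theorem lk_abs {x : ℝ} : |Real.pi * x / 4| = Real.pi * |x| / 4 := by
  rw [abs_div, abs_mul, abs_of_pos Real.pi_pos, abs_of_pos (by norm_num : (0:ℝ) < 4)]

private theorem lk_Ple {x : ℝ} (hx : |x| ≤ 1) : lk_m ≤ (lk_P x).re := by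
  rw [lk_Pre, lk_m, ← Real.cos_abs, lk_abs]
  have hpi := Real.pi_pos
  have h1 := Real.cos_le_cos_of_nonneg_of_le_pi (x := Real.pi * |x| / 4) (y := Real.pi / 4)
    (by positivity) (by linarith) (by nlinarith)
  rw [Real.cos_pi_div_four] at h1
  linarith

private theorem lk_Plt {x : ℝ} (hx : |x| < 1) : lk_m < (lk_P x).re := by
  rw [lk_Pre, lk_m, ← Real.cos_abs, lk_abs]
  have hpi := Real.pi_pos
  have h1 := Real.cos_lt_cos_of_nonneg_of_le_pi (x := Real.pi * |x| / 4) (y := Real.pi / 4)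
    (by positivity) (by linarith) (by nlinarith)
  rw [Real.cos_pi_div_four] at h1
  linarith

private theorem lk_Pinv {z : ℂ} (h : (z.re - 1 / 4) ^ 2 + z.im ^ 2 = 1 / 256) (h1 : lk_m ≤ z.re) :
    ∃ x : ℝ, |x| ≤ 1 ∧ z = lk_P x ∧ (lk_m < z.re → |x| < 1) := by
  have hpi := Real.pi_pos
  set u : ℂ := 16 * (z - 1 / 4) with hu
  have hure : u.re = 16 * (z.re - 1 / 4) := by
    have h2 : u = ((16 : ℝ) : ℂ) * (z - ((1 / 4 : ℝ) : ℂ)) := by rw [hu]; push_cast; ring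
    rw [h2, Complex.re_ofReal_mul, Complex.sub_re, Complex.ofReal_re]
  have huim : u.im = 16 * z.im := by
    have h2 : u = ((16 : ℝ) : ℂ) * (z - ((1 / 4 : ℝ) : ℂ)) := by rw [hu]; push_cast; ring
    rw [h2, Complex.im_ofReal_mul, Complex.sub_im, Complex.ofReal_im, sub_zero]
  have hn : ‖u‖ = 1 := by
    have h3 : ‖u‖ ^ 2 = 1 := by
      rw [Complex.sq_norm, Complex.normSq_apply, hure, huim]
      nlinarith
    nlinarith [norm_nonneg u]
  have h4 := Complex.norm_mul_exp_arg_mul_I u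
  rw [hn, Complex.ofReal_one, one_mul] at h4
  set s : ℝ := Complex.arg u with hs
  have h5 : cexpi s = u := h4
  have hcos : Real.cos s = 16 * (z.re - 1 / 4) := by rw [← lk_cre, h5, hure]
  have hspi : |s| ≤ Real.pi := Complex.abs_arg_le_pi _
  unfold lk_m at h1 ⊢
  have h6 : |s| ≤ Real.pi / 4 := by
    by_contra hcon
    rw [not_le] at hcon
    have h7 := Real.cos_lt_cos_of_nonneg_of_le_pi (x := Real.pi / 4) (y := |s|)
      (by positivity) hspi hcon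
    rw [Real.cos_abs, Real.cos_pi_div_four, hcos] at h7
    linarith
  refine ⟨4 * s / Real.pi, ?_, ?_, ?_⟩
  · rw [abs_div, abs_mul, abs_of_pos hpi, abs_of_pos (by norm_num : (0:ℝ) < 4), div_le_one hpi]
    linarith
  · unfold lk_P
    have h8 : Real.pi * (4 * s / Real.pi) / 4 = s := by field_simp
    rw [h8, h5, hu]
    ring
  · intro h9
    rw [abs_div, abs_mul, abs_of_pos hpi, abs_of_pos (by norm_num : (0:ℝ) < 4), div_lt_one hpi]
    by_contra hcon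
    rw [not_lt] at hcon
    have h7 := Real.cos_le_cos_of_nonneg_of_le_pi (x := Real.pi / 4) (y := |s|)
      (by positivity) hspi (by linarith)
    rw [Real.cos_abs, Real.cos_pi_div_four, hcos] at h7
    linarith

private theorem lk_mgt : 1 / 4 < lk_m := by
  unfold lk_m
  linarith [lk_s2pos]

private theorem lk_mlt : lk_m < 5 / 16 := by
  unfold lk_m
  linarith [lk_s2lt]

private theorem lk_gneg (z : ℂ) : lk_g (-z) = lk_g z := by
  unfold lk_g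
  rw [Complex.neg_re, Complex.neg_im, abs_neg]
  ring

private theorem lk_Rneg (z : ℂ) : lk_R (-z) = lk_R z := by
  unfold lk_R
  rw [Complex.neg_re, Complex.neg_im, abs_neg]
  ring

private theorem lk_Pg {x : ℝ} (hx : |x| ≤ 1) : lk_g (lk_P x) = 1 / 256 := by
  rw [lk_g2 (lk_mgt.le.trans (lk_Ple hx)), lk_Psq]

private theorem lk_sgn {z : ℂ} (h1 : lk_g z = 1 / 256) (h2 : lk_m ≤ |z.re|) :
    ∃ x : ℝ, |x| ≤ 1 ∧ (z = lk_P x ∨ z = -lk_P x) ∧ (lk_m < |z.re| → |x| < 1) := by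
  rcases le_total 0 z.re with h | h
  · rw [abs_of_nonneg h] at h2 ⊢
    rw [lk_g2 (lk_mgt.le.trans h2)] at h1
    obtain ⟨x, hx, hz, hx2⟩ := lk_Pinv h1 h2
    exact ⟨x, hx, Or.inl hz, hx2⟩
  · rw [abs_of_nonpos h] at h2 ⊢
    rw [lk_g3 (by linarith [lk_mgt])] at h1
    obtain ⟨x, hx, hz, hx2⟩ := lk_Pinv (z := -z) (by
      rw [Complex.neg_re, Complex.neg_im]
      nlinarith) (by rw [Complex.neg_re]; exact h2)
    refine ⟨x, hx, Or.inr ?_, fun h => hx2 (by rw [Complex.neg_re]; exact h)⟩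
    rw [← hz, neg_neg]

private theorem lk_pm {z : ℂ} (h : |z.im| = 1) : z = (z.re : ℂ) + Complex.I ∨
    z = (z.re : ℂ) - Complex.I := by
  rcases (abs_eq (by norm_num : (0:ℝ) ≤ 1)).1 h with h | h
  · left
    apply Complex.ext <;> simp [h]
  · right
    apply Complex.ext <;> simp [h]

private theorem lk_Hset {X : Type} {q H : ℂ → X}
    (hH1 : ∀ x ∈ Icc (-1 : ℝ) 1, H (x + Complex.I) = q (lk_P x))
    (hH2 : ∀ x ∈ Icc (-1 : ℝ) 1, H (x - Complex.I) = q (-lk_P x)) :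
    H '' SqA = q '' {z | lk_g z = 1 / 256 ∧ lk_m ≤ |z.re|} ∧
    H '' SqO = q '' {z | lk_g z = 1 / 256 ∧ lk_m < |z.re|} := by
  have hP : ∀ x : ℝ, |x| ≤ 1 → |(lk_P x).re| = (lk_P x).re := fun x hx =>
    abs_of_pos (lt_of_lt_of_le (by linarith [lk_mgt]) (lk_Ple hx))
  have hre1 : ∀ x : ℝ, ((x : ℂ) + Complex.I).re = x := fun x => by simp
  have him1 : ∀ x : ℝ, ((x : ℂ) + Complex.I).im = 1 := fun x => by simp
  have hre2 : ∀ x : ℝ, ((x : ℂ) - Complex.I).re = x := fun x => by simp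
  have him2 : ∀ x : ℝ, ((x : ℂ) - Complex.I).im = -1 := fun x => by simp
  constructor
  · ext v
    constructor
    · rintro ⟨z, ⟨h1, h2⟩, rfl⟩
      have h1' : z.re ∈ Icc (-1 : ℝ) 1 := abs_le.1 h1
      rcases lk_pm h2 with h | h
      · rw [h, hH1 _ h1']
        refine ⟨_, ⟨lk_Pg h1, ?_⟩, rfl⟩
        rw [hP _ h1]
        exact lk_Ple h1
      · rw [h, hH2 _ h1']
        refine ⟨_, ⟨by rw [lk_gneg]; exact lk_Pg h1, ?_⟩, rfl⟩
        rw [Complex.neg_re, abs_neg, hP _ h1]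
        exact lk_Ple h1
    · rintro ⟨z, ⟨h1, h2⟩, rfl⟩
      obtain ⟨x, hx, hz | hz, -⟩ := lk_sgn h1 h2
      · refine ⟨(x : ℂ) + Complex.I, ⟨by rw [hre1]; exact hx, by rw [him1]; exact abs_one⟩, ?_⟩
        rw [hH1 x (abs_le.1 hx), hz]
      · refine ⟨(x : ℂ) - Complex.I, ⟨by rw [hre2]; exact hx, by rw [him2]; simp⟩, ?_⟩
        rw [hH2 x (abs_le.1 hx), hz]
  · ext v
    constructor
    · rintro ⟨z, ⟨h1, h2⟩, rfl⟩
      have h1' : z.re ∈ Icc (-1 : ℝ) 1 := abs_le.1 h1.le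
      rcases lk_pm h2 with h | h
      · rw [h, hH1 _ h1']
        refine ⟨_, ⟨lk_Pg h1.le, ?_⟩, rfl⟩
        rw [hP _ h1.le]
        exact lk_Plt h1
      · rw [h, hH2 _ h1']
        refine ⟨_, ⟨by rw [lk_gneg]; exact lk_Pg h1.le, ?_⟩, rfl⟩
        rw [Complex.neg_re, abs_neg, hP _ h1.le]
        exact lk_Plt h1
    · rintro ⟨z, ⟨h1, h2⟩, rfl⟩
      obtain ⟨x, hx, hz, hx2⟩ := lk_sgn h1 h2.le
      have hx3 := hx2 h2
      rcases hz with hz | hz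
      · refine ⟨(x : ℂ) + Complex.I, ⟨by rw [hre1]; exact hx3, by rw [him1]; exact abs_one⟩, ?_⟩
        rw [hH1 x (abs_le.1 hx), hz]
      · refine ⟨(x : ℂ) - Complex.I, ⟨by rw [hre2]; exact hx3, by rw [him2]; simp⟩, ?_⟩
        rw [hH2 x (abs_le.1 hx), hz]

/-! ## Connected sets -/

private theorem lk_graph (g : ℝ → ℝ) (hg : Continuous g) (a b : ℝ) :
    IsPreconnected {z : ℂ | a ≤ z.re ∧ z.re ≤ b ∧ z.im = g z.re} := by
  have h : {z : ℂ | a ≤ z.re ∧ z.re ≤ b ∧ z.im = g z.re} =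
      (fun x : ℝ => (x : ℂ) + (g x : ℂ) * Complex.I) '' Icc a b := by
    ext z
    constructor
    · rintro ⟨h1, h2, h3⟩
      refine ⟨z.re, ⟨h1, h2⟩, ?_⟩
      apply Complex.ext
      · simp
      · simp [h3]
    · rintro ⟨x, ⟨h1, h2⟩, rfl⟩
      refine ⟨?_, ?_, ?_⟩ <;> simp [h1, h2]
  rw [h]
  refine isPreconnected_Icc.image _ (Continuous.continuousOn ?_)
  exact Complex.continuous_ofReal.add ((Complex.continuous_ofReal.comp hg).mul continuous_const)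

private theorem lk_maxle {x : ℝ} (h : |x| ≤ lk_m) : (max 0 (|x| - 1 / 4)) ^ 2 ≤ 1 / 512 := by
  have h1 : max 0 (|x| - 1 / 4) ≤ √2 / 32 := by
    apply max_le (by positivity)
    unfold lk_m at h
    linarith
  have h2 : 0 ≤ max 0 (|x| - 1 / 4) := le_max_left _ _
  nlinarith [lk_s2]

private theorem lk_up : IsPreconnected {z | lk_g z = 1 / 256 ∧ |z.re| ≤ lk_m ∧ 0 ≤ z.im} ∧
    IsPreconnected {z | lk_g z = 1 / 256 ∧ |z.re| ≤ lk_m ∧ z.im ≤ 0} := by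
  have hc : Continuous fun x : ℝ => √(1 / 256 - (max 0 (|x| - 1 / 4)) ^ 2) := by fun_prop
  have h1 := lk_graph _ hc (-lk_m) lk_m
  have h2 := lk_graph _ hc.neg (-lk_m) lk_m
  constructor
  · refine (congrArg IsPreconnected ?_).mpr h1
    ext z
    constructor
    · rintro ⟨h3, h4, h5⟩
      refine ⟨(abs_le.1 h4).1, (abs_le.1 h4).2, ?_⟩
      unfold lk_g at h3
      rw [show 1 / 256 - (max 0 (|z.re| - 1 / 4)) ^ 2 = z.im ^ 2 by linarith, Real.sqrt_sq h5]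
    · rintro ⟨h3, h4, h5⟩
      have h6 : |z.re| ≤ lk_m := abs_le.2 ⟨h3, h4⟩
      have h7 := lk_maxle h6
      refine ⟨?_, h6, by rw [h5]; exact Real.sqrt_nonneg _⟩
      unfold lk_g
      rw [h5, Real.sq_sqrt (by linarith)]
      ring
  · refine (congrArg IsPreconnected ?_).mpr h2
    ext z
    constructor
    · rintro ⟨h3, h4, h5⟩
      refine ⟨(abs_le.1 h4).1, (abs_le.1 h4).2, ?_⟩
      unfold lk_g at h3
      change z.im = -√(1 / 256 - (max 0 (|z.re| - 1 / 4)) ^ 2)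
      rw [show 1 / 256 - (max 0 (|z.re| - 1 / 4)) ^ 2 = (-z.im) ^ 2 by linarith,
        Real.sqrt_sq (by linarith)]
      ring
    · rintro ⟨h3, h4, h5⟩
      have h6 : |z.re| ≤ lk_m := abs_le.2 ⟨h3, h4⟩
      have h7 := lk_maxle h6
      change z.im = -√(1 / 256 - (max 0 (|z.re| - 1 / 4)) ^ 2) at h5
      refine ⟨?_, h6, by rw [h5]; exact neg_nonpos.2 (Real.sqrt_nonneg _)⟩
      unfold lk_g
      rw [h5, neg_sq, Real.sq_sqrt (by linarith)]
      ring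

private theorem lk_C : IsPreconnected {z : ℂ | (z.re - 1 / 4) ^ 2 + z.im ^ 2 = 1 / 256 ∧
    z.re ≤ lk_m} := by
  have hc : Continuous fun x : ℝ => √(1 / 256 - (x - 1 / 4) ^ 2) := by fun_prop
  have h1 := lk_graph _ hc (3 / 16) lk_m
  have h2 := lk_graph _ hc.neg (3 / 16) lk_m
  have hm := lk_mgt
  have h3 := IsPreconnected.union ((3 / 16 : ℝ) : ℂ) (by
    refine ⟨?_, ?_, ?_⟩
    · rw [Complex.ofReal_re]
    · rw [Complex.ofReal_re]; linarith
    · rw [Complex.ofReal_re, Complex.ofReal_im]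
      norm_num) (by
    refine ⟨?_, ?_, ?_⟩
    · rw [Complex.ofReal_re]
    · rw [Complex.ofReal_re]; linarith
    · rw [Complex.ofReal_re, Complex.ofReal_im]
      change (0 : ℝ) = -√(1 / 256 - (3 / 16 - 1 / 4) ^ 2)
      norm_num) h1 h2
  refine (congrArg IsPreconnected ?_).mpr h3
  ext z
  constructor
  · rintro ⟨h4, h5⟩
    have h6 : 3 / 16 ≤ z.re := by nlinarith [sq_nonneg z.im]
    rcases le_total 0 z.im with h7 | h7
    · refine Or.inl ⟨h6, h5, ?_⟩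
      rw [show 1 / 256 - (z.re - 1 / 4) ^ 2 = z.im ^ 2 by linarith, Real.sqrt_sq h7]
    · refine Or.inr ⟨h6, h5, ?_⟩
      change z.im = -√(1 / 256 - (z.re - 1 / 4) ^ 2)
      rw [show 1 / 256 - (z.re - 1 / 4) ^ 2 = (-z.im) ^ 2 by linarith, Real.sqrt_sq (by linarith)]
      ring
  · have h8 : ∀ x : ℝ, 3 / 16 ≤ x → x ≤ lk_m → (x - 1 / 4) ^ 2 ≤ 1 / 256 := by
      intro x hx hx'
      have := lk_mlt
      nlinarith
    rintro (⟨h4, h5, h6⟩ | ⟨h4, h5, h6⟩)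
    · refine ⟨?_, h5⟩
      rw [h6, Real.sq_sqrt (by linarith [h8 z.re h4 h5])]
      ring
    · change z.im = -√(1 / 256 - (z.re - 1 / 4) ^ 2) at h6
      refine ⟨?_, h5⟩
      rw [h6, neg_sq, Real.sq_sqrt (by linarith [h8 z.re h4 h5])]
      ring

private theorem lk_C' : IsPreconnected {z : ℂ | (z.re + 1 / 4) ^ 2 + z.im ^ 2 = 1 / 256 ∧
    -lk_m ≤ z.re} := by
  have h := lk_C.image (fun z : ℂ => -z) continuous_neg.continuousOn
  refine (congrArg IsPreconnected ?_).mpr h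
  ext z
  constructor
  · rintro ⟨h1, h2⟩
    refine ⟨-z, ⟨?_, ?_⟩, neg_neg z⟩
    · rw [Complex.neg_re, Complex.neg_im]
      nlinarith
    · rw [Complex.neg_re]
      linarith
  · rintro ⟨w, ⟨h1, h2⟩, rfl⟩
    refine ⟨?_, ?_⟩
    · rw [Complex.neg_re, Complex.neg_im]
      nlinarith
    · rw [Complex.neg_re]
      linarith

private theorem lk_side : IsPreconnected {z : ℂ | z.re = 1 ∧ |z.im| ≤ 1} ∧
    IsPreconnected {z : ℂ | z.re = -1 ∧ |z.im| ≤ 1} := by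
  have h : ∀ a : ℝ, IsPreconnected {z : ℂ | z.re = a ∧ |z.im| ≤ 1} := by
    intro a
    apply Convex.isPreconnected
    rintro z ⟨hz1, hz2⟩ w ⟨hw1, hw2⟩ s t hs ht hst
    refine ⟨?_, ?_⟩
    · simp only [Complex.add_re, Complex.real_smul, Complex.re_ofReal_mul, hz1, hw1]
      rw [← add_mul, hst, one_mul]
    · simp only [Complex.add_im, Complex.real_smul, Complex.im_ofReal_mul]
      rw [abs_le] at hz2 hw2 ⊢
      constructor <;> nlinarith
  exact ⟨h 1, h (-1)⟩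

private theorem lk_SqFu : SqF = {z : ℂ | z.re = 1 ∧ |z.im| ≤ 1} ∪ {z : ℂ | z.re = -1 ∧ |z.im| ≤ 1} := by
  ext z
  constructor
  · rintro ⟨h1, h2⟩
    rcases (abs_eq (by norm_num : (0:ℝ) ≤ 1)).1 h1 with h | h
    · exact Or.inl ⟨h, h2⟩
    · exact Or.inr ⟨h, h2⟩
  · rintro (⟨h1, h2⟩ | ⟨h1, h2⟩)
    · exact ⟨by rw [h1]; simp, h2⟩
    · exact ⟨by rw [h1]; simp, h2⟩

/-- four preconnected sets in a cycle -/
private theorem lk_cycle {X : Type} [TopologicalSpace X] {A B C D : Set X} (hA : IsPreconnected A)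
    (hB : IsPreconnected B) (hC : IsPreconnected C) (hD : IsPreconnected D) {a b c : X}
    (ha : a ∈ A) (ha' : a ∈ C) (hb : b ∈ C) (hb' : b ∈ B) (hc : c ∈ D) (hc' : c ∈ A) :
    IsPreconnected ((A ∪ B) ∪ (C ∪ D)) := by
  have h1 : IsPreconnected (A ∪ C) := hA.union a ha ha' hC
  have h2 : IsPreconnected ((A ∪ C) ∪ B) := h1.union b (Or.inr hb) hb' hB
  have h3 : IsPreconnected (((A ∪ C) ∪ B) ∪ D) := h2.union c (Or.inl (Or.inl hc')) hc hD
  refine (congrArg IsPreconnected ?_).mpr h3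
  ext x
  simp only [mem_union]
  tauto

/-! ## The normalised case -/

private theorem lk_S0D {w : ℂ} (h1 : |w.re| ≤ 1 / 4) (h2 : |w.im| ≤ 1 / 16) :
    w.re ^ 2 + w.im ^ 2 ≤ 1 := by
  have h3 : w.re ^ 2 ≤ 1 / 16 := by rw [← sq_abs]; nlinarith [abs_nonneg w.re]
  have h4 : w.im ^ 2 ≤ 1 / 256 := by rw [← sq_abs]; nlinarith [abs_nonneg w.im]
  linarith

private theorem lk_imle {w : ℂ} (h : w.im ^ 2 ≤ 1 / 256) : |w.im| ≤ 1 / 16 := by
  rw [← sq_abs] at h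
  by_contra h'
  rw [not_le] at h'
  nlinarith

private theorem lk_imge {w : ℂ} (h : 1 / 256 ≤ w.im ^ 2) : 1 / 16 ≤ |w.im| := by
  rw [← sq_abs] at h
  by_contra h'
  rw [not_le] at h'
  nlinarith [abs_nonneg w.im]

private theorem lk_main (hBAND : St_BAND) (hINTD : St_INTD) (hPDS : St_PDS) (hBCN : St_BCN)
    (hLD : St_LD) (hSONE : St_SONE) {X : Type} [TopologicalSpace X] [T2Space X] {q H : ℂ → X}
    (hqc : ContinuousOn q pantsC.Dom) (hqi : InjOn q pantsC.Dom) (hHc : ContinuousOn H Sq)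
    (hHi : InjOn H Sq) (hmeet : H '' Sq ∩ q '' pantsC.Dom = H '' SqA)
    (hH1 : ∀ x ∈ Icc (-1 : ℝ) 1, H (x + Complex.I) = q (lk_P x))
    (hH2 : ∀ x ∈ Icc (-1 : ℝ) 1, H (x - Complex.I) = q (-lk_P x)) :
    FinPres 0 2 1 (q '' pantsC.Dom ∪ H '' Sq) ((q '' pantsC.FreeBd \ H '' SqO) ∪ H '' SqF) q := by
  have hpi := Real.pi_pos
  have hm1 := lk_mgt
  have hm2 := lk_mlt
  obtain ⟨hQA, hQO⟩ := lk_Hset hH1 hH2
  have hFrD : lk_Fr ⊆ pantsC.Dom := lk_FrB.trans lk_BD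
  have hFD : pantsC.FreeBd ⊆ pantsC.Dom := by
    intro z hz
    rw [lk_free'] at hz
    rw [lk_dom']
    refine ⟨?_, hz.ge⟩
    unfold lk_R at hz
    have h1 : |z.re| ≤ 5 / 16 := by nlinarith [sq_nonneg z.im]
    have h2 : z.re ^ 2 ≤ 25 / 256 := by rw [← sq_abs]; nlinarith [abs_nonneg z.re]
    have h3 : z.im ^ 2 ≤ 1 / 256 := by nlinarith [sq_nonneg (|z.re| - 1 / 4)]
    linarith
  have hFSq : SqF ⊆ Sq := fun z hz => ⟨hz.1.le, hz.2⟩
  have hOSq : SqO ⊆ Sq := fun z hz => ⟨hz.1.le, hz.2.le⟩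
  have hASq : SqA ⊆ Sq := fun z hz => ⟨hz.1, hz.2.le⟩
  -- the corners
  have hone : (1 : ℝ) ∈ Icc (-1 : ℝ) 1 := ⟨by norm_num, le_rfl⟩
  have hmone : (-1 : ℝ) ∈ Icc (-1 : ℝ) 1 := ⟨le_rfl, by norm_num⟩
  have ha1 : |(1 : ℝ)| ≤ 1 := by simp
  have ha2 : |(-1 : ℝ)| ≤ 1 := by simp
  have hPr1 : (lk_P 1).re = lk_m := by
    rw [lk_Pre, mul_one, Real.cos_pi_div_four, lk_m]
    ring
  have hPi1 : (lk_P 1).im = √2 / 32 := by
    rw [lk_Pim, mul_one, Real.sin_pi_div_four]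
    ring
  have hang : Real.pi * -1 / 4 = -(Real.pi / 4) := by ring
  have hPr2 : (lk_P (-1)).re = lk_m := by
    rw [lk_Pre, hang, Real.cos_neg, Real.cos_pi_div_four, lk_m]
    ring
  have hPi2 : (lk_P (-1)).im = -(√2 / 32) := by
    rw [lk_Pim, hang, Real.sin_neg, Real.sin_pi_div_four]
    ring
  have hs2 := lk_s2pos
  have hmabs : |lk_m| = lk_m := abs_of_pos (by linarith)
  have hc1 : H (1 + Complex.I) = q (lk_P 1) := by
    have := hH1 1 hone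
    rwa [Complex.ofReal_one] at this
  have hc2 : H (-1 + Complex.I) = q (lk_P (-1)) := by
    have := hH1 (-1) hmone
    rwa [Complex.ofReal_neg, Complex.ofReal_one] at this
  have hc3 : H (1 - Complex.I) = q (-lk_P 1) := by
    have := hH2 1 hone
    rwa [Complex.ofReal_one] at this
  have hc4 : H (-1 - Complex.I) = q (-lk_P (-1)) := by
    have := hH2 (-1) hmone
    rwa [Complex.ofReal_neg, Complex.ofReal_one] at this
  have hm11 : (1 + Complex.I : ℂ) ∈ {z : ℂ | z.re = 1 ∧ |z.im| ≤ 1} := by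
    refine ⟨?_, ?_⟩ <;> simp
  have hm12 : (1 - Complex.I : ℂ) ∈ {z : ℂ | z.re = 1 ∧ |z.im| ≤ 1} := by
    refine ⟨?_, ?_⟩ <;> simp
  have hm21 : (-1 + Complex.I : ℂ) ∈ {z : ℂ | z.re = -1 ∧ |z.im| ≤ 1} := by
    refine ⟨?_, ?_⟩ <;> simp
  have hm22 : (-1 - Complex.I : ℂ) ∈ {z : ℂ | z.re = -1 ∧ |z.im| ≤ 1} := by
    refine ⟨?_, ?_⟩ <;> simp
  have hsd1 : IsPreconnected (H '' {z : ℂ | z.re = 1 ∧ |z.im| ≤ 1}) :=
    lk_side.1.image _ (hHc.mono fun z hz => ⟨by rw [hz.1]; simp, hz.2⟩)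
  have hsd2 : IsPreconnected (H '' {z : ℂ | z.re = -1 ∧ |z.im| ≤ 1}) :=
    lk_side.2.image _ (hHc.mono fun z hz => ⟨by rw [hz.1]; simp, hz.2⟩)
  -- step 1
  have hann := lk_ann hINTD hPDS hqc hqi
  obtain ⟨e, hec, hei, he1, he2, he3, he4⟩ := lk_att hBAND hHc hHi
  have hatt : AttTo (q '' lk_B) (q '' lk_Fr) e
      (carc 0 (Real.pi / 2) ∪ carc Real.pi (3 * Real.pi / 2)) := by
    refine ⟨hec, hei, ?_, ?_⟩
    · rw [he1, he2]
      apply Subset.antisymm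
      · rintro v ⟨h1, h2⟩
        rw [← hmeet]
        exact ⟨h1, image_mono lk_BD h2⟩
      · intro v hv
        refine ⟨image_mono hASq hv, ?_⟩
        rw [hQA] at hv
        obtain ⟨z, hz, rfl⟩ := hv
        exact ⟨z, lk_FrB hz.1, rfl⟩
    · rw [he2, hQA]
      exact image_mono fun z hz => hz.1
  have hLD1 := hLD X (q '' lk_B) (q '' lk_Fr) q e 0 (Real.pi / 2) Real.pi (3 * Real.pi / 2) hann
    (by linarith) (by linarith) (by linarith) (by linarith) hatt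
  rw [he1, he3, he4] at hLD1
  have hBd1 : (q '' lk_Fr ∪ H '' (Sq \ SqI)) \ H '' SqO =
      q '' {z | lk_g z = 1 / 256 ∧ |z.re| ≤ lk_m} ∪ H '' SqF := by
    apply Subset.antisymm
    · rintro v ⟨⟨z, hz, rfl⟩ | ⟨w, hw, rfl⟩, hv2⟩
      · left
        refine ⟨z, ⟨hz, ?_⟩, rfl⟩
        by_contra h
        apply hv2
        rw [hQO]
        exact ⟨z, ⟨hz, not_le.1 h⟩, rfl⟩
      · right
        rw [lk_SqD'] at hw
        rcases hw with hw | hw
        · exact absurd ⟨w, hw, rfl⟩ hv2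
        · exact ⟨w, hw, rfl⟩
    · rintro v (⟨z, ⟨hz, hz'⟩, rfl⟩ | ⟨w, hw, rfl⟩)
      · refine ⟨Or.inl ⟨z, hz, rfl⟩, ?_⟩
        rw [hQO]
        rintro ⟨z', ⟨h1, h2⟩, h3⟩
        rw [hqi (hFrD h1) (hFrD hz) h3] at h2
        exact absurd h2 (not_lt.2 hz')
      · refine ⟨Or.inr ⟨w, ?_, rfl⟩, ?_⟩
        · rw [lk_SqD']
          exact Or.inr hw
        · rintro ⟨w', hw', h3⟩
          rw [hHi (hOSq hw') (hFSq hw) h3] at hw'
          exact (disjoint_left.1 lk_OF) hw' hw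
  rw [hBd1] at hLD1
  have hpc1 : IsPreconnected (q '' {z | lk_g z = 1 / 256 ∧ |z.re| ≤ lk_m} ∪ H '' SqF) := by
    have h1 : {z | lk_g z = 1 / 256 ∧ |z.re| ≤ lk_m} =
        {z | lk_g z = 1 / 256 ∧ |z.re| ≤ lk_m ∧ 0 ≤ z.im} ∪
        {z | lk_g z = 1 / 256 ∧ |z.re| ≤ lk_m ∧ z.im ≤ 0} := by
      ext z
      constructor
      · rintro ⟨h2, h3⟩
        rcases le_total 0 z.im with h4 | h4
        · exact Or.inl ⟨h2, h3, h4⟩
        · exact Or.inr ⟨h2, h3, h4⟩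
      · rintro (⟨h2, h3, -⟩ | ⟨h2, h3, -⟩) <;> exact ⟨h2, h3⟩
    rw [h1, image_union, lk_SqFu, image_union]
    have h2 := lk_up.1.image q (hqc.mono fun z hz => hFrD hz.1)
    have h3 := lk_up.2.image q (hqc.mono fun z hz => hFrD hz.1)
    refine lk_cycle (a := q (lk_P 1)) (b := q (-lk_P 1)) (c := q (-lk_P (-1))) h2 h3 hsd1 hsd2
      ?_ ?_ ?_ ?_ ?_ ?_
    · refine ⟨_, ⟨lk_Pg ha1, ?_, ?_⟩, rfl⟩
      · rw [hPr1, hmabs]
      · rw [hPi1]; positivity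
    · exact ⟨_, hm11, hc1⟩
    · exact ⟨_, hm12, hc3⟩
    · refine ⟨_, ⟨?_, ?_, ?_⟩, rfl⟩
      · rw [lk_gneg]; exact lk_Pg ha1
      · rw [Complex.neg_re, abs_neg, hPr1, hmabs]
      · rw [Complex.neg_im, hPi1]
        have : 0 < √2 / 32 := by positivity
        linarith
    · exact ⟨_, hm22, hc4⟩
    · refine ⟨_, ⟨?_, ?_, ?_⟩, rfl⟩
      · rw [lk_gneg]; exact lk_Pg ha2
      · rw [Complex.neg_re, abs_neg, hPr2, hmabs]
      · rw [Complex.neg_im, hPi2, neg_neg]; positivity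
  have hF1 := hLD1.resolve_left fun h => hBCN.2.2.1 X 0 0 0 _ _ _ h hpc1
  -- step 2
  have hσD : MapsTo lk_σ Sq pantsC.Dom := by
    intro z hz
    obtain ⟨h1, h2, h3, -⟩ := lk_σprop hz
    rw [lk_dom']
    exact ⟨lk_S0D h1 h2, h3⟩
  have hGc : ContinuousOn (fun z => q (lk_σ z)) Sq := hqc.comp lk_σc.continuousOn hσD
  have hGi : InjOn (fun z => q (lk_σ z)) Sq := fun z hz w hw h =>
    lk_σi hz hw (hqi (hσD hz) (hσD hw) h)
  have hGimg : ∀ V : Set ℂ, (fun z => q (lk_σ z)) '' V = q '' (lk_σ '' V) := fun V => by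
    rw [image_image]
  obtain ⟨e', hec', hei', he1', he2', he3', he4'⟩ := lk_att hBAND hGc hGi
  rw [hGimg, lk_σSq] at he1'
  rw [hGimg, lk_σA] at he2'
  rw [hGimg, lk_σO] at he3'
  rw [hGimg, lk_SqD, image_union, lk_σA, lk_σF] at he4'
  have hAg : ∀ z : ℂ, |z.re| ≤ 1 / 4 → |z.im| = 1 / 16 → lk_g z = 1 / 256 := by
    intro z h1 h2
    rw [lk_g0 z h1, lk_im h2]
  have hS0D : ∀ z : ℂ, |z.re| ≤ 1 / 4 → |z.im| ≤ 1 / 16 → 1 / 256 ≤ lk_R z → z ∈ pantsC.Dom := by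
    intro z h1 h2 h3
    rw [lk_dom']
    exact ⟨lk_S0D h1 h2, h3⟩
  -- the inner square misses the band
  have hdis : ∀ z : ℂ, |z.re| ≤ 1 / 4 → z ∈ pantsC.Dom → q z ∉ H '' Sq := by
    intro z h1 h2 h3
    have h4 : q z ∈ H '' SqA := by
      rw [← hmeet]
      exact ⟨h3, z, h2, rfl⟩
    rw [hQA] at h4
    obtain ⟨w, ⟨h5, h6⟩, h7⟩ := h4
    rw [hqi (hFrD h5) h2 h7] at h6
    linarith
  have hatt' : AttTo (q '' lk_B ∪ H '' Sq)
      (q '' {z | lk_g z = 1 / 256 ∧ |z.re| ≤ lk_m} ∪ H '' SqF) e'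
      (carc 0 (Real.pi / 2) ∪ carc Real.pi (3 * Real.pi / 2)) := by
    refine ⟨hec', hei', ?_, ?_⟩
    · rw [he1', he2']
      apply Subset.antisymm
      · rintro v ⟨⟨w, ⟨h1, h2, h3⟩, rfl⟩, hv⟩
        have hwD := hS0D w h1 h2 h3
        rcases hv with ⟨z, hz, hzw⟩ | hv
        · rw [hqi (lk_BD hz) hwD hzw] at hz
          refine ⟨w, ⟨h1, ?_⟩, rfl⟩
          have h4 := hz.2
          rw [lk_g0 w h1] at h4
          exact le_antisymm h2 (lk_imge h4)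
        · exact absurd hv (hdis w h1 hwD)
      · rintro v ⟨w, ⟨h1, h2⟩, rfl⟩
        have h3 := hAg w h1 h2
        refine ⟨⟨w, ⟨h1, h2.le, ?_⟩, rfl⟩, Or.inl ⟨w, lk_FrB h3, rfl⟩⟩
        rw [← h3]
        exact lk_gleR w
    · rw [he2']
      rintro v ⟨w, ⟨h1, h2⟩, rfl⟩
      exact Or.inl ⟨w, ⟨hAg w h1 h2, by linarith⟩, rfl⟩
  have hS1 := hSONE X 0 1 (q '' lk_B ∪ H '' Sq)
    (q '' {z | lk_g z = 1 / 256 ∧ |z.re| ≤ lk_m} ∪ H '' SqF) q e' 0 (Real.pi / 2) Real.pi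
    (3 * Real.pi / 2) hF1 (by linarith) (by linarith) (by linarith) (by linarith) hatt'
  rw [he1', he3', he4'] at hS1
  have hL : q '' lk_B ∪ H '' Sq ∪
      q '' {w | |w.re| ≤ 1 / 4 ∧ |w.im| ≤ 1 / 16 ∧ 1 / 256 ≤ lk_R w} =
      q '' pantsC.Dom ∪ H '' Sq := by
    apply Subset.antisymm
    · rintro v ((⟨z, hz, rfl⟩ | hv) | ⟨z, ⟨h1, h2, h3⟩, rfl⟩)
      · exact Or.inl ⟨z, lk_BD hz, rfl⟩
      · exact Or.inr hv
      · exact Or.inl ⟨z, hS0D z h1 h2 h3, rfl⟩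
    · rintro v (⟨z, hz, rfl⟩ | hv)
      · rw [lk_dom'] at hz
        rcases le_or_gt (1 / 256) (lk_g z) with h | h
        · exact Or.inl (Or.inl ⟨z, ⟨hz.1, h⟩, rfl⟩)
        · right
          have h1 : |z.re| ≤ 1 / 4 := by
            by_contra h1
            rw [not_le] at h1
            rw [lk_gR z h1.le] at h
            linarith [hz.2]
          refine ⟨z, ⟨h1, ?_, hz.2⟩, rfl⟩
          rw [lk_g0 z h1] at h
          exact lk_imle h.le
      · exact Or.inl (Or.inr hv)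
  have hBd2 : (q '' {z | lk_g z = 1 / 256 ∧ |z.re| ≤ lk_m} ∪ H '' SqF ∪
      q '' ({w | |w.re| ≤ 1 / 4 ∧ |w.im| = 1 / 16} ∪ {w | |w.re| ≤ 1 / 4 ∧ lk_R w = 1 / 256})) \
      q '' {w | |w.re| < 1 / 4 ∧ |w.im| = 1 / 16} =
      q '' {z | lk_R z = 1 / 256 ∧ |z.re| ≤ lk_m} ∪ H '' SqF := by
    have hRD : ∀ z : ℂ, lk_R z = 1 / 256 → z ∈ pantsC.Dom := fun z hz =>
      hFD ((lk_free' z).2 hz)
    have hRA : ∀ z : ℂ, lk_R z = 1 / 256 → |z.im| = 1 / 16 → ¬ |z.re| < 1 / 4 := by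
      intro z h1 h2 h3
      unfold lk_R at h1
      rw [lk_im h2] at h1
      nlinarith
    apply Subset.antisymm
    · rintro v ⟨(⟨z, ⟨h1, h2⟩, rfl⟩ | hv) | ⟨z, ⟨h1, h2⟩ | ⟨h1, h2⟩, rfl⟩, hv2⟩
      · left
        refine ⟨z, ⟨?_, h2⟩, rfl⟩
        rcases lt_or_ge |z.re| (1 / 4) with h3 | h3
        · exfalso
          apply hv2
          rw [lk_g0 z h3.le] at h1
          exact ⟨z, ⟨h3, le_antisymm (lk_imle h1.le) (lk_imge h1.ge)⟩, rfl⟩
        · rw [← lk_gR z h3]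
          exact h1
      · exact Or.inr hv
      · left
        refine ⟨z, ⟨?_, by linarith⟩, rfl⟩
        have h3 : |z.re| = 1 / 4 := by
          rcases h1.lt_or_eq with h3 | h3
          · exact absurd ⟨z, ⟨h3, h2⟩, rfl⟩ hv2
          · exact h3
        rw [← lk_gR z h3.ge]
        exact hAg z h1 h2
      · exact Or.inl ⟨z, ⟨h2, by linarith⟩, rfl⟩
    · rintro v (⟨z, ⟨h1, h2⟩, rfl⟩ | ⟨w, hw, rfl⟩)
      · refine ⟨?_, ?_⟩
        · rcases le_or_gt |z.re| (1 / 4) with h3 | h3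
          · exact Or.inr ⟨z, Or.inr ⟨h3, h1⟩, rfl⟩
          · refine Or.inl (Or.inl ⟨z, ⟨?_, h2⟩, rfl⟩)
            rw [lk_gR z h3.le]
            exact h1
        · rintro ⟨z', ⟨h3, h4⟩, h5⟩
          have h6 : z' = z := hqi (hFrD (hAg z' h3.le h4)) (hRD z h1) h5
          rw [h6] at h3 h4
          exact hRA z h1 h4 h3
      · refine ⟨Or.inl (Or.inr ⟨w, hw, rfl⟩), ?_⟩
        rintro ⟨z, ⟨h3, h4⟩, h5⟩
        exact hdis z h3.le (hFrD (hAg z h3.le h4)) ⟨w, hFSq hw, h5.symm⟩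
  have hBd3 : (q '' pantsC.FreeBd \ H '' SqO) ∪ H '' SqF =
      q '' {z | lk_R z = 1 / 256 ∧ |z.re| ≤ lk_m} ∪ H '' SqF := by
    congr 1
    apply Subset.antisymm
    · rintro v ⟨⟨z, hz, rfl⟩, hv⟩
      rw [lk_free'] at hz
      refine ⟨z, ⟨hz, ?_⟩, rfl⟩
      by_contra h
      rw [not_le] at h
      apply hv
      rw [hQO]
      refine ⟨z, ⟨?_, h⟩, rfl⟩
      rw [lk_gR z (by linarith)]
      exact hz
    · rintro v ⟨z, ⟨h1, h2⟩, rfl⟩
      have hz := (lk_free' z).2 h1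
      refine ⟨⟨z, hz, rfl⟩, ?_⟩
      rw [hQO]
      rintro ⟨z', ⟨h3, h4⟩, h5⟩
      rw [hqi (hFrD h3) (hFD hz) h5] at h4
      exact absurd h4 (not_lt.2 h2)
  rw [hL, hBd2] at hS1
  have hpc2 : IsPreconnected (q '' {z | lk_R z = 1 / 256 ∧ |z.re| ≤ lk_m} ∪ H '' SqF) := by
    have h1 : {z | lk_R z = 1 / 256 ∧ |z.re| ≤ lk_m} =
        {z : ℂ | (z.re - 1 / 4) ^ 2 + z.im ^ 2 = 1 / 256 ∧ z.re ≤ lk_m} ∪
        {z : ℂ | (z.re + 1 / 4) ^ 2 + z.im ^ 2 = 1 / 256 ∧ -lk_m ≤ z.re} := by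
      ext z

      constructor
      · rintro ⟨h2, h3⟩
        rw [abs_le] at h3
        rcases (lk_free z).1 ((lk_free' z).2 h2) with h4 | h4
        · exact Or.inl ⟨h4, h3.2⟩
        · exact Or.inr ⟨h4, h3.1⟩
      · rintro (⟨h2, h3⟩ | ⟨h2, h3⟩)
        · refine ⟨(lk_free' z).1 ((lk_free z).2 (Or.inl h2)), abs_le.2 ⟨?_, h3⟩⟩
          nlinarith [sq_nonneg z.im]
        · refine ⟨(lk_free' z).1 ((lk_free z).2 (Or.inr h2)), abs_le.2 ⟨h3, ?_⟩⟩
          nlinarith [sq_nonneg z.im]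
    rw [h1, image_union, lk_SqFu, image_union]
    have h2 := lk_C.image q (hqc.mono fun z hz => hFD ((lk_free z).2 (Or.inl hz.1)))
    have h3 := lk_C'.image q (hqc.mono fun z hz => hFD ((lk_free z).2 (Or.inr hz.1)))
    refine lk_cycle (a := q (lk_P 1)) (b := q (-lk_P 1)) (c := q (lk_P (-1))) h2 h3 hsd1 hsd2
      ?_ ?_ ?_ ?_ ?_ ?_
    · exact ⟨_, ⟨lk_Psq 1, hPr1.le⟩, rfl⟩
    · exact ⟨_, hm11, hc1⟩
    · exact ⟨_, hm12, hc3⟩
    · refine ⟨_, ⟨?_, ?_⟩, rfl⟩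
      · rw [Complex.neg_re, Complex.neg_im]
        nlinarith [lk_Psq 1]
      · rw [Complex.neg_re, hPr1]
    · exact ⟨_, hm21, hc2⟩
    · exact ⟨_, ⟨lk_Psq (-1), hPr2.le⟩, rfl⟩
  rw [hBd3]
  exact hS1.resolve_left fun h => hBCN.2.2.1 X 0 1 0 _ _ _ h hpc2

/-! ## Normalisation -/

private theorem lk_symm {Φ : ℂ ≃ₜ ℂ} {A : Set ℂ} (h1 : MapsTo Φ A A) (h2 : MapsTo Φ.symm A A) :
    Φ.symm '' A = A := by
  apply Subset.antisymm
  · rintro _ ⟨z, hz, rfl⟩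
    exact h2 hz
  · intro z hz
    exact ⟨Φ z, h1 hz, Φ.symm_apply_apply z⟩

private theorem lk_move {X : Type} [TopologicalSpace X] {q H : ℂ → X} (Φ : ℂ ≃ₜ ℂ)
    (hD : Φ.symm '' pantsC.Dom = pantsC.Dom) (hF : Φ.symm '' pantsC.FreeBd = pantsC.FreeBd)
    (hU : ∀ z ∈ UC, Φ z = z)
    (h : FinPres 0 2 1 ((fun z => q (Φ.symm z)) '' pantsC.Dom ∪ H '' Sq)
      (((fun z => q (Φ.symm z)) '' pantsC.FreeBd \ H '' SqO) ∪ H '' SqF)
      (fun z => q (Φ.symm z))) :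
    FinPres 0 2 1 (q '' pantsC.Dom ∪ H '' Sq) ((q '' pantsC.FreeBd \ H '' SqO) ∪ H '' SqF) q := by
  have h1 : (fun z => q (Φ.symm z)) '' pantsC.Dom = q '' pantsC.Dom := by
    conv_rhs => rw [← hD, image_image]
  have h2 : (fun z => q (Φ.symm z)) '' pantsC.FreeBd = q '' pantsC.FreeBd := by
    conv_rhs => rw [← hF, image_image]
  rw [h1, h2] at h
  obtain ⟨C, hC, hCF, hT, hP, hO, q', hq', hu, hB⟩ := h
  refine ⟨C, hC, hCF, hT, hP, hO, q', hq', fun z hz => ?_, hB⟩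
  rw [hu z hz]
  have h3 : Φ.symm z = z := by
    rw [Φ.symm_apply_eq]
    exact (hU z hz).symm
  simp only [h3]

private theorem lk_pres {c : ℝ} (hc : c = 1 / 4 ∨ c = -(1 / 4)) {Φ : ℂ → ℂ}
    (h1 : ∀ z, z ∉ ball (c : ℂ) (3 / 16) → Φ z = z) (h2 : ∀ z, ‖Φ z - c‖ = ‖z - c‖) :
    MapsTo Φ pantsC.Dom pantsC.Dom ∧ MapsTo Φ pantsC.FreeBd pantsC.FreeBd := by
  have hsq : ∀ z, ((Φ z).re - c) ^ 2 + (Φ z).im ^ 2 = (z.re - c) ^ 2 + z.im ^ 2 := by
    intro z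
    rw [← lk_nsq, ← lk_nsq, h2]
  have hb : ∀ z, z ∈ ball (c : ℂ) (3 / 16) → (z.re - c) ^ 2 + z.im ^ 2 < 9 / 256 := by
    intro z hz
    rw [mem_ball, dist_eq_norm, lk_lt _ _ (by norm_num)] at hz
    norm_num at hz
    exact hz
  constructor
  · intro z hz
    by_cases h : z ∈ ball (c : ℂ) (3 / 16)
    · have h3 := hb z h
      have h4 := hsq z
      rw [lk_dom] at hz ⊢
      have h5 : -(3 / 16) < (Φ z).re - c := by nlinarith [sq_nonneg (Φ z).im]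
      have h6 : (Φ z).re - c < 3 / 16 := by nlinarith [sq_nonneg (Φ z).im]
      have h7 : (Φ z).im ^ 2 < 9 / 256 := by nlinarith [sq_nonneg ((Φ z).re - c)]
      rcases hc with rfl | rfl
      · refine ⟨by nlinarith, by linarith [hz.2.1], by nlinarith [sq_nonneg (Φ z).im]⟩
      · refine ⟨by nlinarith, by nlinarith [sq_nonneg (Φ z).im], ?_⟩
        have h8 : ((Φ z).re - -(1 / 4)) ^ 2 = ((Φ z).re + 1 / 4) ^ 2 := by ring
        have h9 : (z.re - -(1 / 4)) ^ 2 = (z.re + 1 / 4) ^ 2 := by ring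
        rw [h8, h9] at h4
        linarith [hz.2.2]
    · rw [h1 z h]
      exact hz
  · intro z hz
    by_cases h : z ∈ ball (c : ℂ) (3 / 16)
    · have h3 := hb z h
      have h4 := hsq z
      rw [lk_free] at hz ⊢
      rcases hc with rfl | rfl
      · left
        rcases hz with hz | hz
        · rw [h4, hz]
        · exfalso
          nlinarith [sq_nonneg z.im]
      · right
        have h8 : ((Φ z).re - -(1 / 4)) ^ 2 = ((Φ z).re + 1 / 4) ^ 2 := by ring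
        have h9 : (z.re - -(1 / 4)) ^ 2 = (z.re + 1 / 4) ^ 2 := by ring
        rw [h8, h9] at h4
        rcases hz with hz | hz
        · exfalso
          rw [h9] at h3
          nlinarith [sq_nonneg z.im]
        · rw [h4, hz]
    · rw [h1 z h]
      exact hz

private theorem lk_pres' {c : ℝ} {Φ : ℂ ≃ₜ ℂ} (h1 : ∀ z, z ∉ ball (c : ℂ) (3 / 16) → Φ z = z)
    (h2 : ∀ z, ‖Φ z - c‖ = ‖z - c‖) : (∀ z, z ∉ ball (c : ℂ) (3 / 16) → Φ.symm z = z) ∧
    ∀ z, ‖Φ.symm z - c‖ = ‖z - c‖ := by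
  constructor
  · intro z hz
    rw [Φ.symm_apply_eq]
    exact (h1 z hz).symm
  · intro z
    rw [← h2, Φ.apply_symm_apply]

private theorem lk_UC {c : ℝ} (hc : c = 1 / 4 ∨ c = -(1 / 4)) {z : ℂ} (hz : z ∈ UC) :
    z ∉ ball (c : ℂ) (3 / 16) := by
  intro h
  rw [mem_sphere_zero_iff_norm] at hz
  rw [mem_ball, dist_eq_norm] at h
  have h1 : ‖z‖ ≤ ‖z - c‖ + |c| := by
    calc ‖z‖ = ‖(z - c) + c‖ := by rw [sub_add_cancel]
      _ ≤ ‖z - c‖ + ‖(c : ℂ)‖ := norm_add_le _ _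
      _ = ‖z - c‖ + |c| := by rw [Complex.norm_real, Real.norm_eq_abs]
  have h2 : |c| = 1 / 4 := by
    rcases hc with rfl | rfl
    · exact abs_of_pos (by norm_num)
    · rw [abs_neg]
      exact abs_of_pos (by norm_num)
  linarith

private theorem lk_far {c : ℝ} {w : ℂ} (hw : ‖w‖ = 1 / 16) (hc : c = 1 / 4 ∨ c = -(1 / 4)) :
    ((-c : ℝ) : ℂ) + w ∉ ball (c : ℂ) (3 / 16) := by
  intro h
  rw [mem_ball, dist_eq_norm] at h
  have h1 : ((2 * c : ℝ) : ℂ) = w - (((-c : ℝ) : ℂ) + w - (c : ℂ)) := by push_cast; ring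
  have h2 : |2 * c| ≤ ‖w‖ + ‖((-c : ℝ) : ℂ) + w - (c : ℂ)‖ := by
    rw [← Real.norm_eq_abs, ← Complex.norm_real, h1]
    exact norm_sub_le _ _
  have h3 : |2 * c| = 1 / 2 := by
    rcases hc with rfl | rfl
    · rw [abs_of_pos] <;> norm_num
    · rw [abs_of_neg] <;> norm_num
  linarith

/-- **LK.** -/
theorem thm_LK (hANG : St_ANG) (hBAND : St_BAND) (hINTD : St_INTD) (hPDS : St_PDS)
    (hBCN : St_BCN) (hLD : St_LD) (hSONE : St_SONE) : St_LK := by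
  intro X _ _ q H θ₁ θ₂ hqc hqi hHc hHi hmeet hθ₁c hθ₂c hθ₁m hθ₂m hH1 hH2
  have hpi := Real.pi_pos
  have hSq1 : ∀ x ∈ Icc (-1 : ℝ) 1, (x : ℂ) + Complex.I ∈ Sq := by
    intro x hx
    refine ⟨?_, ?_⟩
    · rw [show ((x : ℂ) + Complex.I).re = x by simp]
      exact abs_le.2 hx
    · simp
  have hSq2 : ∀ x ∈ Icc (-1 : ℝ) 1, (x : ℂ) - Complex.I ∈ Sq := by
    intro x hx
    refine ⟨?_, ?_⟩
    · rw [show ((x : ℂ) - Complex.I).re = x by simp]
      exact abs_le.2 hx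
    · simp
  have hinj1 : InjOn (fun x => cexpi (θ₁ x)) (Icc (-1) 1) := by
    intro x hx y hy h
    simp only at h
    have h1 : H (x + Complex.I) = H (y + Complex.I) := by rw [hH1 x hx, hH1 y hy, h]
    have h2 := hHi (hSq1 x hx) (hSq1 y hy) h1
    exact_mod_cast add_right_cancel h2
  have hinj2 : InjOn (fun x => cexpi (θ₂ x)) (Icc (-1) 1) := by
    intro x hx y hy h
    simp only at h
    have h1 : H (x - Complex.I) = H (y - Complex.I) := by rw [hH2 x hx, hH2 y hy, h]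
    have h2 := hHi (hSq2 x hx) (hSq2 y hy) h1
    have h3 : (x : ℂ) = y := by
      have := congrArg (fun z => z + Complex.I) h2
      simpa using this
    exact_mod_cast h3
  have hsin : ∀ x ∈ Icc (-1 : ℝ) 1, ∀ y ∈ Icc (-1 : ℝ) 1,
      Real.sin (Real.pi * x / 4) = Real.sin (Real.pi * y / 4) → x = y := by
    intro x hx y hy h
    have h1 := Real.injOn_sin (by constructor <;> nlinarith [hx.1, hx.2])
      (by constructor <;> nlinarith [hy.1, hy.2]) h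
    have h2 : Real.pi * x = Real.pi * y := by linarith
    exact mul_left_cancel₀ hpi.ne' h2
  have hpc : ∀ s : ℝ, cexpi (Real.pi + s) = -cexpi s := by
    intro s
    unfold cexpi
    push_cast
    rw [add_mul, Complex.exp_add, Complex.exp_pi_mul_I]
    ring
  have hα1 : InjOn (fun x : ℝ => cexpi (Real.pi * x / 4)) (Icc (-1) 1) := by
    intro x hx y hy h
    simp only at h
    apply hsin x hx y hy
    rw [← lk_cim, ← lk_cim, h]
  have hα2 : InjOn (fun x : ℝ => cexpi (Real.pi + Real.pi * x / 4)) (Icc (-1) 1) := by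
    intro x hx y hy h
    simp only [hpc] at h
    apply hsin x hx y hy
    rw [← lk_cim, ← lk_cim, neg_injective h]
  have hmono1 : StrictMonoOn (fun x : ℝ => Real.pi * x / 4) (Icc (-1) 1) := by
    intro x _ y _ h
    simp only
    have := mul_lt_mul_of_pos_left h hpi
    linarith
  have hmono2 : StrictMonoOn (fun x : ℝ => Real.pi + Real.pi * x / 4) (Icc (-1) 1) := by
    intro x _ y _ h
    simp only
    have := mul_lt_mul_of_pos_left h hpi
    linarith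
  obtain ⟨Φ₁, hΦ₁1, hΦ₁2, hΦ₁3⟩ := hANG.1 ((1 / 4 : ℝ) : ℂ) (1 / 16) (3 / 16) (by norm_num)
    (by norm_num) θ₁ (fun x => Real.pi * x / 4) hθ₁c (Continuous.continuousOn (by fun_prop))
    (Or.inl ⟨hθ₁m, hmono1⟩) hinj1 hα1
  obtain ⟨Φ₂, hΦ₂1, hΦ₂2, hΦ₂3⟩ := hANG.1 ((-(1 / 4) : ℝ) : ℂ) (1 / 16) (3 / 16) (by norm_num)
    (by norm_num) θ₂ (fun x => Real.pi + Real.pi * x / 4) hθ₂c
    (Continuous.continuousOn (by fun_prop)) (Or.inl ⟨hθ₂m, hmono2⟩) hinj2 hα2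
  have hc1 : (1 / 4 : ℝ) = 1 / 4 ∨ (1 / 4 : ℝ) = -(1 / 4) := Or.inl rfl
  have hc2 : (-(1 / 4) : ℝ) = 1 / 4 ∨ (-(1 / 4) : ℝ) = -(1 / 4) := Or.inr rfl
  obtain ⟨hD1, hF1⟩ := lk_pres hc1 hΦ₁1 hΦ₁2
  obtain ⟨hD2, hF2⟩ := lk_pres hc2 hΦ₂1 hΦ₂2
  obtain ⟨hΦ₁1', hΦ₁2'⟩ := lk_pres' hΦ₁1 hΦ₁2
  obtain ⟨hΦ₂1', hΦ₂2'⟩ := lk_pres' hΦ₂1 hΦ₂2
  obtain ⟨hD1', hF1'⟩ := lk_pres hc1 hΦ₁1' hΦ₁2'
  obtain ⟨hD2', hF2'⟩ := lk_pres hc2 hΦ₂1' hΦ₂2'
  have hDD1 := lk_symm hD1 hD1'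
  have hDD2 := lk_symm hD2 hD2'
  refine lk_move Φ₁ hDD1 (lk_symm hF1 hF1') (fun z hz => hΦ₁1 z (lk_UC hc1 hz)) ?_
  refine lk_move (q := fun z => q (Φ₁.symm z)) Φ₂ hDD2 (lk_symm hF2 hF2')
    (fun z hz => hΦ₂1 z (lk_UC hc2 hz)) ?_
  have hn : ∀ s : ℝ, ‖((1 / 16 : ℝ) : ℂ) * cexpi s‖ = 1 / 16 := by
    intro s
    rw [norm_mul, Complex.norm_real, cexpi, Complex.norm_exp_ofReal_mul_I,
      Real.norm_of_nonneg (by norm_num), mul_one]
  have hPe : ∀ x : ℝ, lk_P x = ((1 / 4 : ℝ) : ℂ) + ((1 / 16 : ℝ) : ℂ) * cexpi (Real.pi * x / 4) := by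
    intro x
    unfold lk_P
    push_cast
    ring
  refine lk_main hBAND hINTD hPDS hBCN hLD hSONE ?_ ?_ hHc hHi ?_ ?_ ?_
  · exact hqc.comp (Φ₁.symm.continuous.comp Φ₂.symm.continuous).continuousOn
      (fun z hz => hD1' (hD2' hz))
  · intro z hz w hw h
    exact Φ₂.symm.injective (Φ₁.symm.injective (hqi (hD1' (hD2' hz)) (hD1' (hD2' hw)) h))
  · have h1 : (fun z => q (Φ₁.symm (Φ₂.symm z))) '' pantsC.Dom = q '' pantsC.Dom := by
      conv_rhs => rw [← hDD1, ← hDD2, image_image, image_image]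
    change H '' Sq ∩ (fun z => q (Φ₁.symm (Φ₂.symm z))) '' pantsC.Dom = _
    rw [h1, hmeet]
  · intro x hx
    have h1 : Φ₂.symm (lk_P x) = lk_P x := by
      apply hΦ₂1'
      have := lk_far (c := -(1 / 4)) (hn (Real.pi * x / 4)) hc2
      rw [neg_neg] at this
      rw [hPe]
      exact this
    have h2 : Φ₁.symm (lk_P x) = 1 / 4 + 1 / 16 * cexpi (θ₁ x) := by
      rw [Φ₁.symm_apply_eq, hPe]
      have h3 := hΦ₁3 x hx
      rw [← h3]
      congr 1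
      push_cast
      ring
    rw [h1, h2, hH1 x hx]
  · intro x hx
    have h1 : Φ₂.symm (-lk_P x) = -(1 / 4) + 1 / 16 * cexpi (θ₂ x) := by
      rw [Φ₂.symm_apply_eq]
      have h3 := hΦ₂3 x hx
      rw [hpc] at h3
      have h4 : -lk_P x = ((-(1 / 4) : ℝ) : ℂ) +
          ((1 / 16 : ℝ) : ℂ) * -cexpi (Real.pi * x / 4) := by
        rw [hPe]
        push_cast
        ring
      rw [h4, ← h3]
      congr 1
      push_cast
      ring
    have h2 : Φ₁.symm (-(1 / 4) + 1 / 16 * cexpi (θ₂ x)) = -(1 / 4) + 1 / 16 * cexpi (θ₂ x) := by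
      apply hΦ₁1'
      have h5 := lk_far (c := 1 / 4) (hn (θ₂ x)) hc1
      have h6 : (-(1 / 4) + 1 / 16 * cexpi (θ₂ x) : ℂ) =
          ((-(1 / 4) : ℝ) : ℂ) + ((1 / 16 : ℝ) : ℂ) * cexpi (θ₂ x) := by
        push_cast
        ring
      rw [h6]
      exact h5
    rw [h1, h2, hH2 x hx]

end Pool.Agent.SRP
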