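import Pool.Agent.SRP.AsmQ
import Pool.Agent.SRP.LH
import Pool.Agent.SRP.LK

set_option autoImplicit false

/-! # SRP, Parts III and IV: everything relative to Part V only -/

namespace Pool.Agent.SRP

theorem sLH : St_LH := thm_LH sCFIN sANG sINTD sUNI sMEX sHOLE
theorem sLK : St_LK := thm_LK sANG sBAND sINTD sPDS sBCN sLD sSONE
theorem sEXI : St_EXI := exi_of sLH sLK
theorem sNRM : St_NRM := nrm_of sLK

theorem conn_of_partv (h : St_PARTV) : Pool.Agent.SRF.St_CONN := con_of sLH sLK h

end Pool.Agent.SRP
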