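import Pool.Agent.SRF.Defs

set_option autoImplicit false

/-! # SRF, Parts III and IV: presentations of surfaces by planar domains. Definitions.

A `Conf` is a closed set `F` of real numbers (the ends) and a set `I` of real centres of closed discs
`closedBall i (rad i)` (pairwise disjoint, disjoint from `F`, inside the unit disc, accumulating only
at `F`) with labels `T` (handle: two holes exchanged by a reflection), `P` (crosscap: one hole with
antipodal identification), `O` (free hole).  `Dom C` is the closed unit disc minus the ends and the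
(open) holes, `Rel C` is the identification, `Pres C L q` says that `q` presents the space `L` as the
quotient `Dom C / Rel C`. -/

namespace Pool.Agent.SRP

open Set Metric Topology Pool.Agent.SRF

/-- Labels: handle, crosscap, free hole. -/
inductive Lab
  | T
  | P
  | O

/-- Configurations. -/
structure Conf where
  F : Set ℝ
  I : Set ℝ
  rad : ℝ → ℝ
  lab : ℝ → Lab

namespace Conf

/-- The conditions on a configuration. -/
structure Ok (C : Conf) : Prop where
  closed : IsClosed C.F
  compact : IsCompact (C.F ∪ C.I)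
  td : IsTotallyDisconnected C.F
  small : ∀ x ∈ C.F, |x| < 1
  pos : ∀ i ∈ C.I, 0 < C.rad i
  inside : ∀ i ∈ C.I, |i| + C.rad i < 1
  away : ∀ i ∈ C.I, ∀ x ∈ C.F, C.rad i < |x - i|
  apart : ∀ i ∈ C.I, ∀ j ∈ C.I, i ≠ j → C.rad i + C.rad j < |i - j|

variable (C : Conf)

/-- The open holes belonging to the centre `i`.  A handle `T` has the two holes of radius
`rad i / 8` about `i - rad i / 2` and `i + rad i / 2`, the others have one hole of radius
`rad i / 2`. -/
def holes (i : ℝ) : Set ℂ :=
  match C.lab i with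
  | Lab.T => ball ((i - C.rad i / 2 : ℝ) : ℂ) (C.rad i / 8) ∪
      ball ((i + C.rad i / 2 : ℝ) : ℂ) (C.rad i / 8)
  | Lab.P => ball ((i : ℝ) : ℂ) (C.rad i / 2)
  | Lab.O => ball ((i : ℝ) : ℂ) (C.rad i / 2)

/-- The closed unit disc without the ends and the holes. -/
def Dom : Set ℂ :=
  closedBall 0 1 \ ((fun x : ℝ => (x : ℂ)) '' C.F ∪ ⋃ i ∈ C.I, C.holes i)

/-- The identifications: at a handle the two circles are exchanged by the reflection in the vertical
line through the centre, at a crosscap opposite points are identified. -/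
def Rel (x y : ℂ) : Prop :=
  x = y ∨ ∃ i ∈ C.I,
    (C.lab i = Lab.T ∧ (x ∈ sphere ((i - C.rad i / 2 : ℝ) : ℂ) (C.rad i / 8) ∨
      x ∈ sphere ((i + C.rad i / 2 : ℝ) : ℂ) (C.rad i / 8)) ∧
      y = 2 * (i : ℂ) - (starRingEnd ℂ) x) ∨
    (C.lab i = Lab.P ∧ x ∈ sphere (i : ℂ) (C.rad i / 2) ∧ y = 2 * (i : ℂ) - x)

/-- The circles of the free holes. -/
def FreeBd : Set ℂ := ⋃ i ∈ {i ∈ C.I | C.lab i = Lab.O}, sphere ((i : ℝ) : ℂ) (C.rad i / 2)

/-- The number of centres with label `l` (for finite configurations). -/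
noncomputable def cnt (l : Lab) : ℕ := {i ∈ C.I | C.lab i = l}.ncard

/-- The configuration inside `closedBall c s`, rescaled to the unit disc. -/
noncomputable def slot (c s : ℝ) : Conf where
  F := ∅
  I := {x | c + s * x ∈ C.I ∧ |x| ≤ 1}
  rad := fun x => C.rad (c + s * x) / s
  lab := fun x => C.lab (c + s * x)

/-- `closedBall c s` is admissible: inside the unit disc, disjoint from the ends, and every ball of
the configuration lies in it or is disjoint from it. -/
structure Slot (c s : ℝ) : Prop where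
  pos : 0 < s
  inside : |c| + s < 1
  away : ∀ x ∈ C.F, s < |x - c|
  ball : ∀ i ∈ C.I, |i - c| + C.rad i ≤ s ∨ s + C.rad i < |i - c|

open Classical in
/-- One more centre. -/
noncomputable def add (c r : ℝ) (l : Lab) : Conf where
  F := C.F
  I := insert c C.I
  rad := fun x => if x = c then r else C.rad x
  lab := fun x => if x = c then l else C.lab x

end Conf

/-- The configuration with one centre `0`. -/
def single (r : ℝ) (l : Lab) : Conf where
  F := ∅
  I := {0}
  rad := fun _ => r
  lab := fun _ => l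

/-- The configuration with two free holes, of radius `1/16`, about `-1/4` and `1/4`.  Its domain is
the domain of `single (1/2) Lab.T`. -/
noncomputable def pantsC : Conf where
  F := ∅
  I := {-(1 / 4), 1 / 4}
  rad := fun _ => 1 / 8
  lab := fun _ => Lab.O

section

variable {X : Type} [TopologicalSpace X]

/-- `q` presents `L` as the quotient of `Ω` by `R`. -/
structure PresOn (Ω : Set ℂ) (R : ℂ → ℂ → Prop) (L : Set X) (q : ℂ → X) : Prop where
  cont : ContinuousOn q Ω
  image : q '' Ω = L
  rel : ∀ x ∈ Ω, ∀ y ∈ Ω, (q x = q y ↔ R x y)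
  proper : ∀ A ⊆ L, IsCompact A → ∃ B ⊆ Ω, IsCompact B ∧ ∀ x ∈ Ω, q x ∈ A → x ∈ B

/-- `q` presents the subset `L` of `X` by the configuration `C`. -/
def Pres (C : Conf) (L : Set X) (q : ℂ → X) : Prop := PresOn C.Dom C.Rel L q

/-- `L` is a compact piece with incoming circle parametrised by `u` and free boundary `Bd`, with
`t` handles, `p` crosscaps and `o` free holes. -/
def FinPres (t p o : ℕ) (L Bd : Set X) (u : ℂ → X) : Prop :=
  ∃ C : Conf, C.Ok ∧ C.F = ∅ ∧ C.cnt Lab.T = t ∧ C.cnt Lab.P = p ∧ C.cnt Lab.O = o ∧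
    ∃ q : ℂ → X, Pres C L q ∧ (∀ z ∈ UC, q z = u z) ∧ Bd = q '' C.FreeBd

/-- The closed disc `e '' CD` is attached to the piece `L` with free boundary `Bd` along `e '' S`
(`S` as in `AttSet`). -/
structure AttTo (L Bd : Set X) (e : ℂ → X) (S : Set ℂ) : Prop where
  cont : ContinuousOn e CD
  inj : InjOn e CD
  meet : e '' CD ∩ L = e '' S
  bd : e '' S ⊆ Bd

/-- `X` is modelled on `C`: a closed disc in a chart and the rest presented by `C`. -/
def IsModel (X : Type) [TopologicalSpace X] (C : Conf) : Prop :=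
  ∃ e : ℂ → X, IsOpenEmbedding e ∧ ∃ q : ℂ → X, Pres C (e '' OD)ᶜ q ∧ ∀ z ∈ UC, q z = e z

end

/-- Closed discs in the plane. -/
def IsDisc (E : Set ℂ) : Prop := ∃ f : ℂ → ℂ, ContinuousOn f CD ∧ InjOn f CD ∧ f '' CD = E

/-- The square, its two attaching sides (top and bottom), the same without the corners, and its two
free sides (left and right). -/
def Sq : Set ℂ := {z | |z.re| ≤ 1 ∧ |z.im| ≤ 1}
def SqI : Set ℂ := {z | |z.re| < 1 ∧ |z.im| < 1}
def SqA : Set ℂ := {z | |z.re| ≤ 1 ∧ |z.im| = 1}
def SqO : Set ℂ := {z | |z.re| < 1 ∧ |z.im| = 1}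
def SqF : Set ℂ := {z | |z.re| = 1 ∧ |z.im| ≤ 1}

/-- The standard annulus, the domain of `single (1/2) Lab.O` and `single (1/2) Lab.P`. -/
def Ann : Set ℂ := {z | 1 / 4 ≤ ‖z‖ ∧ ‖z‖ ≤ 1}

/-- `W` is an annulus with outer boundary parametrised by `u` and inner boundary `Bd`. -/
def IsAnn {X : Type} [TopologicalSpace X] (W Bd : Set X) (u : ℂ → X) : Prop :=
  ∃ q : ℂ → X, ContinuousOn q Ann ∧ InjOn q Ann ∧ q '' Ann = W ∧ q '' sphere 0 (1 / 4) = Bd ∧
    ∀ z ∈ UC, q z = u z

/-- Two presentations by different (compact) configurations present the same spaces. -/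
def Eqv (C C' : Conf) : Prop := ∀ (X : Type) [TopologicalSpace X] [T2Space X] (L : Set X)
  (q : ℂ → X), Pres C L q → ∃ q' : ℂ → X, Pres C' L q' ∧ ∀ z ∈ UC, q' z = q z

end Pool.Agent.SRP
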