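import Pool.Agent.SRP.AsmR
import Pool.Agent.SRF.V.PartV
import Pool.Agent.SRF.UEX

set_option autoImplicit false

/-! # SRF, final assembly: surfaces with homeomorphic products with the circle are homeomorphic -/

namespace Pool.Agent.SRF

/-- Connected surfaces `X`, `Y` with `X × Circle ≃ₜ Y × Circle` are homeomorphic. -/
theorem sCONN : St_CONN := Pool.Agent.SRP.conn_of_partv Pool.Agent.SRF.V.thm_PARTV

/-- The same for all surfaces. -/
theorem sTOP : St_TOP := thm_CMP sCONN

/-- The Borel reduction. -/
theorem sFIN6 : St_FIN6 := fin6_of_conn sCONN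

end Pool.Agent.SRF
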