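import Pool.Agent.SRP.StC

/-! # SRP/MEX (helper89): every finite configuration presents a compact Hausdorff space -/

set_option autoImplicit false

open Set Metric Filter Topology Pool.Agent.SRF

namespace Pool.Agent.SRP

/-- the quotient of a compact Hausdorff space by a closed equivalence relation is Hausdorff -/
private theorem mex_t2 {Y : Type} [TopologicalSpace Y] [T2Space Y] [CompactSpace Y] (s : Setoid Y)
    (hs : IsClosed {p : Y × Y | s p.1 p.2}) : T2Space (Quotient s) := by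
  have hq : IsQuotientMap (Quotient.mk s) := isQuotientMap_quotient_mk'
  have hcl : ∀ A : Set Y, IsClosed A → IsClosed (Quotient.mk s '' A) := by
    intro A hA
    rw [← hq.isClosed_preimage]
    have h1 : Quotient.mk s ⁻¹' (Quotient.mk s '' A) =
        Prod.snd '' ({p : Y × Y | s p.1 p.2} ∩ A ×ˢ univ) := by
      ext y
      constructor
      · rintro ⟨x, hx, hxy⟩
        exact ⟨(x, y), ⟨Quotient.exact hxy, hx, mem_univ _⟩, rfl⟩
      · rintro ⟨⟨x, y'⟩, ⟨h2, h3, -⟩, rfl⟩
        exact ⟨x, h3, Quotient.sound h2⟩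
    rw [h1]
    exact ((hs.inter (hA.prod isClosed_univ)).isCompact.image continuous_snd).isClosed
  have hpt : ∀ a : Quotient s, IsClosed (Quotient.mk s ⁻¹' {a}) := by
    intro a
    obtain ⟨x, rfl⟩ := Quotient.exists_rep a
    have h1 := hcl {x} isClosed_singleton
    rw [image_singleton] at h1
    exact h1.preimage hq.continuous
  refine ⟨fun a b hab => ?_⟩
  obtain ⟨U, V, hU, hV, haU, hbV, hUV⟩ := normal_separation (hpt a) (hpt b) (by
    rw [disjoint_left]
    intro x hx hx'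
    exact hab (hx.symm.trans hx'))
  refine ⟨(Quotient.mk s '' Uᶜ)ᶜ, (Quotient.mk s '' Vᶜ)ᶜ, (hcl _ hU.isClosed_compl).isOpen_compl,
    (hcl _ hV.isClosed_compl).isOpen_compl, ?_, ?_, ?_⟩
  · rintro ⟨x, hx, hxa⟩
    exact hx (haU hxa)
  · rintro ⟨x, hx, hxb⟩
    exact hx (hbV hxb)
  · rw [disjoint_left]
    intro m h1 h2
    obtain ⟨x, rfl⟩ := Quotient.exists_rep m
    have h3 : x ∈ U := by
      by_contra h
      exact h1 ⟨x, h, rfl⟩
    have h4 : x ∈ V := by
      by_contra h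
      exact h2 ⟨x, h, rfl⟩
    exact (disjoint_left.1 hUV) h3 h4

private theorem mex_closed {C : Conf} (hI : C.I.Finite) : IsClosed {p : ℂ × ℂ | C.Rel p.1 p.2} := by
  have h : {p : ℂ × ℂ | C.Rel p.1 p.2} = {p : ℂ × ℂ | p.1 = p.2} ∪ ⋃ i ∈ C.I,
      ({p : ℂ × ℂ | C.lab i = Lab.T ∧ (p.1 ∈ sphere ((i - C.rad i / 2 : ℝ) : ℂ) (C.rad i / 8) ∨
        p.1 ∈ sphere ((i + C.rad i / 2 : ℝ) : ℂ) (C.rad i / 8)) ∧
        p.2 = 2 * (i : ℂ) - (starRingEnd ℂ) p.1} ∪
      {p : ℂ × ℂ | C.lab i = Lab.P ∧ p.1 ∈ sphere (i : ℂ) (C.rad i / 2) ∧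
        p.2 = 2 * (i : ℂ) - p.1}) := by
    ext p
    simp only [Conf.Rel, mem_ofPred_eq, mem_union, mem_iUnion, exists_prop]
  rw [h]
  refine (isClosed_eq continuous_fst continuous_snd).union (hI.isClosed_biUnion fun i _ => ?_)
  refine IsClosed.union ?_ ?_
  · by_cases hT : C.lab i = Lab.T
    · simp only [hT, true_and]
      have h1 : {p : ℂ × ℂ | (p.1 ∈ sphere ((i - C.rad i / 2 : ℝ) : ℂ) (C.rad i / 8) ∨
        p.1 ∈ sphere ((i + C.rad i / 2 : ℝ) : ℂ) (C.rad i / 8)) ∧
        p.2 = 2 * (i : ℂ) - (starRingEnd ℂ) p.1} =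
        (Prod.fst ⁻¹' sphere ((i - C.rad i / 2 : ℝ) : ℂ) (C.rad i / 8) ∪
        Prod.fst ⁻¹' sphere ((i + C.rad i / 2 : ℝ) : ℂ) (C.rad i / 8)) ∩
        {p : ℂ × ℂ | p.2 = 2 * (i : ℂ) - (starRingEnd ℂ) p.1} := rfl
      rw [h1]
      refine ((isClosed_sphere.preimage continuous_fst).union
        (isClosed_sphere.preimage continuous_fst)).inter (isClosed_eq continuous_snd ?_)
      exact continuous_const.sub (Complex.continuous_conj.comp continuous_fst)
    · simp only [hT, false_and]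
      exact isClosed_empty
  · by_cases hP : C.lab i = Lab.P
    · simp only [hP, true_and]
      have h1 : {p : ℂ × ℂ | p.1 ∈ sphere (i : ℂ) (C.rad i / 2) ∧ p.2 = 2 * (i : ℂ) - p.1} =
        Prod.fst ⁻¹' sphere (i : ℂ) (C.rad i / 2) ∩ {p : ℂ × ℂ | p.2 = 2 * (i : ℂ) - p.1} := rfl
      rw [h1]
      exact (isClosed_sphere.preimage continuous_fst).inter (isClosed_eq continuous_snd
        (continuous_const.sub continuous_fst))
    · simp only [hP, false_and]
      exact isClosed_empty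

open Classical in
/-- **MEX.** -/
theorem thm_MEX (hCFIN : St_CFIN) : St_MEX := by
  intro C hC hF
  obtain ⟨-, -, -, h4, h5, -, -, h8⟩ := hCFIN C hC
  obtain ⟨hI, hcomp⟩ := h4 hF
  let s : Setoid C.Dom :=
    { r := fun x y => C.Rel x y
      iseqv := ⟨fun x => h8.refl _, fun h => h8.symm h, fun h h' => h8.trans h h'⟩ }
  have : CompactSpace C.Dom := isCompact_iff_compactSpace.1 hcomp
  have hs : IsClosed {p : C.Dom × C.Dom | s p.1 p.2} :=
    (mex_closed hI).preimage ((continuous_subtype_val.comp continuous_fst).prodMk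
      (continuous_subtype_val.comp continuous_snd))
  have h1 : (1 : ℂ) ∈ C.Dom := h5 (by simp)
  refine ⟨Quotient s, inferInstance, mex_t2 s hs, inferInstance,
    fun z => if h : z ∈ C.Dom then Quotient.mk s ⟨z, h⟩ else Quotient.mk s ⟨1, h1⟩, ?_, ?_, ?_, ?_⟩
  · rw [continuousOn_iff_continuous_domRestrict]
    have h2 : C.Dom.domRestrict (fun z => if h : z ∈ C.Dom then Quotient.mk s ⟨z, h⟩ else
        Quotient.mk s ⟨1, h1⟩) = Quotient.mk s := by
      funext z
      rw [domRestrict_apply, dif_pos z.2]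
    rw [h2]
    exact continuous_quotient_mk'
  · rw [eq_univ_iff_forall]
    intro m
    obtain ⟨x, rfl⟩ := Quotient.exists_rep m
    exact ⟨x, x.2, dif_pos x.2⟩
  · intro x hx y hy
    rw [dif_pos hx, dif_pos hy]
    exact ⟨fun h => Quotient.exact h, fun h => Quotient.sound (s := s) h⟩
  · intro A _ _
    exact ⟨C.Dom, Subset.rfl, hcomp, fun x hx _ => hx⟩

end Pool.Agent.SRP
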