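import Pool.Agent.SRP.StD

/-! # SRP/SUB (helper22): substitution in slots -/

set_option autoImplicit false

open Set Metric Filter Topology Pool.Agent.SRF

namespace Pool.Agent.SRP

/-- the slots as a configuration -/
private def sub_conf (C : Conf) (J : Set ℝ) (s : ℝ → ℝ) : Conf where
  F := C.F
  I := J
  rad := s
  lab := fun _ => Lab.O

private theorem sub_ok {C : Conf} (hC : C.Ok) {J : Set ℝ} {s : ℝ → ℝ} (hJ : IsCompact (C.F ∪ J))
    (hs : ∀ j ∈ J, C.Slot j (s j)) (hd : ∀ j ∈ J, ∀ k ∈ J, j ≠ k → s j + s k < |j - k|) :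
    (sub_conf C J s).Ok where
  closed := hC.closed
  compact := hJ
  td := hC.td
  small := hC.small
  pos := fun j hj => (hs j hj).pos
  inside := fun j hj => (hs j hj).inside
  away := fun j hj x hx => (hs j hj).away x hx
  apart := hd

/-- a compact subset of the domain meets only finitely many slots -/
private theorem sub_fin (hCF : St_CFIN) {C : Conf} (hC : C.Ok) {J : Set ℝ} {s : ℝ → ℝ} (hJ : IsCompact (C.F ∪ J))
    (hs : ∀ j ∈ J, C.Slot j (s j)) (hd : ∀ j ∈ J, ∀ k ∈ J, j ≠ k → s j + s k < |j - k|)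
    {B : Set ℂ} (hB : IsCompact B) (hBD : B ⊆ C.Dom) :
    {j ∈ J | (B ∩ closedBall (j : ℂ) (s j)).Nonempty}.Finite := by
  have h := hCF _ (sub_ok hC hJ hs hd)
  -- the distance between `B` and the ends
  have hFc : IsCompact ((fun x : ℝ => (x : ℂ)) '' C.F) := by
    have h1 : IsCompact C.F := by
      refine IsCompact.of_isClosed_subset hJ hC.closed subset_union_left
    exact h1.image Complex.continuous_ofReal
  have hdis : Disjoint B ((fun x : ℝ => (x : ℂ)) '' C.F) := by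
    rw [disjoint_left]
    intro b hb hb'
    exact (hBD hb).2 (Or.inl hb')
  obtain ⟨ε, hε, hsep⟩ : ∃ ε : ℝ, 0 < ε ∧ ∀ b ∈ B, ∀ x ∈ C.F, ε ≤ ‖b - (x : ℂ)‖ := by
    rcases B.eq_empty_or_nonempty with hBe | hBn
    · exact ⟨1, one_pos, by simp [hBe]⟩
    rcases C.F.eq_empty_or_nonempty with hFe | hFn
    · exact ⟨1, one_pos, by simp [hFe]⟩
    obtain ⟨ε, hε, h2⟩ := Metric.exists_pos_forall_lt_edist hB hFc.isClosed hdis
    refine ⟨ε, by exact_mod_cast hε, fun b hb x hx => ?_⟩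
    have h3 := h2 b hb (x : ℂ) ⟨x, hx, rfl⟩
    rw [edist_dist, dist_eq_norm] at h3
    have h4 : (ε : ℝ) < ‖b - (x : ℂ)‖ := by
      rw [ENNReal.lt_ofReal_iff_toReal_lt ENNReal.coe_ne_top] at h3
      simpa using h3
    exact h4.le
  have hK : IsClosed {t : ℝ | ∀ x ∈ C.F, ε / 2 ≤ |t - x|} := by
    simp only [setOf_forall]
    refine isClosed_biInter fun x _ => ?_
    exact isClosed_le continuous_const (by fun_prop)
  have hKF : Disjoint {t : ℝ | ∀ x ∈ C.F, ε / 2 ≤ |t - x|} (sub_conf C J s).F := by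
    rw [disjoint_left]
    intro t ht htF
    have := ht t htF
    rw [sub_self, abs_zero] at this
    linarith
  have f1 := h.2.1 _ hK hKF
  have f2 := h.2.2.1 (ε / 2) (by linarith)
  refine (f1.union f2).subset ?_
  rintro j ⟨hj, b, hbB, hbj⟩
  by_cases hsj : ε / 2 ≤ s j
  · right; exact ⟨hj, hsj⟩
  · left
    refine ⟨fun x hx => ?_, hj⟩
    have h3 := hsep b hbB x hx
    rw [mem_closedBall, dist_eq_norm] at hbj
    have h4 : ‖b - (x : ℂ)‖ ≤ ‖b - (j : ℂ)‖ + |j - x| := by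
      have e : b - (x : ℂ) = (b - (j : ℂ)) + ((j - x : ℝ) : ℂ) := by push_cast; ring
      rw [e]
      refine (norm_add_le _ _).trans ?_
      rw [Complex.norm_real, Real.norm_eq_abs]
    push Not at hsj
    linarith

/-- **SUB.** -/
theorem thm_SUB (hCF : St_CFIN) (hCUT : St_CUT) (hPASTE : St_PASTE) : St_SUB := by
  intro X _ _ C C' hC hC' hF J s hJ hslot hd hag hEqv L q hL hq
  have hs : ∀ j ∈ J, C.Slot j (s j) := fun j hj => (hslot j hj).1
  have hcut := fun j (hj : j ∈ J) => hCUT X C hC L q hq j (s j) (hs j hj)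
  have hex : ∀ j : ℝ, ∃ q' : ℂ → X, j ∈ J → Pres (C'.slot j (s j)) (q '' (C.Dom ∩ closedBall (j : ℂ) (s j))) q' ∧
      ∀ z ∈ UC, q' z = q (j + s j * z) := by
    intro j
    by_cases hj : j ∈ J
    · obtain ⟨q', h1, h2⟩ := hEqv j hj X _ _ (hcut j hj).1
      exact ⟨q', fun _ => ⟨h1, h2⟩⟩
    · exact ⟨q, fun h => absurd h hj⟩
  choose q' hq' using hex
  have hcf := hCF C hC
  -- points of different slots
  have hdisj : ∀ j ∈ J, ∀ k ∈ J, j ≠ k →
      Disjoint (q '' (C.Dom ∩ closedBall (j : ℂ) (s j))) (q '' (C.Dom ∩ closedBall (k : ℂ) (s k))) := by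
    intro j hj k hk hjk
    rw [disjoint_left]
    rintro _ ⟨x, ⟨hxD, hxj⟩, rfl⟩ ⟨y, ⟨hyD, hyk⟩, hxy⟩
    have hrel := (hq.rel y hyD x hxD).1 hxy
    rw [mem_closedBall, dist_eq_norm] at hxj hyk
    have hjk' := hd j hj k hk hjk
    have tri : ∀ (a b : ℝ) (z : ℂ), |a - b| ≤ ‖z - (a : ℂ)‖ + ‖z - (b : ℂ)‖ := by
      intro a b z
      have e : ((a - b : ℝ) : ℂ) = (z - (b : ℂ)) - (z - (a : ℂ)) := by push_cast; ring
      have h5 : |a - b| = ‖((a - b : ℝ) : ℂ)‖ := by rw [Complex.norm_real, Real.norm_eq_abs]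
      rw [h5, e]
      linarith [norm_sub_le (z - (b : ℂ)) (z - (a : ℂ))]
    rcases hcf.2.2.2.2.2.2.1 y x hrel with h | ⟨i, hi, hyi, hxi⟩
    · rw [h] at hyk
      linarith [tri j k x]
    · rw [mem_closedBall, dist_eq_norm] at hyi hxi
      have hpos := hC.pos i hi
      have a1 : |i - j| + C.rad i ≤ s j := by
        rcases (hs j hj).ball i hi with h | h
        · exact h
        · linarith [tri i j x]
      have a2 : |i - k| + C.rad i ≤ s k := by
        rcases (hs k hk).ball i hi with h | h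
        · exact h
        · linarith [tri i k y]
      have a3 : |j - k| ≤ |i - j| + |i - k| := by
        rw [abs_sub_comm i j]
        exact abs_sub_le j i k
      linarith
  obtain ⟨Q, hQ, hQ1, -⟩ := hPASTE X C C' hC hC' hF J s hJ hslot hd hag L q hL hq
    (fun j => q '' (C.Dom ∩ closedBall (j : ℂ) (s j))) q' (fun j hj => (hq' j hj).1) (fun j hj => (hq' j hj).2)
    (by
      intro j hj
      rw [← (hcut j hj).2.1]
      refine inter_subset_inter_right _ (image_mono ?_)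
      exact diff_subset_diff_right (subset_biUnion_of_mem (u := fun k : ℝ => ball (k : ℂ) (s k)) hj))
    hdisj
    (by
      intro A hA
      have hAL : IsCompact (A ∩ L) := hA.inter_right hL
      obtain ⟨B, hBD, hBc, hB⟩ := hq.proper (A ∩ L) inter_subset_right hAL
      refine (sub_fin hCF hC hJ hs hd hBc hBD).subset ?_
      rintro j ⟨hj, _, ⟨x, ⟨hxD, hxj⟩, rfl⟩, hxA⟩
      refine ⟨hj, x, hB x hxD ⟨hxA, ?_⟩, hxj⟩
      rw [← hq.image]
      exact mem_image_of_mem q hxD)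
  have hLeq : q '' (C.Dom \ ⋃ k ∈ J, ball (k : ℂ) (s k)) ∪ ⋃ j ∈ J, q '' (C.Dom ∩ closedBall (j : ℂ) (s j)) = L := by
    apply Subset.antisymm
    · rw [← hq.image]
      refine union_subset (image_mono diff_subset) (iUnion₂_subset fun j _ => image_mono inter_subset_left)
    · rw [← hq.image]
      rintro _ ⟨x, hx, rfl⟩
      by_cases h : x ∈ ⋃ k ∈ J, ball (k : ℂ) (s k)
      · right
        simp only [mem_iUnion] at h ⊢
        obtain ⟨k, hk, hxk⟩ := h
        exact ⟨k, hk, x, ⟨hx, ball_subset_closedBall hxk⟩, rfl⟩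
      · left
        exact ⟨x, ⟨hx, h⟩, rfl⟩
  rw [hLeq] at hQ
  refine ⟨Q, hQ, fun z hz => ?_⟩
  refine hQ1 z (hcf.2.2.2.2.1 hz) fun j hj hzj => ?_
  have h1 := (hs j hj).inside
  have h2 : ‖z‖ = 1 := by simpa [UC] using hz
  rw [mem_ball, dist_eq_norm] at hzj
  have h3 : ‖z‖ ≤ ‖z - (j : ℂ)‖ + |j| := by
    have e : z = (z - (j : ℂ)) + (j : ℂ) := by ring
    have h4 := norm_add_le (z - (j : ℂ)) (j : ℂ)
    rw [← e, Complex.norm_real, Real.norm_eq_abs] at h4
    exact h4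
  linarith

end Pool.Agent.SRP
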