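import Pool.Agent.SRP.Defs

set_option autoImplicit false

/-! # SRF, Part III, first half: configurations, presentations, discs in the plane
(statements; the proof of each is in its comment)

Every `St_X` is proved in `Pool/Agent/SRP/X.lean` as `theorem thm_X (hypotheses) : St_X`, with the
statements named in the comment (Needs) as hypotheses. -/

open Set Metric Filter Topology Pool.Agent.SRF

namespace Pool.Agent.SRP

/-! ## Configurations -/

/-- CFIN. Elementary facts on configurations. Needs: nothing.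

(1) `away` and `pos`. (2) If `K ∩ I` is infinite, it has a limit point `x` (it lies in the compact
set `F ∪ I`), `x ∈ K`, `x ∈ F ∪ I`, so `x ∈ I`; but by `apart` the ball of radius `rad x` about `x`
contains no other point of `I`. (3) The intervals `(i - rad i, i + rad i)` are disjoint subsets of
`(-1, 1)`: at most `1 / ε` of them have `rad i ≥ ε` (or: an infinite set of such `i` has two points
at distance `< ε`, it is contained in the compact `[-1, 1]`). (4) (2) with `K = univ`; `Dom` is the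
closed disc minus finitely many open balls. In general `F` is compact, the holes are open. (5) The
holes of `i` lie in `ball i (rad i)` (for `T`: `rad i / 2 + rad i / 8 < rad i`), which lies in the
open unit disc, and `F` too. (6) by (2) `I` is the countable union of the finite sets
`I ∩ {x | 1 / n ≤ infDist x F}` (or `I` if `F` is empty), since `I` is disjoint from the closed set
`F`. (7) Two points `x ≠ y` of `Dom` with `Rel x y` lie in the same `closedBall i (rad i / 2 +
rad i / 8)`, `i ∈ I`, and in no other closed ball of the configuration; check `T` and `P`. (8) from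
(7) and the formulas (the maps `x ↦ 2 i - conj x` and `x ↦ 2 i - x` are involutions and preserve the
circles; by (7) only one `i` is involved). -/
def St_CFIN : Prop := ∀ C : Conf, C.Ok →
  Disjoint C.F C.I ∧
  (∀ K : Set ℝ, IsClosed K → Disjoint K C.F → (K ∩ C.I).Finite) ∧
  (∀ ε : ℝ, 0 < ε → {i ∈ C.I | ε ≤ C.rad i}.Finite) ∧
  (C.F = ∅ → C.I.Finite ∧ IsCompact C.Dom) ∧
  UC ⊆ C.Dom ∧
  C.I.Countable ∧
  (∀ x y : ℂ, C.Rel x y → x = y ∨ ∃ i ∈ C.I, x ∈ closedBall (i : ℂ) (5 / 8 * C.rad i) ∧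
    y ∈ closedBall (i : ℂ) (5 / 8 * C.rad i)) ∧
  Equivalence C.Rel

/-- CCONG. The domain and the relation depend only on `F`, `I` and on the values of `rad` and `lab`
on `I`. Needs: nothing. Unfold the definitions. -/
def St_CCONG : Prop := ∀ C C' : Conf, C'.F = C.F → C'.I = C.I →
  (∀ i ∈ C.I, C'.rad i = C.rad i ∧ C'.lab i = C.lab i) →
  C'.Dom = C.Dom ∧ C'.Rel = C.Rel ∧ C'.FreeBd = C.FreeBd ∧ (C.Ok → C'.Ok) ∧
  ∀ l, C'.cnt l = C.cnt l

/-- ROOM. The radii can be enlarged a little. Needs: CFIN.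

For `i ∈ I` let `δ_i` be a positive number which is at most `1 - |i| - rad i`, at most
`|x - i| - rad i` for all `x ∈ F`, and at most `|i - j| - rad i - rad j` for all `j ∈ I \ {i}`. It
exists: `F` is compact, so `infDist i F > rad i` (or `F` is empty); for the last condition suppose
there are `j_n ∈ I \ {i}` with `|i - j_n| - rad i - rad j_n → 0`. If the set of the `j_n` is finite,
this contradicts `apart`. Otherwise a subsequence of distinct `j_n` converges to some `x ∈ F ∪ I`,
`rad j_n → 0` by CFIN (3), and `x ∈ F` by CFIN (2) (with `K` a small closed ball about `x` if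
`x ∉ F`), so `|i - x| = rad i`, against `away`. Put `R i = rad i + δ_i / 3`. -/
def St_ROOM : Prop := ∀ C : Conf, C.Ok → ∃ R : ℝ → ℝ, (∀ i ∈ C.I, C.rad i < R i) ∧
  Conf.Ok { C with rad := R }

/-- REF. Replacing the content of the balls with centre in `J` by other configurations. Needs:
CFIN, CCONG.

`C'.F = C.F`, `C'.I` as stated; `C'.rad i = C.rad j * (D j).rad ((i - j) / C.rad j)` and
`C'.lab i = (D j).lab ((i - j) / C.rad j)` if `j ∈ J` and `|i - j| ≤ C.rad j` (such a `j` is unique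
by `apart`), and `C.rad i`, `C.lab i` if there is no such `j`. For `x ∈ (D j).I` one has
`|x| + (D j).rad x < 1`, so `|i - j| + C'.rad i < C.rad j` for `i = j + C.rad j * x`: the new balls
are inside the old ones, and all conditions follow. Compactness: `F ∪ J` is closed by CFIN (2)
(bounded, and a limit point of `J ⊆ I` is in `F` or in `J`); a limit point of the new centres with
infinitely many different `j` is a limit point of `J`, hence in `F` (`rad j → 0`), and each `D j` is
finite (CFIN (4)). -/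
def St_REF : Prop := ∀ C : Conf, C.Ok → ∀ J ⊆ C.I, ∀ D : ℝ → Conf,
  (∀ j ∈ J, (D j).Ok ∧ (D j).F = ∅) →
  IsCompact (C.F ∪ J) ∧ (∀ j ∈ J, C.Slot j (C.rad j)) ∧
  ∃ C' : Conf, C'.Ok ∧ C'.F = C.F ∧ (∀ j ∈ J, C'.Slot j (C.rad j)) ∧
    C'.I = (C.I \ J) ∪ {i | ∃ j ∈ J, ∃ x ∈ (D j).I, i = j + C.rad j * x} ∧
    (∀ i, (∀ j ∈ J, C.rad j < |i - j|) → ((i ∈ C'.I ↔ i ∈ C.I) ∧
      (i ∈ C.I → C'.rad i = C.rad i ∧ C'.lab i = C.lab i))) ∧
    ∀ j ∈ J, (C'.slot j (C.rad j)).I = (D j).I ∧ ∀ x ∈ (D j).I,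
      (C'.slot j (C.rad j)).rad x = (D j).rad x ∧ (C'.slot j (C.rad j)).lab x = (D j).lab x

/-! ## Homeomorphisms of the plane moving configurations -/

/-- POL. Scaling and rotating a disc inside a larger one. Needs: nothing.

Let `ρ` be the increasing piecewise linear function on `[0, R]` with `ρ 0 = 0`, `ρ a = b`,
`ρ R = R`, and `α r = θ` for `r ≤ a`, linear to `α R = 0`. `Φ z = c + (ρ r / r) exp (i α r) (z - c)`,
`r = |z - c|`, for `0 < r ≤ R` (`Φ c = c`), `Φ z = z` for `r ≥ R`; the inverse is given by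
`ρ⁻¹` and `-α ∘ ρ⁻¹`. (Write `ρ r = r * k r` with `k` continuous, `k = b / a` on `[0, a]`.) -/
def St_POL : Prop := ∀ (c : ℂ) (a b R θ : ℝ), 0 < a → a < R → 0 < b → b < R →
  ∃ Φ : ℂ ≃ₜ ℂ, (∀ z, z ∉ ball c R → Φ z = z) ∧
    ∀ z ∈ closedBall c a, Φ z = c + ((b / a : ℝ) : ℂ) * cexpi θ * (z - c)

/-- INFP. Infinite products of homeomorphisms with disjoint supports. Needs: nothing.

`h c` maps `ball c (R c)` onto itself (it is bijective and the identity outside). So the map `Φ`
defined by the two formulas is bijective, and its inverse is of the same form. Continuity at `z`: if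
`z` is in one of the open balls this is clear. Otherwise `Φ z = z`; let `ε > 0`. The finitely many
`c ∈ J` with `R c ≥ ε / 4` satisfy `h c z = z`, so `|h c w - z| < ε` for `w` close to `z`; for the
other `c` and `w ∈ ball c (R c)` one has `|Φ w - w| < 2 R c < ε / 2`. -/
def St_INFP : Prop := ∀ (J : Set ℂ) (R : ℂ → ℝ) (h : ℂ → ℂ ≃ₜ ℂ),
  (∀ c ∈ J, ∀ d ∈ J, c ≠ d → Disjoint (ball c (R c)) (ball d (R d))) →
  (∀ ε : ℝ, 0 < ε → {c ∈ J | ε ≤ R c}.Finite) →
  (∀ c ∈ J, ∀ z, z ∉ ball c (R c) → h c z = z) →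
  ∃ Φ : ℂ ≃ₜ ℂ, (∀ c ∈ J, ∀ z ∈ ball c (R c), Φ z = h c z) ∧
    ∀ z, (∀ c ∈ J, z ∉ ball c (R c)) → Φ z = z

/-- ADJ. Changing the radii. Needs: CFIN, ROOM, POL, INFP.

If `C'.rad ≤ C.rad` on `I`: let `R` be as in ROOM for `C`; take INFP for the balls `ball i (R i)` and
the homeomorphisms `h i` of POL with `a = C.rad i`, `b = C'.rad i`, `R = R i`, `θ = 0`; the finiteness
condition is CFIN (3) for the configuration with radii `R`. In general let
`r₀ i = min (C.rad i) (C'.rad i)`; the configuration with radii `r₀` is `Ok`; compose the map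
for `C → r₀` with the inverse of the map for `C' → r₀`. -/
def St_ADJ : Prop := ∀ C C' : Conf, C.Ok → C'.Ok → C'.F = C.F → C'.I = C.I →
  ∃ Φ : ℂ ≃ₜ ℂ, (∀ z, z ∉ OD → Φ z = z) ∧ (∀ x ∈ C.F, Φ (x : ℂ) = x) ∧
    ∀ i ∈ C.I, ∀ z ∈ closedBall (i : ℂ) (C.rad i),
      Φ z = i + ((C'.rad i / C.rad i : ℝ) : ℂ) * (z - i)

/-- SHR. Klee's trick: a homeomorphism between compact subsets of the real line extends to the
plane. Needs: POL.

First we prove it with `Φ z = φ i - I * (z - i)` near `i` instead of `φ i + (z - i)`. Let `b` be the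
continuous even function with `b = 1` on `[-1/8, 1/8]`, linear on `[1/8, 1/2]`, `b = 0` for
`|y| ≥ 1/2` (Lipschitz constant `8/3`). Choose `δ_i > 0` (`i ∈ I`) such that the intervals
`[i - δ_i, i + δ_i]` are pairwise disjoint, disjoint from `F`, contained in `[-1/4, 1/4]` (one third
of the isolation radius; then `δ_i → 0`, since only finitely many are `≥ ε`). The set
`S = F ∪ ⋃ [i - δ_i, i + δ_i] ∪ {|x| ≥ 1/2}` is closed and the function which is `φ` on `F`, `φ i` on
`[i - δ_i, i + δ_i]` and `0` for `|x| ≥ 1/2` is continuous on `S` with values in `[-1/8, 1/8]`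
(at `x ∈ F`: points of `S` close to `x` are in `F` or in intervals with `i` close to `x`). Tietze
(`ContinuousMap.exists_restrict_eq_forall_mem_of_closed`): a continuous `f : ℝ → ℝ` with values in
`[-1/8, 1/8]`. Let `g` be the same for `φ⁻¹ : F' ∪ I' → F ∪ I` (continuous, the sets are compact).
`A (x, y) = (x, y + f x * b y)` and `B (x, y) = (x - g y * b x, y)` are homeomorphisms of the plane
(for fixed `x` the map `y ↦ y + f x * b y` is the identity plus a Lipschitz map with constant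
`1/8 * 8/3 < 1`: strictly increasing, onto; a continuous bijection of the plane which is the identity
off a compact set is a homeomorphism because it is proper), they are the identity off
`{|x| < 1/2, |y| < 1/2}`, which is contained in `closedBall 0 (3/4)`. For `x ∈ F ∪ I`:
`(x, 0) ↦ (x, φ x) ↦ (x - x, φ x) = (0, φ x)`. Let `Ro` be the homeomorphism of POL for `c = 0`,
`a = b = 3/4`, `R = 1`, `θ = -π/2`: multiplication by `-I` on `closedBall 0 (3/4)`; it maps
`I * φ x` to `φ x`. `Φ = Ro ∘ B ∘ A`. Near `i`: `z = i + w ↦ i + w + I φ i ↦ w + I φ i ↦ φ i - I w`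
(for `w` so small that `|re w| ≤ δ_i`, `|im w| ≤ 1/8 - ...`: use that `f` is constant near `i`, `b = 1`
near `0`... To have `b = 1` near `φ x` as well, take `b = 1` on `[-3/16, 3/16]` and Lipschitz constant
`16/5 < 8`).
Now apply this to `φ` and then three times to the identity of `F' ∪ I'`: the composition `Φ` satisfies
`Φ z = φ i + (-I)^4 (z - i)` near `i`. -/
def St_SHR : Prop := ∀ (F I F' I' : Set ℝ) (φ : ℝ → ℝ), IsCompact (F ∪ I) → IsCompact (F' ∪ I') →
  (∀ x ∈ F ∪ I, |x| ≤ 1 / 8) → (∀ x ∈ F' ∪ I', |x| ≤ 1 / 8) → Disjoint F I → Disjoint F' I' →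
  (∀ i ∈ I, ∃ ε > 0, ∀ x ∈ F ∪ I, |x - i| < ε → x = i) →
  (∀ i ∈ I', ∃ ε > 0, ∀ x ∈ F' ∪ I', |x - i| < ε → x = i) →
  ContinuousOn φ (F ∪ I) → InjOn φ (F ∪ I) → φ '' F = F' → φ '' I = I' →
  ∃ Φ : ℂ ≃ₜ ℂ, (∀ z, z ∉ OD → Φ z = z) ∧ (∀ x ∈ F ∪ I, Φ (x : ℂ) = (φ x : ℝ)) ∧
    ∀ i ∈ I, ∃ ε > 0, ∀ z ∈ closedBall (i : ℂ) ε, Φ z = (φ i : ℝ) + (z - i)

/-- KLEE. Moving configurations. Needs: CFIN, POL, ADJ, SHR.

Let `ρ < 1` be such that all `F`, `F'` and all closed balls of `C` and `C'` lie in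
`closedBall 0 ρ` (compactness: a configuration has finitely many balls with radius `≥ ε` by
CFIN (3), and `F ∪ I` is compact in `(-1, 1)`), and let `Z` be the homeomorphism of POL with
`a = ρ`, `b = ρ / 8`, `R = 1`, `θ = 0`: `Z z = z / 8` on `closedBall 0 ρ`. SHR for `F / 8`, `I / 8`,
`F' / 8`, `I' / 8` and `x ↦ φ (8 x) / 8` gives `Φ₀` and numbers `ε_i`. Choose
`0 < r i ≤ min (C.rad i) (C'.rad (φ i))` with `r i / 8 ≤ ε_i`. ADJ for `C` and the configuration with
the radii `r` gives `Φ₁`, ADJ for `C'` and the radii `r (φ⁻¹ ·)` gives `Φ₂`. Take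
`Φ = Φ₂⁻¹ ∘ Z⁻¹ ∘ Φ₀ ∘ Z ∘ Φ₁`. On `closedBall i (C.rad i)`: `z ↦ i + (r i / C.rad i) (z - i)`, times
`1/8`, then `φ i / 8 + (r i / C.rad i) (z - i) / 8`, then `φ i + (r i / C.rad i) (z - i)`, then
`φ i + (C'.rad (φ i) / C.rad i) (z - i)`. -/
def St_KLEE : Prop := ∀ (C C' : Conf) (φ : ℝ → ℝ), C.Ok → C'.Ok →
  ContinuousOn φ (C.F ∪ C.I) → InjOn φ (C.F ∪ C.I) → φ '' C.F = C'.F → φ '' C.I = C'.I →
  ∃ Φ : ℂ ≃ₜ ℂ, (∀ z, z ∉ OD → Φ z = z) ∧ (∀ x ∈ C.F, Φ (x : ℂ) = (φ x : ℝ)) ∧
    ∀ i ∈ C.I, ∀ z ∈ closedBall (i : ℂ) (C.rad i),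
      Φ z = (φ i : ℝ) + ((C'.rad (φ i) / C.rad i : ℝ) : ℂ) * (z - i)

/-- KPRES. Moving presentations. Needs: CFIN, KLEE.

`Φ` from KLEE maps `C.Dom` onto `C'.Dom` (it maps the holes of `i` onto the holes of `φ i` because it
is affine on `closedBall i (rad i)` with a positive real factor and the labels are the same),
`C.Rel x y ↔ C'.Rel (Φ x) (Φ y)` (CFIN (7): for `x ≠ y` both relations imply that both points are in
the ball of some `i`; on this ball `Φ` is `z ↦ φ i + λ (z - i)`, `λ > 0`, which is compatible with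
`2 i - z` and `2 i - conj z`), and it maps the free circles onto the free circles. -/
def St_KPRES : Prop := ∀ (C C' : Conf) (φ : ℝ → ℝ), C.Ok → C'.Ok →
  ContinuousOn φ (C.F ∪ C.I) → InjOn φ (C.F ∪ C.I) → φ '' C.F = C'.F → φ '' C.I = C'.I →
  (∀ i ∈ C.I, C'.lab (φ i) = C.lab i) →
  ∃ Φ : ℂ ≃ₜ ℂ, (∀ z, z ∉ OD → Φ z = z) ∧
    (∀ i ∈ C.I, ∀ z ∈ closedBall (i : ℂ) (C.rad i),
      Φ z = (φ i : ℝ) + ((C'.rad (φ i) / C.rad i : ℝ) : ℂ) * (z - i)) ∧
    Φ '' C.Dom = C'.Dom ∧ Φ '' C.FreeBd = C'.FreeBd ∧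
    ∀ (X : Type) [TopologicalSpace X] (L : Set X) (q : ℂ → X), Pres C L q →
      Pres C' L (fun z => q (Φ.symm z))

/-- FREE. The positions of a finite configuration do not matter. Needs: CFIN, KPRES.

(1) Both `I` are finite and the sets `{i ∈ I | lab i = l}` have the same cardinality for each `l`, so
there is a label preserving bijection `φ : C.I → C'.I`, and one can prescribe the image of given
elements (in (2): `i k ↦ i' k`, `k < n`, `i`, `i'` injective; the remaining elements with label `l`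
have the same number). Every map is continuous on a finite set. Apply KPRES. -/
def St_FREE : Prop :=
  (∀ (t p o : ℕ) (X : Type) [TopologicalSpace X] (L Bd : Set X) (u : ℂ → X),
    FinPres t p o L Bd u → ∀ C' : Conf, C'.Ok → C'.F = ∅ → C'.cnt Lab.T = t → C'.cnt Lab.P = p →
    C'.cnt Lab.O = o → ∃ q : ℂ → X, Pres C' L q ∧ (∀ z ∈ UC, q z = u z) ∧ Bd = q '' C'.FreeBd) ∧
  (∀ C C' : Conf, C.Ok → C'.Ok → C.F = ∅ → C'.F = ∅ → (∀ l, C'.cnt l = C.cnt l) →
    ∀ (n : ℕ) (i i' : Fin n → ℝ), Function.Injective i → Function.Injective i' →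
    (∀ k, i k ∈ C.I ∧ i' k ∈ C'.I ∧ C'.lab (i' k) = C.lab (i k)) →
    ∃ Φ : ℂ ≃ₜ ℂ, (∀ z, z ∉ OD → Φ z = z) ∧
      (∀ k, ∀ z ∈ closedBall (i k : ℂ) (C.rad (i k)),
        Φ z = (i' k : ℝ) + ((C'.rad (i' k) / C.rad (i k) : ℝ) : ℂ) * (z - i k)) ∧
      Φ '' C.Dom = C'.Dom ∧ Φ '' C.FreeBd = C'.FreeBd ∧
      ∀ (X : Type) [TopologicalSpace X] (L : Set X) (q : ℂ → X), Pres C L q →
        Pres C' L (fun z => q (Φ.symm z)))

/-! ## Presentations -/

/-- UNI. Uniqueness of the presented space (compact case). Needs: nothing.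

`h (q z) = q' z` is well defined because `q x = q y ↔ R x y ↔ q' x = q' y`. Continuity: a closed set
`A ⊆ X'` has preimage `h⁻¹ A ∩ L = q '' (q'⁻¹ A ∩ Ω)`, the image of a compact set, hence closed. -/
def St_UNI : Prop := ∀ (X X' : Type) [TopologicalSpace X] [TopologicalSpace X'] [T2Space X]
  [T2Space X'] (Ω : Set ℂ) (R : ℂ → ℂ → Prop) (L : Set X) (L' : Set X') (q : ℂ → X) (q' : ℂ → X'),
  IsCompact Ω → ContinuousOn q Ω → ContinuousOn q' Ω → q '' Ω = L → q' '' Ω = L' →
  (∀ x ∈ Ω, ∀ y ∈ Ω, (q x = q y ↔ R x y)) → (∀ x ∈ Ω, ∀ y ∈ Ω, (q' x = q' y ↔ R x y)) →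
  ∃ h : X → X', ContinuousOn h L ∧ InjOn h L ∧ h '' L = L' ∧ ∀ z ∈ Ω, h (q z) = q' z

/-- UNM. Two surfaces with the same model are homeomorphic. Needs: CFIN, UNI.

Let `e, q` and `e', q'` be the data. Define `h : X → X'` by `h (e z) = e' z` for `|z| ≤ 1` and
`h (q z) = q' z` for `z ∈ Dom C`. The closed sets `e '' CD` and `L = (e '' OD)ᶜ` cover `X` and
intersect in `e '' UC = q '' UC`, where both definitions agree (`q z = e z`, `q' z = e' z`; note that
a point `z ∈ Dom C` with `q z ∈ e '' UC = q '' UC` is in `UC`, because points of `UC` are related only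
to themselves). `h` is bijective. Continuity on `L` at `x ∈ L`: `X` is locally compact; let `N` be a
compact neighbourhood of `x` in `X`, `A = N ∩ L`, and `B ⊆ Dom C` compact with `q⁻¹ A ∩ Dom C ⊆ B`.
`Ω = B ∩ q⁻¹ A` is compact (closed in `B`), and `q`, `q'` are continuous on it, `q '' Ω = A`; by UNI
(for `Ω`, `R = Rel`) `h` is continuous on `A`, a neighbourhood of `x` in `L`. The same for the
inverse. -/
def St_UNM : Prop := ∀ (X X' : Type) [TopologicalSpace X] [TopologicalSpace X'], IsSurf X →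
  IsSurf X' → ∀ C : Conf, C.Ok → IsModel X C → IsModel X' C → Nonempty (X ≃ₜ X')

/-- CUT. The part of a presented space over a slot. Needs: CFIN.

`z ↦ c + s z` maps `(C.slot c s).Dom` onto `C.Dom ∩ closedBall c s` (the ends and the balls of the
other centres do not meet `closedBall c s`) and the relations correspond (CFIN (7); `c`, `s` are
real, `s > 0`). Properness: the domain of the slot is compact (finitely many centres, by CFIN (2)
for `K = closedBall c s`). Intersection: if `q x = q y` with `x ∈ closedBall c s`, `y ∉ ball c s`,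
then `Rel x y`; if `x ≠ y`, both are in one `closedBall i (5/8 rad i)`, which lies in the open ball
`ball c s` (if `|i - c| + rad i ≤ s`) or outside `closedBall c s`; so `x = y` is on the sphere. -/
def St_CUT : Prop := ∀ (X : Type) [TopologicalSpace X] (C : Conf), C.Ok → ∀ (L : Set X) (q : ℂ → X),
  Pres C L q → ∀ c s : ℝ, C.Slot c s →
  Pres (C.slot c s) (q '' (C.Dom ∩ closedBall (c : ℂ) s)) (fun z => q (c + s * z)) ∧
  q '' (C.Dom ∩ closedBall (c : ℂ) s) ∩ q '' (C.Dom \ ball (c : ℂ) s) = q '' sphere (c : ℂ) s ∧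
  ((∀ i ∈ C.I, |i - c| + C.rad i ≠ s) → (C.slot c s).Ok)

/-- PASTE. Replacing the part of a presented space over a family of slots. Needs: CFIN.

Let `Ω₀ = C.Dom \ ⋃ ball j (s j)`; it is also `C'.Dom \ ⋃ ball j (s j)`, because the two
configurations agree outside the slots. Define `Q = q` on `Ω₀` and `Q (j + s j * z) = q' j z` on the
slots; on the spheres (which are contained in both domains) the two definitions agree.
Continuity on `C'.Dom`: the closed sets `closedBall j (s j)` are locally finite in the complement of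
`F` (`F ∪ J` is compact and the balls are disjoint, so their radii tend to `0` and they accumulate
only at `F`; points of `C'.Dom` are not in `F`), and `Ω₀` is closed in `C'.Dom` and locally its
complement is the union of finitely many open balls: `C'.Dom` is locally a finite union of
relatively closed sets on which `Q` is continuous. Relation: for `x`, `y` in `Ω₀` resp. in one slot
this is the hypothesis (the relations `C.Rel`, `C'.Rel` agree on `Ω₀`, and `C'.Rel` on the slot is
the relation of `C'.slot`, as in CUT); `x` in the slot `j`, `y` in the slot `k ≠ j`: `Q x ≠ Q y`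
and `¬ C'.Rel x y`; `x` in the slot `j`, `y ∈ Ω₀` and `Q x = Q y`: the value is in
`q '' sphere j (s j)`, so `Q x = Q x'` with `x'` on the sphere; `x = x'` (points of the unit circle are
related only to themselves in `C'.slot`) and `y = x'` (the same in `C`).
Properness: let `A ⊆ L₀ ∪ ⋃ L' j` be compact. `A ∩ L` is compact, so there is a compact
`B₀ ⊆ C.Dom` which contains its preimage; only finitely many `L' j` meet `A`. Take
`B = (B₀ ∩ Ω₀) ∪` the finitely many slots (`C'.Dom ∩ closedBall j (s j)` is compact). -/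
def St_PASTE : Prop := ∀ (X : Type) [TopologicalSpace X] [T2Space X] (C C' : Conf), C.Ok → C'.Ok →
  C'.F = C.F → ∀ (J : Set ℝ) (s : ℝ → ℝ), IsCompact (C.F ∪ J) →
  (∀ j ∈ J, C.Slot j (s j) ∧ C'.Slot j (s j)) →
  (∀ j ∈ J, ∀ k ∈ J, j ≠ k → s j + s k < |j - k|) →
  (∀ i, (∀ j ∈ J, s j < |i - j|) → ((i ∈ C'.I ↔ i ∈ C.I) ∧
    (i ∈ C.I → C'.rad i = C.rad i ∧ C'.lab i = C.lab i))) →
  ∀ (L : Set X) (q : ℂ → X), IsClosed L → Pres C L q →
  ∀ (L' : ℝ → Set X) (q' : ℝ → ℂ → X),
  (∀ j ∈ J, Pres (C'.slot j (s j)) (L' j) (q' j)) →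
  (∀ j ∈ J, ∀ z ∈ UC, q' j z = q (j + s j * z)) →
  (∀ j ∈ J, L' j ∩ q '' (C.Dom \ ⋃ k ∈ J, ball (k : ℂ) (s k)) ⊆ q '' sphere (j : ℂ) (s j)) →
  (∀ j ∈ J, ∀ k ∈ J, j ≠ k → Disjoint (L' j) (L' k)) →
  (∀ A : Set X, IsCompact A → {j ∈ J | (L' j ∩ A).Nonempty}.Finite) →
  ∃ Q : ℂ → X, Pres C' (q '' (C.Dom \ ⋃ k ∈ J, ball (k : ℂ) (s k)) ∪ ⋃ j ∈ J, L' j) Q ∧
    (∀ z ∈ C.Dom, (∀ j ∈ J, z ∉ ball (j : ℂ) (s j)) → Q z = q z) ∧
    ∀ j ∈ J, ∀ z ∈ (C'.slot j (s j)).Dom, Q (j + s j * z) = q' j z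

/-- MEX. Every finite configuration presents something. Needs: CFIN.

`Ω = C.Dom` is compact and `Rel` is an equivalence relation on it (CFIN (8)), which is closed in
`Ω × Ω` (finite union of the diagonal and of closed sets). The quotient `M` of (the subtype) `Ω` is
compact, and it is Hausdorff: the quotient map `π` is closed (the saturation of a closed, hence
compact, set `A` is the projection of the compact set `Rel ∩ (A × Ω)`), and for classes `a ≠ b`
(finite sets) there are disjoint open sets `U ⊇ a`, `V ⊇ b` in `Ω`; the images of the complements are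
closed, so `M \ π (Ω \ U)` and `M \ π (Ω \ V)` are open, they contain `a`, `b` and are disjoint.
(Or realise `M` as the image of `Ω` in `ℂ × ℂ^I × ...` by explicit functions.) Extend `π` to a
function on `ℂ` arbitrarily (`Ω` is nonempty). -/
def St_MEX : Prop := ∀ C : Conf, C.Ok → C.F = ∅ →
  ∃ (M : Type) (_ : TopologicalSpace M) (_ : T2Space M) (_ : CompactSpace M) (q : ℂ → M),
    Pres C univ q

/-- RED. A free hole, or two of them, in a slot of its own. Needs: CFIN, CCONG, REF, FREE, CUT, PASTE,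
ADJ.

(1) Let `C₀` be a configuration without ends whose centres are a point `j₀` with label `O` and other
points with labels such that `C₀.cnt = C.cnt` (for instance centres `1/2 - k/N`... any equally spaced
points in `(-1, 1)` with equal small radii), and let `C'` be obtained from `C₀` by REF with
`J = {j₀}`, `D j₀ = single (1/2) O`: its centres are those of `C₀`, and its ball at `j₀` has half the
radius `r₀ = C₀.rad j₀`. By FREE (2) we may assume that `q` presents `L` by `C'` and that `i = j₀`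
(the circle of `i` is moved affinely, so the condition on `q₁` is preserved). Now
`closedBall j₀ r₀` is a slot of `C'` with content `single (1/2) O`, whose domain is `Ann`. Take
`u₁ z = q₁ z = q (j₀ + r₀ z)`, `W = q₁ '' Ann` and `L₀ = q '' (C'.Dom \ ball j₀ r₀)`: CUT. On `Ann` the
relation is equality, so `q₁` is injective there. `q₁ (z / 4) = q (j₀ + (r₀ / 4) z)`, and the radius of
the hole at `j₀` is `(r₀ / 2) / 2`. Replacement: let `W'` be presented by `D` with `t₁, p₁, o₁`. Apply
REF to `C₀`, `J = {j₀}`, `D` and PASTE with `J = {j₀}`, `s = r₀` (the compact set `L` is closed); the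
counts add up, and `Q` maps the free circles of the result onto `(Bd \ B₁) ∪ Bd'`, since `Q` is `q`
outside the slot and `q'` in it.
(2) The same with `D j₀ = pantsC`, for a configuration `C₀` with one free hole less; FREE (2) for
`n = 2`, moving `i` to the left hole and `j` to the right hole of the slot. -/
def St_RED : Prop :=
  (∀ (X : Type) [TopologicalSpace X] [T2Space X] (C : Conf) (L : Set X) (q u : ℂ → X), C.Ok →
    C.F = ∅ → Pres C L q → (∀ z ∈ UC, q z = u z) → ∀ i ∈ C.I, C.lab i = Lab.O →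
    ∃ (L₀ W B₁ : Set X) (u₁ q₁ : ℂ → X), L = L₀ ∪ W ∧ L₀ ∩ W = u₁ '' UC ∧
      IsCompact L₀ ∧ ContinuousOn q₁ Ann ∧ InjOn q₁ Ann ∧ q₁ '' Ann = W ∧
      (∀ z ∈ UC, q₁ z = u₁ z) ∧ (∀ z ∈ UC, q₁ (z / 4) = q (i + (C.rad i / 2 : ℝ) * z)) ∧
      B₁ = q '' sphere (i : ℂ) (C.rad i / 2) ∧ Disjoint B₁ L₀ ∧
      (q '' C.FreeBd) \ B₁ ⊆ L₀ ∧ Disjoint (q '' C.FreeBd) (u₁ '' UC) ∧
      ∀ (t₁ p₁ o₁ : ℕ) (W' Bd' : Set X), FinPres t₁ p₁ o₁ W' Bd' u₁ → W' ∩ L₀ ⊆ u₁ '' UC →
        FinPres (C.cnt Lab.T + t₁) (C.cnt Lab.P + p₁) (C.cnt Lab.O - 1 + o₁) (L₀ ∪ W')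
          (((q '' C.FreeBd) \ B₁) ∪ Bd') u) ∧
  (∀ (X : Type) [TopologicalSpace X] [T2Space X] (C : Conf) (L : Set X) (q u : ℂ → X), C.Ok →
    C.F = ∅ → Pres C L q → (∀ z ∈ UC, q z = u z) → ∀ i ∈ C.I, ∀ j ∈ C.I, i ≠ j →
    C.lab i = Lab.O → C.lab j = Lab.O →
    ∃ (L₀ W B₁ B₂ : Set X) (u₁ q₁ : ℂ → X), L = L₀ ∪ W ∧ L₀ ∩ W = u₁ '' UC ∧
      IsCompact L₀ ∧ ContinuousOn q₁ pantsC.Dom ∧ InjOn q₁ pantsC.Dom ∧ q₁ '' pantsC.Dom = W ∧
      (∀ z ∈ UC, q₁ z = u₁ z) ∧
      (∀ z ∈ UC, q₁ (-(1 / 4) + z / 16) = q (i + (C.rad i / 2 : ℝ) * z)) ∧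
      (∀ z ∈ UC, q₁ (1 / 4 + z / 16) = q (j + (C.rad j / 2 : ℝ) * z)) ∧
      B₁ = q '' sphere (i : ℂ) (C.rad i / 2) ∧ B₂ = q '' sphere (j : ℂ) (C.rad j / 2) ∧
      Disjoint (B₁ ∪ B₂) L₀ ∧
      (q '' C.FreeBd) \ (B₁ ∪ B₂) ⊆ L₀ ∧ Disjoint (q '' C.FreeBd) (u₁ '' UC) ∧
      ∀ (t₁ p₁ o₁ : ℕ) (W' Bd' : Set X), FinPres t₁ p₁ o₁ W' Bd' u₁ → W' ∩ L₀ ⊆ u₁ '' UC →
        FinPres (C.cnt Lab.T + t₁) (C.cnt Lab.P + p₁) (C.cnt Lab.O - 2 + o₁) (L₀ ∪ W')
          (((q '' C.FreeBd) \ (B₁ ∪ B₂)) ∪ Bd') u)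

/-! ## Discs in the plane -/

/-- INTD. Closed discs. Needs: nothing (uses `Pool.Agent.CT.h1`, invariance of domain, and Mathlib
`exists_homeomorph_image_eq` in `Mathlib/Analysis/Convex/GaugeRescale.lean`).

(1) `f '' OD` is open by invariance of domain, so it lies in the interior. If `f ζ`, `ζ ∈ UC`, were in
the interior of `E`, then `f⁻¹` would be continuous and injective on the open set `interior E`, so
`f⁻¹ '' interior E` would be open, contained in `CD` and contain `ζ`: contradiction. `E` is closed, so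
the frontier is the rest. (2) GaugeRescale with the closed unit disc. (3) Composition. (4) the
square, the half disc, ... are convex: special cases of (2). -/
def St_INTD : Prop :=
  (∀ f : ℂ → ℂ, ContinuousOn f CD → InjOn f CD → f '' OD = interior (f '' CD) ∧
    f '' UC = frontier (f '' CD)) ∧
  (∀ E : Set ℂ, IsCompact E → Convex ℝ E → (interior E).Nonempty → IsDisc E) ∧
  (∀ (E : Set ℂ) (g : ℂ → ℂ), IsDisc E → ContinuousOn g E → InjOn g E → IsDisc (g '' E))

/-- PDT. A closed disc in the open unit disc can be moved to any other one. Needs: SCH, TH (of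
Part I), INTD.

It is enough to treat `E' = closedBall 0 (1/2)`. (a) Let `E = f '' CD`, `g : ℂ ≃ₜ ℂ` from SCH with `g = f`
on `UC`. Then `g '' CD = E`: `f '' OD` is open (INTD), connected, disjoint from `J = g '' UC`,
bounded, and closed in `Jᶜ` (it is `E \ J`), so it is a component of `Jᶜ`; the components of `Jᶜ` are
`g '' OD` and `g '' CDᶜ`, and the second is unbounded. (b) `|g t| → ∞` for `t → ∞`, so there is a first
`t₁ > 1` with `|g t₁| = 1`, and a first `t₂ > 1` with `|g (-t₂)| = 1`. `β t = g (-t₂ + t (t₁ + t₂))` is a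
crosscut of `CD` (`IsCross` for `id`); it meets `E` exactly in the subarc `g '' [-1, 1]`. Let `β'` be
a crosscut with the same end points, `β' 0 = β 0`, `β' 1 = β 1`: TH gives a homeomorphism `F`,
identity off `OD`, with `F (β t) = β' t`. First rotate (radial extension, POL-like rotation of the
whole picture is not needed: conjugate instead): choose `β'` to be the image of the diameter
`[-1, 1]` under a homeomorphism `k` of the plane which preserves `CD`, `OD` and maps `-1` to `β 0`, `1`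
to `β 1` (RADH of Part I, or an explicit one), parametrised so that the parameters of `g (-1)`, `g 1`
go to `k (-1/2)`, `k (1/2)`. Replacing `E` by `F '' E` and conjugating with `k` we may assume: `E`
meets `[-1, 1]` exactly in `[-1/2, 1/2]`, its frontier meets it in `{-1/2, 1/2}`, and
`E = g '' CD` with `g (-1) = -1/2`, `g 1 = 1/2` (the new `g`), the two arcs `g '' carc 0 π`,
`g '' carc π (2 π)` are, apart from their ends, one in the upper and one in the lower half of `OD`:
each open arc misses the real axis, so lies in one half; if both were in the upper half plane, then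
the points of `ball 0 (1/2)` just below the segment would be in the same component of the complement
of the frontier of `E` as the exterior (the lower half disc is connected and misses the frontier),
whereas the interior points of the segment are interior points of `E`: contradiction.
(c) The closed upper half disc is `g₊ '' CD` for some `g₊ : ℂ ≃ₜ ℂ` (SCH for its boundary, or convexity
and GaugeRescale); the upper arc of `E` is a crosscut of it from `-1/2` to `1/2`; TH moves it to the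
half circle of radius `1/2` by a homeomorphism which is the identity off the open upper half disc.
Do the same below. The composition `Θ` maps the frontier of `E` onto `sphere 0 (1/2)`, it fixes the
segment `[-1/2, 1/2]` and is the identity off `OD`, so it maps the bounded component `interior E` onto
`ball 0 (1/2)`. -/
def St_PDT : Prop := ∀ E E' : Set ℂ, IsDisc E → IsDisc E' → E ⊆ OD → E' ⊆ OD →
  ∃ Θ : ℂ ≃ₜ ℂ, (∀ z, z ∉ OD → Θ z = z) ∧ Θ '' E = E'

/-- PDS. The same in a square and in a disc. Needs: PDT, INTD.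

Conjugate PDT with the homeomorphism `z ↦ (‖z‖ / max |re z| |im z|) z` of the plane, which maps
`CD` onto `Sq` and `OD` onto `SqI` (GaugeRescale, or explicitly), resp. with `z ↦ c + R z`. `Θ` maps
interiors to interiors because it is a homeomorphism. -/
def St_PDS : Prop :=
  (∀ E E' : Set ℂ, IsDisc E → IsDisc E' → E ⊆ SqI → E' ⊆ SqI →
    ∃ Θ : ℂ ≃ₜ ℂ, (∀ z, z ∉ SqI → Θ z = z) ∧ Θ '' E = E' ∧ Θ '' interior E = interior E') ∧
  (∀ (c : ℂ) (R : ℝ), 0 < R → ∀ E E' : Set ℂ, IsDisc E → IsDisc E' → E ⊆ ball c R →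
    E' ⊆ ball c R → ∃ Θ : ℂ ≃ₜ ℂ, (∀ z, z ∉ ball c R → Θ z = z) ∧ Θ '' E = E' ∧
      Θ '' interior E = interior E')

/-- HOLE. Removing a disc from a presented space. Needs: CFIN, CCONG, INTD, PDS.

`B = closedBall c ρ` does not meet the balls of the configuration, so `q` is injective on it and
`q x = q y` with `x ∈ B` only for `x = y`. `E₀ = {w ∈ Sq | Φ w ∈ q '' B}` is the image of `B` under
`Φ⁻¹ ∘ q` (continuous, `Φ` is a homeomorphism of the compact square onto its image): a closed disc in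
`SqI`. PDS: `Θ` with `Θ '' E₀ = E`, `Θ '' interior E₀ = interior E`, `Θ = id` off `SqI`. Let
`G (Φ w) = Φ (Θ w)` on `Φ '' Sq` and `G = id` on `L \ Φ '' SqI`; both sets are closed in `L`, they
cover `L`, and on the intersection (`Φ '' (Sq \ SqI)`) both are the identity: `G` is a
homeomorphism of `L` (the inverse is given by `Θ⁻¹`). `q' = G ∘ q` on the domain of `C.add c (2 ρ) O`,
which is `C.Dom \ ball c ρ`. Its image is `L \ G '' (q '' ball c ρ)` and
`q '' ball c ρ = Φ '' interior E₀` (INTD (1) for `Φ⁻¹ ∘ q ∘ (c + ρ ·)`). On `UC` and on the old free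
circles `G` is the identity; `q' '' sphere c ρ = Φ '' (Θ '' frontier E₀) = Φ '' frontier E`. The
relation of `C.add c (2 ρ) O` is the relation of `C` (on the new domain). `Ok`: `closedBall c (2 ρ)`
is disjoint from the other balls. -/
def St_HOLE : Prop := ∀ (X : Type) [TopologicalSpace X] [T2Space X] (C : Conf) (L : Set X)
  (q Φ : ℂ → X) (E : Set ℂ) (c ρ : ℝ), C.Ok → C.F = ∅ → Pres C L q →
  ContinuousOn Φ Sq → InjOn Φ Sq → Φ '' Sq ⊆ L → (∃ U : Set X, IsOpen U ∧ U ∩ L = Φ '' SqI) →
  Disjoint (Φ '' SqI) (q '' UC) → Disjoint (Φ '' SqI) (q '' C.FreeBd) →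
  IsDisc E → E ⊆ SqI → 0 < ρ → |c| + 2 * ρ < 1 → (∀ i ∈ C.I, C.rad i + 2 * ρ < |i - c|) →
  q '' closedBall (c : ℂ) ρ ⊆ Φ '' SqI →
  (C.add c (2 * ρ) Lab.O).Ok ∧ (C.add c (2 * ρ) Lab.O).cnt Lab.T = C.cnt Lab.T ∧
  (C.add c (2 * ρ) Lab.O).cnt Lab.P = C.cnt Lab.P ∧
  (C.add c (2 * ρ) Lab.O).cnt Lab.O = C.cnt Lab.O + 1 ∧
  ∃ q' : ℂ → X, Pres (C.add c (2 * ρ) Lab.O) (L \ Φ '' interior E) q' ∧
    (∀ z ∈ UC, q' z = q z) ∧
    q' '' (C.add c (2 * ρ) Lab.O).FreeBd = q '' C.FreeBd ∪ Φ '' frontier E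

end Pool.Agent.SRP
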