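import Pool.Agent.SRP.StC

set_option autoImplicit false

/-! # SRF, Part III, second half: attaching discs, Dyck's theorem
(statements; the proof of each is in its comment)

Every `St_X` is proved in `Pool/Agent/SRP/X.lean` as `theorem thm_X (hypotheses) : St_X`, with the
statements named in the comment (Needs) as hypotheses. Angles are real numbers,
`cexpi t = exp (i t)`. -/

open Set Metric Filter Topology Pool.Agent.SRF

namespace Pool.Agent.SRP

/-! ## Arcs -/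

/-- MONO. Injective paths on a circle. Needs: LOGB (of Part I).

(1) `(ζ t - c) / r` has absolute value `1`; extend it to the plane by `z ↦ (ζ (proj (re z)) - c) / r`
with the projection `proj` onto `[a, b]`: continuous without zeros, so LOGB (2) gives a continuous
logarithm `h`; `θ t = im (h t)` (`re (h t) = 0`). `θ` is injective on `[a, b]`, so it is strictly
monotone (`ContinuousOn.strictMonoOn_of_injOn_Icc'`); if `|θ b - θ a| ≥ 2 π`, the intermediate value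
theorem gives `t ∈ (a, b]` with `θ t = θ a ± 2 π`, so `ζ t = ζ a`. (2) If a point of `sphere c r` is not in
`f '' UC`, then `f '' UC` lies in the circle minus a point, which is homeomorphic to an open
interval, and an injective continuous map of the circle to a line does not exist (the image of the
circle is a compact interval `[m, M]`, `m < M`; remove the point which is mapped to `(m + M)/2`: the
circle minus a point is connected). -/
def St_MONO : Prop :=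
  (∀ (c : ℂ) (r a b : ℝ) (ζ : ℝ → ℂ), 0 < r → a < b → ContinuousOn ζ (Icc a b) →
    InjOn ζ (Icc a b) → (∀ t ∈ Icc a b, ζ t ∈ sphere c r) →
    ∃ θ : ℝ → ℝ, ContinuousOn θ (Icc a b) ∧
      (StrictMonoOn θ (Icc a b) ∨ StrictAntiOn θ (Icc a b)) ∧
      (∀ t ∈ Icc a b, ζ t = c + r * cexpi (θ t)) ∧ |θ b - θ a| < 2 * Real.pi) ∧
  (∀ (c : ℂ) (r : ℝ) (f : ℂ → ℂ), 0 < r → ContinuousOn f UC → InjOn f UC →
    MapsTo f UC (sphere c r) → f '' UC = sphere c r)

/-- BAND. Parametrising a disc by a square. Needs: nothing.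

Let `τ` be the function on the boundary of the square with `τ (x + i) = (a + b)/2 - x (b - a)/2`,
`τ (-1 + i y) = (b + c)/2 - y (c - b)/2`, `τ (x - i) = (c + d)/2 + x (d - c)/2`, and
`τ (1 + i y) = (d + a + 2 π)/2 + y (a + 2 π - d)/2`: going around the square from `1 + i`
counterclockwise it increases from `a` to `a + 2 π`, so `cexpi ∘ τ` is well defined, continuous and
injective on the boundary, and onto `UC`. `H₀ (ρ w) = ρ cexpi (τ w)` for `0 ≤ ρ ≤ 1` and `w` in the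
boundary (`ρ = max |re z| |im z|`). -/
def St_BAND : Prop := ∀ a b c d : ℝ, a < b → b < c → c < d → d < a + 2 * Real.pi →
  ∃ H₀ : ℂ → ℂ, ContinuousOn H₀ Sq ∧ InjOn H₀ Sq ∧ H₀ '' Sq = CD ∧ H₀ '' SqI = OD ∧
    (∀ x ∈ Icc (-1 : ℝ) 1, H₀ (x + Complex.I) = cexpi ((a + b) / 2 - x * (b - a) / 2)) ∧
    (∀ x ∈ Icc (-1 : ℝ) 1, H₀ (x - Complex.I) = cexpi ((c + d) / 2 + x * (d - c) / 2)) ∧
    H₀ '' {z | |z.re| ≤ 1 ∧ z.im = 1} = carc a b ∧ H₀ '' {z | |z.re| ≤ 1 ∧ z.im = -1} = carc c d ∧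
    H₀ '' SqA = carc a b ∪ carc c d ∧ H₀ '' SqO = oarc a b ∪ oarc c d ∧
    H₀ '' SqF = UC \ (oarc a b ∪ oarc c d) ∧ H₀ '' (Sq \ SqI) = UC

/-- BDT. A disc attached along two arcs as a band. Needs: MONO, BAND.

`H = e ∘ H₀`. `q` is injective and continuous on the compact spheres, so
`ζ₁ x = q⁻¹ (H (x + i))` is continuous and injective on `[-1, 1]` with values in `sphere c₁ r₁`;
MONO (1) gives `θ₁`. Same for `θ₂`. -/
def St_BDT : Prop := ∀ (X : Type) [TopologicalSpace X] [T2Space X] (q e : ℂ → X) (c₁ c₂ : ℂ)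
  (r₁ r₂ a b c d : ℝ), a < b → b < c → c < d → d < a + 2 * Real.pi → 0 < r₁ → 0 < r₂ →
  ContinuousOn e CD → InjOn e CD → ContinuousOn q (sphere c₁ r₁) → InjOn q (sphere c₁ r₁) →
  ContinuousOn q (sphere c₂ r₂) → InjOn q (sphere c₂ r₂) →
  e '' carc a b ⊆ q '' sphere c₁ r₁ → e '' carc c d ⊆ q '' sphere c₂ r₂ →
  ∃ (H : ℂ → X) (θ₁ θ₂ : ℝ → ℝ), ContinuousOn H Sq ∧ InjOn H Sq ∧ H '' Sq = e '' CD ∧
    H '' SqA = e '' (carc a b ∪ carc c d) ∧ H '' SqO = e '' (oarc a b ∪ oarc c d) ∧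
    H '' SqF = e '' (UC \ (oarc a b ∪ oarc c d)) ∧
    ContinuousOn θ₁ (Icc (-1) 1) ∧ ContinuousOn θ₂ (Icc (-1) 1) ∧
    (StrictMonoOn θ₁ (Icc (-1) 1) ∨ StrictAntiOn θ₁ (Icc (-1) 1)) ∧
    (StrictMonoOn θ₂ (Icc (-1) 1) ∨ StrictAntiOn θ₂ (Icc (-1) 1)) ∧
    (∀ x ∈ Icc (-1 : ℝ) 1, H (x + Complex.I) = q (c₁ + r₁ * cexpi (θ₁ x))) ∧
    (∀ x ∈ Icc (-1 : ℝ) 1, H (x - Complex.I) = q (c₂ + r₂ * cexpi (θ₂ x)))

/-- ANG. Moving one arc or two arcs on a circle. Needs: nothing.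

(2) Let `[s₁, t₁]` be the range of `θ₁` on `[-1, 1]` (`t₁ - s₁ < 2 π` by injectivity of
`cexpi ∘ θ₁`), and let `[s₂, t₂]` be the range of `θ₂`, after adding a multiple of `2 π` such that it
lies in `(t₁, s₁ + 2 π)` (it is connected and avoids `[s₁, t₁] + 2 π ℤ`). The same for `α₁`, `α₂`:
`[s₁', t₁']`, `[s₂', t₂']`. Let `g : ℝ → ℝ` be the increasing homeomorphism with
`g (t + 2 π) = g t + 2 π`, `g = α_j ∘ θ_j⁻¹` on `[s_j, t_j]` (increasing because `θ_j` and `α_j` are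
monotone in the same sense), linear on `[t₁, s₂]` and on `[t₂, s₁ + 2 π]`. For `0 ≤ r ≤ k` put
`Φ (c + r cexpi t) = c + r cexpi ((1 - λ) g t + λ t)` with `λ = 0` for `r ≤ h` and
`λ = (r - h)/(k - h)` for `r ≥ h`, and `Φ = id` for `r ≥ k`. It is well defined, continuous (at `c`
because it preserves the distance from `c`; elsewhere use local lifts of the angle), bijective on
each circle about `c` (the lift is an increasing homeomorphism commuting with `t ↦ t + 2 π`), and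
closed (proper). (1) is the same with one arc (`g` linear on `[t₁, s₁ + 2 π]`). -/
def St_ANG : Prop :=
  (∀ (c : ℂ) (h k : ℝ), 0 < h → h < k → ∀ θ₁ α₁ : ℝ → ℝ,
    ContinuousOn θ₁ (Icc (-1) 1) → ContinuousOn α₁ (Icc (-1) 1) →
    ((StrictMonoOn θ₁ (Icc (-1) 1) ∧ StrictMonoOn α₁ (Icc (-1) 1)) ∨
      (StrictAntiOn θ₁ (Icc (-1) 1) ∧ StrictAntiOn α₁ (Icc (-1) 1))) →
    InjOn (fun x => cexpi (θ₁ x)) (Icc (-1) 1) → InjOn (fun x => cexpi (α₁ x)) (Icc (-1) 1) →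
    ∃ Φ : ℂ ≃ₜ ℂ, (∀ z, z ∉ ball c k → Φ z = z) ∧ (∀ z, ‖Φ z - c‖ = ‖z - c‖) ∧
      ∀ x ∈ Icc (-1 : ℝ) 1, Φ (c + h * cexpi (θ₁ x)) = c + h * cexpi (α₁ x)) ∧
  (∀ (c : ℂ) (h k : ℝ), 0 < h → h < k → ∀ θ₁ α₁ θ₂ α₂ : ℝ → ℝ,
    ContinuousOn θ₁ (Icc (-1) 1) → ContinuousOn α₁ (Icc (-1) 1) →
    ContinuousOn θ₂ (Icc (-1) 1) → ContinuousOn α₂ (Icc (-1) 1) →
    ((StrictMonoOn θ₁ (Icc (-1) 1) ∧ StrictMonoOn α₁ (Icc (-1) 1)) ∨
      (StrictAntiOn θ₁ (Icc (-1) 1) ∧ StrictAntiOn α₁ (Icc (-1) 1))) →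
    ((StrictMonoOn θ₂ (Icc (-1) 1) ∧ StrictMonoOn α₂ (Icc (-1) 1)) ∨
      (StrictAntiOn θ₂ (Icc (-1) 1) ∧ StrictAntiOn α₂ (Icc (-1) 1))) →
    InjOn (fun x => cexpi (θ₁ x)) (Icc (-1) 1) → InjOn (fun x => cexpi (α₁ x)) (Icc (-1) 1) →
    InjOn (fun x => cexpi (θ₂ x)) (Icc (-1) 1) → InjOn (fun x => cexpi (α₂ x)) (Icc (-1) 1) →
    (∀ x ∈ Icc (-1 : ℝ) 1, ∀ y ∈ Icc (-1 : ℝ) 1, cexpi (θ₁ x) ≠ cexpi (θ₂ y)) →
    (∀ x ∈ Icc (-1 : ℝ) 1, ∀ y ∈ Icc (-1 : ℝ) 1, cexpi (α₁ x) ≠ cexpi (α₂ y)) →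
    ∃ Φ : ℂ ≃ₜ ℂ, (∀ z, z ∉ ball c k → Φ z = z) ∧ (∀ z, ‖Φ z - c‖ = ‖z - c‖) ∧
      (∀ x ∈ Icc (-1 : ℝ) 1, Φ (c + h * cexpi (θ₁ x)) = c + h * cexpi (α₁ x)) ∧
      ∀ x ∈ Icc (-1 : ℝ) 1, Φ (c + h * cexpi (θ₂ x)) = c + h * cexpi (α₂ x))

/-- CONE. Extending a parametrisation of the boundary of a convex disc. Needs: INTD, RADH (of Part
I), MONO.

Let `k` be a homeomorphism of the plane with `k '' E = CD`, `k '' frontier E = UC` (Mathlib
`exists_homeomorph_image_eq`, GaugeRescale). `b = β ∘ k⁻¹` is continuous and injective from `UC` to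
`UC`; let `c` be its extension from RADH (it preserves norms). `κ = c ∘ k`; `κ '' E = CD` because `c`
is a homeomorphism of the plane preserving norms. -/
def St_CONE : Prop := ∀ (E : Set ℂ) (β : ℂ → ℂ), IsCompact E → Convex ℝ E → (interior E).Nonempty →
  ContinuousOn β (frontier E) → InjOn β (frontier E) → MapsTo β (frontier E) UC →
  ∃ κ : ℂ ≃ₜ ℂ, κ '' E = CD ∧ κ '' frontier E = UC ∧ EqOn κ β (frontier E)

/-! ## Free boundary -/

/-- BCN. The circles of the free boundary. Needs: CFIN, FREE.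

(1) `q` is injective on `C.FreeBd` and `q x = q y`, `x ∈ C.FreeBd` implies `x = y` (CFIN (7); only
centres with label `O` are involved, which do not occur in `Rel`). The images of the circles are
compact, pairwise disjoint, finitely many; a preconnected nonempty set in their union lies in one
of them. (2), (3), (4) from (1): one circle is connected; if there are two or more, `q '' sphere ..`
and the union of the others separate. (5) FREE (1) with `C' = single (1/2) O`: its domain is `Ann`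
and its relation is equality, so `q` is injective; conversely `single (1/2) O` is `Ok`.
(6) Compose with the homeomorphism `z ↦ ((2 ‖z‖ + 1) / (3 ‖z‖)) z` of `Ann` onto
`{1/2 ≤ ‖z‖ ≤ 1}`. -/
def St_BCN : Prop :=
  (∀ (X : Type) [TopologicalSpace X] [T2Space X] (C : Conf) (L : Set X) (q : ℂ → X), C.Ok →
    C.F = ∅ → Pres C L q → InjOn q C.FreeBd ∧
    ∀ T ⊆ q '' C.FreeBd, T.Nonempty → IsPreconnected T →
      ∃ i ∈ C.I, C.lab i = Lab.O ∧ T ⊆ q '' sphere (i : ℂ) (C.rad i / 2)) ∧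
  (∀ (X : Type) [TopologicalSpace X] [T2Space X] (t p : ℕ) (L Bd : Set X) (u : ℂ → X),
    FinPres t p 1 L Bd u → IsConnected Bd) ∧
  (∀ (X : Type) [TopologicalSpace X] [T2Space X] (t p o : ℕ) (L Bd : Set X) (u : ℂ → X),
    FinPres t p (o + 2) L Bd u → ¬ IsPreconnected Bd) ∧
  (∀ (X : Type) [TopologicalSpace X] (t p : ℕ) (L Bd : Set X) (u : ℂ → X),
    FinPres t p 0 L Bd u → Bd = ∅) ∧
  (∀ (X : Type) [TopologicalSpace X] [T2Space X] (W Bd : Set X) (u : ℂ → X),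
    IsAnn W Bd u ↔ FinPres 0 0 1 W Bd u) ∧
  (∀ (X : Type) [TopologicalSpace X] [T2Space X] (q : ℂ → X),
    ContinuousOn q {z | 1 / 2 ≤ ‖z‖ ∧ ‖z‖ ≤ 1} → InjOn q {z | 1 / 2 ≤ ‖z‖ ∧ ‖z‖ ≤ 1} →
    IsAnn (q '' {z | 1 / 2 ≤ ‖z‖ ∧ ‖z‖ ≤ 1}) (q '' sphere 0 (1 / 2)) q)

/-! ## The local steps -/

/-- LA. A disc attached to an annulus along the whole circle. Needs: MONO, RADH (of Part I).

Let `q` be as in `IsAnn`. `b z = 4 q⁻¹ (e z)` maps `UC` to `UC`, it is continuous and injective, so it is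
onto (MONO (2)): `e '' UC = Bd`. Let `c` be its extension from RADH. `Q = q` on `Ann`,
`Q z = e (c⁻¹ (4 z))` for `‖z‖ ≤ 1/4`; for `‖z‖ = 1/4` both are equal. `Q` is continuous and injective on
`CD`: the configuration without centres. -/
def St_LA : Prop := ∀ (X : Type) [TopologicalSpace X] [T2Space X] (W Bd : Set X) (u e : ℂ → X),
  IsAnn W Bd u → AttTo W Bd e UC → e '' UC = Bd ∧ FinPres 0 0 0 (W ∪ e '' CD) ∅ u

/-- LB. A disc attached to an annulus along an arc. Needs: MONO, ANG, CONE, INTD, PDS.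

Let `q` be as in `IsAnn`. `ζ t = q⁻¹ (e (cexpi t))` on `[a, b]`; MONO (1): `θ`, with
`ζ t = (1/4) cexpi (θ t)`. Let `α` be affine from `[a, b]` onto `[-π/2, π/2]`, monotone in the same
sense as `θ`. ANG (1) (with `h = 1/4`, `k = 1`, after the affine substitution `[-1,1] → [a,b]`) gives
`Φ`; `q₁ = q ∘ Φ⁻¹` has all properties of `q`, and `e (cexpi t) = q₁ ((1/4) cexpi (α t))`. Let
`R = {‖z‖ ≤ 1/4, 0 ≤ re z}` (convex). `β` on the frontier of `R`: `β ((1/4) cexpi s) = cexpi (α⁻¹ s)` for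
`|s| ≤ π/2`, and `β (i y)`, `|y| ≤ 1/4`, runs through the complementary arc, linearly in `y` (if `α` is
increasing: `cexpi (s)` with `s` going from `b` to `a + 2 π` while `y` goes from `1/4` to `-1/4`; if it
is decreasing: from `a` to `b - 2 π`). CONE: `κ`. `Q = q₁` on `Ann`, `Q = e ∘ κ` on `R`: continuous and
injective on `Ann ∪ R` (`e '' CD ∩ W = e '' carc a b = q₁ '' (Ann ∩ R)`). Let
`E = {‖z‖ ≤ 1/4, re z ≤ 0}`, convex, so `IsDisc`; PDS (2) for the unit disc: `Θ` with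
`Θ '' closedBall 0 (1/4) = E`, also for the interiors (`interior E = {‖z‖ < 1/4, re z < 0}`), so
`Θ '' Ann = Ann ∪ R`. Take `Q ∘ Θ`. The inner circle goes to `Q '' frontier E`, the union of the left
half of the circle (`= Bd \ e '' oarc a b`) and of the segment (`= e '' (UC \ oarc a b)`). -/
def St_LB : Prop := ∀ (X : Type) [TopologicalSpace X] [T2Space X] (W Bd : Set X) (u e : ℂ → X)
  (a b : ℝ), IsAnn W Bd u → a < b → b < a + 2 * Real.pi → AttTo W Bd e (carc a b) →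
  IsAnn (W ∪ e '' CD) ((Bd ∪ e '' UC) \ e '' oarc a b) u

/-- LU. An untwisted band attached to one circle. Needs: ANG, INTD, PDS.

ANG (2) (`c = 0`, `h = 1/4`, `k = 1`) with `α₁ x = π/2 - π x/4`, `α₂ x = -π/2 + π x/4`: replacing `q` by
`q ∘ Φ⁻¹` we may assume `H (x + i) = q ((1/4) cexpi (π/2 - π x/4))`,
`H (x - i) = q ((1/4) cexpi (-π/2 + π x/4))` (the two arcs are disjoint because `H` is injective). Let
`R = {‖z‖ ≤ 1/4, |re z| ≤ √2/8}`. For `z = X + i Y` in `R` put `x = (4/π) arcsin (4 X)`,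
`y = Y / √(1/16 - X²)`: a homeomorphism of `R` onto `Sq`. `Q = q` on `Ann`, `Q z = H (x + i y)` on `R`:
they agree on `‖z‖ = 1/4`, and `Q` is continuous and injective on `Ann ∪ R`
(`H '' Sq ∩ q '' Ann = H '' SqA`). The complement of `Ann ∪ R` in `CD` is the union of the interiors of
`E_± = {‖z‖ ≤ 1/4, ± re z ≥ √2/8}` (convex). PDS (2) in the disjoint discs `ball (1/2) (49/100)` and
`ball (-1/2) (49/100)` (which lie in `OD`) gives a homeomorphism `Θ` (composition of two), identity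
off `OD`, which maps `closedBall (±1/2) (1/8)` onto `E_±` and the interiors onto the interiors.
`Q ∘ Θ` presents the union by the configuration with the centres `±1/2`, radii `1/4`, labels `O`. The
free boundary is `Q '' (frontier E₊ ∪ frontier E₋)`: the circle without the two open arcs, and the
chords `re z = ±√2/8`, i.e. `H '' SqF`. -/
def St_LU : Prop := ∀ (X : Type) [TopologicalSpace X] [T2Space X] (q H : ℂ → X) (θ₁ θ₂ : ℝ → ℝ),
  ContinuousOn q Ann → InjOn q Ann → ContinuousOn H Sq → InjOn H Sq →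
  H '' Sq ∩ q '' Ann = H '' SqA → ContinuousOn θ₁ (Icc (-1) 1) → ContinuousOn θ₂ (Icc (-1) 1) →
  StrictAntiOn θ₁ (Icc (-1) 1) → StrictMonoOn θ₂ (Icc (-1) 1) →
  (∀ x ∈ Icc (-1 : ℝ) 1, H (x + Complex.I) = q (1 / 4 * cexpi (θ₁ x))) →
  (∀ x ∈ Icc (-1 : ℝ) 1, H (x - Complex.I) = q (1 / 4 * cexpi (θ₂ x))) →
  FinPres 0 0 2 (q '' Ann ∪ H '' Sq) ((q '' sphere 0 (1 / 4) \ H '' SqO) ∪ H '' SqF) q

/-- LT. A twisted band attached to one circle. Needs: CFIN, ANG, INTD, UNI, MEX, HOLE.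

As in LU we may assume (`α₁ x = π/2 - π x/4`, `α₂ x = -π/2 - π x/4`)
`H (x + i) = q ((1/4) cexpi (π/2 - π x/4))` and `H (x - i) = q (-(1/4) cexpi (π/2 - π x/4))`.
Let `C₁ = single (1/2) P` (domain `Ann`, opposite points of `‖z‖ = 1/4` identified) and `M, q_M` from MEX.
Let `V = {z | 1/4 ≤ ‖z‖ < 1/2, |im z| < re z}` and `Ω = Ann \ (V ∪ -V)` (compact). Define `Q` on `Ω`:
`Q z = q (((3 ‖z‖ - 1) / (2 ‖z‖)) z)` for `‖z‖ ≥ 1/2` (radial homeomorphism of `{1/2 ≤ ‖z‖ ≤ 1}` onto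
`Ann`); for `1/4 ≤ r ≤ 1/2`, `x ∈ [-1, 1]`: `Q (r cexpi (π/2 - π x/4)) = H (x + i (4 r - 1))`,
`Q (-r cexpi (π/2 - π x/4)) = H (x - i (4 r - 1))`. `Q` is well defined and continuous (two values for
`r = 1/2` agree), `Q '' Ω = q '' Ann ∪ H '' Sq`, and `Q z = Q w` iff `z = w` or (`‖z‖ = 1/4` and `w = -z`).
UNI on `Ω` for `q_M` and `Q`: `h` on `q_M '' Ω` with `h (q_M z) = Q z`.
HOLE for `M`, `C₁`, `L = univ`, `q_M` with the chart
`Φ w = q_M ((1/4 + s) cexpi t)` for `s ≥ 0`, `q_M (-(1/4 - s) cexpi t)` for `s ≤ 0`, where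
`s = (13/20) re w`, `t = (π/3) im w`: continuous, injective on `Sq` (the two parts lie in the sectors
`|arg z| ≤ π/3` and its opposite), `Φ '' SqI` is open, because its complement is the image of a compact
set (`{z ∈ Ann | ‖z‖ < 9/10, |arg z| < π/3}` and its opposite together are open in `Ann` and saturated);
`E = {|re w| ≤ 5/13, |im w| ≤ 3/4}`: `|s| ≤ 1/4`, `|t| ≤ π/4`, so `Φ '' interior E = q_M '' (V ∪ -V)`;
`c = 7/10`, `ρ = 1/100`. We get `q'` on the domain of `C₁.add c (2 ρ) O`, presenting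
`univ \ Φ '' interior E = q_M '' Ω`. `h ∘ q'` presents the union; on `UC` it is `h (q_M z) = Q z = q z`.
The free boundary is `h '' (Φ '' frontier E)`: `|s| = 1/4` gives the circle without the open arcs,
`|t| = π/4` gives `H '' SqF`. -/
def St_LT : Prop := ∀ (X : Type) [TopologicalSpace X] [T2Space X] (q H : ℂ → X) (θ₁ θ₂ : ℝ → ℝ),
  ContinuousOn q Ann → InjOn q Ann → ContinuousOn H Sq → InjOn H Sq →
  H '' Sq ∩ q '' Ann = H '' SqA → ContinuousOn θ₁ (Icc (-1) 1) → ContinuousOn θ₂ (Icc (-1) 1) →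
  StrictAntiOn θ₁ (Icc (-1) 1) → StrictAntiOn θ₂ (Icc (-1) 1) →
  (∀ x ∈ Icc (-1 : ℝ) 1, H (x + Complex.I) = q (1 / 4 * cexpi (θ₁ x))) →
  (∀ x ∈ Icc (-1 : ℝ) 1, H (x - Complex.I) = q (1 / 4 * cexpi (θ₂ x))) →
  FinPres 0 1 1 (q '' Ann ∪ H '' Sq) ((q '' sphere 0 (1 / 4) \ H '' SqO) ∪ H '' SqF) q

/-- LH. An untwisted band joining two circles: a handle. Needs: CFIN, ANG, INTD, UNI, MEX, HOLE.

ANG (1) in `ball (1/4) (3/16)` (`h = 1/16`, `k = 3/16`) with `α₁ x = π + π x/2`, and in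
`ball (-1/4) (3/16)` with `α₂ x = -π x/2`: we may assume `H (x + i) = q (1/4 + (1/16) cexpi (π + π x/2))`
and `H (x - i) = q (-1/4 + (1/16) cexpi (-π x/2))`, which is `q (-conj z)` for the point
`z = 1/4 + (1/16) cexpi (π + π x/2)`. Let `C₁ = single (1/2) T`: its domain is that of `pantsC`, and
the points `z` and `-conj z` of the two small circles are identified; `M, q_M` from MEX. Let
`V = {z | 1/16 ≤ |z - 1/4| < 1/8, re z > 1/4}`, `V' = -conj V`, `Ω = C₁.Dom \ (V ∪ V')` (compact). Define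
`Q` on `Ω`: `Q z = q z` if `|z - 1/4| ≥ 3/16` and `|z + 1/4| ≥ 3/16`;
`Q (1/4 + r w) = q (1/4 + (2 r - 3/16) w)` for `|w| = 1`, `1/8 ≤ r ≤ 3/16`, and symmetrically (with
`z ↦ -conj z`) at `-1/4`; for `1/16 ≤ r ≤ 1/8`, `x ∈ [-1, 1]`, `z = 1/4 + r cexpi (π + π x/2)`:
`Q z = H (x + i (16 r - 1))` and `Q (-conj z) = H (x - i (16 r - 1))`. `Q` is continuous,
`Q '' Ω = q '' pantsC.Dom ∪ H '' Sq`, and `Q z = Q w` iff `C₁.Rel z w`. UNI on `Ω`: `h (q_M z) = Q z`.
HOLE for `M` with `Φ w = q_M (1/4 + (1/16 + s) cexpi t)` for `s ≥ 0` and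
`q_M (-conj (1/4 + (1/16 - s) cexpi t))` for `s ≤ 0`, `s = re w / 4`, `t = (3 π/4) im w` (the first part
lies in the half plane `re z > 0` since `5/16 * √2/2 < 1/4`, and in `ball 0 1`),
`E = {|re w| ≤ 1/4, |im w| ≤ 2/3}` (`|s| ≤ 1/16`, `|t| ≤ π/2`, `Φ '' interior E = q_M '' (V ∪ V')`),
`c = 27/50`, `ρ = 1/200` (`1/2 + 2 ρ < c`, and `|c - 1/4| + ρ < 5/16`). Conclude as in LT. -/
def St_LH : Prop := ∀ (X : Type) [TopologicalSpace X] [T2Space X] (q H : ℂ → X) (θ₁ θ₂ : ℝ → ℝ),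
  ContinuousOn q pantsC.Dom → InjOn q pantsC.Dom → ContinuousOn H Sq → InjOn H Sq →
  H '' Sq ∩ q '' pantsC.Dom = H '' SqA →
  ContinuousOn θ₁ (Icc (-1) 1) → ContinuousOn θ₂ (Icc (-1) 1) →
  StrictMonoOn θ₁ (Icc (-1) 1) → StrictAntiOn θ₂ (Icc (-1) 1) →
  (∀ x ∈ Icc (-1 : ℝ) 1, H (x + Complex.I) = q (1 / 4 + 1 / 16 * cexpi (θ₁ x))) →
  (∀ x ∈ Icc (-1 : ℝ) 1, H (x - Complex.I) = q (-(1 / 4) + 1 / 16 * cexpi (θ₂ x))) →
  FinPres 1 0 1 (q '' pantsC.Dom ∪ H '' Sq) ((q '' pantsC.FreeBd \ H '' SqO) ∪ H '' SqF) q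

/-- LD. A disc attached to an annulus along two arcs. Needs: BDT, LU, LT.

BDT with `c₁ = c₂ = 0`, `r₁ = r₂ = 1/4`. Replacing `H` by `z ↦ H (-conj z)` (and `θ_j x` by
`θ_j (-x)`) if necessary we may assume that `θ₁` is decreasing. LU if `θ₂` is increasing, LT if it is
decreasing. `(Bd \ H '' SqO) ∪ H '' SqF = (Bd ∪ e '' UC) \ e '' (oarc a b ∪ oarc c d)`. -/
def St_LD : Prop := ∀ (X : Type) [TopologicalSpace X] [T2Space X] (W Bd : Set X) (u e : ℂ → X)
  (a b c d : ℝ), IsAnn W Bd u → a < b → b < c → c < d → d < a + 2 * Real.pi →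
  AttTo W Bd e (carc a b ∪ carc c d) →
  FinPres 0 0 2 (W ∪ e '' CD) ((Bd ∪ e '' UC) \ e '' (oarc a b ∪ oarc c d)) u ∨
  FinPres 0 1 1 (W ∪ e '' CD) ((Bd ∪ e '' UC) \ e '' (oarc a b ∪ oarc c d)) u

/-- SONE. Two arcs and only one free circle. Needs: CFIN, BCN, RED, LD.

Let `C, q` be as in `FinPres`; there is exactly one centre `i` with label `O`. RED (1):
`Bd = B₁ = q₁ '' sphere 0 (1/4)`, `W` is an annulus (`IsAnn W B₁ u₁`), and `e` is attached to `W` along the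
two arcs (`e '' CD ∩ W = e '' CD ∩ L`, because `e '' CD ∩ L ⊆ Bd ⊆ W`). LD and the replacement property;
`(W ∪ e '' CD) ∩ L₀ ⊆ u₁ '' UC` because `e '' CD ∩ L₀ ⊆ B₁ ∩ L₀ = ∅`. -/
def St_SONE : Prop := ∀ (X : Type) [TopologicalSpace X] [T2Space X] (t p : ℕ) (L Bd : Set X)
  (u e : ℂ → X) (a b c d : ℝ), FinPres t p 1 L Bd u → a < b → b < c → c < d →
  d < a + 2 * Real.pi → AttTo L Bd e (carc a b ∪ carc c d) →
  FinPres t p 2 (L ∪ e '' CD) ((Bd ∪ e '' UC) \ e '' (oarc a b ∪ oarc c d)) u ∨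
  FinPres t (p + 1) 1 (L ∪ e '' CD) ((Bd ∪ e '' UC) \ e '' (oarc a b ∪ oarc c d)) u

/-- LK. A twisted band joining two circles: two crosscaps. Needs: ANG, BAND, INTD, PDS, BCN, LD,
SONE.

ANG (1) at both holes (as in LH) with `α₁ x = π x/4`, `α₂ x = π + π x/4`: we may assume
`H (x + i) = q (1/4 + (1/16) cexpi (π x/4))`, `H (x - i) = q (-1/4 - (1/16) cexpi (π x/4))`. Let
`St` be the closed `1/16`-neighbourhood of the segment `[-1/4, 1/4]` (convex), so `IsDisc St`, and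
PDS (2) gives `Θ`, identity off `OD`, mapping `closedBall 0 (1/4)` onto `St`, with interiors. So
`A = q '' (CD \ interior St)` is an annulus: `IsAnn A (q '' frontier St) q` (use `q ∘ Θ`). Let
`S₀ = {|re z| ≤ 1/4, |im z| ≤ 1/16}` minus the two open holes, parametrised by
`σ (x + i y) = x (1/4 - (1/16) √(1 - y²)) + i y/16`, `σ : Sq → S₀`; `q '' pantsC.Dom = A ∪ q '' S₀`,
`A ∩ q '' S₀ = q '' (σ '' SqA)`.
Let `H₀` be from BAND for `0, π/2, π, 3π/2`. Step 1: `e₁ = H ∘ H₀⁻¹` is attached to `A` along two arcs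
(`H '' Sq ∩ A = H '' SqA`, which lies in `q '' frontier St`: outer quarters of the small circles). LD:
`A ∪ H '' Sq` is `FinPres 0 0 2` or `FinPres 0 1 1`, with free boundary
`Bd₁ = (q '' frontier St \ H '' SqO) ∪ H '' SqF`. `Bd₁` is connected: it is the union of the upper path
(from `1/4 + (1/16) cexpi (π/4)` over the top to `-1/4 - (1/16) cexpi (-π/4)`), of the lower path (its
negative), and of the two free sides of the band: the side `re = 1` joins
`H (1 + i) = q (1/4 + (1/16) cexpi (π/4))` (upper path) to `H (1 - i) = q (-1/4 - (1/16) cexpi (π/4))`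
(lower path). By BCN (3) it is `FinPres 0 1 1`.
Step 2: `e₂ = q ∘ σ ∘ H₀⁻¹` is attached to `A ∪ H '' Sq` along two arcs (`S₀` does not meet the outer
quarters, so `q '' S₀ ∩ H '' Sq = ∅`). SONE: the union is `FinPres 0 1 2` or `FinPres 0 2 1`, with free
boundary `(Bd₁ \ q '' (σ '' SqO)) ∪ q '' (σ '' SqF) = (q '' pantsC.FreeBd \ H '' SqO) ∪ H '' SqF`. This is
connected (two circles minus open arcs, joined by `H '' SqF`), so BCN (3) excludes the first
case. -/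
def St_LK : Prop := ∀ (X : Type) [TopologicalSpace X] [T2Space X] (q H : ℂ → X) (θ₁ θ₂ : ℝ → ℝ),
  ContinuousOn q pantsC.Dom → InjOn q pantsC.Dom → ContinuousOn H Sq → InjOn H Sq →
  H '' Sq ∩ q '' pantsC.Dom = H '' SqA →
  ContinuousOn θ₁ (Icc (-1) 1) → ContinuousOn θ₂ (Icc (-1) 1) →
  StrictMonoOn θ₁ (Icc (-1) 1) → StrictMonoOn θ₂ (Icc (-1) 1) →
  (∀ x ∈ Icc (-1 : ℝ) 1, H (x + Complex.I) = q (1 / 4 + 1 / 16 * cexpi (θ₁ x))) →
  (∀ x ∈ Icc (-1 : ℝ) 1, H (x - Complex.I) = q (-(1 / 4) + 1 / 16 * cexpi (θ₂ x))) →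
  FinPres 0 2 1 (q '' pantsC.Dom ∪ H '' Sq) ((q '' pantsC.FreeBd \ H '' SqO) ∪ H '' SqF) q

/-- LP. A disc attached to two different circles of a pair of pants. Needs: BDT, LH, LK.

We may assume that `e '' carc a b` is in the right circle (about `1/4`): otherwise replace
`(a, b, c, d)` by `(c, d, a + 2 π, b + 2 π)`. BDT with `c₁ = 1/4`, `c₂ = -1/4`, `r = 1/16`. Replacing `H` by
`z ↦ H (-conj z)` we may assume that `θ₁` is increasing. LH if `θ₂` is decreasing, LK if it is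
increasing. -/
def St_LP : Prop := ∀ (X : Type) [TopologicalSpace X] [T2Space X] (q e : ℂ → X)
  (a b c d : ℝ), ContinuousOn q pantsC.Dom → InjOn q pantsC.Dom →
  a < b → b < c → c < d → d < a + 2 * Real.pi →
  AttTo (q '' pantsC.Dom) (q '' pantsC.FreeBd) e (carc a b ∪ carc c d) →
  ((e '' carc a b ⊆ q '' sphere (1 / 4) (1 / 16) ∧ e '' carc c d ⊆ q '' sphere (-(1 / 4)) (1 / 16)) ∨
    (e '' carc a b ⊆ q '' sphere (-(1 / 4)) (1 / 16) ∧
      e '' carc c d ⊆ q '' sphere (1 / 4) (1 / 16))) →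
  FinPres 1 0 1 (q '' pantsC.Dom ∪ e '' CD)
    ((q '' pantsC.FreeBd ∪ e '' UC) \ e '' (oarc a b ∪ oarc c d)) q ∨
  FinPres 0 2 1 (q '' pantsC.Dom ∪ e '' CD)
    ((q '' pantsC.FreeBd ∪ e '' UC) \ e '' (oarc a b ∪ oarc c d)) q

/-- STEP. Attaching a disc to a compact piece. Needs: CFIN, BCN, RED, LA, LB, LD, LP.

Let `C, q` be as in `FinPres`. One arc or the full circle: `e '' S` is connected and nonempty, so by
BCN (1) it lies in one circle `q '' sphere i (rad i / 2)`. RED (1) for `i`: `IsAnn W B₁ u₁`, and `e` is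
attached to `W` along `S` (`e '' CD ∩ W = e '' CD ∩ L = e '' S`, because `e '' S ⊆ B₁ ⊆ W`). LB resp. LA
gives a presentation of `W ∪ e '' CD`, and the replacement property one of `L₀ ∪ W ∪ e '' CD = L ∪ e '' CD`
(`e '' CD ∩ L₀ ⊆ B₁ ∩ L₀ = ∅`). Boundary: `(Bd \ B₁) ∪ ((B₁ ∪ e '' UC) \ e '' O) = (Bd ∪ e '' UC) \ e '' O`,
because `e '' O ⊆ B₁`; for the full circle `B₁ = e '' UC` by LA.
Two arcs: each of them lies in one circle; if it is the same circle for both, RED (1) and LD; if the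
circles are different (centres `i ≠ j`), RED (2) and LP. -/
def St_STEP : Prop := ∀ (X : Type) [TopologicalSpace X] [T2Space X] (t p o : ℕ) (L Bd : Set X)
  (u e : ℂ → X) (S O : Set ℂ), FinPres t p o L Bd u → AttSet S O → S.Nonempty →
  AttTo L Bd e S → ∃ t' p' o' : ℕ, FinPres t' p' o' (L ∪ e '' CD) ((Bd ∪ e '' UC) \ e '' O) u

/-! ## Dyck's theorem -/

/-- The crosscap at `-1/2` and the free hole (radius `1/8`) at `1/2`. -/
noncomputable def slC : Conf where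
  F := ∅
  I := {-(1 / 2), 1 / 2}
  rad := fun _ => 1 / 4
  lab := fun x => if x < 0 then Lab.P else Lab.O

/-- SLD. A free hole slides through a crosscap and comes back reflected. Needs: CFIN, CCONG, POL,
KLEE, FREE, UNI, MEX.

Let `C₁ = single (1/2) P` (domain `Ann`), `M, q_M` from MEX, `c = 7/10`, `ρ = 1/100`, `C₂ = C₁.add c (2 ρ) O`
(`Ok`, domain `Ann \ ball c ρ`). By FREE (2) with `-1/2 ↦ 0`, `1/2 ↦ c` it is enough to prove the statement
for `C₂` and the circle `c + ρ cexpi t` (go back with the inverse homeomorphism). UNI on the compact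
`Ω = C₂.Dom` (the relations of `C₁` and `C₂` agree there): `Ψ : q_M '' Ω → L`, `Ψ (q_M z) = q z`,
injective, continuous, onto `L`.
For `1/16 ≤ |w| ≤ 1` put `q̂ w = q_M w` if `|w| ≥ 1/4`, `q̂ w = q_M (-1 / (16 conj w))` if `|w| ≤ 1/4`:
continuous (for `|w| = 1/4` one has `1 / (16 conj w) = w` and `q_M (-w) = q_M w`), and for `w`, `w'` with
positive real part `q̂ w = q̂ w'` only if `w = w'`. Let `N = ball (2/5) (33/100)`; its closure is in
`{1/16 < |w| < 1, re w > 0}`. Put `c' = c / (16 (c² - ρ²))`, `ρ' = ρ / (16 (c² - ρ²))`; the closed balls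
`closedBall c ρ`, `closedBall c' ρ'` lie in `N`. KLEE (in the disc `N`, after an affine
transformation; one centre, no ends) gives a homeomorphism `κ` of the plane, identity off `N`, with
`κ (c + ρ ζ) = c' + ρ' ζ` for `|ζ| ≤ 1`. `G₁ (q̂ w) = q̂ (κ w)` for `w ∈ closure N`, `G₁ = id` on
`M \ q̂ '' N` is a homeomorphism of `M` (`q̂ '' N` is open: its complement is the image of a compact
subset of `Ann`). `G₂ (q_M z) = q_M (κ₂ z)` with `κ₂` from POL (`c = 0`, `a = b = 9/10`, `R = 1`, `θ = π`):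
`κ₂ z = -z` for `|z| ≤ 9/10`. `G = G₂ ∘ G₁`. For `|ζ| ≤ 1`:
`G (q_M (c + ρ ζ)) = q_M (1 / (16 conj (c' + ρ' ζ))) = q_M ((c² - ρ²) / (c + ρ conj ζ))`, and
`(c² - ρ²) / (c + ρ conj ζ)` lies in `closedBall c ρ` (on the sphere for `|ζ| = 1`, and this map is an
involution of `closedBall c ρ`): for `|ζ| = 1` it is `c + ρ η ζ` with
`η ζ = - conj ζ (c + ρ ζ) / (c + ρ conj ζ)`, and `η (cexpi t) = cexpi (g t)` with
`g t = π - t + 2 arg (c + ρ cexpi t)`. `arg (c + ρ cexpi t) = arctan (ρ sin t / (c + ρ cos t))` is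
Lipschitz in `t` with a constant `< 1/2` (derivative `ρ (ρ + c cos t) / (c² + ρ² + 2 c ρ cos t)`), so `g`
is strictly decreasing. `G` is a homeomorphism of `M` which maps `q_M '' Ω` onto itself, and
`q' = Ψ ∘ G⁻¹ ∘ q_M` presents `L` by `C₂`, `q' = q` on `UC`, and
`q' (c + ρ cexpi (g t)) = Ψ (q_M (c + ρ cexpi t)) = q (c + ρ cexpi t)`. -/
def St_SLD : Prop := ∀ (X : Type) [TopologicalSpace X] [T2Space X] (L : Set X) (q : ℂ → X),
  Pres slC L q → ∃ (q' : ℂ → X) (g : ℝ → ℝ), Pres slC L q' ∧ (∀ z ∈ UC, q' z = q z) ∧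
    Continuous g ∧ StrictAnti g ∧
    ∀ t : ℝ, q (1 / 2 + 1 / 8 * cexpi t) = q' (1 / 2 + 1 / 8 * cexpi (g t))

/-- DYCK. Handle and crosscap equal three crosscaps. Needs: CFIN, CCONG, REF, FREE, CUT, PASTE, RED,
MONO, BAND, BCN, LA, LK, SLD.

(1) By FREE (1), `L` is presented by `q` and the configuration with the centres `-1/2` (`P`, radius
`1/4`) and `1/2` (`T`, radius `1/4`): the holes of `T` have centres `3/8`, `5/8` and radius `1/32`. Let
`W = q '' (Dom \ (ball (3/8) (3/64) ∪ ball (5/8) (3/64)))`: it is presented by `q` and the configuration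
`C_W` with the centres `-1/2` (`P`, `1/4`), `3/8` and `5/8` (`O`, radii `3/32`). The band: for
`|x| ≤ 1`, `0 ≤ y ≤ 1` let `H (x + i y) = q (5/8 + ((2 + y)/64) cexpi (π + π x/2))` and
`H (x - i y) = q (3/8 + ((2 + y)/64) cexpi (-π x/2))` (for `y = 0` the two points are related), and the
cap `H' (x + i y) = q (5/8 + ((2 + y)/64) cexpi (π x/2))`,
`H' (x - i y) = q (3/8 + ((2 + y)/64) cexpi (π - π x/2))`. `H`, `H'` are continuous and injective on `Sq`,
`H '' Sq ∩ W = H '' SqA`, `H' '' Sq ∩ (W ∪ H '' Sq) = H' '' (Sq \ SqI)`, `L = W ∪ H '' Sq ∪ H' '' Sq`.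
(2) Let `C_V` be the configuration obtained with REF from the centres `-1/2` and `1/2` (labels `O`,
radii `1/4`) with `J = {1/2}`, `D = slC`: its centres are `-1/2` (`O`), `3/8` (`P`, radius `1/16`), `5/8`
(`O`, radius `1/16`), and `closedBall (1/2) (1/4)` is a slot with content `slC`. FREE (2): the
homeomorphism for `C_W → C_V` with `3/8 ↦ -1/2`, `5/8 ↦ 5/8`, `-1/2 ↦ 3/8`. So `W` is presented by some
`q_V` and `C_V`, with `q_V (-1/2 + (1/8) z) = q (3/8 + (3/64) z)`,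
`q_V (5/8 + (1/32) z) = q (5/8 + (3/64) z)` for `z ∈ UC`. CUT, SLD and PASTE (`J = {1/2}`): `q_V'` presents `W`
by `C_V` with `q_V' = q_V` outside `ball (1/2) (1/4)` and on `UC`, and
`q_V (5/8 + (1/32) cexpi t) = q_V' (5/8 + (1/32) cexpi (g t))`, `g` strictly decreasing. So
`H (x + i) = q_V' (5/8 + (1/32) cexpi (g (π + π x/2)))` and
`H (x - i) = q_V' (-1/2 + (1/8) cexpi (-π x/2))`: both angles are strictly decreasing in `x`.
(3) RED (2) for `C_V, q_V'` and the centres `i = -1/2`, `j = 5/8`: `W = L₀ ∪ W₁`, `W₁ = q₁ '' pantsC.Dom`; LK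
for `q₁` and `z ↦ H (-conj z)` (angles now increasing): `W₁ ∪ H '' Sq` is `FinPres 0 2 1`, and the
replacement property gives `FinPres 0 3 1 (W ∪ H '' Sq) Bd' u` with
`Bd' = ((q_V' '' FreeBd) \ H '' SqO) ∪ H '' SqF`. (4) The cap, parametrised by `e = H' ∘ H₀⁻¹` (BAND),
is attached along the full circle, which lies in `Bd'` (and is equal to it): as in STEP (BCN (1),
RED (1), LA) we get `FinPres 0 3 0 L ∅ u`. -/
def St_DYCK : Prop := ∀ (X : Type) [TopologicalSpace X] [T2Space X] (L Bd : Set X) (u : ℂ → X),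
  FinPres 1 1 0 L Bd u → FinPres 0 3 0 L Bd u

/-- SUB. Substitution in slots. Needs: CFIN, CUT, PASTE.

CUT for every slot, the hypothesis `Eqv` applied to it, and PASTE with
`L' j = q '' (C.Dom ∩ closedBall j (s j))`. Finiteness: if `A` is compact, `A ∩ L` is compact, so its
preimage lies in a compact `B ⊆ C.Dom`, and `B` meets only finitely many `closedBall j (s j)` (an
accumulation point would be in `F`, by compactness of `F ∪ J`; the radii `s j` tend to `0` because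
the balls are disjoint). The union of the pieces is `L`. -/
def St_SUB : Prop := ∀ (X : Type) [TopologicalSpace X] [T2Space X] (C C' : Conf), C.Ok → C'.Ok →
  C'.F = C.F → ∀ (J : Set ℝ) (s : ℝ → ℝ), IsCompact (C.F ∪ J) →
  (∀ j ∈ J, C.Slot j (s j) ∧ C'.Slot j (s j)) →
  (∀ j ∈ J, ∀ k ∈ J, j ≠ k → s j + s k < |j - k|) →
  (∀ i, (∀ j ∈ J, s j < |i - j|) → ((i ∈ C'.I ↔ i ∈ C.I) ∧
    (i ∈ C.I → C'.rad i = C.rad i ∧ C'.lab i = C.lab i))) →
  (∀ j ∈ J, Eqv (C.slot j (s j)) (C'.slot j (s j))) →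
  ∀ (L : Set X) (q : ℂ → X), IsClosed L → Pres C L q →
  ∃ Q : ℂ → X, Pres C' L Q ∧ ∀ z ∈ UC, Q z = q z

/-- EQV. Classification of finite configurations without free holes. Needs: CFIN, CCONG, REF, FREE,
UNI, MEX, DYCK, SUB.

(1) FREE (1) for given positions (no free holes: `FreeBd` is empty). (2) `Eqv C C'` for counts
`(1, 1) → (0, 3)`: DYCK and FREE (1). For `(0, 3) → (1, 1)`: let `M, q_M` be from MEX for `C'` (counts
`(1, 1)`). By DYCK, `univ` in `M` is also presented by `C` (counts `(0, 3)`), `q_M'`, with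
`q_M' = q_M` on `UC`. If `q` presents `L` by `C`, UNI gives `h : M → X` with `h (q_M' z) = q z`; `h ∘ q_M`
presents `L` by `C'`. (3) Both configurations are connected by a chain of moves `(t, p) ↔ (t - 1, p + 2)`
with `p ≥ 1`, all of them to `(0, p + 2 t)`. For one move choose the positions (FREE (1)) such that one
`T` and one `P` are the content of the ball of one centre of a configuration (REF with
`J = {j}`, `D j` with counts `(1, 1)`, resp. `(0, 3)`); SUB with `J = {j}` and (2). Transitivity of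
`Eqv`. -/
def St_EQV : Prop := ∀ C C' : Conf, C.Ok → C'.Ok → C.F = ∅ → C'.F = ∅ → C.cnt Lab.O = 0 →
  C'.cnt Lab.O = 0 →
  ((∀ l, C'.cnt l = C.cnt l) ∨ (0 < C.cnt Lab.P ∧ 0 < C'.cnt Lab.P ∧
    2 * C.cnt Lab.T + C.cnt Lab.P = 2 * C'.cnt Lab.T + C'.cnt Lab.P)) → Eqv C C'

end Pool.Agent.SRP
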